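import Pool.Agent.Lib_helper17.CRF.D_WN
import Pool.Agent.Lib_helper35.RS2.P_A3a

set_option autoImplicit false
set_option linter.unusedSectionVars false

namespace Pool.Agent.CR

open Pool.Agent.RSK Pool.Agent.RS2 Pool.Agent.RS3 Pool.Agent.SY
open NumberField IsDedekindDomain Filter Topology Complex

section N

variable {F K : Type} [Field F] [NumberField F] [Field K] [NumberField K] [Algebra F K]
  [IsGalois F K] {G : Type} [CommGroup G] [Fintype G] {ι : G ≃* (K ≃ₐ[F] K)}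
  {S T : Finset (HeightOneSpectrum (𝓞 F))} {r : ℕ} {w : Fin r → Pl K}
  {fr : HeightOneSpectrum (𝓞 F) → G}

theorem dgF_eq_pr (W : Pl K) (g : G) : g ∈ dgF ι (dn F W) ↔ act (ι g) W = W := by
  constructor
  · intro h
    exact h W rfl
  · intro h W' hW'
    obtain ⟨σ, rfl⟩ := act_trans (F := F) (W := W) (W' := W') hW'.symm
    obtain ⟨g', rfl⟩ := ι.surjective σ
    rw [← act_mul, ← map_mul, mul_comm, map_mul, act_mul, h]

theorem pc1_over (v : HeightOneSpectrum (𝓞 F)) :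
    ∃ W : HeightOneSpectrum (𝓞 K), W.under (𝓞 F) = v := by
  have hmax : v.asIdeal.IsMaximal := v.isMaximal
  obtain ⟨⟨Q, hQ⟩⟩ := Ideal.nonempty_primesOver (S := 𝓞 K) (P := v.asIdeal)
  have hQp : Q.IsPrime := hQ.1
  have hQl : Q.LiesOver v.asIdeal := hQ.2
  refine ⟨⟨Q, hQp, ?_⟩, ?_⟩
  · exact Ideal.ne_bot_of_liesOver_of_ne_bot v.ne_bot Q
  · exact HeightOneSpectrum.ext hQl.over.symm

theorem dgF_fr_pr {v : HeightOneSpectrum (𝓞 F)} (hun : ∀ W : HeightOneSpectrum (𝓞 K),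
      W.under (𝓞 F) = v → Algebra.IsUnramifiedAt (𝓞 F) W.asIdeal) {g : G} (hg : IsFr v (ι g)) :
    dgF ι (Sum.inr v : Pl F) = Subgroup.zpowers g := by
  obtain ⟨W, hW⟩ := pc1_over (K := K) v
  have h1 : FrAt W (ι g) := fun x => by rw [hW]; exact hg W hW x
  ext γ
  have h2 : (Sum.inr v : Pl F) = dn F (Sum.inr W : Pl K) := by
    show _ = Sum.inr (W.under (𝓞 F))
    rw [hW]
  rw [h2, dgF_eq_pr]
  have h3 := frAt_gen (hun W hW) h1 (ι γ)
  constructor
  · intro h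
    have h4 := h3.1 (Sum.inr.inj h)
    obtain ⟨n, hn⟩ := Subgroup.mem_zpowers_iff.1 h4
    rw [← map_zpow] at hn
    exact Subgroup.mem_zpowers_iff.2 ⟨n, ι.injective hn⟩
  · intro h
    obtain ⟨n, rfl⟩ := Subgroup.mem_zpowers_iff.1 h
    have h4 := h3.2 (Subgroup.mem_zpowers_iff.2 ⟨n, (map_zpow ι g n).symm⟩)
    show Sum.inr _ = Sum.inr W
    rw [h4]

theorem acG_pl_pr (g : G) (P : PS (ovr K S)) : (acG ι S g P).pl = act (ι g) P.pl :=
  acH_pl S (ι g) P

end N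

end Pool.Agent.CR

namespace Pool.Agent.CR
open Pool.Agent.RSK Pool.Agent.RS2 Pool.Agent.RS3 Pool.Agent.SY
open NumberField IsDedekindDomain Filter Topology Complex

section
variable {F K : Type} [Field F] [NumberField F] [Field K] [NumberField K] [Algebra F K]
  [IsGalois F K] {G : Type} [CommGroup G] [Fintype G] {ι : G ≃* (K ≃ₐ[F] K)}
  {S T : Finset (HeightOneSpectrum (𝓞 F))} {r : ℕ} {w : Fin r → Pl K}
  {fr : HeightOneSpectrum (𝓞 F) → G}

theorem dgF_eq (W : Pl K) (g : G) : g ∈ dgF ι (dn F W) ↔ act (ι g) W = W :=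
  @Pool.Agent.CR.dgF_eq_pr F K _ _ _ _ _ _ G _ _ ι W g

end

end Pool.Agent.CR

namespace Pool.Agent.CR
open Pool.Agent.RSK Pool.Agent.RS2 Pool.Agent.RS3 Pool.Agent.SY
open NumberField IsDedekindDomain Filter Topology Complex

section
variable {F K : Type} [Field F] [NumberField F] [Field K] [NumberField K] [Algebra F K]
  [IsGalois F K] {G : Type} [CommGroup G] [Fintype G] {ι : G ≃* (K ≃ₐ[F] K)}
  {S T : Finset (HeightOneSpectrum (𝓞 F))} {r : ℕ} {w : Fin r → Pl K}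
  {fr : HeightOneSpectrum (𝓞 F) → G}

theorem dgF_fr {v : HeightOneSpectrum (𝓞 F)} (hun : ∀ W : HeightOneSpectrum (𝓞 K),
      W.under (𝓞 F) = v → Algebra.IsUnramifiedAt (𝓞 F) W.asIdeal) {g : G} (hg : IsFr v (ι g)) :
    dgF ι (Sum.inr v : Pl F) = Subgroup.zpowers g :=
  @Pool.Agent.CR.dgF_fr_pr F K _ _ _ _ _ _ G _ _ ι v hun g hg

end

end Pool.Agent.CR

namespace Pool.Agent.CR
open Pool.Agent.RSK Pool.Agent.RS2 Pool.Agent.RS3 Pool.Agent.SY
open NumberField IsDedekindDomain Filter Topology Complex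

section
variable {F K : Type} [Field F] [NumberField F] [Field K] [NumberField K] [Algebra F K]
  [IsGalois F K] {G : Type} [CommGroup G] [Fintype G] {ι : G ≃* (K ≃ₐ[F] K)}
  {S T : Finset (HeightOneSpectrum (𝓞 F))} {r : ℕ} {w : Fin r → Pl K}
  {fr : HeightOneSpectrum (𝓞 F) → G}

theorem acG_pl (g : G) (P : PS (ovr K S)) : (acG ι S g P).pl = act (ι g) P.pl :=
  @Pool.Agent.CR.acG_pl_pr F K _ _ _ _ _ _ G _ _ ι S g P

end

end Pool.Agent.CR
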