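import Pool.Agent.Lib_helper17.CRF.D_WT
import Pool.Agent.Lib_helper17.CRF.N_PC1

/-!
# Composite Rubin (CR), block UL3
-/

set_option autoImplicit false
set_option linter.unusedSectionVars false

namespace Pool.Agent.CR

open Pool.Agent.RSK Pool.Agent.RS2 Pool.Agent.RS3 Pool.Agent.RS4 Pool.Agent.SY Pool.Agent.AU
  Pool.Agent.RT
open NumberField IsDedekindDomain Filter Topology Complex
open scoped TensorProduct

section UL

variable {F K H : Type} [Field F] [NumberField F] [Field K] [NumberField K] [Field H]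
  [NumberField H] [Algebra F K] [Algebra F H] [Algebra K H]
  [IsScalarTower F K H] [IsGalois F H] [IsGalois F K] [IsGalois K H]
  {G G' : Type} [CommGroup G] [Fintype G] [CommGroup G'] [Fintype G'] {ι : G ≃* (H ≃ₐ[F] H)}
  {ι' : G' ≃* (K ≃ₐ[F] K)} {π : G →* G'}
  {S T : Finset (HeightOneSpectrum (𝓞 F))} {r : ℕ} {w : Fin r → Pl H}
  {fr' : HeightOneSpectrum (𝓞 F) → G'}

theorem dgF_quo_pr (hq : Quo ι ι' π) (v : Pl F) : dgF ι' v = (dgF ι v).map π := by
  obtain ⟨W, rfl⟩ := dn_surj (H := H) v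
  ext g'
  obtain ⟨g, rfl⟩ := hq.surj g'
  rw [← dn_dn (F₀ := F) (F := K) W, dgF_eq, ← quo_act hq, Subgroup.mem_map]
  constructor
  · intro h
    obtain ⟨σ, hσ⟩ := act_trans (F := K) h
    obtain ⟨n, hn⟩ := ι.surjective (σ.restrictScalars F)
    have hn1 : π n = 1 := by
      have h2 : ι' (π n) = 1 := by
        ext x
        apply (algebraMap K H).injective
        rw [hq.compat, hn]
        show σ (algebraMap K H x) = algebraMap K H x
        exact σ.commutes x
      exact ι'.injective (by rw [h2, map_one])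
    refine ⟨n * g, ?_, by rw [map_mul, hn1, one_mul]⟩
    rw [dn_dn, dgF_eq, map_mul, act_mul, hn, act_restrict]
    exact hσ
  · rintro ⟨h, hh, he⟩
    rw [dn_dn, dgF_eq] at hh
    have h1 : dn K (act (ι g) W) = dn K (act (ι h) W) := by
      rw [quo_act hq, quo_act hq, he]
    rw [h1, hh]

end UL

section TP

variable {F H : Type} [Field F] [NumberField F] [Field H] [NumberField H] [Algebra F H]
  [IsGalois F H] {G : Type} [CommGroup G] [Fintype G] {ι : G ≃* (H ≃ₐ[F] H)}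
  {S T : Finset (HeightOneSpectrum (𝓞 F))} {r : ℕ} {w : Fin r → Pl H}
  {fr : HeightOneSpectrum (𝓞 F) → G}

/-- a subgroup all of whose elements have `q`-power order -/
theorem ul3_pg {G : Type} [CommGroup G] [Finite G] {q : ℕ} (hq : q.Prime) (B : Subgroup G) :
    (B ≠ ⊥ ∧ ∀ g ∈ B, ∃ i : ℕ, g ^ q ^ i = 1) ↔ ∃ a : ℕ, 0 < a ∧ Nat.card B = q ^ a := by
  have : Fact q.Prime := ⟨hq⟩
  have h1 : (∀ g ∈ B, ∃ i : ℕ, g ^ q ^ i = 1) ↔ IsPGroup q B := by
    constructor
    · intro h g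
      obtain ⟨i, hi⟩ := h g g.2
      exact ⟨i, Subtype.ext (by simpa using hi)⟩
    · intro h g hg
      obtain ⟨i, hi⟩ := h ⟨g, hg⟩
      exact ⟨i, by simpa using congrArg Subtype.val hi⟩
  rw [h1, IsPGroup.iff_card]
  constructor
  · rintro ⟨h, n, hn⟩
    refine ⟨n, Nat.pos_of_ne_zero fun h0 => h ?_, hn⟩
    rw [h0, pow_zero] at hn
    exact Subgroup.card_eq_one.1 hn
  · rintro ⟨a, ha, h⟩
    refine ⟨fun h0 => ?_, a, h⟩
    rw [h0, Subgroup.card_bot] at h
    exact (Nat.one_lt_pow ha.ne' hq.one_lt).ne h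

theorem wts_N_pr {q : ℕ} (hq : q.Prime) (N : Subgroup G)
    {ι' : (G ⧸ N) ≃* (Kf ι N ≃ₐ[F] Kf ι N)} (hQ : Quo ι ι' (QuotientGroup.mk' N)) :
    wts ι' S q = ∑ P : PS S, wtN q ι N P.pl ∧
      del q (G ⧸ N) = (if N.index = q ^ N.index.factorization q then 1 else 0) := by
  classical
  have : Fact q.Prime := ⟨hq⟩
  have := kf_galois (ι := ι) N
  have hcard : Nat.card (G ⧸ N) = N.index := rfl
  refine ⟨?_, ?_⟩
  · unfold wts
    refine Finset.sum_congr rfl fun P _ => ?_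
    show wtB q (dgF ι' P.pl) = _
    rw [dgF_quo_pr hQ]
    have hc : Nat.card ((dgF ι P.pl).map (QuotientGroup.mk' N)) =
        N.relIndex (dgF ι P.pl ⊔ N) := by
      rw [Subgroup.relIndex_sup_right, ← Subgroup.relIndex_ker, QuotientGroup.ker_mk']
    unfold wtB wtN
    by_cases h : ∃ a : ℕ, 0 < a ∧ N.relIndex (dgF ι P.pl ⊔ N) = q ^ a
    · have h' : ∃ a : ℕ, 0 < a ∧
          Nat.card ((dgF ι P.pl).map (QuotientGroup.mk' N)) = q ^ a := by
        rw [hc]
        exact h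
      rw [dif_pos h, if_pos ((ul3_pg hq _).2 h'), hcard, hc]
      congr 1
      exact h.choose_spec.2
    · rw [dif_neg h, if_neg]
      intro h'
      apply h
      rw [← hc]
      exact (ul3_pg hq _).1 h'
  · unfold del
    have h1 : (∀ g : G ⧸ N, ∃ i : ℕ, g ^ q ^ i = 1) ↔
        N.index = q ^ N.index.factorization q := by
      have h2 : (∀ g : G ⧸ N, ∃ i : ℕ, g ^ q ^ i = 1) ↔ IsPGroup q (G ⧸ N) := Iff.rfl
      rw [h2, IsPGroup.iff_card, hcard]
      constructor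
      · rintro ⟨n, hn⟩
        rw [hn, Nat.Prime.factorization_pow hq]
        simp
      · intro h
        exact ⟨_, h⟩
    simp only [h1]

end TP

end Pool.Agent.CR

namespace Pool.Agent.CR
open Pool.Agent.RSK Pool.Agent.RS2 Pool.Agent.RS3 Pool.Agent.RS4 Pool.Agent.SY Pool.Agent.AU
  Pool.Agent.RT
open NumberField IsDedekindDomain Filter Topology Complex
open scoped TensorProduct

section
variable {F K H : Type} [Field F] [NumberField F] [Field K] [NumberField K] [Field H]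
  [NumberField H] [Algebra F K] [Algebra F H] [Algebra K H]
  [IsScalarTower F K H] [IsGalois F H] [IsGalois F K] [IsGalois K H]
  {G G' : Type} [CommGroup G] [Fintype G] [CommGroup G'] [Fintype G'] {ι : G ≃* (H ≃ₐ[F] H)}
  {ι' : G' ≃* (K ≃ₐ[F] K)} {π : G →* G'}
  {S T : Finset (HeightOneSpectrum (𝓞 F))} {r : ℕ} {w : Fin r → Pl H}
  {fr' : HeightOneSpectrum (𝓞 F) → G'}

theorem dgF_quo (hq : Quo ι ι' π) (v : Pl F) : dgF ι' v = (dgF ι v).map π :=
  @Pool.Agent.CR.dgF_quo_pr F K H _ _ _ _ _ _ _ _ _ _ _ _ _ G G' _ _ _ _ ι ι' π hq v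

end

end Pool.Agent.CR

namespace Pool.Agent.CR
open Pool.Agent.RSK Pool.Agent.RS2 Pool.Agent.RS3 Pool.Agent.RS4 Pool.Agent.SY Pool.Agent.AU
  Pool.Agent.RT
open NumberField IsDedekindDomain Filter Topology Complex
open scoped TensorProduct

section
variable {F H : Type} [Field F] [NumberField F] [Field H] [NumberField H] [Algebra F H]
  [IsGalois F H] {G : Type} [CommGroup G] [Fintype G] {ι : G ≃* (H ≃ₐ[F] H)}
  {S T : Finset (HeightOneSpectrum (𝓞 F))} {r : ℕ} {w : Fin r → Pl H}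
  {fr : HeightOneSpectrum (𝓞 F) → G}

theorem wts_N {q : ℕ} (hq : q.Prime) (N : Subgroup G)
    {ι' : (G ⧸ N) ≃* (Kf ι N ≃ₐ[F] Kf ι N)} (hQ : Quo ι ι' (QuotientGroup.mk' N)) :
    wts ι' S q = ∑ P : PS S, wtN q ι N P.pl ∧
      del q (G ⧸ N) = (if N.index = q ^ N.index.factorization q then 1 else 0) :=
  @Pool.Agent.CR.wts_N_pr F H _ _ _ _ _ _ G _ _ ι S q hq N ι' hQ

end

end Pool.Agent.CR
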