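import Pool.Agent.Lib_helper17.CRF.D_WN
import Pool.Agent.Lib_helper17.CRF.N_PC1

/-!
# Composite Rubin (CR), block PC5 (helper62): the split places
-/

set_option autoImplicit false
set_option linter.unusedSectionVars false

namespace Pool.Agent.CR

open Pool.Agent.RSK Pool.Agent.RS2 Pool.Agent.RS3 Pool.Agent.SY
open NumberField IsDedekindDomain Filter Topology Complex

section N

variable {F K : Type} [Field F] [NumberField F] [Field K] [NumberField K] [Algebra F K]
  [IsGalois F K] {G : Type} [CommGroup G] [Fintype G] {ι : G ≃* (K ≃ₐ[F] K)}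
  {S T : Finset (HeightOneSpectrum (𝓞 F))} {r : ℕ} {w : Fin r → Pl K}
  {fr : HeightOneSpectrum (𝓞 F) → G}

/-- the places of `PS S` lie in `S` -/
theorem pc5_inS {k : Type} [Field k] [NumberField k] {S : Finset (HeightOneSpectrum (𝓞 k))}
    (P : PS S) : InS S P.pl := by
  rcases P with P | P
  · trivial
  · exact P.2

/-- a place in `S` is the place of an element of `PS S` -/
theorem pc5_of {k : Type} [Field k] [NumberField k] {S : Finset (HeightOneSpectrum (𝓞 k))}
    {v : Pl k} (h : InS S v) : ∃ P : PS S, P.pl = v := by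
  rcases v with v | v
  · exact ⟨Sum.inl v, rfl⟩
  · exact ⟨Sum.inr ⟨v, h⟩, rfl⟩

/-- the places of `K` above `S` -/
theorem pc5_ovr (S : Finset (HeightOneSpectrum (𝓞 F))) (W : Pl K) :
    InS (ovr K S) W ↔ InS S (dn F W) := by
  rcases W with W | W
  · exact Iff.rfl
  · exact mem_ovr

/-- the stabilizer of a place as a subgroup of `G` and of the Galois group -/
theorem pc5_stab (W : Pl K) (h : ∀ g : G, act (ι g) W = W → g = 1) (σ : K ≃ₐ[F] K)
    (hσ : act σ W = W) : σ = 1 := by
  have h1 := h (ι.symm σ) (by rw [MulEquiv.apply_symm_apply]; exact hσ)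
  rw [← ι.apply_symm_apply σ, h1, map_one]

/-- The decomposition group of `v` is trivial if and only if no `g ≠ 1` fixes `W`, for a place `W`
above `v` (`dgF_eq`). -/
theorem pc5_bot (W : Pl K) : dgF ι (dn F W) = ⊥ ↔ ∀ g : G, act (ι g) W = W → g = 1 := by
  constructor
  · intro h g hg
    have h1 : g ∈ dgF ι (dn F W) := (dgF_eq W g).2 hg
    rw [h] at h1
    exact Subgroup.mem_bot.1 h1
  · intro h
    refine (Subgroup.eq_bot_iff_forall _).2 fun g hg => h g ((dgF_eq W g).1 hg)

/-- PC5. For `Data`: the places in `S` with trivial decomposition group are those below the `w_i`, and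
the `w_i` as elements of `PS (ovr K S)`. In particular `G` is not trivial (`card`).

Proof. The decomposition group of the place `v_i` below `w_i` is the stabilizer of `w_i` (`dgF_eq`),
which is trivial (`split`); the `v_i` are pairwise distinct (`inj`), and a place with trivial
decomposition group is one of the `v_i` (`all`, applied to a place of `K` above it). If `G` is trivial,
all places in `S` have a trivial decomposition group, so `#S = r`, against `card`. The remaining
statements are `split`, `inj`, and `all` with `act_trans`. -/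
theorem data_pl_pr (hD : Data ι S T r w fr) :
    Nat.card {v : PS S // dgS ι S v = ⊥} = r ∧ Nontrivial G ∧
    ∃ w' : Fin r → PS (ovr K S), (∀ i, (w' i).pl = w i) ∧
      (∀ i g, acG ι S g (w' i) = w' i → g = 1) ∧
      (∀ i i' g, acG ι S g (w' i) = w' i' → i = i') ∧
      ∀ ω, (∀ g, acG ι S g ω = ω → g = 1) → ∃ i g, ω = acG ι S g (w' i) := by
  classical
  have hst : ∀ i, ∀ g : G, act (ι g) (w i) = w i → g = 1 := fun i g hg =>
    (map_eq_one_iff ι ι.injective).1 (hD.split i _ hg)
  -- the number of the split places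
  have hcard : Nat.card {v : PS S // dgS ι S v = ⊥} = r := by
    choose v hv using fun i => pc5_of (hD.mem i)
    let f : Fin r → {v : PS S // dgS ι S v = ⊥} := fun i => ⟨v i, by
      show dgF ι (v i).pl = ⊥
      rw [hv]
      exact (pc5_bot (w i)).2 (hst i)⟩
    have hf : Function.Bijective f := by
      constructor
      · intro i i' h
        have h1 : v i = v i' := congrArg Subtype.val h
        refine hD.inj i i' ?_
        rw [← hv, ← hv, h1]
      · rintro ⟨u, hu⟩
        obtain ⟨W, hW⟩ := dn_surj (H := K) u.pl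
        have hu1 : dgF ι (dn F W) = ⊥ := by rw [hW]; exact hu
        obtain ⟨i, hi⟩ := hD.all W (by rw [hW]; exact pc5_inS u)
          (pc5_stab W ((pc5_bot W).1 hu1))
        refine ⟨i, Subtype.ext (PS_ext ?_)⟩
        show (v i).pl = u.pl
        rw [hv, ← hi, hW]
    rw [← Nat.card_eq_of_bijective f hf, Nat.card_eq_fintype_card, Fintype.card_fin]
  refine ⟨hcard, ?_, ?_⟩
  · by_contra hn
    have hs : Subsingleton G := not_nontrivial_iff_subsingleton.1 hn
    have h1 : ∀ v : PS S, dgS ι S v = ⊥ := fun v => Subsingleton.elim _ _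
    have h2 : Nat.card {v : PS S // dgS ι S v = ⊥} = Nat.card (PS S) :=
      Nat.card_congr (Equiv.subtypeUnivEquiv h1)
    have h3 : Nat.card (PS S) = Fintype.card (InfinitePlace F) + S.card := by
      rw [Nat.card_eq_fintype_card, Fintype.card_sum, Fintype.card_coe]
    have h4 := hD.card
    omega
  · choose w' hw' using fun i => pc5_of ((pc5_ovr S (w i)).2 (hD.mem i))
    refine ⟨w', hw', ?_, ?_, ?_⟩
    · intro i g h
      refine hst i g ?_
      rw [← hw', ← acG_pl, h]
    · intro i i' g h
      refine hD.inj i i' ?_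
      rw [← hw' i', ← h, acG_pl, dn_act, hw']
    · intro ω h
      have h1 : ∀ g : G, act (ι g) ω.pl = ω.pl → g = 1 := fun g hg =>
        h g (PS_ext (by rw [acG_pl, hg]))
      obtain ⟨i, hi⟩ := hD.all ω.pl ((pc5_ovr S ω.pl).1 (pc5_inS ω)) (pc5_stab _ h1)
      obtain ⟨σ, hσ⟩ := act_trans hi.symm
      refine ⟨i, ι.symm σ, PS_ext ?_⟩
      rw [acG_pl, MulEquiv.apply_symm_apply, hw', hσ]

end N

end Pool.Agent.CR

namespace Pool.Agent.CR
open Pool.Agent.RSK Pool.Agent.RS2 Pool.Agent.RS3 Pool.Agent.SY
open NumberField IsDedekindDomain Filter Topology Complex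

section
variable {F K : Type} [Field F] [NumberField F] [Field K] [NumberField K] [Algebra F K]
  [IsGalois F K] {G : Type} [CommGroup G] [Fintype G] {ι : G ≃* (K ≃ₐ[F] K)}
  {S T : Finset (HeightOneSpectrum (𝓞 F))} {r : ℕ} {w : Fin r → Pl K}
  {fr : HeightOneSpectrum (𝓞 F) → G}

theorem data_pl (hD : Data ι S T r w fr) :
    Nat.card {v : PS S // dgS ι S v = ⊥} = r ∧ Nontrivial G ∧
    ∃ w' : Fin r → PS (ovr K S), (∀ i, (w' i).pl = w i) ∧
      (∀ i g, acG ι S g (w' i) = w' i → g = 1) ∧
      (∀ i i' g, acG ι S g (w' i) = w' i' → i = i') ∧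
      ∀ ω, (∀ g, acG ι S g ω = ω → g = 1) → ∃ i g, ω = acG ι S g (w' i) :=
  @Pool.Agent.CR.data_pl_pr F K _ _ _ _ _ _ G _ _ ι S T r w fr hD

end

end Pool.Agent.CR
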