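import Pool.Agent.Lib_helper17.CRF.D_WE
import Pool.Agent.Lib_helper17.CRF.N_PC5
import Pool.Agent.Lib_helper17.CRF.N_PC1

/-!
# Composite Rubin (CR), block ED: `SBigE` and `t ≥ mQ` imply `CondT`
-/

set_option autoImplicit false
set_option linter.unusedSectionVars false

namespace Pool.Agent.CR

open Pool.Agent.RSK Pool.Agent.RS2 Pool.Agent.RS3 Pool.Agent.RS4 Pool.Agent.SY Pool.Agent.AU
  Pool.Agent.RT
open NumberField IsDedekindDomain Filter Topology Complex
open scoped TensorProduct

/-- the arithmetic inequality -/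
theorem ed_arith {q : ℕ} (hq : 2 ≤ q) {j e k i : ℕ} (hj : 0 < j) (hje : j ≤ e) (hek : e ≤ k)
    (hk : i + j = k) :
    q ^ (j - 1) * (i * (q - 1) + 1) ≤ q ^ (e - 1) * ((k - e) * (q - 1) + 1) := by
  obtain ⟨s, rfl⟩ := Nat.exists_eq_add_of_le hq
  obtain ⟨t, rfl⟩ := Nat.exists_eq_add_of_le hje
  obtain ⟨u, rfl⟩ := Nat.exists_eq_add_of_le hek
  have hi : i = t + u := by omega
  subst hi
  have e1 : j + t - 1 = (j - 1) + t := by omega
  have e2 : j + t + u - (j + t) = u := by omega
  have e3 : 2 + s - 1 = s + 1 := by omega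
  rw [e1, e2, e3, pow_add, mul_assoc]
  refine Nat.mul_le_mul_left _ ?_
  have hb : 1 + t * (s + 1) ≤ (2 + s) ^ t := by
    have h := one_add_mul_le_pow (R := ℤ) (a := (s : ℤ) + 1) (by linarith) t
    have h2 : ((1 + t * (s + 1) : ℕ) : ℤ) ≤ (((2 + s) ^ t : ℕ) : ℤ) := by
      push_cast
      calc (1 : ℤ) + t * (s + 1) ≤ (1 + ((s : ℤ) + 1)) ^ t := h
        _ = (2 + (s : ℤ)) ^ t := by ring_nf
    exact_mod_cast h2
  calc (t + u) * (s + 1) + 1 = (1 + t * (s + 1)) * 1 + u * (s + 1) := by ring
    _ ≤ (2 + s) ^ t * 1 + u * (s + 1) := by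
        refine Nat.add_le_add_right (Nat.mul_le_mul_right _ hb) _
    _ ≤ (2 + s) ^ t * 1 + (2 + s) ^ t * (u * (s + 1)) := by
        refine Nat.add_le_add_left ?_ _
        exact Nat.le_mul_of_pos_left _ (by positivity)
    _ = (2 + s) ^ t * (u * (s + 1) + 1) := by ring

section G

variable {G : Type} [CommGroup G] [Fintype G]

/-- the preimage `M` of the Sylow subgroup of `G/N` -/
theorem ed_syl {q : ℕ} (hq : q.Prime) (N : Subgroup G) (hN : IsCyclic (G ⧸ N)) :
    ∃ M : Subgroup G, N ≤ M ∧ IsCyclic (G ⧸ M) ∧ ¬ q ∣ M.index ∧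
      N.relIndex M = q ^ (N.index.factorization q) := by
  have : Fact q.Prime := ⟨hq⟩
  let Q : Sylow q (G ⧸ N) := default
  have hcard : Nat.card (G ⧸ N) = N.index := rfl
  refine ⟨(Q : Subgroup (G ⧸ N)).comap (QuotientGroup.mk' N), ?_, ?_, ?_, ?_⟩
  · intro g hg
    rw [Subgroup.mem_comap]
    have : QuotientGroup.mk' N g = 1 := by
      rw [QuotientGroup.mk'_apply]
      exact (QuotientGroup.eq_one_iff g).2 hg
    rw [this]
    exact one_mem _
  · have hle : N ≤ (Q : Subgroup (G ⧸ N)).comap (QuotientGroup.mk' N) := by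
      intro g hg
      rw [Subgroup.mem_comap]
      have : QuotientGroup.mk' N g = 1 := by
        rw [QuotientGroup.mk'_apply]
        exact (QuotientGroup.eq_one_iff g).2 hg
      rw [this]
      exact one_mem _
    refine isCyclic_of_surjective (QuotientGroup.map N
      ((Q : Subgroup (G ⧸ N)).comap (QuotientGroup.mk' N)) (MonoidHom.id G) hle) ?_
    intro x
    obtain ⟨g, rfl⟩ := QuotientGroup.mk_surjective x
    exact ⟨(g : G ⧸ N), rfl⟩
  · rw [Subgroup.index_comap_of_surjective _ (QuotientGroup.mk'_surjective N)]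
    exact Q.not_dvd_index
  · have hle : N ≤ (Q : Subgroup (G ⧸ N)).comap (QuotientGroup.mk' N) := by
      intro g hg
      rw [Subgroup.mem_comap]
      have : QuotientGroup.mk' N g = 1 := by
        rw [QuotientGroup.mk'_apply]
        exact (QuotientGroup.eq_one_iff g).2 hg
      rw [this]
      exact one_mem _
    have h1 := Subgroup.relIndex_mul_index hle
    rw [Subgroup.index_comap_of_surjective _ (QuotientGroup.mk'_surjective N)] at h1
    have h2 := (Q : Subgroup (G ⧸ N)).card_mul_index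
    rw [hcard] at h2
    have h3 : Nat.card (Q : Subgroup (G ⧸ N)) = q ^ (N.index.factorization q) := by
      have := Q.card_eq_multiplicity
      rw [hcard] at this
      exact this
    have h4 : (Q : Subgroup (G ⧸ N)).index ≠ 0 := Subgroup.index_ne_zero_of_finite
    have h5 : N.relIndex ((Q : Subgroup (G ⧸ N)).comap (QuotientGroup.mk' N)) *
        (Q : Subgroup (G ⧸ N)).index = Nat.card (Q : Subgroup (G ⧸ N)) *
        (Q : Subgroup (G ⧸ N)).index := by rw [h1, h2]
    rw [← h3]
    exact Nat.eq_of_mul_eq_mul_right (Nat.pos_of_ne_zero h4) h5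

theorem ed_fac {q : ℕ} (N : Subgroup G) (hN : IsCyclic (G ⧸ N)) :
    N.index.factorization q ≤ (Monoid.exponent G).factorization q ∧
      (Monoid.exponent G).factorization q ≤ (Nat.card G).factorization q ∧
      (Nat.card N).factorization q + N.index.factorization q = (Nat.card G).factorization q := by
  have he0 : Monoid.exponent G ≠ 0 := Monoid.exponent_ne_zero_of_finite
  have hc0 : Nat.card G ≠ 0 := Nat.card_pos.ne'
  have hN0 : N.index ≠ 0 := Subgroup.index_ne_zero_of_finite
  refine ⟨?_, ?_, ?_⟩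
  · have h1 : N.index ∣ Monoid.exponent G := by
      have h2 : Monoid.exponent (G ⧸ N) = Nat.card (G ⧸ N) := IsCyclic.exponent_eq_card
      change Nat.card (G ⧸ N) ∣ _
      rw [← h2]
      refine Monoid.exponent_dvd_of_forall_pow_eq_one ?_
      intro x
      obtain ⟨g, rfl⟩ := QuotientGroup.mk_surjective x
      rw [← QuotientGroup.mk_pow, Monoid.pow_exponent_eq_one, QuotientGroup.mk_one]
    exact (Nat.factorization_le_iff_dvd hN0 he0).2 h1 q
  · exact (Nat.factorization_le_iff_dvd he0 hc0).2 Group.exponent_dvd_nat_card q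
  · have h := N.card_mul_index
    rw [← h, Nat.factorization_mul Nat.card_pos.ne' hN0]
    rfl

end G

section TP

variable {F H : Type} [Field F] [NumberField F] [Field H] [NumberField H] [Algebra F H]
  [IsGalois F H] {G : Type} [CommGroup G] [Fintype G] {ι : G ≃* (H ≃ₐ[F] H)}
  {S T : Finset (HeightOneSpectrum (𝓞 F))} {r : ℕ} {w : Fin r → Pl H}
  {fr : HeightOneSpectrum (𝓞 F) → G}

theorem ed_inS (P : PS S) : InS S P.pl := by
  rcases P with v | v
  · trivial
  · exact v.2

theorem ed_pl_inj {P P' : PS S} (h : P.pl = P'.pl) : P = P' := by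
  rcases P with v | v <;> rcases P' with v' | v'
  · exact congrArg Sum.inl (Sum.inl.inj h)
  · exact absurd h (by intro h; cases h)
  · exact absurd h (by intro h; cases h)
  · exact congrArg Sum.inr (Subtype.ext (Sum.inr.inj h))

theorem ed_below (N : Subgroup G) (hX : NoX ι S w N) (P : PS S) (hP : dgF ι P.pl ≤ N) :
    ∃ l, P.pl = dn F (w l) := by
  obtain ⟨W, hW⟩ := dn_surj (H := H) P.pl
  obtain ⟨l, hl⟩ := hX W (by rw [hW]; exact ed_inS P) (fun g hg => by
    refine hP ?_
    rw [← hW]
    exact (dgF_eq W g).2 hg)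
  exact ⟨l, by rw [← hl, hW]⟩

theorem ed_card (N : Subgroup G) (hX : NoX ι S w N) :
    Nat.card {P : PS S // dgF ι P.pl ≤ N} ≤ r := by
  have hb := ed_below (ι := ι) (S := S) (w := w) N hX
  choose l hl using hb
  have h : Function.Injective (fun P : {P : PS S // dgF ι P.pl ≤ N} => l P.1 P.2) := by
    intro P P' h
    refine Subtype.ext (ed_pl_inj ?_)
    rw [hl P.1 P.2, hl P'.1 P'.2]
    exact congrArg (fun x => dn F (w x)) h
  have h2 := Nat.card_le_card_of_injective _ h
  rwa [Nat.card_fin] at h2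

theorem ed_ge {q : ℕ} (hq : q.Prime) (N M : Subgroup G) (hNM : N ≤ M)
    (hM : N.relIndex M = q ^ (N.index.factorization q)) (v : Pl F) (h1 : dgF ι v ≤ M)
    (h2 : ¬ dgF ι v ≤ N) : 1 ≤ wtN q ι N v := by
  have hd : N.relIndex (dgF ι v ⊔ N) ∣ q ^ (N.index.factorization q) := by
    rw [← hM, ← Subgroup.relIndex_mul_relIndex N (dgF ι v ⊔ N) M le_sup_right
      (sup_le h1 hNM)]
    exact Dvd.intro _ rfl
  obtain ⟨a, ha, hae⟩ := (Nat.dvd_prime_pow hq).1 hd
  have ha0 : 0 < a := by
    rcases Nat.eq_zero_or_pos a with h | h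
    · exfalso
      rw [h, pow_zero, Subgroup.relIndex_eq_one] at hae
      exact h2 (le_trans le_sup_left hae)
    · exact h
  have hex : ∃ a : ℕ, 0 < a ∧ N.relIndex (dgF ι v ⊔ N) = q ^ a := ⟨a, ha0, hae⟩
  unfold wtN
  rw [dif_pos hex]
  have hc : hex.choose = a := by
    have h3 : q ^ a = q ^ hex.choose := hae.symm.trans hex.choose_spec.2
    exact (Nat.pow_right_injective hq.two_le h3).symm
  rw [hc]
  exact Nat.div_pos (Nat.pow_le_pow_right hq.pos ha) (pow_pos hq.pos _)

theorem ed_sum0 {q : ℕ} (hq : q.Prime) (N M : Subgroup G) (hNM : N ≤ M)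
    (hX : NoX ι S w N) (hM : N.relIndex M = q ^ (N.index.factorization q)) {c : ℕ}
    (hc : r + c ≤ Nat.card {P : PS S // dgF ι P.pl ≤ M}) :
    c ≤ ∑ P : PS S, wtN q ι N P.pl := by
  classical
  set A : Finset (PS S) := Finset.univ.filter (fun P => dgF ι P.pl ≤ M) with hA
  set B : Finset (PS S) := Finset.univ.filter (fun P => dgF ι P.pl ≤ N) with hB
  have cA : Nat.card {P : PS S // dgF ι P.pl ≤ M} = A.card := by
    rw [Nat.card_eq_fintype_card, Fintype.card_subtype]
  have cB : Nat.card {P : PS S // dgF ι P.pl ≤ N} = B.card := by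
    rw [Nat.card_eq_fintype_card, Fintype.card_subtype]
  have h1 := ed_card (ι := ι) (S := S) (w := w) N hX
  rw [cB] at h1
  rw [cA] at hc
  have hBA : B ⊆ A := by
    intro P hP
    rw [hB, Finset.mem_filter] at hP
    rw [hA, Finset.mem_filter]
    exact ⟨hP.1, le_trans hP.2 hNM⟩
  have h2 : (A \ B).card = A.card - B.card := Finset.card_sdiff_of_subset hBA
  have h3 : c ≤ (A \ B).card := by omega
  calc c ≤ (A \ B).card := h3
    _ = ∑ P ∈ A \ B, 1 := by rw [Finset.sum_const, smul_eq_mul, mul_one]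
    _ ≤ ∑ P ∈ A \ B, wtN q ι N P.pl := by
        refine Finset.sum_le_sum (fun P hP => ?_)
        rw [Finset.mem_sdiff, hA, hB, Finset.mem_filter, Finset.mem_filter] at hP
        exact ed_ge hq N M hNM hM P.pl hP.1.2 (fun h => hP.2 ⟨Finset.mem_univ _, h⟩)
    _ ≤ ∑ P : PS S, wtN q ι N P.pl :=
        Finset.sum_le_sum_of_subset (Finset.subset_univ _)

theorem ed_r (hD : Data ι S T r w fr) (M : Subgroup G) :
    r ≤ Nat.card {P : PS S // dgF ι P.pl ≤ M} := by
  have h1 := (data_pl hD).1
  rw [← h1]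
  refine Nat.card_le_card_of_injective
    (fun v : {v : PS S // dgS ι S v = ⊥} =>
      (⟨v.1, by
        have h2 : dgF ι v.1.pl = ⊥ := v.2
        rw [h2]
        exact bot_le⟩ : {P : PS S // dgF ι P.pl ≤ M})) ?_
  intro v v' h
  exact Subtype.ext (congrArg (fun x : {P : PS S // dgF ι P.pl ≤ M} => x.1) h)

theorem ed_sum {q : ℕ} (hq : q.Prime) (N M : Subgroup G) (hNM : N ≤ M)
    (hX : NoX ι S w N) (hM : N.relIndex M = q ^ (N.index.factorization q)) {c t : ℕ}
    (hc : r + c ≤ Nat.card {P : PS S // dgF ι P.pl ≤ M} + t) :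
    c ≤ (∑ P : PS S, wtN q ι N P.pl) + t := by
  rcases le_total c t with h | h
  · omega
  · have h1 : r + (c - t) ≤ Nat.card {P : PS S // dgF ι P.pl ≤ M} := by omega
    have h2 := ed_sum0 hq N M hNM hX hM h1
    omega

/-- ED. `SBigE` and `t ≥ mQ` imply `CondT`; as WT2 (`big_cond`), which is the case `t = 0`. If
`t ≥ mQ`, then `SBigE` holds by `Data`. -/
theorem condE_T_pr (hD : Data ι S T r w fr) {q κ t : ℕ} (hq : q.Prime)
    (h : mQ q G ≤ t ∨ SBigE q t ι S r) : CondT q κ t ι S w := by
  have hB : SBigE q t ι S r := by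
    rcases h with h | h
    · have h1 := hD.card
      refine ⟨by omega, fun M _ _ _ => ?_⟩
      have h2 := ed_r hD M
      omega
    · exact h
  obtain ⟨hS, hMM⟩ := hB
  set m := mQ q G with hm
  have hm1 : 1 ≤ m := by
    rw [hm]
    exact Nat.mul_pos (pow_pos hq.pos _) (Nat.succ_pos _)
  refine ⟨by omega, ?_⟩
  intro N i j hN hNt hX hi hj
  constructor
  · intro hj0 ht0
    exfalso
    have hnd : ¬ q ∣ N.index := by
      intro hd
      have := hq.factorization_pos_of_dvd Subgroup.index_ne_zero_of_finite hd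
      omega
    have h1 := hMM N hNt hN hnd
    have h2 := ed_card (ι := ι) (S := S) (w := w) N hX
    omega
  · intro hj0
    obtain ⟨M, hNM, hMc, hMd, hMr⟩ := ed_syl hq N hN
    obtain ⟨f1, f2, f3⟩ := ed_fac (q := q) N hN
    have har := ed_arith (q := q) hq.two_le (j := j)
      (e := (Monoid.exponent G).factorization q) (k := (Nat.card G).factorization q) (i := i) hj0
      (by rw [hj]; exact f1) f2 (by rw [hi, hj]; exact f3)
    change _ ≤ mQ q G at har
    rw [← hm] at har
    by_cases hMt : M = ⊤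
    · have hcard : r + (m + 1) ≤ Nat.card {P : PS S // dgF ι P.pl ≤ M} + t := by
        have hall : Nat.card {P : PS S // dgF ι P.pl ≤ M} = Nat.card (PS S) := by
          refine Nat.card_congr (Equiv.subtypeUnivEquiv (fun P => ?_))
          rw [hMt]
          exact le_top
        rw [hall, Nat.card_eq_fintype_card, Fintype.card_sum, Fintype.card_coe]
        omega
      have h1 := ed_sum hq N M hNM hX hMr hcard
      have h2 : (if N.index = q ^ j then 1 else 0) ≤ 1 := by split_ifs <;> omega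
      omega
    · have hcard := hMM M hMt hMc hMd
      have h1 := ed_sum hq N M hNM hX hMr hcard
      have h2 : ¬ N.index = q ^ j := by
        intro hh
        apply hMt
        have h3 := Subgroup.relIndex_mul_index hNM
        rw [hMr, ← hj, hh] at h3
        have h4 : M.index = 1 := by
          have h5 : q ^ j * M.index = q ^ j * 1 := by rw [h3, mul_one]
          exact Nat.eq_of_mul_eq_mul_left (pow_pos hq.pos _) h5
        exact Subgroup.index_eq_one.1 h4
      rw [if_neg h2, add_zero]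
      omega

end TP

end Pool.Agent.CR

namespace Pool.Agent.CR
open Pool.Agent.RSK Pool.Agent.RS2 Pool.Agent.RS3 Pool.Agent.RS4 Pool.Agent.SY Pool.Agent.AU
  Pool.Agent.RT
open NumberField IsDedekindDomain Filter Topology Complex
open scoped TensorProduct

section
variable {F H : Type} [Field F] [NumberField F] [Field H] [NumberField H] [Algebra F H]
  [IsGalois F H] {G : Type} [CommGroup G] [Fintype G] {ι : G ≃* (H ≃ₐ[F] H)}
  {S T : Finset (HeightOneSpectrum (𝓞 F))} {r : ℕ} {w : Fin r → Pl H}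
  {fr : HeightOneSpectrum (𝓞 F) → G}

theorem condE_T (hD : Data ι S T r w fr) {q κ t : ℕ} (hq : q.Prime)
    (h : mQ q G ≤ t ∨ SBigE q t ι S r) : CondT q κ t ι S w :=
  @Pool.Agent.CR.condE_T_pr F H _ _ _ _ _ _ G _ _ ι S T r w fr hD q κ t hq h

end

end Pool.Agent.CR
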