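import Pool.Agent.Lib_helper17.CRF.D_WE

/-!
CR, block EA: Chebotarev for the abelian extension
-/

set_option autoImplicit false
set_option linter.unusedSectionVars false

namespace Pool.Agent.CR

open Pool.Agent.RSK Pool.Agent.RS2 Pool.Agent.RS3 Pool.Agent.RS4 Pool.Agent.SY Pool.Agent.AU
  Pool.Agent.RT
open NumberField IsDedekindDomain Filter Topology Complex
open scoped TensorProduct

section E

variable {F H : Type} [Field F] [NumberField F] [Field H] [NumberField H] [Algebra F H]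
  [IsGalois F H] {G : Type} [CommGroup G] [Fintype G] {ι : G ≃* (H ≃ₐ[F] H)}
  {S T : Finset (HeightOneSpectrum (𝓞 F))} {r : ℕ} {w : Fin r → Pl H}
  {fr : HeightOneSpectrum (𝓞 F) → G}

theorem ea_large {Q : Set ℕ}
    (hQ : ¬ Summable (fun p : Nat.Primes => Q.indicator (fun q : ℕ => (q : ℝ)⁻¹) p)) (M : ℕ) :
    ∃ q ∈ Q, q.Prime ∧ M < q := by
  by_contra hcon
  apply hQ
  have hfin : {p : Nat.Primes | (p : ℕ) ≤ M}.Finite :=
    (Set.finite_Iic M).preimage (fun a _ b _ hab => Subtype.ext hab)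
  refine summable_of_hasFiniteSupport (hfin.subset ?_)
  intro p hp
  by_contra hpM
  have hpM' : M < (p : ℕ) := not_le.1 hpM
  apply hp
  show Q.indicator (fun q : ℕ => (q : ℝ)⁻¹) p = 0
  apply Set.indicator_of_notMem
  intro hpQ
  exact hcon ⟨p, hpQ, p.2, hpM'⟩

/-- EA. Chebotarev for the abelian extension `H/F` -/
theorem ab_cheb_pr (hD : Data ι S T r w fr) (g : G) (B : Finset (HeightOneSpectrum (𝓞 F))) :
    ∃ v : HeightOneSpectrum (𝓞 F), v ∉ B ∧ v ∉ S ∧ v ∉ T ∧ fr v = g := by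
  classical
  obtain ⟨Q, hQ, hQw⟩ := nv_frob (ι g).toRingEquiv
  obtain ⟨q, hqQ, hq, hMq⟩ := ea_large hQ (∑ v ∈ B ∪ (S ∪ T), nv v)
  obtain ⟨W, hqW, hW⟩ := hQw q hqQ hq
  set v := W.under (𝓞 F) with hv
  have hqv : (q : 𝓞 F) ∈ v.asIdeal := by
    show algebraMap (𝓞 F) (𝓞 H) (q : 𝓞 F) ∈ W.asIdeal
    rw [map_natCast]
    exact hqW
  have hnot : v ∉ B ∪ (S ∪ T) := by
    intro hB
    have h2 : ((nv v : ℕ) : 𝓞 F) ∈ v.asIdeal := Ideal.absNorm_mem _
    have h3 : nv v ≤ ∑ v ∈ B ∪ (S ∪ T), nv v :=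
      Finset.single_le_sum (f := fun v => nv v) (fun _ _ => Nat.zero_le _) hB
    have h4 : 0 < nv v := by
      have := nv_two_le v
      omega
    exact cb_coprime v.isPrime.ne_top hq hqv h2 h4 (by omega)
  rw [Finset.mem_union, Finset.mem_union, not_or, not_or] at hnot
  obtain ⟨hvB, hvS, hvT⟩ := hnot
  have hnv : nv v = q := by
    refine cb_card v hq hqv fun f => ?_
    show algebraMap (𝓞 F) (𝓞 H) (f ^ q - f) ∈ W.asIdeal
    have h1 : algebraMap (𝓞 F) (𝓞 H) f - (algebraMap (𝓞 F) (𝓞 H) f) ^ q ∈ W.asIdeal :=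
      hW _ _ ((ι g).commutes (f : F)).symm
    rw [map_sub, map_pow, ← neg_sub]
    exact W.asIdeal.neg_mem h1
  have h1 : FrAt W (ι g) := by
    intro x
    rw [← hv, hnv]
    exact hW x _ rfl
  have h2 : FrAt W (ι (fr v)) := hD.frob v hvS W rfl
  have h3 := frAt_uniq (hD.unram W hvS) h2 h1
  exact ⟨v, hvB, hvS, hvT, ι.injective h3⟩


end E

end Pool.Agent.CR

namespace Pool.Agent.CR
open Pool.Agent.RSK Pool.Agent.RS2 Pool.Agent.RS3 Pool.Agent.RS4 Pool.Agent.SY Pool.Agent.AU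
  Pool.Agent.RT
open NumberField IsDedekindDomain Filter Topology Complex
open scoped TensorProduct

section
variable {F H : Type} [Field F] [NumberField F] [Field H] [NumberField H] [Algebra F H]
  [IsGalois F H] {G : Type} [CommGroup G] [Fintype G] {ι : G ≃* (H ≃ₐ[F] H)}
  {S T : Finset (HeightOneSpectrum (𝓞 F))} {r : ℕ} {w : Fin r → Pl H}
  {fr : HeightOneSpectrum (𝓞 F) → G}

theorem ab_cheb (hD : Data ι S T r w fr) (g : G) (B : Finset (HeightOneSpectrum (𝓞 F))) :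
    ∃ v : HeightOneSpectrum (𝓞 F), v ∉ B ∧ v ∉ S ∧ v ∉ T ∧ fr v = g :=
  @Pool.Agent.CR.ab_cheb_pr F H _ _ _ _ _ _ G _ _ ι S T r w fr hD g B

end

end Pool.Agent.CR
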