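import Pool.Agent.Lib_helper17.CRF.D_WE
import Pool.Agent.Lib_helper17.RS.P_LE
import Pool.Agent.Lib_helper17.RS.P_L2
import Pool.Agent.Lib_helper3.AU.ST
import Pool.Agent.Lib_helper17.CRF.N_PC1

/-!
# Composite Rubin, block EB: Stark elements, adding a place to `S`
-/

set_option autoImplicit false
set_option linter.unusedSectionVars false

namespace Pool.Agent.CR

open Pool.Agent.RSK Pool.Agent.RS2 Pool.Agent.RS3 Pool.Agent.RS4 Pool.Agent.SY Pool.Agent.AU
  Pool.Agent.RT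
open NumberField IsDedekindDomain Filter Topology Complex
open scoped TensorProduct

section E

theorem eb_extQ_smul {R N B : Type} [CommRing R] [AddCommGroup N] [Module R N] [CommRing B]
    [Module ℚ B] [SMulCommClass ℚ B B] (f : N →+ B) (a : R) (b : B)
    (hf : ∀ n, f (a • n) = b * f n) (u : N ⊗[ℤ] ℚ) : extQ f (a • u) = b * extQ f u := by
  induction u using TensorProduct.induction_on with
  | zero => rw [smul_zero, map_zero, mul_zero]
  | tmul n q =>
    rw [TensorProduct.smul_tmul', extQ_tmul, extQ_tmul, hf, mul_smul_comm]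
  | add x y hx hy => rw [smul_add, map_add, map_add, mul_add, hx, hy]

variable {F H : Type} [Field F] [NumberField F] [Field H] [NumberField H] [Algebra F H]
  [IsGalois F H] {G : Type} [CommGroup G] [Fintype G] {ι : G ≃* (H ≃ₐ[F] H)}
  {S T : Finset (HeightOneSpectrum (𝓞 F))} {r : ℕ} {w : Fin r → Pl H}
  {fr : HeightOneSpectrum (𝓞 F) → G}

/-- `psiQ` is linear. -/
theorem eb_psiQ_smul (ψ : Fin r → (UM ι S T →ₗ[MonoidAlgebra ℤ G] MonoidAlgebra ℤ G))
    (a : MonoidAlgebra ℤ G) (u : (⋀[MonoidAlgebra ℤ G]^r (UM ι S T)) ⊗[ℤ] ℚ) :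
    psiQ ψ (a • u) = toQ G a * psiQ ψ u := by
  unfold psiQ
  refine eb_extQ_smul _ a (toQ G a) (fun n => ?_) u
  show toQ G (detMap ψ (a • n)) = toQ G a * toQ G (detMap ψ n)
  rw [map_smul, smul_eq_mul, map_mul]

theorem eb_evZ (χ : G →* ℂˣ) (g : G) :
    evZ χ (1 - MonoidAlgebra.single g (1 : ℤ)) = 1 - (χ g : ℂ) := by
  rw [map_sub, map_one]
  congr 1
  simp [evZ, toQ, evQ]

/-- The Frobenius element lies in the decomposition groups above the place. -/
theorem eb_fr (hD : Data ι S T r w fr) {v : HeightOneSpectrum (𝓞 F)} (hv : v ∉ S) {W : Pl H}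
    (hW : dn F W = Sum.inr v) : act (ι (fr v)) W = W := by
  have h1 : fr v ∈ dgF ι (Sum.inr v : Pl F) := by
    rw [dgF_fr (fun W hW => hD.unram W (by rw [hW]; exact hv)) (hD.frob v hv)]
    exact Subgroup.mem_zpowers _
  exact h1 W hW

theorem eb_cont (hD : Data ι S T r w fr) {v : HeightOneSpectrum (𝓞 F)} (hv : v ∉ S)
    {χ : G →* ℂˣ} (hχ : χ (fr v) ≠ 1) (hC : Cont ι S w χ) : Cont ι (Finset.cons v S hv) w χ := by
  have hχ1 : χ ≠ 1 := by
    rintro rfl
    exact hχ rfl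
  refine ⟨fun h => absurd h hχ1, fun _ W hW hg => ?_⟩
  refine hC.2 hχ1 W ?_ hg
  rcases h : dn F W with v' | v'
  · trivial
  · rw [h] at hW
    have h1 : v' ∈ Finset.cons v S hv := hW
    rcases Finset.mem_cons.1 h1 with rfl | h1
    · exact absurd (hg _ (eb_fr hD hv h)) hχ
    · exact h1

/-- EB. Adding a place to `S`. -/
theorem stark_add_pr (hD : Data ι S T r w fr) {v : HeightOneSpectrum (𝓞 F)} (hv : v ∉ S)
    {c : (G →* ℂˣ) → ℂ} (hc : Lead S T r fr c)
    {u : (⋀[MonoidAlgebra ℤ G]^r (UM ι S T)) ⊗[ℤ] ℚ} (hu : IsStark ι S T w c u) :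
    Lead (Finset.cons v S hv) T r fr (fun χ => c χ * (1 - (χ (fr v) : ℂ))) ∧
    IsStark ι (Finset.cons v S hv) T w (fun χ => c χ * (1 - (χ (fr v) : ℂ)))
      ((1 - MonoidAlgebra.single (fr v)⁻¹ (1 : ℤ) : MonoidAlgebra ℤ G) •
        stMap (incU ι (Finset.subset_cons hv) (Finset.Subset.refl T)) u) := by
  refine ⟨?_, ?_, ?_⟩
  · intro χ
    obtain ⟨Λ, h1, h2, h3⟩ := hc χ
    refine ⟨fun s => (1 - (χ (fr v) : ℂ) * (nv v : ℂ) ^ (0 - s)) * Λ s, ?_, ?_, ?_⟩
    · exact (le_mero_pow v _ 0).mul h1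
    · intro s hs
      beta_reduce
      rw [h2 s hs, lst_consS hv χ hs, zero_sub]
    · have h5 := (le_cont v (χ (fr v) : ℂ) 0).mul h3
      simp only [Complex.cpow_zero, mul_one] at h5
      beta_reduce
      rw [mul_comm (c χ)]
      refine h5.congr fun s => ?_
      show _ * (Λ s / s ^ r) = _ * Λ s / s ^ r
      rw [mul_div_assoc]
  · intro a ha
    rw [smul_smul, ← st_smul, hu.er _ fun χ hχ => ?_, map_zero]
    rw [map_mul, eb_evZ]
    by_cases h : χ (fr v) = 1
    · rw [map_inv, h, inv_one, Units.val_one, sub_self, mul_zero]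
    · rw [ha χ (eb_cont hD hv h hχ), zero_mul]
  · intro χ
    have h1 := st_ext (AddMonoidHom.id (MonoidAlgebra ℝ G))
      (incU ι (Finset.subset_cons hv) (Finset.Subset.refl T))
      (fun i => wl ι (Finset.cons v S hv) T (w i)) u
    rw [AddMonoidHom.id_comp, AddMonoidHom.id_comp] at h1
    have h2 : (fun i => (wl ι (Finset.cons v S hv) T (w i)).comp
        (incU ι (Finset.subset_cons hv) (Finset.Subset.refl T))) = fun i => wl ι S T (w i) := rfl
    rw [h2] at h1
    rw [eb_extQ_smul _ _ (toR G (1 - MonoidAlgebra.single (fr v)⁻¹ (1 : ℤ))) (fun n => ?_), h1,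
      map_mul, l2_evR_toR, hu.value, eb_evZ, mul_comm]
    · simp only [MonoidHom.inv_apply, map_inv]
    · show detMap _ _ = _ * detMap _ _
      rw [map_smul]
      rfl

end E

end Pool.Agent.CR

namespace Pool.Agent.CR
open Pool.Agent.RSK Pool.Agent.RS2 Pool.Agent.RS3 Pool.Agent.RS4 Pool.Agent.SY Pool.Agent.AU
  Pool.Agent.RT
open NumberField IsDedekindDomain Filter Topology Complex
open scoped TensorProduct

section
variable {F H : Type} [Field F] [NumberField F] [Field H] [NumberField H] [Algebra F H]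
  [IsGalois F H] {G : Type} [CommGroup G] [Fintype G] {ι : G ≃* (H ≃ₐ[F] H)}
  {S T : Finset (HeightOneSpectrum (𝓞 F))} {r : ℕ} {w : Fin r → Pl H}
  {fr : HeightOneSpectrum (𝓞 F) → G}

theorem stark_add (hD : Data ι S T r w fr) {v : HeightOneSpectrum (𝓞 F)} (hv : v ∉ S)
    {c : (G →* ℂˣ) → ℂ} (hc : Lead S T r fr c)
    {u : (⋀[MonoidAlgebra ℤ G]^r (UM ι S T)) ⊗[ℤ] ℚ} (hu : IsStark ι S T w c u) :
    Lead (Finset.cons v S hv) T r fr (fun χ => c χ * (1 - (χ (fr v) : ℂ))) ∧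
    IsStark ι (Finset.cons v S hv) T w (fun χ => c χ * (1 - (χ (fr v) : ℂ)))
      ((1 - MonoidAlgebra.single (fr v)⁻¹ (1 : ℤ) : MonoidAlgebra ℤ G) •
        stMap (incU ι (Finset.subset_cons hv) (Finset.Subset.refl T)) u) :=
  @Pool.Agent.CR.stark_add_pr F H _ _ _ _ _ _ G _ _ ι S T r w fr hD v hv c hc u hu

end

end Pool.Agent.CR
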