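import Pool.Agent.Lib_helper17.CRF.D_WL

/-!
CR (composite Rubin), block UP1: adding a nonsplit place to `S`, extension of homomorphisms.
-/

set_option autoImplicit false
set_option linter.unusedSectionVars false

namespace Pool.Agent.CR

open Pool.Agent.RSK Pool.Agent.RS2 Pool.Agent.RS3 Pool.Agent.SY
open NumberField IsDedekindDomain Filter Topology Complex

section UP

variable {F K : Type} [Field F] [NumberField F] [Field K] [NumberField K] [Algebra F K]
  [IsGalois F K] {G : Type} [CommGroup G] [Fintype G] {ι : G ≃* (K ≃ₐ[F] K)}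
  {S T : Finset (HeightOneSpectrum (𝓞 F))} {r : ℕ} {w : Fin r → Pl K}
  {fr : HeightOneSpectrum (𝓞 F) → G}

theorem up1_nv_ne (v : HeightOneSpectrum (𝓞 F)) : (nv v : ℂ) ≠ 0 := by
  have := nv_two_le v
  have h : nv v ≠ 0 := by omega
  exact_mod_cast h

theorem up1_diff (v : HeightOneSpectrum (𝓞 F)) (a : ℂ) :
    Differentiable ℂ (fun s : ℂ => 1 - a * (nv v : ℂ) ^ (-s)) := by
  refine (differentiable_const _).sub ((differentiable_const _).mul ?_)
  exact differentiable_id.neg.const_cpow (Or.inl (up1_nv_ne v))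

theorem up1_evQ (χ : G →* ℂˣ) (g : G) (q : ℚ) :
    evQ χ (MonoidAlgebra.single g q) = (q : ℂ) * (χ g : ℂ) := by
  unfold evQ
  rw [MonoidAlgebra.lift_single]
  rw [Algebra.smul_def]
  rfl

theorem up_non_pr (hD : Data ι S T r w fr) {v : HeightOneSpectrum (𝓞 F)} (hv : v ∉ S)
    {c : (G →* ℂˣ) → ℂ} (hc : LeadI S T r fr c) {b : Fin r → UM ι S T} {x : MonoidAlgebra ℚ G}
    (hco : CoreF ι S T w c b x) :
    LeadI (Finset.cons v S hv) T r fr (fun χ => c χ * (1 - (χ (fr v) : ℂ))) ∧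
    CoreF ι (Finset.cons v S hv) T w (fun χ => c χ * (1 - (χ (fr v) : ℂ)))
      (fun i => incU ι (Finset.subset_cons hv) (Finset.Subset.refl T) (b i))
      (x * (1 - MonoidAlgebra.single (fr v)⁻¹ 1)) := by
  refine ⟨?_, ?_, ?_⟩
  · intro χ hχ
    obtain ⟨Λ, h1, h2, h3⟩ := hc χ hχ
    refine ⟨fun s => (1 - (χ (fr v) : ℂ) * (nv v : ℂ) ^ (-s)) * Λ s, ?_, ?_, ?_⟩
    · refine MeromorphicOn.mul ?_ h1
      intro s _
      exact ((up1_diff v (χ (fr v) : ℂ)).analyticAt s).meromorphicAt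
    · intro s hs
      beta_reduce
      rw [h2 s hs, lst_consS hv χ hs]
    · have h4 := ((up1_diff v (χ (fr v) : ℂ)).continuous.tendsto 0).mono_left
        (nhdsWithin_le_nhds (s := {0}ᶜ))
      have h5 := h4.mul h3
      simp only [neg_zero, Complex.cpow_zero, mul_one] at h5
      rw [mul_comm (1 - (χ (fr v) : ℂ)) (c χ)] at h5
      refine h5.congr fun s => ?_
      rw [mul_div_assoc]
  · intro χ hχ
    rw [map_mul, hco.off χ hχ, zero_mul]
  · intro χ hχ
    have hw : wmat ι (Finset.cons v S hv) T w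
        (fun i => incU ι (Finset.subset_cons hv) (Finset.Subset.refl T) (b i)) =
        wmat ι S T w b := by
      ext i j
      rfl
    have h1 := hco.value χ hχ
    rw [hw, map_mul, map_sub, map_one, up1_evQ, Rat.cast_one, one_mul, map_inv]
    show _ = c χ⁻¹ * (1 - ((χ⁻¹ (fr v) : ℂˣ) : ℂ))
    rw [MonoidHom.inv_apply, ← h1]
    ring

theorem ext_S_pr (hD : Data ι S T r w fr) {S' : Finset (HeightOneSpectrum (𝓞 F))} (hS : S ⊆ S')
    (hd : Disjoint S' T) (ψ : UM ι S T →ₗ[MonoidAlgebra ℤ G] MonoidAlgebra ℤ G) :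
    ∃ ψ₁ : UM ι S' T →ₗ[MonoidAlgebra ℤ G] MonoidAlgebra ℤ G,
      ∀ u, ψ₁ (incU ι hS (Finset.Subset.refl T) u) = ψ u := by
  have htf : TFree (ovr K S') (ovr K T) := by
    intro x hx n hn hxn
    refine (tf_H hD).1 x ⟨fun W _ => ?_, hx.2⟩ n hn hxn
    have h1 : (W.valuation K (x : K)) ^ n = 1 := by
      rw [← map_pow, ← Units.val_pow_eq_pow_val, hxn, Units.val_one, map_one]
    exact (pow_eq_one_iff_of_nonneg zero_le hn.ne').1 h1
  have hdis : Disjoint (ovr K S') (ovr K T) := by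
    rw [Finset.disjoint_left]
    intro W h1 h2
    rw [mem_ovr] at h1 h2
    exact Finset.disjoint_left.1 hd h1 h2
  obtain ⟨n, ⟨bb⟩⟩ := un_exists hdis htf
  have hfin : Module.Finite ℤ (UM ι S' T) := Module.Finite.of_basis bb
  refine ext_lat (incU ι hS (Finset.Subset.refl T)) ?_ ?_ ψ
  · intro u u' h
    have h1 := congrArg UM.val h
    rw [incU_val, incU_val] at h1
    exact UM.ext h1
  · intro n u hn h
    obtain ⟨u', hu'⟩ := h
    have hval : u.val ∈ Un (ovr K S) (ovr K T) := by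
      refine ⟨fun W hW => ?_, u.val_mem.2⟩
      have h1 : W.valuation K (u'.val : K) = 1 := u'.val_mem.1 W hW
      have h2 : u'.val = u.val ^ n := by
        have h3 := congrArg UM.val hu'
        rw [incU_val] at h3
        rw [h3]
        rfl
      rw [h2, Units.val_zpow_eq_zpow_val, map_zpow₀] at h1
      have hn' : n.natAbs ≠ 0 := Int.natAbs_ne_zero.2 hn
      have h4 : (W.valuation K (u.val : K)) ^ n.natAbs = 1 := by
        rcases Int.natAbs_eq n with e | e
        · rw [e, zpow_natCast] at h1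
          exact h1
        · rw [e, zpow_neg, zpow_natCast, inv_eq_one] at h1
          exact h1
      exact (pow_eq_one_iff_of_nonneg zero_le hn').1 h4
    exact ⟨UM.mk u.val hval, UM.ext rfl⟩

end UP

end Pool.Agent.CR

namespace Pool.Agent.CR
open Pool.Agent.RSK Pool.Agent.RS2 Pool.Agent.RS3 Pool.Agent.SY
open NumberField IsDedekindDomain Filter Topology Complex

section
variable {F K : Type} [Field F] [NumberField F] [Field K] [NumberField K] [Algebra F K]
  [IsGalois F K] {G : Type} [CommGroup G] [Fintype G] {ι : G ≃* (K ≃ₐ[F] K)}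
  {S T : Finset (HeightOneSpectrum (𝓞 F))} {r : ℕ} {w : Fin r → Pl K}
  {fr : HeightOneSpectrum (𝓞 F) → G}

theorem up_non (hD : Data ι S T r w fr) {v : HeightOneSpectrum (𝓞 F)} (hv : v ∉ S)
    {c : (G →* ℂˣ) → ℂ} (hc : LeadI S T r fr c) {b : Fin r → UM ι S T} {x : MonoidAlgebra ℚ G}
    (hco : CoreF ι S T w c b x) :
    LeadI (Finset.cons v S hv) T r fr (fun χ => c χ * (1 - (χ (fr v) : ℂ))) ∧
    CoreF ι (Finset.cons v S hv) T w (fun χ => c χ * (1 - (χ (fr v) : ℂ)))
      (fun i => incU ι (Finset.subset_cons hv) (Finset.Subset.refl T) (b i))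
      (x * (1 - MonoidAlgebra.single (fr v)⁻¹ 1)) :=
  @Pool.Agent.CR.up_non_pr F K _ _ _ _ _ _ G _ _ ι S T r w fr hD v hv c hc b x hco

end

end Pool.Agent.CR

namespace Pool.Agent.CR
open Pool.Agent.RSK Pool.Agent.RS2 Pool.Agent.RS3 Pool.Agent.SY
open NumberField IsDedekindDomain Filter Topology Complex

section
variable {F K : Type} [Field F] [NumberField F] [Field K] [NumberField K] [Algebra F K]
  [IsGalois F K] {G : Type} [CommGroup G] [Fintype G] {ι : G ≃* (K ≃ₐ[F] K)}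
  {S T : Finset (HeightOneSpectrum (𝓞 F))} {r : ℕ} {w : Fin r → Pl K}
  {fr : HeightOneSpectrum (𝓞 F) → G}

theorem ext_S (hD : Data ι S T r w fr) {S' : Finset (HeightOneSpectrum (𝓞 F))} (hS : S ⊆ S')
    (hd : Disjoint S' T) (ψ : UM ι S T →ₗ[MonoidAlgebra ℤ G] MonoidAlgebra ℤ G) :
    ∃ ψ₁ : UM ι S' T →ₗ[MonoidAlgebra ℤ G] MonoidAlgebra ℤ G,
      ∀ u, ψ₁ (incU ι hS (Finset.Subset.refl T) u) = ψ u :=
  @Pool.Agent.CR.ext_S_pr F K _ _ _ _ _ _ G _ _ ι S T r w fr hD S' hS hd ψ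

end

end Pool.Agent.CR
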