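import Pool.Agent.Lib_helper17.CRF.D_WE
import Pool.Agent.Lib_helper3.AU.ST
import Pool.Agent.Lib_helper17.CRF.L_UP1

/-!
# Composite Rubin, block EC: extension of the maps `ψ_i`
-/

set_option autoImplicit false
set_option linter.unusedSectionVars false

namespace Pool.Agent.CR

open Pool.Agent.RSK Pool.Agent.RS2 Pool.Agent.RS3 Pool.Agent.RS4 Pool.Agent.SY Pool.Agent.AU
  Pool.Agent.RT
open NumberField IsDedekindDomain Filter Topology Complex
open scoped TensorProduct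

section E

theorem ec_extQ_smul {R N B : Type} [CommRing R] [AddCommGroup N] [Module R N] [CommRing B]
    [Module ℚ B] [SMulCommClass ℚ B B] (f : N →+ B) (a : R) (b : B)
    (hf : ∀ n, f (a • n) = b * f n) (u : N ⊗[ℤ] ℚ) : extQ f (a • u) = b * extQ f u := by
  induction u using TensorProduct.induction_on with
  | zero => rw [smul_zero, map_zero, mul_zero]
  | tmul n q =>
    rw [TensorProduct.smul_tmul', extQ_tmul, extQ_tmul, hf, mul_smul_comm]
  | add x y hx hy => rw [smul_add, map_add, map_add, mul_add, hx, hy]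

variable {F H : Type} [Field F] [NumberField F] [Field H] [NumberField H] [Algebra F H]
  [IsGalois F H] {G : Type} [CommGroup G] [Fintype G] {ι : G ≃* (H ≃ₐ[F] H)}
  {S T : Finset (HeightOneSpectrum (𝓞 F))} {r : ℕ} {w : Fin r → Pl H}
  {fr : HeightOneSpectrum (𝓞 F) → G}

/-- EC. The maps `ψ_i` extend. -/
theorem psi_add_pr (hD : Data ι S T r w fr) {v : HeightOneSpectrum (𝓞 F)} (hv : v ∉ S)
    (hvT : v ∉ T) (a : MonoidAlgebra ℤ G) (u : (⋀[MonoidAlgebra ℤ G]^r (UM ι S T)) ⊗[ℤ] ℚ)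
    (ψ : Fin r → (UM ι S T →ₗ[MonoidAlgebra ℤ G] MonoidAlgebra ℤ G)) :
    ∃ ψ' : Fin r → (UM ι (Finset.cons v S hv) T →ₗ[MonoidAlgebra ℤ G] MonoidAlgebra ℤ G),
      psiQ ψ' (a • stMap (incU ι (Finset.subset_cons hv) (Finset.Subset.refl T)) u) =
        toQ G a * psiQ ψ u := by
  have hd : Disjoint (Finset.cons v S hv) T := by
    refine Finset.disjoint_left.2 fun x hx hxT => ?_
    rcases Finset.mem_cons.1 hx with rfl | hx
    · exact hvT hxT
    · exact Finset.disjoint_left.1 hD.disj hx hxT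
  choose ψ' hψ' using fun i => ext_S hD (Finset.subset_cons hv) hd (ψ i)
  refine ⟨ψ', ?_⟩
  have h1 : (fun i => (ψ' i).comp (incU ι (Finset.subset_cons hv) (Finset.Subset.refl T))) = ψ :=
    funext fun i => LinearMap.ext fun m => hψ' i m
  unfold psiQ
  rw [ec_extQ_smul _ a (toQ G a) (fun n => ?_), st_ext, h1]
  show toQ G (detMap ψ' (a • n)) = toQ G a * toQ G (detMap ψ' n)
  rw [map_smul, smul_eq_mul, map_mul]

end E

end Pool.Agent.CR

namespace Pool.Agent.CR
open Pool.Agent.RSK Pool.Agent.RS2 Pool.Agent.RS3 Pool.Agent.RS4 Pool.Agent.SY Pool.Agent.AU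
  Pool.Agent.RT
open NumberField IsDedekindDomain Filter Topology Complex
open scoped TensorProduct

section
variable {F H : Type} [Field F] [NumberField F] [Field H] [NumberField H] [Algebra F H]
  [IsGalois F H] {G : Type} [CommGroup G] [Fintype G] {ι : G ≃* (H ≃ₐ[F] H)}
  {S T : Finset (HeightOneSpectrum (𝓞 F))} {r : ℕ} {w : Fin r → Pl H}
  {fr : HeightOneSpectrum (𝓞 F) → G}

theorem psi_add (hD : Data ι S T r w fr) {v : HeightOneSpectrum (𝓞 F)} (hv : v ∉ S)
    (hvT : v ∉ T) (a : MonoidAlgebra ℤ G) (u : (⋀[MonoidAlgebra ℤ G]^r (UM ι S T)) ⊗[ℤ] ℚ)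
    (ψ : Fin r → (UM ι S T →ₗ[MonoidAlgebra ℤ G] MonoidAlgebra ℤ G)) :
    ∃ ψ' : Fin r → (UM ι (Finset.cons v S hv) T →ₗ[MonoidAlgebra ℤ G] MonoidAlgebra ℤ G),
      psiQ ψ' (a • stMap (incU ι (Finset.subset_cons hv) (Finset.Subset.refl T)) u) =
        toQ G a * psiQ ψ u :=
  @Pool.Agent.CR.psi_add_pr F H _ _ _ _ _ _ G _ _ ι S T r w fr hD v hv hvT a u ψ

end

end Pool.Agent.CR
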