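import Pool.Agent.Lib_helper17.CRF.D_WE
import Pool.Agent.Lib_helper17.CRF.N_PC1

/-!
CR, block EF: CondT, one more place
-/

set_option autoImplicit false
set_option linter.unusedSectionVars false

namespace Pool.Agent.CR

open Pool.Agent.RSK Pool.Agent.RS2 Pool.Agent.RS3 Pool.Agent.RS4 Pool.Agent.SY Pool.Agent.AU
  Pool.Agent.RT
open NumberField IsDedekindDomain Filter Topology Complex
open scoped TensorProduct

section E

variable {F H : Type} [Field F] [NumberField F] [Field H] [NumberField H] [Algebra F H]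
  [IsGalois F H] {G : Type} [CommGroup G] [Fintype G] {ι : G ≃* (H ≃ₐ[F] H)}
  {S T : Finset (HeightOneSpectrum (𝓞 F))} {r : ℕ} {w : Fin r → Pl H}
  {fr : HeightOneSpectrum (𝓞 F) → G}

/-- the weight of a place is at least one -/
theorem ef_wt {q : ℕ} (hq : q.Prime) {v : HeightOneSpectrum (𝓞 F)} {g : G}
    (hdg : dgF ι (Sum.inr v : Pl F) = Subgroup.zpowers g) {k : ℕ} (hk : g ^ q ^ k = 1)
    {N : Subgroup G} (hgN : g ∉ N) : 1 ≤ wtN q ι N (Sum.inr v) := by
  have h1 : N.relIndex (dgF ι (Sum.inr v : Pl F) ⊔ N) = N.relIndex (Subgroup.zpowers g) := by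
    rw [hdg, Subgroup.relIndex_sup_right]
  have h2 : N.relIndex (Subgroup.zpowers g) ∣ q ^ k := by
    refine (Subgroup.relIndex_dvd_card _ _).trans ?_
    rw [Nat.card_zpowers]
    exact orderOf_dvd_of_pow_eq_one hk
  obtain ⟨a, -, ha⟩ := (Nat.dvd_prime_pow hq).1 h2
  have ha0 : 0 < a := by
    rcases Nat.eq_zero_or_pos a with h0 | h0
    · exfalso
      rw [h0, pow_zero, Subgroup.relIndex_eq_one, Subgroup.zpowers_le] at ha
      exact hgN ha
    · exact h0
  have hex : ∃ a : ℕ, 0 < a ∧ N.relIndex (dgF ι (Sum.inr v : Pl F) ⊔ N) = q ^ a :=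
    ⟨a, ha0, h1.trans ha⟩
  unfold wtN
  rw [dif_pos hex]
  have h3 := hex.choose_spec
  have h4 : q ^ hex.choose ∣ N.index := by
    rw [← h3.2]
    exact Subgroup.relIndex_dvd_index_of_le le_sup_right
  have hne : N.index ≠ 0 := Subgroup.index_ne_zero_of_finite
  have h5 : hex.choose ≤ N.index.factorization q :=
    (hq.pow_dvd_iff_le_factorization hne).1 h4
  exact Nat.div_pos (Nat.pow_le_pow_right hq.pos h5) (pow_pos hq.pos _)

theorem ef_sum {q : ℕ} (N : Subgroup G) {v : HeightOneSpectrum (𝓞 F)} (hv : v ∉ S) :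
    ∑ P : PS (Finset.cons v S hv), wtN q ι N P.pl =
      (∑ P : PS S, wtN q ι N P.pl) + wtN q ι N (Sum.inr v) := by
  rw [Fintype.sum_sum_type, Fintype.sum_sum_type]
  have h1 : ∀ S' : Finset (HeightOneSpectrum (𝓞 F)),
      ∑ x : S', wtN q ι N (PS.pl (Sum.inr x : PS S')) =
        ∑ x ∈ S', wtN q ι N (Sum.inr x) := by
    intro S'
    rw [← Finset.sum_coe_sort S' (fun x => wtN q ι N (Sum.inr x))]
    rfl
  rw [h1, h1, Finset.sum_cons]
  have h2 : ∑ x : InfinitePlace F, wtN q ι N (PS.pl (Sum.inl x : PS (Finset.cons v S hv))) =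
      ∑ x : InfinitePlace F, wtN q ι N (PS.pl (Sum.inl x : PS S)) := rfl
  rw [h2]
  ring

/-- EF. A place `v` with a Frobenius element of `q`-power order -/
theorem condT_step_pr (hD : Data ι S T r w fr) {q κ t : ℕ} (hq : q.Prime)
    (h : CondT q κ (t + 1) ι S w) {v : HeightOneSpectrum (𝓞 F)} (hv : v ∉ S)
    (hfr : ∃ k : ℕ, fr v ^ q ^ k = 1) : CondT q κ t ι (Finset.cons v S hv) w := by
  obtain ⟨k, hk⟩ := hfr
  have hdg : dgF ι (Sum.inr v : Pl F) = Subgroup.zpowers (fr v) :=
    dgF_fr (fun W hW => hD.unram W (by rw [hW]; exact hv)) (hD.frob v hv)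
  refine ⟨?_, ?_⟩
  · have := h.1
    rw [Finset.card_cons]
    omega
  intro N i j hcyc hN hno hi hj
  have hno' : NoX ι S w N := by
    intro W hW hg
    refine hno W ?_ hg
    rcases W with W | W
    · exact trivial
    · exact Finset.mem_cons.2 (Or.inr hW)
  have hnot : fr v ∉ N := by
    intro hmem
    obtain ⟨W, hW⟩ := dn_surj (F := F) (H := H) (Sum.inr v)
    obtain ⟨l, hl⟩ := hno W (by rw [hW]; exact Finset.mem_cons_self v S) (by
      intro g hg
      rw [← dgF_eq, hW, hdg] at hg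
      exact (Subgroup.zpowers_le.2 hmem) hg)
    have h2 := hD.mem l
    rw [← hl, hW] at h2
    exact hv h2
  have hwt := ef_wt hq hdg hk hnot
  have hstep := h.2 N i j hcyc hN hno' hi hj
  refine ⟨?_, ?_⟩
  · intro hj0 _
    exfalso
    -- the image of the Frobenius element in `G/N` is trivial
    have h2 : N.relIndex (Subgroup.zpowers (fr v)) ∣ q ^ k := by
      refine (Subgroup.relIndex_dvd_card _ _).trans ?_
      rw [Nat.card_zpowers]
      exact orderOf_dvd_of_pow_eq_one hk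
    obtain ⟨a, -, ha⟩ := (Nat.dvd_prime_pow hq).1 h2
    have hne : N.index ≠ 0 := Subgroup.index_ne_zero_of_finite
    have h4 : q ^ a ∣ N.index := by
      rw [← ha, ← Subgroup.relIndex_sup_right]
      exact Subgroup.relIndex_dvd_index_of_le le_sup_right
    have h5 : a ≤ N.index.factorization q := (hq.pow_dvd_iff_le_factorization hne).1 h4
    rw [← hj, hj0] at h5
    rw [Nat.le_zero.1 h5, pow_zero, Subgroup.relIndex_eq_one, Subgroup.zpowers_le] at ha
    exact hnot ha
  · intro hj0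
    have h3 := hstep.2 hj0
    rw [ef_sum]
    omega


end E

end Pool.Agent.CR

namespace Pool.Agent.CR
open Pool.Agent.RSK Pool.Agent.RS2 Pool.Agent.RS3 Pool.Agent.RS4 Pool.Agent.SY Pool.Agent.AU
  Pool.Agent.RT
open NumberField IsDedekindDomain Filter Topology Complex
open scoped TensorProduct

section
variable {F H : Type} [Field F] [NumberField F] [Field H] [NumberField H] [Algebra F H]
  [IsGalois F H] {G : Type} [CommGroup G] [Fintype G] {ι : G ≃* (H ≃ₐ[F] H)}
  {S T : Finset (HeightOneSpectrum (𝓞 F))} {r : ℕ} {w : Fin r → Pl H}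
  {fr : HeightOneSpectrum (𝓞 F) → G}

theorem condT_step (hD : Data ι S T r w fr) {q κ t : ℕ} (hq : q.Prime)
    (h : CondT q κ (t + 1) ι S w) {v : HeightOneSpectrum (𝓞 F)} (hv : v ∉ S)
    (hfr : ∃ k : ℕ, fr v ^ q ^ k = 1) : CondT q κ t ι (Finset.cons v S hv) w :=
  @Pool.Agent.CR.condT_step_pr F H _ _ _ _ _ _ G _ _ ι S T r w fr hD q κ t hq h v hv hfr

end

end Pool.Agent.CR
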