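import Pool.Agent.Lib_helper17.CRF.D_WB

/-!
# Composite Rubin (CR), block AV: units of the form `1 - χ(g)`
-/

set_option autoImplicit false
set_option linter.unusedSectionVars false

namespace Pool.Agent.CR

open Pool.Agent.RSK Pool.Agent.RS2 Pool.Agent.SY
open Filter Topology Complex

section AV

variable {G : Type} [CommGroup G] [Fintype G]

theorem av_evZ_single (χ : G →* ℂˣ) (g : G) (n : ℤ) :
    evZ χ (MonoidAlgebra.single g n) = (n : ℂ) * ((χ g : ℂˣ) : ℂ) := by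
  simp [evZ, toQ, evQ, MonoidAlgebra.lift_single, MonoidAlgebra.mapRingHom_single]
  try rw [Algebra.smul_def]; simp

/-- `b` divides `a` in `ℤ[G]`, at the injective characters -/
def avD (a b : (G →* ℂˣ) → ℂ) : Prop :=
  ∃ v : MonoidAlgebra ℤ G, ∀ χ : G →* ℂˣ, Function.Injective χ → a χ = b χ * evZ χ v

theorem avD_refl (a : (G →* ℂˣ) → ℂ) : avD a a := ⟨1, fun χ _ => by simp⟩

theorem avD_trans {a b c : (G →* ℂˣ) → ℂ} (h : avD a b) (h' : avD b c) : avD a c := by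
  obtain ⟨v, hv⟩ := h
  obtain ⟨w, hw⟩ := h'
  refine ⟨w * v, fun χ hχ => ?_⟩
  rw [hv χ hχ, hw χ hχ, map_mul]; ring

theorem avD_mul {a b a' b' : (G →* ℂˣ) → ℂ} (h : avD a b) (h' : avD a' b') :
    avD (fun χ => a χ * a' χ) (fun χ => b χ * b' χ) := by
  obtain ⟨v, hv⟩ := h
  obtain ⟨w, hw⟩ := h'
  refine ⟨v * w, fun χ hχ => ?_⟩
  simp only [hv χ hχ, hw χ hχ, map_mul]; ring

theorem avD_pow {a b : (G →* ℂˣ) → ℂ} (h : avD a b) (n : ℕ) :
    avD (fun χ => a χ ^ n) (fun χ => b χ ^ n) := by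
  obtain ⟨v, hv⟩ := h
  refine ⟨v ^ n, fun χ hχ => ?_⟩
  simp only [hv χ hχ, map_pow, mul_pow]

theorem avD_prod {ι : Type} (S : Finset ι) {a b : ι → (G →* ℂˣ) → ℂ}
    (h : ∀ i ∈ S, avD (a i) (b i)) :
    avD (fun χ => ∏ i ∈ S, a i χ) (fun χ => ∏ i ∈ S, b i χ) := by
  classical
  induction S using Finset.induction_on with
  | empty => simpa using avD_refl (fun _ : G →* ℂˣ => (1 : ℂ))
  | insert i S hi ih =>
    simp only [Finset.prod_insert hi]
    exact avD_mul (h i (Finset.mem_insert_self i S))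
      (ih fun j hj => h j (Finset.mem_insert_of_mem hj))

/-- congruence at the injective characters -/
theorem avD_congr {a b a' b' : (G →* ℂˣ) → ℂ}
    (ha : ∀ χ : G →* ℂˣ, Function.Injective χ → a χ = a' χ)
    (hb : ∀ χ : G →* ℂˣ, Function.Injective χ → b χ = b' χ) (h : avD a' b') : avD a b := by
  obtain ⟨v, hv⟩ := h
  exact ⟨v, fun χ hχ => by rw [ha χ hχ, hb χ hχ, hv χ hχ]⟩

/-- the function `1 - χ(g)` -/
noncomputable def avU (g : G) : (G →* ℂˣ) → ℂ := fun χ => 1 - ((χ g : ℂˣ) : ℂ)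

theorem avU_pow (g : G) (n : ℕ) : avD (avU (g ^ n)) (avU g) := by
  refine ⟨∑ i ∈ Finset.range n, (MonoidAlgebra.single g (1 : ℤ)) ^ i, fun χ _ => ?_⟩
  have h : ∀ i, evZ χ ((MonoidAlgebra.single g (1 : ℤ)) ^ i) = ((χ g : ℂˣ) : ℂ) ^ i := fun i => by
    rw [map_pow, av_evZ_single]; simp
  rw [map_sum, Finset.sum_congr rfl fun i _ => h i]
  simp only [avU, map_pow, Units.val_pow_eq_pow_val]
  rw [mul_neg_geom_sum]

theorem avU_pow' (g : G) (n : ℕ) (h : n.Coprime (orderOf g)) : avD (avU g) (avU (g ^ n)) := by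
  obtain ⟨m, hm⟩ := exists_pow_eq_self_of_coprime h
  have := avU_pow (g ^ n) m
  rwa [hm] at this

/-- passing from `1 - x` to `x - 1` -/
theorem avD_neg_left {b : (G →* ℂˣ) → ℂ} (s : G) (N : ℕ)
    (h : avD (fun χ => (avU s χ) ^ N) b) : avD (fun χ => (((χ s : ℂˣ) : ℂ) - 1) ^ N) b := by
  obtain ⟨v, hv⟩ := h
  refine ⟨(-1) ^ N * v, fun χ hχ => ?_⟩
  have h1 : (((χ s : ℂˣ) : ℂ) - 1) ^ N = (-1) ^ N * (avU s χ) ^ N := by
    rw [← mul_pow, avU]; ring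
  have h2 := hv χ hχ
  simp only at h2 ⊢
  rw [h1, h2, map_mul, map_pow, map_neg, map_one]; ring

theorem avD_neg_right {a : (G →* ℂˣ) → ℂ} (s : G) (N : ℕ)
    (h : avD a (fun χ => (avU s χ) ^ N)) : avD a (fun χ => (((χ s : ℂˣ) : ℂ) - 1) ^ N) := by
  obtain ⟨v, hv⟩ := h
  refine ⟨(-1) ^ N * v, fun χ hχ => ?_⟩
  have h1 : (avU s χ) ^ N = (-1) ^ N * (((χ s : ℂˣ) : ℂ) - 1) ^ N := by
    rw [← mul_pow, avU]; ring
  have h2 := hv χ hχ
  simp only at h2 ⊢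
  rw [h2, h1, map_mul, map_pow, map_neg, map_one]; ring

theorem av_prim (χ : G →* ℂˣ) (hχ : Function.Injective χ) (g : G) :
    IsPrimitiveRoot ((χ g : ℂˣ) : ℂ) (orderOf g) := by
  have h : IsPrimitiveRoot (χ g) (orderOf g) := by
    have := IsPrimitiveRoot.orderOf (χ g)
    rwa [orderOf_injective χ hχ] at this
  exact (IsPrimitiveRoot.coe_units_iff).2 h

/-- one step: `1 - x ^ l` and `(1 - x) ^ l` for `x` of order `l ^ j`, `j ≥ 2` -/
theorem av_step {l : ℕ} (hl : l.Prime) {x : G} {j : ℕ} (hj : 2 ≤ j) (hx : orderOf x = l ^ j) :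
    avD (avU (x ^ l)) (fun χ => avU x χ ^ l) ∧ avD (fun χ => avU x χ ^ l) (avU (x ^ l)) := by
  have hlpos : 0 < l := hl.pos
  haveI : NeZero l := ⟨hl.ne_zero⟩
  have key : ∀ χ : G →* ℂˣ, Function.Injective χ →
      avU (x ^ l) χ = ∏ t ∈ Finset.range l, avU (x ^ (1 + t * l ^ (j - 1))) χ := by
    intro χ hχ
    have h1 := av_prim χ hχ x
    rw [hx] at h1
    set z : ℂ := ((χ x : ℂˣ) : ℂ) with hz
    have h2 : IsPrimitiveRoot (z ^ l ^ (j - 1)) l :=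
      h1.pow (pow_pos hlpos _) (by rw [← pow_succ]; congr 1; omega)
    have h3 : (1 : ℂ) ^ l - z ^ l = ∏ ζ ∈ Polynomial.nthRootsFinset l (1 : ℂ), (1 - ζ * z) :=
      IsPrimitiveRoot.pow_sub_pow_eq_prod_sub_mul (1 : ℂ) z hlpos h2
    have h4 : ∏ ζ ∈ Polynomial.nthRootsFinset l (1 : ℂ), (1 - ζ * z) =
        ∏ t ∈ Finset.range l, (1 - (z ^ l ^ (j - 1)) ^ t * z) := by
      symm
      refine Finset.prod_bij (fun t _ => (z ^ l ^ (j - 1)) ^ t) ?_ ?_ ?_ ?_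
      · intro t _
        rw [Polynomial.mem_nthRootsFinset hlpos]
        rw [← pow_mul, mul_comm t l, pow_mul, h2.pow_eq_one, one_pow]
      · intro t ht t' ht' e
        exact h2.pow_inj (Finset.mem_range.1 ht) (Finset.mem_range.1 ht') e
      · intro ζ hζ
        rw [Polynomial.mem_nthRootsFinset hlpos] at hζ
        obtain ⟨t, ht, e⟩ := h2.eq_pow_of_pow_eq_one hζ
        exact ⟨t, Finset.mem_range.2 ht, e⟩
      · intro t _; rfl
    have h5 : avU (x ^ l) χ = 1 - z ^ l := by simp [avU, hz]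
    rw [h5, ← one_pow l, h3, h4]
    refine Finset.prod_congr rfl fun t _ => ?_
    simp only [avU, map_pow, Units.val_pow_eq_pow_val, ← hz]
    rw [← pow_mul, ← pow_succ]
    congr 2
    ring
  have hcop : ∀ t : ℕ, (1 + t * l ^ (j - 1)).Coprime (orderOf x) := by
    intro t
    rw [hx]
    refine Nat.Coprime.pow_right _ ?_
    have h1 : l ∣ t * l ^ (j - 1) :=
      Dvd.dvd.mul_left (dvd_pow_self l (by omega)) t
    obtain ⟨c, hc⟩ := h1
    rw [hc]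
    simp [Nat.coprime_comm]
  have hprod : ∀ χ : G →* ℂˣ, avU x χ ^ l = ∏ t ∈ Finset.range l, avU x χ := by
    intro χ; simp
  constructor
  · exact avD_congr key (fun χ _ => hprod χ)
      (avD_prod _ fun t _ => avU_pow x (1 + t * l ^ (j - 1)))
  · exact avD_congr (fun χ _ => hprod χ) key
      (avD_prod _ fun t _ => avU_pow' x (1 + t * l ^ (j - 1)) (hcop t))

theorem av_iter {l : ℕ} (hl : l.Prime) {x : G} {j : ℕ} (hx : orderOf x = l ^ j) (k : ℕ)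
    (hk : k < j) :
    avD (avU (x ^ l ^ k)) (fun χ => avU x χ ^ l ^ k) ∧
      avD (fun χ => avU x χ ^ l ^ k) (avU (x ^ l ^ k)) := by
  induction k with
  | zero =>
    simp only [pow_zero, pow_one]
    exact ⟨avD_refl _, avD_refl _⟩
  | succ k ih =>
    obtain ⟨h1, h2⟩ := ih (by omega)
    have ho : orderOf (x ^ l ^ k) = l ^ (j - k) := by
      rw [orderOf_pow, hx, Nat.gcd_eq_right (pow_dvd_pow l (by omega)), Nat.pow_div (by omega) hl.pos]
    obtain ⟨h3, h4⟩ := av_step hl (j := j - k) (by omega) ho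
    have e : x ^ l ^ (k + 1) = (x ^ l ^ k) ^ l := by rw [← pow_mul, pow_succ]
    have e' : ∀ χ : G →* ℂˣ, avU x χ ^ l ^ (k + 1) = (avU x χ ^ l ^ k) ^ l := by
      intro χ; rw [← pow_mul, pow_succ]
    constructor
    · rw [e]
      exact avD_congr (fun _ _ => rfl) (fun χ _ => e' χ) (avD_trans h3 (avD_pow h1 l))
    · rw [e]
      exact avD_congr (fun χ _ => e' χ) (fun _ _ => rfl) (avD_trans (avD_pow h2 l) h4)

end AV

section main

variable {G : Type} [CommGroup G] [Fintype G] [IsCyclic G]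

theorem syl_exists_pr (G : Type) [CommGroup G] [Fintype G] [IsCyclic G] (l : ℕ) :
    ∃ s : G, SylG l s := by
  classical
  let H : Subgroup G :=
    { carrier := {g | ∃ i : ℕ, g ^ l ^ i = 1}
      mul_mem' := by
        rintro a b ⟨i, hi⟩ ⟨j, hj⟩
        refine ⟨i + j, ?_⟩
        rw [mul_pow, pow_add, pow_mul, hi, one_pow, one_mul, mul_comm, pow_mul, hj, one_pow]
      one_mem' := ⟨0, by simp⟩
      inv_mem' := by
        rintro a ⟨i, hi⟩
        exact ⟨i, by rw [inv_pow, hi, inv_one]⟩ }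
  obtain ⟨⟨s, hs⟩, hgen⟩ := IsCyclic.exists_generator (α := H)
  refine ⟨s, fun g => ⟨fun hg => ?_, fun hg => ?_⟩⟩
  · obtain ⟨n, hn⟩ := Subgroup.mem_zpowers_iff.1 (hgen ⟨g, hg⟩)
    refine Subgroup.mem_zpowers_iff.2 ⟨n, ?_⟩
    have := congrArg Subtype.val hn
    simpa using this
  · have : g ∈ H := by
      have h1 : Subgroup.zpowers s ≤ H := by
        rw [Subgroup.zpowers_le]; exact hs
      exact h1 hg
    exact this

theorem unit_g_pr {l : ℕ} (hl : l.Prime) {g : G} (hg : ¬ ∃ i : ℕ, g ^ l ^ i = 1) :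
    ∃ (k : ℕ) (v : MonoidAlgebra ℤ G), ¬ l ∣ k ∧
      ∀ χ : G →* ℂˣ, Function.Injective χ → (k : ℂ) = (1 - (χ g : ℂ)) * evZ χ v := by
  set m := orderOf g with hm
  have hmpos : 0 < m := orderOf_pos g
  -- a prime `q ≠ l` dividing `m`
  obtain ⟨q, hq, hqm, hql⟩ : ∃ q : ℕ, q.Prime ∧ q ∣ m ∧ q ≠ l := by
    by_contra hcon
    push Not at hcon
    apply hg
    have h1 : m = l ^ m.primeFactorsList.length :=
      Nat.eq_prime_pow_of_unique_prime_dvd hmpos.ne' fun hp hd => hcon _ hp hd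
    exact ⟨m.primeFactorsList.length, by rw [← h1]; exact pow_orderOf_eq_one g⟩
  have hnl : ¬ l ∣ q := by
    intro h
    exact hql ((Nat.prime_dvd_prime_iff_eq hl hq).1 h).symm
  obtain ⟨c, hc⟩ := hqm
  have hcpos : 0 < c := by
    rcases Nat.eq_zero_or_pos c with h | h
    · rw [h, mul_zero] at hc; omega
    · exact h
  obtain ⟨v1, hv1⟩ := avU_pow g c
  have h2 : avD (fun _ : G →* ℂˣ => (q : ℂ)) (avU (g ^ c)) := by
    refine ⟨∑ i ∈ Finset.range q, ∑ k ∈ Finset.range i, (MonoidAlgebra.single (g ^ c) (1 : ℤ)) ^ k,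
      fun χ hχ => ?_⟩
    have h : ∀ i, evZ χ ((MonoidAlgebra.single (g ^ c) (1 : ℤ)) ^ i) =
        ((χ (g ^ c) : ℂˣ) : ℂ) ^ i := fun i => by
      rw [map_pow, av_evZ_single]; simp
    have hp := av_prim χ hχ (g ^ c)
    have ho : orderOf (g ^ c) = q := by
      rw [orderOf_pow, ← hm, hc, Nat.gcd_eq_right (Dvd.intro_left q rfl),
        Nat.mul_div_cancel _ hcpos]
    rw [ho] at hp
    have hs : ∑ i ∈ Finset.range q, ((χ (g ^ c) : ℂˣ) : ℂ) ^ i = 0 :=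
      hp.geom_sum_eq_zero hq.one_lt
    simp only [map_sum, h]
    rw [Finset.mul_sum]
    have h3 : ∀ i ∈ Finset.range q, avU (g ^ c) χ *
        ∑ k ∈ Finset.range i, ((χ (g ^ c) : ℂˣ) : ℂ) ^ k = 1 - ((χ (g ^ c) : ℂˣ) : ℂ) ^ i := by
      intro i _
      rw [avU, mul_neg_geom_sum]
    rw [Finset.sum_congr rfl h3, Finset.sum_sub_distrib, hs]
    simp
  obtain ⟨v, hv⟩ := avD_trans h2 ⟨v1, hv1⟩
  exact ⟨q, v, hnl, fun χ hχ => hv χ hχ⟩

theorem av_orderOf_syl {l : ℕ} (hl : l.Prime) {s : G} (hs : SylG l s) :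
    ∃ j : ℕ, orderOf s = l ^ j := by
  obtain ⟨i, hi⟩ := (hs s).2 (Subgroup.mem_zpowers s)
  obtain ⟨j, _, hj⟩ := (Nat.dvd_prime_pow hl).1 (orderOf_dvd_of_pow_eq_one hi)
  exact ⟨j, hj⟩

theorem unit_l_pr {l : ℕ} (hl : l.Prime) {s : G} (hs : SylG l s) {g : G} (hg1 : g ≠ 1)
    (hg : ∃ i : ℕ, g ^ l ^ i = 1) :
    ∃ v v' : MonoidAlgebra ℤ G, ∀ χ : G →* ℂˣ, Function.Injective χ →
      ((χ s : ℂˣ) - 1 : ℂ) ^ (orderOf s / orderOf g) = (1 - (χ g : ℂ)) * evZ χ v ∧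
      (1 - (χ g : ℂ)) = ((χ s : ℂˣ) - 1 : ℂ) ^ (orderOf s / orderOf g) * evZ χ v' := by
  obtain ⟨j, hj⟩ := av_orderOf_syl hl hs
  have hmem : g ∈ Submonoid.powers s := by
    have h := (hs g).1 hg
    exact (mem_powers_iff_mem_zpowers).2 h
  obtain ⟨n, hn⟩ := hmem
  have hn' : s ^ n = g := hn
  have hn0 : n ≠ 0 := by
    rintro rfl
    exact hg1 (by rw [← hn', pow_zero])
  obtain ⟨k, u, hu, hnk⟩ := Nat.exists_eq_pow_mul_and_not_dvd hn0 l hl.ne_one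
  have hkj : k < j := by
    by_contra hcon
    push Not at hcon
    apply hg1
    rw [← hn', hnk, ← pow_mul_pow_sub l hcon, mul_assoc, pow_mul, ← hj, pow_orderOf_eq_one, one_pow]
  have ho : orderOf (s ^ l ^ k) = l ^ (j - k) := by
    rw [orderOf_pow, hj, Nat.gcd_eq_right (pow_dvd_pow l hkj.le), Nat.pow_div hkj.le hl.pos]
  have hgk : g = (s ^ l ^ k) ^ u := by rw [← hn', hnk, pow_mul]
  have hcop : u.Coprime (orderOf (s ^ l ^ k)) := by
    rw [ho]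
    exact Nat.Coprime.pow_right _ ((Nat.Prime.coprime_iff_not_dvd hl).2 hu).symm
  have hog : orderOf g = l ^ (j - k) := by
    rw [hgk, orderOf_pow' _ (show u ≠ 0 from fun h => hu (by rw [h]; exact dvd_zero l)), Nat.Coprime.gcd_eq_one hcop.symm, ho, Nat.div_one]
  have hdiv : orderOf s / orderOf g = l ^ k := by
    rw [hj, hog, Nat.pow_div (by omega) hl.pos]
    congr 1; omega
  obtain ⟨h1, h2⟩ := av_iter hl hj k hkj
  have h3 := avU_pow (s ^ l ^ k) u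
  have h4 := avU_pow' (s ^ l ^ k) u hcop
  rw [← hgk] at h3 h4
  obtain ⟨v, hv⟩ := avD_neg_left s (l ^ k) (avD_trans h2 h4)
  obtain ⟨v', hv'⟩ := avD_neg_right s (l ^ k) (avD_trans h3 h1)
  refine ⟨v, v', fun χ hχ => ?_⟩
  rw [hdiv]
  exact ⟨hv χ hχ, hv' χ hχ⟩

theorem unit_p_pr {l : ℕ} (hl : l.Prime) {s : G} (hs : SylG l s) {j : ℕ} (hj : 0 < j)
    (hsj : orderOf s = l ^ j) :
    ∃ v v' : MonoidAlgebra ℤ G, ∀ χ : G →* ℂˣ, Function.Injective χ →
      ((χ s : ℂˣ) - 1 : ℂ) ^ (l ^ (j - 1) * (l - 1)) = (l : ℂ) * evZ χ v ∧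
      (l : ℂ) = ((χ s : ℂˣ) - 1 : ℂ) ^ (l ^ (j - 1) * (l - 1)) * evZ χ v' := by
  obtain ⟨h1, h2⟩ := av_iter hl hsj (j - 1) (by omega)
  set w : G := s ^ l ^ (j - 1) with hw
  have ho : orderOf w = l := by
    rw [hw, orderOf_pow, hsj, Nat.gcd_eq_right (pow_dvd_pow l (by omega)),
      Nat.pow_div (by omega) hl.pos]
    have : j - (j - 1) = 1 := by omega
    rw [this, pow_one]
  have key : ∀ χ : G →* ℂˣ, Function.Injective χ →
      (l : ℂ) = ∏ t ∈ Finset.range (l - 1), avU (w ^ (t + 1)) χ := by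
    intro χ hχ
    have hp := av_prim χ hχ w
    rw [ho] at hp
    have e : l = (l - 1) + 1 := by have := hl.pos; omega
    rw [e] at hp
    have h3 := hp.prod_one_sub_pow_eq_order
    simp only [avU, map_pow, Units.val_pow_eq_pow_val]
    rw [h3]
    have e2 : (l : ℂ) = ((l - 1 + 1 : ℕ) : ℂ) := by rw [← e]
    rw [e2]; push_cast; ring
  have hprod : ∀ χ : G →* ℂˣ, avU w χ ^ (l - 1) = ∏ t ∈ Finset.range (l - 1), avU w χ := by
    intro χ; simp
  have hcop : ∀ t ∈ Finset.range (l - 1), (t + 1).Coprime (orderOf w) := by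
    intro t ht
    rw [ho]
    have h5 := Finset.mem_range.1 ht
    exact (Nat.Prime.coprime_iff_not_dvd hl).2 (fun h => by
      have := Nat.le_of_dvd (by omega) h; omega) |>.symm
  have a1 : avD (fun _ : G →* ℂˣ => (l : ℂ)) (fun χ => avU w χ ^ (l - 1)) :=
    avD_congr key (fun χ _ => hprod χ) (avD_prod _ fun t _ => avU_pow w (t + 1))
  have a2 : avD (fun χ => avU w χ ^ (l - 1)) (fun _ : G →* ℂˣ => (l : ℂ)) :=
    avD_congr (fun χ _ => hprod χ) key (avD_prod _ fun t ht => avU_pow' w (t + 1) (hcop t ht))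
  have b1 : avD (fun χ => avU w χ ^ (l - 1)) (fun χ => avU s χ ^ (l ^ (j - 1) * (l - 1))) :=
    avD_congr (fun _ _ => rfl) (fun χ _ => pow_mul _ _ _) (avD_pow h1 (l - 1))
  have b2 : avD (fun χ => avU s χ ^ (l ^ (j - 1) * (l - 1))) (fun χ => avU w χ ^ (l - 1)) :=
    avD_congr (fun χ _ => pow_mul _ _ _) (fun _ _ => rfl) (avD_pow h2 (l - 1))
  obtain ⟨v, hv⟩ := avD_neg_left s (l ^ (j - 1) * (l - 1)) (avD_trans b2 a2)
  obtain ⟨v', hv'⟩ := avD_neg_right s (l ^ (j - 1) * (l - 1)) (avD_trans a1 b1)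
  exact ⟨v, v', fun χ hχ => ⟨hv χ hχ, hv' χ hχ⟩⟩

end main

end Pool.Agent.CR

namespace Pool.Agent.CR
open Pool.Agent.RSK Pool.Agent.RS2 Pool.Agent.SY
open Filter Topology Complex

section
variable {G : Type} [CommGroup G] [Fintype G] [IsCyclic G]

theorem syl_exists (G : Type) [CommGroup G] [Fintype G] [IsCyclic G] (l : ℕ) :
    ∃ s : G, SylG l s :=
  @Pool.Agent.CR.syl_exists_pr G _ _ _ l

end

end Pool.Agent.CR

namespace Pool.Agent.CR
open Pool.Agent.RSK Pool.Agent.RS2 Pool.Agent.SY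
open Filter Topology Complex

section
variable {G : Type} [CommGroup G] [Fintype G] [IsCyclic G]

theorem unit_g {l : ℕ} (hl : l.Prime) {g : G} (hg : ¬ ∃ i : ℕ, g ^ l ^ i = 1) :
    ∃ (k : ℕ) (v : MonoidAlgebra ℤ G), ¬ l ∣ k ∧
      ∀ χ : G →* ℂˣ, Function.Injective χ → (k : ℂ) = (1 - (χ g : ℂ)) * evZ χ v :=
  @Pool.Agent.CR.unit_g_pr G _ _ _ l hl g hg

end

end Pool.Agent.CR

namespace Pool.Agent.CR
open Pool.Agent.RSK Pool.Agent.RS2 Pool.Agent.SY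
open Filter Topology Complex

section
variable {G : Type} [CommGroup G] [Fintype G] [IsCyclic G]

theorem unit_l {l : ℕ} (hl : l.Prime) {s : G} (hs : SylG l s) {g : G} (hg1 : g ≠ 1)
    (hg : ∃ i : ℕ, g ^ l ^ i = 1) :
    ∃ v v' : MonoidAlgebra ℤ G, ∀ χ : G →* ℂˣ, Function.Injective χ →
      ((χ s : ℂˣ) - 1 : ℂ) ^ (orderOf s / orderOf g) = (1 - (χ g : ℂ)) * evZ χ v ∧
      (1 - (χ g : ℂ)) = ((χ s : ℂˣ) - 1 : ℂ) ^ (orderOf s / orderOf g) * evZ χ v' :=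
  @Pool.Agent.CR.unit_l_pr G _ _ _ l hl s hs g hg1 hg

end

end Pool.Agent.CR

namespace Pool.Agent.CR
open Pool.Agent.RSK Pool.Agent.RS2 Pool.Agent.SY
open Filter Topology Complex

section
variable {G : Type} [CommGroup G] [Fintype G] [IsCyclic G]

theorem unit_p {l : ℕ} (hl : l.Prime) {s : G} (hs : SylG l s) {j : ℕ} (hj : 0 < j)
    (hsj : orderOf s = l ^ j) :
    ∃ v v' : MonoidAlgebra ℤ G, ∀ χ : G →* ℂˣ, Function.Injective χ →
      ((χ s : ℂˣ) - 1 : ℂ) ^ (l ^ (j - 1) * (l - 1)) = (l : ℂ) * evZ χ v ∧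
      (l : ℂ) = ((χ s : ℂˣ) - 1 : ℂ) ^ (l ^ (j - 1) * (l - 1)) * evZ χ v' :=
  @Pool.Agent.CR.unit_p_pr G _ _ _ l hl s hs j hj hsj

end

end Pool.Agent.CR
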