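import Pool.Agent.Lib_helper17.CRF.D_WB

/-!
# Composite Rubin (CR), block PL: lists of subgroups of prime order
-/

set_option autoImplicit false
set_option linter.unusedSectionVars false

namespace Pool.Agent.CR

open Pool.Agent.RSK Pool.Agent.RS2 Pool.Agent.SY
open Filter Topology Complex

section PL

variable {G : Type} [CommGroup G] [Finite G]

theorem prl_exists_pr (G : Type) [CommGroup G] [Finite G] (l : ℕ) :
    ∃ L : List (Subgroup G), PrL G l L := by
  classical
  have hf : (Set.univ : Set (Subgroup G)).Finite := Set.toFinite _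
  refine ⟨hf.toFinset.toList.filter fun P => (Nat.card P).Prime ∧ Nat.card P ≠ l, ?_, ?_, ?_⟩
  · exact (Finset.nodup_toList _).filter _
  · intro P hP
    have := (List.mem_filter.1 hP).2
    simpa using this
  · intro P hp hl
    refine List.mem_filter.2 ⟨?_, ?_⟩
    · rw [Finset.mem_toList]
      exact hf.mem_toFinset.2 (Set.mem_univ _)
    · simpa using ⟨hp, hl⟩

/-- a subgroup of prime order contains an element of this order, and conversely -/
theorem pl_cauchy {p : ℕ} (hp : p.Prime) (h : p ∣ Nat.card G) :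
    ∃ P : Subgroup G, Nat.card P = p := by
  have : Fact p.Prime := ⟨hp⟩
  obtain ⟨x, hx⟩ := exists_prime_orderOf_dvd_card' p h
  exact ⟨Subgroup.zpowers x, by rw [Nat.card_zpowers, hx]⟩

theorem pl_unique [IsCyclic G] {l : ℕ} {P : Subgroup G} (hP : Nat.card P = l) :
    P = (powMonoidHom l : G →* G).ker := by
  refine Subgroup.eq_of_le_of_card_ge (fun x hx => ?_) ?_
  · rw [MonoidHom.mem_ker, powMonoidHom_apply, ← hP]
    have h1 : (⟨x, hx⟩ : P) ^ Nat.card P = 1 := pow_card_eq_one'
    exact congrArg Subtype.val h1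
  · rw [IsCyclic.card_powMonoidHom_ker, hP]
    have hd : l ∣ Nat.card G := hP ▸ Subgroup.card_subgroup_dvd_card P
    rw [Nat.gcd_eq_right hd]

theorem prl_cons_pr [IsCyclic G] {l : ℕ} (hl : l.Prime) {L : List (Subgroup G)} (hL : PrL G l L)
    {P : Subgroup G} (hP : Nat.card P = l) : PrL G 0 (P :: L) := by
  refine ⟨?_, ?_, ?_⟩
  · refine List.nodup_cons.2 ⟨fun h => (hL.prime P h).2 hP, hL.nodup⟩
  · intro Q hQ
    rcases List.mem_cons.1 hQ with rfl | hQ
    · exact ⟨hP ▸ hl, hP ▸ hl.ne_zero⟩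
    · exact ⟨(hL.prime Q hQ).1, (hL.prime Q hQ).1.ne_zero⟩
  · intro Q hQ _
    by_cases hQl : Nat.card Q = l
    · refine List.mem_cons.2 (Or.inl ?_)
      rw [pl_unique hQl, ← pl_unique hP]
    · exact List.mem_cons.2 (Or.inr (hL.all Q hQ hQl))

theorem prl_zero_pr {l : ℕ} {L : List (Subgroup G)} (hL : PrL G l L) (h : ¬ l ∣ Nat.card G) :
    PrL G 0 L := by
  refine ⟨hL.nodup, fun P hP => ⟨(hL.prime P hP).1, (hL.prime P hP).1.ne_zero⟩, ?_⟩
  intro P hP _
  refine hL.all P hP fun hPl => h ?_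
  rw [← hPl]
  exact Subgroup.card_subgroup_dvd_card P

theorem prl_nil_pr {l : ℕ} (hl : l.Prime) {L : List (Subgroup G)} (hL : PrL G l L) :
    L = [] ↔ ∀ g : G, ∃ i : ℕ, g ^ l ^ i = 1 := by
  constructor
  · rintro rfl
    have h1 : ∀ p : ℕ, p.Prime → p ∣ Nat.card G → p = l := by
      intro p hp hd
      obtain ⟨P, hP⟩ := pl_cauchy hp hd
      by_contra hne
      have := hL.all P (hP ▸ hp) (hP ▸ hne)
      exact List.not_mem_nil this
    have h2 : Nat.card G = l ^ (Nat.card G).primeFactorsList.length :=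
      Nat.eq_prime_pow_of_unique_prime_dvd Nat.card_pos.ne' fun {d} hd h => h1 d hd h
    intro g
    refine ⟨(Nat.card G).primeFactorsList.length, ?_⟩
    rw [← h2]
    exact pow_card_eq_one'
  · intro h
    by_contra hne
    obtain ⟨P, hP⟩ := List.exists_mem_of_ne_nil L hne
    obtain ⟨hp, hpl⟩ := hL.prime P hP
    have : Fact (Nat.card P).Prime := ⟨hp⟩
    obtain ⟨x, hx⟩ := exists_prime_orderOf_dvd_card' (G := P) (Nat.card P) dvd_rfl
    obtain ⟨i, hi⟩ := h (x : G)
    have hx' : orderOf (x : G) = Nat.card P := by rw [Subgroup.orderOf_coe, hx]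
    have hd : Nat.card P ∣ l ^ i := by
      rw [← hx']
      exact orderOf_dvd_of_pow_eq_one hi
    exact hpl ((Nat.prime_dvd_prime_iff_eq hp hl).1 (hp.dvd_of_dvd_pow hd))

theorem prl_nil0_pr {L : List (Subgroup G)} (hL : PrL G 0 L) : L = [] ↔ Subsingleton G := by
  constructor
  · rintro rfl
    have h1 : ∀ p : ℕ, p.Prime → ¬ p ∣ Nat.card G := by
      intro p hp hd
      obtain ⟨P, hP⟩ := pl_cauchy hp hd
      have := hL.all P (hP ▸ hp) (hP ▸ hp.ne_zero)
      exact List.not_mem_nil this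
    have h2 : Nat.card G = 1 := Nat.eq_one_iff_not_exists_prime_dvd.2 h1
    exact (Nat.card_eq_one_iff_unique.1 h2).1
  · intro h
    by_contra hne
    obtain ⟨P, hP⟩ := List.exists_mem_of_ne_nil L hne
    have hp := (hL.prime P hP).1
    have : Nat.card P = 1 := by
      have : Subsingleton P := inferInstance
      exact Nat.card_unique
    exact hp.one_lt.ne' this

theorem inj_iff_pr (χ : G →* ℂˣ) : Function.Injective χ ↔
    ∀ P : Subgroup G, (Nat.card P).Prime → ¬ P ≤ χ.ker := by
  constructor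
  · intro h P hP hle
    rw [(MonoidHom.ker_eq_bot_iff χ).2 h, le_bot_iff] at hle
    rw [hle, Subgroup.card_bot] at hP
    exact Nat.not_prime_one hP
  · intro h
    rw [← MonoidHom.ker_eq_bot_iff]
    by_contra hne
    have hc : Nat.card χ.ker ≠ 1 := fun h1 => hne (Subgroup.card_eq_one.1 h1)
    obtain ⟨p, hp, hd⟩ := Nat.exists_prime_and_dvd hc
    have : Fact p.Prime := ⟨hp⟩
    obtain ⟨x, hx⟩ := exists_prime_orderOf_dvd_card' p hd
    have hx' : orderOf (x : G) = p := by rw [Subgroup.orderOf_coe, hx]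
    refine h (Subgroup.zpowers (x : G)) ?_ ?_
    · rw [Nat.card_zpowers, hx']
      exact hp
    · rw [Subgroup.zpowers_le]
      exact x.2

theorem mI_nty_pr {M : Type} [AddCommGroup M] (A : G →* AddMonoid.End M) {L : List (Subgroup G)}
    (hL : PrL G 0 L) : mI A = nty A L ⊥ := by
  ext u
  constructor
  · intro hu
    refine ⟨fun g hg => ?_, fun P hP => hu P (hL.prime P hP).1⟩
    rw [Subgroup.mem_bot.1 hg, map_one]
    rfl
  · intro hu P hP
    exact hu.2 P (hL.all P hP hP.ne_zero)

end PL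

end Pool.Agent.CR

namespace Pool.Agent.CR
open Pool.Agent.RSK Pool.Agent.RS2 Pool.Agent.SY
open Filter Topology Complex

section
variable {G : Type} [CommGroup G] [Finite G]

theorem prl_exists (G : Type) [CommGroup G] [Finite G] (l : ℕ) :
    ∃ L : List (Subgroup G), PrL G l L :=
  @Pool.Agent.CR.prl_exists_pr G _ _ l

end

end Pool.Agent.CR

namespace Pool.Agent.CR
open Pool.Agent.RSK Pool.Agent.RS2 Pool.Agent.SY
open Filter Topology Complex

section
variable {G : Type} [CommGroup G] [Finite G]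

theorem prl_cons [IsCyclic G] {l : ℕ} (hl : l.Prime) {L : List (Subgroup G)} (hL : PrL G l L)
    {P : Subgroup G} (hP : Nat.card P = l) : PrL G 0 (P :: L) :=
  @Pool.Agent.CR.prl_cons_pr G _ _ _ l hl L hL P hP

end

end Pool.Agent.CR

namespace Pool.Agent.CR
open Pool.Agent.RSK Pool.Agent.RS2 Pool.Agent.SY
open Filter Topology Complex

section
variable {G : Type} [CommGroup G] [Finite G]

theorem prl_zero {l : ℕ} {L : List (Subgroup G)} (hL : PrL G l L) (h : ¬ l ∣ Nat.card G) :
    PrL G 0 L :=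
  @Pool.Agent.CR.prl_zero_pr G _ _ l L hL h

end

end Pool.Agent.CR

namespace Pool.Agent.CR
open Pool.Agent.RSK Pool.Agent.RS2 Pool.Agent.SY
open Filter Topology Complex

section
variable {G : Type} [CommGroup G] [Finite G]

theorem prl_nil {l : ℕ} (hl : l.Prime) {L : List (Subgroup G)} (hL : PrL G l L) :
    L = [] ↔ ∀ g : G, ∃ i : ℕ, g ^ l ^ i = 1 :=
  @Pool.Agent.CR.prl_nil_pr G _ _ l hl L hL

end

end Pool.Agent.CR

namespace Pool.Agent.CR
open Pool.Agent.RSK Pool.Agent.RS2 Pool.Agent.SY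
open Filter Topology Complex

section
variable {G : Type} [CommGroup G] [Finite G]

theorem prl_nil0 {L : List (Subgroup G)} (hL : PrL G 0 L) : L = [] ↔ Subsingleton G :=
  @Pool.Agent.CR.prl_nil0_pr G _ _ L hL

end

end Pool.Agent.CR

namespace Pool.Agent.CR
open Pool.Agent.RSK Pool.Agent.RS2 Pool.Agent.SY
open Filter Topology Complex

section
variable {G : Type} [CommGroup G] [Finite G]

theorem inj_iff (χ : G →* ℂˣ) : Function.Injective χ ↔
    ∀ P : Subgroup G, (Nat.card P).Prime → ¬ P ≤ χ.ker :=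
  @Pool.Agent.CR.inj_iff_pr G _ _ χ

end

end Pool.Agent.CR

namespace Pool.Agent.CR
open Pool.Agent.RSK Pool.Agent.RS2 Pool.Agent.SY
open Filter Topology Complex

section
variable {G : Type} [CommGroup G] [Finite G]

theorem mI_nty {M : Type} [AddCommGroup M] (A : G →* AddMonoid.End M) {L : List (Subgroup G)}
    (hL : PrL G 0 L) : mI A = nty A L ⊥ :=
  @Pool.Agent.CR.mI_nty_pr G _ _ M _ A L hL

end

end Pool.Agent.CR
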