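import Pool.Agent.Lib_helper17.CRF.D_WB
import Pool.Agent.Lib_helper17.RS.P_PX2
import Pool.Agent.Lib_helper17.CRF.B_PL

/-!
# CR, block KL: the new part of a module; the element `θ`
-/

set_option autoImplicit false
set_option linter.unusedSectionVars false

namespace Pool.Agent.CR

open Pool.Agent.RSK Pool.Agent.RS2 Pool.Agent.SY
open Filter Topology Complex

section KL

variable {G M : Type} [CommGroup G] [Finite G] [AddCommGroup M] [Module (MonoidAlgebra ℤ G) M]

omit [Finite G] in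
theorem kl_evZ_single (χ : G →* ℂˣ) (g : G) (n : ℤ) :
    evZ χ (MonoidAlgebra.single g n) = (n : ℂ) * ((χ g : ℂˣ) : ℂ) := by
  show evQ χ (toQ G (MonoidAlgebra.single g n)) = _
  have h1 : toQ G (MonoidAlgebra.single g n) = MonoidAlgebra.single g (n : ℚ) := by
    unfold toQ
    simp
  rw [h1]
  unfold evQ
  rw [MonoidAlgebra.lift_single, Algebra.smul_def]
  simp

theorem kl_nP_sum (P : Subgroup G) [Fintype P] :
    nP P = ∑ h : P, MonoidAlgebra.single (h : G) (1 : ℤ) := by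
  unfold nP
  rw [finsum_eq_sum_of_fintype]

theorem kl_ev_le {χ : G →* ℂˣ} {P : Subgroup G} (h : P ≤ χ.ker) :
    evZ χ (nP P) = (Nat.card P : ℂ) := by
  classical
  have : Fintype P := Fintype.ofFinite P
  rw [kl_nP_sum, map_sum]
  have h1 : ∀ h : P, evZ χ (MonoidAlgebra.single (h : G) (1 : ℤ)) = 1 := by
    intro g
    have h2 : χ g = 1 := h g.2
    rw [kl_evZ_single, h2, Units.val_one]
    push_cast
    ring
  rw [Finset.sum_congr rfl (fun g _ => h1 g), Finset.sum_const, Finset.card_univ,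
    ← Nat.card_eq_fintype_card, nsmul_eq_mul, mul_one]

theorem kl_ev_not {χ : G →* ℂˣ} {P : Subgroup G} (h : ¬ P ≤ χ.ker) : evZ χ (nP P) = 0 := by
  classical
  have : Fintype P := Fintype.ofFinite P
  obtain ⟨g, hg, hg1⟩ := SetLike.not_le_iff_exists.1 h
  have h2 : MonoidAlgebra.single g (1 : ℤ) * nP P = nP P := by
    rw [kl_nP_sum, Finset.mul_sum,
      ← Equiv.sum_comp (Equiv.mulLeft (⟨g, hg⟩ : P))
        (fun x : P => MonoidAlgebra.single (x : G) (1 : ℤ))]
    refine Finset.sum_congr rfl fun x _ => ?_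
    rw [MonoidAlgebra.single_mul_single, one_mul, Equiv.coe_mulLeft]
    rfl
  have h3 := congrArg (evZ χ) h2
  rw [map_mul, kl_evZ_single] at h3
  have h4 : ((χ g : ℂ) - 1) * evZ χ (nP P) = 0 := by
    push_cast at h3
    linear_combination h3
  rcases mul_eq_zero.1 h4 with h5 | h5
  · exfalso
    apply hg1
    rw [MonoidHom.mem_ker]
    ext
    rw [Units.val_one]
    linear_combination h5
  · exact h5

theorem kl_inj {x y : MonoidAlgebra ℤ G} (h : ∀ χ : G →* ℂˣ, evZ χ x = evZ χ y) : x = y := by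
  classical
  have : Fintype G := Fintype.ofFinite G
  have h1 : toQ G x = toQ G y := evQ_inj h
  have h2 : Function.Injective (toQ G) := by
    intro a b hab
    ext g
    have h3 := congrArg (fun z : MonoidAlgebra ℚ G => z.coeff g) hab
    have h4 : ∀ c : MonoidAlgebra ℤ G, (toQ G c).coeff g = ((c.coeff g : ℤ) : ℚ) := by
      intro c
      unfold toQ
      simp
    simp only [h4] at h3
    exact_mod_cast h3
  exact h2 h1

/-- the product of the `#P - nP P` over a finite set of subgroups -/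
noncomputable def kl_th (T : Finset (Subgroup G)) : MonoidAlgebra ℤ G :=
  ∏ P ∈ T, ((Nat.card P : MonoidAlgebra ℤ G) - nP P)

theorem kl_th_one (T : Finset (Subgroup G)) (χ : G →* ℂˣ) (h : ∀ P ∈ T, ¬ P ≤ χ.ker) :
    evZ χ (kl_th T) = ((∏ P ∈ T, Nat.card P : ℕ) : ℂ) := by
  unfold kl_th
  rw [map_prod]
  push_cast
  refine Finset.prod_congr rfl fun P hP => ?_
  rw [map_sub, kl_ev_not (h P hP), map_natCast, sub_zero]

theorem kl_th_zero (T : Finset (Subgroup G)) (χ : G →* ℂˣ) (h : ∃ P ∈ T, P ≤ χ.ker) :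
    evZ χ (kl_th T) = 0 := by
  obtain ⟨P, hP, hle⟩ := h
  unfold kl_th
  rw [map_prod]
  apply Finset.prod_eq_zero hP
  rw [map_sub, kl_ev_le hle, map_natCast, sub_self]

theorem nA_smA_pr (P : Subgroup G) (u : M) : nA (smA G M) P u = nP P • u := by
  classical
  have : Fintype P := Fintype.ofFinite P
  rw [nA_sum, kl_nP_sum, Finset.sum_smul]
  rfl

theorem kl_th_smul (T : Finset (Subgroup G)) {u : M} (hu : ∀ P ∈ T, nP P • u = 0) :
    kl_th T • u = (∏ P ∈ T, Nat.card P : ℕ) • u := by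
  classical
  unfold kl_th
  induction T using Finset.induction_on with
  | empty => rw [Finset.prod_empty, Finset.prod_empty, one_smul, one_smul]
  | insert P T hP ih =>
    rw [Finset.prod_insert hP, Finset.prod_insert hP, mul_comm, mul_smul, sub_smul,
      hu P (Finset.mem_insert_self P T), sub_zero, mul_smul, ← Nat.cast_smul_eq_nsmul
        (MonoidAlgebra ℤ G) (Nat.card P) ((∏ P ∈ T, Nat.card P : ℕ) • u), smul_comm,
      ih fun Q hQ => hu Q (Finset.mem_insert_of_mem hQ)]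

theorem new_kill_pr [Module.IsTorsionFree ℤ M] (a : MonoidAlgebra ℤ G)
    (ha : ∀ χ : G →* ℂˣ, Function.Injective χ → evZ χ a = 0) {u : M} (hu : u ∈ mI (smA G M)) :
    a • u = 0 := by
  classical
  have hfin : Finite (Subgroup G) := inferInstance
  have : Fintype (Subgroup G) := Fintype.ofFinite _
  set T : Finset (Subgroup G) := Finset.univ.filter fun P => (Nat.card P).Prime with hT
  have h1 : a * kl_th T = 0 := by
    apply kl_inj
    intro χ
    rw [map_mul, map_zero]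
    by_cases hχ : Function.Injective χ
    · rw [ha χ hχ, zero_mul]
    · rw [inj_iff] at hχ
      push Not at hχ
      obtain ⟨P, hP, hle⟩ := hχ
      rw [kl_th_zero T χ ⟨P, by rw [hT]; simp [hP], hle⟩, mul_zero]
  have h2 : kl_th T • u = (∏ P ∈ T, Nat.card P : ℕ) • u := by
    apply kl_th_smul
    intro P hP
    rw [← nA_smA_pr]
    exact hu P (by rw [hT] at hP; simpa using hP)
  have h3 : (∏ P ∈ T, Nat.card P : ℕ) • (a • u) = 0 := by
    rw [smul_comm, ← h2, ← mul_smul, h1, zero_smul]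
  have h4 : (∏ P ∈ T, Nat.card P : ℕ) ≠ 0 := by
    rw [Finset.prod_ne_zero_iff]
    intro P _
    exact Nat.card_pos.ne'
  have h5 : ((∏ P ∈ T, Nat.card P : ℕ) : ℤ) • (a • u) = 0 := by
    rw [natCast_zsmul]
    exact h3
  rcases smul_eq_zero.1 h5 with h6 | h6
  · exfalso
    exact h4 (by exact_mod_cast h6)
  · exact h6

theorem th_exists_pr {l : ℕ} (hl : l.Prime) : ∃ (m : ℕ) (θ : MonoidAlgebra ℤ G), ¬ l ∣ m ∧
    (∀ χ : G →* ℂˣ, (∀ P : Subgroup G, (Nat.card P).Prime → Nat.card P ≠ l → ¬ P ≤ χ.ker) →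
      evZ χ θ = m) ∧
    ∀ χ : G →* ℂˣ, (∃ P : Subgroup G, (Nat.card P).Prime ∧ Nat.card P ≠ l ∧ P ≤ χ.ker) →
      evZ χ θ = 0 := by
  classical
  have hfin : Finite (Subgroup G) := inferInstance
  have : Fintype (Subgroup G) := Fintype.ofFinite _
  set T : Finset (Subgroup G) :=
    Finset.univ.filter fun P => (Nat.card P).Prime ∧ Nat.card P ≠ l with hT
  refine ⟨∏ P ∈ T, Nat.card P, kl_th T, ?_, ?_, ?_⟩
  · intro hd
    obtain ⟨P, hP, hd⟩ := (hl.prime.dvd_finsetProd_iff _).1 hd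
    rw [hT] at hP
    simp only [Finset.mem_filter, Finset.mem_univ, true_and] at hP
    exact hP.2 ((Nat.prime_dvd_prime_iff_eq hl hP.1).1 hd).symm
  · intro χ h
    apply kl_th_one
    intro P hP
    rw [hT] at hP
    simp only [Finset.mem_filter, Finset.mem_univ, true_and] at hP
    exact h P hP.1 hP.2
  · rintro χ ⟨P, hP, hP2, hle⟩
    apply kl_th_zero
    exact ⟨P, by rw [hT]; simp [hP, hP2], hle⟩

theorem new_smul_pr [Module.IsTorsionFree ℤ M] (a : MonoidAlgebra ℤ G) (u : M) :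
    (u ∈ mI (smA G M) → a • u ∈ mI (smA G M)) ∧
      ((∀ χ : G →* ℂˣ, ¬ Function.Injective χ → evZ χ a = 0) → a • u ∈ mI (smA G M)) := by
  constructor
  · intro hu P hP
    have h1 := hu P hP
    rw [nA_smA_pr] at h1 ⊢
    rw [smul_comm, h1, smul_zero]
  · intro ha P hP
    rw [nA_smA_pr, ← mul_smul]
    have h1 : nP P * a = 0 := by
      apply kl_inj
      intro χ
      rw [map_mul, map_zero]
      by_cases hχ : Function.Injective χ
      · rw [kl_ev_not ((inj_iff χ).1 hχ P hP), zero_mul]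
      · rw [ha χ hχ, mul_zero]
    rw [h1, zero_smul]

theorem new_map_pr (ψ : M →ₗ[MonoidAlgebra ℤ G] MonoidAlgebra ℤ G) {u : M}
    (hu : u ∈ mI (smA G M)) (χ : G →* ℂˣ) (hχ : ¬ Function.Injective χ) : evZ χ (ψ u) = 0 := by
  rw [inj_iff] at hχ
  push Not at hχ
  obtain ⟨P, hP, hle⟩ := hχ
  have h1 := hu P hP
  rw [nA_smA_pr] at h1
  have h2 : nP P * ψ u = 0 := by
    rw [← smul_eq_mul, ← map_smul, h1, map_zero]
  have h3 := congrArg (evZ χ) h2
  rw [map_mul, kl_ev_le hle, map_zero] at h3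
  refine (mul_eq_zero.1 h3).resolve_left ?_
  exact_mod_cast (Nat.card_pos (α := P)).ne'

end KL

end Pool.Agent.CR

namespace Pool.Agent.CR
open Pool.Agent.RSK Pool.Agent.RS2 Pool.Agent.SY
open Filter Topology Complex

section
variable {G M : Type} [CommGroup G] [Finite G] [AddCommGroup M] [Module (MonoidAlgebra ℤ G) M]

theorem nA_smA (P : Subgroup G) (u : M) : nA (smA G M) P u = nP P • u :=
  @Pool.Agent.CR.nA_smA_pr G M _ _ _ _ P u

end

end Pool.Agent.CR

namespace Pool.Agent.CR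
open Pool.Agent.RSK Pool.Agent.RS2 Pool.Agent.SY
open Filter Topology Complex

section
variable {G M : Type} [CommGroup G] [Finite G] [AddCommGroup M] [Module (MonoidAlgebra ℤ G) M]

theorem new_kill [Module.IsTorsionFree ℤ M] (a : MonoidAlgebra ℤ G)
    (ha : ∀ χ : G →* ℂˣ, Function.Injective χ → evZ χ a = 0) {u : M} (hu : u ∈ mI (smA G M)) :
    a • u = 0 :=
  @Pool.Agent.CR.new_kill_pr G M _ _ _ _ _ a ha u hu

end

end Pool.Agent.CR

namespace Pool.Agent.CR
open Pool.Agent.RSK Pool.Agent.RS2 Pool.Agent.SY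
open Filter Topology Complex

section
variable {G M : Type} [CommGroup G] [Finite G] [AddCommGroup M] [Module (MonoidAlgebra ℤ G) M]

theorem th_exists {l : ℕ} (hl : l.Prime) : ∃ (m : ℕ) (θ : MonoidAlgebra ℤ G), ¬ l ∣ m ∧
    (∀ χ : G →* ℂˣ, (∀ P : Subgroup G, (Nat.card P).Prime → Nat.card P ≠ l → ¬ P ≤ χ.ker) →
      evZ χ θ = m) ∧
    ∀ χ : G →* ℂˣ, (∃ P : Subgroup G, (Nat.card P).Prime ∧ Nat.card P ≠ l ∧ P ≤ χ.ker) →
      evZ χ θ = 0 :=
  @Pool.Agent.CR.th_exists_pr G _ _ l hl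

end

end Pool.Agent.CR

namespace Pool.Agent.CR
open Pool.Agent.RSK Pool.Agent.RS2 Pool.Agent.SY
open Filter Topology Complex

section
variable {G M : Type} [CommGroup G] [Finite G] [AddCommGroup M] [Module (MonoidAlgebra ℤ G) M]

theorem new_smul [Module.IsTorsionFree ℤ M] (a : MonoidAlgebra ℤ G) (u : M) :
    (u ∈ mI (smA G M) → a • u ∈ mI (smA G M)) ∧
      ((∀ χ : G →* ℂˣ, ¬ Function.Injective χ → evZ χ a = 0) → a • u ∈ mI (smA G M)) :=
  @Pool.Agent.CR.new_smul_pr G M _ _ _ _ _ a u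

end

end Pool.Agent.CR

namespace Pool.Agent.CR
open Pool.Agent.RSK Pool.Agent.RS2 Pool.Agent.SY
open Filter Topology Complex

section
variable {G M : Type} [CommGroup G] [Finite G] [AddCommGroup M] [Module (MonoidAlgebra ℤ G) M]

theorem new_map (ψ : M →ₗ[MonoidAlgebra ℤ G] MonoidAlgebra ℤ G) {u : M}
    (hu : u ∈ mI (smA G M)) (χ : G →* ℂˣ) (hχ : ¬ Function.Injective χ) : evZ χ (ψ u) = 0 :=
  @Pool.Agent.CR.new_map_pr G M _ _ _ _ ψ u hu χ hχ

end

end Pool.Agent.CR
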