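import Pool.Agent.Lib_helper17.CRF.D_WB
import Pool.Agent.Lib_helper3.AU.TRF
import Pool.Agent.Lib_helper17.CRF.B_AV
import Pool.Agent.Lib_helper17.CRF.B_PL
import Pool.Agent.Lib_helper17.CRF.B_KL

/-!
# Composite Rubin (CR), block LI: lifting to a larger group
-/

set_option autoImplicit false
set_option linter.unusedSectionVars false

namespace Pool.Agent.CR

open Pool.Agent.RSK Pool.Agent.RS2 Pool.Agent.SY
open Filter Topology Complex

section LIaux

variable {G G' : Type} [CommGroup G] [Fintype G] [CommGroup G'] [Fintype G']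

theorem li_single (χ : G →* ℂˣ) (g : G) :
    evZ χ (MonoidAlgebra.single g 1) = ((χ g : ℂˣ) : ℂ) := by
  rw [← Pool.Agent.AU.al_evZ]
  have : toQ G (MonoidAlgebra.single g (1 : ℤ)) = MonoidAlgebra.single g (1 : ℚ) := by
    simp [toQ]
  rw [this]
  unfold evQ
  rw [MonoidAlgebra.lift_single]
  simp

theorem li_fac {π : G →* G'} (hπ : Function.Surjective π) (χ : G →* ℂˣ) (h : π.ker ≤ χ.ker) :
    ∃ χ' : G' →* ℂˣ, χ = χ'.comp π := by
  refine ⟨(QuotientGroup.lift π.ker χ h).comp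
    (QuotientGroup.quotientKerEquivOfSurjective π hπ).symm.toMonoidHom, ?_⟩
  ext g
  have : (QuotientGroup.quotientKerEquivOfSurjective π hπ).symm (π g) =
      (QuotientGroup.mk g : G ⧸ π.ker) := by
    rw [MulEquiv.symm_apply_eq]
    rfl
  simp only [MonoidHom.comp_apply]
  show ((χ g : ℂˣ) : ℂ) = ((QuotientGroup.lift π.ker χ h
    ((QuotientGroup.quotientKerEquivOfSurjective π hπ).symm (π g)) : ℂˣ) : ℂ)
  rw [this]
  rfl

theorem li_N_zero {π : G →* G'} (χ : G →* ℂˣ) (h : ¬ π.ker ≤ χ.ker) :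
    evZ χ (tr2N π ℤ) = 0 := by
  obtain ⟨n₀, hn₀, hχn⟩ := Set.not_subset.1 h
  have e0 : tr2N π ℤ * MonoidAlgebra.single n₀ 1 = tr2N π ℤ := by
    have := tr2N_mul ℤ (π := π) (a := n₀) (b := 1) (by rw [map_one]; exact hn₀) 1
    rw [this, ← MonoidAlgebra.one_def, mul_one]
  have e1 : evZ χ (tr2N π ℤ) * ((χ n₀ : ℂˣ) : ℂ) = evZ χ (tr2N π ℤ) := by
    rw [← li_single, ← map_mul, e0]
  have h3 : evZ χ (tr2N π ℤ) * (((χ n₀ : ℂˣ) : ℂ) - 1) = 0 := by
    rw [mul_sub, e1, mul_one, sub_self]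
  rcases mul_eq_zero.mp h3 with h | h
  · exact h
  · exfalso
    apply hχn
    show χ n₀ = 1
    ext
    rw [Units.val_one]
    exact sub_eq_zero.mp h

theorem li_lift {π : G →* G'} (hπ : Function.Surjective π) (b : MonoidAlgebra ℤ G') :
    ∃ a : MonoidAlgebra ℤ G,
      (∀ χ' : G' →* ℂˣ, evZ (χ'.comp π) a = (Nat.card π.ker : ℂ) * evZ χ' b) ∧
      ∀ χ : G →* ℂˣ, ¬ π.ker ≤ χ.ker → evZ χ a = 0 := by
  obtain ⟨c, hc⟩ := Pool.Agent.AU.tf_lift hπ b
  refine ⟨tr2N π ℤ * c, fun χ' => ?_, fun χ h => ?_⟩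
  · rw [map_mul, Pool.Agent.AU.tf_ev_N, Pool.Agent.AU.tf_evZ, hc]
  · rw [map_mul, li_N_zero χ h, zero_mul]

theorem li_ker {π : G →* G'} (hπ : Function.Surjective π) (χ' : G' →* ℂˣ) :
    (χ'.comp π).ker = π.ker ↔ Function.Injective χ' := by
  constructor
  · intro h
    rw [injective_iff_map_eq_one]
    intro g' hg'
    obtain ⟨g, rfl⟩ := hπ g'
    have : g ∈ (χ'.comp π).ker := hg'
    rw [h] at this
    exact this
  · intro h
    ext g
    rw [MonoidHom.mem_ker, MonoidHom.mem_ker, MonoidHom.comp_apply]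
    constructor
    · intro h1
      exact h (by rw [h1, map_one])
    · intro h1
      rw [h1, map_one]

theorem li_fin {l : ℕ} (hl : l.Prime) {π : G →* G'} (hπ : Function.Surjective π)
    (y : MonoidAlgebra ℚ G) (z : MonoidAlgebra ℚ G')
    (hyz : ∀ χ' : G' →* ℂˣ, Function.Injective χ' → evQ (χ'.comp π) y = evQ χ' z) {κ i n₀ : ℕ}
    (hi : i = (Nat.card π.ker).factorization l) (hn₀ : ¬ l ∣ n₀) (b : MonoidAlgebra ℤ G')
    (h1 : ∀ χ' : G' →* ℂˣ, Function.Injective χ' →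
      (n₀ : ℂ) * ((l : ℂ) ^ κ * evQ χ' z) = (l : ℂ) ^ i * evZ χ' b)
    (h2 : ∀ χ' : G' →* ℂˣ, ¬ Function.Injective χ' → evZ χ' b = 0) :
    ∃ (n : ℕ) (a : MonoidAlgebra ℤ G), ¬ l ∣ n ∧
      (∀ χ : G →* ℂˣ, χ.ker = π.ker → (n : ℂ) * ((l : ℂ) ^ κ * evQ χ y) = evZ χ a) ∧
      ∀ χ : G →* ℂˣ, χ.ker ≠ π.ker → evZ χ a = 0 := by
  obtain ⟨a, ha1, ha2⟩ := li_lift hπ b
  have hcard : Nat.card π.ker ≠ 0 := Nat.card_pos.ne'
  refine ⟨n₀ * (Nat.card π.ker / l ^ i), a, ?_, ?_, ?_⟩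
  · rw [hl.dvd_mul, not_or]
    refine ⟨hn₀, ?_⟩
    rw [hi]
    exact Nat.not_dvd_ordCompl hl hcard
  · intro χ hχ
    obtain ⟨χ', rfl⟩ := li_fac hπ χ hχ.ge
    have hinj := (li_ker hπ χ').1 hχ
    rw [hyz χ' hinj, ha1]
    have hu : ((Nat.card π.ker : ℕ) : ℂ) = (l : ℂ) ^ i * ((Nat.card π.ker / l ^ i : ℕ) : ℂ) := by
      rw [← Nat.cast_pow, ← Nat.cast_mul, Nat.mul_div_cancel']
      rw [hi]
      exact Nat.ordProj_dvd _ _
    rw [hu]
    rw [Nat.cast_mul]
    have := h1 χ' hinj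
    linear_combination ((Nat.card π.ker / l ^ i : ℕ) : ℂ) * this
  · intro χ hχ
    by_cases hle : π.ker ≤ χ.ker
    · obtain ⟨χ', rfl⟩ := li_fac hπ χ hle
      have hinj : ¬ Function.Injective χ' := fun h => hχ ((li_ker hπ χ').2 h)
      rw [ha1, h2 χ' hinj, mul_zero]
    · exact ha2 χ hle

theorem li_order [IsCyclic G'] {l : ℕ} (hl : l.Prime) {s : G'} (hs : SylG l s) :
    orderOf s = l ^ (Nat.card G').factorization l := by
  obtain ⟨a, ha⟩ := (hs s).2 (Subgroup.mem_zpowers s)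
  obtain ⟨b, -, hb⟩ := (Nat.dvd_prime_pow hl).1 (orderOf_dvd_of_pow_eq_one ha)
  have hd0 : Nat.card G' ≠ 0 := Nat.card_pos.ne'
  have h1 : b ≤ (Nat.card G').factorization l := by
    rw [← hl.pow_dvd_iff_le_factorization hd0, ← hb]
    exact orderOf_dvd_natCard s
  obtain ⟨g₀, hg₀⟩ := IsCyclic.exists_ofOrder_eq_natCard (α := G')
  have hdv : l ^ (Nat.card G').factorization l ∣ Nat.card G' := Nat.ordProj_dvd _ _
  have h2 : orderOf (g₀ ^ (Nat.card G' / l ^ (Nat.card G').factorization l)) =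
      l ^ (Nat.card G').factorization l := by
    rw [orderOf_pow_of_dvd, hg₀, Nat.div_div_self hdv hd0]
    · exact (Nat.div_pos (Nat.le_of_dvd (Nat.pos_of_ne_zero hd0) hdv)
        (pow_pos hl.pos _)).ne'
    · rw [hg₀]
      exact Nat.div_dvd_of_dvd hdv
  have h30 : (g₀ ^ (Nat.card G' / l ^ (Nat.card G').factorization l)) ^
      l ^ (Nat.card G').factorization l = 1 := by
    have := pow_orderOf_eq_one (g₀ ^ (Nat.card G' / l ^ (Nat.card G').factorization l))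
    rwa [h2] at this
  have h3 : g₀ ^ (Nat.card G' / l ^ (Nat.card G').factorization l) ∈ Subgroup.zpowers s :=
    (hs _).1 ⟨(Nat.card G').factorization l, h30⟩
  have h4 := orderOf_dvd_of_mem_zpowers h3
  rw [h2, hb] at h4
  rw [hb, le_antisymm h1 ((Nat.pow_dvd_pow_iff_le_right hl.one_lt).1 h4)]

/-- the element of order `l` is in each subgroup of order `l` -/
theorem li_mem {l j : ℕ} (hl : l.Prime) (hj : 0 < j) {s : G'} (hs : SylG l s)
    (ho : orderOf s = l ^ j) {P : Subgroup G'} (hP : Nat.card P = l) : s ^ l ^ (j - 1) ∈ P := by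
  have hot : orderOf (s ^ l ^ (j - 1)) = l := by
    rw [orderOf_pow_of_dvd (pow_pos hl.pos _).ne', ho, Nat.pow_div (Nat.sub_le _ _) hl.pos]
    · rw [show j - (j - 1) = 1 by omega, pow_one]
    · rw [ho]
      exact pow_dvd_pow _ (Nat.sub_le _ _)
  have hle : P ≤ Subgroup.zpowers (s ^ l ^ (j - 1)) := by
    intro g hg
    have hgl : g ^ l = 1 := by
      have := pow_card_eq_one' (x := (⟨g, hg⟩ : P))
      rw [hP] at this
      exact congrArg Subtype.val this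
    have hgs : g ∈ Subgroup.zpowers s := (hs g).1 ⟨1, by rw [pow_one]; exact hgl⟩
    obtain ⟨n, rfl⟩ := Subgroup.mem_zpowers_iff.1 hgs
    have h1 : (orderOf s : ℤ) ∣ n * l := by
      rw [orderOf_dvd_iff_zpow_eq_one, zpow_mul, zpow_natCast]
      exact hgl
    have h2 : ((l : ℤ) ^ (j - 1)) ∣ n := by
      rw [ho] at h1
      have h3 : ((l : ℤ) ^ (j - 1)) * l ∣ n * l := by
        have : ((l ^ j : ℕ) : ℤ) = (l : ℤ) ^ (j - 1) * l := by
          push_cast
          rw [← pow_succ]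
          congr 1
          omega
        rw [← this]
        exact h1
      exact Int.dvd_of_mul_dvd_mul_right (by exact_mod_cast hl.ne_zero) h3
    obtain ⟨c, rfl⟩ := h2
    rw [Subgroup.mem_zpowers_iff]
    refine ⟨c, ?_⟩
    rw [zpow_mul, ← zpow_natCast s (l ^ (j - 1))]
    push_cast
    rfl
  have heq : P = Subgroup.zpowers (s ^ l ^ (j - 1)) := by
    apply Subgroup.eq_of_le_of_card_ge hle
    rw [Nat.card_zpowers, hot, hP]
  rw [heq]
  exact Subgroup.mem_zpowers _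

end LIaux

section LI

variable {G G' : Type} [CommGroup G] [Fintype G] [CommGroup G'] [Fintype G'] [IsCyclic G']

theorem lift_main_pr {l : ℕ} (hl : l.Prime) {π : G →* G'} (hπ : Function.Surjective π)
    (y : MonoidAlgebra ℚ G) (z : MonoidAlgebra ℚ G')
    (hyz : ∀ χ' : G' →* ℂˣ, Function.Injective χ' → evQ (χ'.comp π) y = evQ χ' z) {s : G'}
    (hs : SylG l s) {M κ i j : ℕ} (hz : LDiv l M s z) (hi : i = (Nat.card π.ker).factorization l)
    (hj : j = (Nat.card G').factorization l) (h0 : j = 0 → i ≤ κ)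
    (h1 : 0 < j → l ^ (j - 1) * (i * (l - 1) + 1) ≤ M + l ^ (j - 1) * (κ * (l - 1))) :
    ∃ (n : ℕ) (a : MonoidAlgebra ℤ G), ¬ l ∣ n ∧
      (∀ χ : G →* ℂˣ, χ.ker = π.ker → (n : ℂ) * ((l : ℂ) ^ κ * evQ χ y) = evZ χ a) ∧
      ∀ χ : G →* ℂˣ, χ.ker ≠ π.ker → evZ χ a = 0 := by
  obtain ⟨k, a', hk, ha'⟩ := hz
  obtain ⟨m, θ, hm, hθ1, hθ0⟩ := th_exists (G := G') hl
  have ho : orderOf s = l ^ j := by rw [hj]; exact li_order hl hs
  have hmk : ¬ l ∣ m * k := by
    rw [hl.dvd_mul, not_or]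
    exact ⟨hm, hk⟩
  have hθ2 : ∀ χ' : G' →* ℂˣ, Function.Injective χ' → evZ χ' θ = m := fun χ' h =>
    hθ1 χ' fun P hP _ => (inj_iff χ').1 h P hP
  rcases Nat.eq_zero_or_pos j with hj0 | hj0
  · -- `l` does not divide the order of `G'`
    have hik := h0 hj0
    refine li_fin hl hπ y z hyz (κ := κ) hi hmk
      (θ * (((l ^ (κ - i) : ℕ) : MonoidAlgebra ℤ G') * ((MonoidAlgebra.single s 1 - 1) ^ M * a'))) ?_ ?_
    · intro χ' hχ'
      have h3 := ha' χ' hχ'
      rw [map_mul, map_mul, map_mul, map_pow, map_sub, map_one, li_single, ← h3, hθ2 χ' hχ',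
        map_natCast]
      have h4 : (l : ℂ) ^ κ = (l : ℂ) ^ i * ((l ^ (κ - i) : ℕ) : ℂ) := by
        push_cast
        rw [← pow_add]
        congr 1
        omega
      rw [h4]
      push_cast
      ring
    · intro χ' hχ'
      rw [inj_iff] at hχ'
      push Not at hχ'
      obtain ⟨P, hP1, hP2⟩ := hχ'
      have hPl : Nat.card P ≠ l := by
        intro h
        have h5 : l ∣ Nat.card G' := by
          rw [← h]
          exact Subgroup.card_subgroup_dvd_card P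
        have := (hl.dvd_iff_one_le_factorization Nat.card_pos.ne').1 h5
        omega
      rw [map_mul, hθ0 χ' ⟨P, hP1, hPl, hP2⟩, zero_mul]
  · -- `l` divides the order of `G'`
    set t := s ^ l ^ (j - 1) with ht
    have hot : orderOf t = l := by
      rw [ht, orderOf_pow_of_dvd (pow_pos hl.pos _).ne', ho, Nat.pow_div (Nat.sub_le _ _) hl.pos]
      · rw [show j - (j - 1) = 1 by omega, pow_one]
      · rw [ho]
        exact pow_dvd_pow _ (Nat.sub_le _ _)
    have ht1 : t ≠ 1 := by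
      intro h
      rw [h, orderOf_one] at hot
      exact hl.one_lt.ne hot
    obtain ⟨v1, v1', hv1⟩ := unit_l hl hs ht1 ⟨1, by rw [pow_one, ← hot]; exact pow_orderOf_eq_one t⟩
    obtain ⟨v2, v2', hv2⟩ := unit_p hl hs hj0 ho
    have hdiv : orderOf s / orderOf t = l ^ (j - 1) := by
      rw [ho, hot]
      apply Nat.div_eq_of_eq_mul_left hl.pos
      rw [← pow_succ]
      congr 1
      omega
    obtain ⟨R, hR⟩ := Nat.exists_eq_add_of_le (h1 hj0)
    refine li_fin hl hπ y z hyz (κ := κ) hi hmk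
      (θ * ((1 - MonoidAlgebra.single t 1) *
        (v2 ^ i * v1 * (MonoidAlgebra.single s 1 - 1) ^ R * v2' ^ κ * a'))) ?_ ?_
    · intro χ' hχ'
      have h3 := ha' χ' hχ'
      have h4 := (hv1 χ' hχ').1
      obtain ⟨h5, h6⟩ := hv2 χ' hχ'
      rw [hdiv] at h4
      simp only [map_mul, map_pow, map_sub, map_one, li_single, hθ2 χ' hχ']
      set S : ℂ := ((χ' s : ℂˣ) : ℂ) - 1 with hS
      have h7 : (l : ℂ) ^ κ * S ^ M = (l : ℂ) ^ i * ((1 - ((χ' t : ℂˣ) : ℂ)) *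
          (evZ χ' v2 ^ i * evZ χ' v1 * S ^ R * evZ χ' v2' ^ κ)) := by
        calc (l : ℂ) ^ κ * S ^ M = (S ^ (l ^ (j - 1) * (l - 1)) * evZ χ' v2') ^ κ * S ^ M := by
              rw [← h6]
          _ = S ^ (M + l ^ (j - 1) * (κ * (l - 1))) * evZ χ' v2' ^ κ := by
              rw [mul_pow, ← pow_mul, pow_add]
              rw [show l ^ (j - 1) * (l - 1) * κ = l ^ (j - 1) * (κ * (l - 1)) by ring]
              ring
          _ = S ^ (l ^ (j - 1) * (i * (l - 1) + 1) + R) * evZ χ' v2' ^ κ := by rw [hR]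
          _ = (S ^ (l ^ (j - 1) * (l - 1))) ^ i * S ^ l ^ (j - 1) * S ^ R * evZ χ' v2' ^ κ := by
              rw [pow_add, mul_add, mul_one, pow_add, ← pow_mul,
                show l ^ (j - 1) * (i * (l - 1)) = l ^ (j - 1) * (l - 1) * i by ring]
          _ = _ := by
              rw [h5, h4]
              ring
      push_cast
      linear_combination (m : ℂ) * (l : ℂ) ^ κ * h3 + (m : ℂ) * evZ χ' a' * h7
    · intro χ' hχ'
      rw [inj_iff] at hχ'
      push Not at hχ'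
      obtain ⟨P, hP1, hP2⟩ := hχ'
      by_cases hPl : Nat.card P = l
      · have h8 : χ' t = 1 := hP2 (li_mem hl hj0 hs ho hPl)
        rw [map_mul, map_mul, map_sub, map_one, li_single, h8, Units.val_one, sub_self, zero_mul,
          mul_zero]
      · rw [map_mul, hθ0 χ' ⟨P, hP1, hPl, hP2⟩, zero_mul]

theorem lift_full_pr {l : ℕ} (hl : l.Prime) {π : G →* G'} (hπ : Function.Surjective π)
    (y : MonoidAlgebra ℚ G) (z : MonoidAlgebra ℚ G')
    (hyz : ∀ χ' : G' →* ℂˣ, Function.Injective χ' → evQ (χ'.comp π) y = evQ χ' z) {s : G'}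
    (hs : SylG l s) {M κ : ℕ} (hz : LDiv l M s z)
    (hκ : ∀ k : ℕ, l ^ k ∣ Nat.card G → k ≤ κ) :
    ∃ (n : ℕ) (a : MonoidAlgebra ℤ G), ¬ l ∣ n ∧
      (∀ χ : G →* ℂˣ, χ.ker = π.ker → (n : ℂ) * ((l : ℂ) ^ κ * evQ χ y) = evZ χ a) ∧
      ∀ χ : G →* ℂˣ, χ.ker ≠ π.ker → evZ χ a = 0 := by
  have hz0 : LDiv l 0 s z := by
    obtain ⟨k, a, hk, ha⟩ := hz
    refine ⟨k, (MonoidAlgebra.single s 1 - 1) ^ M * a, hk, fun χ hχ => ?_⟩
    rw [ha χ hχ, pow_zero, one_mul, map_mul, map_pow, map_sub, map_one, li_single]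
  have hcard : Nat.card G = Nat.card π.ker * Nat.card G' := by
    rw [← Subgroup.card_mul_index π.ker, Subgroup.index_ker,
      MonoidHom.range_eq_top.2 hπ, Subgroup.card_top]
  have hij : (Nat.card π.ker).factorization l + (Nat.card G').factorization l ≤ κ := by
    apply hκ
    rw [hcard, pow_add]
    exact mul_dvd_mul (Nat.ordProj_dvd _ _) (Nat.ordProj_dvd _ _)
  refine lift_main_pr hl hπ y z hyz hs hz0 rfl rfl (fun _ => by omega) (fun hj => ?_)
  rw [zero_add]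
  apply Nat.mul_le_mul_left
  have h1 : (Nat.card π.ker).factorization l + 1 ≤ κ := by omega
  have h2 : 1 ≤ l - 1 := by have := hl.two_le; omega
  calc (Nat.card π.ker).factorization l * (l - 1) + 1
      ≤ (Nat.card π.ker).factorization l * (l - 1) + (l - 1) := by omega
    _ = ((Nat.card π.ker).factorization l + 1) * (l - 1) := by ring
    _ ≤ κ * (l - 1) := Nat.mul_le_mul_right _ h1

end LI

end Pool.Agent.CR

namespace Pool.Agent.CR
open Pool.Agent.RSK Pool.Agent.RS2 Pool.Agent.SY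
open Filter Topology Complex

section
variable {G G' : Type} [CommGroup G] [Fintype G] [CommGroup G'] [Fintype G'] [IsCyclic G']

theorem lift_main {l : ℕ} (hl : l.Prime) {π : G →* G'} (hπ : Function.Surjective π)
    (y : MonoidAlgebra ℚ G) (z : MonoidAlgebra ℚ G')
    (hyz : ∀ χ' : G' →* ℂˣ, Function.Injective χ' → evQ (χ'.comp π) y = evQ χ' z) {s : G'}
    (hs : SylG l s) {M κ i j : ℕ} (hz : LDiv l M s z) (hi : i = (Nat.card π.ker).factorization l)
    (hj : j = (Nat.card G').factorization l) (h0 : j = 0 → i ≤ κ)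
    (h1 : 0 < j → l ^ (j - 1) * (i * (l - 1) + 1) ≤ M + l ^ (j - 1) * (κ * (l - 1))) :
    ∃ (n : ℕ) (a : MonoidAlgebra ℤ G), ¬ l ∣ n ∧
      (∀ χ : G →* ℂˣ, χ.ker = π.ker → (n : ℂ) * ((l : ℂ) ^ κ * evQ χ y) = evZ χ a) ∧
      ∀ χ : G →* ℂˣ, χ.ker ≠ π.ker → evZ χ a = 0 :=
  @Pool.Agent.CR.lift_main_pr G G' _ _ _ _ _ l hl π hπ y z hyz s hs M κ i j hz hi hj h0 h1

end

end Pool.Agent.CR

namespace Pool.Agent.CR
open Pool.Agent.RSK Pool.Agent.RS2 Pool.Agent.SY
open Filter Topology Complex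

section
variable {G G' : Type} [CommGroup G] [Fintype G] [CommGroup G'] [Fintype G'] [IsCyclic G']

theorem lift_full {l : ℕ} (hl : l.Prime) {π : G →* G'} (hπ : Function.Surjective π)
    (y : MonoidAlgebra ℚ G) (z : MonoidAlgebra ℚ G')
    (hyz : ∀ χ' : G' →* ℂˣ, Function.Injective χ' → evQ (χ'.comp π) y = evQ χ' z) {s : G'}
    (hs : SylG l s) {M κ : ℕ} (hz : LDiv l M s z)
    (hκ : ∀ k : ℕ, l ^ k ∣ Nat.card G → k ≤ κ) :
    ∃ (n : ℕ) (a : MonoidAlgebra ℤ G), ¬ l ∣ n ∧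
      (∀ χ : G →* ℂˣ, χ.ker = π.ker → (n : ℂ) * ((l : ℂ) ^ κ * evQ χ y) = evZ χ a) ∧
      ∀ χ : G →* ℂˣ, χ.ker ≠ π.ker → evZ χ a = 0 :=
  @Pool.Agent.CR.lift_full_pr G G' _ _ _ _ _ l hl π hπ y z hyz s hs M κ hz hκ

end

end Pool.Agent.CR
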