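import Pool.Agent.Lib_helper17.CRF.D_WN
import Pool.Agent.Lib_helper17.CRF.N_PC5

/-!
# Composite Rubin (CR), block NO4: positivity of the weight
-/

set_option autoImplicit false
set_option linter.unusedSectionVars false

namespace Pool.Agent.CR

open Pool.Agent.RSK Pool.Agent.RS2 Pool.Agent.RS3 Pool.Agent.SY
open NumberField IsDedekindDomain Filter Topology Complex

theorem no4_card {G : Type} [CommGroup G] [Fintype G] {l : ℕ} (hl : l.Prime)
    (h : ∀ g : G, ∃ i : ℕ, g ^ l ^ i = 1) :
    Nat.card G = l ^ (Nat.card G).factorization l := by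
  haveI : Fact l.Prime := ⟨hl⟩
  have hp : IsPGroup l G := fun g => h g
  obtain ⟨n, hn⟩ := IsPGroup.iff_card.1 hp
  rw [hn, hl.factorization_pow, Finsupp.single_eq_same]

section N

variable {F K : Type} [Field F] [NumberField F] [Field K] [NumberField K] [Algebra F K]
  [IsGalois F K] {G : Type} [CommGroup G] [Fintype G] {ι : G ≃* (K ≃ₐ[F] K)}
  {S T : Finset (HeightOneSpectrum (𝓞 F))} {r : ℕ} {w : Fin r → Pl K}
  {fr : HeightOneSpectrum (𝓞 F) → G}

theorem wts_ge_pr (hD : Data ι S T r w fr) {l : ℕ} (hl : l.Prime) :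
    del l G ≤ wts ι S l ∧ (¬ l ∣ Nat.card G → wts ι S l = 0) := by
  classical
  refine ⟨?_, fun hlG => ?_⟩
  · unfold del
    split_ifs with h
    · obtain ⟨hc, -, -⟩ := data_pl hD
      have hex : ∃ P : PS S, dgS ι S P ≠ ⊥ := by
        by_contra hno
        push Not at hno
        have h1 : Nat.card {v : PS S // dgS ι S v = ⊥} = Nat.card (PS S) :=
          Nat.card_congr (Equiv.subtypeUnivEquiv hno)
        have h2 : Nat.card (PS S) = Fintype.card (InfinitePlace F) + S.card := by
          rw [Nat.card_eq_fintype_card, Fintype.card_sum, Fintype.card_coe]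
        have h3 := hD.card
        omega
      obtain ⟨P, hP⟩ := hex
      have hw : 1 ≤ wtB l (dgS ι S P) := by
        unfold wtB
        rw [if_pos ⟨hP, fun g _ => h g⟩, ← no4_card hl h]
        exact Nat.div_pos (Nat.le_of_dvd Nat.card_pos (Subgroup.card_subgroup_dvd_card _))
          Nat.card_pos
      exact hw.trans (Finset.single_le_sum (f := fun P : PS S => wtB l (dgS ι S P))
        (fun _ _ => Nat.zero_le _) (Finset.mem_univ P))
    · exact Nat.zero_le _
  · unfold wts
    refine Finset.sum_eq_zero fun P _ => ?_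
    unfold wtB
    rw [if_neg]
    rintro ⟨h1, h2⟩
    apply h1
    rw [Subgroup.eq_bot_iff_forall]
    intro g hg
    obtain ⟨i, hi⟩ := h2 g hg
    have h3 : orderOf g ∣ l ^ i := orderOf_dvd_of_pow_eq_one hi
    have h4 : orderOf g ∣ Nat.card G := orderOf_dvd_natCard g
    have h5 : Nat.Coprime (l ^ i) (Nat.card G) :=
      Nat.Coprime.pow_left i ((Nat.Prime.coprime_iff_not_dvd hl).2 hlG)
    have h6 : orderOf g = 1 := Nat.eq_one_of_dvd_coprimes h5 h3 h4
    exact orderOf_eq_one_iff.1 h6

end N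

end Pool.Agent.CR

namespace Pool.Agent.CR
open Pool.Agent.RSK Pool.Agent.RS2 Pool.Agent.RS3 Pool.Agent.SY
open NumberField IsDedekindDomain Filter Topology Complex

section
variable {F K : Type} [Field F] [NumberField F] [Field K] [NumberField K] [Algebra F K]
  [IsGalois F K] {G : Type} [CommGroup G] [Fintype G] {ι : G ≃* (K ≃ₐ[F] K)}
  {S T : Finset (HeightOneSpectrum (𝓞 F))} {r : ℕ} {w : Fin r → Pl K}
  {fr : HeightOneSpectrum (𝓞 F) → G}

theorem wts_ge (hD : Data ι S T r w fr) {l : ℕ} (hl : l.Prime) :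
    del l G ≤ wts ι S l ∧ (¬ l ∣ Nat.card G → wts ι S l = 0) :=
  @Pool.Agent.CR.wts_ge_pr F K _ _ _ _ _ _ G _ _ ι S T r w fr hD l hl

end

end Pool.Agent.CR
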