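import Pool.Agent.Lib_helper17.CRF.D_WB
import Pool.Agent.Lib_helper35.RS3.P_OPT
import Pool.Agent.Lib_helper17.CRF.B_KL

/-!
# Composite Rubin (CR), block OP: a basis of the new part which is optimal at `l`
-/

set_option autoImplicit false
set_option linter.unusedSectionVars false

namespace Pool.Agent.CR

open Pool.Agent.RSK Pool.Agent.RS2 Pool.Agent.SY
open NumberField Filter Topology Complex

section OP

variable {G : Type} [CommGroup G] [Fintype G] [IsCyclic G]

/-- the cyclotomic integers as a quotient of `ℤ[G]` -/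
theorem op_cyc (G : Type) [CommGroup G] [Fintype G] [IsCyclic G] :
    ∃ (S : Type) (_ : CommRing S) (_ : IsDedekindDomain S) (_ : Module.Finite ℤ S)
      (_ : CharZero S) (f : MonoidAlgebra ℤ G →+* S), Function.Surjective f ∧
      Module.finrank ℤ S = (Nat.card G).totient ∧
      ∀ a, f a = 0 → ∀ χ : G →* ℂˣ, Function.Injective χ → evZ χ a = 0 := by
  classical
  set d : ℕ := Nat.card G with hd
  have hd0 : d ≠ 0 := Nat.card_pos.ne'
  have : NeZero d := ⟨hd0⟩
  obtain ⟨σ, hσ⟩ := IsCyclic.exists_generator (α := G)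
  have hord : orderOf σ = d := orderOf_eq_card_of_forall_mem_zpowers hσ
  have hci : IsCyclotomicExtension {d} ℚ (CyclotomicField d ℚ) :=
    CyclotomicField.isCyclotomicExtension d ℚ
  obtain ⟨K, iF, iN, iC⟩ : ∃ (K : Type) (_ : Field K) (_ : NumberField K),
      IsCyclotomicExtension {d} ℚ K :=
    ⟨CyclotomicField d ℚ, inferInstance,
      IsCyclotomicExtension.numberField {d} ℚ (CyclotomicField d ℚ), hci⟩
  set ζ : K := IsCyclotomicExtension.zeta d ℚ K with hζd
  have hζ : IsPrimitiveRoot ζ d := IsCyclotomicExtension.zeta_spec d ℚ K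
  have hζi : IsPrimitiveRoot hζ.toInteger d := hζ.toInteger_isPrimitiveRoot
  have hζi0 : IsUnit hζ.toInteger := hζi.isUnit (NeZero.ne _)
  set ζu : (𝓞 K)ˣ := hζi0.unit with hζu
  have hζuc : (ζu : 𝓞 K) = hζ.toInteger := rfl
  have hζup : IsPrimitiveRoot ζu d := by
    rw [← IsPrimitiveRoot.coe_units_iff]
    exact hζi
  have hζo : orderOf ζu ∣ orderOf σ := by
    rw [hord, hζup.eq_orderOf]
  set ψ : G →* (𝓞 K)ˣ := monoidHomOfForallMemZpowers hσ hζo with hψ
  have hψg : ψ σ = ζu := monoidHomOfForallMemZpowers_apply_gen hσ hζo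
  set f : MonoidAlgebra ℤ G →ₐ[ℤ] 𝓞 K :=
    MonoidAlgebra.lift ℤ (𝓞 K) G ((Units.coeHom (𝓞 K)).comp ψ) with hf
  have hfs : ∀ (x : G) (q : ℤ), f (MonoidAlgebra.single x q) = (q : 𝓞 K) * (ψ x : 𝓞 K) := by
    intro x q
    rw [hf, MonoidAlgebra.lift_single, zsmul_eq_mul]
    rfl
  refine ⟨𝓞 K, inferInstance, inferInstance, inferInstance, inferInstance, f.toRingHom, ?_, ?_, ?_⟩
  · have h1 : Algebra.adjoin ℤ {hζ.toInteger} = ⊤ := IsCyclotomicExtension.Rat.adjoin_singleton_eq_top hζ
    have h2 : f.range = ⊤ := by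
      rw [eq_top_iff, ← h1, Algebra.adjoin_le_iff, Set.singleton_subset_iff]
      refine ⟨MonoidAlgebra.single σ 1, ?_⟩
      show f (MonoidAlgebra.single σ 1) = _
      rw [hfs, hψg, Int.cast_one, one_mul]
      rfl
    exact AlgHom.range_eq_top f |>.1 h2
  · rw [RingOfIntegers.rank, IsCyclotomicExtension.finrank (n := d) K
      (Polynomial.cyclotomic.irreducible_rat (NeZero.pos _))]
  · intro a ha χ hχ
    -- the embedding with `ζ ↦ χ(σ)`
    have hχp : IsPrimitiveRoot ((χ σ : ℂˣ) : ℂ) d := by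
      rw [IsPrimitiveRoot.coe_units_iff, ← hord]
      exact (IsPrimitiveRoot.orderOf σ).map_of_injective hχ
    obtain ⟨φ, hφ⟩ : ∃ φ : K →ₐ[ℚ] ℂ, φ ζ = ((χ σ : ℂˣ) : ℂ) := by
      have hirr : Irreducible (Polynomial.cyclotomic d ℚ) :=
        Polynomial.cyclotomic.irreducible_rat (NeZero.pos _)
      obtain ⟨φ, hφ⟩ := (hζ.embeddingsEquivPrimitiveRoots ℂ hirr).surjective
        ⟨((χ σ : ℂˣ) : ℂ), (mem_primitiveRoots (NeZero.pos _)).2 hχp⟩
      refine ⟨φ, ?_⟩
      rw [← hζ.embeddingsEquivPrimitiveRoots_apply_coe ℂ hirr φ, hφ]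
    set τ : 𝓞 K →+* ℂ := (φ : K →+* ℂ).comp (algebraMap (𝓞 K) K) with hτ
    have hτζ : τ hζ.toInteger = ((χ σ : ℂˣ) : ℂ) := by
      rw [← hφ]
      rfl
    have hχ₀ : χ = (Units.map (τ : 𝓞 K →* ℂ)).comp ψ := by
      ext g
      obtain ⟨k, rfl⟩ := Subgroup.mem_zpowers_iff.1 (hσ g)
      rw [map_zpow, map_zpow]
      congr 2
      ext
      show ((χ σ : ℂˣ) : ℂ) = τ (ψ σ : 𝓞 K)
      rw [hψg, hζuc, hτζ]
    have hχ₀v : ∀ g, ((χ g : ℂˣ) : ℂ) = τ (ψ g : 𝓞 K) := by
      intro g
      rw [hχ₀]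
      rfl
    have hev : ∀ b : MonoidAlgebra ℤ G, evZ χ b = τ (f b) := by
      intro b
      have h1 : evZ χ = τ.comp f.toRingHom := by
        apply MonoidAlgebra.ringHom_ext
        · intro q
          show evQ χ (toQ G (MonoidAlgebra.single 1 q)) = τ (f (MonoidAlgebra.single 1 q))
          rw [l1_toQ_single, l1_evQ_single, hfs, map_mul, map_one, map_one, Units.val_one,
            Units.val_one, map_one, map_intCast]
          push_cast
          ring
        · intro g
          show evQ χ (toQ G (MonoidAlgebra.single g 1)) = τ (f (MonoidAlgebra.single g 1))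
          rw [l1_toQ_single, l1_evQ_single, hfs, map_mul, map_intCast, hχ₀v]
          push_cast
          ring
      rw [h1]
      rfl
    rw [hev, show f a = 0 from ha, map_zero]

variable {M : Type} [AddCommGroup M] [Module (MonoidAlgebra ℤ G) M] [Module.Finite ℤ M]
  [Module.IsTorsionFree ℤ M]

/-- the new part is stable -/
theorem op_smul (a : MonoidAlgebra ℤ G) {u : M} (hu : u ∈ mI (smA G M)) :
    a • u ∈ mI (smA G M) := by
  classical
  intro P hP
  have : Fintype P := Fintype.ofFinite P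
  have h1 : nA (smA G M) P (a • u) = a • nA (smA G M) P u := by
    rw [nA_sum, nA_sum, Finset.smul_sum]
    refine Finset.sum_congr rfl fun g _ => ?_
    show (MonoidAlgebra.single (g : G) (1 : ℤ) : MonoidAlgebra ℤ G) • a • u =
      a • (MonoidAlgebra.single (g : G) (1 : ℤ) : MonoidAlgebra ℤ G) • u
    rw [smul_smul, smul_smul, mul_comm]
  rw [h1, hu P hP, smul_zero]

/-- OP. A basis of the new part which is optimal at `l` -/
theorem opt_all_pr {r : ℕ}
    (hr : Module.finrank ℤ (mI (smA G M)) = r * (Nat.card G).totient) {l : ℕ} (hl : l.Prime) :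
    ∃ b : Fin r → M, (∀ i, b i ∈ mI (smA G M)) ∧
      ¬ l ∣ (mSpn G b).relIndex (mI (smA G M)) := by
  classical
  obtain ⟨S, iS, iD, iF, iZ, f, hf, hrk, hker⟩ := op_cyc G
  -- the new part as a submodule
  set NS : Submodule (MonoidAlgebra ℤ G) M :=
    { (mI (smA G M)) with
      smul_mem' := fun a u hu => op_smul a hu } with hNS
  have hmem : ∀ u : M, u ∈ NS ↔ u ∈ mI (smA G M) := fun u => Iff.rfl
  have hNSM : NS.toAddSubgroup = mI (smA G M) := by
    ext u
    exact hmem u
  have hNM : IsNoetherian ℤ M := inferInstance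
  have iNf : Module.Finite ℤ NS :=
    inferInstanceAs (Module.Finite ℤ (NS.restrictScalars ℤ))
  have iNt : Module.IsTorsionFree ℤ NS :=
    inferInstanceAs (Module.IsTorsionFree ℤ (NS.restrictScalars ℤ))
  have iMf : Module.Finite ℤ (mI (smA G M)) := by
    rw [← hNSM]
    exact iNf
  set g : MonoidAlgebra ℤ G →+* AddMonoid.End NS :=
    Module.toAddMonoidEnd (MonoidAlgebra ℤ G) NS with hg
  have hkg : RingHom.ker f ≤ RingHom.ker g := by
    intro a ha
    rw [RingHom.mem_ker] at ha ⊢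
    ext u
    show ((a • u : NS) : M) = 0
    rw [Submodule.coe_smul]
    exact new_kill a (hker a ha) u.2
  set h : S →+* AddMonoid.End NS := RingHom.liftOfSurjective f hf ⟨g, hkg⟩ with hh
  have hhf : ∀ a, h (f a) = g a := fun a =>
    RingHom.liftOfRightInverse_comp_apply f _ (Function.rightInverse_surjInv hf) ⟨g, hkg⟩ a
  let iM : Module S NS := Module.compHom NS h
  have hsm : ∀ (a : MonoidAlgebra ℤ G) (u : NS), (f a) • u = a • u := by
    intro a u
    show h (f a) u = a • u
    rw [hhf]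
    rfl
  obtain ⟨n, b, hli, s, hs, hsp⟩ := Pool.Agent.RS3.opt_ded (S := S) (N := NS) hl
  -- the span in `NS`
  set Q : Submodule S NS := Submodule.span S (Set.range b) with hQ
  have hsQ : ∀ u : NS, s • u ∈ Q.toAddSubgroup := by
    intro u
    have h1 := hsp u
    rw [Nat.cast_smul_eq_nsmul] at h1
    exact h1
  obtain ⟨hQi, _⟩ := Pool.Agent.RS3.opt_idx (A := Q.toAddSubgroup) hl hs hsQ
  have iSt : Module.IsTorsionFree ℤ S := inferInstance
  have iSfr : Module.Free ℤ S := inferInstance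
  have hrank : n = r := by
    have h1 : Module.finrank ℤ Q.toAddSubgroup = Module.finrank ℤ NS :=
      AddSubgroup.finrank_eq_of_finiteIndex Q.toAddSubgroup
    have h2 : Module.finrank ℤ Q.toAddSubgroup = n * Module.finrank ℤ S := by
      have e : Q ≃ₗ[S] (Fin n → S) := (Module.Basis.span hli).equivFun
      have e2 : Q.toAddSubgroup ≃ₗ[ℤ] (Fin n → S) := e.toAddEquiv.toIntLinearEquiv
      rw [e2.finrank_eq, Module.finrank_pi_fintype]
      simp
    have h3 : Module.finrank ℤ NS = Module.finrank ℤ (mI (smA G M)) := by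
      rw [← hNSM]
      rfl
    rw [h2, h3, hr, hrk] at h1
    have hpos : 0 < (Nat.card G).totient := Nat.totient_pos.2 Nat.card_pos
    exact Nat.eq_of_mul_eq_mul_right hpos h1
  subst hrank
  refine ⟨fun i => (b i : M), fun i => (hmem _).1 (b i).2, ?_⟩
  have hspan : ∀ v : NS, v ∈ Q → (v : M) ∈ Submodule.span (MonoidAlgebra ℤ G)
      (Set.range fun i => (b i : M)) := by
    intro v hv
    induction hv using Submodule.span_induction with
    | mem v hv =>
      obtain ⟨i, rfl⟩ := hv
      exact Submodule.subset_span (Set.mem_range_self i)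
    | zero => exact Submodule.zero_mem _
    | add v w _ _ hv hw => exact Submodule.add_mem _ hv hw
    | smul c v _ hv =>
      obtain ⟨a, rfl⟩ := hf c
      rw [hsm, Submodule.coe_smul]
      exact Submodule.smul_mem _ _ hv
  have hfin := Pool.Agent.RS3.opt_idx
    (A := (mSpn G fun i => (b i : M)).addSubgroupOf (mI (smA G M))) hl hs (by
    intro u
    rw [AddSubgroup.mem_addSubgroupOf]
    have h1 := hspan _ (hsQ ⟨(u : M), u.2⟩)
    exact h1)
  exact hfin.2

end OP

end Pool.Agent.CR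

namespace Pool.Agent.CR
open Pool.Agent.RSK Pool.Agent.RS2 Pool.Agent.SY
open Filter Topology Complex

section
variable {G : Type} [CommGroup G] [Fintype G] [IsCyclic G]
variable {M : Type} [AddCommGroup M] [Module (MonoidAlgebra ℤ G) M] [Module.Finite ℤ M]
  [Module.IsTorsionFree ℤ M]

theorem opt_all {r : ℕ}
    (hr : Module.finrank ℤ (mI (smA G M)) = r * (Nat.card G).totient) {l : ℕ} (hl : l.Prime) :
    ∃ b : Fin r → M, (∀ i, b i ∈ mI (smA G M)) ∧
      ¬ l ∣ (mSpn G b).relIndex (mI (smA G M)) :=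
  @Pool.Agent.CR.opt_all_pr G _ _ _ M _ _ _ _ r hr l hl

end

end Pool.Agent.CR
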