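import Pool.Agent.Lib_helper17.CRF.D_WB

set_option autoImplicit false
set_option linter.unusedSectionVars false

namespace Pool.Agent.CR

open Pool.Agent.RSK Pool.Agent.RS2 Pool.Agent.SY
open Filter Topology Complex

section CWpr

variable {G : Type} [CommGroup G] [Finite G] [IsCyclic G]

theorem cw_ord {σ : G} (hσ : ∀ g : G, g ∈ Subgroup.zpowers σ) (χ : G →* ℂˣ) :
    orderOf χ = orderOf (χ σ) := by
  refine orderOf_eq_orderOf_iff.2 fun n => ⟨fun h => ?_, fun h => ?_⟩
  · rw [← MonoidHom.pow_apply, h, MonoidHom.one_apply]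
  · ext g
    obtain ⟨k, rfl⟩ := Subgroup.mem_zpowers_iff.1 (hσ g)
    rw [MonoidHom.pow_apply, map_zpow, ← zpow_natCast, ← zpow_mul, mul_comm, zpow_mul,
      zpow_natCast, h, one_zpow]
    rfl

theorem cw_cyc : IsCyclic (G →* ℂˣ) := by
  obtain ⟨e⟩ := CommGroup.monoidHom_mulEquiv_of_hasEnoughRootsOfUnity G ℂ
  exact e.isCyclic.2 inferInstance

theorem cw_card : Nat.card (G →* ℂˣ) = Nat.card G :=
  CommGroup.card_monoidHom_of_hasEnoughRootsOfUnity G ℂ

theorem cw_fin : Finite (G →* ℂˣ) := by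
  obtain ⟨e⟩ := CommGroup.monoidHom_mulEquiv_of_hasEnoughRootsOfUnity G ℂ
  exact Finite.of_equiv G e.symm.toEquiv

theorem cw_inj (χ : G →* ℂˣ) : Function.Injective χ ↔ orderOf χ = Nat.card G := by
  obtain ⟨σ, hσ⟩ := IsCyclic.exists_generator (α := G)
  have hd : orderOf σ = Nat.card G := orderOf_eq_card_of_forall_mem_zpowers hσ
  rw [cw_ord hσ χ, ← hd]
  constructor
  · intro h
    exact orderOf_injective χ h σ
  · intro h
    rw [injective_iff_map_eq_one]
    intro g hg
    obtain ⟨k, rfl⟩ := Subgroup.mem_zpowers_iff.1 (hσ g)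
    rw [map_zpow] at hg
    have := orderOf_dvd_iff_zpow_eq_one.2 hg
    rw [h] at this
    exact orderOf_dvd_iff_zpow_eq_one.1 this

theorem cw_le (H : Subgroup G) (χ : G →* ℂˣ) :
    H ≤ χ.ker ↔ orderOf χ ∣ Nat.card G / Nat.card H := by
  obtain ⟨σ, hσ⟩ := IsCyclic.exists_generator (α := G)
  have hd : orderOf σ = Nat.card G := orderOf_eq_card_of_forall_mem_zpowers hσ
  have hdv : Nat.card H ∣ Nat.card G := Subgroup.card_subgroup_dvd_card H
  have hH0 : 0 < Nat.card H := Nat.card_pos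
  obtain ⟨m, hm⟩ := hdv
  have hm0 : m ≠ 0 := by
    rintro rfl
    rw [mul_zero] at hm
    exact Nat.card_pos.ne' hm
  have hmd : Nat.card G / Nat.card H = m := by rw [hm, Nat.mul_div_cancel_left _ hH0]
  have hle : H ≤ Subgroup.zpowers (σ ^ m) := by
    intro h hh
    obtain ⟨k, rfl⟩ := Subgroup.mem_zpowers_iff.1 (hσ h)
    have h1 : (σ ^ k) ^ Nat.card H = 1 := by
      have := pow_card_eq_one' (x := (⟨σ ^ k, hh⟩ : H))
      exact congrArg Subtype.val this
    rw [← zpow_natCast, ← zpow_mul] at h1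
    have h2 := orderOf_dvd_iff_zpow_eq_one.2 h1
    rw [hd, hm] at h2
    push_cast at h2
    have h3 : (m : ℤ) ∣ k := by
      rw [mul_comm k] at h2
      exact Int.dvd_of_mul_dvd_mul_left (by exact_mod_cast hH0.ne') h2
    obtain ⟨q, rfl⟩ := h3
    rw [zpow_mul, zpow_natCast]
    exact Subgroup.zpow_mem_zpowers _ _
  have hcard : Nat.card (Subgroup.zpowers (σ ^ m)) = Nat.card H := by
    rw [Nat.card_zpowers, orderOf_pow' _ hm0, hd, hm, Nat.gcd_eq_right (Dvd.intro_left _ rfl),
      Nat.mul_div_cancel _ (Nat.pos_of_ne_zero hm0)]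
  have heq : H = Subgroup.zpowers (σ ^ m) := Subgroup.eq_of_le_of_card_ge hle hcard.le
  rw [hmd, cw_ord hσ χ, heq, Subgroup.zpowers_le, MonoidHom.mem_ker, map_pow,
    orderOf_dvd_iff_pow_eq_one]

theorem cw_count {X : Type} [CommGroup X] [Finite X] [IsCyclic X] (P : ℕ → Prop)
    [DecidablePred P] : Nat.card {x : X // P (orderOf x)} =
      ∑ n ∈ (Nat.card X).divisors.filter P, n.totient := by
  classical
  have := Fintype.ofFinite X
  rw [Nat.card_eq_fintype_card, Nat.card_eq_fintype_card, Fintype.card_subtype]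
  rw [Finset.card_eq_sum_card_fiberwise (f := fun x : X => orderOf x)
    (t := (Fintype.card X).divisors.filter P)]
  · refine Finset.sum_congr rfl fun n hn => ?_
    rw [Finset.mem_filter, Nat.mem_divisors] at hn
    rw [← IsCyclic.card_orderOf_eq_totient (α := X) (d := n) hn.1.1]
    congr 1
    ext x
    simp only [Finset.mem_filter, Finset.mem_univ, true_and]
    constructor
    · rintro ⟨_, h⟩
      exact h
    · intro h
      exact ⟨h ▸ hn.2, h⟩
  · intro x hx
    rw [Finset.mem_coe, Finset.mem_filter] at hx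
    rw [Finset.mem_coe, Finset.mem_filter, Nat.mem_divisors]
    exact ⟨⟨orderOf_dvd_card, Fintype.card_ne_zero⟩, hx.2⟩

/-- CW1. The number of injective characters. -/
theorem card_inj_pr : Nat.card {χ : G →* ℂˣ // Function.Injective χ} = (Nat.card G).totient := by
  have := cw_cyc (G := G)
  have := cw_fin (G := G)
  have e : {χ : G →* ℂˣ // Function.Injective χ} ≃ {χ : G →* ℂˣ // orderOf χ = Nat.card G} :=
    Equiv.subtypeEquivRight fun χ => cw_inj χ
  classical
  rw [Nat.card_congr e, cw_count (fun n => n = Nat.card G), cw_card]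
  have : (Nat.card G).divisors.filter (fun n => n = Nat.card G) = {Nat.card G} := by
    ext n
    simp only [Finset.mem_filter, Nat.mem_divisors, Finset.mem_singleton]
    constructor
    · exact fun h => h.2
    · rintro rfl
      exact ⟨⟨dvd_rfl, Nat.card_pos.ne'⟩, rfl⟩
  rw [this, Finset.sum_singleton]

theorem cw_dvd {l d n : ℕ} (hl : l.Prime) (hd : d ≠ 0) (hn : n ∣ d) :
    (∀ q : ℕ, q.Prime → q ≠ l → q ∣ d → ¬ n ∣ d / q) ↔ d / l ^ d.factorization l ∣ n := by
  have hco : Nat.Coprime l (d / l ^ d.factorization l) := Nat.coprime_ordCompl hl hd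
  have hpr : l ^ d.factorization l * (d / l ^ d.factorization l) = d :=
    Nat.ordProj_mul_ordCompl_eq_self d l
  constructor
  · intro h
    obtain ⟨m, hm⟩ := hn
    have hm0 : m ≠ 0 := by
      rintro rfl
      rw [mul_zero] at hm
      exact hd hm
    have h1 : ∀ q : ℕ, q.Prime → q ∣ m → q = l := by
      intro q hq hqm
      by_contra hql
      refine h q hq hql (hm ▸ hqm.mul_left n) ?_
      rw [hm, Nat.mul_div_assoc _ hqm]
      exact dvd_mul_right _ _
    have h2 := Nat.eq_prime_pow_of_unique_prime_dvd hm0 (p := l) (fun {q} hq hqm => h1 q hq hqm)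
    have h3 : d / l ^ d.factorization l ∣ n * l ^ m.primeFactorsList.length := by
      rw [← h2, ← hm]
      exact Dvd.intro_left _ hpr
    exact (Nat.Coprime.pow_right _ hco.symm).dvd_of_dvd_mul_right h3
  · intro h q hq hql hqd hnq
    have h1 : d / l ^ d.factorization l ∣ d / q := h.trans hnq
    have h2 : d / l ^ d.factorization l * q ∣ d := by
      have := Nat.mul_dvd_mul_right h1 q
      rwa [Nat.div_mul_cancel hqd] at this
    have h0 : d / l ^ d.factorization l ≠ 0 := by
      intro h0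
      rw [h0, mul_zero] at hpr
      exact hd hpr.symm
    have h3 : q ∣ l ^ d.factorization l := by
      have h4 : d / l ^ d.factorization l * q ∣
          d / l ^ d.factorization l * l ^ d.factorization l := by
        rw [mul_comm (d / l ^ d.factorization l) (l ^ d.factorization l), hpr]
        exact h2
      exact Nat.dvd_of_mul_dvd_mul_left (Nat.pos_of_ne_zero h0) h4
    exact hql ((Nat.prime_dvd_prime_iff_eq hq hl).1 (hq.dvd_of_dvd_pow h3))

theorem cw_set {l : ℕ} (hl : l.Prime) {L : List (Subgroup G)} (hL : PrL G l L)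
    (B : Subgroup G) (χ : G →* ℂˣ) : (B ≤ χ.ker ∧ ∀ P ∈ L, ¬ P ≤ χ.ker) ↔
      (orderOf χ ∣ Nat.card G / Nat.card B ∧
        Nat.card G / l ^ (Nat.card G).factorization l ∣ orderOf χ) := by
  have hf := cw_fin (G := G)
  have hn : orderOf χ ∣ Nat.card G := by
    rw [← cw_card]
    exact orderOf_dvd_natCard χ
  rw [← cw_dvd hl Nat.card_pos.ne' hn, cw_le]
  refine and_congr_right fun _ => ⟨fun h q hq hql hqd hnq => ?_, fun h P hP hle => ?_⟩
  · have := Fact.mk hq
    obtain ⟨x, hx⟩ := exists_prime_orderOf_dvd_card' (G := G) q hqd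
    have hc : Nat.card (Subgroup.zpowers x) = q := by rw [Nat.card_zpowers, hx]
    refine h _ (hL.all (Subgroup.zpowers x) (hc ▸ hq) (hc ▸ hql)) ?_
    rw [cw_le, hc]
    exact hnq
  · obtain ⟨h1, h2⟩ := hL.prime P hP
    exact h _ h1 h2 (Subgroup.card_subgroup_dvd_card P) ((cw_le P χ).1 hle)

/-- CW2. `#G = l^j d'`. A character which is nontrivial on all subgroups of prime order `≠ l` is
injective on the elements of order prime to `l`; if it is trivial on `B`, then `B` is an `l`-group,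
and there are `φ(d') l^j / #B` such characters. -/
theorem card_chB_pr {l : ℕ} (hl : l.Prime) {L : List (Subgroup G)} (hL : PrL G l L)
    (B : Subgroup G) :
    ((∀ g ∈ B, ∃ i : ℕ, g ^ l ^ i = 1) →
      Nat.card {χ : G →* ℂˣ // B ≤ χ.ker ∧ ∀ P ∈ L, ¬ P ≤ χ.ker} * Nat.card B =
        (Nat.card G / l ^ (Nat.card G).factorization l).totient *
          l ^ (Nat.card G).factorization l) ∧
    ((¬ ∀ g ∈ B, ∃ i : ℕ, g ^ l ^ i = 1) →
      Nat.card {χ : G →* ℂˣ // B ≤ χ.ker ∧ ∀ P ∈ L, ¬ P ≤ χ.ker} = 0) := by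
  have := cw_cyc (G := G)
  have := cw_fin (G := G)
  have hfl := Fact.mk hl
  have hd : Nat.card G ≠ 0 := Nat.card_pos.ne'
  have hco : Nat.Coprime l (Nat.card G / l ^ (Nat.card G).factorization l) :=
    Nat.coprime_ordCompl hl hd
  have hpr : l ^ (Nat.card G).factorization l *
      (Nat.card G / l ^ (Nat.card G).factorization l) = Nat.card G :=
    Nat.ordProj_mul_ordCompl_eq_self (Nat.card G) l
  have hBd : Nat.card B ∣ Nat.card G := Subgroup.card_subgroup_dvd_card B
  set d := Nat.card G with hdd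
  set j := d.factorization l with hj
  set d' := d / l ^ j with hd'
  have hd0 : d' ≠ 0 := by
    intro h0
    rw [h0, mul_zero] at hpr
    exact hd hpr.symm
  have hp : IsPGroup l B ↔ ∀ g ∈ B, ∃ i : ℕ, g ^ l ^ i = 1 := by
    constructor
    · intro h g hg
      obtain ⟨i, hi⟩ := h ⟨g, hg⟩
      exact ⟨i, congrArg Subtype.val hi⟩
    · rintro h ⟨g, hg⟩
      obtain ⟨i, hi⟩ := h g hg
      exact ⟨i, Subtype.ext hi⟩
  constructor
  · intro h
    obtain ⟨b, hb⟩ := IsPGroup.iff_card.1 (hp.2 h)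
    have hbj : b ≤ j := by
      rw [hb] at hBd
      exact (hl.pow_dvd_iff_le_factorization hd).1 hBd
    have e : {χ : G →* ℂˣ // B ≤ χ.ker ∧ ∀ P ∈ L, ¬ P ≤ χ.ker} ≃
        {χ : G →* ℂˣ // orderOf χ ∣ d / Nat.card B ∧ d' ∣ orderOf χ} :=
      Equiv.subtypeEquivRight fun χ => cw_set hl hL B χ
    have hdB : d / Nat.card B = d' * l ^ (j - b) := by
      rw [hb, ← hpr]
      have : l ^ j = l ^ b * l ^ (j - b) := by rw [← pow_add, Nat.add_sub_cancel' hbj]
      rw [this, mul_assoc, Nat.mul_div_cancel_left _ (pow_pos hl.pos _), mul_comm]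
    classical
    rw [Nat.card_congr e, cw_count (fun n => n ∣ d / Nat.card B ∧ d' ∣ n), cw_card, ← hdd, hdB]
    have hset : d.divisors.filter (fun n => n ∣ d' * l ^ (j - b) ∧ d' ∣ n) =
        (l ^ (j - b)).divisors.image (fun m => d' * m) := by
      ext n
      simp only [Finset.mem_filter, Nat.mem_divisors, Finset.mem_image]
      constructor
      · rintro ⟨_, h1, m, rfl⟩
        exact ⟨m, ⟨Nat.dvd_of_mul_dvd_mul_left (Nat.pos_of_ne_zero hd0) h1,
          (pow_pos hl.pos _).ne'⟩, rfl⟩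
      · rintro ⟨m, ⟨h1, _⟩, rfl⟩
        refine ⟨⟨?_, hd⟩, Nat.mul_dvd_mul_left _ h1, dvd_mul_right _ _⟩
        rw [← hpr, mul_comm]
        exact Nat.mul_dvd_mul (h1.trans (pow_dvd_pow _ (Nat.sub_le _ _))) dvd_rfl
    rw [hset, Finset.sum_image (fun a _ b _ hab =>
      Nat.eq_of_mul_eq_mul_left (Nat.pos_of_ne_zero hd0) hab)]
    have hs : ∀ m ∈ (l ^ (j - b)).divisors, (d' * m).totient = d'.totient * m.totient := by
      intro m hm
      refine Nat.totient_mul ?_
      exact (Nat.Coprime.pow_right _ hco.symm).coprime_dvd_right (Nat.dvd_of_mem_divisors hm)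
    rw [Finset.sum_congr rfl hs, ← Finset.mul_sum, Nat.sum_totient, hb, mul_assoc, ← pow_add,
      Nat.sub_add_cancel hbj]
  · intro h
    have hem : IsEmpty {χ : G →* ℂˣ // B ≤ χ.ker ∧ ∀ P ∈ L, ¬ P ≤ χ.ker} := by
      refine ⟨fun ⟨χ, hχ⟩ => h (hp.1 ?_)⟩
      obtain ⟨h1, h2⟩ := (cw_set hl hL B χ).1 hχ
      have h3 : d' ∣ d / Nat.card B := h2.trans h1
      have h4 : d' * Nat.card B ∣ d := by
        have := Nat.mul_dvd_mul_right h3 (Nat.card B)
        rwa [Nat.div_mul_cancel hBd] at this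
      have h5 : Nat.card B ∣ l ^ j := by
        have h6 : d' * Nat.card B ∣ d' * l ^ j := by
          rw [mul_comm d' (l ^ j), hpr]
          exact h4
        exact Nat.dvd_of_mul_dvd_mul_left (Nat.pos_of_ne_zero hd0) h6
      obtain ⟨b, _, hb⟩ := (Nat.dvd_prime_pow hl).1 h5
      exact IsPGroup.iff_card.2 ⟨b, hb⟩
    exact Nat.card_of_isEmpty

end CWpr

end Pool.Agent.CR

namespace Pool.Agent.CR
open Pool.Agent.RSK Pool.Agent.RS2 Pool.Agent.SY
open Filter Topology Complex

section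
variable {G : Type} [CommGroup G] [Finite G] [IsCyclic G]

theorem card_inj : Nat.card {χ : G →* ℂˣ // Function.Injective χ} = (Nat.card G).totient :=
  Pool.Agent.CR.card_inj_pr

end

end Pool.Agent.CR

namespace Pool.Agent.CR
open Pool.Agent.RSK Pool.Agent.RS2 Pool.Agent.SY
open Filter Topology Complex

section
variable {G : Type} [CommGroup G] [Finite G] [IsCyclic G]

theorem card_chB {l : ℕ} (hl : l.Prime) {L : List (Subgroup G)} (hL : PrL G l L)
    (B : Subgroup G) :
    ((∀ g ∈ B, ∃ i : ℕ, g ^ l ^ i = 1) →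
      Nat.card {χ : G →* ℂˣ // B ≤ χ.ker ∧ ∀ P ∈ L, ¬ P ≤ χ.ker} * Nat.card B =
        (Nat.card G / l ^ (Nat.card G).factorization l).totient *
          l ^ (Nat.card G).factorization l) ∧
    ((¬ ∀ g ∈ B, ∃ i : ℕ, g ^ l ^ i = 1) →
      Nat.card {χ : G →* ℂˣ // B ≤ χ.ker ∧ ∀ P ∈ L, ¬ P ≤ χ.ker} = 0) :=
  @Pool.Agent.CR.card_chB_pr G _ _ _ l hl L hL B

end

end Pool.Agent.CR
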