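import Pool.Agent.Lib_helper17.CRF.D_WB
import Pool.Agent.Lib_helper17.RS.P_PX1
import Pool.Agent.Lib_helper17.RS.P_PX2
import Pool.Agent.Lib_helper17.CRF.B_CW

/-!
# Composite Rubin (CR), block PI: products over the injective characters
-/

set_option autoImplicit false
set_option linter.unusedSectionVars false

namespace Pool.Agent.CR

open Pool.Agent.RSK Pool.Agent.RS2 Pool.Agent.SY
open Filter Topology Complex

section PI

variable {G : Type} [CommGroup G] [Finite G]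

theorem pi_dual : Finite (G →* ℂˣ) := by
  have : Fintype G := Fintype.ofFinite G
  exact dual_finite

theorem pi_eq [Fintype {χ : G →* ℂˣ // Function.Injective χ}] (φ : (G →* ℂˣ) → ℂ) :
    pI φ = ∏ χ : {χ : G →* ℂˣ // Function.Injective χ}, φ χ.1 := by
  unfold pI
  exact finprod_eq_prod_of_fintype _

theorem pI_mul_pr (φ ψ : (G →* ℂˣ) → ℂ) : pI (fun χ => φ χ * ψ χ) = pI φ * pI ψ := by
  classical
  have : Finite (G →* ℂˣ) := pi_dual
  have : Fintype {χ : G →* ℂˣ // Function.Injective χ} := Fintype.ofFinite _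
  rw [pi_eq, pi_eq, pi_eq, Finset.prod_mul_distrib]

theorem pI_congr_pr {φ ψ : (G →* ℂˣ) → ℂ}
    (h : ∀ χ : G →* ℂˣ, Function.Injective χ → φ χ = ψ χ) :
    pI φ = pI ψ := by
  unfold pI
  exact finprod_congr fun χ => h χ.1 χ.2

theorem pi_inv_inv (χ : G →* ℂˣ) : χ⁻¹⁻¹ = χ := by
  ext g
  simp

theorem pi_inv_inj {χ : G →* ℂˣ} (h : Function.Injective χ) : Function.Injective (χ⁻¹ : G →* ℂˣ) := by
  intro a b hab
  apply h
  have h1 : (χ a)⁻¹ = (χ b)⁻¹ := hab
  exact inv_injective h1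

theorem pI_inv_pr (φ : (G →* ℂˣ) → ℂ) : pI (fun χ => φ χ⁻¹) = pI φ := by
  unfold pI
  let e : {χ : G →* ℂˣ // Function.Injective χ} ≃ {χ : G →* ℂˣ // Function.Injective χ} :=
    { toFun := fun χ => ⟨χ.1⁻¹, pi_inv_inj χ.2⟩
      invFun := fun χ => ⟨χ.1⁻¹, pi_inv_inj χ.2⟩
      left_inv := fun χ => Subtype.ext (pi_inv_inv χ.1)
      right_inv := fun χ => Subtype.ext (pi_inv_inv χ.1) }
  exact finprod_comp_equiv (f := fun χ : {χ : G →* ℂˣ // Function.Injective χ} => φ χ.1) e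

theorem pI_ne_zero_pr {φ : (G →* ℂˣ) → ℂ} :
    pI φ ≠ 0 ↔ ∀ χ : G →* ℂˣ, Function.Injective χ → φ χ ≠ 0 := by
  classical
  have : Finite (G →* ℂˣ) := pi_dual
  have : Fintype {χ : G →* ℂˣ // Function.Injective χ} := Fintype.ofFinite _
  rw [pi_eq, Finset.prod_ne_zero_iff]
  constructor
  · intro h χ hχ
    exact h ⟨χ, hχ⟩ (Finset.mem_univ _)
  · intro h χ _
    exact h χ.1 χ.2

theorem pI_pow_pr (φ : (G →* ℂˣ) → ℂ) (n : ℕ) : pI (fun χ => φ χ ^ n) = pI φ ^ n := by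
  classical
  have : Finite (G →* ℂˣ) := pi_dual
  have : Fintype {χ : G →* ℂˣ // Function.Injective χ} := Fintype.ofFinite _
  rw [pi_eq, pi_eq, Finset.prod_pow]

theorem pI_const_pr [IsCyclic G] (z : ℂ) :
    pI (fun _ : G →* ℂˣ => z) = z ^ (Nat.card G).totient := by
  classical
  have : Finite (G →* ℂˣ) := pi_dual
  have : Fintype {χ : G →* ℂˣ // Function.Injective χ} := Fintype.ofFinite _
  rw [pi_eq, Finset.prod_const, Finset.card_univ, ← Nat.card_eq_fintype_card, card_inj]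

theorem pI_tendsto_pr {f : (G →* ℂˣ) → ℂ → ℂ} {c : (G →* ℂˣ) → ℂ} {F : Filter ℂ}
    (h : ∀ χ : G →* ℂˣ, Function.Injective χ → Tendsto (f χ) F (𝓝 (c χ))) :
    Tendsto (fun s => pI (fun χ => f χ s)) F (𝓝 (pI c)) := by
  classical
  have : Finite (G →* ℂˣ) := pi_dual
  have : Fintype {χ : G →* ℂˣ // Function.Injective χ} := Fintype.ofFinite _
  simp only [pi_eq]
  exact tendsto_finsetProd _ fun χ _ => h χ.1 χ.2

theorem pi_ext {g : G} (hg : ∀ x : G, x ∈ Subgroup.zpowers g) {χ χ' : G →* ℂˣ}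
    (h : χ g = χ' g) : χ = χ' := by
  refine MonoidHom.ext fun x => ?_
  obtain ⟨k, rfl⟩ := Subgroup.mem_zpowers_iff.1 (hg x)
  rw [map_zpow, map_zpow, h]

/-- the cyclotomic field as a quotient of `ℚ[G]` -/
theorem pi_setup [IsCyclic G] :
    ∃ (L : Type) (_ : Field L) (_ : Algebra ℚ L) (_ : FiniteDimensional ℚ L)
      (φ : MonoidAlgebra ℚ G →ₐ[ℚ] L)
      (e : (L →ₐ[ℚ] ℂ) ≃ {χ : G →* ℂˣ // Function.Injective χ}),
      ∀ σ x, evQ (e σ).1 x = σ (φ x) := by
  classical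
  have : Fintype G := Fintype.ofFinite G
  set n : ℕ := Nat.card G with hnd
  have hn : 0 < n := Nat.card_pos
  have : NeZero n := ⟨hn.ne'⟩
  obtain ⟨g, hg⟩ := IsCyclic.exists_generator (α := G)
  have hord : orderOf g = n := orderOf_eq_card_of_forall_mem_zpowers hg
  have : NeZero ((n : ℕ) : ℚ) := ⟨by exact_mod_cast hn.ne'⟩
  obtain ⟨L, iF, iA, iC⟩ : ∃ (L : Type) (_ : Field L) (_ : Algebra ℚ L),
      IsCyclotomicExtension {n} ℚ L :=
    ⟨CyclotomicField n ℚ, inferInstance, CyclotomicField.algebra n ℚ,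
      CyclotomicField.isCyclotomicExtension n ℚ⟩
  set ζ : L := IsCyclotomicExtension.zeta n ℚ L with hζd
  have hζ : IsPrimitiveRoot ζ n := IsCyclotomicExtension.zeta_spec n ℚ L
  have hζ0 : ζ ≠ 0 := hζ.ne_zero hn.ne'
  set ζu : Lˣ := Units.mk0 ζ hζ0 with hζu
  have hζup : IsPrimitiveRoot ζu n := by
    rw [← IsPrimitiveRoot.coe_units_iff]
    exact hζ
  have hζe : orderOf ζu = orderOf g := by rw [hord, ← hζup.eq_orderOf]
  have hζo : orderOf ζu ∣ orderOf g := by rw [hζe]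
  set ψ : G →* Lˣ := monoidHomOfForallMemZpowers hg hζo with hψ
  have hψg : ψ g = ζu := monoidHomOfForallMemZpowers_apply_gen hg hζo
  have hψi : ∀ x : G, ψ x = 1 → x = 1 := by
    intro x hx
    obtain ⟨k, rfl⟩ := Subgroup.mem_zpowers_iff.1 (hg x)
    rw [map_zpow, hψg, ← orderOf_dvd_iff_zpow_eq_one, hζe] at hx
    exact orderOf_dvd_iff_zpow_eq_one.1 hx
  set φ : MonoidAlgebra ℚ G →ₐ[ℚ] L := MonoidAlgebra.lift ℚ L G ((Units.coeHom L).comp ψ) with hφ
  have hadj : Algebra.adjoin ℚ {ζ} = ⊤ :=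
    IsCyclotomicExtension.adjoin_primitive_root_eq_top hζ
  have hinjζ : ∀ σ τ : L →ₐ[ℚ] ℂ, σ ζ = τ ζ → σ = τ := by
    intro σ τ h
    refine AlgHom.ext_of_adjoin_eq_top hadj ?_
    intro x hx
    rw [Set.mem_singleton_iff] at hx
    rw [hx, h]
  let e0 : (L →ₐ[ℚ] ℂ) → {χ : G →* ℂˣ // Function.Injective χ} := fun σ =>
    ⟨(Units.map (σ : L →* ℂ)).comp ψ, by
      rw [injective_iff_map_eq_one]
      intro x hx
      have h2 : σ ((ψ x : Lˣ) : L) = 1 := by
        have h3 := congrArg (fun u : ℂˣ => (u : ℂ)) hx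
        simpa using h3
      have h3 : σ ((ψ x : Lˣ) : L) = σ 1 := by rw [h2, map_one]
      have h4 : ((ψ x : Lˣ) : L) = 1 := σ.toRingHom.injective h3
      have h5 : ψ x = 1 := Units.ext (by rw [h4, Units.val_one])
      exact hψi _ h5⟩
  have he0 : ∀ σ (x : G), (((e0 σ).1 x : ℂˣ) : ℂ) = σ (ψ x : L) := fun σ x => rfl
  have hinj : Function.Injective e0 := by
    intro σ τ h
    apply hinjζ
    have h1 := he0 σ g
    rw [h, he0 τ g, hψg, hζu, Units.val_mk0] at h1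
    exact h1.symm
  have hfd : FiniteDimensional ℚ L := IsCyclotomicExtension.finiteDimensional {n} ℚ L
  have hsur0 : Function.Surjective e0 := by
    rintro ⟨χ, hχ⟩
    have h1 : IsPrimitiveRoot ((χ g : ℂˣ) : ℂ) n := by
      rw [IsPrimitiveRoot.coe_units_iff, ← hord]
      exact (IsPrimitiveRoot.orderOf g).map_of_injective hχ
    have h2 : ((χ g : ℂˣ) : ℂ) ∈ primitiveRoots n ℂ :=
      (mem_primitiveRoots hn).2 h1
    refine ⟨(hζ.embeddingsEquivPrimitiveRoots ℂ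
      (Polynomial.cyclotomic.irreducible_rat hn)).symm ⟨_, h2⟩, ?_⟩
    apply Subtype.ext
    apply pi_ext hg
    apply Units.ext
    rw [he0, hψg, hζu, Units.val_mk0]
    have h3 := hζ.embeddingsEquivPrimitiveRoots_apply_coe ℂ
      (Polynomial.cyclotomic.irreducible_rat hn)
      ((hζ.embeddingsEquivPrimitiveRoots ℂ
        (Polynomial.cyclotomic.irreducible_rat hn)).symm ⟨_, h2⟩)
    rw [Equiv.apply_symm_apply] at h3
    exact h3.symm
  refine ⟨L, inferInstance, inferInstance, hfd, φ, Equiv.ofBijective e0 ⟨hinj, hsur0⟩, ?_⟩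
  intro σ x
  rw [px2_evQ_apply]
  have h1 : φ x = ∑ y : G, algebraMap ℚ L (x.coeff y) * (ψ y : L) := by
    rw [hφ, MonoidAlgebra.lift_apply, Finsupp.sum_fintype]
    · refine Finset.sum_congr rfl fun y _ => ?_
      rw [Algebra.smul_def]
      rfl
    · intro y
      rw [zero_smul]
  rw [h1, map_sum]
  refine Finset.sum_congr rfl fun y _ => ?_
  rw [map_mul, AlgHom.commutes]
  exact congrArg (fun t => ((x.coeff y : ℚ) : ℂ) * t) (he0 σ y)

theorem pI_rat_pr [IsCyclic G] (x : MonoidAlgebra ℚ G) :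
    ∃ q : ℚ, pI (fun χ => evQ χ x) = q := by
  classical
  obtain ⟨L, _, _, _, φ, e, he⟩ := pi_setup (G := G)
  refine ⟨Algebra.norm ℚ (φ x), ?_⟩
  have h1 := Algebra.norm_eq_prod_embeddings ℚ ℂ (φ x)
  unfold pI
  rw [← finprod_comp_equiv e, finprod_eq_prod_of_fintype]
  simp only [he]
  rw [← h1]
  rfl

theorem pi_integral (χ : G →* ℂˣ) (x : MonoidAlgebra ℤ G) : IsIntegral ℤ (evZ χ x) := by
  have h1 : IsIntegral ℤ x := by
    induction x using MonoidAlgebra.induction_on with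
    | of g =>
      have hn : 0 < orderOf g := orderOf_pos g
      refine IsIntegral.of_pow hn ?_
      rw [← map_pow, pow_orderOf_eq_one, map_one]
      exact isIntegral_one
    | add a b ha hb => exact ha.add hb
    | smul c a ha => exact ha.smul c
  exact map_isIntegral_int (evZ χ) h1

theorem pI_int_pr [IsCyclic G] (x : MonoidAlgebra ℤ G) :
    ∃ t : ℤ, pI (fun χ => evZ χ x) = t := by
  classical
  have : Finite (G →* ℂˣ) := pi_dual
  have : Fintype {χ : G →* ℂˣ // Function.Injective χ} := Fintype.ofFinite _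
  obtain ⟨q, hq⟩ := pI_rat_pr (toQ G x)
  have h1 : pI (fun χ => evZ χ x) = (q : ℂ) := hq
  have h2 : IsIntegral ℤ (pI (fun χ => evZ χ x)) := by
    rw [pi_eq]
    exact IsIntegral.prod _ fun χ _ => pi_integral χ.1 x
  rw [h1] at h2
  have h3 : IsIntegral ℤ q := by
    have h4 : IsIntegral ℤ (algebraMap ℚ ℂ q) := h2
    exact (isIntegral_algebraMap_iff (algebraMap ℚ ℂ).injective).1 h4
  obtain ⟨t, ht⟩ := IsIntegrallyClosed.isIntegral_iff.1 h3
  refine ⟨t, ?_⟩
  rw [h1, ← ht]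
  simp

end PI

end Pool.Agent.CR

namespace Pool.Agent.CR
open Pool.Agent.RSK Pool.Agent.RS2 Pool.Agent.SY
open Filter Topology Complex

section
variable {G : Type} [CommGroup G] [Finite G]

theorem pI_mul (φ ψ : (G →* ℂˣ) → ℂ) : pI (fun χ => φ χ * ψ χ) = pI φ * pI ψ :=
  @Pool.Agent.CR.pI_mul_pr G _ _ φ ψ

end

end Pool.Agent.CR

namespace Pool.Agent.CR
open Pool.Agent.RSK Pool.Agent.RS2 Pool.Agent.SY
open Filter Topology Complex

section
variable {G : Type} [CommGroup G] [Finite G]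

theorem pI_congr {φ ψ : (G →* ℂˣ) → ℂ} (h : ∀ χ : G →* ℂˣ, Function.Injective χ → φ χ = ψ χ) :
    pI φ = pI ψ :=
  @Pool.Agent.CR.pI_congr_pr G _ _ φ ψ h

end

end Pool.Agent.CR

namespace Pool.Agent.CR
open Pool.Agent.RSK Pool.Agent.RS2 Pool.Agent.SY
open Filter Topology Complex

section
variable {G : Type} [CommGroup G] [Finite G]

theorem pI_inv (φ : (G →* ℂˣ) → ℂ) : pI (fun χ => φ χ⁻¹) = pI φ :=
  @Pool.Agent.CR.pI_inv_pr G _ _ φ

end

end Pool.Agent.CR

namespace Pool.Agent.CR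
open Pool.Agent.RSK Pool.Agent.RS2 Pool.Agent.SY
open Filter Topology Complex

section
variable {G : Type} [CommGroup G] [Finite G]

theorem pI_ne_zero {φ : (G →* ℂˣ) → ℂ} :
    pI φ ≠ 0 ↔ ∀ χ : G →* ℂˣ, Function.Injective χ → φ χ ≠ 0 :=
  @Pool.Agent.CR.pI_ne_zero_pr G _ _ φ

end

end Pool.Agent.CR

namespace Pool.Agent.CR
open Pool.Agent.RSK Pool.Agent.RS2 Pool.Agent.SY
open Filter Topology Complex

section
variable {G : Type} [CommGroup G] [Finite G]

theorem pI_pow (φ : (G →* ℂˣ) → ℂ) (n : ℕ) : pI (fun χ => φ χ ^ n) = pI φ ^ n :=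
  @Pool.Agent.CR.pI_pow_pr G _ _ φ n

end

end Pool.Agent.CR

namespace Pool.Agent.CR
open Pool.Agent.RSK Pool.Agent.RS2 Pool.Agent.SY
open Filter Topology Complex

section
variable {G : Type} [CommGroup G] [Finite G]

theorem pI_const [IsCyclic G] (z : ℂ) :
    pI (fun _ : G →* ℂˣ => z) = z ^ (Nat.card G).totient :=
  @Pool.Agent.CR.pI_const_pr G _ _ _ z

end

end Pool.Agent.CR

namespace Pool.Agent.CR
open Pool.Agent.RSK Pool.Agent.RS2 Pool.Agent.SY
open Filter Topology Complex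

section
variable {G : Type} [CommGroup G] [Finite G]

theorem pI_tendsto {f : (G →* ℂˣ) → ℂ → ℂ} {c : (G →* ℂˣ) → ℂ} {F : Filter ℂ}
    (h : ∀ χ : G →* ℂˣ, Function.Injective χ → Tendsto (f χ) F (𝓝 (c χ))) :
    Tendsto (fun s => pI (fun χ => f χ s)) F (𝓝 (pI c)) :=
  @Pool.Agent.CR.pI_tendsto_pr G _ _ f c F h

end

end Pool.Agent.CR

namespace Pool.Agent.CR
open Pool.Agent.RSK Pool.Agent.RS2 Pool.Agent.SY
open Filter Topology Complex

section
variable {G : Type} [CommGroup G] [Finite G]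

theorem pI_rat [IsCyclic G] (x : MonoidAlgebra ℚ G) : ∃ q : ℚ, pI (fun χ => evQ χ x) = q :=
  @Pool.Agent.CR.pI_rat_pr G _ _ _ x

end

end Pool.Agent.CR

namespace Pool.Agent.CR
open Pool.Agent.RSK Pool.Agent.RS2 Pool.Agent.SY
open Filter Topology Complex

section
variable {G : Type} [CommGroup G] [Finite G]

theorem pI_int [IsCyclic G] (x : MonoidAlgebra ℤ G) : ∃ t : ℤ, pI (fun χ => evZ χ x) = t :=
  @Pool.Agent.CR.pI_int_pr G _ _ _ x

end

end Pool.Agent.CR
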