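import Pool.Agent.Lib_helper17.CRF.D_WL
import Pool.Agent.Lib_helper17.RS.P_EX

/-!
# CR, block BA: the base field
-/

set_option autoImplicit false
set_option linter.unusedSectionVars false

namespace Pool.Agent.CR

open Pool.Agent.RSK Pool.Agent.RS2 Pool.Agent.RS3 Pool.Agent.SY
open NumberField IsDedekindDomain Filter Topology Complex
open scoped Pointwise

theorem base_exists_pr {F K : Type} [Field F] [NumberField F] [Field K] [NumberField K]
    [Algebra F K] [IsGalois F K] {G : Type} [CommGroup G] [Fintype G]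
    [IsCyclic G] {l : ℕ} (h : AutAt l F K) (ι : G ≃* (K ≃ₐ[F] K)) :
    ∃ (F₀ : Type) (_ : Field F₀) (_ : NumberField F₀) (_ : Algebra F₀ F) (_ : Algebra F₀ K)
      (_ : IsScalarTower F₀ F K) (_ : IsGalois F₀ K) (_ : IsGalois F₀ F),
      ∀ n : ℕ, n.Coprime (Nat.card G) → ∃ (i b : ℕ) (γ : K ≃ₐ[F₀] K),
        (∀ (g : G) (y : K), γ (ι g y) = ι (g ^ b) (γ y)) ∧
        ∀ g : G, ¬ l ∣ orderOf g → g ^ (b * l ^ i) = g ^ n := by
  have hfinA : Finite (RingAut K) := exR_fin
  have hcardK : Nat.card (K ≃ₐ[F] K) = Nat.card G := (Nat.card_congr ι.toEquiv).symm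
  have hfr : Module.finrank F K = Nat.card G := by
    rw [← hcardK]
    exact (IsGalois.card_aut_eq_finrank F K).symm
  set N : Subgroup (RingAut K) := (exR F K).range with hN
  set Γ : Subgroup (RingAut K) := Subgroup.normalizer (N : Set (RingAut K)) with hΓ
  have hNΓ : ∀ s ∈ N, s ∈ Γ := fun s hs => Subgroup.le_normalizer hs
  let F₀ : Subfield K := FixedPoints.subfield Γ K
  have memF : ∀ x : K, x ∈ F₀ ↔ ∀ γ ∈ Γ, γ x = x := fun x =>
    ⟨fun hx γ hγ => hx ⟨γ, hγ⟩, fun hx γ => hx γ.1 γ.2⟩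
  have hFR : F₀ ≤ (algebraMap F K).fieldRange := by
    intro x hx
    rw [RingHom.mem_fieldRange]
    have := (IsGalois.mem_range_algebraMap_iff_fixed (F := F) (E := K) x).mpr fun σ =>
      (memF x).mp hx _ (hNΓ _ ⟨σ, rfl⟩)
    exact this
  -- the automorphisms in `Γ` map `F` to `F`
  have hst : ∀ γ ∈ Γ, ∀ y : F, ∃ y' : F, γ (algebraMap F K y) = algebraMap F K y' := by
    intro γ hγ y
    have h4 : γ (algebraMap F K y) ∈ Set.range (algebraMap F K) := by
      rw [IsGalois.mem_range_algebraMap_iff_fixed]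
      intro σ'
      have h5 : γ⁻¹ * exR F K σ' * γ ∈ N := by
        have h6 := (Subgroup.mem_normalizer_iff.mp (Γ.inv_mem hγ) (exR F K σ')).mp ⟨σ', rfl⟩
        rwa [inv_inv] at h6
      obtain ⟨σ, hσ⟩ := h5
      have h7 : exR F K σ' * γ = γ * exR F K σ := by
        rw [hσ]; group
      have h8 := congrArg (fun z : RingAut K => z (algebraMap F K y)) h7
      have h9 : (γ * exR F K σ) (algebraMap F K y) = γ (algebraMap F K y) := by
        show γ (σ (algebraMap F K y)) = _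
        rw [σ.commutes]
      exact h8.trans h9
    obtain ⟨y', hy'⟩ := h4
    exact ⟨y', hy'.symm⟩
  -- the maps
  let e : F ≃+* (algebraMap F K).fieldRange := RingEquiv.ofBijective (algebraMap F K).rangeRestrictField
    ⟨fun a b hab => (algebraMap F K).injective (congrArg Subtype.val hab),
      fun y => by
        obtain ⟨x, hx⟩ := y.2
        exact ⟨x, Subtype.ext hx⟩⟩
  have he : ∀ x, algebraMap F K (e.symm x) = x := fun x => by
    have h4 : (e (e.symm x)) = x := e.apply_symm_apply x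
    exact congrArg Subtype.val h4
  let φ : F₀ →+* F := (e.symm : _ →+* F).comp (Subfield.inclusion hFR)
  have hφ : ∀ x : F₀, algebraMap F K (φ x) = x := fun x => he _
  let i1 : Algebra F₀ F := φ.toAlgebra
  have i3 : IsScalarTower F₀ F K := IsScalarTower.of_algebraMap_eq fun x => (hφ x).symm
  have i5 : IsGalois F₀ K := IsGalois.of_fixed_field K Γ
  -- automorphisms over `F₀`
  have autF : ∀ γ : K ≃ₐ[F₀] K, ∃ g ∈ Γ, ∀ x, γ x = g x := by
    intro γ
    obtain ⟨g, hg⟩ := (FixedPoints.toAlgAut_bijective Γ K).surjective γ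
    exact ⟨g.1, g.2, fun x => (DFunLike.congr_fun hg x).symm⟩
  have i7 : IsGalois F₀ F := by
    have hnorm : Normal F₀ (IsScalarTower.toAlgHom F₀ F K).fieldRange := by
      rw [IntermediateField.normal_iff_forall_map_le']
      intro γ x hx
      rw [IntermediateField.mem_map] at hx
      obtain ⟨z, hz, rfl⟩ := hx
      obtain ⟨y, rfl⟩ := hz
      obtain ⟨g, hg, hgx⟩ := autF γ
      obtain ⟨y', hy'⟩ := hst g hg y
      refine ⟨y', ?_⟩
      show algebraMap F K y' = γ (algebraMap F K y)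
      rw [hgx, hy']
    have hn2 : Normal F₀ F := Normal.of_algEquiv (IsScalarTower.toAlgHom F₀ F K).equivFieldRange.symm
    exact ⟨⟩
  refine ⟨F₀, inferInstance, NumberField.of_subfield F₀, i1, inferInstance, i3, i5, i7, ?_⟩
  intro n hn
  obtain ⟨i, b, τ, h1, h2⟩ := h n (by rw [hfr]; exact hn)
  -- `τ` is in the normalizer
  have hτN : ∀ s ∈ N, τ * s * τ⁻¹ ∈ N := by
    rintro s ⟨σ, rfl⟩
    refine ⟨σ ^ b, ?_⟩
    rw [eq_mul_inv_iff_mul_eq]
    ext x
    exact (h1 σ x).symm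
  have hτ : (τ : RingAut K) ∈ Γ := by
    have hNf : Finite N := inferInstance
    rw [hΓ, Subgroup.mem_normalizer_iff]
    intro s
    refine ⟨fun hs => hτN s hs, fun hs => ?_⟩
    let c : N → N := fun s => ⟨τ * s.1 * τ⁻¹, hτN s.1 s.2⟩
    have hc : Function.Injective c := by
      intro s t hst'
      have h3 : τ * s.1 * τ⁻¹ = τ * t.1 * τ⁻¹ := congrArg Subtype.val hst'
      exact Subtype.ext (mul_left_cancel (mul_right_cancel h3))
    obtain ⟨t, ht⟩ := (Finite.injective_iff_surjective.mp hc) ⟨_, hs⟩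
    have h3 : τ * t.1 * τ⁻¹ = τ * s * τ⁻¹ := congrArg Subtype.val ht
    rw [← mul_left_cancel (mul_right_cancel h3)]
    exact t.2
  refine ⟨i, b, FixedPoints.toAlgAutMulEquiv Γ K ⟨τ, hτ⟩, ?_, ?_⟩
  · intro g y
    show τ (ι g y) = ι (g ^ b) (τ y)
    rw [map_pow]
    exact h1 (ι g) y
  · intro g hg
    apply ι.injective
    rw [map_pow, map_pow]
    apply h2
    rwa [MulEquiv.orderOf_eq]

end Pool.Agent.CR

namespace Pool.Agent.CR
open Pool.Agent.RSK Pool.Agent.RS2 Pool.Agent.RS3 Pool.Agent.SY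
open NumberField IsDedekindDomain Filter Topology Complex

section
variable {F K : Type} [Field F] [NumberField F] [Field K] [NumberField K] [Algebra F K]
  [IsGalois F K] {G : Type} [CommGroup G] [Fintype G] {ι : G ≃* (K ≃ₐ[F] K)}
  {S T : Finset (HeightOneSpectrum (𝓞 F))} {r : ℕ} {w : Fin r → Pl K}
  {fr : HeightOneSpectrum (𝓞 F) → G}

theorem base_exists [IsCyclic G] {l : ℕ} (h : AutAt l F K) (ι : G ≃* (K ≃ₐ[F] K)) :
    ∃ (F₀ : Type) (_ : Field F₀) (_ : NumberField F₀) (_ : Algebra F₀ F) (_ : Algebra F₀ K)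
      (_ : IsScalarTower F₀ F K) (_ : IsGalois F₀ K) (_ : IsGalois F₀ F),
      ∀ n : ℕ, n.Coprime (Nat.card G) → ∃ (i b : ℕ) (γ : K ≃ₐ[F₀] K),
        (∀ (g : G) (y : K), γ (ι g y) = ι (g ^ b) (γ y)) ∧
        ∀ g : G, ¬ l ∣ orderOf g → g ^ (b * l ^ i) = g ^ n :=
  @Pool.Agent.CR.base_exists_pr F K _ _ _ _ _ _ G _ _ _ l h ι

end

end Pool.Agent.CR
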