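import Pool.Agent.Lib_helper17.CRF.D_WB
import Pool.Agent.Lib_helper3.AU.AL
import Pool.Agent.Lib_helper17.CRF.B_PL
import Pool.Agent.Lib_helper17.CRF.B_KL
import Pool.Agent.Lib_helper17.CRF.B_AV

/-!
# Composite Rubin, block AS: divisibility, one step
-/

set_option autoImplicit false
set_option linter.unusedSectionVars false

namespace Pool.Agent.CR

open Pool.Agent.RSK Pool.Agent.RS2 Pool.Agent.SY Pool.Agent.AU
open Filter Topology Complex

section AS0

variable {G : Type} [CommGroup G]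

/-- the reduction `ℤ[G] → 𝔽_l[G/⟨s⟩]` -/
noncomputable def as_red (l : ℕ) (s : G) : MonoidAlgebra ℤ G →+*
    MonoidAlgebra (ZMod l) (G ⧸ Subgroup.zpowers s) :=
  (MonoidAlgebra.mapRingHom _ (Int.castRingHom (ZMod l))).comp
    (MonoidAlgebra.mapDomainRingHom ℤ (QuotientGroup.mk' (Subgroup.zpowers s)))

theorem as_red_single (l : ℕ) (s g : G) (c : ℤ) : as_red l s (MonoidAlgebra.single g c) =
    MonoidAlgebra.single (QuotientGroup.mk' (Subgroup.zpowers s) g) (c : ZMod l) := by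
  simp [as_red]

end AS0

section AS

variable {G : Type} [CommGroup G] [Fintype G] [IsCyclic G]

theorem as_mem {l : ℕ} (hl : 0 < l) {P : Subgroup G} (hP : Nat.card P = l) {c : G}
    (hc : c ^ l = 1) : c ∈ P := by
  classical
  have h1 : ∀ g ∈ P, g ^ l = 1 := by
    intro g hg
    have h := pow_card_eq_one' (x := (⟨g, hg⟩ : P))
    rw [hP] at h
    simpa [Subtype.ext_iff] using h
  have h2 : (Finset.univ.filter fun a : G => a ^ l = 1).card ≤ l :=
    IsCyclic.card_pow_eq_one_le hl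
  have h3 : (Finset.univ.filter fun a : G => a ∈ P) ⊆ Finset.univ.filter fun a : G => a ^ l = 1 := by
    intro a ha
    simp only [Finset.mem_filter, Finset.mem_univ, true_and] at ha ⊢
    exact h1 a ha
  have h4 : (Finset.univ.filter fun a : G => a ∈ P).card = l := by
    rw [← hP, Nat.card_eq_fintype_card, Fintype.card_subtype]
  have h5 := Finset.eq_of_subset_of_card_le h3 (by rw [h4]; exact h2)
  have h6 : c ∈ Finset.univ.filter fun a : G => a ∈ P := by
    rw [h5]
    simpa using hc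
  simpa using h6

omit [IsCyclic G] in
theorem as_ev_single (χ : G →* ℂˣ) (g : G) (c : ℤ) :
    evZ χ (MonoidAlgebra.single g c) = (c : ℂ) * ((χ g : ℂˣ) : ℂ) := by
  show evQ χ (toQ G (MonoidAlgebra.single g c)) = _
  have : toQ G (MonoidAlgebra.single g (c : ℤ)) = MonoidAlgebra.single g (c : ℚ) := by
    simp [toQ]
  rw [this, px2_evQ_single]
  simp

omit [IsCyclic G] in
theorem as_ev_map (n : ℕ) (χ : G →* ℂˣ) (a : MonoidAlgebra ℤ G) :
    evZ χ (cpow ℤ G n a) = evZ (χ.comp (powMonoidHom n)) a := by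
  induction a using MonoidAlgebra.induction_on with
  | of g =>
    have h : MonoidAlgebra.of ℤ G g = MonoidAlgebra.single g 1 := rfl
    rw [h, cpow_single, as_ev_single, as_ev_single]
    rfl
  | add a b ha hb => rw [map_add, map_add, map_add, ha, hb]
  | smul c a ha => rw [map_zsmul, map_zsmul, map_zsmul, ha]

omit [IsCyclic G] in
theorem as_evZ_inj {a b : MonoidAlgebra ℤ G} (h : ∀ χ : G →* ℂˣ, evZ χ a = evZ χ b) : a = b :=
  al_toQ_inj (evQ_inj h)

/-- the injective characters are the powers of one of them -/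
theorem as_pI {χ : G →* ℂˣ} (hχ : Function.Injective χ) (φ : (G →* ℂˣ) → ℂ)
    [NeZero (Nat.card G)] :
    pI φ = ∏ u : (ZMod (Nat.card G))ˣ, φ (χ.comp (powMonoidHom (u : ZMod (Nat.card G)).val)) := by
  classical
  obtain ⟨σ, hσ⟩ := IsCyclic.exists_generator (α := G)
  have ho : orderOf σ = Nat.card G := orderOf_eq_card_of_forall_mem_zpowers hσ
  have hinj : ∀ u : (ZMod (Nat.card G))ˣ,
      Function.Injective (χ.comp (powMonoidHom (u : ZMod (Nat.card G)).val)) := by
    intro u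
    have hco : (Nat.card G).Coprime (u : ZMod (Nat.card G)).val := (ZMod.val_coe_unit_coprime u).symm
    have h1 : Function.Injective (fun g : G => g ^ (u : ZMod (Nat.card G)).val) :=
      (powCoprime hco).injective
    intro g g' h
    exact h1 (hχ h)
  have hprim : ∀ ψ : G →* ℂˣ, Function.Injective ψ →
      IsPrimitiveRoot ((ψ σ : ℂˣ) : ℂ) (Nat.card G) := by
    intro ψ hψ
    rw [IsPrimitiveRoot.coe_units_iff, ← ho, ← orderOf_injective ψ hψ σ]
    exact IsPrimitiveRoot.orderOf _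
  have hbij : Function.Bijective (fun u : (ZMod (Nat.card G))ˣ =>
      (⟨χ.comp (powMonoidHom (u : ZMod (Nat.card G)).val), hinj u⟩ :
        {χ : G →* ℂˣ // Function.Injective χ})) := by
    constructor
    · intro u u' h
      have h1 : χ.comp (powMonoidHom (u : ZMod (Nat.card G)).val) =
          χ.comp (powMonoidHom (u' : ZMod (Nat.card G)).val) := congrArg Subtype.val h
      have h2 : σ ^ (u : ZMod (Nat.card G)).val = σ ^ (u' : ZMod (Nat.card G)).val :=
        hχ (DFunLike.congr_fun h1 σ)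
      rw [pow_eq_pow_iff_modEq, ho, ← ZMod.natCast_eq_natCast_iff] at h2
      rw [ZMod.natCast_val, ZMod.natCast_val, ZMod.cast_id, ZMod.cast_id] at h2
      exact Units.ext h2
    · rintro ⟨ψ, hψ⟩
      obtain ⟨i, hi, hco, hiz⟩ := (hprim χ hχ).isPrimitiveRoot_iff.1 (hprim ψ hψ)
      refine ⟨ZMod.unitOfCoprime i hco, Subtype.ext ?_⟩
      show χ.comp (powMonoidHom (((ZMod.unitOfCoprime i hco : (ZMod (Nat.card G))ˣ) :
        ZMod (Nat.card G))).val) = ψ
      rw [ZMod.coe_unitOfCoprime, ZMod.val_natCast, Nat.mod_eq_of_lt hi]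
      ext g
      obtain ⟨k, rfl⟩ := hσ g
      simp only [map_zpow, Units.val_zpow_eq_zpow_val]
      congr 1
      show (((χ (σ ^ i) : ℂˣ)) : ℂ) = _
      rw [map_pow, Units.val_pow_eq_pow_val, hiz]
  rw [pI, ← finprod_eq_prod_of_fintype]
  exact (finprod_eq_of_bijective _ hbij fun u => rfl).symm

omit [IsCyclic G] in
/-- sums of invariant functions -/
theorem as_sum_inv {M : Type} [AddCommMonoid M] (F : G → M) (H : Subgroup G)
    (hF : ∀ g, ∀ h ∈ H, F (g * h) = F g) [Fintype (G ⧸ H)] :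
    ∑ g, F g = Nat.card H • ∑ q : G ⧸ H, F q.out := by
  classical
  have hbij : Function.Bijective (fun p : (G ⧸ H) × H => p.1.out * (p.2 : G)) := by
    constructor
    · rintro ⟨q, h⟩ ⟨q', h'⟩ e
      have e1 : q.out * (h : G) = q'.out * (h' : G) := e
      have e2 : q = q' := by
        have := congrArg (QuotientGroup.mk : G → G ⧸ H) e1
        rw [QuotientGroup.mk_mul_of_mem _ h.2, QuotientGroup.mk_mul_of_mem _ h'.2,
          QuotientGroup.out_eq', QuotientGroup.out_eq'] at this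
        exact this
      subst e2
      have e3 : (h : G) = h' := mul_left_cancel e1
      rw [Subtype.ext e3]
    · intro g
      obtain ⟨h, hh⟩ := QuotientGroup.mk_out_eq_mul H g
      refine ⟨(QuotientGroup.mk g, h⁻¹), ?_⟩
      show (QuotientGroup.mk g : G ⧸ H).out * ((h⁻¹ : H) : G) = g
      rw [hh]
      simp
  rw [← hbij.sum_comp, Fintype.sum_prod_type, Finset.smul_sum]
  refine Finset.sum_congr rfl fun q _ => ?_
  rw [Finset.sum_congr rfl fun (h : H) _ => hF q.out h h.2, Finset.sum_const, Finset.card_univ,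
    Nat.card_eq_fintype_card]

omit [IsCyclic G] in
theorem as_eq_sum (x : MonoidAlgebra ℤ G) : x = ∑ g : G, MonoidAlgebra.single g (x.coeff g) := by
  classical
  ext g
  rw [MonoidAlgebra.coeff_sum]
  simp only [MonoidAlgebra.coeff_single, Finsupp.coe_finsetSum, Finset.sum_apply]
  rw [Finset.sum_eq_single g]
  · rw [Finsupp.single_eq_same]
  · intro b _ hb
    rw [Finsupp.single_eq_of_ne (by simpa using hb.symm)]
  · intro h'
    exact absurd (Finset.mem_univ g) h'

theorem as_red_inv {l : ℕ} {s c : G} (hc : c ∈ Subgroup.zpowers s) (hcl : orderOf c = l)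
    {y : MonoidAlgebra ℤ G} (hy : MonoidAlgebra.single c 1 * y = y) : as_red l s y = 0 := by
  classical
  have hinv : ∀ g, y.coeff (c⁻¹ * g) = y.coeff g := by
    intro g
    have h := congrArg (fun z => MonoidAlgebra.coeff z g) hy
    simp only [MonoidAlgebra.coeff_single_mul_apply, one_mul] at h
    exact h
  have hinv2 : ∀ g, ∀ h ∈ Subgroup.zpowers c, y.coeff (g * h) = y.coeff g := by
    have h1 : ∀ (k : ℕ) g, y.coeff (g * c ^ k) = y.coeff g := by
      intro k
      induction k with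
      | zero => intro g; rw [pow_zero, mul_one]
      | succ k ih =>
        intro g
        rw [pow_succ, ← mul_assoc, ← hinv (g * c ^ k * c)]
        rw [show c⁻¹ * (g * c ^ k * c) = g * c ^ k by
          rw [mul_comm (g * c ^ k) c, inv_mul_cancel_left]]
        exact ih g
    intro g h hh
    obtain ⟨k, hk⟩ := (mem_powers_iff_mem_zpowers (x := c) (y := h)).2 hh
    have hk' : c ^ k = h := hk
    rw [← hk']
    exact h1 k g
  have hπ : ∀ h ∈ Subgroup.zpowers c, (QuotientGroup.mk' (Subgroup.zpowers s)) h = 1 := by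
    intro h hh
    rw [← MonoidHom.mem_ker, QuotientGroup.ker_mk']
    exact (Subgroup.zpowers_le.2 hc) hh
  rw [as_eq_sum y, map_sum]
  simp only [as_red_single]
  have : Fintype (G ⧸ Subgroup.zpowers c) := Fintype.ofFinite _
  rw [as_sum_inv (fun g => MonoidAlgebra.single (QuotientGroup.mk' (Subgroup.zpowers s) g)
    ((y.coeff g : ℤ) : ZMod l)) (Subgroup.zpowers c) (by
      intro g h hh
      rw [map_mul, hπ h hh, mul_one, hinv2 g h hh]), Nat.card_zpowers, hcl]
  have : ∀ m : MonoidAlgebra (ZMod l) (G ⧸ Subgroup.zpowers s), l • m = 0 := by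
    intro m
    rw [← Nat.cast_smul_eq_nsmul (ZMod l), ZMod.natCast_self, zero_smul]
  exact this _

/-- the kernel of the reduction -/
theorem as_ker (l : ℕ) (s : G) {x : MonoidAlgebra ℤ G} (h : as_red l s x = 0) :
    ∃ x₁ x₂ : MonoidAlgebra ℤ G, x = (l : ℤ) • x₁ + (MonoidAlgebra.single s 1 - 1) * x₂ := by
  classical
  set π : G →* G ⧸ Subgroup.zpowers s := QuotientGroup.mk' (Subgroup.zpowers s) with hπ
  -- the section
  let sec : MonoidAlgebra ℤ (G ⧸ Subgroup.zpowers s) →+ MonoidAlgebra ℤ G :=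
    AddMonoidHom.mk' (MonoidAlgebra.mapDomain (fun q : G ⧸ Subgroup.zpowers s => q.out))
      (fun x y => MonoidAlgebra.mapDomain_add _ x y)
  have hsec : ∀ q (c : ℤ), sec (MonoidAlgebra.single q c) = MonoidAlgebra.single q.out c := by
    intro q c
    exact MonoidAlgebra.mapDomain_single
  have key : ∀ x : MonoidAlgebra ℤ G, ∃ y : MonoidAlgebra ℤ G,
      x = sec (MonoidAlgebra.mapDomainRingHom ℤ π x) + (MonoidAlgebra.single s 1 - 1) * y := by
    intro x
    induction x using MonoidAlgebra.induction_on with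
    | of g =>
      have h0 : MonoidAlgebra.of ℤ G g = MonoidAlgebra.single g 1 := rfl
      obtain ⟨t, ht⟩ := QuotientGroup.mk_out_eq_mul (Subgroup.zpowers s) g
      obtain ⟨k, hk⟩ := (mem_powers_iff_mem_zpowers (x := s) (y := ((t⁻¹ : Subgroup.zpowers s) : G))).2
        (t⁻¹).2
      have hk' : s ^ k = ((t⁻¹ : Subgroup.zpowers s) : G) := hk
      have hg : g = (π g).out * s ^ k := by
        rw [hk']
        show g = (QuotientGroup.mk g : G ⧸ Subgroup.zpowers s).out * _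
        rw [ht]
        simp
      refine ⟨MonoidAlgebra.single (π g).out 1 *
        ∑ i ∈ Finset.range k, (MonoidAlgebra.single s (1 : ℤ)) ^ i, ?_⟩
      rw [h0]
      have h1 : MonoidAlgebra.mapDomainRingHom ℤ π (MonoidAlgebra.single g (1 : ℤ)) =
          MonoidAlgebra.single (π g) 1 := by simp
      rw [h1, hsec]
      have h2 : (MonoidAlgebra.single s (1 : ℤ) - 1) *
          ∑ i ∈ Finset.range k, (MonoidAlgebra.single s (1 : ℤ)) ^ i =
          MonoidAlgebra.single (s ^ k) 1 - 1 := by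
        rw [mul_geom_sum, MonoidAlgebra.single_pow, one_pow]
      rw [mul_left_comm, h2, mul_sub, MonoidAlgebra.single_mul_single, mul_one, mul_one, ← hg]
      abel
    | add a b ha hb =>
      obtain ⟨y, hy⟩ := ha
      obtain ⟨y', hy'⟩ := hb
      refine ⟨y + y', ?_⟩
      rw [map_add, map_add, mul_add]
      conv_lhs => rw [hy, hy']
      abel
    | smul c a ha =>
      obtain ⟨y, hy⟩ := ha
      refine ⟨c • y, ?_⟩
      rw [map_zsmul, map_zsmul, mul_smul_comm, ← smul_add]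
      conv_lhs => rw [hy]
  have h1 : MonoidAlgebra.mapRingHom _ (Int.castRingHom (ZMod l))
      (MonoidAlgebra.mapDomainRingHom ℤ π x) = 0 := h
  have : Fintype (G ⧸ Subgroup.zpowers s) := Fintype.ofFinite _
  obtain ⟨b, hb⟩ := al_dvd_of_red _ h1
  obtain ⟨y, hy⟩ := key x
  refine ⟨sec b, y, ?_⟩
  rw [hb, map_zsmul] at hy
  exact hy

/-- elements modulo `⟨s⟩` have representatives of order prime to `l` -/
theorem as_lift {l : ℕ} (hl : l.Prime) {s : G} (hs : SylG l s) (g : G) : ∃ g₁ : G,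
    ¬ l ∣ orderOf g₁ ∧ QuotientGroup.mk' (Subgroup.zpowers s) g₁ =
      QuotientGroup.mk' (Subgroup.zpowers s) g := by
  obtain ⟨u, w, hw, huw⟩ := Nat.exists_eq_pow_mul_and_not_dvd (orderOf_pos g).ne' l hl.ne_one
  have hw0 : 0 < w := Nat.pos_of_ne_zero fun h => hw (h ▸ dvd_zero l)
  have hco : (l ^ u).Coprime w := Nat.Coprime.pow_left u ((Nat.Prime.coprime_iff_not_dvd hl).2 hw)
  have hφ : 0 < w.totient := Nat.totient_pos.2 hw0
  refine ⟨g ^ (l ^ u) ^ w.totient, ?_, ?_⟩
  · intro hd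
    apply hw
    refine hd.trans (orderOf_dvd_of_pow_eq_one ?_)
    rw [← pow_mul]
    apply orderOf_dvd_iff_pow_eq_one.1
    rw [huw]
    exact Nat.mul_dvd_mul (dvd_pow_self _ hφ.ne') dvd_rfl
  · have h1 : (QuotientGroup.mk' (Subgroup.zpowers s) g) ^ w = 1 := by
      rw [← map_pow, ← MonoidHom.mem_ker, QuotientGroup.ker_mk']
      refine (hs _).1 ⟨u, ?_⟩
      rw [← pow_mul, mul_comm, ← huw, pow_orderOf_eq_one]
    rw [map_pow]
    have h2 : (l ^ u) ^ w.totient ≡ 1 [MOD w] := Nat.ModEq.pow_totient hco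
    have h3 := (pow_eq_pow_iff_modEq (x := QuotientGroup.mk' (Subgroup.zpowers s) g)).2
      (h2.of_dvd (orderOf_dvd_of_pow_eq_one h1))
    rw [h3, pow_one]

theorem as_cop {l : ℕ} (hl : l.Prime) {s : G} (hs : SylG l s) :
    l.Coprime (Nat.card (G ⧸ Subgroup.zpowers s)) := by
  rw [Nat.Prime.coprime_iff_not_dvd hl]
  intro hd
  have : Fact l.Prime := ⟨hl⟩
  obtain ⟨g', hg'⟩ := exists_prime_orderOf_dvd_card' (G := G ⧸ Subgroup.zpowers s) l hd
  obtain ⟨g, rfl⟩ := QuotientGroup.mk'_surjective (Subgroup.zpowers s) g'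
  have h1 : (QuotientGroup.mk' (Subgroup.zpowers s) g) ^ l = 1 := by
    rw [← hg', pow_orderOf_eq_one]
  rw [← map_pow, ← MonoidHom.mem_ker, QuotientGroup.ker_mk'] at h1
  obtain ⟨i, hi⟩ := (hs _).2 h1
  have h2 : g ∈ Subgroup.zpowers s := (hs g).1 ⟨i + 1, by rw [pow_succ', pow_mul, hi]⟩
  have h3 : QuotientGroup.mk' (Subgroup.zpowers s) g = 1 := by
    rw [← MonoidHom.mem_ker, QuotientGroup.ker_mk']
    exact h2
  rw [h3, orderOf_one] at hg'
  exact hl.one_lt.ne hg'

/-- the reduction of elements which vanish at the injective characters -/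
theorem as_theta {l : ℕ} (hl : l.Prime) {s : G} (hs : SylG l s) {θ : MonoidAlgebra ℤ G}
    (hθ : ∀ χ : G →* ℂˣ, (∃ P : Subgroup G, (Nat.card P).Prime ∧ Nat.card P ≠ l ∧ P ≤ χ.ker) →
      evZ χ θ = 0)
    {x : MonoidAlgebra ℤ G} (hx : ∀ χ : G →* ℂˣ, Function.Injective χ → evZ χ x = 0) :
    as_red l s (θ * x) = 0 := by
  obtain ⟨i, hi⟩ := (hs s).2 (Subgroup.mem_zpowers s)
  obtain ⟨j, -, hj⟩ := (Nat.dvd_prime_pow hl).1 (orderOf_dvd_of_pow_eq_one hi)
  -- a character where `θ x` does not vanish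
  have hker : ∀ χ : G →* ℂˣ, evZ χ (θ * x) ≠ 0 → ∃ P : Subgroup G, Nat.card P = l ∧
      P ≤ χ.ker := by
    intro χ hne
    rw [map_mul] at hne
    have h1 : ¬ Function.Injective χ := fun h => hne (by rw [hx χ h, mul_zero])
    rw [inj_iff] at h1
    push Not at h1
    obtain ⟨P, hP, hPk⟩ := h1
    refine ⟨P, ?_, hPk⟩
    by_contra hPl
    exact hne (by rw [hθ χ ⟨P, hP, hPl, hPk⟩, zero_mul])
  rcases Nat.eq_zero_or_pos j with hj0 | hj0
  · rw [hj0, pow_zero, orderOf_eq_one_iff] at hj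
    have h0 : θ * x = 0 := by
      apply as_evZ_inj
      intro χ
      rw [map_zero]
      by_contra hne
      obtain ⟨P, hP, -⟩ := hker χ hne
      have h1 : 1 < Nat.card P := by
        rw [hP]
        exact hl.one_lt
      have h2 : Nontrivial P := (Finite.one_lt_card_iff_nontrivial).1 h1
      obtain ⟨g, hg⟩ := exists_ne (1 : P)
      have h3 : (g : G) ^ l ^ 1 = 1 := by
        have h := pow_card_eq_one' (x := g)
        rw [hP] at h
        rw [pow_one]
        simpa [Subtype.ext_iff] using h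
      have h4 := (hs (g : G)).1 ⟨1, h3⟩
      rw [hj, Subgroup.zpowers_one_eq_bot, Subgroup.mem_bot] at h4
      exact hg (Subtype.ext h4)
    rw [h0, map_zero]
  · have hlj : l ^ (j - 1) ∣ orderOf s := by
      rw [hj]
      exact pow_dvd_pow l (Nat.sub_le _ _)
    have hc : orderOf (s ^ l ^ (j - 1)) = l := by
      rw [orderOf_pow_of_dvd (pow_pos hl.pos _).ne' hlj, hj]
      have e : l ^ j = l ^ (j - 1) * l := by rw [← pow_succ, Nat.sub_add_cancel hj0]
      rw [e, Nat.mul_div_cancel_left _ (pow_pos hl.pos _)]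
    refine as_red_inv (c := s ^ l ^ (j - 1)) (Subgroup.npow_mem_zpowers s _) hc ?_
    apply as_evZ_inj
    intro χ
    rw [map_mul, as_ev_single, Int.cast_one, one_mul]
    by_cases hne : evZ χ (θ * x) = 0
    · rw [hne, mul_zero]
    · obtain ⟨P, hP, hPk⟩ := hker χ hne
      have h1 : s ^ l ^ (j - 1) ∈ P := as_mem hl.pos hP (by
        have h2 := pow_orderOf_eq_one (s ^ l ^ (j - 1))
        rwa [hc] at h2)
      have h2 : χ (s ^ l ^ (j - 1)) = 1 := hPk h1
      rw [h2, Units.val_one, one_mul]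

theorem as_red_cpow (l : ℕ) (s : G) (n : ℕ) (a : MonoidAlgebra ℤ G) :
    as_red l s (cpow ℤ G n a) = cpow (ZMod l) (G ⧸ Subgroup.zpowers s) n (as_red l s a) := by
  induction a using MonoidAlgebra.induction_on with
  | of g =>
    have h : MonoidAlgebra.of ℤ G g = MonoidAlgebra.single g 1 := rfl
    rw [h, cpow_single, as_red_single, as_red_single, cpow_single, map_pow]
  | add a b ha hb => rw [map_add, map_add, map_add, map_add, ha, hb]
  | smul c a ha => rw [map_zsmul, map_zsmul, map_zsmul, map_zsmul, ha]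

theorem alg_step_pr {l : ℕ} (hl : l.Prime) {s : G} (hs : SylG l s) (a : MonoidAlgebra ℤ G)
    (E : Set (MulAut G)) (hE : ∀ n : ℕ, n.Coprime (Nat.card G) → ∃ (i b : ℕ), ∃ e ∈ E,
      (∀ g, e g = g ^ b) ∧ ∀ g : G, ¬ l ∣ orderOf g → g ^ (b * l ^ i) = g ^ n)
    (hrel : ∀ e ∈ E, ∃ (k : ℕ) (v : MonoidAlgebra ℤ G), ¬ l ∣ k ∧ ∀ χ : G →* ℂˣ,
      Function.Injective χ → (k : ℂ) * evZ χ a = evZ χ v * evZ (χ.comp e.toMonoidHom) a)
    (hN : ∃ t : ℤ, pI (fun χ => evZ χ a) = l * t) {ϖ : MonoidAlgebra ℤ G}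
    (hϖ : (s = 1 ∧ ϖ = MonoidAlgebra.single 1 (l : ℤ)) ∨
      (s ≠ 1 ∧ ϖ = MonoidAlgebra.single s 1 - 1)) :
    ∃ (k : ℕ) (z : MonoidAlgebra ℤ G), ¬ l ∣ k ∧ ∀ χ : G →* ℂˣ, Function.Injective χ →
      (k : ℂ) * evZ χ a = evZ χ ϖ * evZ χ z := by
  classical
  have hl' : Fact l.Prime := ⟨hl⟩
  obtain ⟨m, θ, hm, hθ1, hθ0⟩ := th_exists (G := G) hl
  have : NeZero (Nat.card G) := ⟨Nat.card_pos.ne'⟩
  have : Fintype (G ⧸ Subgroup.zpowers s) := Fintype.ofFinite _
  obtain ⟨t, ht⟩ := hN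
  have hco : ∀ u : (ZMod (Nat.card G))ˣ, (u : ZMod (Nat.card G)).val.Coprime (Nat.card G) :=
    fun u => ZMod.val_coe_unit_coprime u
  choose i b e he heb hg using fun u : (ZMod (Nat.card G))ˣ => hE _ (hco u)
  choose k v hk hv using fun u : (ZMod (Nat.card G))ˣ => hrel (e u) (he u)
  -- the norm
  have hN' : ∀ χ : G →* ℂˣ, Function.Injective χ →
      evZ χ (∏ u : (ZMod (Nat.card G))ˣ, cpow ℤ G (u : ZMod (Nat.card G)).val a) = l * t := by
    intro χ hχ
    rw [map_prod, ← ht, as_pI hχ]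
    exact Finset.prod_congr rfl fun u _ => as_ev_map _ χ a
  have h1 : as_red l s θ * as_red l s (∏ u : (ZMod (Nat.card G))ˣ,
      cpow ℤ G (u : ZMod (Nat.card G)).val a) = 0 := by
    have h2 := as_theta hl hs hθ0 (x := (∏ u : (ZMod (Nat.card G))ˣ,
      cpow ℤ G (u : ZMod (Nat.card G)).val a) - ((l * t : ℤ) : MonoidAlgebra ℤ G)) (by
        intro χ hχ
        rw [map_sub, hN' χ hχ, map_intCast]
        push_cast
        ring)
    rw [map_mul, map_sub, map_intCast, mul_sub, sub_eq_zero] at h2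
    rw [h2]
    push_cast
    have h3 : ((l : ℕ) : MonoidAlgebra (ZMod l) (G ⧸ Subgroup.zpowers s)) = 0 := by
      rw [← map_natCast (algebraMap (ZMod l) (MonoidAlgebra (ZMod l) (G ⧸ Subgroup.zpowers s))),
        ZMod.natCast_self, map_zero]
    rw [h3, zero_mul, mul_zero]
  -- the relations
  have h2 : ∀ u : (ZMod (Nat.card G))ˣ, (k u : MonoidAlgebra (ZMod l) (G ⧸ Subgroup.zpowers s)) *
      (as_red l s θ * as_red l s a) = as_red l s θ * as_red l s (v u) *
        cpow (ZMod l) (G ⧸ Subgroup.zpowers s) (b u) (as_red l s a) := by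
    intro u
    have h3 := as_theta hl hs hθ0 (x := (k u : MonoidAlgebra ℤ G) * a - v u * cpow ℤ G (b u) a) (by
        intro χ hχ
        rw [map_sub, map_mul, map_mul, map_natCast, hv u χ hχ, as_ev_map]
        have h4 : χ.comp (powMonoidHom (b u)) = χ.comp (e u).toMonoidHom := by
          ext g
          show ((χ (g ^ b u) : ℂˣ) : ℂ) = ((χ (e u g) : ℂˣ) : ℂ)
          rw [heb u g]
        rw [h4, sub_self])
    rw [map_mul, map_sub, map_mul, map_mul, map_natCast, as_red_cpow, mul_sub, sub_eq_zero] at h3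
    calc (k u : MonoidAlgebra (ZMod l) (G ⧸ Subgroup.zpowers s)) *
        (as_red l s θ * as_red l s a) = as_red l s θ * ((k u : MonoidAlgebra (ZMod l)
          (G ⧸ Subgroup.zpowers s)) * as_red l s a) := by ring
      _ = _ := by rw [h3]; ring
  have h3 : ∀ u : (ZMod (Nat.card G))ˣ,
      ((k u : MonoidAlgebra (ZMod l) (G ⧸ Subgroup.zpowers s)) *
      (as_red l s θ * as_red l s a)) ^ l ^ i u =
      (as_red l s θ * as_red l s (v u)) ^ l ^ i u *
        as_red l s (cpow ℤ G (u : ZMod (Nat.card G)).val a) := by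
    intro u
    rw [h2, mul_pow, al_frob_pow hl (i u) (cpow _ _ (b u) (as_red l s a)), cpow_cpow,
      as_red_cpow]
    congr 1
    have h4 : (powMonoidHom (b u * l ^ i u) : (G ⧸ Subgroup.zpowers s) →* _) =
        powMonoidHom (u : ZMod (Nat.card G)).val := by
      refine MonoidHom.ext fun g' => ?_
      obtain ⟨g, rfl⟩ := QuotientGroup.mk'_surjective (Subgroup.zpowers s) g'
      obtain ⟨g₁, hg₁, he₁⟩ := as_lift hl hs g
      show (QuotientGroup.mk' (Subgroup.zpowers s) g) ^ (b u * l ^ i u) =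
        (QuotientGroup.mk' (Subgroup.zpowers s) g) ^ (u : ZMod (Nat.card G)).val
      rw [← he₁, ← map_pow, ← map_pow, hg u g₁ hg₁]
    rw [AU.cpow, AU.cpow, h4]
  have h4 : ∏ u : (ZMod (Nat.card G))ˣ,
      ((k u : MonoidAlgebra (ZMod l) (G ⧸ Subgroup.zpowers s)) *
      (as_red l s θ * as_red l s a)) ^ l ^ i u = 0 := by
    rw [Finset.prod_congr rfl fun u _ => h3 u, Finset.prod_mul_distrib, ← map_prod]
    have h5 : as_red l s θ ∣ ∏ u : (ZMod (Nat.card G))ˣ,
        (as_red l s θ * as_red l s (v u)) ^ l ^ i u :=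
      ((Dvd.intro _ rfl : as_red l s θ ∣ as_red l s θ * as_red l s (v 1)).trans
        (dvd_pow_self _ (pow_pos hl.pos _).ne')).trans
        (Finset.dvd_prod_of_mem (fun u => (as_red l s θ * as_red l s (v u)) ^ l ^ i u)
          (Finset.mem_univ (1 : (ZMod (Nat.card G))ˣ)))
    obtain ⟨w, hw⟩ := h5
    rw [hw, mul_right_comm, h1, zero_mul]
  have h5 : as_red l s (θ * a) = 0 := by
    rw [map_mul]
    set z := as_red l s θ * as_red l s a with hz
    rw [Finset.prod_congr rfl fun u _ => mul_pow _ _ _, Finset.prod_mul_distrib,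
      Finset.prod_pow_eq_pow_sum] at h4
    have h6 : (∏ u : (ZMod (Nat.card G))ˣ,
        (k u : MonoidAlgebra (ZMod l) (G ⧸ Subgroup.zpowers s)) ^ l ^ i u) =
        ((∏ u : (ZMod (Nat.card G))ˣ, k u ^ l ^ i u : ℕ) :
          MonoidAlgebra (ZMod l) (G ⧸ Subgroup.zpowers s)) := by
      push_cast
      rfl
    have h7 : ¬ l ∣ ∏ u : (ZMod (Nat.card G))ˣ, k u ^ l ^ i u := by
      rw [Prime.dvd_finsetProd_iff hl.prime]
      rintro ⟨u, -, hu⟩
      exact hk u (hl.dvd_of_dvd_pow hu)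
    have h8 : IsUnit ((∏ u : (ZMod (Nat.card G))ˣ, k u ^ l ^ i u : ℕ) :
          MonoidAlgebra (ZMod l) (G ⧸ Subgroup.zpowers s)) := by
      rw [← map_natCast (algebraMap (ZMod l) (MonoidAlgebra (ZMod l) (G ⧸ Subgroup.zpowers s)))]
      refine IsUnit.map _ (isUnit_iff_ne_zero.2 fun h => h7 ?_)
      exact (ZMod.natCast_eq_zero_iff _ _).1 h
    rw [h6, h8.mul_right_eq_zero] at h4
    exact al_red hl (as_cop hl hs) h4
  obtain ⟨x₁, x₂, hx⟩ := as_ker l s h5
  have h6 : ∀ χ : G →* ℂˣ, Function.Injective χ → (m : ℂ) * evZ χ a =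
      l * evZ χ x₁ + (((χ s : ℂˣ) : ℂ) - 1) * evZ χ x₂ := by
    intro χ hχ
    have h7 := congrArg (evZ χ) hx
    rw [map_mul, hθ1 χ (fun P hP _ => (inj_iff χ).1 hχ P hP), map_add, map_zsmul, map_mul,
      map_sub, map_one, as_ev_single] at h7
    rw [h7]
    simp
  rcases hϖ with ⟨hs1, rfl⟩ | ⟨hs1, rfl⟩
  · refine ⟨m, x₁, hm, fun χ hχ => ?_⟩
    rw [h6 χ hχ, hs1, as_ev_single, map_one]
    simp
  · obtain ⟨i', hi'⟩ := (hs s).2 (Subgroup.mem_zpowers s)
    obtain ⟨j, -, hj⟩ := (Nat.dvd_prime_pow hl).1 (orderOf_dvd_of_pow_eq_one hi')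
    have hj0 : 0 < j := by
      rcases Nat.eq_zero_or_pos j with h | h
      · rw [h, pow_zero, orderOf_eq_one_iff] at hj
        exact absurd hj hs1
      · exact h
    obtain ⟨v₁, v₂, hv12⟩ := unit_p hl hs hj0 hj
    have hw : 0 < l ^ (j - 1) * (l - 1) :=
      Nat.mul_pos (pow_pos hl.pos _) (Nat.sub_pos_of_lt hl.one_lt)
    obtain ⟨w, hw'⟩ := Nat.exists_eq_succ_of_ne_zero hw.ne'
    refine ⟨m, (MonoidAlgebra.single s 1 - 1) ^ w * v₂ * x₁ + x₂, hm, fun χ hχ => ?_⟩
    rw [h6 χ hχ, map_add, map_mul, map_mul, map_pow, map_sub, map_one, as_ev_single,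
      Int.cast_one, one_mul]
    have h7 := (hv12 χ hχ).2
    rw [hw', pow_succ] at h7
    conv_lhs => rw [h7]
    ring

end AS

end Pool.Agent.CR

namespace Pool.Agent.CR
open Pool.Agent.RSK Pool.Agent.RS2 Pool.Agent.SY
open Filter Topology Complex

section
variable {G : Type} [CommGroup G] [Fintype G] [IsCyclic G]

theorem alg_step {l : ℕ} (hl : l.Prime) {s : G} (hs : SylG l s) (a : MonoidAlgebra ℤ G)
    (E : Set (MulAut G)) (hE : ∀ n : ℕ, n.Coprime (Nat.card G) → ∃ (i b : ℕ), ∃ e ∈ E,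
      (∀ g, e g = g ^ b) ∧ ∀ g : G, ¬ l ∣ orderOf g → g ^ (b * l ^ i) = g ^ n)
    (hrel : ∀ e ∈ E, ∃ (k : ℕ) (v : MonoidAlgebra ℤ G), ¬ l ∣ k ∧ ∀ χ : G →* ℂˣ,
      Function.Injective χ → (k : ℂ) * evZ χ a = evZ χ v * evZ (χ.comp e.toMonoidHom) a)
    (hN : ∃ t : ℤ, pI (fun χ => evZ χ a) = l * t) {ϖ : MonoidAlgebra ℤ G}
    (hϖ : (s = 1 ∧ ϖ = MonoidAlgebra.single 1 (l : ℤ)) ∨
      (s ≠ 1 ∧ ϖ = MonoidAlgebra.single s 1 - 1)) :
    ∃ (k : ℕ) (z : MonoidAlgebra ℤ G), ¬ l ∣ k ∧ ∀ χ : G →* ℂˣ, Function.Injective χ →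
      (k : ℂ) * evZ χ a = evZ χ ϖ * evZ χ z :=
  @Pool.Agent.CR.alg_step_pr G _ _ _ l hl s hs a E hE hrel hN ϖ hϖ

end

end Pool.Agent.CR
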