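import Pool.Agent.Lib_helper17.CRF.D_WB
import Pool.Agent.Lib_helper3.AU.AL
import Pool.Agent.Lib_helper17.CRF.B_PI
import Pool.Agent.Lib_helper17.CRF.B_AS
import Pool.Agent.Lib_helper17.CRF.B_AV

/-!
# Composite Rubin, block AM: from the norm to divisibility
-/

set_option autoImplicit false
set_option linter.unusedSectionVars false

namespace Pool.Agent.CR

open Pool.Agent.RSK Pool.Agent.RS2 Pool.Agent.SY Pool.Agent.AU
open Filter Topology Complex

section AM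

variable {G : Type} [CommGroup G] [Fintype G] [IsCyclic G]

omit [IsCyclic G] in
theorem am_ev_single (χ : G →* ℂˣ) (g : G) (c : ℤ) :
    evZ χ (MonoidAlgebra.single g c) = (c : ℂ) * ((χ g : ℂˣ) : ℂ) := by
  show evQ χ (toQ G (MonoidAlgebra.single g c)) = _
  have : toQ G (MonoidAlgebra.single g (c : ℤ)) = MonoidAlgebra.single g (c : ℚ) := by
    simp [toQ]
  rw [this, px2_evQ_single]
  simp

theorem am_cop {l : ℕ} (hl : l.Prime) {s : G} (hs : SylG l s) :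
    ¬ l ∣ Nat.card (G ⧸ Subgroup.zpowers s) := by
  intro hd
  have : Fact l.Prime := ⟨hl⟩
  obtain ⟨g', hg'⟩ := exists_prime_orderOf_dvd_card' (G := G ⧸ Subgroup.zpowers s) l hd
  obtain ⟨g, rfl⟩ := QuotientGroup.mk'_surjective (Subgroup.zpowers s) g'
  have h1 : (QuotientGroup.mk' (Subgroup.zpowers s) g) ^ l = 1 := by
    rw [← hg', pow_orderOf_eq_one]
  rw [← map_pow, ← MonoidHom.mem_ker, QuotientGroup.ker_mk'] at h1
  obtain ⟨i, hi⟩ := (hs _).2 h1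
  have h2 : g ∈ Subgroup.zpowers s := (hs g).1 ⟨i + 1, by rw [pow_succ', pow_mul, hi]⟩
  have h3 : QuotientGroup.mk' (Subgroup.zpowers s) g = 1 := by
    rw [← MonoidHom.mem_ker, QuotientGroup.ker_mk']
    exact h2
  rw [h3, orderOf_one] at hg'
  exact hl.one_lt.ne hg'

/-- the `l`-part of the order of the group -/
theorem am_fact {l : ℕ} (hl : l.Prime) {s : G} (hs : SylG l s) {j : ℕ} (hj : orderOf s = l ^ j) :
    (Nat.card G).factorization l = j ∧
      Nat.card G = l ^ j * (Nat.card G / l ^ (Nat.card G).factorization l) ∧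
      ¬ l ∣ Nat.card G / l ^ (Nat.card G).factorization l := by
  have h1 : Nat.card G = l ^ j * Nat.card (G ⧸ Subgroup.zpowers s) := by
    rw [Subgroup.card_eq_card_quotient_mul_card_subgroup (Subgroup.zpowers s), Nat.card_zpowers, hj,
      mul_comm]
  have h2 : Nat.card (G ⧸ Subgroup.zpowers s) ≠ 0 := Nat.card_pos.ne'
  have h3 : (Nat.card G).factorization l = j := by
    rw [h1, Nat.factorization_mul (pow_pos hl.pos _).ne' h2, Finsupp.add_apply,
      hl.factorization_pow, Finsupp.single_eq_same,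
      Nat.factorization_eq_zero_of_not_dvd (am_cop hl hs), add_zero]
  have h4 : Nat.card G / l ^ (Nat.card G).factorization l = Nat.card (G ⧸ Subgroup.zpowers s) := by
    rw [h3, h1, Nat.mul_div_cancel_left _ (pow_pos hl.pos _)]
  exact ⟨h3, by rw [h4]; exact h1, by rw [h4]; exact am_cop hl hs⟩

omit [IsCyclic G] in
/-- a common denominator -/
theorem am_den (y : MonoidAlgebra ℚ G) : ∃ (N : ℕ) (a : MonoidAlgebra ℤ G), 0 < N ∧
    ∀ χ : G →* ℂˣ, (N : ℂ) * evQ χ y = evZ χ a := by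
  classical
  have h : ∃ (N : ℕ) (a : MonoidAlgebra ℤ G), 0 < N ∧
      MonoidAlgebra.single 1 (N : ℚ) * y = toQ G a := by
    refine ⟨∏ g : G, (y.coeff g).den, ∑ g : G, MonoidAlgebra.single g
      ((y.coeff g).num * ∏ g' ∈ Finset.univ.erase g, ((y.coeff g').den : ℤ)),
      Finset.prod_pos fun g _ => (y.coeff g).pos, ?_⟩
    ext g
    rw [MonoidAlgebra.coeff_single_mul_apply, toQ, MonoidAlgebra.coeff_mapRingHom,
      MonoidAlgebra.coeff_sum]
    simp only [MonoidAlgebra.coeff_single, Finsupp.coe_finsetSum, Finset.sum_apply]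
    rw [Finset.sum_eq_single g]
    · rw [Finsupp.single_eq_same, inv_one, one_mul, ← Finset.mul_prod_erase _ _ (Finset.mem_univ g)]
      push_cast
      have := Rat.den_mul_eq_num (y.coeff g)
      simp only [eq_intCast, Int.cast_mul, Int.cast_prod, Int.cast_natCast]
      rw [← this]
      ring
    · intro b _ hb
      rw [Finsupp.single_eq_of_ne (by simpa using hb.symm)]
    · intro h'
      exact absurd (Finset.mem_univ g) h'
  obtain ⟨N, a, hN, ha⟩ := h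
  refine ⟨N, a, hN, fun χ => ?_⟩
  rw [← al_evZ, ← ha, map_mul, px2_evQ_single, map_one]
  simp

omit [Fintype G] [IsCyclic G] in
theorem am_comp_inj {χ : G →* ℂˣ} (hχ : Function.Injective χ) (e : MulAut G) :
    Function.Injective (χ.comp e.toMonoidHom) := by
  intro g g' h
  exact e.injective (hχ h)

/-- if `l` does not divide `k` and `k z = l t`, then the integer `z` is a multiple of `l` -/
theorem am_int {l : ℕ} (hl : l.Prime) {k : ℕ} (hk : ¬ l ∣ k) {T t : ℤ}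
    (h : (k : ℤ) * T = l * t) : ∃ t' : ℤ, T = l * t' := by
  have h1 : (l : ℤ) ∣ k * T := ⟨t, h⟩
  have h2 : ¬ (l : ℤ) ∣ (k : ℤ) := fun h3 => hk (Int.natCast_dvd_natCast.1 h3)
  exact ((Nat.prime_iff_prime_int.1 hl).dvd_or_dvd h1).resolve_left h2

theorem am_zero {l : ℕ} (hl : l.Prime) {s : G} (hs : SylG l s) (hs1 : s = 1)
    (y : MonoidAlgebra ℚ G)
    (E : Set (MulAut G)) (hE : ∀ n : ℕ, n.Coprime (Nat.card G) → ∃ (i b : ℕ), ∃ e ∈ E,
      (∀ g, e g = g ^ b) ∧ ∀ g : G, ¬ l ∣ orderOf g → g ^ (b * l ^ i) = g ^ n)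
    (hrel : ∀ e ∈ E, ∃ (k : ℕ) (v : MonoidAlgebra ℤ G), ¬ l ∣ k ∧ ∀ χ : G →* ℂˣ,
      Function.Injective χ → (k : ℂ) * evQ χ y = evZ χ v * evQ (χ.comp e.toMonoidHom) y)
    {k₀ : ℕ} {t₀ : ℤ} (hk₀ : ¬ l ∣ k₀) (hN : (k₀ : ℂ) * pI (fun χ => evQ χ y) = t₀) (v : ℕ) :
    ∀ (m : ℕ) (a : MonoidAlgebra ℤ G), ¬ l ∣ m →
      (∀ χ : G →* ℂˣ, Function.Injective χ → ((l ^ v * m : ℕ) : ℂ) * evQ χ y = evZ χ a) →
      ∃ (m : ℕ) (a : MonoidAlgebra ℤ G), ¬ l ∣ m ∧
        ∀ χ : G →* ℂˣ, Function.Injective χ → (m : ℂ) * evQ χ y = evZ χ a := by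
  induction v with
  | zero =>
    intro m a hm h
    refine ⟨m, a, hm, fun χ hχ => ?_⟩
    rw [← h χ hχ, pow_zero, one_mul]
  | succ v ih =>
    intro m a hm h
    have hl0 : (l : ℂ) ≠ 0 := Nat.cast_ne_zero.2 hl.pos.ne'
    obtain ⟨T, hT⟩ := pI_int a
    obtain ⟨f, hf⟩ : ∃ f : ℕ, (Nat.card G).totient = f + 1 :=
      ⟨_, (Nat.succ_pred_eq_of_pos (Nat.totient_pos.2 Nat.card_pos)).symm⟩
    have hT' : ∃ t' : ℤ, T = l * t' := by
      refine am_int hl hk₀ (t := (l ^ v * m : ℤ) * (l ^ (v + 1) * m : ℤ) ^ f * t₀) ?_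
      have h1 : pI (fun χ => evZ χ a) = ((l ^ (v + 1) * m : ℕ) : ℂ) ^ (f + 1) *
          pI (fun χ => evQ χ y) := by
        rw [← hf, ← pI_const, ← pI_mul]
        exact pI_congr fun χ hχ => (h χ hχ).symm
      rw [hT] at h1
      have h2 : (k₀ : ℂ) * (T : ℂ) = ((l ^ (v + 1) * m : ℕ) : ℂ) ^ (f + 1) * t₀ := by
        rw [h1, ← hN]
        ring
      have h3 : (k₀ : ℤ) * T = ((l ^ (v + 1) * m : ℕ) : ℤ) ^ (f + 1) * t₀ := by exact_mod_cast h2
      rw [h3]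
      push_cast
      ring
    obtain ⟨t', ht'⟩ := hT'
    obtain ⟨k, z, hk, hz⟩ := alg_step hl hs a E hE (by
      intro e he
      obtain ⟨k, w, hk, hw⟩ := hrel e he
      refine ⟨k, w, hk, fun χ hχ => ?_⟩
      rw [← h χ hχ, ← h _ (am_comp_inj hχ e)]
      calc (k : ℂ) * (((l ^ (v + 1) * m : ℕ) : ℂ) * evQ χ y) =
            ((l ^ (v + 1) * m : ℕ) : ℂ) * ((k : ℂ) * evQ χ y) := by ring
        _ = _ := by
          rw [hw χ hχ]
          ring) ⟨t', by rw [hT, ht']; push_cast; rfl⟩ (Or.inl ⟨hs1, rfl⟩)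
    refine ih (m * k) z (hl.prime.not_dvd_mul hm hk) fun χ hχ => ?_
    have h4 := hz χ hχ
    rw [← h χ hχ, am_ev_single, map_one, Units.val_one, mul_one] at h4
    apply mul_left_cancel₀ hl0
    push_cast at h4 ⊢
    rw [← h4]
    ring

/-- the relation of the quotient -/
theorem am_rel {m k L Y A Le Ye Ae V C1 C2 : ℂ} {u M' : ℕ} (hL : L ≠ 0)
    (h1 : m * L ^ u * Y = L ^ M' * A) (h2 : m * Le ^ u * Ye = Le ^ M' * Ae) (h3 : k * Y = V * Ye)
    (h4 : C2 * L = Le) (h5 : C1 * Le = L) : k * A = V * C1 ^ u * C2 ^ M' * Ae := by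
  apply mul_left_cancel₀ (pow_ne_zero M' hL)
  calc L ^ M' * (k * A) = k * (m * L ^ u * Y) := by rw [h1]; ring
    _ = m * L ^ u * (k * Y) := by ring
    _ = V * (m * (C1 * Le) ^ u * Ye) := by rw [h3, h5]; ring
    _ = V * C1 ^ u * (m * Le ^ u * Ye) := by rw [mul_pow]; ring
    _ = V * C1 ^ u * ((C2 * L) ^ M' * Ae) := by rw [h2, h4]
    _ = _ := by rw [mul_pow]; ring

/-- the powers of `l` in the norms -/
theorem am_norm {l : ℕ} (hl : l.Prime) {k₀ m : ℕ} (hk₀ : ¬ l ∣ k₀) {φ φ' u M M' : ℕ}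
    (hφ' : 0 < φ') {L T t₀ : ℤ} (hL : L.natAbs = l ^ φ') (hM : M' < u + M)
    (h : (m : ℤ) ^ φ * L ^ u * ((l : ℤ) ^ (φ' * M) * t₀) = k₀ * (L ^ M' * T)) :
    ∃ t' : ℤ, T = l * t' := by
  obtain ⟨r, hr⟩ : ∃ r, u + M = M' + (r + 1) := ⟨u + M - M' - 1, by omega⟩
  obtain ⟨f, hf⟩ : ∃ f, φ' = f + 1 := ⟨φ' - 1, by omega⟩
  set q : ℤ := (l : ℤ) ^ φ' with hq
  have hq0 : q ≠ 0 := pow_ne_zero _ (Int.natCast_ne_zero.2 hl.pos.ne')
  obtain ⟨ε, hε, hLε⟩ : ∃ ε : ℤ, ε * ε = 1 ∧ L = ε * q := by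
    rcases Int.natAbs_eq L with h1 | h1
    · refine ⟨1, one_mul 1, ?_⟩
      rw [h1, hL, one_mul, hq]
      push_cast
      rfl
    · refine ⟨-1, by ring, ?_⟩
      rw [h1, hL, hq]
      push_cast
      ring
  have hεn : ∀ n : ℕ, ε ^ n * ε ^ n = 1 := fun n => by rw [← mul_pow, hε, one_pow]
  have h2 : q ^ M' * ((m : ℤ) ^ φ * ε ^ u * q ^ (r + 1) * t₀) = q ^ M' * (k₀ * ε ^ M' * T) := by
    have e1 : (l : ℤ) ^ (φ' * M) = q ^ M := by rw [hq, pow_mul]
    rw [e1, hLε, mul_pow, mul_pow] at h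
    calc q ^ M' * ((m : ℤ) ^ φ * ε ^ u * q ^ (r + 1) * t₀) =
          (m : ℤ) ^ φ * ε ^ u * q ^ (M' + (r + 1)) * t₀ := by rw [pow_add]; ring
      _ = (m : ℤ) ^ φ * (ε ^ u * q ^ u) * (q ^ M * t₀) := by rw [← hr, pow_add]; ring
      _ = _ := by rw [h]; ring
  have h3 := mul_left_cancel₀ (pow_ne_zero _ hq0) h2
  refine am_int hl hk₀ (t := ε ^ M' * ((m : ℤ) ^ φ * ε ^ u * q ^ r * (l : ℤ) ^ f * t₀)) ?_
  calc (k₀ : ℤ) * T = (ε ^ M' * ε ^ M') * (k₀ * T) := by rw [hεn, one_mul]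
    _ = ε ^ M' * (k₀ * ε ^ M' * T) := by ring
    _ = ε ^ M' * ((m : ℤ) ^ φ * ε ^ u * q ^ (r + 1) * t₀) := by rw [h3]
    _ = _ := by
      rw [pow_succ q, show q = (l : ℤ) ^ f * l by rw [hq, hf, pow_succ]]
      ring

theorem alg_main_pr {l : ℕ} (hl : l.Prime) {s : G} (hs : SylG l s) (y : MonoidAlgebra ℚ G)
    (E : Set (MulAut G)) (hE : ∀ n : ℕ, n.Coprime (Nat.card G) → ∃ (i b : ℕ), ∃ e ∈ E,
      (∀ g, e g = g ^ b) ∧ ∀ g : G, ¬ l ∣ orderOf g → g ^ (b * l ^ i) = g ^ n)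
    (hrel : ∀ e ∈ E, ∃ (k : ℕ) (v : MonoidAlgebra ℤ G), ¬ l ∣ k ∧ ∀ χ : G →* ℂˣ,
      Function.Injective χ → (k : ℂ) * evQ χ y = evZ χ v * evQ (χ.comp e.toMonoidHom) y)
    {M : ℕ} (hM : s = 1 → M = 0)
    (hN : ∃ (k : ℕ) (t : ℤ), ¬ l ∣ k ∧ (k : ℂ) * pI (fun χ => evQ χ y) =
      (l : ℂ) ^ ((Nat.card G / l ^ (Nat.card G).factorization l).totient * M) * t) :
    LDiv l M s y := by
  obtain ⟨k₀, t₀, hk₀, hN⟩ := hN
  obtain ⟨N, a₀, hN0, ha₀⟩ := am_den y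
  obtain ⟨v, m₀, hm₀, hvm⟩ := Nat.exists_eq_pow_mul_and_not_dvd hN0.ne' l hl.ne_one
  by_cases hs1 : s = 1
  · rw [hM hs1, mul_zero, pow_zero, one_mul] at hN
    obtain ⟨m, a, hm, ha⟩ := am_zero hl hs hs1 y E hE hrel hk₀ hN v m₀ a₀ hm₀
      (fun χ _ => by rw [← hvm]; exact ha₀ χ)
    refine ⟨m, a, hm, fun χ hχ => ?_⟩
    rw [ha χ hχ, hM hs1, pow_zero, one_mul]
  obtain ⟨i', hi'⟩ := (hs s).2 (Subgroup.mem_zpowers s)
  obtain ⟨j, -, hj⟩ := (Nat.dvd_prime_pow hl).1 (orderOf_dvd_of_pow_eq_one hi')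
  have hj0 : 0 < j := by
    rcases Nat.eq_zero_or_pos j with h | h
    · rw [h, pow_zero, orderOf_eq_one_iff] at hj
      exact absurd hj hs1
    · exact h
  obtain ⟨v₁, v₂, hv12⟩ := unit_p hl hs hj0 hj
  obtain ⟨-, hcard, hd'⟩ := am_fact hl hs hj
  set d' : ℕ := Nat.card G / l ^ (Nat.card G).factorization l with hd'def
  set w : ℕ := l ^ (j - 1) * (l - 1) with hw
  have hw0 : 0 < w := Nat.mul_pos (pow_pos hl.pos _) (Nat.sub_pos_of_lt hl.one_lt)
  have hd'0 : 0 < d' := Nat.pos_of_ne_zero fun h => hd' (h ▸ dvd_zero l)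
  have hφ' : 0 < d'.totient := Nat.totient_pos.2 hd'0
  have hφ : (Nat.card G).totient = w * d'.totient := by
    rw [hcard, Nat.totient_mul (Nat.Coprime.pow_left j ((Nat.Prime.coprime_iff_not_dvd hl).2 hd')),
      Nat.totient_prime_pow hl hj0]
  have hl0 : (l : ℂ) ≠ 0 := Nat.cast_ne_zero.2 hl.pos.ne'
  set lam : MonoidAlgebra ℤ G := MonoidAlgebra.single s 1 - 1 with hlam
  have hlamev : ∀ χ : G →* ℂˣ, evZ χ lam = ((χ s : ℂˣ) : ℂ) - 1 := by
    intro χ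
    rw [hlam, map_sub, map_one, am_ev_single, Int.cast_one, one_mul]
  have hlam0 : ∀ χ : G →* ℂˣ, Function.Injective χ → evZ χ lam ≠ 0 := by
    intro χ hχ h
    rw [hlamev, sub_eq_zero] at h
    have h1 : χ s = 1 := Units.ext h
    exact hs1 (hχ (by rw [h1, map_one]))
  -- the norm of `χ(s) - 1`
  obtain ⟨L, hL⟩ := pI_int lam
  obtain ⟨V₁, hV₁⟩ := pI_int v₁
  obtain ⟨V₂, hV₂⟩ := pI_int v₂
  have hVV : V₁ * V₂ = 1 := by
    have h1 : pI (fun χ => evZ χ v₁ * evZ χ v₂) = pI (fun _ : G →* ℂˣ => (1 : ℂ)) := by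
      refine pI_congr fun χ hχ => ?_
      have h2 := (hv12 χ hχ).1
      have h3 := (hv12 χ hχ).2
      rw [h2] at h3
      apply mul_left_cancel₀ hl0
      rw [mul_one, ← mul_assoc]
      exact h3.symm
    rw [pI_mul, pI_const, one_pow, hV₁, hV₂] at h1
    exact_mod_cast h1
  have hLabs : L.natAbs = l ^ d'.totient := by
    have h1 : pI (fun χ => evZ χ lam ^ w) = pI (fun χ => (l : ℂ) * evZ χ v₁) :=
      pI_congr fun χ hχ => by
        rw [hlamev]
        exact (hv12 χ hχ).1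
    rw [pI_pow, pI_mul, pI_const, hL, hV₁, hφ] at h1
    have h2 : L ^ w = (l : ℤ) ^ (w * d'.totient) * V₁ := by exact_mod_cast h1
    have h3 : V₁.natAbs = 1 := Int.isUnit_iff_natAbs_eq.1 (IsUnit.of_mul_eq_one V₂ hVV)
    have h4 : L.natAbs ^ w = (l ^ d'.totient) ^ w := by
      rw [← Int.natAbs_pow, h2, Int.natAbs_mul, h3, mul_one, Int.natAbs_pow, Int.natAbs_natCast,
        ← pow_mul, mul_comm]
    exact Nat.pow_left_injective hw0.ne' h4
  -- the induction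
  set u : ℕ := w * v with hu
  have key : ∀ M' : ℕ, M' ≤ u + M → ∃ (m : ℕ) (a : MonoidAlgebra ℤ G), ¬ l ∣ m ∧
      ∀ χ : G →* ℂˣ, Function.Injective χ →
        (m : ℂ) * evZ χ lam ^ u * evQ χ y = evZ χ lam ^ M' * evZ χ a := by
    intro M'
    induction M' with
    | zero =>
      intro _
      refine ⟨m₀, v₁ ^ v * a₀, hm₀, fun χ hχ => ?_⟩
      have h1 := (hv12 χ hχ).1
      rw [← hlamev] at h1
      rw [hu, pow_mul, h1, pow_zero, one_mul, map_mul, map_pow, ← ha₀ χ, hvm]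
      push_cast
      ring
    | succ M' ih =>
      intro hM'
      obtain ⟨m, a, hm, ha⟩ := ih (by omega)
      obtain ⟨T, hT⟩ := pI_int a
      have hT' : ∃ t' : ℤ, T = l * t' := by
        refine am_norm hl hk₀ (m := m) (φ := (Nat.card G).totient) hφ' hLabs
          (show M' < u + M by omega) (t₀ := t₀) ?_
        have h1 : pI (fun χ => (m : ℂ) * evZ χ lam ^ u * evQ χ y) =
            pI (fun χ => evZ χ lam ^ M' * evZ χ a) := pI_congr ha
        rw [pI_mul, pI_mul, pI_const, pI_pow, pI_mul, pI_pow, hL, hT] at h1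
        have h2 : ((m : ℂ) ^ (Nat.card G).totient * (L : ℂ) ^ u) *
            ((l : ℂ) ^ (d'.totient * M) * t₀) = k₀ * ((L : ℂ) ^ M' * T) := by
          rw [← hN, ← h1]
          ring
        exact_mod_cast h2
      obtain ⟨t', ht'⟩ := hT'
      obtain ⟨k, z, hk, hz⟩ := alg_step hl hs a E hE (by
        intro e he
        obtain ⟨k, x, hk, hx⟩ := hrel e he
        have hes : e s ∈ Subgroup.zpowers s := by
          refine (hs _).1 ⟨i', ?_⟩
          rw [← map_pow, hi', map_one]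
        obtain ⟨b, hb⟩ := (mem_powers_iff_mem_zpowers (x := s) (y := e s)).2 hes
        have hb' : s ^ b = e s := hb
        have hes' : e.symm s ∈ Subgroup.zpowers s := by
          refine (hs _).1 ⟨i', ?_⟩
          rw [← map_pow, hi', map_one]
        obtain ⟨b', hb2⟩ := (mem_powers_iff_mem_zpowers (x := s) (y := e.symm s)).2 hes'
        have hb2' : s ^ b' = e.symm s := hb2
        have hb3 : (e s) ^ b' = s := by
          rw [← map_pow, hb2']
          exact e.apply_symm_apply s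
        refine ⟨k, x * (∑ i ∈ Finset.range b', (MonoidAlgebra.single (e s) (1 : ℤ)) ^ i) ^ u *
          (∑ i ∈ Finset.range b, (MonoidAlgebra.single s (1 : ℤ)) ^ i) ^ M', hk, fun χ hχ => ?_⟩
        have hχe := am_comp_inj hχ e
        rw [map_mul, map_mul, map_pow, map_pow]
        have hlame : evZ (χ.comp e.toMonoidHom) lam = ((χ (e s) : ℂˣ) : ℂ) - 1 := hlamev _
        refine am_rel (hlam0 χ hχ) (ha χ hχ) (ha _ hχe) (hx χ hχ) ?_ ?_
        · rw [map_sum]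
          simp only [map_pow, am_ev_single, Int.cast_one, one_mul]
          rw [hlamev χ, hlame, geom_sum_mul, ← hb', map_pow, Units.val_pow_eq_pow_val]
        · rw [map_sum]
          simp only [map_pow, am_ev_single, Int.cast_one, one_mul]
          rw [hlame, hlamev χ, geom_sum_mul, ← Units.val_pow_eq_pow_val, ← map_pow, hb3])
        ⟨t', by rw [hT, ht']; push_cast; rfl⟩ (Or.inr ⟨hs1, hlam⟩)
      refine ⟨m * k, z, hl.prime.not_dvd_mul hm hk, fun χ hχ => ?_⟩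
      have h4 := hz χ hχ
      have h5 := ha χ hχ
      push_cast
      calc (m : ℂ) * k * evZ χ lam ^ u * evQ χ y =
            k * ((m : ℂ) * evZ χ lam ^ u * evQ χ y) := by ring
        _ = evZ χ lam ^ M' * (k * evZ χ a) := by rw [h5]; ring
        _ = _ := by rw [h4, pow_succ]; ring
  obtain ⟨m, a, hm, ha⟩ := key (u + M) le_rfl
  refine ⟨m, a, hm, fun χ hχ => ?_⟩
  have h1 := ha χ hχ
  rw [← hlamev]
  apply mul_left_cancel₀ (pow_ne_zero u (hlam0 χ hχ))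
  rw [pow_add] at h1
  calc evZ χ lam ^ u * ((m : ℂ) * evQ χ y) = (m : ℂ) * evZ χ lam ^ u * evQ χ y := by ring
    _ = _ := by rw [h1]; ring

end AM

end Pool.Agent.CR

namespace Pool.Agent.CR
open Pool.Agent.RSK Pool.Agent.RS2 Pool.Agent.SY
open Filter Topology Complex

section
variable {G : Type} [CommGroup G] [Fintype G] [IsCyclic G]

theorem alg_main {l : ℕ} (hl : l.Prime) {s : G} (hs : SylG l s) (y : MonoidAlgebra ℚ G)
    (E : Set (MulAut G)) (hE : ∀ n : ℕ, n.Coprime (Nat.card G) → ∃ (i b : ℕ), ∃ e ∈ E,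
      (∀ g, e g = g ^ b) ∧ ∀ g : G, ¬ l ∣ orderOf g → g ^ (b * l ^ i) = g ^ n)
    (hrel : ∀ e ∈ E, ∃ (k : ℕ) (v : MonoidAlgebra ℤ G), ¬ l ∣ k ∧ ∀ χ : G →* ℂˣ,
      Function.Injective χ → (k : ℂ) * evQ χ y = evZ χ v * evQ (χ.comp e.toMonoidHom) y)
    {M : ℕ} (hM : s = 1 → M = 0)
    (hN : ∃ (k : ℕ) (t : ℤ), ¬ l ∣ k ∧ (k : ℂ) * pI (fun χ => evQ χ y) =
      (l : ℂ) ^ ((Nat.card G / l ^ (Nat.card G).factorization l).totient * M) * t) :
    LDiv l M s y :=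
  @Pool.Agent.CR.alg_main_pr G _ _ _ l hl s hs y E hE hrel M hM hN

end

end Pool.Agent.CR
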