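import Pool.Agent.Lib_helper17.CRF.D_WB
import Pool.Agent.Lib_helper3.AU.BS

/-!
# Composite Rubin (CR), block ET: the element `η`
-/

set_option autoImplicit false
set_option linter.unusedSectionVars false

namespace Pool.Agent.CR

open Pool.Agent.RSK Pool.Agent.RS2 Pool.Agent.SY Pool.Agent.AU
open Polynomial

section ET

variable {G : Type} [CommGroup G] [Fintype G]

/-- the kernel of `X ↦ σ` is generated by `X ^ d - 1` -/
theorem et_ker {σ : G} (hσ : ∀ g : G, g ∈ Subgroup.zpowers σ) {R : ℤ[X]} (hR : bsA σ R = 0) :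
    (X ^ Nat.card G - 1 : ℤ[X]) ∣ R := by
  classical
  have hd : 0 < Nat.card G := Nat.card_pos
  have hmon : (X ^ Nat.card G - 1 : ℤ[X]).Monic := monic_X_pow_sub_C (1 : ℤ) hd.ne'
  have hdeg : (X ^ Nat.card G - 1 : ℤ[X]).natDegree = Nat.card G :=
    natDegree_X_pow_sub_C (r := (1 : ℤ))
  have hord : orderOf σ = Nat.card G := orderOf_eq_card_of_forall_mem_zpowers hσ
  have h0 : bsA σ (X ^ Nat.card G - 1) = 0 := by
    rw [map_sub, bs_X, map_one, ← hord, pow_orderOf_eq_one, ← MonoidAlgebra.one_def, sub_self]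
  have h1 := Polynomial.modByMonic_add_div R (X ^ Nat.card G - 1)
  set T := R %ₘ (X ^ Nat.card G - 1) with hT
  have hTd : T.natDegree < Nat.card G := by
    rw [← hdeg]
    refine natDegree_modByMonic_lt R hmon ?_
    intro h
    rw [h, natDegree_one] at hdeg
    exact hd.ne hdeg
  have h2 : bsA σ T = 0 := by
    rw [← h1, map_add, map_mul, h0, zero_mul, add_zero] at hR
    exact hR
  have h3 : T = 0 := by
    have h4 : bsA σ T = ∑ k ∈ Finset.range (Nat.card G), MonoidAlgebra.single (σ ^ k) (T.coeff k) := by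
      conv_lhs => rw [Polynomial.as_sum_range' T _ hTd]
      rw [map_sum]
      refine Finset.sum_congr rfl fun k _ => ?_
      show Polynomial.aeval _ _ = _
      rw [Polynomial.aeval_monomial, MonoidAlgebra.single_pow, one_pow, ← Algebra.smul_def]
      simp
    ext k
    rw [coeff_zero]
    by_cases hk : k < Nat.card G
    · have h5 := congrArg (fun a : MonoidAlgebra ℤ G => a.coeff (σ ^ k)) (h4.symm.trans h2)
      simp only [MonoidAlgebra.coeff_sum, MonoidAlgebra.coeff_single, Finsupp.coe_finsetSum,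
        Finset.sum_apply] at h5
      rw [Finset.sum_eq_single k] at h5
      · simpa using h5
      · intro j hj hjk
        rw [Finsupp.single_eq_of_ne]
        intro h
        apply hjk
        refine (pow_injOn_Iio_orderOf (x := σ) ?_ ?_ h.symm)
        · rw [hord]; exact Finset.mem_range.1 hj
        · rw [hord]; exact hk
      · intro h
        exact absurd (Finset.mem_range.2 hk) h
    · exact coeff_eq_zero_of_natDegree_lt (by omega)
  rw [← h1, h3, zero_add]
  exact dvd_mul_right _ _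

/-- `χ` is injective if and only if `χ(σ)` is a primitive `d`-th root of unity -/
theorem et_prim {σ : G} (hσ : ∀ g : G, g ∈ Subgroup.zpowers σ) (χ : G →* ℂˣ) :
    IsPrimitiveRoot ((χ σ : ℂˣ) : ℂ) (Nat.card G) ↔ Function.Injective χ := by
  have hord : orderOf σ = Nat.card G := orderOf_eq_card_of_forall_mem_zpowers hσ
  have h1 : IsPrimitiveRoot ((χ σ : ℂˣ) : ℂ) (Nat.card G) ↔ IsPrimitiveRoot (χ σ) (Nat.card G) :=
    IsPrimitiveRoot.coe_units_iff
  rw [h1]
  constructor
  · intro h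
    rw [injective_iff_map_eq_one]
    intro g hg
    obtain ⟨k, rfl⟩ := (mem_powers_iff_mem_zpowers (x := σ) (y := g)).2 (hσ g)
    have hk : χ σ ^ k = 1 := by
      have : χ (σ ^ k) = 1 := hg
      rwa [map_pow] at this
    have h2 := h.dvd_of_pow_eq_one k hk
    rw [← hord] at h2
    exact orderOf_dvd_iff_pow_eq_one.1 h2
  · intro h
    have h2 : IsPrimitiveRoot σ (Nat.card G) := hord ▸ IsPrimitiveRoot.orderOf σ
    exact h2.map_of_injective h

/-- ET1. -/
theorem eta_exists_pr [IsCyclic G] : ∃ η : MonoidAlgebra ℤ G, Eta η := by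
  classical
  obtain ⟨σ, hσ⟩ := IsCyclic.exists_generator (α := G)
  have hd : 0 < Nat.card G := Nat.card_pos
  set d := Nat.card G with hdd
  have hNZ : NeZero (d : ℂ) := ⟨Nat.cast_ne_zero.2 hd.ne'⟩
  set Ψ : ℤ[X] := ∏ i ∈ Nat.properDivisors d, cyclotomic i ℤ with hΨ
  have hfac : Ψ * cyclotomic d ℤ = X ^ d - 1 := by
    rw [← prod_cyclotomic_eq_X_pow_sub_one hd ℤ, ← Nat.insert_self_properDivisors hd.ne',
      Finset.prod_insert Nat.self_notMem_properDivisors, mul_comm]
  have hΦ : ∀ (χ : G →* ℂˣ) (n : ℕ), 0 < n → (Polynomial.eval₂ (Int.castRingHom ℂ) ((χ σ : ℂˣ) : ℂ)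
      (cyclotomic n ℤ) = 0 ↔ IsPrimitiveRoot ((χ σ : ℂˣ) : ℂ) n) := by
    intro χ n hn
    have : NeZero (n : ℂ) := ⟨Nat.cast_ne_zero.2 hn.ne'⟩
    rw [← Polynomial.eval_map, map_cyclotomic_int]
    exact isRoot_cyclotomic_iff
  have hX : ∀ χ : G →* ℂˣ, Polynomial.eval₂ (Int.castRingHom ℂ) ((χ σ : ℂˣ) : ℂ)
      (X ^ d - 1 : ℤ[X]) = 0 := by
    intro χ
    rw [Polynomial.eval₂_sub, Polynomial.eval₂_pow, Polynomial.eval₂_X, Polynomial.eval₂_one,
      ← Units.val_pow_eq_pow_val, ← map_pow, hdd, pow_card_eq_one', map_one, Units.val_one, sub_self]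
  have hP : ∀ χ : G →* ℂˣ, Polynomial.eval₂ (Int.castRingHom ℂ) ((χ σ : ℂˣ) : ℂ) Ψ = 0 ↔
      ¬ Function.Injective χ := by
    intro χ
    rw [← et_prim hσ χ, ← hdd]
    constructor
    · intro h h1
      rw [hΨ, Polynomial.eval₂_finsetProd, Finset.prod_eq_zero_iff] at h
      obtain ⟨i, hi, h2⟩ := h
      have hi' := Nat.mem_properDivisors.1 hi
      have hi0 : 0 < i := Nat.pos_of_dvd_of_pos hi'.1 hd
      have h3 := (hΦ χ i hi0).1 h2
      exact hi'.2.ne (h3.unique h1)
    · intro h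
      have h1 := hX χ
      rw [← hfac, Polynomial.eval₂_mul] at h1
      rcases mul_eq_zero.1 h1 with h2 | h2
      · exact h2
      · exact absurd ((hΦ χ d hd).1 h2) h
  refine ⟨bsA σ Ψ, ⟨fun χ hχ => ?_, fun χ hχ h => ?_, fun a ha => ?_⟩⟩
  · rw [bs_ev]
    exact (hP χ).2 hχ
  · rw [bs_ev] at h
    exact (hP χ).1 h hχ
  · obtain ⟨Q, rfl⟩ := bs_surj hσ a
    have h1 : bsA σ (Q * cyclotomic d ℤ) = 0 := by
      apply al_toQ_inj
      apply evQ_inj
      intro χ
      rw [al_evZ, al_evZ, map_mul, map_mul, map_zero, mul_eq_zero]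
      by_cases hχ : Function.Injective χ
      · right
        rw [bs_ev]
        exact (hΦ χ d hd).2 ((et_prim hσ χ).2 hχ)
      · exact Or.inl (ha χ hχ)
    have h2 := et_ker hσ h1
    rw [← hdd, ← hfac] at h2
    have h3 : Ψ ∣ Q := (mul_dvd_mul_iff_right (cyclotomic_ne_zero d ℤ)).1 h2
    obtain ⟨S, rfl⟩ := h3
    exact ⟨bsA σ S, map_mul _ _ _⟩

/-- the automorphism of the group ring -/
noncomputable def etE (e : MulAut G) : MonoidAlgebra ℤ G →+* MonoidAlgebra ℤ G :=
  MonoidAlgebra.mapDomainRingHom ℤ e.toMonoidHom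

theorem et_ev (e : MulAut G) (χ : G →* ℂˣ) (a : MonoidAlgebra ℤ G) :
    evZ χ (etE e a) = evZ (χ.comp e.toMonoidHom) a := by
  induction a using MonoidAlgebra.induction_on with
  | of g =>
    have h : MonoidAlgebra.of ℤ G g = MonoidAlgebra.single g 1 := rfl
    have h1 : etE e (MonoidAlgebra.single g 1) = MonoidAlgebra.single (e g) 1 := by
      show MonoidAlgebra.mapDomainRingHom ℤ e.toMonoidHom _ = _
      simp
    rw [h, h1, l2_evZ_single, l2_evZ_single]
    rfl
  | add a b ha hb => rw [map_add, map_add, map_add, ha, hb]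
  | smul c a ha => rw [map_zsmul, map_zsmul, map_zsmul, ha]

theorem et_inj {a b : MonoidAlgebra ℤ G} (h : ∀ χ : G →* ℂˣ, evZ χ a = evZ χ b) : a = b :=
  al_toQ_inj (evQ_inj fun χ => h χ)

/-- ET2. -/
theorem eta_sym_pr {η : MonoidAlgebra ℤ G} (hη : Eta η) (e : MulAut G) :
    ∃ v : MonoidAlgebra ℤ G, ∀ χ : G →* ℂˣ, Function.Injective χ →
      evZ χ η = evZ χ v * evZ (χ.comp e.toMonoidHom) η := by
  obtain ⟨b, hb⟩ := hη.gen (etE e⁻¹ η) fun χ hχ => by
    rw [et_ev]
    refine hη.off _ fun h => hχ fun x y hxy => ?_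
    have h1 : (χ.comp (e⁻¹ : MulAut G).toMonoidHom) (e x) =
        (χ.comp (e⁻¹ : MulAut G).toMonoidHom) (e y) := by
      show χ (e⁻¹ (e x)) = χ (e⁻¹ (e y))
      rw [MulAut.inv_apply_self, MulAut.inv_apply_self, hxy]
    exact e.injective (h h1)
  have h2 : η = etE e η * etE e b := by
    rw [← map_mul, ← hb]
    refine et_inj fun χ => ?_
    rw [et_ev, et_ev]
    congr 1
    have : (χ.comp e.toMonoidHom).comp (e⁻¹ : MulAut G).toMonoidHom = χ := by
      ext x
      show ((χ (e (e⁻¹ x)) : ℂˣ) : ℂ) = _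
      rw [MulAut.apply_inv_self]
    rw [this]
  refine ⟨etE e b, fun χ _ => ?_⟩
  conv_lhs => rw [h2]
  rw [map_mul, et_ev e χ η, mul_comm]

end ET

end Pool.Agent.CR

namespace Pool.Agent.CR
open Pool.Agent.RSK Pool.Agent.RS2 Pool.Agent.SY
open Filter Topology Complex

section
variable {G : Type} [CommGroup G] [Fintype G]

theorem eta_exists [IsCyclic G] : ∃ η : MonoidAlgebra ℤ G, Eta η :=
  Pool.Agent.CR.eta_exists_pr

end

end Pool.Agent.CR

namespace Pool.Agent.CR
open Pool.Agent.RSK Pool.Agent.RS2 Pool.Agent.SY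
open Filter Topology Complex

section
variable {G : Type} [CommGroup G] [Fintype G]

theorem eta_sym {η : MonoidAlgebra ℤ G} (hη : Eta η) (e : MulAut G) :
    ∃ v : MonoidAlgebra ℤ G, ∀ χ : G →* ℂˣ, Function.Injective χ →
      evZ χ η = evZ χ v * evZ (χ.comp e.toMonoidHom) η :=
  @Pool.Agent.CR.eta_sym_pr G _ _ η hη e

end

end Pool.Agent.CR
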