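import Pool.Agent.Lib_helper17.CRF.D_WL

set_option autoImplicit false
set_option linter.unusedSectionVars false

namespace Pool.Agent.CR

open Pool.Agent.RSK Pool.Agent.RS2 Pool.Agent.RS3 Pool.Agent.SY
open NumberField IsDedekindDomain Filter Topology Complex

section

variable {G : Type} [CommGroup G] [Fintype G]

theorem cc0_evQ_toQ (χ : G →* ℂˣ) (a : MonoidAlgebra ℤ G) : evQ χ (toQ G a) = evZ χ a := rfl

/-- CC0. calculus of `LDiv` -/
theorem ldiv_mul_pr {l M : ℕ} (hl : l.Prime) {s : G} {y : MonoidAlgebra ℚ G} (h : LDiv l M s y)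
    (a : MonoidAlgebra ℤ G) : LDiv l M s (toQ G a * y) := by
  obtain ⟨k, b, hk, hb⟩ := h
  refine ⟨k, a * b, hk, fun χ hχ => ?_⟩
  rw [map_mul, map_mul, cc0_evQ_toQ]
  linear_combination (evZ χ a) * hb χ hχ

theorem ldiv_add_pr {l M : ℕ} (hl : l.Prime) {s : G} {y y' : MonoidAlgebra ℚ G} (h : LDiv l M s y)
    (h' : LDiv l M s y') : LDiv l M s (y + y') := by
  obtain ⟨k, b, hk, hb⟩ := h
  obtain ⟨k', b', hk', hb'⟩ := h'
  refine ⟨k * k', (k' : MonoidAlgebra ℤ G) * b + (k : MonoidAlgebra ℤ G) * b', ?_,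
    fun χ hχ => ?_⟩
  · intro hd
    rcases (Nat.Prime.dvd_mul hl).1 hd with h | h
    · exact hk h
    · exact hk' h
  · rw [map_add, map_add, map_mul, map_mul, map_natCast, map_natCast]
    push_cast
    linear_combination (k' : ℂ) * hb χ hχ + (k : ℂ) * hb' χ hχ

/-- division by an `l`-unit: if `k = χ(a) χ(v)` with `k` prime to `l` and `a y` is divisible, so
is `y` -/
theorem ldiv_unit_pr {l M : ℕ} (hl : l.Prime) {s : G} {y : MonoidAlgebra ℚ G}
    {a v : MonoidAlgebra ℤ G}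
    {k : ℕ} (hk : ¬ l ∣ k)
    (hv : ∀ χ : G →* ℂˣ, Function.Injective χ → (k : ℂ) = evZ χ a * evZ χ v)
    (h : LDiv l M s (toQ G a * y)) : LDiv l M s y := by
  obtain ⟨k', b, hk', hb⟩ := h
  refine ⟨k' * k, v * b, ?_, fun χ hχ => ?_⟩
  · intro hd
    rcases (Nat.Prime.dvd_mul hl).1 hd with h | h
    · exact hk' h
    · exact hk h
  · have h1 := hb χ hχ
    have h2 := hv χ hχ
    rw [map_mul, cc0_evQ_toQ] at h1
    rw [map_mul]
    push_cast
    linear_combination (evZ χ v) * h1 + (k' : ℂ) * evQ χ y * h2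

end

end Pool.Agent.CR

namespace Pool.Agent.CR
open Pool.Agent.RSK Pool.Agent.RS2 Pool.Agent.RS3 Pool.Agent.SY
open NumberField IsDedekindDomain Filter Topology Complex

section
variable {F K : Type} [Field F] [NumberField F] [Field K] [NumberField K] [Algebra F K]
  [IsGalois F K] {G : Type} [CommGroup G] [Fintype G] {ι : G ≃* (K ≃ₐ[F] K)}
  {S T : Finset (HeightOneSpectrum (𝓞 F))} {r : ℕ} {w : Fin r → Pl K}
  {fr : HeightOneSpectrum (𝓞 F) → G}

theorem ldiv_mul {l M : ℕ} (hl : l.Prime) {s : G} {y : MonoidAlgebra ℚ G} (h : LDiv l M s y)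
    (a : MonoidAlgebra ℤ G) : LDiv l M s (toQ G a * y) :=
  @Pool.Agent.CR.ldiv_mul_pr G _ _ l M hl s y h a

end

end Pool.Agent.CR

namespace Pool.Agent.CR
open Pool.Agent.RSK Pool.Agent.RS2 Pool.Agent.RS3 Pool.Agent.SY
open NumberField IsDedekindDomain Filter Topology Complex

section
variable {F K : Type} [Field F] [NumberField F] [Field K] [NumberField K] [Algebra F K]
  [IsGalois F K] {G : Type} [CommGroup G] [Fintype G] {ι : G ≃* (K ≃ₐ[F] K)}
  {S T : Finset (HeightOneSpectrum (𝓞 F))} {r : ℕ} {w : Fin r → Pl K}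
  {fr : HeightOneSpectrum (𝓞 F) → G}

theorem ldiv_add {l M : ℕ} (hl : l.Prime) {s : G} {y y' : MonoidAlgebra ℚ G} (h : LDiv l M s y)
    (h' : LDiv l M s y') : LDiv l M s (y + y') :=
  @Pool.Agent.CR.ldiv_add_pr G _ _ l M hl s y y' h h'

end

end Pool.Agent.CR

namespace Pool.Agent.CR
open Pool.Agent.RSK Pool.Agent.RS2 Pool.Agent.RS3 Pool.Agent.SY
open NumberField IsDedekindDomain Filter Topology Complex

section
variable {F K : Type} [Field F] [NumberField F] [Field K] [NumberField K] [Algebra F K]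
  [IsGalois F K] {G : Type} [CommGroup G] [Fintype G] {ι : G ≃* (K ≃ₐ[F] K)}
  {S T : Finset (HeightOneSpectrum (𝓞 F))} {r : ℕ} {w : Fin r → Pl K}
  {fr : HeightOneSpectrum (𝓞 F) → G}

theorem ldiv_unit {l M : ℕ} (hl : l.Prime) {s : G} {y : MonoidAlgebra ℚ G} {a v : MonoidAlgebra ℤ G}
    {k : ℕ} (hk : ¬ l ∣ k)
    (hv : ∀ χ : G →* ℂˣ, Function.Injective χ → (k : ℂ) = evZ χ a * evZ χ v)
    (h : LDiv l M s (toQ G a * y)) : LDiv l M s y :=
  @Pool.Agent.CR.ldiv_unit_pr G _ _ l M hl s y a v k hk hv h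

end

end Pool.Agent.CR
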