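import Pool.Agent.Lib_helper17.CRF.D_WB
import Pool.Agent.Lib_helper17.CRF.B_KL
import Pool.Agent.Lib_helper29.SY.P_GB

/-!
# Composite Rubin (CR), block CG: change of the family
-/

set_option autoImplicit false
set_option linter.unusedSectionVars false

namespace Pool.Agent.CR

open Pool.Agent.RSK Pool.Agent.RS2 Pool.Agent.SY
open Filter Topology Complex

section CG

variable {G : Type} [CommGroup G] [Fintype G]

theorem cg_den (x : MonoidAlgebra ℚ G) : ∃ (n : ℕ) (a : MonoidAlgebra ℤ G), 0 < n ∧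
    ∀ χ : G →* ℂˣ, (n : ℂ) * evQ χ x = evZ χ a := by
  induction x using MonoidAlgebra.induction_on with
  | of g =>
    refine ⟨1, MonoidAlgebra.single g 1, one_pos, fun χ => ?_⟩
    rw [Nat.cast_one, one_mul]
    show evQ χ _ = evQ χ (toQ G (MonoidAlgebra.single g 1))
    congr 1
    unfold toQ
    simp
  | add x y hx hy =>
    obtain ⟨n, a, hn, ha⟩ := hx
    obtain ⟨m, b, hm, hb⟩ := hy
    refine ⟨n * m, (m : MonoidAlgebra ℤ G) * a + (n : MonoidAlgebra ℤ G) * b,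
      Nat.mul_pos hn hm, fun χ => ?_⟩
    rw [map_add, map_add, map_mul, map_mul, map_natCast, map_natCast, ← ha, ← hb]
    push_cast
    ring
  | smul c x hx =>
    obtain ⟨n, a, hn, ha⟩ := hx
    refine ⟨c.den * n, (c.num : MonoidAlgebra ℤ G) * a, Nat.mul_pos c.den_pos hn,
      fun χ => ?_⟩
    rw [map_smul, map_mul, map_intCast, ← ha, Algebra.smul_def]
    have h : (algebraMap ℚ ℂ) c = (c.num : ℂ) / (c.den : ℂ) := by
      conv_lhs => rw [← Rat.num_div_den c]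
      simp
    have h0 : (c.den : ℂ) ≠ 0 := Nat.cast_ne_zero.2 c.den_pos.ne'
    rw [h]
    push_cast
    field_simp

variable {M : Type} [AddCommGroup M] [Module (MonoidAlgebra ℤ G) M]

theorem cg_index {N K : AddSubgroup M} {u : M} (hu : u ∈ K) : N.relIndex K • u ∈ N := by
  have h := AddSubgroup.nsmul_index_mem (H := N.addSubgroupOf K) ⟨u, hu⟩
  exact h

theorem cg_cast (n : ℕ) (u : M) : (n : MonoidAlgebra ℤ G) • u = n • u := by
  rw [Nat.cast_smul_eq_nsmul]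

theorem cg_span {r : ℕ} {b : Fin r → M} {u : M} (hu : u ∈ mSpn G b) :
    ∃ a : Fin r → MonoidAlgebra ℤ G, ∑ i, a i • b i = u :=
  (Submodule.mem_span_range_iff_exists_fun (MonoidAlgebra ℤ G)).1 hu

theorem cg_main [IsCyclic G] {r : ℕ} (b₀ b' : Fin r → M) {N : ℕ} (hN : 0 < N)
    (A : Fin r → Fin r → MonoidAlgebra ℤ G)
    (h : ∀ (χ : G →* ℂˣ), Function.Injective χ → ∀ φ : M →+ ℂ,
      (∀ (a : MonoidAlgebra ℤ G) u, φ (a • u) = evZ χ a * φ u) →
      ∀ j, (N : ℂ) * φ (b₀ j) = ∑ l, evZ χ (A l j) * φ (b' l)) :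
    ∃ X : MonoidAlgebra ℚ G, (∀ χ : G →* ℂˣ, ¬ Function.Injective χ → evQ χ X = 0) ∧
      (∀ χ : G →* ℂˣ, Function.Injective χ → ∀ φ : Fin r → (M →+ ℂ),
        (∀ i (a : MonoidAlgebra ℤ G) u, φ i (a • u) = evZ χ a * φ i u) →
        Matrix.det (Matrix.of fun i j => φ i (b₀ j)) =
          evQ χ X * Matrix.det (Matrix.of fun i j => φ i (b' j))) ∧
      ∀ χ : G →* ℂˣ, Function.Injective χ →
          (N : ℂ) ^ r * evQ χ X = evZ χ (Matrix.det (Matrix.of A)) := by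
  obtain ⟨e, he⟩ := inj_idem (G := G)
  have hN0 : (N : ℂ) ≠ 0 := Nat.cast_ne_zero.2 hN.ne'
  have hX : ∀ χ : G →* ℂˣ, evQ χ ((((N : ℚ) ^ r)⁻¹) • (e * toQ G (Matrix.det (Matrix.of A)))) =
      ((N : ℂ) ^ r)⁻¹ * (evQ χ e * evZ χ (Matrix.det (Matrix.of A))) := by
    intro χ
    rw [map_smul, map_mul, Algebra.smul_def]
    congr 1
    simp
  refine ⟨(((N : ℚ) ^ r)⁻¹) • (e * toQ G (Matrix.det (Matrix.of A))), fun χ hχ => ?_,
    fun χ hχ φ hφ => ?_, fun χ hχ => ?_⟩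
  · rw [hX, (he χ).2 hχ, zero_mul, mul_zero]
  · rw [hX, (he χ).1 hχ, one_mul, RingHom.map_det]
    have h1 : (N : ℂ) • (Matrix.of fun i j => φ i (b₀ j)) =
        (Matrix.of fun i j => φ i (b' j)) * (evZ χ).mapMatrix (Matrix.of A) := by
      ext i j
      rw [Matrix.smul_apply, Matrix.mul_apply, Matrix.of_apply, smul_eq_mul,
        h χ hχ (φ i) (hφ i) j]
      refine Finset.sum_congr rfl fun l _ => ?_
      rw [RingHom.mapMatrix_apply, Matrix.map_apply, Matrix.of_apply, Matrix.of_apply, mul_comm]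
    have h2 := congrArg Matrix.det h1
    rw [Matrix.det_smul, Matrix.det_mul, Fintype.card_fin] at h2
    rw [mul_assoc, mul_comm (Matrix.det ((evZ χ).mapMatrix _)), ← h2, inv_mul_cancel_left₀]
    exact pow_ne_zero _ hN0
  · rw [hX, (he χ).1 hχ, one_mul, mul_inv_cancel_left₀ (pow_ne_zero _ hN0)]

end CG

section CG2

variable {G : Type} [CommGroup G] [Fintype G] [IsCyclic G]

variable {M : Type} [AddCommGroup M] [Module (MonoidAlgebra ℤ G) M] [Module.Finite ℤ M]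
  [Module.IsTorsionFree ℤ M]

/-- CG. Change of the family. For `b₀_j ∈ M` and `b'` of finite index `k` in the new part:
`k θ b₀_j = ∑_k a_{jk} b'_k` with `θ` from `inj_idem` (a multiple); `X = det(a)/(k n)^r` off the
characters which are not injective. -/
theorem chg_pr {r : ℕ} (b₀ b' : Fin r → M) (hb' : ∀ i, b' i ∈ mI (smA G M))
    (h0 : (mSpn G b').relIndex (mI (smA G M)) ≠ 0) :
    ∃ X : MonoidAlgebra ℚ G, (∀ χ : G →* ℂˣ, ¬ Function.Injective χ → evQ χ X = 0) ∧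
      (∀ χ : G →* ℂˣ, Function.Injective χ → ∀ φ : Fin r → (M →+ ℂ),
        (∀ i (a : MonoidAlgebra ℤ G) u, φ i (a • u) = evZ χ a * φ i u) →
        Matrix.det (Matrix.of fun i j => φ i (b₀ j)) =
          evQ χ X * Matrix.det (Matrix.of fun i j => φ i (b' j))) ∧
      ((∀ i, b₀ i ∈ mI (smA G M)) → ∃ a : MonoidAlgebra ℤ G, ∀ χ : G →* ℂˣ,
        Function.Injective χ →
          ((mSpn G b').relIndex (mI (smA G M)) : ℂ) ^ r * evQ χ X = evZ χ a) := by
  set k := (mSpn G b').relIndex (mI (smA G M)) with hk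
  by_cases hb : ∀ i, b₀ i ∈ mI (smA G M)
  · have h1 : ∀ j, ∃ a : Fin r → MonoidAlgebra ℤ G, ∑ i, a i • b' i = k • b₀ j :=
      fun j => cg_span (cg_index (hb j))
    choose A hA using h1
    obtain ⟨X, hX1, hX2, hX3⟩ := cg_main b₀ b' (Nat.pos_of_ne_zero h0) (fun l j => A j l) (by
      intro χ hχ φ hφ j
      have h2 := congrArg φ (hA j)
      rw [map_sum, map_nsmul, nsmul_eq_mul] at h2
      rw [← h2]
      exact Finset.sum_congr rfl fun l _ => hφ _ _)
    exact ⟨X, hX1, hX2, fun _ => ⟨_, hX3⟩⟩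
  · obtain ⟨e, he⟩ := inj_idem (G := G)
    obtain ⟨n, θ, hn, hθ⟩ := cg_den e
    have h1 : ∀ j, ∃ a : Fin r → MonoidAlgebra ℤ G, ∑ i, a i • b' i = k • (θ • b₀ j) := by
      refine fun j => cg_span (cg_index ((new_smul θ (b₀ j)).2 fun χ hχ => ?_))
      rw [← hθ, (he χ).2 hχ, mul_zero]
    choose A hA using h1
    obtain ⟨X, hX1, hX2, hX3⟩ := cg_main b₀ b' (Nat.mul_pos (Nat.pos_of_ne_zero h0) hn)
      (fun l j => A j l) (by
      intro χ hχ φ hφ j
      have h2 := congrArg φ (hA j)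
      rw [map_sum, map_nsmul, nsmul_eq_mul, hφ, ← hθ, (he χ).1 hχ, mul_one] at h2
      push_cast
      rw [mul_assoc, ← h2]
      exact Finset.sum_congr rfl fun l _ => hφ _ _)
    exact ⟨X, hX1, hX2, fun h => absurd h hb⟩

end CG2

end Pool.Agent.CR

namespace Pool.Agent.CR
open Pool.Agent.RSK Pool.Agent.RS2 Pool.Agent.SY
open Filter Topology Complex

section
variable {G : Type} [CommGroup G] [Fintype G] [IsCyclic G]
variable {M : Type} [AddCommGroup M] [Module (MonoidAlgebra ℤ G) M] [Module.Finite ℤ M]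
  [Module.IsTorsionFree ℤ M]

theorem chg {r : ℕ} (b₀ b' : Fin r → M) (hb' : ∀ i, b' i ∈ mI (smA G M))
    (h0 : (mSpn G b').relIndex (mI (smA G M)) ≠ 0) :
    ∃ X : MonoidAlgebra ℚ G, (∀ χ : G →* ℂˣ, ¬ Function.Injective χ → evQ χ X = 0) ∧
      (∀ χ : G →* ℂˣ, Function.Injective χ → ∀ φ : Fin r → (M →+ ℂ),
        (∀ i (a : MonoidAlgebra ℤ G) u, φ i (a • u) = evZ χ a * φ i u) →
        Matrix.det (Matrix.of fun i j => φ i (b₀ j)) =
          evQ χ X * Matrix.det (Matrix.of fun i j => φ i (b' j))) ∧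
      ((∀ i, b₀ i ∈ mI (smA G M)) → ∃ a : MonoidAlgebra ℤ G, ∀ χ : G →* ℂˣ,
        Function.Injective χ →
          ((mSpn G b').relIndex (mI (smA G M)) : ℂ) ^ r * evQ χ X = evZ χ a) :=
  @Pool.Agent.CR.chg_pr G _ _ _ M _ _ _ _ r b₀ b' hb' h0

end

end Pool.Agent.CR
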