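import Pool.Agent.Lib_helper17.CRF.D_WA

/-!
# Composite Rubin (CR), block NA: basic facts on `nA` and `thA`
-/

set_option autoImplicit false
set_option linter.unusedSectionVars false

namespace Pool.Agent.CR

section TY

variable {G M : Type} [CommGroup G] [Finite G] [AddCommGroup M] (A : G →* AddMonoid.End M)

theorem na_act_comm (g h : G) (u : M) : A g (A h u) = A h (A g u) := by
  show (A g * A h) u = (A h * A g) u
  rw [← map_mul, ← map_mul, mul_comm]

theorem na_act_mul (g h : G) (u : M) : A g (A h u) = A (g * h) u := by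
  rw [map_mul]; rfl

theorem na_comm (P : Subgroup G) (g : G) (u : M) : A g (nA A P u) = nA A P (A g u) := by
  have : Fintype P := Fintype.ofFinite P
  rw [nA_sum, nA_sum, map_sum]
  exact Finset.sum_congr rfl fun h _ => na_act_comm A g h u

theorem na_nA_comm (P Q : Subgroup G) (u : M) : nA A Q (nA A P u) = nA A P (nA A Q u) := by
  have : Fintype Q := Fintype.ofFinite Q
  rw [nA_sum A Q, nA_sum A Q, map_sum]
  exact Finset.sum_congr rfl fun h _ => na_comm A P h u

theorem na_fix (P : Subgroup G) (u : M) (g : G) (hg : g ∈ P) : A g (nA A P u) = nA A P u := by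
  have : Fintype P := Fintype.ofFinite P
  rw [nA_sum, map_sum]
  refine Fintype.sum_equiv (Equiv.mulLeft (⟨g, hg⟩ : P)) _ _ fun h => ?_
  rw [na_act_mul]
  rfl

theorem na_const (P : Subgroup G) (u : M) (h : ∀ g ∈ P, A g u = u) :
    nA A P u = Nat.card P • u := by
  have : Fintype P := Fintype.ofFinite P
  rw [nA_sum, Finset.sum_congr rfl fun (g : P) _ => h g g.2, Finset.sum_const, Finset.card_univ,
    Nat.card_eq_fintype_card]

theorem nA_basic_pr (P : Subgroup G) (u : M) :
    (∀ g : G, A g (nA A P u) = nA A P (A g u)) ∧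
      (∀ Q : Subgroup G, nA A Q (nA A P u) = nA A P (nA A Q u)) ∧
      (∀ g ∈ P, A g (nA A P u) = nA A P u) ∧ (∀ g ∈ P, nA A P (A g u) = nA A P u) ∧
      nA A P (nA A P u) = Nat.card P • nA A P u ∧
      ((∀ g ∈ P, A g u = u) → nA A P u = Nat.card P • u) :=
  ⟨fun g => na_comm A P g u, fun Q => na_nA_comm A P Q u, na_fix A P u,
    fun g hg => by rw [← na_comm, na_fix A P u g hg], na_const A P _ (na_fix A P u),
    na_const A P u⟩

theorem na_th_cons (P : Subgroup G) (L : List (Subgroup G)) (u : M) :
    thA A (P :: L) u = Nat.card P • thA A L u - nA A P (thA A L u) := by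
  unfold thA
  rw [List.map_cons, List.prod_cons]
  rfl

theorem na_th_nil (u : M) : thA A [] u = u := rfl

theorem na_th_act (L : List (Subgroup G)) (g : G) (u : M) : A g (thA A L u) = thA A L (A g u) := by
  induction L with
  | nil => rfl
  | cons P L ih => rw [na_th_cons, na_th_cons, map_sub, map_nsmul, na_comm, ih]

theorem na_th_nA (L : List (Subgroup G)) (Q : Subgroup G) (u : M) :
    nA A Q (thA A L u) = thA A L (nA A Q u) := by
  induction L with
  | nil => rfl
  | cons P L ih => rw [na_th_cons, na_th_cons, map_sub, map_nsmul, na_nA_comm, ih]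

theorem na_th_kill (L : List (Subgroup G)) (u : M) : ∀ P ∈ L, nA A P (thA A L u) = 0 := by
  induction L with
  | nil => intro P hP; exact absurd hP List.not_mem_nil
  | cons P L ih =>
    intro P' hP'
    rw [na_th_cons, map_sub, map_nsmul]
    rcases List.mem_cons.1 hP' with h | h
    · rw [h, na_const A P _ (na_fix A P (thA A L u)), sub_self]
    · rw [na_nA_comm, ih P' h, smul_zero, map_zero, sub_zero]

theorem na_th_mul (L : List (Subgroup G)) (u : M) (h : ∀ P ∈ L, nA A P u = 0) :
    thA A L u = (L.map fun P : Subgroup G => Nat.card P).prod • u := by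
  induction L with
  | nil => rw [na_th_nil, List.map_nil, List.prod_nil, one_smul]
  | cons P L ih =>
    rw [na_th_cons, ih fun P hP => h P (List.mem_cons_of_mem _ hP), map_nsmul,
      h P List.mem_cons_self, smul_zero, sub_zero, List.map_cons, List.prod_cons, mul_smul]

theorem thA_basic_pr (L : List (Subgroup G)) (u : M) :
    (∀ g : G, A g (thA A L u) = thA A L (A g u)) ∧
      (∀ Q : Subgroup G, nA A Q (thA A L u) = thA A L (nA A Q u)) ∧
      thA A L u ∈ nty A L ⊥ ∧
      ((∀ P ∈ L, nA A P u = 0) → thA A L u = (L.map fun P : Subgroup G => Nat.card P).prod • u) := by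
  refine ⟨fun g => na_th_act A L g u, fun Q => na_th_nA A L Q u, ⟨fun g hg => ?_, na_th_kill A L u⟩,
    na_th_mul A L u⟩
  rw [Subgroup.mem_bot.1 hg, map_one]
  rfl

end TY

end Pool.Agent.CR

namespace Pool.Agent.CR

section
variable {G M : Type} [CommGroup G] [Finite G] [AddCommGroup M] (A : G →* AddMonoid.End M)

theorem nA_basic (P : Subgroup G) (u : M) :
    (∀ g : G, A g (nA A P u) = nA A P (A g u)) ∧
      (∀ Q : Subgroup G, nA A Q (nA A P u) = nA A P (nA A Q u)) ∧
      (∀ g ∈ P, A g (nA A P u) = nA A P u) ∧ (∀ g ∈ P, nA A P (A g u) = nA A P u) ∧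
      nA A P (nA A P u) = Nat.card P • nA A P u ∧
      ((∀ g ∈ P, A g u = u) → nA A P u = Nat.card P • u) :=
  @Pool.Agent.CR.nA_basic_pr G M _ _ _ A P u

end

end Pool.Agent.CR

namespace Pool.Agent.CR

section
variable {G M : Type} [CommGroup G] [Finite G] [AddCommGroup M] (A : G →* AddMonoid.End M)

theorem thA_basic (L : List (Subgroup G)) (u : M) :
    (∀ g : G, A g (thA A L u) = thA A L (A g u)) ∧
      (∀ Q : Subgroup G, nA A Q (thA A L u) = thA A L (nA A Q u)) ∧
      thA A L u ∈ nty A L ⊥ ∧
      ((∀ P ∈ L, nA A P u = 0) → thA A L u = (L.map fun P : Subgroup G => Nat.card P).prod • u) :=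
  @Pool.Agent.CR.thA_basic_pr G M _ _ _ A L u

end

end Pool.Agent.CR
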