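import Pool.Agent.Lib_helper17.CRF.D_WA
import Pool.Agent.Lib_helper17.CRF.A_NA

/-!
# Composite Rubin (CR), block TR (helper59)
-/

set_option autoImplicit false
set_option linter.unusedSectionVars false

namespace Pool.Agent.CR

section TR

variable {G M : Type} [CommGroup G] [Finite G] [AddCommGroup M] (A : G →* AddMonoid.End M)

theorem tr_fix_sup (D P : Subgroup G) (u : M) (h : ∀ g ∈ D, A g u = u) (h' : ∀ g ∈ P, A g u = u) :
    ∀ g ∈ D ⊔ P, A g u = u := by
  intro g hg
  obtain ⟨a, ha, b, hb, rfl⟩ := Subgroup.mem_sup.mp hg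
  rw [map_mul]
  change A a (A b u) = u
  rw [h' b hb, h a ha]

/-- `nA P` maps `nty L D` to `nty L (D ⊔ P)` -/
theorem tr_map (L : List (Subgroup G)) (D P : Subgroup G) {u : M} (hu : u ∈ nty A L D) :
    nA A P u ∈ nty A L (D ⊔ P) := by
  have hb := nA_basic A P u
  refine ⟨?_, fun Q hQ => ?_⟩
  · refine tr_fix_sup A D P _ (fun g hg => ?_) hb.2.2.1
    rw [hb.1 g, hu.1 g hg]
  · rw [hb.2.1 Q, hu.2 Q hQ, map_zero]

theorem tr_mem_cons (L : List (Subgroup G)) (D P : Subgroup G) {u : M} :
    u ∈ nty A (P :: L) D ↔ u ∈ nty A L D ∧ nA A P u = 0 := by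
  constructor
  · intro h
    exact ⟨⟨h.1, fun Q hQ => h.2 Q (List.mem_cons_of_mem _ hQ)⟩, h.2 P List.mem_cons_self⟩
  · intro h
    refine ⟨h.1.1, fun Q hQ => ?_⟩
    rcases List.mem_cons.mp hQ with rfl | hQ
    · exact h.2
    · exact h.1.2 Q hQ

theorem tr_le (L : List (Subgroup G)) (D P : Subgroup G) : nty A L (D ⊔ P) ≤ nty A L D :=
  fun _ hu => ⟨fun g hg => hu.1 g (Subgroup.mem_sup_left hg), hu.2⟩

theorem tyr_pr [Module.Finite ℤ M] [Module.Free ℤ M] (L : List (Subgroup G)) (D : Subgroup G) :
    (Module.finrank ℤ (nty A L D) : ℤ) =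
      als (fun D => (Module.finrank ℤ (nty A [] D) : ℤ)) L D := by
  induction L generalizing D with
  | nil => rfl
  | cons P L ih =>
    rw [als_cons, ← ih, ← ih]
    have hfin : ∀ N : AddSubgroup M, Module.Finite ℤ N := fun N => by
      have : IsNoetherian ℤ M := inferInstance
      exact inferInstanceAs (Module.Finite ℤ (AddSubgroup.toIntSubmodule N))
    have := hfin (nty A L D)
    have := hfin (nty A L (D ⊔ P))
    have := hfin (nty A (P :: L) D)
    -- the map
    let f : nty A L D →+ nty A L (D ⊔ P) :=
      AddMonoidHom.mk' (fun u => ⟨nA A P u, tr_map A L D P u.2⟩)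
        (fun u v => Subtype.ext (map_add (nA A P) (u : M) (v : M)))
    have hf : ∀ u, ((f u : nty A L (D ⊔ P)) : M) = nA A P u := fun u => rfl
    have hc : (Nat.card P : ℤ) ≠ 0 := by
      have := Nat.card_pos (α := P)
      omega
    have h0 := Submodule.finrank_quotient_add_finrank (LinearMap.ker f.toIntLinearMap)
    have h1 : Module.finrank ℤ (LinearMap.range f.toIntLinearMap) +
        Module.finrank ℤ (LinearMap.ker f.toIntLinearMap) = Module.finrank ℤ (nty A L D) := by
      rw [← h0, (LinearMap.quotKerEquivRange f.toIntLinearMap).finrank_eq]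
    -- the range has full rank
    have h2 : Module.finrank ℤ (LinearMap.range f.toIntLinearMap) =
        Module.finrank ℤ (nty A L (D ⊔ P)) := by
      apply le_antisymm (Submodule.finrank_le _)
      let g : nty A L (D ⊔ P) →ₗ[ℤ] LinearMap.range f.toIntLinearMap :=
        LinearMap.codRestrict _ ((Nat.card P : ℤ) • LinearMap.id) (fun u => by
          refine ⟨⟨u, tr_le A L D P u.2⟩, Subtype.ext ?_⟩
          change nA A P (u : M) = _
          rw [(nA_basic A P u).2.2.2.2.2 (fun g hg => u.2.1 g (Subgroup.mem_sup_right hg))]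
          simp)
      have hg : Function.Injective g := by
        intro u v huv
        have h3 : (Nat.card P : ℤ) • u = (Nat.card P : ℤ) • v := congrArg Subtype.val huv
        have h4 : (Nat.card P : ℤ) • ((u : M) - v) = 0 := by
          rw [smul_sub]
          exact sub_eq_zero.mpr (congrArg Subtype.val h3)
        rcases smul_eq_zero.mp h4 with h5 | h5
        · exact absurd h5 hc
        · exact Subtype.ext (sub_eq_zero.mp h5)
      exact LinearMap.finrank_le_finrank_of_injective hg
    -- the kernel
    have h3 : Module.finrank ℤ (LinearMap.ker f.toIntLinearMap) =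
        Module.finrank ℤ (nty A (P :: L) D) := by
      apply LinearEquiv.finrank_eq
      refine AddEquiv.toIntLinearEquiv ?_
      exact
        { toFun := fun u => ⟨(u : nty A L D), (tr_mem_cons A L D P).mpr ⟨u.1.2, by
            have := u.2
            rw [LinearMap.mem_ker] at this
            exact congrArg Subtype.val this⟩⟩
          invFun := fun u => ⟨⟨u, ((tr_mem_cons A L D P).mp u.2).1⟩, by
            rw [LinearMap.mem_ker]
            exact Subtype.ext ((tr_mem_cons A L D P).mp u.2).2⟩
          left_inv := fun u => rfl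
          right_inv := fun u => rfl
          map_add' := fun u v => rfl }
    rw [h2, h3] at h1
    omega

end TR

end Pool.Agent.CR

namespace Pool.Agent.CR

section
variable {G M : Type} [CommGroup G] [Finite G] [AddCommGroup M] (A : G →* AddMonoid.End M)

theorem tyr [Module.Finite ℤ M] [Module.Free ℤ M] (L : List (Subgroup G)) (D : Subgroup G) :
    (Module.finrank ℤ (nty A L D) : ℤ) =
      als (fun D => (Module.finrank ℤ (nty A [] D) : ℤ)) L D :=
  @Pool.Agent.CR.tyr_pr G M _ _ _ A _ _ L D

end

end Pool.Agent.CR
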