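import Pool.Agent.Lib_helper17.CRF.D_WB
import Pool.Agent.Lib_helper17.CRF.B_PL

/-!
# Composite Rubin (CR), block AC: alternating products over characters (MP_dd9835_nt)
-/

set_option autoImplicit false
set_option linter.unusedSectionVars false

namespace Pool.Agent.CR

open Pool.Agent.RSK Pool.Agent.RS2 Pool.Agent.SY
open Filter Topology Complex

section AC

variable {G : Type} [CommGroup G] [Finite G]

theorem ac_finite (G : Type) [CommGroup G] [Finite G] : Finite (G →* ℂˣ) :=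
  Finite.of_equiv G (CommGroup.monoidHom_mulEquiv_of_hasEnoughRootsOfUnity G ℂ).some.symm.toEquiv

open scoped Classical in
theorem ac_fin {X : Type} [Fintype X] (p : X → Prop) (φ : X → ℂ) :
    ∏ᶠ χ : {χ : X // p χ}, φ χ.1 = ∏ χ ∈ Finset.univ.filter p, φ χ := by
  rw [finprod_eq_prod_of_fintype]
  exact (Finset.prod_subtype _ (fun x => by simp) φ).symm

theorem ac_prod {X : Type} [Finite X] (p q : X → Prop) (φ : X → ℂ) (hφ : ∀ x, φ x ≠ 0) :
    (∏ᶠ χ : {χ : X // p χ}, φ χ.1) / (∏ᶠ χ : {χ : X // p χ ∧ q χ}, φ χ.1) =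
      ∏ᶠ χ : {χ : X // p χ ∧ ¬ q χ}, φ χ.1 := by
  classical
  have := Fintype.ofFinite X
  rw [ac_fin, ac_fin, ac_fin, div_eq_iff (Finset.prod_ne_zero_iff.2 fun x _ => hφ x), mul_comm]
  have h := (Finset.prod_filter_mul_prod_filter_not (Finset.univ.filter p) q φ).symm
  rw [Finset.filter_filter, Finset.filter_filter] at h
  convert h

theorem ac_cong {X : Type} (p q : X → Prop) (h : ∀ x, p x ↔ q x) (φ : X → ℂ) :
    ∏ᶠ χ : {χ : X // p χ}, φ χ.1 = ∏ᶠ χ : {χ : X // q χ}, φ χ.1 := by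
  have : p = q := funext fun x => propext (h x)
  rw [this]

theorem alt_char_pr (φ : (G →* ℂˣ) → ℂ) (hφ : ∀ χ, φ χ ≠ 0) (L : List (Subgroup G))
    (D : Subgroup G) : alt (fun D => ∏ᶠ χ : {χ : G →* ℂˣ // D ≤ χ.ker}, φ χ.1) L D =
      ∏ᶠ χ : {χ : G →* ℂˣ // D ≤ χ.ker ∧ ∀ P ∈ L, ¬ P ≤ χ.ker}, φ χ.1 := by
  have := ac_finite G
  induction L generalizing D with
  | nil =>
    rw [alt_nil]
    exact ac_cong _ _ (fun χ => by simp) φ
  | cons P L ih =>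
    rw [alt_cons, ih, ih]
    have h1 : ∏ᶠ χ : {χ : G →* ℂˣ // D ⊔ P ≤ χ.ker ∧ ∀ P ∈ L, ¬ P ≤ χ.ker}, φ χ.1 =
        ∏ᶠ χ : {χ : G →* ℂˣ // (D ≤ χ.ker ∧ ∀ P ∈ L, ¬ P ≤ χ.ker) ∧ P ≤ χ.ker}, φ χ.1 :=
      ac_cong _ _ (fun χ => by rw [sup_le_iff]; tauto) φ
    rw [h1, ac_prod _ _ φ hφ]
    exact ac_cong _ _ (fun χ => by rw [List.forall_mem_cons]; tauto) φ

theorem ac_inj {L : List (Subgroup G)} (hL : PrL G 0 L) (χ : G →* ℂˣ) :
    (⊥ ≤ χ.ker ∧ ∀ P ∈ L, ¬ P ≤ χ.ker) ↔ Function.Injective χ := by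
  rw [inj_iff]
  constructor
  · rintro ⟨-, h⟩ P hP
    exact h P (hL.all P hP hP.ne_zero)
  · intro h
    exact ⟨bot_le, fun P hP => h P (hL.prime P hP).1⟩

theorem alt_pI_pr (φ : (G →* ℂˣ) → ℂ) (hφ : ∀ χ, φ χ ≠ 0) {L : List (Subgroup G)}
    (hL : PrL G 0 L) :
    alt (fun D => ∏ᶠ χ : {χ : G →* ℂˣ // D ≤ χ.ker}, φ χ.1) L ⊥ = pI φ := by
  rw [alt_char_pr φ hφ]
  exact ac_cong _ _ (ac_inj hL) φ

/-- the characters which are trivial on `H` are the characters of the quotient -/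
theorem ac_index (H : Subgroup G) : Nat.card {χ : G →* ℂˣ // H ≤ χ.ker} = H.index := by
  have h1 : Nat.card {χ : G →* ℂˣ // H ≤ χ.ker} = Nat.card (G ⧸ H →* ℂˣ) := by
    refine Nat.card_congr ⟨fun χ => QuotientGroup.lift H χ.1 χ.2,
      fun ψ => ⟨ψ.comp (QuotientGroup.mk' H), fun g hg => ?_⟩, fun χ => ?_, fun ψ => ?_⟩
    · rw [MonoidHom.mem_ker, MonoidHom.comp_apply, QuotientGroup.mk'_apply,
        (QuotientGroup.eq_one_iff g).2 hg, map_one]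
    · apply Subtype.ext
      ext g
      rfl
    · ext g
      rfl
  rw [h1, CommGroup.card_monoidHom_of_hasEnoughRootsOfUnity (G ⧸ H) ℂ]
  rfl

theorem ac_card {X : Type} [Finite X] (p q : X → Prop) :
    ((Nat.card {x // p x} : ℕ) : ℤ) - (Nat.card {x // p x ∧ q x} : ℕ) =
      (Nat.card {x // p x ∧ ¬ q x} : ℕ) := by
  classical
  have := Fintype.ofFinite X
  simp only [Nat.card_eq_fintype_card, Fintype.card_subtype]
  rw [← Finset.filter_filter, ← Finset.filter_filter, sub_eq_iff_eq_add, add_comm]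
  exact_mod_cast (Finset.card_filter_add_card_filter_not
    (s := Finset.univ.filter p) (fun x => q x)).symm

theorem als_index_pr (B : Subgroup G) (L : List (Subgroup G)) (D : Subgroup G) :
    als (fun D => ((B ⊔ D).index : ℤ)) L D =
      (Nat.card {χ : G →* ℂˣ // B ≤ χ.ker ∧ D ≤ χ.ker ∧ ∀ P ∈ L, ¬ P ≤ χ.ker} : ℤ) := by
  have := ac_finite G
  have hc : ∀ p q : (G →* ℂˣ) → Prop, (∀ χ, p χ ↔ q χ) →
      Nat.card {χ // p χ} = Nat.card {χ // q χ} := by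
    intro p q h
    have : p = q := funext fun x => propext (h x)
    rw [this]
  induction L generalizing D with
  | nil =>
    rw [als_nil, ← ac_index]
    exact congrArg _ (hc _ _ fun χ => by simp)
  | cons P L ih =>
    rw [als_cons, ih, ih]
    rw [hc (fun χ => B ≤ χ.ker ∧ D ⊔ P ≤ χ.ker ∧ ∀ P ∈ L, ¬ P ≤ χ.ker)
      (fun χ => (B ≤ χ.ker ∧ D ≤ χ.ker ∧ ∀ P ∈ L, ¬ P ≤ χ.ker) ∧ P ≤ χ.ker)
      (fun χ => by rw [sup_le_iff]; tauto), ac_card]
    exact congrArg _ (hc _ _ fun χ => by rw [List.forall_mem_cons]; tauto)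

end AC

end Pool.Agent.CR

namespace Pool.Agent.CR
open Pool.Agent.RSK Pool.Agent.RS2 Pool.Agent.SY
open Filter Topology Complex

section
variable {G : Type} [CommGroup G] [Finite G]

theorem alt_char (φ : (G →* ℂˣ) → ℂ) (hφ : ∀ χ, φ χ ≠ 0) (L : List (Subgroup G))
    (D : Subgroup G) : alt (fun D => ∏ᶠ χ : {χ : G →* ℂˣ // D ≤ χ.ker}, φ χ.1) L D =
      ∏ᶠ χ : {χ : G →* ℂˣ // D ≤ χ.ker ∧ ∀ P ∈ L, ¬ P ≤ χ.ker}, φ χ.1 :=
  @Pool.Agent.CR.alt_char_pr G _ _ φ hφ L D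

end

end Pool.Agent.CR

namespace Pool.Agent.CR
open Pool.Agent.RSK Pool.Agent.RS2 Pool.Agent.SY
open Filter Topology Complex

section
variable {G : Type} [CommGroup G] [Finite G]

theorem alt_pI (φ : (G →* ℂˣ) → ℂ) (hφ : ∀ χ, φ χ ≠ 0) {L : List (Subgroup G)}
    (hL : PrL G 0 L) :
    alt (fun D => ∏ᶠ χ : {χ : G →* ℂˣ // D ≤ χ.ker}, φ χ.1) L ⊥ = pI φ :=
  @Pool.Agent.CR.alt_pI_pr G _ _ φ hφ L hL

end

end Pool.Agent.CR

namespace Pool.Agent.CR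
open Pool.Agent.RSK Pool.Agent.RS2 Pool.Agent.SY
open Filter Topology Complex

section
variable {G : Type} [CommGroup G] [Finite G]

theorem als_index (B : Subgroup G) (L : List (Subgroup G)) (D : Subgroup G) :
    als (fun D => ((B ⊔ D).index : ℤ)) L D =
      (Nat.card {χ : G →* ℂˣ // B ≤ χ.ker ∧ D ≤ χ.ker ∧ ∀ P ∈ L, ¬ P ≤ χ.ker} : ℤ) :=
  @Pool.Agent.CR.als_index_pr G _ _ B L D

end

end Pool.Agent.CR
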