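import Pool.Agent.Lib_helper17.CRF.D_WB
import Pool.Agent.Lib_helper17.CRF.B_PL
import Pool.Agent.Lib_helper17.CRF.B_CW
import Pool.Agent.Lib_helper17.CRF.B_AC

/-!
# Composite Rubin (CR), block CE: alternating sums of numbers of places
-/

set_option autoImplicit false
set_option linter.unusedSectionVars false

namespace Pool.Agent.CR

open Pool.Agent.RSK Pool.Agent.RS2 Pool.Agent.SY
open Filter Topology Complex

section CE

variable {G : Type} [CommGroup G] [Finite G] [IsCyclic G]

theorem ce_mem {l : ℕ} (hl : l.Prime) {P : Subgroup G} (hP : Nat.card P = l) {g : G}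
    (hg : g ^ l = 1) : g ∈ P := by
  classical
  have := Fintype.ofFinite G
  have h1 : (Finset.univ.filter fun a : G => a ∈ P) ⊆ Finset.univ.filter fun a : G => a ^ l = 1 := by
    intro a ha
    rw [Finset.mem_filter] at ha ⊢
    refine ⟨ha.1, ?_⟩
    have h2 : (⟨a, ha.2⟩ : P) ^ Nat.card P = 1 := pow_card_eq_one'
    rw [hP] at h2
    exact congrArg Subtype.val h2
  have h2 : (Finset.univ.filter fun a : G => a ∈ P).card = l := by
    rw [← hP, Nat.card_eq_fintype_card, Fintype.card_subtype]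
  have h3 : (Finset.univ.filter fun a : G => a ^ l = 1).card ≤ l :=
    IsCyclic.card_pow_eq_one_le hl.pos
  have h4 := Finset.eq_of_subset_of_card_le h1 (by rw [h2]; exact h3)
  have h5 : g ∈ Finset.univ.filter fun a : G => a ^ l = 1 := by
    rw [Finset.mem_filter]
    exact ⟨Finset.mem_univ _, hg⟩
  rw [← h4, Finset.mem_filter] at h5
  exact h5.2

theorem ce_le {l : ℕ} (hl : l.Prime) {P : Subgroup G} (hP : Nat.card P = l) {B : Subgroup G}
    (hB : B ≠ ⊥) (hB' : ∀ g ∈ B, ∃ i : ℕ, g ^ l ^ i = 1) : P ≤ B := by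
  classical
  obtain ⟨g, hg, hg1⟩ := (Subgroup.bot_or_exists_ne_one B).resolve_left hB
  have hex := hB' g hg
  set i := Nat.find hex with hi
  have hi1 : g ^ l ^ i = 1 := Nat.find_spec hex
  have hi0 : i ≠ 0 := by
    intro h
    rw [h, pow_zero, pow_one] at hi1
    exact hg1 hi1
  obtain ⟨k, hk⟩ := Nat.exists_eq_succ_of_ne_zero hi0
  have hk1 : g ^ l ^ k ≠ 1 := Nat.find_min hex (by omega)
  set h := g ^ l ^ k with hh
  have hl1 : h ^ l = 1 := by
    rw [hh, ← pow_mul, ← pow_succ]
    rw [hk] at hi1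
    exact hi1
  have hhP : h ∈ P := ce_mem hl hP hl1
  have hhB : h ∈ B := B.pow_mem hg _
  have : Fact l.Prime := ⟨hl⟩
  intro x hx
  have h2 : (⟨x, hx⟩ : P) ∈ Subgroup.zpowers (⟨h, hhP⟩ : P) :=
    mem_zpowers_of_prime_card hP (fun h0 => hk1 (congrArg Subtype.val h0))
  obtain ⟨n, hn⟩ := Subgroup.mem_zpowers_iff.1 h2
  have h3 : h ^ n = x := congrArg Subtype.val hn
  rw [← h3]
  exact B.zpow_mem hhB n

theorem ce_inj {L : List (Subgroup G)} (hL : PrL G 0 L) (χ : G →* ℂˣ) :
    (∀ P ∈ L, ¬ P ≤ χ.ker) ↔ Function.Injective χ := by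
  rw [inj_iff]
  constructor
  · intro h P hP
    exact h P (hL.all P hP hP.ne_zero)
  · intro h P hP
    exact h P (hL.prime P hP).1

theorem ce_idx (B : Subgroup G) (L : List (Subgroup G)) :
    als (fun D => ((B ⊔ D).index : ℤ)) L ⊥ =
      (Nat.card {χ : G →* ℂˣ // B ≤ χ.ker ∧ ∀ P ∈ L, ¬ P ≤ χ.ker} : ℤ) := by
  rw [als_index]
  congr 1
  refine Nat.card_congr (Equiv.subtypeEquivRight fun χ => ?_)
  simp only [bot_le, true_and]

variable {I : Type} [Fintype I] (B : I → Subgroup G)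

theorem als_cD_pr {L : List (Subgroup G)} (hL : PrL G 0 L) :
    als (fun D => (cD B D : ℤ)) L ⊥ = (Nat.card {i // B i = ⊥} * (Nat.card G).totient : ℕ) := by
  classical
  have h1 : (fun D => (cD B D : ℤ)) = fun D : Subgroup G => ∑ i : I, ((B i ⊔ D).index : ℤ) := by
    funext D
    unfold cD
    push_cast
    rfl
  rw [h1, als_sum]
  have h2 : ∀ i : I, als (fun D => ((B i ⊔ D).index : ℤ)) L ⊥ =
      if B i = ⊥ then ((Nat.card G).totient : ℤ) else 0 := by
    intro i
    rw [ce_idx]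
    split_ifs with h
    · rw [← card_inj]
      congr 1
      refine Nat.card_congr (Equiv.subtypeEquivRight fun χ => ?_)
      rw [ce_inj hL, h]
      simp only [bot_le, true_and]
    · have h3 : IsEmpty {χ : G →* ℂˣ // B i ≤ χ.ker ∧ ∀ P ∈ L, ¬ P ≤ χ.ker} := by
        refine ⟨fun χ => h ?_⟩
        have h4 := (ce_inj hL χ.1).1 χ.2.2
        rw [← MonoidHom.ker_eq_bot_iff] at h4
        exact le_bot_iff.1 (h4 ▸ χ.2.1)
      rw [Nat.card_of_isEmpty]
      rfl
  have h5 : Nat.card {i // B i = ⊥} = (Finset.univ.filter fun i => B i = ⊥).card := by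
    rw [Nat.card_eq_fintype_card, Fintype.card_subtype]
  rw [Finset.sum_congr rfl fun i _ => h2 i, ← Finset.sum_filter, Finset.sum_const, nsmul_eq_mul, h5]
  push_cast
  rfl

theorem ce_card {l : ℕ} (hl : l.Prime) (B : Subgroup G) (hB : ∀ g ∈ B, ∃ i : ℕ, g ^ l ^ i = 1) :
    Nat.card B ∣ l ^ (Nat.card G).factorization l := by
  have : Fact l.Prime := ⟨hl⟩
  have h1 : IsPGroup l B := by
    intro g
    obtain ⟨i, hi⟩ := hB g g.2
    exact ⟨i, Subtype.ext hi⟩
  obtain ⟨b, hb⟩ := IsPGroup.iff_card.1 h1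
  have h2 : l ^ b ∣ Nat.card G := hb ▸ Subgroup.card_subgroup_dvd_card B
  rw [hb]
  exact pow_dvd_pow l ((hl.pow_dvd_iff_le_factorization Nat.card_pos.ne').1 h2)

theorem ce_term {l : ℕ} (hl : l.Prime) {L : List (Subgroup G)} (hL : PrL G l L)
    {P : Subgroup G} (hP : Nat.card P = l) (C : Subgroup G) (hPC : P ≤ C) :
    als (fun D => ((C ⊔ D).index : ℤ)) L ⊥ =
      ((Nat.card G / l ^ (Nat.card G).factorization l).totient : ℤ) * (wtB l C : ℤ) := by
  classical
  rw [ce_idx]
  have hC0 : C ≠ ⊥ := by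
    rintro rfl
    have h1 : P = ⊥ := le_bot_iff.1 hPC
    rw [h1, Subgroup.card_bot] at hP
    exact hl.one_lt.ne hP
  by_cases h : ∀ g ∈ C, ∃ i : ℕ, g ^ l ^ i = 1
  · have h1 := (card_chB hl hL C).1 h
    have h2 : wtB l C = l ^ (Nat.card G).factorization l / Nat.card C := by
      unfold wtB
      rw [if_pos ⟨hC0, h⟩]
    obtain ⟨m, hm⟩ := ce_card hl C h
    have h3 : Nat.card {χ : G →* ℂˣ // C ≤ χ.ker ∧ ∀ P ∈ L, ¬ P ≤ χ.ker} =
        (Nat.card G / l ^ (Nat.card G).factorization l).totient * wtB l C := by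
      have hc : 0 < Nat.card C := Nat.card_pos
      rw [h2, hm, Nat.mul_div_cancel_left _ hc]
      apply Nat.eq_of_mul_eq_mul_right hc
      rw [h1, hm]
      ring
    rw [h3]
    push_cast
    rfl
  · have h1 := (card_chB hl hL C).2 h
    have h2 : wtB l C = 0 := by
      unfold wtB
      rw [if_neg fun h' => h h'.2]
    rw [h1, h2]
    simp

theorem ce_one {l : ℕ} (hl : l.Prime) {L : List (Subgroup G)} (hL : PrL G l L) :
    als (fun _ : Subgroup G => (1 : ℤ)) L ⊥ =
      ((Nat.card G / l ^ (Nat.card G).factorization l).totient : ℤ) * (del l G : ℤ) := by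
  classical
  have : Fact l.Prime := ⟨hl⟩
  by_cases h : L = []
  · have h1 := (prl_nil hl hL).1 h
    have h2 : del l G = 1 := by
      unfold del
      rw [if_pos h1]
    obtain ⟨n, hn⟩ := IsPGroup.iff_card.1 (show IsPGroup l G from h1)
    rw [h, als_nil, h2, hn, Nat.factorization_pow, hl.factorization]
    have h3 : (n • Finsupp.single l 1 : ℕ →₀ ℕ) l = n := by simp
    rw [h3, Nat.div_self (pow_pos hl.pos n), Nat.totient_one]
    simp
  · have h1 : ¬ ∀ g : G, ∃ i : ℕ, g ^ l ^ i = 1 := fun h' => h ((prl_nil hl hL).2 h')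
    have h2 : del l G = 0 := by
      unfold del
      rw [if_neg h1]
    rw [als_const 1 h, h2]
    simp

theorem als_eD_pr {l : ℕ} (hl : l.Prime) {L : List (Subgroup G)} (hL : PrL G l L)
    {P : Subgroup G} (hP : Nat.card P = l) :
    als (fun D => (eD B P D : ℤ) - 1) L ⊥ =
      ((Nat.card G / l ^ (Nat.card G).factorization l).totient : ℤ) *
        ((∑ i, wtB l (B i) : ℕ) - (del l G : ℤ)) := by
  classical
  have h1 : (fun D => (eD B P D : ℤ) - 1) = fun D : Subgroup G =>
      (fun D : Subgroup G => ∑ i : I, (fun (i : I) (D : Subgroup G) =>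
        if P ≤ B i then ((B i ⊔ D).index : ℤ) else 0) i D) D - (fun _ => (1 : ℤ)) D := by
    funext D
    unfold eD
    push_cast
    rfl
  rw [h1, als_sub, als_sum, ce_one hl hL, mul_sub]
  congr 1
  push_cast
  rw [Finset.mul_sum]
  refine Finset.sum_congr rfl fun i _ => ?_
  by_cases h : P ≤ B i
  · have h2 : (fun D : Subgroup G => if P ≤ B i then ((B i ⊔ D).index : ℤ) else 0) =
        fun D => ((B i ⊔ D).index : ℤ) := by
      funext D
      rw [if_pos h]
    rw [h2, ce_term hl hL hP (B i) h]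
  · have h2 : (fun D : Subgroup G => if P ≤ B i then ((B i ⊔ D).index : ℤ) else 0) =
        fun _ => (0 : ℤ) := by
      funext D
      rw [if_neg h]
    have h3 : ∀ (L : List (Subgroup G)) (D : Subgroup G), als (fun _ => (0 : ℤ)) L D = 0 := by
      intro L
      induction L with
      | nil => intro D; rfl
      | cons Q L ih => intro D; rw [als_cons, ih, ih, sub_zero]
    have h4 : wtB l (B i) = 0 := by
      unfold wtB
      rw [if_neg fun h' => h (ce_le hl hP h'.1 h'.2)]
    rw [h2, h3, h4]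
    simp

end CE

end Pool.Agent.CR

namespace Pool.Agent.CR
open Pool.Agent.RSK Pool.Agent.RS2 Pool.Agent.SY
open Filter Topology Complex

section
variable {G : Type} [CommGroup G] [Finite G] [IsCyclic G]
variable {I : Type} [Fintype I] (B : I → Subgroup G)

theorem als_cD {L : List (Subgroup G)} (hL : PrL G 0 L) :
    als (fun D => (cD B D : ℤ)) L ⊥ = (Nat.card {i // B i = ⊥} * (Nat.card G).totient : ℕ) :=
  @Pool.Agent.CR.als_cD_pr G _ _ _ I _ B L hL

end

end Pool.Agent.CR

namespace Pool.Agent.CR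
open Pool.Agent.RSK Pool.Agent.RS2 Pool.Agent.SY
open Filter Topology Complex

section
variable {G : Type} [CommGroup G] [Finite G] [IsCyclic G]
variable {I : Type} [Fintype I] (B : I → Subgroup G)

theorem als_eD {l : ℕ} (hl : l.Prime) {L : List (Subgroup G)} (hL : PrL G l L)
    {P : Subgroup G} (hP : Nat.card P = l) :
    als (fun D => (eD B P D : ℤ) - 1) L ⊥ =
      ((Nat.card G / l ^ (Nat.card G).factorization l).totient : ℤ) *
        ((∑ i, wtB l (B i) : ℕ) - (del l G : ℤ)) :=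
  @Pool.Agent.CR.als_eD_pr G _ _ _ I _ B l hl L hL P hP

end

end Pool.Agent.CR
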