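import Pool.Agent.Lib_helper17.CRF.D_WN
import Pool.Agent.Lib_helper17.CRF.N_PC1

/-!
# Composite Rubin (CR): block PC3 (places of the fixed fields)
-/

set_option autoImplicit false
set_option linter.unusedSectionVars false

namespace Pool.Agent.CR

open Pool.Agent.RSK Pool.Agent.RS2 Pool.Agent.RS3 Pool.Agent.SY
open NumberField IsDedekindDomain Filter Topology Complex

section PC3abs

variable {G Ω V : Type} [CommGroup G] [Finite G]

theorem pc3_fib (ρ : G →* Equiv.Perm Ω) (D : Subgroup G) (pr : Ω → V)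
    (hpr : ∀ P Q, pr P = pr Q ↔ ∃ g ∈ D, ρ g P = Q) (P₀ : Ω) (E : Subgroup G)
    (hE : ∀ g, ρ g P₀ = P₀ ↔ g ∈ E) :
    Nat.card {v : V // ∃ g, pr (ρ g P₀) = v} = (E ⊔ D).index := by
  have h1 : ∀ a b : G, a⁻¹ * b ∈ E ⊔ D ↔ pr (ρ a P₀) = pr (ρ b P₀) := by
    intro a b
    constructor
    · intro h
      obtain ⟨y, hy, z, hz, hyz⟩ := Subgroup.mem_sup.1 h
      refine (hpr _ _).2 ⟨z, hz, ?_⟩
      have e : b = z * a * y := by
        have : b = a * (a⁻¹ * b) := by group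
        rw [this, ← hyz]
        rw [mul_comm y z, ← mul_assoc, mul_comm a z]
      rw [e, map_mul, map_mul, Equiv.Perm.mul_apply, Equiv.Perm.mul_apply, (hE y).2 hy]
    · intro h
      obtain ⟨d, hd, hdd⟩ := (hpr _ _).1 h
      have h2 : b⁻¹ * (d * a) ∈ E := by
        rw [← hE, map_mul, map_mul, Equiv.Perm.mul_apply, Equiv.Perm.mul_apply, hdd,
          ← Equiv.Perm.mul_apply, ← map_mul, inv_mul_cancel, map_one]
        rfl
      have e : a⁻¹ * b = (b⁻¹ * (d * a))⁻¹ * d := by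
        rw [mul_inv_rev, mul_inv_rev, inv_inv, mul_assoc, mul_assoc, mul_comm b d,
          inv_mul_cancel_left]
      rw [e]
      exact Subgroup.mul_mem_sup (E.inv_mem h2) hd
  rw [Subgroup.index]
  refine (Nat.card_congr (Equiv.ofBijective (fun q : G ⧸ (E ⊔ D) => Quotient.liftOn' q
    (fun g => (⟨pr (ρ g P₀), g, rfl⟩ : {v : V // ∃ g, pr (ρ g P₀) = v})) ?_) ⟨?_, ?_⟩)).symm
  · intro a b hab
    exact Subtype.ext ((h1 a b).1 (QuotientGroup.leftRel_apply.1 hab))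
  · intro q q'
    refine Quotient.inductionOn₂' q q' fun a b hab => ?_
    exact Quotient.sound' (QuotientGroup.leftRel_apply.2 ((h1 a b).2 (congrArg Subtype.val hab)))
  · rintro ⟨v, g, rfl⟩
    exact ⟨Quotient.mk'' g, rfl⟩

theorem pc3_orb (ρ : G →* Equiv.Perm Ω) (D : Subgroup G) (pr : Ω → V)
    (hpr : ∀ P Q, pr P = pr Q ↔ ∃ g ∈ D, ρ g P = Q) (P : Ω) (E : Subgroup G)
    (hE : ∀ g, ρ g P = P ↔ g ∈ E) :
    Nat.card {Q // pr Q = pr P} * Nat.card (D ⊓ E : Subgroup G) = Nat.card D := by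
  have h1 : ∀ a b : D, a⁻¹ * b ∈ E.subgroupOf D ↔ ρ a P = ρ b P := by
    intro a b
    rw [Subgroup.mem_subgroupOf, ← hE]
    have e : ((a⁻¹ * b : D) : G) = (a : G)⁻¹ * b := rfl
    rw [e, map_mul, Equiv.Perm.mul_apply, map_inv, Equiv.Perm.inv_eq_iff_eq]
    exact eq_comm
  have h2 : Nat.card {Q // pr Q = pr P} = (E.subgroupOf D).index := by
    rw [Subgroup.index]
    refine (Nat.card_congr (Equiv.ofBijective (fun q : D ⧸ (E.subgroupOf D) => Quotient.liftOn' q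
      (fun g => (⟨ρ g P, ((hpr _ _).2 ⟨g, g.2, rfl⟩).symm⟩ : {Q // pr Q = pr P})) ?_)
      ⟨?_, ?_⟩)).symm
    · intro a b hab
      exact Subtype.ext ((h1 a b).1 (QuotientGroup.leftRel_apply.1 hab))
    · intro q q'
      refine Quotient.inductionOn₂' q q' fun a b hab => ?_
      exact Quotient.sound' (QuotientGroup.leftRel_apply.2 ((h1 a b).2 (congrArg Subtype.val hab)))
    · rintro ⟨Q, hQ⟩
      obtain ⟨g, hg, hgQ⟩ := (hpr _ _).1 hQ.symm
      exact ⟨Quotient.mk'' ⟨g, hg⟩, Subtype.ext hgQ⟩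
  have h3 : Nat.card (E.subgroupOf D) = Nat.card (D ⊓ E : Subgroup G) :=
    Nat.card_congr
      { toFun := fun x => ⟨x.1.1, x.1.2, x.2⟩
        invFun := fun x => ⟨⟨x.1, x.2.1⟩, x.2.2⟩
        left_inv := fun x => rfl
        right_inv := fun x => rfl }
  rw [h2, ← h3, mul_comm, Subgroup.card_mul_index]

end PC3abs

section PC3

variable {F K : Type} [Field F] [NumberField F] [Field K] [NumberField K] [Algebra F K]
  [IsGalois F K] {G : Type} [CommGroup G] [Fintype G] {ι : G ≃* (K ≃ₐ[F] K)}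
  {S T : Finset (HeightOneSpectrum (𝓞 F))} {r : ℕ} {w : Fin r → Pl K}
  {fr : HeightOneSpectrum (𝓞 F) → G}

/-- the place of `F` below -/
noncomputable def pc3_dn (L : IntermediateField F K) (S : Finset (HeightOneSpectrum (𝓞 F))) :
    PS (ovr L S) → PS S
  | Sum.inl w => Sum.inl (w.comap (algebraMap F L))
  | Sum.inr v => Sum.inr ⟨v.1.under (𝓞 F), mem_ovr.1 v.2⟩

theorem pc3_dn_pl (L : IntermediateField F K) (S : Finset (HeightOneSpectrum (𝓞 F)))
    (V : PS (ovr L S)) : (pc3_dn L S V).pl = dn F V.pl := by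
  rcases V with w | v <;> rfl

theorem pc3_up (S : Finset (HeightOneSpectrum (𝓞 F))) (v : PS S) :
    ∃ P : PS (ovr K S), dn F P.pl = v.pl := by
  obtain ⟨W, hW⟩ := dn_surj (H := K) v.pl
  rcases W with w | W
  · exact ⟨Sum.inl w, hW⟩
  · rcases v with q | q
    · exact absurd hW (by simp [dn, PS.pl])
    · have h1 : W.under (𝓞 F) = q.1 := Sum.inr_injective hW
      exact ⟨Sum.inr ⟨W, mem_ovr.2 (h1 ▸ q.2)⟩, hW⟩

/-- PC4. -/
theorem prod_pl_pr (ι : G ≃* (K ≃ₐ[F] K)) (S : Finset (HeightOneSpectrum (𝓞 F)))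
    (D : Subgroup G) :
    ∃ pr : PS (ovr K S) → PS (ovr (Kf ι D) S), Function.Surjective pr ∧
      (∀ P, (pr P).pl = dn (Kf ι D) P.pl) ∧
      (∀ P Q, pr P = pr Q ↔ ∃ g ∈ D, acG ι S g P = Q) ∧
      (∀ P, Nat.card {Q // pr Q = pr P} * Nat.card (D ⊓ dgF ι (dn F P.pl) : Subgroup G) =
        Nat.card D) ∧
      (∀ P, ∀ x : Kf ι D, lg P.pl (x : K) =
        Nat.card (D ⊓ dgF ι (dn F P.pl) : Subgroup G) * lg (pr P).pl x) ∧
      ∀ f : Subgroup G → ℝ, ∀ q : PS (ovr (Kf ι D) S) → ℝ,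
        (∀ P, q (pr P) = f (dgF ι (dn F P.pl))) →
        ∏ V, q V = ∏ v : PS S, f (dgS ι S v) ^ (dgS ι S v ⊔ D).index := by
  classical
  have key : ∃ pr : PS (ovr K S) → PS (ovr (Kf ι D) S), Function.Surjective pr ∧
      (∀ P, (pr P).pl = dn (Kf ι D) P.pl) ∧
      (∀ P Q, pr P = pr Q ↔ ∃ u ∈ D.map ι.toMonoidHom, acH K S u P = Q) := by
    obtain ⟨pr, hsurj, hpl, hiff, -⟩ := pl_fix (F₀ := F) (H := K) S (D.map ι.toMonoidHom)
    exact ⟨pr, hsurj, hpl, hiff⟩
  obtain ⟨pr, hsurj, hpl, hiff⟩ := key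
  have hgal : IsGalois (Kf ι D) K := IsGalois.tower_top_of_isGalois F (Kf ι D) K
  have hiff' : ∀ P Q, pr P = pr Q ↔ ∃ g ∈ D, acG ι S g P = Q := by
    intro P Q
    rw [hiff]
    constructor
    · rintro ⟨u, hu, hPQ⟩
      obtain ⟨g, hg, rfl⟩ := Subgroup.mem_map.1 hu
      exact ⟨g, hg, hPQ⟩
    · rintro ⟨g, hg, hPQ⟩
      exact ⟨ι.toMonoidHom g, Subgroup.mem_map.2 ⟨g, hg, rfl⟩, hPQ⟩
  have hE : ∀ (P : PS (ovr K S)) (g : G), acG ι S g P = P ↔ g ∈ dgF ι (dn F P.pl) := by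
    intro P g
    rw [dgF_eq, ← acG_pl]
    exact ⟨fun h => by rw [h], fun h => PS_ext h⟩
  refine ⟨pr, hsurj, hpl, hiff', fun P => pc3_orb (acG ι S) D pr hiff' P _ (hE P),
    fun P x => ?_, fun f q hq => ?_⟩
  · have h1 := lg_gal (F := Kf ι D) P.pl x
    have h2 : Nat.card {σ : K ≃ₐ[Kf ι D] K // act σ P.pl = P.pl} =
        Nat.card (D ⊓ dgF ι (dn F P.pl) : Subgroup G) := by
      have hm : ∀ σ : K ≃ₐ[Kf ι D] K, ι.symm (σ.restrictScalars F) ∈ D := by
        intro σ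
        obtain ⟨g, hg, hgσ⟩ := Subgroup.mem_map.1 (reb_mem (F₀ := F) (D.map ι.toMonoidHom) σ)
        have h3 : ι g = σ.restrictScalars F := hgσ
        rw [← h3, MulEquiv.symm_apply_apply]
        exact hg
      refine Nat.card_congr (Equiv.ofBijective (fun σ => ⟨ι.symm (σ.1.restrictScalars F),
        hm σ.1, ?_⟩) ⟨?_, ?_⟩)
      · show ι.symm (σ.1.restrictScalars F) ∈ dgF ι (dn F P.pl)
        rw [dgF_eq, MulEquiv.apply_symm_apply, act_restrict]
        exact σ.2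
      · intro σ τ hστ
        have h3 := congrArg Subtype.val hστ
        have h4 : σ.1.restrictScalars F = τ.1.restrictScalars F := ι.symm.injective h3
        exact Subtype.ext (AlgEquiv.restrictScalars_injective F h4)
      · rintro ⟨g, hg, hg'⟩
        obtain ⟨σ, hσ⟩ := reb_lift (F₀ := F) (D.map ι.toMonoidHom)
          (Subgroup.mem_map.2 ⟨g, hg, rfl⟩ : ι.toMonoidHom g ∈ D.map ι.toMonoidHom)
        refine ⟨⟨σ, ?_⟩, Subtype.ext ?_⟩
        · have h5 : act (ι g) P.pl = P.pl := (dgF_eq P.pl g).1 hg'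
          have h6 : act (σ.restrictScalars F) P.pl = P.pl := by
            rw [hσ]
            exact h5
          exact (act_restrict (F₀ := F) σ P.pl).symm.trans h6
        · show ι.symm (σ.restrictScalars F) = g
          rw [hσ]
          exact ι.symm_apply_apply g
    rw [← h2, hpl]
    exact h1
  · have hdn : ∀ P : PS (ovr K S), (pc3_dn (Kf ι D) S (pr P)).pl = dn F P.pl := by
      intro P
      rw [pc3_dn_pl, hpl, dn_dn]
    have hfib : ∀ v : PS S, (Finset.univ.filter fun V => pc3_dn (Kf ι D) S V = v).card =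
        (dgS ι S v ⊔ D).index := by
      intro v
      obtain ⟨P₀, hP₀⟩ := pc3_up (K := K) S v
      have h1 : dgS ι S v = dgF ι (dn F P₀.pl) := by
        rw [hP₀]
        rfl
      rw [h1, ← pc3_fib (acG ι S) D pr hiff' P₀ _ (hE P₀), ← Fintype.card_subtype,
        ← Nat.card_eq_fintype_card]
      refine Nat.card_congr (Equiv.subtypeEquivRight fun V => ?_)
      constructor
      · intro hV
        obtain ⟨P, rfl⟩ := hsurj V
        have h2 : dn F P₀.pl = dn F P.pl := by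
          rw [hP₀, ← hV, hdn]
        obtain ⟨σ, hσ⟩ := act_trans h2
        refine ⟨ι.symm σ, congrArg pr (PS_ext ?_)⟩
        rw [acG_pl, MulEquiv.apply_symm_apply]
        exact hσ
      · rintro ⟨g, rfl⟩
        exact PS_ext (by rw [hdn, acG_pl, dn_act, hP₀])
    rw [← Finset.prod_fiberwise Finset.univ (pc3_dn (Kf ι D) S) q]
    refine Finset.prod_congr rfl fun v _ => ?_
    rw [← hfib v]
    refine Finset.prod_eq_pow_card fun V hV => ?_
    obtain ⟨P, rfl⟩ := hsurj V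
    have h1 := (Finset.mem_filter.1 hV).2
    have h2 : dgS ι S v = dgF ι (dn F P.pl) := by
      rw [← hdn P, h1]
      rfl
    rw [hq, h2]

/-- PC3. -/
theorem card_pl_pr (ι : G ≃* (K ≃ₐ[F] K)) (S : Finset (HeightOneSpectrum (𝓞 F)))
    (D : Subgroup G) :
    Fintype.card (PS (ovr (Kf ι D) S)) = cD (dgS ι S) D := by
  obtain ⟨pr, -, -, -, -, -, h⟩ := prod_pl_pr ι S D
  have h1 := h (fun _ => 2) (fun _ => 2) (fun _ => rfl)
  rw [Finset.prod_const, Finset.card_univ, Finset.prod_pow_eq_pow_sum] at h1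
  have h2 : (2 : ℕ) ^ Fintype.card (PS (ovr (Kf ι D) S)) = 2 ^ cD (dgS ι S) D := by
    exact_mod_cast h1
  exact Nat.pow_right_injective le_rfl h2

end PC3

end Pool.Agent.CR

namespace Pool.Agent.CR
open Pool.Agent.RSK Pool.Agent.RS2 Pool.Agent.RS3 Pool.Agent.SY
open NumberField IsDedekindDomain Filter Topology Complex

section
variable {F K : Type} [Field F] [NumberField F] [Field K] [NumberField K] [Algebra F K]
  [IsGalois F K] {G : Type} [CommGroup G] [Fintype G] {ι : G ≃* (K ≃ₐ[F] K)}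
  {S T : Finset (HeightOneSpectrum (𝓞 F))} {r : ℕ} {w : Fin r → Pl K}
  {fr : HeightOneSpectrum (𝓞 F) → G}

theorem card_pl (ι : G ≃* (K ≃ₐ[F] K)) (S : Finset (HeightOneSpectrum (𝓞 F))) (D : Subgroup G) :
    Fintype.card (PS (ovr (Kf ι D) S)) = cD (dgS ι S) D :=
  @Pool.Agent.CR.card_pl_pr F K _ _ _ _ _ _ G _ _ ι S D

end

end Pool.Agent.CR

namespace Pool.Agent.CR
open Pool.Agent.RSK Pool.Agent.RS2 Pool.Agent.RS3 Pool.Agent.SY
open NumberField IsDedekindDomain Filter Topology Complex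

section
variable {F K : Type} [Field F] [NumberField F] [Field K] [NumberField K] [Algebra F K]
  [IsGalois F K] {G : Type} [CommGroup G] [Fintype G] {ι : G ≃* (K ≃ₐ[F] K)}
  {S T : Finset (HeightOneSpectrum (𝓞 F))} {r : ℕ} {w : Fin r → Pl K}
  {fr : HeightOneSpectrum (𝓞 F) → G}

theorem prod_pl (ι : G ≃* (K ≃ₐ[F] K)) (S : Finset (HeightOneSpectrum (𝓞 F))) (D : Subgroup G) :
    ∃ pr : PS (ovr K S) → PS (ovr (Kf ι D) S), Function.Surjective pr ∧
      (∀ P, (pr P).pl = dn (Kf ι D) P.pl) ∧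
      (∀ P Q, pr P = pr Q ↔ ∃ g ∈ D, acG ι S g P = Q) ∧
      (∀ P, Nat.card {Q // pr Q = pr P} * Nat.card (D ⊓ dgF ι (dn F P.pl) : Subgroup G) =
        Nat.card D) ∧
      (∀ P, ∀ x : Kf ι D, lg P.pl (x : K) =
        Nat.card (D ⊓ dgF ι (dn F P.pl) : Subgroup G) * lg (pr P).pl x) ∧
      ∀ f : Subgroup G → ℝ, ∀ q : PS (ovr (Kf ι D) S) → ℝ,
        (∀ P, q (pr P) = f (dgF ι (dn F P.pl))) →
        ∏ V, q V = ∏ v : PS S, f (dgS ι S v) ^ (dgS ι S v ⊔ D).index :=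
  @Pool.Agent.CR.prod_pl_pr F K _ _ _ _ _ _ G _ _ ι S D

end

end Pool.Agent.CR
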