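import Pool.Agent.Lib_helper17.CRF.D_WN
import Pool.Agent.Lib_helper17.CRF.N_PC3

/-!
# Composite Rubin (CR), block LD3: the class number formula for the fixed fields
-/

set_option autoImplicit false
set_option linter.unusedSectionVars false

namespace Pool.Agent.CR

open Pool.Agent.RSK Pool.Agent.RS2 Pool.Agent.RS3 Pool.Agent.SY
open NumberField IsDedekindDomain Filter Topology Complex

/-- the regulator does not depend on the basis -/
theorem ld3_reg {k : Type} [Field k] [NumberField k] {S T : Finset (HeightOneSpectrum (𝓞 k))}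
    {n m : ℕ} (b : Module.Basis (Fin n) ℤ (Additive (Un S T)))
    (b' : Module.Basis (Fin m) ℤ (Additive (Un S T))) :
    regS S (bu b') = regS S (bu b) := by
  have hcl : Subgroup.closure (Set.range fun j : Fin m => (Additive.toMul (b' j) : Un S T)) = ⊤ := by
    have h1 := b'.span_eq
    have h2 := congrArg Submodule.toAddSubgroup h1
    rw [Submodule.span_int_eq_addSubgroupClosure, Submodule.top_toAddSubgroup] at h2
    rw [eq_top_iff]
    intro x _
    have h3 : (Additive.ofMul x : Additive (Un S T)) ∈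
        AddSubgroup.closure (Set.range (b' : Fin m → Additive (Un S T))) := by
      rw [h2]
      exact AddSubgroup.mem_top _
    refine AddSubgroup.closure_induction
      (p := fun y _ => (Additive.toMul y : Un S T) ∈ Subgroup.closure (Set.range
        fun j : Fin m => (Additive.toMul (b' j) : Un S T))) ?_ ?_ ?_ ?_ h3
    · rintro _ ⟨j, rfl⟩
      exact Subgroup.subset_closure ⟨j, rfl⟩
    · exact Subgroup.one_mem _
    · intro a c _ _ ha hc
      exact Subgroup.mul_mem _ ha hc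
    · intro a _ ha
      exact Subgroup.inv_mem _ ha
  have h := reg_index (S := S) (n := 1) b
    (fun j : Fin m => (Additive.toMul (b' j) : Un S T))
    (Fintype.card_congr (b.indexEquiv b')) (by rw [hcl, Subgroup.index_top]) one_ne_zero
  rw [Nat.cast_one, one_mul] at h
  exact h

section N

variable {F K : Type} [Field F] [NumberField F] [Field K] [NumberField K] [Algebra F K]
  [IsGalois F K] {G : Type} [CommGroup G] [Fintype G] {ι : G ≃* (K ≃ₐ[F] K)}
  {S T : Finset (HeightOneSpectrum (𝓞 F))} {r : ℕ} {w : Fin r → Pl K}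
  {fr : HeightOneSpectrum (𝓞 F) → G}

theorem cnf_fix_pr (hD : Data ι S T r w fr) (D : Subgroup G) :
    0 < hK ι S T D ∧ 0 < rK ι S T D ∧
    (∀ {n : ℕ} (b : Module.Basis (Fin n) ℤ (Additive (Un (ovr (Kf ι D) S) (ovr (Kf ι D) T)))),
      regS (ovr (Kf ι D) S) (bu b) = rK ι S T D) ∧
    ∃ (n : ℕ) (Z : ℂ → ℂ), n + 1 = cD (dgS ι S) D ∧
      Nonempty (Module.Basis (Fin n) ℤ (Additive (Un (ovr (Kf ι D) S) (ovr (Kf ι D) T)))) ∧
      MeromorphicOn Z Set.univ ∧
      (∀ s : ℂ, 1 < s.re → Z s = zST (ovr (Kf ι D) S) (ovr (Kf ι D) T) s) ∧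
      ∃ ε : ℝ, |ε| = 1 ∧ Tendsto (fun s : ℂ => Z s / s ^ n) (𝓝[≠] 0)
        (𝓝 ((ε * (hK ι S T D * rK ι S T D) : ℝ) : ℂ)) := by
  have hdis : Disjoint (ovr (Kf ι D) S) (ovr (Kf ι D) T) := by
    rw [Finset.disjoint_left]
    intro W h1 h2
    rw [mem_ovr] at h1 h2
    exact Finset.disjoint_left.1 hD.disj h1 h2
  have htf : TFree (ovr (Kf ι D) S) (ovr (Kf ι D) T) := by
    refine RSK.tf_F (F := Kf ι D) (H := K) ?_
    rw [ovr_ovr, ovr_ovr]
    exact (tf_H hD).1
  obtain ⟨n, ⟨b⟩⟩ := un_exists hdis htf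
  have hreg : ∀ {m : ℕ} (b' : Module.Basis (Fin m) ℤ
      (Additive (Un (ovr (Kf ι D) S) (ovr (Kf ι D) T)))),
      regS (ovr (Kf ι D) S) (bu b') = rK ι S T D := by
    intro m b'
    have hex : ∃ n : ℕ, Nonempty (Module.Basis (Fin n) ℤ
        (Additive (Un (ovr (Kf ι D) S) (ovr (Kf ι D) T)))) := ⟨n, ⟨b⟩⟩
    unfold rK rgU
    rw [dif_pos hex]
    exact ld3_reg _ _
  obtain ⟨h1, h2, h3, Z, hZm, hZe, hZt⟩ := cnf hdis htf b
  rw [hreg b] at h2 hZt
  refine ⟨h3, h2, hreg, n, Z, ?_, ⟨b⟩, hZm, hZe, (-1) ^ ((ovr (Kf ι D) T).card + 1), ?_, ?_⟩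
  · rw [h1]
    exact card_pl ι S D
  · rw [abs_pow, abs_neg, abs_one, one_pow]
  · convert hZt using 2
    unfold hK
    push_cast
    ring

end N

end Pool.Agent.CR

namespace Pool.Agent.CR
open Pool.Agent.RSK Pool.Agent.RS2 Pool.Agent.RS3 Pool.Agent.SY
open NumberField IsDedekindDomain Filter Topology Complex

section
variable {F K : Type} [Field F] [NumberField F] [Field K] [NumberField K] [Algebra F K]
  [IsGalois F K] {G : Type} [CommGroup G] [Fintype G] {ι : G ≃* (K ≃ₐ[F] K)}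
  {S T : Finset (HeightOneSpectrum (𝓞 F))} {r : ℕ} {w : Fin r → Pl K}
  {fr : HeightOneSpectrum (𝓞 F) → G}

theorem cnf_fix (hD : Data ι S T r w fr) (D : Subgroup G) :
    0 < hK ι S T D ∧ 0 < rK ι S T D ∧
    (∀ {n : ℕ} (b : Module.Basis (Fin n) ℤ (Additive (Un (ovr (Kf ι D) S) (ovr (Kf ι D) T)))),
      regS (ovr (Kf ι D) S) (bu b) = rK ι S T D) ∧
    ∃ (n : ℕ) (Z : ℂ → ℂ), n + 1 = cD (dgS ι S) D ∧
      Nonempty (Module.Basis (Fin n) ℤ (Additive (Un (ovr (Kf ι D) S) (ovr (Kf ι D) T)))) ∧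
      MeromorphicOn Z Set.univ ∧
      (∀ s : ℂ, 1 < s.re → Z s = zST (ovr (Kf ι D) S) (ovr (Kf ι D) T) s) ∧
      ∃ ε : ℝ, |ε| = 1 ∧ Tendsto (fun s : ℂ => Z s / s ^ n) (𝓝[≠] 0)
        (𝓝 ((ε * (hK ι S T D * rK ι S T D) : ℝ) : ℂ)) :=
  @Pool.Agent.CR.cnf_fix_pr F K _ _ _ _ _ _ G _ _ ι S T r w fr hD D

end

end Pool.Agent.CR
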