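import Pool.Agent.Lib_helper17.CRF.D_WN
import Pool.Agent.Lib_helper17.CRF.B_PL
import Pool.Agent.Lib_helper17.CRF.A_TR
import Pool.Agent.Lib_helper17.CRF.N_PC5
import Pool.Agent.Lib_helper17.CRF.B_CE
import Pool.Agent.Lib_helper17.CRF.N_LD3

/-!
# Composite Rubin (CR), block GU3: ranks
-/

set_option autoImplicit false
set_option linter.unusedSectionVars false

namespace Pool.Agent.CR

open Pool.Agent.RSK Pool.Agent.RS2 Pool.Agent.RS3 Pool.Agent.SY
open NumberField IsDedekindDomain Filter Topology Complex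

section N

variable {F K : Type} [Field F] [NumberField F] [Field K] [NumberField K] [Algebra F K]
  [IsGalois F K] {G : Type} [CommGroup G] [Fintype G] {ι : G ≃* (K ≃ₐ[F] K)}
  {S T : Finset (HeightOneSpectrum (𝓞 F))} {r : ℕ} {w : Fin r → Pl K}
  {fr : HeightOneSpectrum (𝓞 F) → G}

theorem gu3_mem_un (ι : G ≃* (K ≃ₐ[F] K)) (S T : Finset (HeightOneSpectrum (𝓞 F)))
    (D : Subgroup G) (x : (Kf ι D)ˣ) :
    Units.map (algebraMap (Kf ι D) K : Kf ι D →* K) x ∈ Un (ovr K S) (ovr K T) ↔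
      x ∈ Un (ovr (Kf ι D) S) (ovr (Kf ι D) T) := by
  rw [← un_map (F := Kf ι D) (H := K) (S := ovr (Kf ι D) S) (T := ovr (Kf ι D) T) x, ovr_ovr,
    ovr_ovr]

/-- the units of the fixed field in the units of `K` -/
noncomputable def gu3_map (ι : G ≃* (K ≃ₐ[F] K)) (S T : Finset (HeightOneSpectrum (𝓞 F)))
    (D : Subgroup G) :
    Additive (Un (ovr (Kf ι D) S) (ovr (Kf ι D) T)) →+ UM ι S T where
  toFun y := UM.mk (Units.map (algebraMap (Kf ι D) K : Kf ι D →* K)
    ((Additive.toMul y : Un (ovr (Kf ι D) S) (ovr (Kf ι D) T)) : (Kf ι D)ˣ))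
    ((gu3_mem_un ι S T D _).2 (Additive.toMul y : Un _ _).2)
  map_zero' := by
    apply UM.ext
    rw [UM.val_mk, UM.val_zero]
    simp
  map_add' y z := by
    apply UM.ext
    rw [UM.val_add, UM.val_mk, UM.val_mk, UM.val_mk]
    simp

theorem gu3_map_val (D : Subgroup G) (y : Additive (Un (ovr (Kf ι D) S) (ovr (Kf ι D) T))) :
    (gu3_map ι S T D y).val = Units.map (algebraMap (Kf ι D) K : Kf ι D →* K)
      ((Additive.toMul y : Un (ovr (Kf ι D) S) (ovr (Kf ι D) T)) : (Kf ι D)ˣ) := rfl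

theorem gu3_map_inj (D : Subgroup G) : Function.Injective (gu3_map ι S T D) := by
  intro y z h
  have h1 := congrArg UM.val h
  rw [gu3_map_val, gu3_map_val] at h1
  have h2 := Units.map_injective (f := (algebraMap (Kf ι D) K : Kf ι D →* K))
    (algebraMap (Kf ι D) K).injective h1
  exact Subtype.ext h2

theorem gu3_smA (g : G) (u : UM ι S T) : (smA G (UM ι S T) g u).val = ι g • u.val :=
  um_single_smul ι S T g u

theorem gu3_map_range (D : Subgroup G) (u : UM ι S T) :
    u ∈ nty (smA G (UM ι S T)) [] D ↔ ∃ y, gu3_map ι S T D y = u := by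
  constructor
  · intro hu
    have h1 : ∀ g ∈ D, ι g • u.val = u.val := by
      intro g hg
      have h2 := congrArg UM.val (hu.1 g hg)
      rw [gu3_smA] at h2
      exact h2
    have hmem : (u.val : K) ∈ Kf ι D := by
      unfold Kf
      rw [IntermediateField.mem_fixedField_iff]
      rintro f ⟨g, hg, rfl⟩
      have h2 := congrArg (fun x : Kˣ => (x : K)) (h1 g hg)
      exact h2
    have hne : (⟨(u.val : K), hmem⟩ : Kf ι D) ≠ 0 := by
      intro h
      exact u.val.ne_zero (congrArg (fun x : Kf ι D => (x : K)) h)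
    have hy : Units.map (algebraMap (Kf ι D) K : Kf ι D →* K)
        (Units.mk0 (⟨(u.val : K), hmem⟩ : Kf ι D) hne) = u.val := by
      apply Units.ext
      rfl
    have h4 : Units.mk0 (⟨(u.val : K), hmem⟩ : Kf ι D) hne ∈
        Un (ovr (Kf ι D) S) (ovr (Kf ι D) T) := by
      rw [← gu3_mem_un, hy]
      exact u.val_mem
    refine ⟨Additive.ofMul (⟨_, h4⟩ : Un (ovr (Kf ι D) S) (ovr (Kf ι D) T)), ?_⟩
    apply UM.ext
    rw [gu3_map_val]
    exact hy
  · rintro ⟨y, rfl⟩
    refine ⟨fun g hg => ?_, fun P hP => absurd hP List.not_mem_nil⟩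
    apply UM.ext
    rw [gu3_smA, gu3_map_val]
    apply Units.ext
    have h2 := ((Additive.toMul y : Un (ovr (Kf ι D) S) (ovr (Kf ι D) T)) : (Kf ι D)ˣ).val.2
    have h3 : ∀ z : K, z ∈ Kf ι D → ι g z = z := by
      intro z hz
      unfold Kf at hz
      rw [IntermediateField.mem_fixedField_iff] at hz
      exact hz (ι g) ⟨g, hg, rfl⟩
    exact h3 _ h2

/-- the fixed elements are the units of the fixed field -/
noncomputable def gu3_equiv (ι : G ≃* (K ≃ₐ[F] K)) (S T : Finset (HeightOneSpectrum (𝓞 F)))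
    (D : Subgroup G) :
    Additive (Un (ovr (Kf ι D) S) (ovr (Kf ι D) T)) ≃+ nty (smA G (UM ι S T)) [] D :=
  AddEquiv.ofBijective
    ((gu3_map ι S T D).codRestrict (nty (smA G (UM ι S T)) [] D)
      fun y => (gu3_map_range D _).2 ⟨y, rfl⟩)
    ⟨fun y z h => gu3_map_inj D (congrArg Subtype.val h), fun u => by
      obtain ⟨y, hy⟩ := (gu3_map_range D u.1).1 u.2
      exact ⟨y, Subtype.ext hy⟩⟩

theorem gu3_rank (hD : Data ι S T r w fr) (D : Subgroup G) :
    Module.finrank ℤ (nty (smA G (UM ι S T)) [] D) + 1 = cD (dgS ι S) D := by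
  obtain ⟨-, -, -, n, Z, hn, ⟨b⟩, -⟩ := cnf_fix hD D
  rw [← LinearEquiv.finrank_eq (gu3_equiv ι S T D).toIntLinearEquiv,
    Module.finrank_eq_card_basis b, Fintype.card_fin, hn]

theorem rank_U_pr [IsCyclic G] (hD : Data ι S T r w fr) :
    (∀ D, Module.finrank ℤ (nty (smA G (UM ι S T)) [] D) + 1 = cD (dgS ι S) D) ∧
      Module.finrank ℤ (mI (smA G (UM ι S T))) = r * (Nat.card G).totient := by
  refine ⟨gu3_rank hD, ?_⟩
  have hfin := um_finite hD
  have htf := um_tf hD
  have hfree : Module.Free ℤ (UM ι S T) := Module.free_of_finite_type_torsion_free'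
  obtain ⟨L, hL⟩ := prl_exists G 0
  obtain ⟨hr, hnt, -⟩ := data_pl hD
  have hne : L ≠ [] := by
    intro h
    have h1 := (prl_nil0 hL).1 h
    exact not_subsingleton G h1
  have h1 := tyr (smA G (UM ι S T)) L ⊥
  have h2 : (fun D : Subgroup G => (Module.finrank ℤ (nty (smA G (UM ι S T)) [] D) : ℤ)) =
      fun D => (cD (dgS ι S) D : ℤ) - 1 := by
    funext D
    have h3 := gu3_rank hD D
    omega
  rw [h2, als_sub (fun D => (cD (dgS ι S) D : ℤ)) (fun _ => 1), als_const 1 hne, sub_zero,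
    als_cD (dgS ι S) hL, hr, ← mI_nty _ hL] at h1
  exact_mod_cast h1

end N

end Pool.Agent.CR

namespace Pool.Agent.CR
open Pool.Agent.RSK Pool.Agent.RS2 Pool.Agent.RS3 Pool.Agent.SY
open NumberField IsDedekindDomain Filter Topology Complex

section
variable {F K : Type} [Field F] [NumberField F] [Field K] [NumberField K] [Algebra F K]
  [IsGalois F K] {G : Type} [CommGroup G] [Fintype G] {ι : G ≃* (K ≃ₐ[F] K)}
  {S T : Finset (HeightOneSpectrum (𝓞 F))} {r : ℕ} {w : Fin r → Pl K}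
  {fr : HeightOneSpectrum (𝓞 F) → G}

theorem rank_U [IsCyclic G] (hD : Data ι S T r w fr) :
    (∀ D, Module.finrank ℤ (nty (smA G (UM ι S T)) [] D) + 1 = cD (dgS ι S) D) ∧
      Module.finrank ℤ (mI (smA G (UM ι S T))) = r * (Nat.card G).totient :=
  @Pool.Agent.CR.rank_U_pr F K _ _ _ _ _ _ G _ _ ι S T r w fr _ hD

end

end Pool.Agent.CR
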