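import Pool.Agent.Lib_helper17.CRF.D_WL
import Pool.Agent.Lib_helper17.CRF.N_GU3
import Pool.Agent.Lib_helper17.CRF.B_CG
import Pool.Agent.Lib_helper17.CRF.B_OP

/-!
# CR, block UQ: uniqueness
-/

set_option autoImplicit false
set_option linter.unusedSectionVars false

namespace Pool.Agent.CR

open Pool.Agent.RSK Pool.Agent.RS2 Pool.Agent.RS3 Pool.Agent.SY
open NumberField IsDedekindDomain Filter Topology Complex

section UP

variable {F K : Type} [Field F] [NumberField F] [Field K] [NumberField K] [Algebra F K]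
  [IsGalois F K] {G : Type} [CommGroup G] [Fintype G] {ι : G ≃* (K ≃ₐ[F] K)}
  {S T : Finset (HeightOneSpectrum (𝓞 F))} {r : ℕ} {w : Fin r → Pl K}
  {fr : HeightOneSpectrum (𝓞 F) → G}

theorem uq_inv {χ : G →* ℂˣ} (h : Function.Injective χ) : Function.Injective (χ⁻¹ : G →* ℂˣ) := by
  intro a b hab
  rw [MonoidHom.inv_apply, MonoidHom.inv_apply, inv_inj] at hab
  exact h hab

theorem uq_zr (χ : G →* ℂˣ) (a : MonoidAlgebra ℤ G) : evR χ (toR G a) = evZ χ a :=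
  Pool.Agent.RSK.uq_ev χ a

theorem uq_wdet (χ : G →* ℂˣ) (b : Fin r → UM ι S T) :
    Matrix.det (Matrix.of fun i j => ((evR χ : MonoidAlgebra ℝ G →+* ℂ).toAddMonoidHom.comp
      (wl ι S T (w i)).toAddMonoidHom) (b j)) = evR χ (wmat ι S T w b).det := by
  rw [AlgHom.map_det]
  rfl

theorem uq_pdet (χ : G →* ℂˣ) (ψ : Fin r → (UM ι S T →ₗ[MonoidAlgebra ℤ G] MonoidAlgebra ℤ G))
    (b : Fin r → UM ι S T) :
    Matrix.det (Matrix.of fun i j => ((evZ χ).toAddMonoidHom.comp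
      (ψ i).toAddMonoidHom) (b j)) = evZ χ (pmat ψ b).det := by
  rw [RingHom.map_det]
  rfl

theorem core_chg_pr [IsCyclic G] (hD : Data ι S T r w fr) {c : (G →* ℂˣ) → ℂ}
    (hc0 : ∀ χ : G →* ℂˣ, Function.Injective χ → c χ ≠ 0) {b : Fin r → UM ι S T}
    {x : MonoidAlgebra ℚ G} (hco : CoreF ι S T w c b x) {b' : Fin r → UM ι S T}
    (hb' : ∀ i, b' i ∈ mI (smA G (UM ι S T)))
    (h0 : (mSpn G b').relIndex (mI (smA G (UM ι S T))) ≠ 0) :
    (∀ χ : G →* ℂˣ, Function.Injective χ → evR χ (wmat ι S T w b').det ≠ 0) ∧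
    ∃ x' : MonoidAlgebra ℚ G, CoreF ι S T w c b' x' ∧
      ∀ ψ : Fin r → (UM ι S T →ₗ[MonoidAlgebra ℤ G] MonoidAlgebra ℤ G),
        x * toQ G (pmat ψ b).det = x' * toQ G (pmat ψ b').det := by
  have := Pool.Agent.RSK.um_finite hD
  have := Pool.Agent.RSK.um_tf hD
  obtain ⟨X, hX0, hX, -⟩ := chg (G := G) b b' hb' h0
  have hw : ∀ χ : G →* ℂˣ, Function.Injective χ → evR χ (wmat ι S T w b).det =
      evQ χ X * evR χ (wmat ι S T w b').det := by
    intro χ hχ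
    rw [← uq_wdet, ← uq_wdet]
    refine hX χ hχ _ fun i a u => ?_
    show evR χ (wl ι S T (w i) (a • u)) = evZ χ a * evR χ (wl ι S T (w i) u)
    rw [map_smul, ← uq_zr, ← map_mul]
    rfl
  have hp : ∀ (ψ : Fin r → (UM ι S T →ₗ[MonoidAlgebra ℤ G] MonoidAlgebra ℤ G))
      (χ : G →* ℂˣ), Function.Injective χ → evZ χ (pmat ψ b).det =
      evQ χ X * evZ χ (pmat ψ b').det := by
    intro ψ χ hχ
    rw [← uq_pdet, ← uq_pdet]
    refine hX χ hχ _ fun i a u => ?_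
    show evZ χ (ψ i (a • u)) = evZ χ a * evZ χ (ψ i u)
    rw [map_smul, smul_eq_mul, map_mul]
  refine ⟨fun χ hχ h => ?_, x * X, ⟨fun χ hχ => ?_, fun χ hχ => ?_⟩, fun ψ => ?_⟩
  · have h1 := hco.value χ hχ
    rw [hw χ hχ, h, mul_zero, mul_zero] at h1
    exact hc0 _ (uq_inv hχ) h1.symm
  · rw [map_mul, hX0 χ hχ, mul_zero]
  · rw [map_mul, mul_assoc, ← hw χ hχ, hco.value χ hχ]
  · refine evQ_inj fun χ => ?_
    by_cases hχ : Function.Injective χ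
    · rw [map_mul, map_mul, map_mul, mul_assoc]
      congr 1
      exact hp ψ χ hχ
    · rw [map_mul, map_mul, map_mul, hco.off χ hχ, zero_mul, zero_mul, zero_mul]

theorem leadI_uniq_pr {c c' : (G →* ℂˣ) → ℂ} (hc : LeadI S T r fr c) (hc' : LeadI S T r fr c') :
    ∀ χ : G →* ℂˣ, Function.Injective χ → c χ = c' χ := by
  intro χ hχ
  obtain ⟨Λ, h1, h2, h3⟩ := hc χ hχ
  obtain ⟨Λ', h1', h2', h3'⟩ := hc' χ hχ
  have h4 := mero_ext h1 h1' (fun s hs => (h2 s hs).trans (h2' s hs).symm) 0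
  refine tendsto_nhds_unique h3 (h3'.congr' ?_)
  filter_upwards [h4] with s hs
  rw [hs]

theorem core_uniqI_pr [IsCyclic G] (hD : Data ι S T r w fr) {c c' : (G →* ℂˣ) → ℂ}
    (hcc : ∀ χ : G →* ℂˣ, Function.Injective χ → c χ = c' χ)
    (hc0 : ∀ χ : G →* ℂˣ, Function.Injective χ → c χ ≠ 0) {b b' : Fin r → UM ι S T}
    {x x' : MonoidAlgebra ℚ G} (h : CoreF ι S T w c b x) (h' : CoreF ι S T w c' b' x')
    (ψ : Fin r → (UM ι S T →ₗ[MonoidAlgebra ℤ G] MonoidAlgebra ℤ G)) :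
    x * toQ G (pmat ψ b).det = x' * toQ G (pmat ψ b').det := by
  have := Pool.Agent.RSK.um_finite hD
  have := Pool.Agent.RSK.um_tf hD
  obtain ⟨β, hβ, hβ2⟩ := opt_all (G := G) (M := UM ι S T) (rank_U hD).2 Nat.prime_two
  have hβ0 : (mSpn G β).relIndex (mI (smA G (UM ι S T))) ≠ 0 := fun h0 =>
    hβ2 (h0 ▸ dvd_zero 2)
  have hc0' : ∀ χ : G →* ℂˣ, Function.Injective χ → c' χ ≠ 0 := fun χ hχ =>
    hcc χ hχ ▸ hc0 χ hχ
  obtain ⟨hne, y, hy, hyψ⟩ := core_chg_pr hD hc0 h hβ hβ0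
  obtain ⟨-, y', hy', hyψ'⟩ := core_chg_pr hD hc0' h' hβ hβ0
  rw [hyψ ψ, hyψ' ψ]
  congr 1
  refine evQ_inj fun χ => ?_
  by_cases hχ : Function.Injective χ
  · have h1 := hy.value χ hχ
    rw [hcc _ (uq_inv hχ), ← hy'.value χ hχ] at h1
    exact mul_right_cancel₀ (hne χ hχ) h1
  · rw [hy.off χ hχ, hy'.off χ hχ]

end UP

end Pool.Agent.CR

namespace Pool.Agent.CR
open Pool.Agent.RSK Pool.Agent.RS2 Pool.Agent.RS3 Pool.Agent.SY
open NumberField IsDedekindDomain Filter Topology Complex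

section
variable {F K : Type} [Field F] [NumberField F] [Field K] [NumberField K] [Algebra F K]
  [IsGalois F K] {G : Type} [CommGroup G] [Fintype G] {ι : G ≃* (K ≃ₐ[F] K)}
  {S T : Finset (HeightOneSpectrum (𝓞 F))} {r : ℕ} {w : Fin r → Pl K}
  {fr : HeightOneSpectrum (𝓞 F) → G}

theorem core_chg [IsCyclic G] (hD : Data ι S T r w fr) {c : (G →* ℂˣ) → ℂ}
    (hc0 : ∀ χ : G →* ℂˣ, Function.Injective χ → c χ ≠ 0) {b : Fin r → UM ι S T}
    {x : MonoidAlgebra ℚ G} (hco : CoreF ι S T w c b x) {b' : Fin r → UM ι S T}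
    (hb' : ∀ i, b' i ∈ mI (smA G (UM ι S T)))
    (h0 : (mSpn G b').relIndex (mI (smA G (UM ι S T))) ≠ 0) :
    (∀ χ : G →* ℂˣ, Function.Injective χ → evR χ (wmat ι S T w b').det ≠ 0) ∧
    ∃ x' : MonoidAlgebra ℚ G, CoreF ι S T w c b' x' ∧
      ∀ ψ : Fin r → (UM ι S T →ₗ[MonoidAlgebra ℤ G] MonoidAlgebra ℤ G),
        x * toQ G (pmat ψ b).det = x' * toQ G (pmat ψ b').det :=
  @Pool.Agent.CR.core_chg_pr F K _ _ _ _ _ _ G _ _ ι S T r w fr _ hD c hc0 b x hco b' hb' h0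

end

end Pool.Agent.CR

namespace Pool.Agent.CR
open Pool.Agent.RSK Pool.Agent.RS2 Pool.Agent.RS3 Pool.Agent.SY
open NumberField IsDedekindDomain Filter Topology Complex

section
variable {F K : Type} [Field F] [NumberField F] [Field K] [NumberField K] [Algebra F K]
  [IsGalois F K] {G : Type} [CommGroup G] [Fintype G] {ι : G ≃* (K ≃ₐ[F] K)}
  {S T : Finset (HeightOneSpectrum (𝓞 F))} {r : ℕ} {w : Fin r → Pl K}
  {fr : HeightOneSpectrum (𝓞 F) → G}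

theorem leadI_uniq {c c' : (G →* ℂˣ) → ℂ} (hc : LeadI S T r fr c) (hc' : LeadI S T r fr c') :
    ∀ χ : G →* ℂˣ, Function.Injective χ → c χ = c' χ :=
  @Pool.Agent.CR.leadI_uniq_pr F _ _ G _ _ S T r fr c c' hc hc'

end

end Pool.Agent.CR

namespace Pool.Agent.CR
open Pool.Agent.RSK Pool.Agent.RS2 Pool.Agent.RS3 Pool.Agent.SY
open NumberField IsDedekindDomain Filter Topology Complex

section
variable {F K : Type} [Field F] [NumberField F] [Field K] [NumberField K] [Algebra F K]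
  [IsGalois F K] {G : Type} [CommGroup G] [Fintype G] {ι : G ≃* (K ≃ₐ[F] K)}
  {S T : Finset (HeightOneSpectrum (𝓞 F))} {r : ℕ} {w : Fin r → Pl K}
  {fr : HeightOneSpectrum (𝓞 F) → G}

theorem core_uniqI [IsCyclic G] (hD : Data ι S T r w fr) {c c' : (G →* ℂˣ) → ℂ}
    (hcc : ∀ χ : G →* ℂˣ, Function.Injective χ → c χ = c' χ)
    (hc0 : ∀ χ : G →* ℂˣ, Function.Injective χ → c χ ≠ 0) {b b' : Fin r → UM ι S T}
    {x x' : MonoidAlgebra ℚ G} (h : CoreF ι S T w c b x) (h' : CoreF ι S T w c' b' x')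
    (ψ : Fin r → (UM ι S T →ₗ[MonoidAlgebra ℤ G] MonoidAlgebra ℤ G)) :
    x * toQ G (pmat ψ b).det = x' * toQ G (pmat ψ b').det :=
  @Pool.Agent.CR.core_uniqI_pr F K _ _ _ _ _ _ G _ _ ι S T r w fr _ hD c c' hcc hc0 b b' x x' h h' ψ

end

end Pool.Agent.CR
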