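import Pool.Agent.Lib_helper17.CRF.D_WA

set_option autoImplicit false
set_option linter.unusedSectionVars false

namespace Pool.Agent.CR

section GR

variable {M M' : Type} [AddCommGroup M] [AddCommGroup M'] (B : M →+ M →+ ℝ)

/-- Gram matrix of a transformed family -/
theorem gr1_change {ι κ : Type} [Fintype ι] [Fintype κ] (x : ι → M) (y : κ → M)
    (C : Matrix κ ι ℤ) (h : ∀ i, x i = ∑ k, C k i • y k) :
    (Matrix.of fun i j : ι => B (x i) (x j)) =
      (C.map (Int.cast : ℤ → ℝ)).transpose * (Matrix.of fun i j : κ => B (y i) (y j)) *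
        C.map (Int.cast : ℤ → ℝ) := by
  ext i j
  have hX : ∀ z : M, B (∑ k, C k i • y k) z = ∑ k, (C k i : ℝ) * B (y k) z := by
    intro z
    have h1 : B (∑ k, C k i • y k) z = B.flip z (∑ k, C k i • y k) := rfl
    rw [h1, map_sum]
    refine Finset.sum_congr rfl fun k _ => ?_
    rw [map_zsmul, zsmul_eq_mul]
    rfl
  have hY : B (x i) (x j) = ∑ l, B (x i) (y l) * (C l j : ℝ) := by
    rw [h j, map_sum]
    refine Finset.sum_congr rfl fun l _ => ?_
    rw [map_zsmul, zsmul_eq_mul, mul_comm]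
  rw [Matrix.mul_apply, Matrix.of_apply, hY]
  refine Finset.sum_congr rfl fun l _ => ?_
  rw [Matrix.mul_apply, Matrix.map_apply, h i, hX]
  rfl

/-- determinants of Gram matrices of the same size -/
theorem gr1_det {n : ℕ} (x y : Fin n → M) (C : Matrix (Fin n) (Fin n) ℤ)
    (h : ∀ i, x i = ∑ k, C k i • y k) :
    Matrix.det (Matrix.of fun i j : Fin n => B (x i) (x j)) =
      ((C.det : ℤ) : ℝ) ^ 2 * Matrix.det (Matrix.of fun i j : Fin n => B (y i) (y j)) := by
  rw [gr1_change B x y C h, Matrix.det_mul, Matrix.det_mul, Matrix.det_transpose]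
  have h1 : (C.map (Int.cast : ℤ → ℝ)).det = ((C.det : ℤ) : ℝ) := by
    have := (RingHom.map_det (Int.castRingHom ℝ) C).symm
    simpa using this
  rw [h1]
  ring

theorem gr1_two {N : AddSubgroup M} {n m : ℕ} (b : Module.Basis (Fin n) ℤ N)
    (b' : Module.Basis (Fin m) ℤ N) :
    Matrix.det (Matrix.of fun i j : Fin n => B (b i : M) (b j : M)) =
      Matrix.det (Matrix.of fun i j : Fin m => B (b' i : M) (b' j : M)) := by
  have hnm : n = m := by
    have := Fintype.card_congr (b.indexEquiv b')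
    simpa using this
  subst hnm
  have h1 : ∀ i, (b i : M) = ∑ k, b'.toMatrix b k i • (b' k : M) := by
    intro i
    conv_lhs => rw [← b'.sum_repr (b i)]
    rw [AddSubgroup.val_finsetSum]
    refine Finset.sum_congr rfl fun k _ => ?_
    rw [AddSubgroup.coe_zsmul]
    rfl
  rw [gr1_det B _ _ (b'.toMatrix b) h1]
  have h2 : IsUnit (b'.toMatrix b).det := by
    have := b'.isUnit_det b
    rwa [Module.Basis.det_apply] at this
  rcases Int.isUnit_iff.1 h2 with h3 | h3
  · rw [h3]; simp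
  · rw [h3]; simp

theorem grm_basis_pr {N : AddSubgroup M} {n : ℕ} (b : Module.Basis (Fin n) ℤ N) :
    grm B N = Matrix.det (Matrix.of fun i j : Fin n => B (b i : M) (b j : M)) := by
  classical
  have h : ∃ n : ℕ, Nonempty (Module.Basis (Fin n) ℤ N) := ⟨n, ⟨b⟩⟩
  unfold grm
  rw [dif_pos h]
  exact gr1_two B _ b

theorem grm_map_pr (B' : M' →+ M' →+ ℝ) (f : M →+ M') (N : AddSubgroup M)
    (hf : ∀ u ∈ N, f u = 0 → u = 0) (h : ∀ u ∈ N, ∀ v ∈ N, B' (f u) (f v) = B u v) :
    grm B' (N.map f) = grm B N := by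
  classical
  have hbij : Function.Bijective (f.addSubgroupMap N) := by
    refine ⟨?_, f.addSubgroupMap_surjective N⟩
    rw [injective_iff_map_eq_zero]
    intro u hu
    have h1 : f (u : M) = 0 := by
      have := congrArg Subtype.val hu
      exact this
    exact Subtype.ext (hf u u.2 h1)
  set e : N ≃+ N.map f := AddEquiv.ofBijective (f.addSubgroupMap N) hbij with he
  have he' : ∀ u : N, ((e u : N.map f) : M') = f (u : M) := fun u => rfl
  by_cases hex : ∃ n : ℕ, Nonempty (Module.Basis (Fin n) ℤ N)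
  · obtain ⟨n, ⟨b⟩⟩ := hex
    rw [grm_basis_pr B b, grm_basis_pr B' (b.map e.toIntLinearEquiv)]
    congr 1
    ext i j
    rw [Matrix.of_apply, Matrix.of_apply, Module.Basis.map_apply, Module.Basis.map_apply]
    change B' ((e (b i) : N.map f) : M') ((e (b j) : N.map f) : M') = _
    rw [he', he', h _ (b i).2 _ (b j).2]
  · have hex' : ¬ ∃ n : ℕ, Nonempty (Module.Basis (Fin n) ℤ (N.map f)) := by
      rintro ⟨n, ⟨b⟩⟩
      exact hex ⟨n, ⟨b.map e.symm.toIntLinearEquiv⟩⟩
    unfold grm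
    rw [dif_neg hex, dif_neg hex']

end GR

end Pool.Agent.CR

namespace Pool.Agent.CR

section
variable {M M' : Type} [AddCommGroup M] [AddCommGroup M'] (B : M →+ M →+ ℝ)

theorem grm_basis {N : AddSubgroup M} {n : ℕ} (b : Module.Basis (Fin n) ℤ N) :
    grm B N = Matrix.det (Matrix.of fun i j : Fin n => B (b i : M) (b j : M)) :=
  @Pool.Agent.CR.grm_basis_pr M _ B N n b

end

end Pool.Agent.CR

namespace Pool.Agent.CR

section
variable {M M' : Type} [AddCommGroup M] [AddCommGroup M'] (B : M →+ M →+ ℝ)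

theorem grm_map (B' : M' →+ M' →+ ℝ) (f : M →+ M') (N : AddSubgroup M)
    (hf : ∀ u ∈ N, f u = 0 → u = 0) (h : ∀ u ∈ N, ∀ v ∈ N, B' (f u) (f v) = B u v) :
    grm B' (N.map f) = grm B N :=
  @Pool.Agent.CR.grm_map_pr M M' _ _ B B' f N hf h

end

end Pool.Agent.CR
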