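import Pool.Agent.Lib_helper17.CRF.D_WA
import Pool.Agent.Lib_helper17.CRF.A_GR1

set_option autoImplicit false
set_option linter.unusedSectionVars false

namespace Pool.Agent.CR

section GR

variable {M M' : Type} [AddCommGroup M] [AddCommGroup M'] (B : M →+ M →+ ℝ)

/-- Gram matrix of a transformed family -/
theorem gr2_change {ι κ : Type} [Fintype ι] [Fintype κ] (x : ι → M) (y : κ → M)
    (C : Matrix κ ι ℤ) (h : ∀ i, x i = ∑ k, C k i • y k) :
    (Matrix.of fun i j : ι => B (x i) (x j)) =
      (C.map (Int.cast : ℤ → ℝ)).transpose * (Matrix.of fun i j : κ => B (y i) (y j)) *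
        C.map (Int.cast : ℤ → ℝ) := by
  ext i j
  have hX : ∀ z : M, B (∑ k, C k i • y k) z = ∑ k, (C k i : ℝ) * B (y k) z := by
    intro z
    have h1 : B (∑ k, C k i • y k) z = B.flip z (∑ k, C k i • y k) := rfl
    rw [h1, map_sum]
    refine Finset.sum_congr rfl fun k _ => ?_
    rw [map_zsmul, zsmul_eq_mul]
    rfl
  have hY : B (x i) (x j) = ∑ l, B (x i) (y l) * (C l j : ℝ) := by
    rw [h j, map_sum]
    refine Finset.sum_congr rfl fun l _ => ?_
    rw [map_zsmul, zsmul_eq_mul, mul_comm]
  rw [Matrix.mul_apply, Matrix.of_apply, hY]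
  refine Finset.sum_congr rfl fun l _ => ?_
  rw [Matrix.mul_apply, Matrix.map_apply, h i, hX]
  rfl

/-- determinants of Gram matrices of the same size -/
theorem gr2_det {n : ℕ} (x y : Fin n → M) (C : Matrix (Fin n) (Fin n) ℤ)
    (h : ∀ i, x i = ∑ k, C k i • y k) :
    Matrix.det (Matrix.of fun i j : Fin n => B (x i) (x j)) =
      ((C.det : ℤ) : ℝ) ^ 2 * Matrix.det (Matrix.of fun i j : Fin n => B (y i) (y j)) := by
  rw [gr2_change B x y C h, Matrix.det_mul, Matrix.det_mul, Matrix.det_transpose]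
  have h1 : (C.map (Int.cast : ℤ → ℝ)).det = ((C.det : ℤ) : ℝ) := by
    have := (RingHom.map_det (Int.castRingHom ℝ) C).symm
    simpa using this
  rw [h1]
  ring

theorem grm_index_pr [Module.Finite ℤ M] [Module.Free ℤ M] {N N' : AddSubgroup M} (h : N ≤ N')
    (h0 : N.relIndex N' ≠ 0) :
    grm B N = ((N.relIndex N' : ℕ) : ℝ) ^ 2 * grm B N' := by
  classical
  -- bases
  obtain ⟨n, ⟨b⟩⟩ : ∃ n : ℕ, Nonempty (Module.Basis (Fin n) ℤ N.toIntSubmodule) :=
    ⟨_, ⟨Module.finBasis ℤ N.toIntSubmodule⟩⟩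
  obtain ⟨n', ⟨b'⟩⟩ : ∃ n : ℕ, Nonempty (Module.Basis (Fin n) ℤ N'.toIntSubmodule) :=
    ⟨_, ⟨Module.finBasis ℤ N'.toIntSubmodule⟩⟩
  have hn : n = Module.finrank ℤ N.toIntSubmodule := by
    rw [Module.finrank_eq_card_basis b, Fintype.card_fin]
  have hn' : n' = Module.finrank ℤ N'.toIntSubmodule := by
    rw [Module.finrank_eq_card_basis b', Fintype.card_fin]
  have hnn : n = n' := by
    apply le_antisymm
    · rw [hn, hn']
      exact Submodule.finrank_mono (show N.toIntSubmodule ≤ N'.toIntSubmodule from h)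
    · rw [hn, hn']
      set K := N.relIndex N' with hK
      have hmem : ∀ x ∈ N', K • x ∈ N := by
        intro x hx
        have h2 := AddSubgroup.nsmul_index_mem (N.addSubgroupOf N') (⟨x, hx⟩ : N')
        exact h2
      let φ : N'.toIntSubmodule →ₗ[ℤ] N.toIntSubmodule :=
        { toFun := fun x => ⟨(K : ℤ) • (x : M), by
            have := hmem x x.2
            rwa [← natCast_zsmul] at this⟩
          map_add' := fun x y => Subtype.ext (by
            change (K : ℤ) • ((x : M) + (y : M)) = (K : ℤ) • (x : M) + (K : ℤ) • (y : M)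
            rw [smul_add])
          map_smul' := fun c x => Subtype.ext (by
            change (K : ℤ) • (c • (x : M)) = c • ((K : ℤ) • (x : M))
            rw [smul_comm]) }
      refine LinearMap.finrank_le_finrank_of_injective (f := φ) ?_
      rw [injective_iff_map_eq_zero]
      intro x hx
      have h3 : (K : ℤ) • (x : M) = 0 := congrArg Subtype.val hx
      have h4 : (x : M) = 0 := by
        rcases smul_eq_zero.1 h3 with h5 | h5
        · exact absurd (by exact_mod_cast h5) h0
        · exact h5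
      exact Subtype.ext h4
  subst hnn
  have key := AddSubgroup.relIndex_eq_natAbs_det N N' h b b'
  have e1 : grm B N = Matrix.det (Matrix.of fun i j : Fin n =>
      B ((b i : N.toIntSubmodule) : M) ((b j : N.toIntSubmodule) : M)) :=
    grm_basis B (N := N) b
  have e2 : grm B N' = Matrix.det (Matrix.of fun i j : Fin n =>
      B ((b' i : N'.toIntSubmodule) : M) ((b' j : N'.toIntSubmodule) : M)) :=
    grm_basis B (N := N') b'
  rw [e1, e2, key]
  set v : Fin n → N'.toIntSubmodule := fun i => ⟨b i, (h (SetLike.coe_mem _))⟩ with hv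
  have h1 : ∀ i, ((b i : N.toIntSubmodule) : M) =
      ∑ k, b'.toMatrix v k i • ((b' k : N'.toIntSubmodule) : M) := by
    intro i
    have h2 := b'.sum_repr (v i)
    have h3 := congrArg (Subtype.val) h2
    rw [Submodule.coe_sum] at h3
    exact h3.symm
  rw [gr2_det B _ _ (b'.toMatrix v) h1, Module.Basis.det_apply]
  congr 1
  rw [Nat.cast_natAbs, Int.cast_abs, sq_abs]

end GR

end Pool.Agent.CR

namespace Pool.Agent.CR

section
variable {M M' : Type} [AddCommGroup M] [AddCommGroup M'] (B : M →+ M →+ ℝ)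

theorem grm_index [Module.Finite ℤ M] [Module.Free ℤ M] {N N' : AddSubgroup M} (h : N ≤ N') (h0 : N.relIndex N' ≠ 0) :
    grm B N = ((N.relIndex N' : ℕ) : ℝ) ^ 2 * grm B N' :=
  @Pool.Agent.CR.grm_index_pr M _ B _ _ N N' h h0

end

end Pool.Agent.CR
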