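import Pool.Agent.Lib_helper17.CRF.D_WA
import Pool.Agent.Lib_helper17.CRF.A_GR1

/-!
# Block GR3: Gram determinants of orthogonal sums
-/

set_option autoImplicit false
set_option linter.unusedSectionVars false

namespace Pool.Agent.CR

section GR

variable {M M' : Type} [AddCommGroup M] [AddCommGroup M'] (B : M →+ M →+ ℝ)

/-- subgroups of a free abelian group of finite rank have a basis -/
theorem gr3_basis [Module.Finite ℤ M] [Module.Free ℤ M] (N : AddSubgroup M) :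
    ∃ n : ℕ, Nonempty (Module.Basis (Fin n) ℤ N) := by
  obtain ⟨n, ⟨b⟩⟩ := Submodule.nonempty_basis_of_pid (Module.finBasis ℤ M) (AddSubgroup.toIntSubmodule N)
  exact ⟨n, ⟨b⟩⟩

/-- the sum map -/
noncomputable def gr3_hom (N N' : AddSubgroup M) : (N × N') →+ (N ⊔ N' : AddSubgroup M) where
  toFun p := ⟨(p.1 : M) + (p.2 : M), add_mem (AddSubgroup.mem_sup_left p.1.2)
    (AddSubgroup.mem_sup_right p.2.2)⟩
  map_zero' := by
    apply Subtype.ext
    simp
  map_add' p q := by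
    apply Subtype.ext
    simp only [Prod.fst_add, Prod.snd_add, AddSubgroup.coe_add]
    abel

theorem gr3_bij {N N' : AddSubgroup M} (h : N ⊓ N' = ⊥) : Function.Bijective (gr3_hom N N') := by
  constructor
  · rw [injective_iff_map_eq_zero]
    rintro ⟨u, v⟩ h0
    have h1 : (u : M) + (v : M) = 0 := congrArg Subtype.val h0
    have h2 : (u : M) = -(v : M) := eq_neg_of_add_eq_zero_left h1
    have h3 : (u : M) ∈ N ⊓ N' := ⟨u.2, by rw [h2]; exact N'.neg_mem v.2⟩
    rw [h, AddSubgroup.mem_bot] at h3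
    have h4 : (v : M) = 0 := by rw [h3, zero_add] at h1; exact h1
    exact Prod.ext (Subtype.ext h3) (Subtype.ext h4)
  · rintro ⟨x, hx⟩
    obtain ⟨u, hu, v, hv, rfl⟩ := AddSubgroup.mem_sup.1 hx
    exact ⟨(⟨u, hu⟩, ⟨v, hv⟩), rfl⟩

/-- GR3. Orthogonal sums. -/
theorem grm_sup_pr [Module.Finite ℤ M] [Module.Free ℤ M] {N N' : AddSubgroup M} (h : N ⊓ N' = ⊥) (h1 : ∀ u ∈ N, ∀ v ∈ N', B u v = 0)
    (h2 : ∀ u ∈ N, ∀ v ∈ N', B v u = 0) : grm B (N ⊔ N') = grm B N * grm B N' := by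
  obtain ⟨n, ⟨b⟩⟩ := gr3_basis N
  obtain ⟨n', ⟨b'⟩⟩ := gr3_basis N'
  let e : (N × N') ≃ₗ[ℤ] (N ⊔ N' : AddSubgroup M) :=
    (AddEquiv.ofBijective (gr3_hom N N') (gr3_bij h)).toIntLinearEquiv
  let c : Module.Basis (Fin (n + n')) ℤ (N ⊔ N' : AddSubgroup M) :=
    ((b.prod b').map e).reindex finSumFinEquiv
  rw [grm_basis B c, grm_basis B b, grm_basis B b']
  have hl : ∀ i : Fin n, ((c (finSumFinEquiv (Sum.inl i)) : (N ⊔ N' : AddSubgroup M)) : M) =
      (b i : M) := by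
    intro i
    change (((((b.prod b').map e).reindex finSumFinEquiv) (finSumFinEquiv (Sum.inl i)) :
      (N ⊔ N' : AddSubgroup M)) : M) = _
    rw [Module.Basis.reindex_apply, Equiv.symm_apply_apply, Module.Basis.map_apply]
    change (((b.prod b') (Sum.inl i)).1 : M) + (((b.prod b') (Sum.inl i)).2 : M) = _
    simp
  have hr : ∀ i : Fin n', ((c (finSumFinEquiv (Sum.inr i)) : (N ⊔ N' : AddSubgroup M)) : M) =
      (b' i : M) := by
    intro i
    change (((((b.prod b').map e).reindex finSumFinEquiv) (finSumFinEquiv (Sum.inr i)) :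
      (N ⊔ N' : AddSubgroup M)) : M) = _
    rw [Module.Basis.reindex_apply, Equiv.symm_apply_apply, Module.Basis.map_apply]
    change (((b.prod b') (Sum.inr i)).1 : M) + (((b.prod b') (Sum.inr i)).2 : M) = _
    simp
  rw [← Matrix.det_reindex_self finSumFinEquiv.symm, ← Matrix.det_fromBlocks_zero₁₂ _ 0 _]
  congr 1
  ext i j
  rw [Matrix.reindex_apply, Matrix.submatrix_apply, Equiv.symm_symm]
  rcases i with i | i <;> rcases j with j | j
  · rw [Matrix.of_apply, hl, hl, Matrix.fromBlocks_apply₁₁, Matrix.of_apply]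
  · rw [Matrix.of_apply, hl, hr, Matrix.fromBlocks_apply₁₂, Matrix.zero_apply]
    exact h1 _ (b i).2 _ (b' j).2
  · rw [Matrix.of_apply, hl, hr, Matrix.fromBlocks_apply₂₁, Matrix.zero_apply]
    exact h2 _ (b j).2 _ (b' i).2
  · rw [Matrix.of_apply, hr, hr, Matrix.fromBlocks_apply₂₂, Matrix.of_apply]

end GR

end Pool.Agent.CR

namespace Pool.Agent.CR

section
variable {M M' : Type} [AddCommGroup M] [AddCommGroup M'] (B : M →+ M →+ ℝ)

theorem grm_sup [Module.Finite ℤ M] [Module.Free ℤ M] {N N' : AddSubgroup M} (h : N ⊓ N' = ⊥) (h1 : ∀ u ∈ N, ∀ v ∈ N', B u v = 0)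
    (h2 : ∀ u ∈ N, ∀ v ∈ N', B v u = 0) : grm B (N ⊔ N') = grm B N * grm B N' :=
  @Pool.Agent.CR.grm_sup_pr M _ B _ _ N N' h h1 h2

end

end Pool.Agent.CR
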