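import Pool.Agent.Lib_helper17.CRF.D_WA
import Pool.Agent.Lib_helper17.CRF.A_GR2
import Pool.Agent.Lib_helper17.CRF.A_NA
import Pool.Agent.Lib_helper17.CRF.A_GR3

/-!
# Composite Rubin (CR), block TG (helper59)
-/

set_option autoImplicit false
set_option linter.unusedSectionVars false

namespace Pool.Agent.CR

section TG

variable {G M : Type} [CommGroup G] [Finite G] [AddCommGroup M] (A : G →* AddMonoid.End M)

theorem tg_fix_sup (D P : Subgroup G) (u : M) (h : ∀ g ∈ D, A g u = u) (h' : ∀ g ∈ P, A g u = u) :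
    ∀ g ∈ D ⊔ P, A g u = u := by
  intro g hg
  obtain ⟨a, ha, b, hb, rfl⟩ := Subgroup.mem_sup.mp hg
  rw [map_mul]
  change A a (A b u) = u
  rw [h' b hb, h a ha]

/-- `nA P` maps `nty L D` to `nty L (D ⊔ P)` -/
theorem tg_map (L : List (Subgroup G)) (D P : Subgroup G) {u : M} (hu : u ∈ nty A L D) :
    nA A P u ∈ nty A L (D ⊔ P) := by
  have hb := nA_basic A P u
  refine ⟨?_, fun Q hQ => ?_⟩
  · refine tg_fix_sup A D P _ (fun g hg => ?_) hb.2.2.1
    rw [hb.1 g, hu.1 g hg]
  · rw [hb.2.1 Q, hu.2 Q hQ, map_zero]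

theorem tg_mem_cons (L : List (Subgroup G)) (D P : Subgroup G) {u : M} :
    u ∈ nty A (P :: L) D ↔ u ∈ nty A L D ∧ nA A P u = 0 := by
  constructor
  · intro h
    exact ⟨⟨h.1, fun Q hQ => h.2 Q (List.mem_cons_of_mem _ hQ)⟩, h.2 P List.mem_cons_self⟩
  · intro h
    refine ⟨h.1.1, fun Q hQ => ?_⟩
    rcases List.mem_cons.mp hQ with rfl | hQ
    · exact h.2
    · exact h.1.2 Q hQ

theorem tg_le (L : List (Subgroup G)) (D P : Subgroup G) : nty A L (D ⊔ P) ≤ nty A L D :=
  fun _ hu => ⟨fun g hg => hu.1 g (Subgroup.mem_sup_left hg), hu.2⟩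

/-- the index of a subgroup containing all multiples by a prime `p` -/
theorem tg_index [Module.Finite ℤ M] {H N : AddSubgroup M} {p l : ℕ} (hp : p.Prime)
    (hl : l.Prime) (hpl : p ≠ l) (h : ∀ u ∈ N, p • u ∈ H) :
    H.relIndex N ≠ 0 ∧ ¬ l ∣ H.relIndex N := by
  have hN : Module.Finite ℤ N := by
    have : IsNoetherian ℤ M := inferInstance
    exact inferInstanceAs (Module.Finite ℤ (AddSubgroup.toIntSubmodule N))
  have h1 : ∀ q : N ⧸ H.addSubgroupOf N, p • q = 0 := by
    intro q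
    obtain ⟨u, rfl⟩ := QuotientAddGroup.mk_surjective q
    rw [← QuotientAddGroup.mk_nsmul, QuotientAddGroup.eq_zero_iff]
    exact h u u.2
  have h2 : Finite (N ⧸ H.addSubgroupOf N) := by
    have h3 : AddGroup.FG N := by
      rw [← Module.Finite.iff_addGroup_fg]
      exact hN
    refine AddCommGroup.finite_of_fg_torsion _ (fun q => ?_)
    rw [isOfFinAddOrder_iff_nsmul_eq_zero]
    exact ⟨p, hp.pos, h1 q⟩
  have h3 : H.relIndex N = Nat.card (N ⧸ H.addSubgroupOf N) := rfl
  rw [h3]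
  refine ⟨Nat.card_pos.ne', fun h4 => ?_⟩
  haveI := Fact.mk hl
  obtain ⟨q, hq⟩ := exists_prime_addOrderOf_dvd_card' (G := N ⧸ H.addSubgroupOf N) l h4
  have h5 := addOrderOf_dvd_of_nsmul_eq_zero (h1 q)
  rw [hq] at h5
  exact hpl ((Nat.prime_dvd_prime_iff_eq hl hp).mp h5).symm

theorem tyg_pr [Module.Finite ℤ M] [Module.Free ℤ M] (B : M →+ M →+ ℝ)
    (hB : ∀ g u v, B (A g u) (A g v) = B u v) {l : ℕ} (hl : l.Prime) (L : List (Subgroup G))
    (hL : ∀ P ∈ L, (Nat.card P).Prime ∧ Nat.card P ≠ l)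
    (h0 : ∀ D, grm B (nty A [] D) ≠ 0) (D : Subgroup G) :
    grm B (nty A L D) ≠ 0 ∧
      Eql l (alt (fun D => grm B (nty A [] D)) L D) (grm B (nty A L D)) := by
  induction L generalizing D with
  | nil => exact ⟨h0 D, eql_refl hl _⟩
  | cons P L ih =>
    have ih' := ih fun Q hQ => hL Q (List.mem_cons_of_mem _ hQ)
    obtain ⟨hP1, hP2⟩ := hL P List.mem_cons_self
    obtain ⟨n1, e1⟩ := ih' D
    obtain ⟨n2, e2⟩ := ih' (D ⊔ P)
    have hc : (Nat.card P : ℤ) ≠ 0 := by
      have := hP1.pos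
      omega
    have hfx : ∀ u ∈ nty A L (D ⊔ P), ∀ g ∈ P, A g u = u := fun u hu g hg =>
      hu.1 g (Subgroup.mem_sup_right hg)
    -- orthogonality
    haveI : Fintype P := Fintype.ofFinite P
    have ho1 : ∀ u ∈ nty A (P :: L) D, ∀ v ∈ nty A L (D ⊔ P), B u v = 0 := by
      intro u hu v hv
      have h1 : B (nA A P u) v = Nat.card P • B u v := by
        rw [nA_sum, map_sum, AddMonoidHom.finsetSum_apply]
        have h2 : ∀ g ∈ (Finset.univ : Finset P), B (A (g : G) u) v = B u v := fun g _ => by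
          conv_lhs => rw [← hfx v hv g g.2]
          exact hB _ _ _
        rw [Finset.sum_congr rfl h2, Finset.sum_const, Finset.card_univ, Nat.card_eq_fintype_card]
      rw [((tg_mem_cons A L D P).mp hu).2, map_zero, AddMonoidHom.zero_apply, nsmul_eq_mul] at h1
      rcases mul_eq_zero.mp h1.symm with h2 | h2
      · exact absurd (Nat.cast_eq_zero.mp h2) hP1.pos.ne'
      · exact h2
    have ho2 : ∀ u ∈ nty A (P :: L) D, ∀ v ∈ nty A L (D ⊔ P), B v u = 0 := by
      intro u hu v hv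
      have h1 : B v (nA A P u) = Nat.card P • B v u := by
        rw [nA_sum, map_sum]
        have h2 : ∀ g ∈ (Finset.univ : Finset P), B v (A (g : G) u) = B v u := fun g _ => by
          conv_lhs => rw [← hfx v hv g g.2]
          exact hB _ _ _
        rw [Finset.sum_congr rfl h2, Finset.sum_const, Finset.card_univ, Nat.card_eq_fintype_card]
      rw [((tg_mem_cons A L D P).mp hu).2, map_zero, nsmul_eq_mul] at h1
      rcases mul_eq_zero.mp h1.symm with h2 | h2
      · exact absurd (Nat.cast_eq_zero.mp h2) hP1.pos.ne'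
      · exact h2
    -- the intersection
    have hi : nty A (P :: L) D ⊓ nty A L (D ⊔ P) = ⊥ := by
      rw [eq_bot_iff]
      intro u hu
      have h1 := ((tg_mem_cons A L D P).mp hu.1).2
      rw [(nA_basic A P u).2.2.2.2.2 (hfx u hu.2), ← natCast_zsmul] at h1
      rcases smul_eq_zero.mp h1 with h2 | h2
      · exact absurd h2 hc
      · exact AddSubgroup.mem_bot.mpr h2
    have hle : nty A (P :: L) D ⊔ nty A L (D ⊔ P) ≤ nty A L D :=
      sup_le (fun u hu => ((tg_mem_cons A L D P).mp hu).1) (tg_le A L D P)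
    obtain ⟨i1, i2⟩ := tg_index (H := nty A (P :: L) D ⊔ nty A L (D ⊔ P)) (N := nty A L D)
      hP1 hl hP2 (by
        intro u hu
        have h1 := tg_map A L D P hu
        have h2 : Nat.card P • u = (Nat.card P • u - nA A P u) + nA A P u := by abel
        rw [h2]
        refine AddSubgroup.add_mem_sup ((tg_mem_cons A L D P).mpr ⟨?_, ?_⟩) h1
        · exact AddSubgroup.sub_mem _ (AddSubgroup.nsmul_mem _ hu _) (tg_le A L D P h1)
        · rw [map_sub, map_nsmul, (nA_basic A P u).2.2.2.2.1, sub_self])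
    have g1 := grm_sup B hi ho1 (fun v hv u hu => ho2 v hv u hu)
    have g2 := grm_index B hle i1
    rw [g1] at g2
    have i3 : (((nty A (P :: L) D ⊔ nty A L (D ⊔ P)).relIndex (nty A L D) : ℕ) : ℝ) ≠ 0 :=
      Nat.cast_ne_zero.mpr i1
    have g3 : grm B (nty A (P :: L) D) =
        (((nty A (P :: L) D ⊔ nty A L (D ⊔ P)).relIndex (nty A L D) : ℕ) : ℝ) ^ 2 *
          (grm B (nty A L D) / grm B (nty A L (D ⊔ P))) := by
      rw [← mul_div_assoc, ← g2, mul_div_cancel_right₀ _ n2]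
    refine ⟨?_, ?_⟩
    · rw [g3]
      exact mul_ne_zero (pow_ne_zero _ i3) (div_ne_zero n1 n2)
    · rw [alt_cons, g3]
      refine (e1.div hl e2).trans hl ?_
      have h5 := (eql_unit hl (ndvd_pow hl i2 2)
        (grm B (nty A L D) / grm B (nty A L (D ⊔ P)))).symm
      push_cast at h5
      exact h5

end TG

end Pool.Agent.CR

namespace Pool.Agent.CR

section
variable {G M : Type} [CommGroup G] [Finite G] [AddCommGroup M] (A : G →* AddMonoid.End M)

theorem tyg [Module.Finite ℤ M] [Module.Free ℤ M] (B : M →+ M →+ ℝ)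
    (hB : ∀ g u v, B (A g u) (A g v) = B u v) {l : ℕ} (hl : l.Prime) (L : List (Subgroup G))
    (hL : ∀ P ∈ L, (Nat.card P).Prime ∧ Nat.card P ≠ l)
    (h0 : ∀ D, grm B (nty A [] D) ≠ 0) (D : Subgroup G) :
    grm B (nty A L D) ≠ 0 ∧
      Eql l (alt (fun D => grm B (nty A [] D)) L D) (grm B (nty A L D)) :=
  @Pool.Agent.CR.tyg_pr G M _ _ _ A _ _ B hB l hl L hL h0 D

end

end Pool.Agent.CR
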