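import Pool.Agent.Lib_helper17.CRF.D_WA
import Pool.Agent.Lib_helper17.CRF.A_GR1

/-!
# Composite Rubin (CR), block YP1: permutation modules
-/

set_option autoImplicit false
set_option linter.unusedSectionVars false

namespace Pool.Agent.CR

section YP1

variable {G Ω : Type} [CommGroup G] [Finite G] [Fintype Ω] (ρ : G →* Equiv.Perm Ω)

theorem yp1_mem (D : Subgroup G) (u : Ω → ℤ) :
    u ∈ nty (pmA ρ) [] D ↔ ∀ g ∈ D, ∀ ω, u (ρ g ω) = u ω := by
  constructor
  · rintro ⟨h, -⟩ g hg ω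
    have h1 := congrFun (h g hg) (ρ g ω)
    have h2 : pmA ρ g u (ρ g ω) = u (ρ g⁻¹ (ρ g ω)) := rfl
    rw [← h1, h2, ← Equiv.Perm.mul_apply, ← map_mul, inv_mul_cancel, map_one]
    rfl
  · intro h
    refine ⟨fun g hg => ?_, fun P hP => by simp at hP⟩
    funext ω
    exact h g⁻¹ (D.inv_mem hg) ω

theorem yp1_dot (u v : Ω → ℤ) : dotF Ω u v = ∑ ω, (u ω : ℝ) * (v ω : ℝ) := rfl

theorem yp1_inv (g : G) (u v : Ω → ℤ) : dotF Ω (pmA ρ g u) (pmA ρ g v) = dotF Ω u v := by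
  rw [yp1_dot, yp1_dot]
  exact Equiv.sum_comp (ρ g⁻¹) fun ω => (u ω : ℝ) * (v ω : ℝ)

/-- the functions which are constant on the fibres -/
noncomputable def yp1_lin (D : Subgroup G) {Q : Type} (pr : Ω → Q)
    (hpr : ∀ ω ω', pr ω = pr ω' ↔ ∃ g ∈ D, ρ g ω = ω') :
    (Q → ℤ) →ₗ[ℤ] nty (pmA ρ) [] D where
  toFun f := ⟨fun ω => f (pr ω), (yp1_mem ρ D _).2 fun g hg ω => by
    rw [(hpr ω (ρ g ω)).2 ⟨g, hg, rfl⟩]⟩
  map_add' _ _ := rfl
  map_smul' _ _ := rfl

theorem yp1_bij (D : Subgroup G) {Q : Type} (pr : Ω → Q)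
    (hpr : ∀ ω ω', pr ω = pr ω' ↔ ∃ g ∈ D, ρ g ω = ω') (hs : Function.Surjective pr) :
    Function.Bijective (yp1_lin ρ D pr hpr) := by
  constructor
  · intro f f' h
    funext q
    obtain ⟨ω, rfl⟩ := hs q
    exact congrFun (congrArg Subtype.val h) ω
  · rintro ⟨u, hu⟩
    refine ⟨fun q => u (hs q).choose, ?_⟩
    apply Subtype.ext
    funext ω
    obtain ⟨g, hg, h⟩ := (hpr _ _).1 (hs (pr ω)).choose_spec
    show u (hs (pr ω)).choose = u ω
    rw [← (yp1_mem ρ D u).1 hu g hg, h]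

theorem grm_perm_pr (D : Subgroup G) {Q : Type} [Fintype Q] (pr : Ω → Q)
    (hpr : ∀ ω ω', pr ω = pr ω' ↔ ∃ g ∈ D, ρ g ω = ω') (hs : Function.Surjective pr) :
    (∀ g u v, dotF Ω (pmA ρ g u) (pmA ρ g v) = dotF Ω u v) ∧
      grm (dotF Ω) (nty (pmA ρ) [] D) = ∏ q : Q, (Nat.card {ω // pr ω = q} : ℝ) ∧
      Module.finrank ℤ (nty (pmA ρ) [] D) = Fintype.card Q := by
  classical
  let e : (Q → ℤ) ≃ₗ[ℤ] nty (pmA ρ) [] D :=
    LinearEquiv.ofBijective (yp1_lin ρ D pr hpr) (yp1_bij ρ D pr hpr hs)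
  refine ⟨yp1_inv ρ, ?_, ?_⟩
  · let b : Module.Basis (Fin (Fintype.card Q)) ℤ (nty (pmA ρ) [] D) :=
      ((Pi.basisFun ℤ Q).reindex (Fintype.equivFin Q)).map e
    have hb : ∀ i ω, ((b i : nty (pmA ρ) [] D) : Ω → ℤ) ω =
        if pr ω = (Fintype.equivFin Q).symm i then 1 else 0 := by
      intro i ω
      have h1 : (b i : nty (pmA ρ) [] D) = e (Pi.single ((Fintype.equivFin Q).symm i) 1) := by
        simp only [b, Module.Basis.map_apply, Module.Basis.reindex_apply, Pi.basisFun_apply]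
      rw [h1]
      show (Pi.single ((Fintype.equivFin Q).symm i) (1 : ℤ) : Q → ℤ) (pr ω) = _
      rw [Pi.single_apply]
    rw [grm_basis (dotF Ω) b]
    have h2 : (Matrix.of fun i j : Fin (Fintype.card Q) =>
        dotF Ω (b i : Ω → ℤ) (b j : Ω → ℤ)) =
        Matrix.diagonal fun i => (Nat.card {ω // pr ω = (Fintype.equivFin Q).symm i} : ℝ) := by
      ext i j
      rw [Matrix.of_apply, yp1_dot, Matrix.diagonal_apply]
      simp only [hb]
      split_ifs with hij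
      · subst hij
        rw [Nat.card_eq_fintype_card, Fintype.card_subtype, Finset.card_filter]
        push_cast
        refine Finset.sum_congr rfl fun ω _ => ?_
        split_ifs <;> norm_num
      · refine Finset.sum_eq_zero fun ω _ => ?_
        split_ifs with h3 h4
        · exact absurd ((Fintype.equivFin Q).symm.injective (h3.symm.trans h4)) hij
        all_goals norm_num
    rw [h2, Matrix.det_diagonal]
    exact Equiv.prod_comp (Fintype.equivFin Q).symm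
      fun q => (Nat.card {ω // pr ω = q} : ℝ)
  · rw [← e.finrank_eq, Module.finrank_fintype_fun_eq_card]

end YP1

end Pool.Agent.CR

namespace Pool.Agent.CR

section
variable {G Ω : Type} [CommGroup G] [Finite G] [Fintype Ω] (ρ : G →* Equiv.Perm Ω)

theorem grm_perm (D : Subgroup G) {Q : Type} [Fintype Q] (pr : Ω → Q)
    (hpr : ∀ ω ω', pr ω = pr ω' ↔ ∃ g ∈ D, ρ g ω = ω') (hs : Function.Surjective pr) :
    (∀ g u v, dotF Ω (pmA ρ g u) (pmA ρ g v) = dotF Ω u v) ∧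
      grm (dotF Ω) (nty (pmA ρ) [] D) = ∏ q : Q, (Nat.card {ω // pr ω = q} : ℝ) ∧
      Module.finrank ℤ (nty (pmA ρ) [] D) = Fintype.card Q :=
  @Pool.Agent.CR.grm_perm_pr G Ω _ _ _ ρ D Q _ pr hpr hs

end

end Pool.Agent.CR
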