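import Pool.Agent.Lib_helper17.CRF.D_WB

set_option autoImplicit false
set_option linter.unusedSectionVars false

namespace Pool.Agent.CR

open Pool.Agent.RSK Pool.Agent.RS2 Pool.Agent.SY
open Filter Topology Complex

section CN

variable {G : Type} [CommGroup G] [Finite G]

theorem cn_card_sup {l : ℕ} (hl : l.Prime) {D P : Subgroup G} (hD : ¬ l ∣ Nat.card D)
    (hP : Nat.card P = l) : Nat.card (D ⊔ P : Subgroup G) = l * Nat.card D := by
  have h1 : D ⊓ P = ⊥ := by
    rw [Subgroup.eq_bot_iff_card]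
    have h2 : Nat.card (D ⊓ P : Subgroup G) ∣ l := by
      rw [← hP]; exact Subgroup.card_dvd_of_le inf_le_right
    rcases (Nat.dvd_prime hl).1 h2 with h3 | h3
    · exact h3
    · exact absurd (h3 ▸ Subgroup.card_dvd_of_le inf_le_left) hD
  have h2 : D.relIndex (D ⊔ P) = D.relIndex P := Subgroup.relIndex_sup_left _ _
  have h3 : D.relIndex P = l := by
    rw [← Subgroup.inf_relIndex_right, h1, Subgroup.relIndex_bot_left, hP]
  have h4 := Subgroup.relIndex_mul_relIndex ⊥ D (D ⊔ P) bot_le le_sup_left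
  rw [Subgroup.relIndex_bot_left, Subgroup.relIndex_bot_left, h2, h3] at h4
  rw [← h4, mul_comm]

theorem cn_inf {l : ℕ} (hl : l.Prime) {D P B : Subgroup G} (hD : ¬ l ∣ Nat.card D)
    (hP : Nat.card P = l) (h : ¬ P ≤ B) : ¬ l ∣ Nat.card ((D ⊔ P) ⊓ B : Subgroup G) := by
  intro hdvd
  have hfl : Fact l.Prime := ⟨hl⟩
  obtain ⟨⟨g, hg⟩, hgo⟩ := exists_prime_orderOf_dvd_card' l hdvd
  have hgo' : orderOf g = l := by
    rw [← hgo]
    exact (Subgroup.orderOf_mk g hg).symm
  obtain ⟨hg1, hg2⟩ := Subgroup.mem_inf.1 hg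
  obtain ⟨d, hd, p, hp, rfl⟩ := Subgroup.mem_sup.1 hg1
  have hpl : p ^ l = 1 := by
    have := pow_card_eq_one' (x := (⟨p, hp⟩ : P))
    rw [hP] at this
    exact congrArg Subtype.val this
  have hdl : d ^ l = 1 := by
    have h1 : (d * p) ^ l = 1 := by rw [← hgo']; exact pow_orderOf_eq_one _
    rwa [mul_pow, hpl, mul_one] at h1
  have hd1 : d = 1 := by
    have h1 : orderOf d ∣ l := orderOf_dvd_of_pow_eq_one hdl
    rcases (Nat.dvd_prime hl).1 h1 with h3 | h3
    · exact orderOf_eq_one_iff.1 h3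
    · refine absurd ?_ hD
      rw [← h3, ← Subgroup.orderOf_mk d hd]
      exact orderOf_dvd_natCard _
  subst hd1
  rw [one_mul] at hgo' hg2
  apply h
  have h5 : Subgroup.zpowers p = P := by
    apply Subgroup.eq_of_le_of_card_ge
    · rw [Subgroup.zpowers_le]; exact hp
    · rw [hP, Nat.card_zpowers, hgo']
  rw [← h5, Subgroup.zpowers_le]
  exact hg2

variable {I : Type} [Fintype I] (B : I → Subgroup G)

theorem nD_ndvd_pr {l : ℕ} (hl : l.Prime) {D : Subgroup G} (hD : ¬ l ∣ Nat.card D) :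
    ¬ l ∣ nD B D := by
  unfold nD
  rw [hl.prime.dvd_finsetProd_iff]
  rintro ⟨i, _, hi⟩
  exact hD ((hl.dvd_of_dvd_pow hi).trans (Subgroup.card_dvd_of_le inf_le_left))

theorem nD_P_pr {l : ℕ} (hl : l.Prime) {D P : Subgroup G} (hD : ¬ l ∣ Nat.card D)
    (hP : Nat.card P = l) : Eql l (nD B (D ⊔ P) : ℝ) ((l : ℝ) ^ eD B P D) ∧
      Nat.card (D ⊔ P : Subgroup G) = l * Nat.card D := by
  classical
  refine ⟨?_, cn_card_sup hl hD hP⟩
  unfold nD eD
  push_cast
  rw [← Finset.prod_pow_eq_pow_sum]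
  have key : ∀ s : Finset I, Eql l
      (∏ i ∈ s, (Nat.card ((D ⊔ P) ⊓ B i : Subgroup G) : ℝ) ^ (B i ⊔ (D ⊔ P)).index)
      (∏ i ∈ s, (l : ℝ) ^ (if P ≤ B i then (B i ⊔ D).index else 0)) := by
    intro s
    induction s using Finset.induction_on with
    | empty => rw [Finset.prod_empty, Finset.prod_empty]; exact eql_refl hl _
    | insert i s hi ih =>
      rw [Finset.prod_insert hi, Finset.prod_insert hi]
      refine Eql.mul hl ?_ ih
      split_ifs with h
      · have h1 : ((D ⊔ P) ⊓ B i : Subgroup G) = (D ⊓ B i) ⊔ P := by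
          rw [sup_comm, sup_inf_assoc_of_le _ h, sup_comm]
        have h2 : B i ⊔ (D ⊔ P) = B i ⊔ D := by
          rw [sup_comm D P, ← sup_assoc, sup_eq_left.2 h]
        have h3 : ¬ l ∣ Nat.card (D ⊓ B i : Subgroup G) :=
          ndvd_dvd hD (Subgroup.card_dvd_of_le inf_le_left)
        rw [h1, h2, cn_card_sup hl h3 hP]
        refine Eql.pow hl ?_ _
        push_cast
        rw [mul_comm]
        exact eql_unit hl h3 _
      · rw [pow_zero]
        have h3 := eql_one hl (ndvd_pow hl (cn_inf hl hD hP h) (B i ⊔ (D ⊔ P)).index)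
        push_cast at h3
        exact h3
  exact key Finset.univ

end CN

end Pool.Agent.CR

namespace Pool.Agent.CR
open Pool.Agent.RSK Pool.Agent.RS2 Pool.Agent.SY
open Filter Topology Complex

section
variable {G : Type} [CommGroup G] [Finite G] [IsCyclic G]
variable {I : Type} [Fintype I] (B : I → Subgroup G)
omit [IsCyclic G]

theorem nD_ndvd {l : ℕ} (hl : l.Prime) {D : Subgroup G} (hD : ¬ l ∣ Nat.card D) :
    ¬ l ∣ nD B D :=
  @Pool.Agent.CR.nD_ndvd_pr G _ _ I _ B l hl D hD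

end

end Pool.Agent.CR

namespace Pool.Agent.CR
open Pool.Agent.RSK Pool.Agent.RS2 Pool.Agent.SY
open Filter Topology Complex

section
variable {G : Type} [CommGroup G] [Finite G] [IsCyclic G]
variable {I : Type} [Fintype I] (B : I → Subgroup G)
omit [IsCyclic G]

theorem nD_P {l : ℕ} (hl : l.Prime) {D P : Subgroup G} (hD : ¬ l ∣ Nat.card D)
    (hP : Nat.card P = l) : Eql l (nD B (D ⊔ P) : ℝ) ((l : ℝ) ^ eD B P D) ∧
      Nat.card (D ⊔ P : Subgroup G) = l * Nat.card D :=
  @Pool.Agent.CR.nD_P_pr G _ _ I _ B l hl D P hD hP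

end

end Pool.Agent.CR
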