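import Pool.Agent.Lib_helper17.CRF.D_WA
import Pool.Agent.Lib_helper17.CRF.A_NA

/-!
-/

set_option autoImplicit false
set_option linter.unusedSectionVars false

namespace Pool.Agent.CR

variable {G M : Type} [CommGroup G] [Finite G] [AddCommGroup M] (A : G →* AddMonoid.End M)

/-- a subgroup containing the multiples by the prime `p ≠ l` has index prime to `l` -/
theorem tx_ndvd {l p : ℕ} (hl : l.Prime) (hp : p.Prime) (hpl : p ≠ l) (W Y : AddSubgroup M)
    (h0 : W.relIndex Y ≠ 0) (h : ∀ y ∈ Y, p • y ∈ W) : ¬ l ∣ W.relIndex Y := by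
  intro hd
  have h1 : Nat.card (Y ⧸ W.addSubgroupOf Y) = W.relIndex Y := rfl
  have h2 : Finite (Y ⧸ W.addSubgroupOf Y) := Nat.finite_of_card_ne_zero (by rw [h1]; exact h0)
  have : Fact l.Prime := ⟨hl⟩
  obtain ⟨x, hx⟩ := exists_prime_addOrderOf_dvd_card' (G := Y ⧸ W.addSubgroupOf Y) l
    (by rw [h1]; exact hd)
  have h3 : p • x = 0 := by
    obtain ⟨y, rfl⟩ := QuotientAddGroup.mk_surjective x
    rw [← QuotientAddGroup.mk_nsmul, QuotientAddGroup.eq_zero_iff, AddSubgroup.mem_addSubgroupOf]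
    exact h y y.2
  have h4 : l ∣ p := by
    rw [← hx]
    exact addOrderOf_dvd_of_nsmul_eq_zero h3
  exact hpl ((Nat.prime_dvd_prime_iff_eq hl hp).1 h4).symm

theorem tx_mem (N : AddSubgroup M) (hN : ∀ g, ∀ u ∈ N, A g u ∈ N) (P : Subgroup G) {u : M}
    (hu : u ∈ N) : nA A P u ∈ N := by
  classical
  have := Fintype.ofFinite P
  rw [nA_sum]
  exact N.sum_mem fun g _ => hN g u hu

/-- the elements fixed modulo `N` -/
theorem tx_sup (N : AddSubgroup M) (hN : ∀ g, ∀ u ∈ N, A g u ∈ N) (D P : Subgroup G) {v : M}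
    (h1 : ∀ g ∈ D, A g v - v ∈ N) (h2 : ∀ g ∈ P, A g v - v ∈ N) :
    ∀ g ∈ D ⊔ P, A g v - v ∈ N := by
  let S : Subgroup G :=
    { carrier := {g | A g v - v ∈ N}
      one_mem' := by
        show A 1 v - v ∈ N
        rw [map_one]
        show v - v ∈ N
        rw [sub_self]
        exact N.zero_mem
      mul_mem' := by
        intro a b ha hb
        show A (a * b) v - v ∈ N
        have e : A (a * b) v - v = A a (A b v - v) + (A a v - v) := by
          rw [map_mul, map_sub]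
          show A a (A b v) - v = _
          abel
        rw [e]
        exact N.add_mem (hN _ _ hb) ha
      inv_mem' := by
        intro a ha
        show A a⁻¹ v - v ∈ N
        have e : A a⁻¹ v - v = -(A a⁻¹ (A a v - v)) := by
          rw [map_sub]
          have : A a⁻¹ (A a v) = v := by
            show (A a⁻¹ * A a) v = v
            rw [← map_mul, inv_mul_cancel, map_one]
            rfl
          rw [this]
          abel
        rw [e]
        exact N.neg_mem (hN _ _ ha) }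
  have h : D ⊔ P ≤ S := sup_le h1 h2
  exact fun g hg => h hg

/-- the norm modulo `N` -/
theorem tx_norm (N : AddSubgroup M) (P : Subgroup G) {v : M} (h2 : ∀ g ∈ P, A g v - v ∈ N) :
    nA A P v - Nat.card P • v ∈ N := by
  classical
  have := Fintype.ofFinite P
  rw [nA_sum, Nat.card_eq_fintype_card, ← Finset.card_univ, ← Finset.sum_const,
    ← Finset.sum_sub_distrib]
  exact N.sum_mem fun g _ => h2 g g.2

theorem tx_step (N N' : AddSubgroup M) (h : N ≤ N') (hN : ∀ g, ∀ u ∈ N, A g u ∈ N)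
    (hN' : ∀ g, ∀ u ∈ N', A g u ∈ N') (h0 : N.relIndex N' ≠ 0) {l : ℕ} (hl : l.Prime)
    (L : List (Subgroup G)) (P : Subgroup G) (hP : (Nat.card P).Prime) (hPl : Nat.card P ≠ l)
    (D : Subgroup G) : ∃ c : ℕ, ¬ l ∣ c ∧ N.relIndex (rty A L (D ⊔ P) N N') ≠ 0 ∧
      c * N.relIndex (rty A L D N N') =
        N.relIndex (rty A L (D ⊔ P) N N') * N.relIndex (rty A (P :: L) D N N') := by
  set X := rty A L D N N' with hX
  set Y := rty A L (D ⊔ P) N N' with hY
  set Z := rty A (P :: L) D N N' with hZ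
  have hNX : ∀ (L : List (Subgroup G)) (D : Subgroup G), N ≤ rty A L D N N' := by
    intro L D u hu
    exact ⟨h hu, fun g _ => N.sub_mem (hN g u hu) hu, fun Q _ => tx_mem A N hN Q hu⟩
  have hXN : ∀ (L : List (Subgroup G)) (D : Subgroup G), rty A L D N N' ≤ N' :=
    fun L D u hu => hu.1
  have hne : ∀ (L : List (Subgroup G)) (D : Subgroup G), N.relIndex (rty A L D N N') ≠ 0 := by
    intro L D h1
    have h2 := AddSubgroup.relIndex_mul_relIndex N (rty A L D N N') N' (hNX L D) (hXN L D)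
    rw [h1, zero_mul] at h2
    exact h0 h2.symm
  -- the map
  obtain ⟨φ, hφ⟩ : ∃ φ : M →+ M, ∀ u, φ u = nA A P u := ⟨nA A P, fun _ => rfl⟩
  have hmap : X.map φ ≤ Y := by
    rintro v ⟨u, hu, rfl⟩
    have hb := nA_basic A P u
    rw [hφ]
    refine ⟨tx_mem A N' hN' P hu.1, ?_, ?_⟩
    · refine tx_sup A N hN D P ?_ ?_
      · intro g hg
        rw [hb.1 g, ← map_sub]
        exact tx_mem A N hN P (hu.2.1 g hg)
      · intro g hg
        rw [hb.2.2.1 g hg, sub_self]
        exact N.zero_mem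
    · intro Q hQ
      rw [hb.2.1 Q]
      exact tx_mem A N hN P (hu.2.2 Q hQ)
  have hZX : Z = (N.comap φ) ⊓ X := by
    ext u
    rw [AddSubgroup.mem_inf, AddSubgroup.mem_comap, hφ]
    constructor
    · rintro ⟨h1, h2, h3⟩
      exact ⟨h3 P (List.mem_cons_self ..), h1, h2, fun Q hQ => h3 Q (List.mem_cons_of_mem _ hQ)⟩
    · rintro ⟨h1, h2, h3, h4⟩
      refine ⟨h2, h3, fun Q hQ => ?_⟩
      rcases List.mem_cons.1 hQ with rfl | hQ
      · exact h1
      · exact h4 Q hQ
  have e1 : Z.relIndex X = N.relIndex (X.map φ) := by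
    rw [hZX, AddSubgroup.inf_relIndex_right, AddSubgroup.relIndex_comap]
  set W := X.map φ ⊔ N with hW
  have e2 : N.relIndex W = N.relIndex (X.map φ) := by
    rw [hW]
    exact AddSubgroup.relIndex_sup_right _ _
  have hWY : W ≤ Y := sup_le hmap (hNX L (D ⊔ P))
  have e3 := AddSubgroup.relIndex_mul_relIndex N W Y le_sup_right hWY
  have e4 := AddSubgroup.relIndex_mul_relIndex N Z X (hNX _ _) (hZX ▸ inf_le_right)
  have hW0 : W.relIndex Y ≠ 0 := by
    intro h1
    rw [h1, mul_zero] at e3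
    exact hne L (D ⊔ P) e3.symm
  refine ⟨W.relIndex Y, tx_ndvd hl hP hPl W Y hW0 ?_, hne L (D ⊔ P), ?_⟩
  · intro y hy
    have h1 : nA A P y - Nat.card P • y ∈ N :=
      tx_norm A N P fun g hg => hy.2.1 g (le_sup_right (a := D) hg)
    have h2 : nA A P y ∈ X.map φ :=
      ⟨y, ⟨hy.1, fun g hg => hy.2.1 g (le_sup_left (b := P) hg), hy.2.2⟩, hφ y⟩
    have e : Nat.card P • y = nA A P y - (nA A P y - Nat.card P • y) := by abel
    rw [e]
    exact W.sub_mem (le_sup_left (a := X.map φ) (b := N) h2)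
      (le_sup_right (a := X.map φ) (b := N) h1)
  · rw [← e3, ← e4, e2, ← e1]
    ring

theorem tyx_pr (N N' : AddSubgroup M) (h : N ≤ N') (hN : ∀ g, ∀ u ∈ N, A g u ∈ N)
    (hN' : ∀ g, ∀ u ∈ N', A g u ∈ N') (h0 : N.relIndex N' ≠ 0) {l : ℕ} (hl : l.Prime)
    (L : List (Subgroup G)) (hL : ∀ P ∈ L, (Nat.card P).Prime ∧ Nat.card P ≠ l)
    (D : Subgroup G) :
    Eql l (alt (fun D => ((N.relIndex (rty A [] D N N') : ℕ) : ℝ)) L D)
      ((N.relIndex (rty A L D N N') : ℕ) : ℝ) := by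
  induction L generalizing D with
  | nil => exact eql_refl hl _
  | cons P L ih =>
    have hL' : ∀ P ∈ L, (Nat.card P).Prime ∧ Nat.card P ≠ l :=
      fun Q hQ => hL Q (List.mem_cons_of_mem _ hQ)
    obtain ⟨hP, hPl⟩ := hL P (List.mem_cons_self ..)
    obtain ⟨c, hc, hne, e⟩ := tx_step A N N' h hN hN' h0 hl L P hP hPl D
    rw [alt_cons]
    refine Eql.trans hl ((ih hL' D).div hl (ih hL' (D ⊔ P))) ⟨c, 1, hc, ndvd_one hl, ?_⟩
    rw [Nat.cast_one, one_mul, ← mul_div_assoc, div_eq_iff (Nat.cast_ne_zero.2 hne)]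
    rw [mul_comm ((N.relIndex (rty A (P :: L) D N N') : ℕ) : ℝ)]
    exact_mod_cast e


end Pool.Agent.CR

namespace Pool.Agent.CR

section
variable {G M : Type} [CommGroup G] [Finite G] [AddCommGroup M] (A : G →* AddMonoid.End M)

theorem tyx (N N' : AddSubgroup M) (h : N ≤ N') (hN : ∀ g, ∀ u ∈ N, A g u ∈ N)
    (hN' : ∀ g, ∀ u ∈ N', A g u ∈ N') (h0 : N.relIndex N' ≠ 0) {l : ℕ} (hl : l.Prime)
    (L : List (Subgroup G)) (hL : ∀ P ∈ L, (Nat.card P).Prime ∧ Nat.card P ≠ l)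
    (D : Subgroup G) :
    Eql l (alt (fun D => ((N.relIndex (rty A [] D N N') : ℕ) : ℝ)) L D)
      ((N.relIndex (rty A L D N N') : ℕ) : ℝ) :=
  @Pool.Agent.CR.tyx_pr G M _ _ _ A N N' h hN hN' h0 l hl L hL D

end

end Pool.Agent.CR
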