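import Pool.Agent.Lib_helper17.CRF.D_WN

set_option autoImplicit false
set_option linter.unusedSectionVars false

namespace Pool.Agent.CR

open Pool.Agent.RSK Pool.Agent.RS2 Pool.Agent.RS3 Pool.Agent.SY
open NumberField IsDedekindDomain Filter Topology Complex

section N

variable {F K : Type} [Field F] [NumberField F] [Field K] [NumberField K] [Algebra F K]
  [IsGalois F K] {G : Type} [CommGroup G] [Fintype G]

theorem cl0_apply (ι : G ≃* (K ≃ₐ[F] K)) (g : G) (E : HeightOneSpectrum (𝓞 K) →₀ ℤ)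
    (W : HeightOneSpectrum (𝓞 K)) : dvA ι g E W = E ((plE ι g).symm W) := by
  show Finsupp.mapDomain (plE ι g) E W = E ((plE ι g).symm W)
  conv_lhs => rw [← (plE ι g).apply_symm_apply W]
  exact Finsupp.mapDomain_apply (plE ι g).injective E _

theorem cl0_under (ι : G ≃* (K ≃ₐ[F] K)) (g : G) (W : HeightOneSpectrum (𝓞 K)) :
    ((plE ι g).symm W).under (𝓞 F) = W.under (𝓞 F) := by
  have h := dn_act (F := F) (ι g) (Sum.inr ((plE ι g).symm W) : Pl K)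
  rw [← plE_act, Equiv.apply_symm_apply] at h
  exact (Sum.inr_injective h).symm

theorem cl0_mem (ι : G ≃* (K ≃ₐ[F] K)) (g : G) (S : Finset (HeightOneSpectrum (𝓞 F)))
    (W : HeightOneSpectrum (𝓞 K)) : (plE ι g).symm W ∈ ovr K S ↔ W ∈ ovr K S := by
  rw [mem_ovr, mem_ovr, cl0_under]

theorem cl0_comm (ι : G ≃* (K ≃ₐ[F] K)) (g h : G) (E : HeightOneSpectrum (𝓞 K) →₀ ℤ) :
    dvA ι h (dvA ι g E) = dvA ι g (dvA ι h E) := by
  have h1 : dvA ι h (dvA ι g E) = dvA ι (h * g) E := by rw [map_mul]; rfl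
  have h2 : dvA ι g (dvA ι h E) = dvA ι (g * h) E := by rw [map_mul]; rfl
  rw [h1, h2, mul_comm]

theorem cl0_Dv (ι : G ≃* (K ≃ₐ[F] K)) (T : Finset (HeightOneSpectrum (𝓞 F))) (D : Subgroup G)
    (g : G) {E : HeightOneSpectrum (𝓞 K) →₀ ℤ} (hE : E ∈ DvI ι T D) :
    dvA ι g E ∈ DvI ι T D := by
  refine ⟨fun W hW => ?_, fun h hh => ?_⟩
  · rw [cl0_apply]
    exact hE.1 _ ((cl0_mem ι g T W).2 hW)
  · rw [cl0_comm, hE.2 h hh]

theorem cl0_ordv (ι : G ≃* (K ≃ₐ[F] K)) (g : G) (W : HeightOneSpectrum (𝓞 K)) (x : K) :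
    ordv W (ι g x) = ordv ((plE ι g).symm W) x := by
  have h := ordv_act (ι g) ((plE ι g).symm W) x
  rw [← h]
  congr 1
  exact ((plE ι g).apply_symm_apply W).symm

theorem cl_stable_pr (ι : G ≃* (K ≃ₐ[F] K)) (S T : Finset (HeightOneSpectrum (𝓞 F)))
    (D : Subgroup G) :
    PrI ι S T D ≤ DvI ι T D ∧ (∀ g, ∀ E ∈ PrI ι S T D, dvA ι g E ∈ PrI ι S T D) ∧
      (∀ g, ∀ E ∈ DvI ι T D, dvA ι g E ∈ DvI ι T D) ∧
      ∀ D' : Subgroup G, D ≤ D' → DvI ι T D' ≤ DvI ι T D ∧ PrI ι S T D' ≤ PrI ι S T D := by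
  have hmono : ∀ D' : Subgroup G, D ≤ D' → DvI ι T D' ≤ DvI ι T D := fun D' hDD E hE =>
    ⟨hE.1, fun g hg => hE.2 g (hDD hg)⟩
  refine ⟨fun E hE => hE.1, ?_, fun g E hE => cl0_Dv ι T D g hE, fun D' hDD =>
    ⟨hmono D' hDD, ?_⟩⟩
  · rintro g E ⟨hE, x, hx, hxD, hxE⟩
    refine ⟨cl0_Dv ι T D g hE, ι g • x, RSK.cd_kt_smul (ι g) hx, fun h hh => ?_, fun W hW => ?_⟩
    · show ι h (ι g (x : K)) = ι g (x : K)
      have h1 : ι h (ι g (x : K)) = ι g (ι h (x : K)) := by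
        have h2 : ι h * ι g = ι g * ι h := by rw [← map_mul, mul_comm, map_mul]
        exact DFunLike.congr_fun h2 (x : K)
      rw [h1, hxD h hh]
    · show dvA ι g E W = ordv W (ι g (x : K))
      rw [cl0_apply, cl0_ordv]
      exact hxE _ fun h => hW ((cl0_mem ι g S W).1 h)
  · rintro E ⟨hE, x, hx, hxD, hxE⟩
    exact ⟨hmono D' hDD hE, x, hx, fun g hg => hxD g (hDD hg), hxE⟩

end N

end Pool.Agent.CR

namespace Pool.Agent.CR
open Pool.Agent.RSK Pool.Agent.RS2 Pool.Agent.RS3 Pool.Agent.SY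
open NumberField IsDedekindDomain Filter Topology Complex

section
variable {F K : Type} [Field F] [NumberField F] [Field K] [NumberField K] [Algebra F K]
  [IsGalois F K] {G : Type} [CommGroup G] [Fintype G] {ι : G ≃* (K ≃ₐ[F] K)}
  {S T : Finset (HeightOneSpectrum (𝓞 F))} {r : ℕ} {w : Fin r → Pl K}
  {fr : HeightOneSpectrum (𝓞 F) → G}

theorem cl_stable (ι : G ≃* (K ≃ₐ[F] K)) (S T : Finset (HeightOneSpectrum (𝓞 F)))
    (D : Subgroup G) :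
    PrI ι S T D ≤ DvI ι T D ∧ (∀ g, ∀ E ∈ PrI ι S T D, dvA ι g E ∈ PrI ι S T D) ∧
      (∀ g, ∀ E ∈ DvI ι T D, dvA ι g E ∈ DvI ι T D) ∧
      ∀ D' : Subgroup G, D ≤ D' → DvI ι T D' ≤ DvI ι T D ∧ PrI ι S T D' ≤ PrI ι S T D :=
  @Pool.Agent.CR.cl_stable_pr F K _ _ _ _ _ _ G _ _ ι S T D

end

end Pool.Agent.CR
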