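import Pool.Agent.Lib_helper17.CRF.D_WN
import Pool.Agent.Lib_helper17.RS.P_CD
import Pool.Agent.Lib_helper35.RS2.P_LY

set_option autoImplicit false
set_option linter.unusedSectionVars false

namespace Pool.Agent.CR

open Pool.Agent.RSK Pool.Agent.RS2 Pool.Agent.RS3 Pool.Agent.SY
open NumberField IsDedekindDomain Filter Topology Complex

section N

variable {F K : Type} [Field F] [NumberField F] [Field K] [NumberField K] [Algebra F K]
  [IsGalois F K] {G : Type} [CommGroup G] [Fintype G] {ι : G ≃* (K ≃ₐ[F] K)}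
  {S T : Finset (HeightOneSpectrum (𝓞 F))} {r : ℕ} {w : Fin r → Pl K}
  {fr : HeightOneSpectrum (𝓞 F) → G}

/-- the action on divisors -/
theorem cl1_dvA (g : G) (E : HeightOneSpectrum (𝓞 K) →₀ ℤ) (W : HeightOneSpectrum (𝓞 K)) :
    dvA ι g E (plE ι g W) = E W :=
  Finsupp.mapDomain_apply (plE ι g).injective E W

theorem cl1_plE {D : Subgroup G} {ιE : D ≃* (K ≃ₐ[Kf ι D] K)} (hE : Lay ι D ιE) (h : D)
    (W : HeightOneSpectrum (𝓞 K)) :
    HeightOneSpectrum.equivOfRingEquiv (RingOfIntegers.mapRingEquiv (ιE h).toRingEquiv) W =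
      plE ι (h : G) W := by
  have e : (ιE h).toRingEquiv = (ι (h : G)).toRingEquiv := by
    ext x
    exact hE.compat h x
  rw [e]
  rfl

theorem cl1_inj (D : Subgroup G) :
    Function.Injective (Pool.Agent.RSK.cd_ext (Kf ι D) K) := by
  intro a b h
  ext v
  obtain ⟨W, hW⟩ := up1_surj (H := K) v
  have h1 := DFunLike.congr_fun h W
  rw [Pool.Agent.RSK.cd_ext_apply, Pool.Agent.RSK.cd_ext_apply, hW] at h1
  exact h1

theorem cl1_inv {E : HeightOneSpectrum (𝓞 K) →₀ ℤ} {D : Subgroup G}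
    (h : ∀ g ∈ D, dvA ι g E = E) {g : G} (hg : g ∈ D) (W : HeightOneSpectrum (𝓞 K)) :
    E (plE ι g W) = E W := by
  conv_lhs => rw [← h g hg]
  exact cl1_dvA g E W

theorem cl1_desc {E : HeightOneSpectrum (𝓞 K) →₀ ℤ} {D : Subgroup G}
    (h : ∀ g ∈ D, dvA ι g E = E) : ∃ E₀, Pool.Agent.RSK.cd_ext (Kf ι D) K E₀ = E := by
  classical
  obtain ⟨ιE, hE⟩ := lay_exists (ι := ι) D
  have hsurj : ∀ v : HeightOneSpectrum (𝓞 (Kf ι D)), ∃ W : HeightOneSpectrum (𝓞 K),
    W.under (𝓞 (Kf ι D)) = v := up1_surj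
  choose c hc using hsurj
  have hconst : ∀ W : HeightOneSpectrum (𝓞 K), E W = E (c (W.under (𝓞 (Kf ι D)))) := by
    intro W
    have h1 : dn (Kf ι D) (Sum.inr (c (W.under (𝓞 (Kf ι D)))) : Pl K) =
        dn (Kf ι D) (Sum.inr W : Pl K) := by
      show Sum.inr _ = Sum.inr _
      rw [hc]
    obtain ⟨σ, hσ⟩ := act_trans h1
    obtain ⟨g, rfl⟩ := ιE.surjective σ
    have h2 : HeightOneSpectrum.equivOfRingEquiv
        (RingOfIntegers.mapRingEquiv (ιE g).toRingEquiv) (c (W.under (𝓞 (Kf ι D)))) = W :=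
      Sum.inr.inj hσ
    rw [cl1_plE hE] at h2
    have h4 := cl1_inv h g.2 (c (W.under (𝓞 (Kf ι D))))
    rw [h2] at h4
    exact h4
  refine ⟨Finsupp.ofSupportFinite (fun v => E (c v)) ?_, ?_⟩
  · refine Set.Finite.subset (E.support.finite_toSet.image
      (fun W => W.under (𝓞 (Kf ι D)))) ?_
    intro v hv
    exact ⟨c v, by simpa using hv, hc v⟩
  · ext W
    exact (hconst W).symm

theorem cl1_DvI (D : Subgroup G) :
    DvI ι T D = (Dv (ovr (Kf ι D) T)).map (Pool.Agent.RSK.cd_ext (Kf ι D) K) := by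
  classical
  obtain ⟨ιE, hE⟩ := lay_exists (ι := ι) D
  ext E
  constructor
  · rintro ⟨hT, hinv⟩
    obtain ⟨E₀, rfl⟩ := cl1_desc hinv
    refine ⟨E₀, ?_, rfl⟩
    intro v hv
    obtain ⟨W, hW⟩ := up1_surj (H := K) v
    have h1 := hT W (by
      rw [← ovr_ovr (F := Kf ι D), mem_ovr, hW]
      exact hv)
    rw [Pool.Agent.RSK.cd_ext_apply, hW] at h1
    exact h1
  · rintro ⟨E₀, hE₀, rfl⟩
    refine ⟨?_, ?_⟩
    · intro W hW
      rw [Pool.Agent.RSK.cd_ext_apply]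
      refine hE₀ _ ?_
      rw [← ovr_ovr (F := Kf ι D), mem_ovr] at hW
      exact hW
    · intro g hg
      ext W
      obtain ⟨W', rfl⟩ := (plE ι g).surjective W
      rw [cl1_dvA, Pool.Agent.RSK.cd_ext_apply, Pool.Agent.RSK.cd_ext_apply, ← cl1_plE hE ⟨g, hg⟩ W', under_equiv]

theorem cl1_unr (hD : Data ι S T r w fr) (D : Subgroup G) {W : HeightOneSpectrum (𝓞 K)}
    (hW : W ∉ ovr K S) : Algebra.IsUnramifiedAt (𝓞 (Kf ι D)) W.asIdeal := by
  have h1 := hD.unram W (fun h => hW (mem_ovr.2 h))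
  exact Algebra.IsUnramifiedAt.of_restrictScalars (𝓞 F) W.asIdeal

theorem cl1_PrI (hD : Data ι S T r w fr) (D : Subgroup G) :
    PrI ι S T D =
      (Pr (ovr (Kf ι D) S) (ovr (Kf ι D) T)).map (Pool.Agent.RSK.cd_ext (Kf ι D) K) := by
  classical
  obtain ⟨ιE, hE⟩ := lay_exists (ι := ι) D
  have hov : ∀ (W : HeightOneSpectrum (𝓞 K)) (S : Finset (HeightOneSpectrum (𝓞 F))),
      W ∉ ovr K S ↔ W.under (𝓞 (Kf ι D)) ∉ ovr (Kf ι D) S := by
    intro W S
    rw [← ovr_ovr (F := Kf ι D), mem_ovr]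
  ext E
  constructor
  · rintro ⟨hE', x, hxT, hxD, hx⟩
    rw [cl1_DvI] at hE'
    obtain ⟨E₀, hE₀, rfl⟩ := hE'
    obtain ⟨y, hy⟩ := fixed_unit (F := Kf ι D) x (fun σ => by
      obtain ⟨g, rfl⟩ := ιE.surjective σ
      ext
      show (ιE g) (x : K) = x
      rw [hE.compat]
      exact hxD _ g.2)
    refine ⟨E₀, ⟨hE₀, y, ?_, ?_⟩, rfl⟩
    · rw [← hy, ← ovr_ovr (F := Kf ι D), kt_map] at hxT
      exact hxT
    · intro v hv
      obtain ⟨W, hW⟩ := up1_surj (H := K) v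
      have hWS : W ∉ ovr K S := by
        rw [hov, hW]
        exact hv
      have h1 := hx W hWS
      have h2 : (x : K) = algebraMap (Kf ι D) K (y : Kf ι D) := by
        rw [← hy]
        rfl
      rw [Pool.Agent.RSK.cd_ext_apply, h2, ordv_unr (cl1_unr hD D hWS), hW] at h1
      exact h1
  · rintro ⟨E₀, ⟨hE₀, y, hyT, hy⟩, rfl⟩
    refine ⟨?_, Units.map (algebraMap (Kf ι D) K : Kf ι D →* K) y, ?_, ?_, ?_⟩
    · rw [cl1_DvI]
      exact ⟨E₀, hE₀, rfl⟩
    · rw [← ovr_ovr (F := Kf ι D), kt_map]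
      exact hyT
    · intro g hg
      show ι g (algebraMap (Kf ι D) K (y : Kf ι D)) = algebraMap (Kf ι D) K (y : Kf ι D)
      have h1 := hE.compat ⟨g, hg⟩ (algebraMap (Kf ι D) K (y : Kf ι D))
      rw [← h1]
      exact (ιE ⟨g, hg⟩).commutes _
    · intro W hW
      have h2 : ((Units.map (algebraMap (Kf ι D) K : Kf ι D →* K) y : Kˣ) : K) =
        algebraMap (Kf ι D) K (y : Kf ι D) := rfl
      rw [Pool.Agent.RSK.cd_ext_apply, h2, ordv_unr (cl1_unr hD D hW)]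
      exact hy _ ((hov W S).1 hW)

theorem cl_fix_pr (hD : Data ι S T r w fr) (D : Subgroup G) :
    hK ι S T D = (PrI ι S T D).relIndex (DvI ι T D) := by
  rw [cl1_PrI hD D, cl1_DvI D, AddSubgroup.relIndex_map_map_of_injective _ _ (cl1_inj D)]
  rfl

end N

end Pool.Agent.CR

namespace Pool.Agent.CR
open Pool.Agent.RSK Pool.Agent.RS2 Pool.Agent.RS3 Pool.Agent.SY
open NumberField IsDedekindDomain Filter Topology Complex

section
variable {F K : Type} [Field F] [NumberField F] [Field K] [NumberField K] [Algebra F K]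
  [IsGalois F K] {G : Type} [CommGroup G] [Fintype G] {ι : G ≃* (K ≃ₐ[F] K)}
  {S T : Finset (HeightOneSpectrum (𝓞 F))} {r : ℕ} {w : Fin r → Pl K}
  {fr : HeightOneSpectrum (𝓞 F) → G}

theorem cl_fix (hD : Data ι S T r w fr) (D : Subgroup G) :
    hK ι S T D = (PrI ι S T D).relIndex (DvI ι T D) :=
  @Pool.Agent.CR.cl_fix_pr F K _ _ _ _ _ _ G _ _ ι S T r w fr hD D

end

end Pool.Agent.CR
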