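import Pool.Agent.Lib_helper17.CRF.D_WN
import Pool.Agent.Lib_helper17.CRF.A_NA
import Pool.Agent.Lib_helper17.CRF.N_CL1
import Pool.Agent.Lib_helper17.CRF.N_LD3
import Pool.Agent.Lib_helper17.CRF.N_CL0

/-!
# Composite Rubin (CR): block CL2, invariants of a group of order prime to `l`
-/

set_option autoImplicit false
set_option linter.unusedSectionVars false

namespace Pool.Agent.CR

open Pool.Agent.RSK Pool.Agent.RS2 Pool.Agent.RS3 Pool.Agent.SY
open NumberField IsDedekindDomain Filter Topology Complex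

section Alg

variable {M : Type} [AddCommGroup M]

/-- a finite index of a pair with quotient killed by `m` is prime to `l` if `m` is -/
theorem cl2_killed {l m : ℕ} (hl : l.Prime) (hm : ¬ l ∣ m) {N N' : AddSubgroup M}
    (h0 : N.relIndex N' ≠ 0) (h : ∀ u ∈ N', m • u ∈ N) : ¬ l ∣ N.relIndex N' := by
  intro hd
  have hfact : Fact l.Prime := ⟨hl⟩
  have e : N.relIndex N' = Nat.card (N' ⧸ N.addSubgroupOf N') := rfl
  rw [e] at h0 hd
  have hfin : Finite (N' ⧸ N.addSubgroupOf N') := Nat.finite_of_card_ne_zero h0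
  obtain ⟨x, hx⟩ := exists_prime_addOrderOf_dvd_card' l hd
  obtain ⟨u, rfl⟩ := QuotientAddGroup.mk_surjective x
  have h1 : m • (QuotientAddGroup.mk u : N' ⧸ N.addSubgroupOf N') = 0 := by
    rw [← QuotientAddGroup.mk_nsmul, QuotientAddGroup.eq_zero_iff, AddSubgroup.mem_addSubgroupOf]
    exact h u u.2
  have h2 := addOrderOf_dvd_of_nsmul_eq_zero h1
  rw [hx] at h2
  exact hm h2

/-- the two indices agree up to a number prime to `l` -/
theorem cl2_alg {l m : ℕ} (hl : l.Prime) (hm : ¬ l ∣ m) {N0 N1 N1' R : AddSubgroup M}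
    (f : M →+ M) (h10 : N1 ≤ N0) (h11 : N1 ≤ N1') (h1R : N1' ≤ R) (h0R : N0 ≤ R)
    (ha : ∀ u ∈ R, f u ∈ N1') (hb : ∀ u ∈ N0, f u ∈ N1) (hc : ∀ u ∈ R, f u - m • u ∈ N0)
    (hd : ∀ u ∈ N1', f u = m • u) (hf : N1.relIndex N1' ≠ 0) (hf' : N0.relIndex R ≠ 0) :
    Eql l (N1.relIndex N1' : ℝ) (N0.relIndex R : ℝ) := by
  have e1 : N1.relIndex (N1' ⊓ N0) * N0.relIndex N1' = N1.relIndex N1' := by
    rw [← AddSubgroup.inf_relIndex_left N1' N0]
    exact AddSubgroup.relIndex_mul_relIndex _ _ _ (le_inf h11 h10) inf_le_left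
  have e2 : N0.relIndex N1' * (N1' ⊔ N0).relIndex R = N0.relIndex R := by
    have h := AddSubgroup.relIndex_mul_relIndex N0 (N1' ⊔ N0) R le_sup_right (sup_le h1R h0R)
    rw [AddSubgroup.relIndex_sup_right] at h
    exact h
  have k1 : ¬ l ∣ N1.relIndex (N1' ⊓ N0) := by
    refine cl2_killed hl hm (fun h => hf ?_) fun u hu => ?_
    · rw [← e1, h, zero_mul]
    · rw [← hd u hu.1]
      exact hb u hu.2
  have k2 : ¬ l ∣ (N1' ⊔ N0).relIndex R := by
    refine cl2_killed hl hm (fun h => hf' ?_) fun u hu => ?_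
    · rw [← e2, h, mul_zero]
    · have e : m • u = f u + -(f u - m • u) := by abel
      rw [e]
      exact AddSubgroup.add_mem_sup (ha u hu) (N0.neg_mem (hc u hu))
  refine ⟨(N1' ⊔ N0).relIndex R, N1.relIndex (N1' ⊓ N0), k2, k1, ?_⟩
  rw [← e1, ← e2]
  push_cast
  ring

end Alg

section N

variable {F K : Type} [Field F] [NumberField F] [Field K] [NumberField K] [Algebra F K]
  [IsGalois F K] {G : Type} [CommGroup G] [Fintype G] {ι : G ≃* (K ≃ₐ[F] K)}
  {S T : Finset (HeightOneSpectrum (𝓞 F))} {r : ℕ} {w : Fin r → Pl K}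
  {fr : HeightOneSpectrum (𝓞 F) → G}

/-- the values of a transported divisor -/
theorem cl2_dvA_apply (g : G) (E : HeightOneSpectrum (𝓞 K) →₀ ℤ) (W : HeightOneSpectrum (𝓞 K)) :
    dvA ι g E W = E (HeightOneSpectrum.equivOfRingEquiv
      (RingOfIntegers.mapRingEquiv (ι g).symm.toRingEquiv) W) := by
  have h1 : plE ι g (HeightOneSpectrum.equivOfRingEquiv
      (RingOfIntegers.mapRingEquiv (ι g).symm.toRingEquiv) W) = W := by
    have e : HeightOneSpectrum.equivOfRingEquiv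
        (RingOfIntegers.mapRingEquiv (ι g).symm.toRingEquiv) W = plE ι g⁻¹ W := by
      show _ = HeightOneSpectrum.equivOfRingEquiv
        (RingOfIntegers.mapRingEquiv (ι g⁻¹).toRingEquiv) W
      rw [map_inv]
      rfl
    rw [e, ← plE_mul, mul_inv_cancel, plE_one]
  show Finsupp.mapDomain (plE ι g) E W = _
  conv_lhs => rw [← h1]
  exact Finsupp.mapDomain_apply (plE ι g).injective E _

/-- `x ≡ 1 mod T` and `E` is the divisor of `x` outside `S` -/
def cl2_P (S T : Finset (HeightOneSpectrum (𝓞 F))) (E : HeightOneSpectrum (𝓞 K) →₀ ℤ) (x : Kˣ) :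
    Prop :=
  x ∈ KT (ovr K T) ∧ ∀ W : HeightOneSpectrum (𝓞 K), W ∉ ovr K S → E W = ordv W (x : K)

theorem cl2_P_act (g : G) {E : HeightOneSpectrum (𝓞 K) →₀ ℤ} {x : Kˣ} (h : cl2_P S T E x) :
    cl2_P S T (dvA ι g E) (ι g • x) :=
  ⟨RSK.cd_kt_smul (ι g) h.1, fun W hW => by
    rw [cl2_dvA_apply, RSK.cd_ordv_smul]
    refine h.2 _ ?_
    rw [mem_ovr, under_equiv]
    rwa [mem_ovr] at hW⟩

theorem cl2_P_sum {κ : Type} (s : Finset κ) (E : κ → HeightOneSpectrum (𝓞 K) →₀ ℤ) (x : κ → Kˣ)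
    (h : ∀ i ∈ s, cl2_P S T (E i) (x i)) : cl2_P S T (∑ i ∈ s, E i) (∏ i ∈ s, x i) := by
  classical
  induction s using Finset.induction_on with
  | empty => exact ⟨(KT _).one_mem, fun W _ => by
      rw [Finset.sum_empty, Finset.prod_empty, Units.val_one, ordv_one]; rfl⟩
  | insert a s ha ih =>
    rw [Finset.sum_insert ha, Finset.prod_insert ha]
    have h1 := h a (Finset.mem_insert_self a s)
    have h2 := ih fun i hi => h i (Finset.mem_insert_of_mem hi)
    exact ⟨(KT _).mul_mem h1.1 h2.1, fun W hW => by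
      rw [Finsupp.add_apply, h1.2 W hW, h2.2 W hW, ordv_mul]⟩

/-- the norm maps `D'`-invariant divisors to `D' ⊔ D`-invariant divisors -/
theorem cl2_nrm_DvI (D' D : Subgroup G) {E : HeightOneSpectrum (𝓞 K) →₀ ℤ}
    (hE : E ∈ DvI ι T D') : nA (dvA ι) D E ∈ DvI ι T (D' ⊔ D) := by
  classical
  have hs := cl_stable ι (∅ : Finset (HeightOneSpectrum (𝓞 F))) T D'
  refine ⟨?_, fun g hg => ?_⟩
  · rw [nA_sum]
    exact (Dv _).sum_mem fun g _ => (hs.2.2.1 g E hE).1
  · obtain ⟨y, hy, z, hz, rfl⟩ := Subgroup.mem_sup.1 hg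
    have hn := nA_basic (dvA ι) D E
    rw [map_mul]
    show dvA ι y (dvA ι z (nA (dvA ι) D E)) = _
    rw [hn.2.2.1 z hz, hn.1 y, hE.2 y hy]

/-- the norm maps `PrI D'` to `PrI (D' ⊔ D)` -/
theorem cl2_nrm_PrI (D' D : Subgroup G) {E : HeightOneSpectrum (𝓞 K) →₀ ℤ}
    (hE : E ∈ PrI ι S T D') : nA (dvA ι) D E ∈ PrI ι S T (D' ⊔ D) := by
  classical
  obtain ⟨hE1, x, hx, hxD, hxE⟩ := hE
  refine ⟨cl2_nrm_DvI D' D hE1, ∏ g : D, ι (g : G) • x, ?_, fun g hg => ?_, ?_⟩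
  · exact Subgroup.prod_mem (KT (ovr K T)) (t := Finset.univ) (f := fun g : D => ι (g : G) • x)
      fun g _ => RSK.cd_kt_smul (ι (g : G)) hx
  · have key : ι g • (∏ g : D, ι (g : G) • x) = ∏ g : D, ι (g : G) • x := by
      obtain ⟨y, hy, z, hz, rfl⟩ := Subgroup.mem_sup.1 hg
      rw [Finset.smul_prod']
      have hyx : ι y • x = x := Units.ext (hxD y hy)
      have e : ∀ g : D, ι (y * z) • ι (g : G) • x = ι (((⟨z, hz⟩ : D) * g : D) : G) • x := by
        intro g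
        rw [← mul_smul, ← map_mul]
        show ι (y * z * g) • x = ι (z * g) • x
        rw [mul_assoc, mul_comm, map_mul, mul_smul, hyx]
      rw [Finset.prod_congr rfl fun g _ => e g]
      exact Equiv.prod_comp (Equiv.mulLeft (⟨z, hz⟩ : D)) (fun g : D => ι (g : G) • x)
    exact congrArg Units.val key
  · rw [nA_sum]
    exact (cl2_P_sum (S := S) (T := T) Finset.univ (fun g : D => dvA ι (g : G) E)
      (fun g : D => ι (g : G) • x) fun g _ => cl2_P_act (g : G) ⟨hx, hxE⟩).2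

theorem cl_inv_pr (hD : Data ι S T r w fr) {l : ℕ} (hl : l.Prime) (D' D : Subgroup G)
    (hD' : ¬ l ∣ Nat.card D) :
    Eql l ((PrI ι S T (D' ⊔ D)).relIndex (DvI ι T (D' ⊔ D)) : ℝ)
      ((PrI ι S T D').relIndex (rty (dvA ι) [] D (PrI ι S T D') (DvI ι T D')) : ℝ) := by
  classical
  have hs' := cl_stable ι S T D'
  have hs1 := cl_stable ι S T (D' ⊔ D)
  have hle := hs'.2.2.2 (D' ⊔ D) le_sup_left
  have h0R : PrI ι S T D' ≤ rty (dvA ι) [] D (PrI ι S T D') (DvI ι T D') := fun u hu =>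
    ⟨hs'.1 hu, fun g _ => AddSubgroup.sub_mem _ (hs'.2.1 g u hu) hu, fun P hP =>
      absurd hP List.not_mem_nil⟩
  have h1R : DvI ι T (D' ⊔ D) ≤ rty (dvA ι) [] D (PrI ι S T D') (DvI ι T D') := fun u hu =>
    ⟨hle.1 hu, fun g hg => by
      rw [hu.2 g (le_sup_right (a := D') hg), sub_self]
      exact AddSubgroup.zero_mem _, fun P hP => absurd hP List.not_mem_nil⟩
  have hRN : rty (dvA ι) [] D (PrI ι S T D') (DvI ι T D') ≤ DvI ι T D' := fun u hu => hu.1
  refine cl2_alg hl hD' (nA (dvA ι) D) hle.2 hs1.1 h1R h0R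
    (fun u hu => cl2_nrm_DvI D' D hu.1) (fun u hu => cl2_nrm_PrI D' D hu) (fun u hu => ?_)
    (fun u hu => ?_) ?_ ?_
  · have e : nA (dvA ι) D u - Nat.card D • u = ∑ g : D, (dvA ι (g : G) u - u) := by
      rw [nA_sum, Finset.sum_sub_distrib, Finset.sum_const, Finset.card_univ,
        Nat.card_eq_fintype_card]
    show nA (dvA ι) D u - Nat.card D • u ∈ PrI ι S T D'
    rw [e]
    exact AddSubgroup.sum_mem _ fun g _ => hu.2.1 g g.2
  · exact (nA_basic (dvA ι) D u).2.2.2.2.2 fun g hg => hu.2 g (le_sup_right (a := D') hg)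
  · rw [← cl_fix hD]
    exact (cnf_fix hD (D' ⊔ D)).1.ne'
  · intro h
    have h1 : (PrI ι S T D').relIndex (DvI ι T D') = 0 := by
      rw [← AddSubgroup.relIndex_mul_relIndex _ _ _ h0R hRN, h, zero_mul]
    rw [← cl_fix hD] at h1
    exact (cnf_fix hD D').1.ne' h1

end N

end Pool.Agent.CR

namespace Pool.Agent.CR
open Pool.Agent.RSK Pool.Agent.RS2 Pool.Agent.RS3 Pool.Agent.SY
open NumberField IsDedekindDomain Filter Topology Complex

section
variable {F K : Type} [Field F] [NumberField F] [Field K] [NumberField K] [Algebra F K]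
  [IsGalois F K] {G : Type} [CommGroup G] [Fintype G] {ι : G ≃* (K ≃ₐ[F] K)}
  {S T : Finset (HeightOneSpectrum (𝓞 F))} {r : ℕ} {w : Fin r → Pl K}
  {fr : HeightOneSpectrum (𝓞 F) → G}

theorem cl_inv (hD : Data ι S T r w fr) {l : ℕ} (hl : l.Prime) (D' D : Subgroup G)
    (hD' : ¬ l ∣ Nat.card D) :
    Eql l ((PrI ι S T (D' ⊔ D)).relIndex (DvI ι T (D' ⊔ D)) : ℝ)
      ((PrI ι S T D').relIndex (rty (dvA ι) [] D (PrI ι S T D') (DvI ι T D')) : ℝ) :=
  @Pool.Agent.CR.cl_inv_pr F K _ _ _ _ _ _ G _ _ ι S T r w fr hD l hl D' D hD'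

end

end Pool.Agent.CR
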