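import Pool.Agent.Lib_helper17.CRF.D_WN
import Pool.Agent.Lib_helper17.CRF.A_TX
import Pool.Agent.Lib_helper17.CRF.N_CL2
import Pool.Agent.Lib_helper17.CRF.N_CL1
import Pool.Agent.Lib_helper17.CRF.N_LD3
import Pool.Agent.Lib_helper17.CRF.N_CL0

set_option autoImplicit false
set_option linter.unusedSectionVars false

namespace Pool.Agent.CR

open Pool.Agent.RSK Pool.Agent.RS2 Pool.Agent.RS3 Pool.Agent.SY
open NumberField IsDedekindDomain Filter Topology Complex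

section N

variable {F K : Type} [Field F] [NumberField F] [Field K] [NumberField K] [Algebra F K]
  [IsGalois F K] {G : Type} [CommGroup G] [Fintype G] {ι : G ≃* (K ≃ₐ[F] K)}
  {S T : Finset (HeightOneSpectrum (𝓞 F))} {r : ℕ} {w : Fin r → Pl K}
  {fr : HeightOneSpectrum (𝓞 F) → G}

theorem cl_alt_pr (hD : Data ι S T r w fr) {l : ℕ} (hl : l.Prime) {L : List (Subgroup G)}
    (hL : ∀ P ∈ L, (Nat.card P).Prime ∧ Nat.card P ≠ l) (D' : Subgroup G) :
    Eql l (alt (fun D => (hK ι S T (D' ⊔ D) : ℝ)) L ⊥)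
      ((PrI ι S T D').relIndex (rty (dvA ι) L ⊥ (PrI ι S T D') (DvI ι T D')) : ℝ) := by
  have hst := cl_stable ι S T D'
  have h0 : (PrI ι S T D').relIndex (DvI ι T D') ≠ 0 := by
    rw [← cl_fix hD D']
    exact (cnf_fix hD D').1.ne'
  have h1 := tyx (dvA ι) (PrI ι S T D') (DvI ι T D') hst.1 hst.2.1 hst.2.2.1 h0 hl L hL ⊥
  refine Eql.trans hl (alt_eql hl (fun D => ¬ l ∣ Nat.card D) (sup_ndvd hl hL) ?_ ?_) h1
  · intro D hD'
    rw [cl_fix hD (D' ⊔ D)]
    exact cl_inv hD hl D' D hD'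
  · rw [Subgroup.card_bot]
    exact ndvd_one hl

end N

end Pool.Agent.CR

namespace Pool.Agent.CR
open Pool.Agent.RSK Pool.Agent.RS2 Pool.Agent.RS3 Pool.Agent.SY
open NumberField IsDedekindDomain Filter Topology Complex

section
variable {F K : Type} [Field F] [NumberField F] [Field K] [NumberField K] [Algebra F K]
  [IsGalois F K] {G : Type} [CommGroup G] [Fintype G] {ι : G ≃* (K ≃ₐ[F] K)}
  {S T : Finset (HeightOneSpectrum (𝓞 F))} {r : ℕ} {w : Fin r → Pl K}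
  {fr : HeightOneSpectrum (𝓞 F) → G}

theorem cl_alt (hD : Data ι S T r w fr) {l : ℕ} (hl : l.Prime) {L : List (Subgroup G)}
    (hL : ∀ P ∈ L, (Nat.card P).Prime ∧ Nat.card P ≠ l) (D' : Subgroup G) :
    Eql l (alt (fun D => (hK ι S T (D' ⊔ D) : ℝ)) L ⊥)
      ((PrI ι S T D').relIndex (rty (dvA ι) L ⊥ (PrI ι S T D') (DvI ι T D')) : ℝ) :=
  @Pool.Agent.CR.cl_alt_pr F K _ _ _ _ _ _ G _ _ ι S T r w fr hD l hl L hL D'

end

end Pool.Agent.CR
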