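import Pool.Agent.Lib_helper17.CRF.D_WN
import Pool.Agent.Lib_helper17.CRF.N_PC5

/-!
# Composite Rubin (CR), block GU1: the form `BU`
-/

set_option autoImplicit false
set_option linter.unusedSectionVars false

namespace Pool.Agent.CR

open Pool.Agent.RSK Pool.Agent.RS2 Pool.Agent.RS3 Pool.Agent.SY
open NumberField IsDedekindDomain Filter Topology Complex

section N

variable {F K : Type} [Field F] [NumberField F] [Field K] [NumberField K] [Algebra F K]
  [IsGalois F K] {G : Type} [CommGroup G] [Fintype G] {ι : G ≃* (K ≃ₐ[F] K)}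
  {S T : Finset (HeightOneSpectrum (𝓞 F))} {r : ℕ} {w : Fin r → Pl K}
  {fr : HeightOneSpectrum (𝓞 F) → G}

theorem gu1_smA (g : G) (u : UM ι S T) :
    ((smA G (UM ι S T) g u).val : K) = ι g (u.val : K) := by
  show ((MonoidAlgebra.single g (1 : ℤ) • u : UM ι S T).val : K) = _
  rw [um_single_smul]
  rfl

theorem gu1_acG (g : G) (P : PS (ovr K S)) : (acG ι S g P).pl = act (ι g) P.pl :=
  acH_pl S (ι g) P

theorem gu1_lg (g : G) (P : PS (ovr K S)) (x : K) :
    lg (acG ι S g P).pl (ι g x) = lg P.pl x := by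
  rw [gu1_acG, lg_act]

theorem BU_inv_pr (g : G) (u v : UM ι S T) :
    BU ι S T (smA G (UM ι S T) g u) (smA G (UM ι S T) g v) = BU ι S T u v := by
  show ∑ P : PS (ovr K S), lg P.pl ((smA G (UM ι S T) g u).val : K) *
      lg P.pl ((smA G (UM ι S T) g v).val : K) =
    ∑ P : PS (ovr K S), lg P.pl (u.val : K) * lg P.pl (v.val : K)
  rw [← Equiv.sum_comp (acG ι S g)]
  refine Finset.sum_congr rfl fun P _ => ?_
  rw [gu1_smA, gu1_smA, gu1_lg, gu1_lg]

/-- the logarithm at a place as an additive map -/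
noncomputable def gu1_L (ι : G ≃* (K ≃ₐ[F] K)) (S T : Finset (HeightOneSpectrum (𝓞 F)))
    (W : Pl K) : UM ι S T →+ ℝ :=
  AddMonoidHom.mk' (fun u => lg W (u.val : K)) fun u v => by
    rw [UM.val_add, Units.val_mul, lg_mul _ u.val.ne_zero v.val.ne_zero]

/-- a unit of the new part has value one at the places with a nontrivial decomposition group -/
theorem gu1_zero {u : UM ι S T} (hu : u ∈ mI (smA G (UM ι S T))) (P : PS (ovr K S)) {g : G}
    (hg : acG ι S g P = P) (hg1 : g ≠ 1) : lg P.pl (u.val : K) = 0 := by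
  classical
  -- a subgroup of prime order of the stabilizer
  obtain ⟨p, hp, hpd⟩ := Nat.exists_prime_and_dvd (n := orderOf g) (fun h => hg1
    (orderOf_eq_one_iff.1 h))
  set s : G := g ^ (orderOf g / p) with hs
  have hso : orderOf s = p := orderOf_pow_orderOf_div (orderOf_pos g).ne' hpd
  have hsP : acG ι S s P = P := by
    rw [hs, map_pow]
    generalize orderOf g / p = k
    induction k with
    | zero => rw [pow_zero]; rfl
    | succ k ih =>
      rw [pow_succ]
      show (acG ι S g ^ k) (acG ι S g P) = P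
      rw [hg, ih]
  have hfix : ∀ h ∈ Subgroup.zpowers s, acG ι S h P = P := by
    intro h hh
    have h1 : s ∈ (MulAction.stabilizer (Equiv.Perm (PS (ovr K S))) P).comap (acG ι S) := hsP
    exact (Subgroup.zpowers_le.2 h1) hh
  have hcard : Nat.card (Subgroup.zpowers s) = p := by rw [Nat.card_zpowers, hso]
  have h0 := hu (Subgroup.zpowers s) (by rw [hcard]; exact hp)
  have h2 := congrArg (gu1_L ι S T P.pl) h0
  rw [nA_sum, map_sum, map_zero] at h2
  have h3 : ∀ h : Subgroup.zpowers s, gu1_L ι S T P.pl (smA G (UM ι S T) (h : G) u) =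
      lg P.pl (u.val : K) := by
    intro h
    show lg P.pl ((smA G (UM ι S T) (h : G) u).val : K) = _
    rw [gu1_smA]
    conv_lhs => rw [← hfix h h.2]
    rw [gu1_lg]
  rw [Finset.sum_congr rfl fun h _ => h3 h, Finset.sum_const, Finset.card_univ,
    ← Nat.card_eq_fintype_card, hcard, nsmul_eq_mul] at h2
  rcases mul_eq_zero.1 h2 with h4 | h4
  · exact absurd h4 (Nat.cast_ne_zero.2 hp.ne_zero)
  · exact h4

theorem gu1_wl (W : Pl K) (u : UM ι S T) (γ : G) :
    (wl ι S T W u).coeff γ = lg (act (ι γ) W) (u.val : K) := by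
  classical
  show (∑ δ : G, MonoidAlgebra.single δ (lg (act (ι δ) W) (u.val : K))).coeff γ = _
  rw [MonoidAlgebra.coeff_sum, Finsupp.finsetSum_apply, Finset.sum_eq_single γ]
  · rw [MonoidAlgebra.coeff_single_apply, if_pos rfl]
  · intro δ _ hδ
    rw [MonoidAlgebra.coeff_single_apply, if_neg hδ]
  · intro h
    exact absurd (Finset.mem_univ γ) h

theorem BU_w_pr (hD : Data ι S T r w fr) {u v : UM ι S T} (hu : u ∈ mI (smA G (UM ι S T))) :
    BU ι S T u v = ∑ i, ∑ γ : G, (wl ι S T (w i) u).coeff γ * (wl ι S T (w i) v).coeff γ := by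
  classical
  obtain ⟨-, -, w', hw, h1, h2, h3⟩ := data_pl hD
  set e : Fin r × G → PS (ovr K S) := fun x => acG ι S x.2 (w' x.1) with he
  have hinj : Function.Injective e := by
    rintro ⟨i, γ⟩ ⟨i', γ'⟩ (h : acG ι S γ (w' i) = acG ι S γ' (w' i'))
    have h4 : acG ι S (γ'⁻¹ * γ) (w' i) = w' i' := by
      rw [map_mul, map_inv]
      show (acG ι S γ')⁻¹ (acG ι S γ (w' i)) = w' i'
      rw [h]
      exact Equiv.symm_apply_apply _ _
    have h5 := h2 i i' _ h4
    subst h5
    have h6 := h1 i _ h4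
    rw [inv_mul_eq_one] at h6
    rw [h6]
  show ∑ P : PS (ovr K S), lg P.pl (u.val : K) * lg P.pl (v.val : K) = _
  rw [← Finset.sum_subset (Finset.subset_univ (Finset.univ.image e)), Finset.sum_image
    fun x _ y _ h => hinj h, Fintype.sum_prod_type]
  · refine Finset.sum_congr rfl fun i _ => Finset.sum_congr rfl fun γ _ => ?_
    rw [gu1_wl, gu1_wl, he]
    simp only
    rw [gu1_acG, hw]
  · intro P _ hP
    have hst : ∃ g, acG ι S g P = P ∧ g ≠ 1 := by
      by_contra hcon
      push Not at hcon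
      obtain ⟨i, g, hg⟩ := h3 P hcon
      exact hP (Finset.mem_image.2 ⟨(i, g), Finset.mem_univ _, hg.symm⟩)
    obtain ⟨g, hg, hg1⟩ := hst
    rw [gu1_zero hu P hg hg1, zero_mul]

end N

end Pool.Agent.CR

namespace Pool.Agent.CR
open Pool.Agent.RSK Pool.Agent.RS2 Pool.Agent.RS3 Pool.Agent.SY
open NumberField IsDedekindDomain Filter Topology Complex

section
variable {F K : Type} [Field F] [NumberField F] [Field K] [NumberField K] [Algebra F K]
  [IsGalois F K] {G : Type} [CommGroup G] [Fintype G] {ι : G ≃* (K ≃ₐ[F] K)}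
  {S T : Finset (HeightOneSpectrum (𝓞 F))} {r : ℕ} {w : Fin r → Pl K}
  {fr : HeightOneSpectrum (𝓞 F) → G}

theorem BU_inv (g : G) (u v : UM ι S T) :
    BU ι S T (smA G (UM ι S T) g u) (smA G (UM ι S T) g v) = BU ι S T u v :=
  @Pool.Agent.CR.BU_inv_pr F K _ _ _ _ _ _ G _ _ ι S T g u v

end

end Pool.Agent.CR

namespace Pool.Agent.CR
open Pool.Agent.RSK Pool.Agent.RS2 Pool.Agent.RS3 Pool.Agent.SY
open NumberField IsDedekindDomain Filter Topology Complex

section
variable {F K : Type} [Field F] [NumberField F] [Field K] [NumberField K] [Algebra F K]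
  [IsGalois F K] {G : Type} [CommGroup G] [Fintype G] {ι : G ≃* (K ≃ₐ[F] K)}
  {S T : Finset (HeightOneSpectrum (𝓞 F))} {r : ℕ} {w : Fin r → Pl K}
  {fr : HeightOneSpectrum (𝓞 F) → G}

theorem BU_w (hD : Data ι S T r w fr) {u v : UM ι S T} (hu : u ∈ mI (smA G (UM ι S T))) :
    BU ι S T u v = ∑ i, ∑ γ : G, (wl ι S T (w i) u).coeff γ * (wl ι S T (w i) v).coeff γ :=
  @Pool.Agent.CR.BU_w_pr F K _ _ _ _ _ _ G _ _ ι S T r w fr hD u v hu

end

end Pool.Agent.CR
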