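import Pool.Agent.Lib_helper17.CRF.D_WN
import Pool.Agent.Lib_helper17.CRF.N_PC3
import Pool.Agent.Lib_helper17.CRF.A_GR1
import Pool.Agent.Lib_helper17.CRF.N_LD3

/-!
# Composite Rubin (CR): GU2, the Gram determinants of the units of the fixed fields
-/

set_option autoImplicit false
set_option linter.unusedSectionVars false

namespace Pool.Agent.CR

open Pool.Agent.RSK Pool.Agent.RS2 Pool.Agent.RS3 Pool.Agent.SY
open NumberField IsDedekindDomain Filter Topology Complex

/-! ## Linear algebra -/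

section LA

variable {P : Type} [Fintype P] {n : ℕ}

/-- the Gram determinant with an additional orthogonal vector -/
theorem gu2_blk (A : P → Option (Fin n) → ℝ) (e : Option (Fin n) ≃ P)
    (h0 : ∀ j : Fin n, ∑ p, A p none * A p (some j) = 0) :
    (Matrix.det (Matrix.of fun i j : Option (Fin n) => A (e i) j)) ^ 2 =
      Matrix.det (Matrix.of fun i j : Fin n => ∑ p, A p (some i) * A p (some j)) *
        ∑ p, A p none * A p none := by
  set N : Matrix (Option (Fin n)) (Option (Fin n)) ℝ :=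
    Matrix.of fun i j : Option (Fin n) => A (e i) j with hN
  have h1 : (N.transpose * N).det = N.det ^ 2 := by
    rw [Matrix.det_mul, Matrix.det_transpose, sq]
  rw [← h1]
  have h2 : ∀ i j, (N.transpose * N) i j = ∑ p, A p i * A p j := by
    intro i j
    rw [Matrix.mul_apply, ← Equiv.sum_comp e]
    rfl
  have h3 := Matrix.det_submatrix_equiv_self (Equiv.optionEquivSumPUnit.{0} (Fin n)).symm
    (N.transpose * N)
  rw [← h3]
  have h4 : (N.transpose * N).submatrix (Equiv.optionEquivSumPUnit.{0} (Fin n)).symm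
      (Equiv.optionEquivSumPUnit.{0} (Fin n)).symm =
      Matrix.fromBlocks (Matrix.of fun i j : Fin n => ∑ p, A p (some i) * A p (some j))
        0 0 (Matrix.of fun _ _ : PUnit => ∑ p, A p none * A p none) := by
    ext i j
    rw [Matrix.submatrix_apply, h2]
    rcases i with i | i <;> rcases j with j | j
    · rfl
    · show ∑ p, A p (some i) * A p none = 0
      rw [← h0 i]
      exact Finset.sum_congr rfl fun p _ => mul_comm _ _
    · show ∑ p, A p none * A p (some j) = 0
      exact h0 j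
    · rfl
  rw [h4, Matrix.det_fromBlocks_zero₁₂]
  congr 1
  exact Matrix.det_unique _

/-- the weighted Gram determinant -/
theorem gu2_lin (M : P → Fin n → ℝ) (hM : ∀ j, ∑ p, M p j = 0)
    (hc : Fintype.card P = Fintype.card (Fin n) + 1) (c : P → ℝ) (hc0 : ∀ p, 0 < c p) :
    Matrix.det (Matrix.of fun i j : Fin n => ∑ p, c p * (M p i * M p j)) =
      (∏ p, c p) * (∑ p, (c p)⁻¹) *
        (adet (fun p (j : Option (Fin n)) => j.elim 1 (M p)) / Fintype.card P) ^ 2 := by
  classical
  have hcard : Fintype.card (Option (Fin n)) = Fintype.card P := by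
    rw [Fintype.card_option, hc]
  let e : Option (Fin n) ≃ P := Fintype.equivOfCardEq hcard
  have hcP : (0 : ℝ) < Fintype.card P := by
    rw [hc]
    positivity
  have hne : Nonempty P := ⟨e none⟩
  have hs : ∀ p, Real.sqrt (c p) * Real.sqrt (c p) = c p := fun p => Real.mul_self_sqrt (hc0 p).le
  have hs0 : ∀ p, 0 < Real.sqrt (c p) := fun p => Real.sqrt_pos.2 (hc0 p)
  -- the square matrix
  let A : P → Option (Fin n) → ℝ := fun p j =>
    Real.sqrt (c p) * j.elim (c p)⁻¹ (M p)
  have hsum : 0 < ∑ p, (c p)⁻¹ :=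
    Finset.sum_pos (fun p _ => inv_pos.2 (hc0 p)) Finset.univ_nonempty
  have h1 := gu2_blk A e (fun j => by
    have : ∀ p, A p none * A p (some j) = M p j := by
      intro p
      show Real.sqrt (c p) * (c p)⁻¹ * (Real.sqrt (c p) * M p j) = M p j
      have := hs p
      have h0 := (hc0 p).ne'
      calc Real.sqrt (c p) * (c p)⁻¹ * (Real.sqrt (c p) * M p j)
          = (Real.sqrt (c p) * Real.sqrt (c p)) * (c p)⁻¹ * M p j := by ring
        _ = M p j := by rw [this, mul_inv_cancel₀ h0, one_mul]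
    rw [Finset.sum_congr rfl fun p _ => this p]
    exact hM j)
  have h2 : ∑ p, A p none * A p none = ∑ p, (c p)⁻¹ := by
    refine Finset.sum_congr rfl fun p _ => ?_
    show Real.sqrt (c p) * (c p)⁻¹ * (Real.sqrt (c p) * (c p)⁻¹) = (c p)⁻¹
    calc Real.sqrt (c p) * (c p)⁻¹ * (Real.sqrt (c p) * (c p)⁻¹)
        = (Real.sqrt (c p) * Real.sqrt (c p)) * (c p)⁻¹ * (c p)⁻¹ := by ring
      _ = (c p)⁻¹ := by rw [hs p, mul_inv_cancel₀ (hc0 p).ne', one_mul]
  have h3 : (Matrix.of fun i j : Fin n => ∑ p, A p (some i) * A p (some j)) =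
      Matrix.of fun i j : Fin n => ∑ p, c p * (M p i * M p j) := by
    ext i j
    show ∑ p, Real.sqrt (c p) * M p i * (Real.sqrt (c p) * M p j) = ∑ p, c p * (M p i * M p j)
    refine Finset.sum_congr rfl fun p _ => ?_
    calc Real.sqrt (c p) * M p i * (Real.sqrt (c p) * M p j)
        = (Real.sqrt (c p) * Real.sqrt (c p)) * (M p i * M p j) := by ring
      _ = c p * (M p i * M p j) := by rw [hs p]
  rw [h2, h3] at h1
  -- the determinant of `A`
  have h4 : adet A = (∏ p, Real.sqrt (c p)) *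
      adet (fun p (j : Option (Fin n)) => j.elim (c p)⁻¹ (M p)) := by
    have h5 := adet_mul' (Matrix.diagonal fun p => Real.sqrt (c p))
      (fun p (j : Option (Fin n)) => j.elim (c p)⁻¹ (M p))
    rw [Matrix.det_diagonal, abs_of_nonneg (Finset.prod_nonneg fun p _ => (hs0 p).le)] at h5
    rw [← h5]
    congr 1
    funext p j
    rw [Finset.sum_eq_single p]
    · rw [Matrix.diagonal_apply_eq]
    · intro q _ hq
      rw [Matrix.diagonal_apply_ne _ (Ne.symm hq), zero_mul]
    · intro h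
      exact absurd (Finset.mem_univ _) h
  have h6 := adet_col M hM hc (fun p => (c p)⁻¹)
  rw [abs_of_pos hsum] at h6
  have h7 : adet A ^ 2 = (Matrix.det (Matrix.of fun i j : Option (Fin n) => A (e i) j)) ^ 2 := by
    rw [adet_eq A e, sq_abs]
  have h8 : (∏ p, Real.sqrt (c p)) ^ 2 = ∏ p, c p := by
    rw [← Finset.prod_pow]
    exact Finset.prod_congr rfl fun p _ => by rw [sq, hs p]
  rw [← h7, h4, mul_pow, h8] at h1
  set a := adet (fun p (j : Option (Fin n)) => j.elim (c p)⁻¹ (M p)) with ha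
  set R := adet (fun p (j : Option (Fin n)) => j.elim 1 (M p)) with hR
  have h9 : a = (∑ p, (c p)⁻¹) * (R / Fintype.card P) := by
    rw [← mul_div_assoc, eq_div_iff hcP.ne']
    exact h6
  rw [h9] at h1
  refine mul_right_cancel₀ hsum.ne' ?_
  rw [← h1]
  ring

end LA

section N

variable {F K : Type} [Field F] [NumberField F] [Field K] [NumberField K] [Algebra F K]
  [IsGalois F K] {G : Type} [CommGroup G] [Fintype G] {ι : G ≃* (K ≃ₐ[F] K)}
  {S T : Finset (HeightOneSpectrum (𝓞 F))} {r : ℕ} {w : Fin r → Pl K}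
  {fr : HeightOneSpectrum (𝓞 F) → G}

/-- the inclusion of the units of the fixed field -/
theorem gu2_mem (D : Subgroup G) (u : (Kf ι D)ˣ)
    (hu : u ∈ Un (ovr (Kf ι D) S) (ovr (Kf ι D) T)) :
    Units.map (algebraMap (Kf ι D) K : Kf ι D →* K) u ∈ Un (ovr K S) (ovr K T) := by
  have h := (un_map (F := Kf ι D) (H := K) (S := ovr (Kf ι D) S) (T := ovr (Kf ι D) T) u).2 hu
  rwa [ovr_ovr, ovr_ovr] at h

theorem gu2_mem' (D : Subgroup G) (u : (Kf ι D)ˣ)
    (hu : Units.map (algebraMap (Kf ι D) K : Kf ι D →* K) u ∈ Un (ovr K S) (ovr K T)) :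
    u ∈ Un (ovr (Kf ι D) S) (ovr (Kf ι D) T) := by
  refine (un_map (F := Kf ι D) (H := K) (S := ovr (Kf ι D) S) (T := ovr (Kf ι D) T) u).1 ?_
  rwa [ovr_ovr, ovr_ovr]

variable (ι S T)

/-- the units of the fixed field are the fixed units -/
theorem gu2_equiv (D : Subgroup G) :
    ∃ e : Additive (Un (ovr (Kf ι D) S) (ovr (Kf ι D) T)) ≃ₗ[ℤ]
        nty (smA G (UM ι S T)) [] D,
      ∀ u, ((e u : UM ι S T).val : K) =
        (((Additive.toMul u : Un (ovr (Kf ι D) S) (ovr (Kf ι D) T)) : (Kf ι D)ˣ) : K) := by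
  let f : Additive (Un (ovr (Kf ι D) S) (ovr (Kf ι D) T)) →+ nty (smA G (UM ι S T)) [] D :=
    AddMonoidHom.mk' (fun u => ⟨UM.mk (Units.map (algebraMap (Kf ι D) K : Kf ι D →* K)
      ((Additive.toMul u : Un (ovr (Kf ι D) S) (ovr (Kf ι D) T)) : (Kf ι D)ˣ))
      (gu2_mem D _ (Subtype.prop _)), by
        refine ⟨fun g hg => ?_, fun P hP => absurd hP (List.not_mem_nil)⟩
        refine UM.ext ?_
        show (MonoidAlgebra.single g (1 : ℤ) • _ : UM ι S T).val = _
        rw [um_single_smul, UM.val_mk]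
        refine Units.ext ?_
        show ι g (algebraMap (Kf ι D) K _) = _
        exact (IntermediateField.mem_fixedField_iff _ _).1 (Subtype.prop _) (ι g)
          (Subgroup.mem_map_of_mem _ hg)⟩) (by
      intro u v
      refine Subtype.ext (UM.ext ?_)
      show Units.map _ _ = Units.map _ _ * Units.map _ _
      rw [← map_mul]
      rfl)
  have hf : ∀ u, ((f u : UM ι S T).val : K) =
      (((Additive.toMul u : Un (ovr (Kf ι D) S) (ovr (Kf ι D) T)) : (Kf ι D)ˣ) : K) :=
    fun u => rfl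
  have hbij : Function.Bijective f := by
    constructor
    · intro u v huv
      have h1 := congrArg (fun x : nty (smA G (UM ι S T)) [] D => ((x : UM ι S T).val : K)) huv
      simp only [hf] at h1
      refine Additive.toMul.injective (Subtype.ext (Units.ext (Subtype.ext h1)))
    · rintro ⟨x, hx⟩
      have hx1 : ∀ g ∈ D, ι g (x.val : K) = x.val := by
        intro g hg
        have h2 := hx.1 g hg
        have h3 : (MonoidAlgebra.single g (1 : ℤ) • x : UM ι S T) = x := h2
        have h4 := congrArg UM.val h3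
        rw [um_single_smul] at h4
        exact congrArg Units.val h4
      have hmem : ((x.val : Kˣ) : K) ∈ Kf ι D := by
        refine (IntermediateField.mem_fixedField_iff _ _).2 ?_
        rintro σ ⟨g, hg, rfl⟩
        exact hx1 g hg
      have hmem' : ((x.val⁻¹ : Kˣ) : K) ∈ Kf ι D := by
        rw [Units.val_inv_eq_inv_val]
        exact (Kf ι D).inv_mem hmem
      let y : (Kf ι D)ˣ := ⟨⟨_, hmem⟩, ⟨_, hmem'⟩,
        Subtype.ext (by exact x.val.mul_inv), Subtype.ext (by exact x.val.inv_mul)⟩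
      have hy : Units.map (algebraMap (Kf ι D) K : Kf ι D →* K) y = x.val := Units.ext rfl
      refine ⟨Additive.ofMul ⟨y, gu2_mem' D y (by rw [hy]; exact x.val_mem)⟩, ?_⟩
      exact Subtype.ext (UM.ext hy)
  exact ⟨(AddEquiv.ofBijective f hbij).toIntLinearEquiv, fun u => rfl⟩

/-- the number of places of `K` -/
theorem gu2_card : Fintype.card (PS (ovr K S)) = cD (dgS ι S) ⊥ := by
  rw [← card_pl ι S ⊥]
  obtain ⟨pr, hs, -, hor, -⟩ := prod_pl ι S (⊥ : Subgroup G)
  refine Fintype.card_of_bijective (f := pr) ⟨fun P Q h => ?_, hs⟩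
  obtain ⟨g, hg, h2⟩ := (hor P Q).1 h
  rw [Subgroup.mem_bot.1 hg, map_one] at h2
  exact h2

variable {ι S T}

theorem grm_U_pr (hD : Data ι S T r w fr) (D : Subgroup G) :
    grm (BU ι S T) (nty (smA G (UM ι S T)) [] D) * (Nat.card D : ℝ) ^ 2 =
      (Nat.card D : ℝ) ^ (cD (dgS ι S) D) * nD (dgS ι S) D * cD (dgS ι S) ⊥ *
        rK ι S T D ^ 2 := by
  classical
  obtain ⟨-, -, hreg, n, -, hn, ⟨b⟩, -⟩ := cnf_fix hD D
  obtain ⟨e, he⟩ := gu2_equiv ι S T D
  obtain ⟨pr, hs, hpl, -, hcard, hlg, hprod⟩ := prod_pl ι S D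
  have hD0 : (Nat.card D : ℝ) ≠ 0 := Nat.cast_ne_zero.2 Nat.card_pos.ne'
  have hDpos : (0 : ℝ) < Nat.card D := Nat.cast_pos.2 Nat.card_pos
  -- the sizes of the fibres and the local degrees
  let m : PS (ovr (Kf ι D) S) → ℝ := fun V => Nat.card {Q // pr Q = V}
  let nP : PS (ovr K S) → ℝ := fun P => (Nat.card (D ⊓ dgF ι (dn F P.pl) : Subgroup G) : ℝ)
  have hmn : ∀ P, m (pr P) * nP P = Nat.card D := by
    intro P
    have := hcard P
    show (Nat.card {Q // pr Q = pr P} : ℝ) *
      (Nat.card (D ⊓ dgF ι (dn F P.pl) : Subgroup G) : ℝ) = Nat.card D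
    rw [← Nat.cast_mul, this]
  have hm0 : ∀ V, 0 < m V := by
    intro V
    obtain ⟨P, rfl⟩ := hs V
    have : Nonempty {Q // pr Q = pr P} := ⟨⟨P, rfl⟩⟩
    exact Nat.cast_pos.2 Nat.card_pos
  have hnP : ∀ P, nP P = Nat.card D / m (pr P) := by
    intro P
    rw [eq_div_iff (hm0 _).ne', mul_comm]
    exact hmn P
  let c : PS (ovr (Kf ι D) S) → ℝ := fun V => (Nat.card D : ℝ) ^ 2 / m V
  have hc0 : ∀ V, 0 < c V := fun V => div_pos (pow_pos hDpos 2) (hm0 V)
  let M : PS (ovr (Kf ι D) S) → Fin n → ℝ := fun V j => lg V.pl (bu b j : Kf ι D)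
  have hcardV : Fintype.card (PS (ovr (Kf ι D) S)) = n + 1 := by
    rw [card_pl ι S D, hn]
  have hM : ∀ j, ∑ V, M V j = 0 := fun j => sum_lg (T := ovr (Kf ι D) T)
    (Subtype.prop (Additive.toMul (b j) : Un (ovr (Kf ι D) S) (ovr (Kf ι D) T)))
  -- the Gram matrix
  have hB : ∀ i j, BU ι S T (e (b i) : UM ι S T) (e (b j) : UM ι S T) =
      ∑ V, c V * (M V i * M V j) := by
    intro i j
    have h1 : BU ι S T (e (b i) : UM ι S T) (e (b j) : UM ι S T) =
        ∑ P : PS (ovr K S), nP P ^ 2 * (M (pr P) i * M (pr P) j) := by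
      show ∑ P : PS (ovr K S), lg P.pl ((e (b i) : UM ι S T).val : K) *
        lg P.pl ((e (b j) : UM ι S T).val : K) = _
      refine Finset.sum_congr rfl fun P _ => ?_
      rw [he, he, hlg, hlg]
      show nP P * M (pr P) i * (nP P * M (pr P) j) = _
      ring
    rw [h1, ← Finset.sum_fiberwise_of_maps_to (s := Finset.univ) (t := Finset.univ) (g := pr)
      (fun _ _ => Finset.mem_univ _)]
    refine Finset.sum_congr rfl fun V _ => ?_
    have h2 : ∀ P ∈ Finset.univ.filter (fun P => pr P = V),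
        nP P ^ 2 * (M (pr P) i * M (pr P) j) =
          ((Nat.card D : ℝ) / m V) ^ 2 * (M V i * M V j) := by
      intro P hP
      have hPV : pr P = V := (Finset.mem_filter.1 hP).2
      rw [hnP, hPV]
    rw [Finset.sum_congr rfl h2, Finset.sum_const, nsmul_eq_mul]
    have h3 : ((Finset.univ.filter (fun P => pr P = V)).card : ℝ) = m V := by
      show _ = (Nat.card {Q // pr Q = V} : ℝ)
      rw [Nat.card_eq_fintype_card, Fintype.card_subtype]
    rw [h3]
    have := (hm0 V).ne'
    show m V * (((Nat.card D : ℝ) / m V) ^ 2 * (M V i * M V j)) =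
      (Nat.card D : ℝ) ^ 2 / m V * (M V i * M V j)
    field_simp
  have hgrm : grm (BU ι S T) (nty (smA G (UM ι S T)) [] D) =
      Matrix.det (Matrix.of fun i j : Fin n => ∑ V, c V * (M V i * M V j)) := by
    rw [grm_basis (BU ι S T) (b.map e)]
    congr 1
    ext i j
    show BU ι S T ((b.map e) i : UM ι S T) ((b.map e) j : UM ι S T) = _
    rw [Module.Basis.map_apply, Module.Basis.map_apply, hB]
    rfl
  rw [hgrm, gu2_lin M hM (by rw [hcardV, Fintype.card_fin]) c hc0]
  -- the regulator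
  have hR : adet (fun V (j : Option (Fin n)) => j.elim 1 (M V)) /
      Fintype.card (PS (ovr (Kf ι D) S)) = rK ι S T D := by
    rw [← hreg b]
    unfold regS
    congr 2
    funext V j
    rcases j with _ | j <;> rfl
  rw [hR]
  -- the sum of the inverses
  have hsum : ∑ V, (c V)⁻¹ = (cD (dgS ι S) ⊥ : ℝ) / (Nat.card D : ℝ) ^ 2 := by
    have h1 : ∀ V, (c V)⁻¹ = m V / (Nat.card D : ℝ) ^ 2 := fun V => inv_div _ _
    rw [Finset.sum_congr rfl fun V _ => h1 V, ← Finset.sum_div]
    congr 1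
    have h2 : ∀ V, m V = ∑ P ∈ Finset.univ.filter (fun P => pr P = V), (1 : ℝ) := by
      intro V
      rw [Finset.sum_const, nsmul_eq_mul, mul_one]
      show (Nat.card {Q // pr Q = V} : ℝ) = _
      rw [Nat.card_eq_fintype_card, Fintype.card_subtype]
    rw [Finset.sum_congr rfl fun V _ => h2 V,
      Finset.sum_fiberwise_of_maps_to (fun _ _ => Finset.mem_univ _), Finset.sum_const,
      nsmul_eq_mul, mul_one, Finset.card_univ, gu2_card ι S]
  -- the product
  have hpr : ∏ V, c V = (Nat.card D : ℝ) ^ (cD (dgS ι S) D) * nD (dgS ι S) D := by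
    have h1 := hprod (fun B => (Nat.card (D ⊓ B : Subgroup G) : ℝ))
      (fun V => (Nat.card D : ℝ) / m V) (fun P => (hnP P).symm)
    have h2 : ∀ V, c V = (Nat.card D : ℝ) * ((Nat.card D : ℝ) / m V) := by
      intro V
      show (Nat.card D : ℝ) ^ 2 / m V = _
      ring
    rw [Finset.prod_congr rfl fun V _ => h2 V, Finset.prod_mul_distrib, h1, Finset.prod_const,
      Finset.card_univ, card_pl ι S D]
    congr 1
    unfold nD
    push_cast
    rfl
  rw [hsum, hpr]
  field_simp

end N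

end Pool.Agent.CR

namespace Pool.Agent.CR
open Pool.Agent.RSK Pool.Agent.RS2 Pool.Agent.RS3 Pool.Agent.SY
open NumberField IsDedekindDomain Filter Topology Complex

section
variable {F K : Type} [Field F] [NumberField F] [Field K] [NumberField K] [Algebra F K]
  [IsGalois F K] {G : Type} [CommGroup G] [Fintype G] {ι : G ≃* (K ≃ₐ[F] K)}
  {S T : Finset (HeightOneSpectrum (𝓞 F))} {r : ℕ} {w : Fin r → Pl K}
  {fr : HeightOneSpectrum (𝓞 F) → G}

theorem grm_U (hD : Data ι S T r w fr) (D : Subgroup G) :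
    grm (BU ι S T) (nty (smA G (UM ι S T)) [] D) * (Nat.card D : ℝ) ^ 2 =
      (Nat.card D : ℝ) ^ (cD (dgS ι S) D) * nD (dgS ι S) D * cD (dgS ι S) ⊥ *
        rK ι S T D ^ 2 :=
  @Pool.Agent.CR.grm_U_pr F K _ _ _ _ _ _ G _ _ ι S T r w fr hD D

end

end Pool.Agent.CR
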