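import Pool.Agent.Lib_helper17.CRF.D_WN
import Pool.Agent.Lib_helper17.CRF.N_PC3
import Pool.Agent.Lib_helper17.CRF.A_YP1

/-!
# Composite Rubin (CR), block GY: the permutation module of the places
-/

set_option autoImplicit false
set_option linter.unusedSectionVars false

namespace Pool.Agent.CR

open Pool.Agent.RSK Pool.Agent.RS2 Pool.Agent.RS3 Pool.Agent.SY
open NumberField IsDedekindDomain Filter Topology Complex

section N

variable {F K : Type} [Field F] [NumberField F] [Field K] [NumberField K] [Algebra F K]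
  [IsGalois F K] {G : Type} [CommGroup G] [Fintype G] {ι : G ≃* (K ≃ₐ[F] K)}
  {S T : Finset (HeightOneSpectrum (𝓞 F))} {r : ℕ} {w : Fin r → Pl K}
  {fr : HeightOneSpectrum (𝓞 F) → G}

/-- GY. The permutation module of the places. -/
theorem grm_Y_pr (ι : G ≃* (K ≃ₐ[F] K)) (S : Finset (HeightOneSpectrum (𝓞 F))) (D : Subgroup G) :
    grm (dotF (PS (ovr K S))) (nty (pmA (acG ι S)) [] D) * nD (dgS ι S) D =
      (Nat.card D : ℝ) ^ (cD (dgS ι S) D) ∧
    Module.finrank ℤ (nty (pmA (acG ι S)) [] D) = cD (dgS ι S) D := by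
  classical
  obtain ⟨pr, hs, -, hpr, hcard, -, hprod⟩ := prod_pl ι S D
  obtain ⟨-, h1, h2⟩ := grm_perm (acG ι S) D pr hpr hs
  have hn : ∀ B : Subgroup G, (Nat.card (D ⊓ B : Subgroup G) : ℝ) ≠ 0 := fun B =>
    Nat.cast_ne_zero.2 Nat.card_pos.ne'
  have h3 := hprod (fun B => (Nat.card D : ℝ) / Nat.card (D ⊓ B : Subgroup G))
    (fun V => (Nat.card {ω // pr ω = V} : ℝ)) (fun P => by
      rw [eq_div_iff (hn _)]
      exact_mod_cast hcard P)
  refine ⟨?_, h2.trans (card_pl ι S D)⟩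
  rw [h1, h3]
  unfold nD cD
  push_cast
  rw [← Finset.prod_mul_distrib, ← Finset.prod_pow_eq_pow_sum]
  refine Finset.prod_congr rfl fun v _ => ?_
  rw [← mul_pow, div_mul_cancel₀ _ (hn _)]

end N

end Pool.Agent.CR

namespace Pool.Agent.CR
open Pool.Agent.RSK Pool.Agent.RS2 Pool.Agent.RS3 Pool.Agent.SY
open NumberField IsDedekindDomain Filter Topology Complex

section
variable {F K : Type} [Field F] [NumberField F] [Field K] [NumberField K] [Algebra F K]
  [IsGalois F K] {G : Type} [CommGroup G] [Fintype G] {ι : G ≃* (K ≃ₐ[F] K)}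
  {S T : Finset (HeightOneSpectrum (𝓞 F))} {r : ℕ} {w : Fin r → Pl K}
  {fr : HeightOneSpectrum (𝓞 F) → G}

theorem grm_Y (ι : G ≃* (K ≃ₐ[F] K)) (S : Finset (HeightOneSpectrum (𝓞 F))) (D : Subgroup G) :
    grm (dotF (PS (ovr K S))) (nty (pmA (acG ι S)) [] D) * nD (dgS ι S) D =
      (Nat.card D : ℝ) ^ (cD (dgS ι S) D) ∧
    Module.finrank ℤ (nty (pmA (acG ι S)) [] D) = cD (dgS ι S) D :=
  @Pool.Agent.CR.grm_Y_pr F K _ _ _ _ _ _ G _ _ ι S D

end

end Pool.Agent.CR
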