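import Pool.Agent.Lib_helper17.CRF.D_WN

/-!
# Composite Rubin (CR), block LD1: zeta functions of the fixed fields
-/

set_option autoImplicit false
set_option linter.unusedSectionVars false

namespace Pool.Agent.CR

open Pool.Agent.RSK Pool.Agent.RS2 Pool.Agent.RS3 Pool.Agent.SY
open NumberField IsDedekindDomain Filter Topology Complex

section N

variable {F K : Type} [Field F] [NumberField F] [Field K] [NumberField K] [Algebra F K]
  [IsGalois F K] {G : Type} [CommGroup G] [Fintype G] {ι : G ≃* (K ≃ₐ[F] K)}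
  {S T : Finset (HeightOneSpectrum (𝓞 F))} {r : ℕ} {w : Fin r → Pl K}
  {fr : HeightOneSpectrum (𝓞 F) → G}

theorem ld1_ker (D : Subgroup G) (χ : G →* ℂˣ) : D ≤ χ.ker ↔ χ.comp D.subtype = 1 := by
  constructor
  · intro h
    ext x
    show ((χ (x : G) : ℂˣ) : ℂ) = 1
    rw [MonoidHom.mem_ker.1 (h x.2), Units.val_one]
  · intro h x hx
    exact DFunLike.congr_fun h (⟨x, hx⟩ : D)

/-- LD1. The zeta function of the fixed field. -/
theorem zprod_pr (hD : Data ι S T r w fr) (D : Subgroup G) {s : ℂ} (hs : 1 < s.re) :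
    zST (ovr (Kf ι D) S) (ovr (Kf ι D) T) s =
      ∏ᶠ χ : {χ : G →* ℂˣ // D ≤ χ.ker}, LST S T fr χ.1 s := by
  classical
  obtain ⟨ιE, hL⟩ := lay_exists (ι := ι) D
  obtain ⟨frE, hfrE⟩ := frE_exists hL hD.unram hD.frob
  have h := lst_EF hL hD.disj hD.unram hD.frob (fun u hu => (hfrE u hu).1) 1 hs
  rw [lst_one] at h
  rw [h]
  exact (finprod_comp_equiv (Equiv.subtypeEquivRight fun χ => ld1_ker D χ)
    (f := fun χ : {χ : G →* ℂˣ // χ.comp D.subtype = 1} => LST S T fr χ.1 s)).symm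

/-- LD2. The Euler product does not vanish. -/
theorem lst_ne_pr (S T : Finset (HeightOneSpectrum (𝓞 F))) (fr : HeightOneSpectrum (𝓞 F) → G)
    (χ : G →* ℂˣ) {s : ℂ} (hs : 1 < s.re) : LST S T fr χ s ≠ 0 := by
  have h1 := (mult_euler (k := F) hs (fun v => v ∉ S) (fun v => ((χ (fr v) : ℂˣ) : ℂ))
    (fun v => (ef_norm χ (fr v)).le)).2
  refine mul_ne_zero (Finset.prod_ne_zero_iff.2 fun v _ h => ?_) h1
  have h2 := nv_two_le v
  have h3 : ‖(nv v : ℂ) ^ (1 - s)‖ < 1 := by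
    rw [Complex.norm_natCast_cpow_of_pos (by omega), Complex.sub_re, Complex.one_re]
    refine Real.rpow_lt_one_of_one_lt_of_neg ?_ (by linarith)
    have : (2 : ℝ) ≤ nv v := by exact_mod_cast h2
    linarith
  have h4 : ‖((χ (fr v) : ℂˣ) : ℂ) * (nv v : ℂ) ^ (1 - s)‖ < 1 := by
    rw [norm_mul, ef_norm, one_mul]
    exact h3
  rw [← sub_eq_zero.1 h, norm_one] at h4
  exact lt_irrefl _ h4

end N

end Pool.Agent.CR

namespace Pool.Agent.CR
open Pool.Agent.RSK Pool.Agent.RS2 Pool.Agent.RS3 Pool.Agent.SY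
open NumberField IsDedekindDomain Filter Topology Complex

section
variable {F K : Type} [Field F] [NumberField F] [Field K] [NumberField K] [Algebra F K]
  [IsGalois F K] {G : Type} [CommGroup G] [Fintype G] {ι : G ≃* (K ≃ₐ[F] K)}
  {S T : Finset (HeightOneSpectrum (𝓞 F))} {r : ℕ} {w : Fin r → Pl K}
  {fr : HeightOneSpectrum (𝓞 F) → G}

theorem zprod (hD : Data ι S T r w fr) (D : Subgroup G) {s : ℂ} (hs : 1 < s.re) :
    zST (ovr (Kf ι D) S) (ovr (Kf ι D) T) s =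
      ∏ᶠ χ : {χ : G →* ℂˣ // D ≤ χ.ker}, LST S T fr χ.1 s :=
  @Pool.Agent.CR.zprod_pr F K _ _ _ _ _ _ G _ _ ι S T r w fr hD D s hs

end

end Pool.Agent.CR

namespace Pool.Agent.CR
open Pool.Agent.RSK Pool.Agent.RS2 Pool.Agent.RS3 Pool.Agent.SY
open NumberField IsDedekindDomain Filter Topology Complex

section
variable {F K : Type} [Field F] [NumberField F] [Field K] [NumberField K] [Algebra F K]
  [IsGalois F K] {G : Type} [CommGroup G] [Fintype G] {ι : G ≃* (K ≃ₐ[F] K)}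
  {S T : Finset (HeightOneSpectrum (𝓞 F))} {r : ℕ} {w : Fin r → Pl K}
  {fr : HeightOneSpectrum (𝓞 F) → G}

theorem lst_ne (S T : Finset (HeightOneSpectrum (𝓞 F))) (fr : HeightOneSpectrum (𝓞 F) → G)
    (χ : G →* ℂˣ) {s : ℂ} (hs : 1 < s.re) : LST S T fr χ s ≠ 0 :=
  @Pool.Agent.CR.lst_ne_pr F _ _ G _ _ S T fr χ s hs

end

end Pool.Agent.CR
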