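import Pool.Agent.Lib_helper17.CRF.D_WN
import Pool.Agent.Lib_helper17.CRF.B_PI
import Pool.Agent.Lib_helper17.CRF.N_LD1
import Pool.Agent.Lib_helper17.CRF.B_AC
import Pool.Agent.Lib_helper17.CRF.N_PC5
import Pool.Agent.Lib_helper17.CRF.B_CE
import Pool.Agent.Lib_helper17.CRF.N_LD3
import Pool.Agent.Lib_helper17.CRF.B_PL

set_option autoImplicit false
set_option linter.unusedSectionVars false

namespace Pool.Agent.CR

open Pool.Agent.RSK Pool.Agent.RS2 Pool.Agent.RS3 Pool.Agent.SY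
open NumberField IsDedekindDomain Filter Topology Complex

section N

variable {F K : Type} [Field F] [NumberField F] [Field K] [NumberField K] [Algebra F K]
  [IsGalois F K] {G : Type} [CommGroup G] [Fintype G] {ι : G ≃* (K ≃ₐ[F] K)}
  {S T : Finset (HeightOneSpectrum (𝓞 F))} {r : ℕ} {w : Fin r → Pl K}
  {fr : HeightOneSpectrum (𝓞 F) → G}

theorem ld4_mero_alt {Z : Subgroup G → ℂ → ℂ} (hZ : ∀ D, MeromorphicOn (Z D) Set.univ)
    (L : List (Subgroup G)) (D : Subgroup G) :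
    MeromorphicOn (fun s => alt (fun D => Z D s) L D) Set.univ := by
  induction L generalizing D with
  | nil => exact hZ D
  | cons P L ih => exact (ih D).div (ih (D ⊔ P))

theorem ld4_mero_pI {Λ : (G →* ℂˣ) → ℂ → ℂ} (hΛ : ∀ χ, MeromorphicOn (Λ χ) Set.univ) :
    MeromorphicOn (fun s => pI (fun χ => Λ χ s)) Set.univ := by
  have : Finite (G →* ℂˣ) := inferInstance
  let _ : Fintype {χ : G →* ℂˣ // Function.Injective χ} := Fintype.ofFinite _
  have h : (fun s => pI (fun χ => Λ χ s)) =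
      ∏ χ : {χ : G →* ℂˣ // Function.Injective χ}, Λ χ.1 := by
    funext s
    unfold pI
    rw [finprod_eq_prod_of_fintype, Finset.prod_apply]
  rw [h]
  exact MeromorphicOn.prod fun χ _ => hΛ χ.1

theorem lead_alt_pr [IsCyclic G] (hD : Data ι S T r w fr) {c : (G →* ℂˣ) → ℂ}
    (hc : LeadI S T r fr c) {L : List (Subgroup G)} (hL : PrL G 0 L) :
    ‖pI c‖ = alt (fun D => (hK ι S T D : ℝ) * rK ι S T D) L ⊥ ∧ pI c ≠ 0 := by
  classical
  obtain ⟨hcard, hnt, -⟩ := data_pl hD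
  have hLne : L ≠ [] := fun h => by
    have := (prl_nil0 hL).1 h
    exact not_subsingleton G this
  choose hpos hreg hrest n Z hn hbas hmer hZ ε hε hlim using fun D => cnf_fix hD D
  choose! Λ hΛm hΛe hΛl using hc
  let Λ' : (G →* ℂˣ) → ℂ → ℂ := fun χ => if Function.Injective χ then Λ χ else fun _ => 1
  have hΛ'm : ∀ χ, MeromorphicOn (Λ' χ) Set.univ := by
    intro χ
    by_cases h : Function.Injective χ
    · simp only [Λ', if_pos h]
      exact hΛm χ h
    · simp only [Λ', if_neg h]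
      exact MeromorphicOn.const 1
  have hΛ' : ∀ χ : G →* ℂˣ, Function.Injective χ → Λ' χ = Λ χ := fun χ h => if_pos h
  -- the two meromorphic functions agree
  have hev : ∀ᶠ s in 𝓝[≠] (0 : ℂ), alt (fun D => Z D s) L ⊥ = pI (fun χ => Λ' χ s) := by
    refine mero_ext (ld4_mero_alt hmer L ⊥) (ld4_mero_pI hΛ'm) (fun s hs => ?_) 0
    have h1 : alt (fun D => Z D s) L ⊥ =
        alt (fun D => ∏ᶠ χ : {χ : G →* ℂˣ // D ≤ χ.ker}, LST S T fr χ.1 s) L ⊥ := by
      congr 1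
      funext D
      rw [hZ D s hs, zprod hD D hs]
    rw [h1, alt_pI (fun χ => LST S T fr χ s) (fun χ => lst_ne S T fr χ hs) hL]
    refine pI_congr fun χ hχ => ?_
    rw [hΛ' χ hχ, hΛe χ hχ s hs]
  -- limits
  have hl1 : Tendsto (fun s : ℂ => alt (fun D => Z D s / s ^ n D) L ⊥) (𝓝[≠] 0)
      (𝓝 (alt (fun D => ((ε D * (hK ι S T D * rK ι S T D) : ℝ) : ℂ)) L ⊥)) := by
    refine alt_tendsto (fun D => ?_) (fun D => hlim D) L ⊥
    have h1 : ε D ≠ 0 := fun h => by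
      have := hε D
      rw [h, abs_zero] at this
      exact zero_ne_one this
    have h2 : (hK ι S T D : ℝ) ≠ 0 := Nat.cast_ne_zero.2 (hpos D).ne'
    exact Complex.ofReal_ne_zero.2 (mul_ne_zero h1 (mul_ne_zero h2 (hreg D).ne'))
  have hl2 : Tendsto (fun s : ℂ => pI (fun χ => Λ' χ s / s ^ r)) (𝓝[≠] 0) (𝓝 (pI c)) := by
    refine pI_tendsto fun χ hχ => ?_
    rw [hΛ' χ hχ]
    exact hΛl χ hχ
  have hal : als (fun D => (n D : ℤ)) L ⊥ = ((r * (Nat.card G).totient : ℕ) : ℤ) := by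
    have h1 : (fun D => (n D : ℤ)) = fun D => (cD (dgS ι S) D : ℤ) - 1 := by
      funext D
      rw [← hn D]
      push_cast
      ring
    rw [h1, als_sub, als_cD _ hL, als_const 1 hLne, hcard, sub_zero]
  have hev2 : ∀ᶠ s in 𝓝[≠] (0 : ℂ), alt (fun D => Z D s / s ^ n D) L ⊥ =
      pI (fun χ => Λ' χ s / s ^ r) := by
    filter_upwards [hev, self_mem_nhdsWithin] with s hs hs0
    have hs0' : s ≠ 0 := hs0
    rw [alt_div, hs]
    have h2 : (fun D : Subgroup G => s ^ n D) = fun D => s ^ ((n D : ℕ) : ℤ) := by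
      funext D
      rw [zpow_natCast]
    rw [h2, alt_zpow hs0', hal, zpow_natCast]
    have h3 : (fun χ : G →* ℂˣ => Λ' χ s / s ^ r) = fun χ => Λ' χ s * (s ^ r)⁻¹ := by
      funext χ
      rw [div_eq_mul_inv]
    rw [h3, pI_mul, pI_const, inv_pow, ← pow_mul, div_eq_mul_inv]
  have hEq : alt (fun D => ((ε D * (hK ι S T D * rK ι S T D) : ℝ) : ℂ)) L ⊥ = pI c :=
    tendsto_nhds_unique (hl1.congr' hev2) hl2
  have hnorm : ‖pI c‖ = alt (fun D => (hK ι S T D : ℝ) * rK ι S T D) L ⊥ := by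
    rw [← hEq, alt_norm]
    congr 1
    funext D
    rw [Complex.norm_real, Real.norm_eq_abs, abs_mul, hε D, one_mul, abs_of_pos]
    exact mul_pos (Nat.cast_pos.2 (hpos D)) (hreg D)
  refine ⟨hnorm, ?_⟩
  have hp : 0 < alt (fun D => (hK ι S T D : ℝ) * rK ι S T D) L ⊥ :=
    alt_pos (fun D => mul_pos (Nat.cast_pos.2 (hpos D)) (hreg D)) L ⊥
  rw [← hnorm] at hp
  exact norm_pos_iff.1 hp

end N

end Pool.Agent.CR

namespace Pool.Agent.CR
open Pool.Agent.RSK Pool.Agent.RS2 Pool.Agent.RS3 Pool.Agent.SY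
open NumberField IsDedekindDomain Filter Topology Complex

section
variable {F K : Type} [Field F] [NumberField F] [Field K] [NumberField K] [Algebra F K]
  [IsGalois F K] {G : Type} [CommGroup G] [Fintype G] {ι : G ≃* (K ≃ₐ[F] K)}
  {S T : Finset (HeightOneSpectrum (𝓞 F))} {r : ℕ} {w : Fin r → Pl K}
  {fr : HeightOneSpectrum (𝓞 F) → G}

theorem lead_alt [IsCyclic G] (hD : Data ι S T r w fr) {c : (G →* ℂˣ) → ℂ}
    (hc : LeadI S T r fr c) {L : List (Subgroup G)} (hL : PrL G 0 L) :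
    ‖pI c‖ = alt (fun D => (hK ι S T D : ℝ) * rK ι S T D) L ⊥ ∧ pI c ≠ 0 :=
  @Pool.Agent.CR.lead_alt_pr F K _ _ _ _ _ _ G _ _ ι S T r w fr _ hD c hc L hL

end

end Pool.Agent.CR
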