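import Pool.Agent.Lib_helper17.CRF.D_WB
import Pool.Agent.Lib_helper17.RS.P_L2
import Pool.Agent.Lib_helper17.CRF.B_KL

/-!
# Composite Rubin (CR), block BS: the `ℤ`-basis `σ^k b_j` of the span of a family
-/

set_option autoImplicit false
set_option linter.unusedSectionVars false

namespace Pool.Agent.CR

open Pool.Agent.RSK Pool.Agent.RS2 Pool.Agent.SY
open Filter Topology Complex

section BSa

open Polynomial

variable {G : Type} [CommGroup G] [Fintype G]

/-- `X ↦ σ` -/
noncomputable def bscA (σ : G) : ℤ[X] →+* MonoidAlgebra ℤ G :=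
  (Polynomial.aeval (MonoidAlgebra.single σ (1 : ℤ))).toRingHom

theorem bsc_X (σ : G) (k : ℕ) : bscA σ (X ^ k) = MonoidAlgebra.single (σ ^ k) 1 := by
  show Polynomial.aeval _ _ = _
  rw [Polynomial.aeval_X_pow, MonoidAlgebra.single_pow, one_pow]

theorem bsc_ev (σ : G) (χ : G →* ℂˣ) (Q : ℤ[X]) :
    evZ χ (bscA σ Q) = Polynomial.eval₂ (Int.castRingHom ℂ) ((χ σ : ℂˣ) : ℂ) Q := by
  have h : (evZ χ).comp (bscA σ) =
      Polynomial.eval₂RingHom (Int.castRingHom ℂ) ((χ σ : ℂˣ) : ℂ) := by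
    apply Polynomial.ringHom_ext
    · intro a
      simp
    · show evZ χ (bscA σ X) = _
      have := bsc_X σ 1
      rw [pow_one, pow_one] at this
      rw [this, l2_evZ_single]
      simp
  exact congrArg (fun f => f Q) h

theorem bsc_surj {σ : G} (hσ : ∀ g : G, g ∈ Subgroup.zpowers σ) (a : MonoidAlgebra ℤ G) :
    ∃ Q : ℤ[X], bscA σ Q = a := by
  induction a using MonoidAlgebra.induction_on with
  | of g =>
    obtain ⟨k, hk⟩ := (mem_powers_iff_mem_zpowers (x := σ) (y := g)).2 (hσ g)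
    refine ⟨X ^ k, ?_⟩
    have hk' : σ ^ k = g := hk
    rw [bsc_X, hk']
    rfl
  | add a b ha hb =>
    obtain ⟨P, rfl⟩ := ha
    obtain ⟨Q, rfl⟩ := hb
    exact ⟨P + Q, map_add _ _ _⟩
  | smul c a ha =>
    obtain ⟨P, rfl⟩ := ha
    exact ⟨c • P, map_zsmul _ _ _⟩

theorem bsc_cyc {σ : G} (hσ : ∀ g : G, g ∈ Subgroup.zpowers σ) (χ : G →* ℂˣ)
    (hχ : Function.Injective χ) : evZ χ (bscA σ (cyclotomic (Nat.card G) ℤ)) = 0 := by
  rw [bsc_ev]
  have h1 : IsPrimitiveRoot ((χ σ : ℂˣ) : ℂ) (Nat.card G) := by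
    rw [IsPrimitiveRoot.coe_units_iff, ← orderOf_eq_card_of_forall_mem_zpowers hσ]
    exact (IsPrimitiveRoot.orderOf σ).map_of_injective hχ
  have h2 : Polynomial.eval ((χ σ : ℂˣ) : ℂ) (cyclotomic (Nat.card G) ℂ) = 0 :=
    h1.isRoot_cyclotomic Nat.card_pos
  rw [← Polynomial.map_cyclotomic_int, Polynomial.eval_map] at h2
  exact h2

/-- every `a` is a combination of `1, σ, …, σ^(q-1)` modulo `Φ_d(σ)` -/
theorem bsc_red {σ : G} (hσ : ∀ g : G, g ∈ Subgroup.zpowers σ) (a : MonoidAlgebra ℤ G) :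
    ∃ (c : Fin (Nat.card G).totient → ℤ) (γ : MonoidAlgebra ℤ G),
      a = (∑ k : Fin (Nat.card G).totient, MonoidAlgebra.single (σ ^ (k : ℕ)) (c k)) +
        γ * bscA σ (cyclotomic (Nat.card G) ℤ) := by
  obtain ⟨Q, rfl⟩ := bsc_surj hσ a
  set Φ := cyclotomic (Nat.card G) ℤ with hΦ
  set q := (Nat.card G).totient with hq
  have hmon : Φ.Monic := cyclotomic.monic _ _
  have hdeg : Φ.natDegree = q := by
    rw [hΦ, natDegree_cyclotomic]
  have h1 := Polynomial.modByMonic_add_div Q Φ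
  set B := Q %ₘ Φ with hB
  have hq1 : 0 < q := Nat.totient_pos.2 Nat.card_pos
  have h3 : B.natDegree < q := by
    rw [← hdeg]
    refine Polynomial.natDegree_modByMonic_lt Q hmon ?_
    intro h
    rw [h, natDegree_one] at hdeg
    exact hq1.ne hdeg
  refine ⟨fun k => B.coeff k, bscA σ (Q /ₘ Φ), ?_⟩
  have h4 : bscA σ Q = bscA σ B + bscA σ (Q /ₘ Φ) * bscA σ Φ := by
    conv_lhs => rw [← h1]
    rw [map_add, map_mul, mul_comm (bscA σ Φ)]
  rw [h4]
  congr 1
  conv_lhs => rw [Polynomial.as_sum_range' B q h3]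
  rw [map_sum, ← Fin.sum_univ_eq_sum_range (fun k => bscA σ (Polynomial.monomial k (B.coeff k)))]
  refine Finset.sum_congr rfl fun k _ => ?_
  show Polynomial.aeval _ _ = _
  rw [Polynomial.aeval_monomial, MonoidAlgebra.single_pow, one_pow, ← Algebra.smul_def]
  simp

end BSa

section BSb

variable {G : Type} [CommGroup G] [Fintype G] [IsCyclic G]

variable {M : Type} [AddCommGroup M] [Module (MonoidAlgebra ℤ G) M] [Module.Finite ℤ M]
  [Module.IsTorsionFree ℤ M]

/-- the `ℤ`-family `σ^k b_i` -/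
noncomputable def bscV (σ : G) (q : ℕ) {s : ℕ} (b : Fin s → M) (x : Fin s × Fin q) : M :=
  MonoidAlgebra.single (σ ^ (x.2 : ℕ)) (1 : ℤ) • b x.1

/-- the `ℤ[G]`-span and the `ℤ`-span agree on the new part -/
theorem bsc_span {σ : G} (hσ : ∀ g : G, g ∈ Subgroup.zpowers σ) {s : ℕ} (b : Fin s → M)
    (hb : ∀ i, b i ∈ mI (smA G M)) (a : Fin s → MonoidAlgebra ℤ G) :
    ∑ i, a i • b i ∈ Submodule.span ℤ (Set.range (bscV σ (Nat.card G).totient b)) := by
  refine Submodule.sum_mem _ fun i _ => ?_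
  obtain ⟨c, γ, h⟩ := bsc_red hσ (a i)
  have h0 : bscA σ (Polynomial.cyclotomic (Nat.card G) ℤ) • b i = 0 :=
    new_kill _ (fun χ hχ => bsc_cyc hσ χ hχ) (hb i)
  rw [h, add_smul, mul_smul, h0, smul_zero, add_zero, Finset.sum_smul]
  refine Submodule.sum_mem _ fun k _ => ?_
  have h1 : (MonoidAlgebra.single (σ ^ (k : ℕ)) (c k) : MonoidAlgebra ℤ G) =
      c k • MonoidAlgebra.single (σ ^ (k : ℕ)) (1 : ℤ) := by simp
  rw [h1, smul_assoc]
  exact Submodule.smul_mem _ _ (Submodule.subset_span ⟨(i, k), rfl⟩)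

/-- the rank of a subgroup of finite index -/
theorem bsc_rank {A B : AddSubgroup M} (hAB : A ≤ B) (h0 : A.relIndex B ≠ 0) :
    Module.finrank ℤ A = Module.finrank ℤ B := by
  let N : Submodule ℤ M := AddSubgroup.toIntSubmodule B
  let L : Submodule ℤ N := (AddSubgroup.toIntSubmodule A).comap N.subtype
  have hfin : Finite (N ⧸ L) := by
    have h1 : (A.addSubgroupOf B).index ≠ 0 := h0
    have : (A.addSubgroupOf B).FiniteIndex := ⟨h1⟩
    have h2 : Finite (B ⧸ A.addSubgroupOf B) := inferInstance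
    exact h2
  have h1 := Submodule.finrank_quotient_add_finrank L
  have h2 : Module.finrank ℤ (N ⧸ L) = 0 := by
    rw [Module.finrank_eq_zero_iff_isTorsion]
    intro x
    refine ⟨⟨(Nat.card (N ⧸ L) : ℤ), mem_nonZeroDivisors_of_ne_zero ?_⟩, ?_⟩
    · exact_mod_cast Nat.card_pos.ne'
    · show ((Nat.card (N ⧸ L) : ℕ) : ℤ) • x = 0
      rw [natCast_zsmul]
      exact card_nsmul_eq_zero'
  rw [h2, zero_add] at h1
  have h3 : Module.finrank ℤ L = Module.finrank ℤ A := by
    refine LinearEquiv.finrank_eq ?_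
    exact Submodule.comapSubtypeEquivOfLe (p := AddSubgroup.toIntSubmodule A) (q := N) hAB
  exact h3.symm.trans h1

theorem span_basis_pr {σ : G} (hσ : ∀ g : G, g ∈ Subgroup.zpowers σ) {r : ℕ}
    (hr : Module.finrank ℤ (mI (smA G M)) = r * (Nat.card G).totient) {b : Fin r → M}
    (hb : ∀ i, b i ∈ mI (smA G M)) (h0 : (mSpn G b).relIndex (mI (smA G M)) ≠ 0) :
    ∃ β : Module.Basis (Fin r × Fin (Nat.card G).totient) ℤ (mSpn G b),
      ∀ x, (β x : M) = MonoidAlgebra.single (σ ^ (x.2 : ℕ)) (1 : ℤ) • b x.1 := by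
  classical
  set q := (Nat.card G).totient with hq
  have hspn : ∀ u, u ∈ mSpn G b ↔ u ∈ Submodule.span (MonoidAlgebra ℤ G) (Set.range b) :=
    fun u => Iff.rfl
  have hle : mSpn G b ≤ mI (smA G M) := by
    intro u hu
    rw [hspn, Submodule.mem_span_range_iff_exists_fun] at hu
    obtain ⟨c, rfl⟩ := hu
    exact AddSubgroup.sum_mem _ fun i _ => (new_smul (c i) (b i)).1 (hb i)
  have hrk : Module.finrank ℤ (mSpn G b) = r * q := by
    rw [bsc_rank hle h0, hr]
  let v : Fin r × Fin q → mSpn G b := fun x => ⟨bscV σ q b x,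
    Submodule.smul_mem _ _ (Submodule.subset_span ⟨x.1, rfl⟩)⟩
  have hv : ∀ c : Fin r × Fin q → ℤ, ((∑ x, c x • v x : mSpn G b) : M) =
      ∑ x, c x • bscV σ q b x := by
    intro c
    rw [AddSubgroup.val_finsetSum]
    rfl
  have hsp : ⊤ ≤ Submodule.span ℤ (Set.range v) := by
    rintro ⟨u, hu⟩ -
    have hu' := hu
    rw [hspn, Submodule.mem_span_range_iff_exists_fun] at hu'
    obtain ⟨a, rfl⟩ := hu'
    have h2 := bsc_span hσ b hb a
    rw [Submodule.mem_span_range_iff_exists_fun] at h2 ⊢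
    obtain ⟨c, hc⟩ := h2
    exact ⟨c, Subtype.ext ((hv c).trans hc)⟩
  have hfin : Module.Finite ℤ (mSpn G b) := by
    have : Module.Finite ℤ (AddSubgroup.toIntSubmodule (mSpn G b)) := inferInstance
    exact this
  have hfree : Module.Free ℤ (mSpn G b) := by
    have : Module.Free ℤ (AddSubgroup.toIntSubmodule (mSpn G b)) := inferInstance
    exact this
  have hsurj : Function.Surjective (Fintype.linearCombination ℤ v) := by
    rw [← LinearMap.range_eq_top, Fintype.range_linearCombination]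
    exact top_le_iff.1 hsp
  have hcard : Module.finrank ℤ (mSpn G b) = Module.finrank ℤ (Fin r × Fin q → ℤ) := by
    rw [hrk, Module.finrank_fintype_fun_eq_card, Fintype.card_prod, Fintype.card_fin,
      Fintype.card_fin]
  let e : mSpn G b ≃ₗ[ℤ] (Fin r × Fin q → ℤ) := LinearEquiv.ofFinrankEq _ _ hcard
  have hinj : Function.Injective (Fintype.linearCombination ℤ v) := by
    have h1 : Function.Injective (e.toLinearMap ∘ₗ Fintype.linearCombination ℤ v) := by
      apply OrzechProperty.injective_of_surjective_endomorphism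
      exact e.surjective.comp hsurj
    intro x y hxy
    apply h1
    show e _ = e _
    rw [hxy]
  have hli : LinearIndependent ℤ v := by
    rw [Fintype.linearIndependent_iff]
    intro c hc
    have h1 : Fintype.linearCombination ℤ v c = Fintype.linearCombination ℤ v 0 := by
      rw [map_zero, Fintype.linearCombination_apply]
      exact hc
    intro i
    exact congrFun (hinj h1) i
  refine ⟨Module.Basis.mk hli hsp, fun x => ?_⟩
  rw [Module.Basis.mk_apply]
  rfl

end BSb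

end Pool.Agent.CR

namespace Pool.Agent.CR
open Pool.Agent.RSK Pool.Agent.RS2 Pool.Agent.SY
open Filter Topology Complex

section
variable {G : Type} [CommGroup G] [Fintype G] [IsCyclic G]
variable {M : Type} [AddCommGroup M] [Module (MonoidAlgebra ℤ G) M] [Module.Finite ℤ M]
  [Module.IsTorsionFree ℤ M]

theorem span_basis {σ : G} (hσ : ∀ g : G, g ∈ Subgroup.zpowers σ) {r : ℕ}
    (hr : Module.finrank ℤ (mI (smA G M)) = r * (Nat.card G).totient) {b : Fin r → M}
    (hb : ∀ i, b i ∈ mI (smA G M)) (h0 : (mSpn G b).relIndex (mI (smA G M)) ≠ 0) :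
    ∃ β : Module.Basis (Fin r × Fin (Nat.card G).totient) ℤ (mSpn G b),
      ∀ x, (β x : M) = MonoidAlgebra.single (σ ^ (x.2 : ℕ)) (1 : ℤ) • b x.1 :=
  @Pool.Agent.CR.span_basis_pr G _ _ _ M _ _ _ _ σ hσ r hr b hb h0

end

end Pool.Agent.CR
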