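import Pool.Agent.Lib_helper17.CRF.D_WB
import Pool.Agent.Lib_helper17.CRF.B_CW

/-!
# CR, block PV: Parseval
-/

set_option autoImplicit false
set_option linter.unusedSectionVars false

namespace Pool.Agent.CR

open Pool.Agent.RSK Pool.Agent.RS2 Pool.Agent.SY
open Filter Topology Complex

section PVaux

variable {G : Type} [CommGroup G] [Fintype G]

/-- the values of `evR` -/
theorem PV_evR (χ : G →* ℂˣ) (x : MonoidAlgebra ℝ G) :
    evR χ x = ∑ g : G, ((x.coeff g : ℝ) : ℂ) * ((χ g : ℂˣ) : ℂ) := by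
  unfold evR
  rw [MonoidAlgebra.lift_apply, Finsupp.sum_fintype]
  · refine Finset.sum_congr rfl fun g _ => ?_
    rw [Algebra.smul_def]
    rfl
  · intro g
    simp

theorem PV_card : Nat.card (G →* ℂˣ) = Nat.card G :=
  CommGroup.card_monoidHom_of_hasEnoughRootsOfUnity G ℂ

theorem PV_fin : Finite (G →* ℂˣ) := by
  have h : Nat.card (G →* ℂˣ) ≠ 0 := by
    rw [PV_card]
    exact Nat.card_pos.ne'
  exact (Nat.card_ne_zero.1 h).2

/-- orthogonality -/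
theorem PV_orth [Fintype (G →* ℂˣ)] [DecidableEq G] (g : G) :
    ∑ χ : G →* ℂˣ, ((χ g : ℂˣ) : ℂ) = if g = 1 then (Nat.card G : ℂ) else 0 := by
  by_cases hg : g = 1
  · rw [if_pos hg, hg]
    simp only [map_one, Units.val_one, Finset.sum_const, nsmul_eq_mul, mul_one, Finset.card_univ]
    rw [← Nat.card_eq_fintype_card, PV_card]
  · rw [if_neg hg]
    obtain ⟨ψ, hψ⟩ := CommGroup.exists_apply_ne_one_of_hasEnoughRootsOfUnity G ℂ hg
    have h1 : ∑ χ : G →* ℂˣ, ((χ g : ℂˣ) : ℂ) = ((ψ g : ℂˣ) : ℂ) * ∑ χ : G →* ℂˣ, ((χ g : ℂˣ) : ℂ) := by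
      rw [Finset.mul_sum, ← Equiv.sum_comp (Equiv.mulLeft ψ)]
      refine Finset.sum_congr rfl fun χ _ => ?_
      rw [Equiv.coe_mulLeft, MonoidHom.mul_apply, Units.val_mul]
    have h2 : (((ψ g : ℂˣ) : ℂ) - 1) * ∑ χ : G →* ℂˣ, ((χ g : ℂˣ) : ℂ) = 0 := by
      linear_combination -h1
    rcases mul_eq_zero.1 h2 with h3 | h3
    · exfalso
      apply hψ
      apply Units.ext
      rw [Units.val_one]
      linear_combination h3
    · exact h3

/-- characters have absolute value one: the conjugate is the inverse -/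
theorem PV_conj (χ : G →* ℂˣ) (g : G) :
    (starRingEnd ℂ) ((χ g : ℂˣ) : ℂ) = ((χ g⁻¹ : ℂˣ) : ℂ) := by
  have hfin : (χ g) ^ (Fintype.card G) = 1 := by
    rw [← map_pow, pow_card_eq_one, map_one]
  have hn : ‖((χ g : ℂˣ) : ℂ)‖ = 1 := by
    apply norm_eq_one_of_pow_eq_one (n := Fintype.card G) _ Fintype.card_ne_zero
    rw [← Units.val_pow_eq_pow_val, hfin, Units.val_one]
  rw [map_inv, Units.val_inv_eq_inv_val, Complex.inv_def, Complex.normSq_eq_norm_sq, hn]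
  simp

/-- Parseval -/
theorem PV_pars [Fintype (G →* ℂˣ)] (u v : G → ℝ) :
    ∑ χ : G →* ℂˣ, (starRingEnd ℂ) (∑ γ, (u γ : ℂ) * ((χ γ : ℂˣ) : ℂ)) *
      (∑ γ, (v γ : ℂ) * ((χ γ : ℂˣ) : ℂ)) = (Nat.card G : ℂ) * ((∑ γ, u γ * v γ : ℝ) : ℂ) := by
  classical
  have h1 : ∀ χ : G →* ℂˣ, (starRingEnd ℂ) (∑ γ, (u γ : ℂ) * ((χ γ : ℂˣ) : ℂ)) *
      (∑ γ, (v γ : ℂ) * ((χ γ : ℂˣ) : ℂ)) =
      ∑ γ, ∑ γ', ((u γ : ℂ) * (v γ' : ℂ)) * ((χ (γ⁻¹ * γ') : ℂˣ) : ℂ) := by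
    intro χ
    rw [map_sum, Finset.sum_mul_sum]
    refine Finset.sum_congr rfl fun γ _ => Finset.sum_congr rfl fun γ' _ => ?_
    rw [map_mul, PV_conj, Complex.conj_ofReal, map_mul χ, Units.val_mul]
    ring
  rw [Finset.sum_congr rfl fun χ _ => h1 χ, Finset.sum_comm]
  have h2 : ∀ γ : G, ∑ χ : G →* ℂˣ, ∑ γ', ((u γ : ℂ) * (v γ' : ℂ)) * ((χ (γ⁻¹ * γ') : ℂˣ) : ℂ) =
      (Nat.card G : ℂ) * ((u γ : ℂ) * (v γ : ℂ)) := by
    intro γ
    rw [Finset.sum_comm]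
    have h3 : ∀ γ' : G, ∑ χ : G →* ℂˣ, ((u γ : ℂ) * (v γ' : ℂ)) * ((χ (γ⁻¹ * γ') : ℂˣ) : ℂ) =
        if γ = γ' then (Nat.card G : ℂ) * ((u γ : ℂ) * (v γ' : ℂ)) else 0 := by
      intro γ'
      rw [← Finset.mul_sum, PV_orth]
      by_cases h : γ = γ'
      · rw [if_pos h, if_pos (by rw [h, inv_mul_cancel])]
        ring
      · rw [if_neg h, if_neg (fun h' => h (inv_mul_eq_one.1 h')), mul_zero]
    rw [Finset.sum_congr rfl fun γ' _ => h3 γ', Finset.sum_ite_eq]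
    simp
  rw [Finset.sum_congr rfl fun γ _ => h2 γ, ← Finset.mul_sum]
  push_cast
  rfl

/-- the value of a shift -/
theorem PV_shift (χ : G →* ℂˣ) (g : G) (x : MonoidAlgebra ℝ G) :
    ∑ γ, ((x.coeff (g⁻¹ * γ) : ℝ) : ℂ) * ((χ γ : ℂˣ) : ℂ) = ((χ g : ℂˣ) : ℂ) * evR χ x := by
  rw [PV_evR, Finset.mul_sum, ← Equiv.sum_comp (Equiv.mulLeft g)]
  refine Finset.sum_congr rfl fun γ _ => ?_
  rw [Equiv.coe_mulLeft, inv_mul_cancel_left, map_mul, Units.val_mul]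
  ring

variable [IsCyclic G]

/-- enumeration of the injective characters -/
theorem PV_enum : Nonempty (Fin (Nat.card G).totient ≃ {χ : G →* ℂˣ // Function.Injective χ}) := by
  have : Finite (G →* ℂˣ) := PV_fin
  exact ⟨(Finite.equivFinOfCardEq (card_inj (G := G))).symm⟩

theorem PV_pI (e : Fin (Nat.card G).totient ≃ {χ : G →* ℂˣ // Function.Injective χ})
    (φ : (G →* ℂˣ) → ℂ) : pI φ = ∏ a, φ (e a).1 := by
  unfold pI
  rw [← finprod_eq_prod_of_fintype]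
  exact (finprod_eq_of_bijective e e.bijective (fun a => rfl)).symm

theorem PV_xinj {σ : G} (hσ : ∀ g : G, g ∈ Subgroup.zpowers σ)
    (e : Fin (Nat.card G).totient ≃ {χ : G →* ℂˣ // Function.Injective χ}) :
    Function.Injective (fun a => (((e a).1 σ : ℂˣ) : ℂ)) := by
  intro a b hab
  have h1 : (e a).1 σ = (e b).1 σ := Units.ext hab
  apply e.injective
  apply Subtype.ext
  ext g
  obtain ⟨k, rfl⟩ := Subgroup.mem_zpowers_iff.1 (hσ g)
  rw [map_zpow, map_zpow, h1]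

/-- the matrix `V` -/
theorem PV_V {r n : ℕ} (D : Fin n → Matrix (Fin r) (Fin r) ℂ) (x : Fin n → ℂ)
    (i j : Fin r) (a k : Fin n) :
    (Matrix.blockDiagonal D * (Matrix.kronecker (1 : Matrix (Fin r) (Fin r) ℂ)
      (Matrix.vandermonde x))) (i, a) (j, k) = D a i j * x a ^ (k : ℕ) := by
  classical
  rw [Matrix.mul_apply, Fintype.sum_prod_type]
  have hR : ∀ i' : Fin r, ∑ a' : Fin n, Matrix.blockDiagonal D (i, a) (i', a') *
        (Matrix.kronecker (1 : Matrix (Fin r) (Fin r) ℂ) (Matrix.vandermonde x)) (i', a') (j, k)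
      = if i' = j then D a i j * x a ^ (k : ℕ) else 0 := by
    intro i'
    by_cases hij : i' = j
    · subst hij
      rw [if_pos rfl, Finset.sum_eq_single a]
      · rw [Matrix.blockDiagonal_apply_eq, Matrix.kronecker, Matrix.kroneckerMap_apply,
          Matrix.one_apply_eq, one_mul, Matrix.vandermonde_apply]
      · intro a' _ ha'
        rw [Matrix.blockDiagonal_apply_ne _ _ _ (Ne.symm ha'), zero_mul]
      · intro h
        exact absurd (Finset.mem_univ a) h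
    · rw [if_neg hij]
      apply Finset.sum_eq_zero
      intro a' _
      rw [Matrix.kronecker, Matrix.kroneckerMap_apply, Matrix.one_apply_ne hij]
      ring
  rw [Finset.sum_congr rfl (fun i' _ => hR i')]
  simp

theorem PV_detV {r n : ℕ} (D : Fin n → Matrix (Fin r) (Fin r) ℂ) (x : Fin n → ℂ) :
    (Matrix.blockDiagonal D * (Matrix.kronecker (1 : Matrix (Fin r) (Fin r) ℂ)
      (Matrix.vandermonde x))).det = (∏ a, (D a).det) * (Matrix.vandermonde x).det ^ r := by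
  rw [Matrix.det_mul, Matrix.det_blockDiagonal, Matrix.kronecker, Matrix.det_kronecker,
    Matrix.det_one, one_pow, one_mul, Fintype.card_fin]

/-- the Gram matrix -/
theorem PV_gram {σ : G} {r : ℕ} (f : Fin r → Fin r → MonoidAlgebra ℝ G)
    (hf : ∀ i j (χ : G →* ℂˣ), ¬ Function.Injective χ → evR χ (f i j) = 0)
    (e : Fin (Nat.card G).totient ≃ {χ : G →* ℂˣ // Function.Injective χ})
    (V : Matrix (Fin r × Fin (Nat.card G).totient) (Fin r × Fin (Nat.card G).totient) ℂ)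
    (hV : ∀ i a j k, V (i, a) (j, k) = evR (e a).1 (f i j) * (((e a).1 σ : ℂˣ) : ℂ) ^ (k : ℕ)) :
    (Matrix.of fun p q : Fin r × Fin (Nat.card G).totient =>
        ∑ i, ∑ γ : G, (f i p.1).coeff ((σ ^ (p.2 : ℕ))⁻¹ * γ) *
          (f i q.1).coeff ((σ ^ (q.2 : ℕ))⁻¹ * γ)).map Complex.ofRealHom =
      ((Nat.card G : ℂ)⁻¹) • (V.conjTranspose * V) := by
  classical
  have : Finite (G →* ℂˣ) := PV_fin
  let _ : Fintype (G →* ℂˣ) := Fintype.ofFinite _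
  have hd : (Nat.card G : ℂ) ≠ 0 := Nat.cast_ne_zero.2 Nat.card_pos.ne'
  ext ⟨j, k⟩ ⟨j', k'⟩
  rw [Matrix.map_apply, Matrix.of_apply, Matrix.smul_apply, smul_eq_mul, Matrix.mul_apply,
    Fintype.sum_prod_type, Complex.ofRealHom_eq_coe]
  rw [eq_inv_mul_iff_mul_eq₀ hd, Complex.ofReal_sum, Finset.mul_sum]
  refine Finset.sum_congr rfl fun i _ => ?_
  rw [← PV_pars (fun γ => (f i j).coeff ((σ ^ (k : ℕ))⁻¹ * γ))
    (fun γ => (f i j').coeff ((σ ^ (k' : ℕ))⁻¹ * γ))]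
  have h1 : ∀ χ : G →* ℂˣ, (starRingEnd ℂ) (∑ γ, (((f i j).coeff ((σ ^ (k : ℕ))⁻¹ * γ) : ℝ) : ℂ) *
        ((χ γ : ℂˣ) : ℂ)) * (∑ γ, (((f i j').coeff ((σ ^ (k' : ℕ))⁻¹ * γ) : ℝ) : ℂ) *
        ((χ γ : ℂˣ) : ℂ)) =
      (starRingEnd ℂ) (((χ σ : ℂˣ) : ℂ) ^ (k : ℕ) * evR χ (f i j)) *
        (((χ σ : ℂˣ) : ℂ) ^ (k' : ℕ) * evR χ (f i j')) := by
    intro χ
    rw [PV_shift, PV_shift, map_pow, map_pow, Units.val_pow_eq_pow_val, Units.val_pow_eq_pow_val]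
  rw [Finset.sum_congr rfl fun χ _ => h1 χ]
  have h2 : ∑ χ : G →* ℂˣ, (starRingEnd ℂ) (((χ σ : ℂˣ) : ℂ) ^ (k : ℕ) * evR χ (f i j)) *
        (((χ σ : ℂˣ) : ℂ) ^ (k' : ℕ) * evR χ (f i j')) =
      ∑ χ : {χ : G →* ℂˣ // Function.Injective χ},
        (starRingEnd ℂ) (((χ.1 σ : ℂˣ) : ℂ) ^ (k : ℕ) * evR χ.1 (f i j)) *
        (((χ.1 σ : ℂˣ) : ℂ) ^ (k' : ℕ) * evR χ.1 (f i j')) := by
    rw [← Finset.sum_subtype (Finset.univ.filter (fun χ : G →* ℂˣ => Function.Injective χ))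
      (fun x => by simp)
      (fun χ : G →* ℂˣ => (starRingEnd ℂ) (((χ σ : ℂˣ) : ℂ) ^ (k : ℕ) * evR χ (f i j)) *
        (((χ σ : ℂˣ) : ℂ) ^ (k' : ℕ) * evR χ (f i j')))]
    symm
    apply Finset.sum_subset (Finset.filter_subset _ _)
    intro χ _ hχ
    have hχ1 : ¬ Function.Injective χ := fun hc => hχ (Finset.mem_filter.mpr ⟨Finset.mem_univ _, hc⟩)
    rw [hf i j' χ hχ1]
    ring
  rw [h2, ← Equiv.sum_comp e]
  refine Finset.sum_congr rfl fun a _ => ?_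
  rw [Matrix.conjTranspose_apply, hV, hV]
  change _ = (starRingEnd ℂ) _ * _
  rw [mul_comm (evR (e a).1 (f i j)), mul_comm (evR (e a).1 (f i j'))]

end PVaux

theorem gram_char_pr {G : Type} [CommGroup G] [Fintype G] [IsCyclic G] {σ : G} (hσ : ∀ g : G, g ∈ Subgroup.zpowers σ) :
    ∃ δ : ℝ, 0 < δ ∧ ∀ (r : ℕ) (f : Fin r → Fin r → MonoidAlgebra ℝ G),
      (∀ i j (χ : G →* ℂˣ), ¬ Function.Injective χ → evR χ (f i j) = 0) →
      Matrix.det (Matrix.of fun p q : Fin r × Fin (Nat.card G).totient =>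
        ∑ i, ∑ γ : G, (f i p.1).coeff ((σ ^ (p.2 : ℕ))⁻¹ * γ) *
          (f i q.1).coeff ((σ ^ (q.2 : ℕ))⁻¹ * γ)) =
        δ ^ r * ‖pI (fun χ => evR χ (Matrix.det (Matrix.of f)))‖ ^ 2 := by
  classical
  obtain ⟨e⟩ := PV_enum (G := G)
  have hx := PV_xinj hσ e
  set x : Fin (Nat.card G).totient → ℂ := fun a => (((e a).1 σ : ℂˣ) : ℂ) with hxdef
  have hvd : (Matrix.vandermonde x).det ≠ 0 := Matrix.det_vandermonde_ne_zero_iff.mpr hx
  have hd : (0 : ℝ) < (Nat.card G : ℝ) := Nat.cast_pos.2 Nat.card_pos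
  refine ⟨((Nat.card G : ℝ)⁻¹) ^ (Nat.card G).totient * ‖(Matrix.vandermonde x).det‖ ^ 2,
    by positivity, ?_⟩
  intro r f hf
  set V := Matrix.blockDiagonal (fun a => Matrix.of fun i j : Fin r => evR (e a).1 (f i j)) *
    (Matrix.kronecker (1 : Matrix (Fin r) (Fin r) ℂ) (Matrix.vandermonde x)) with hV
  have h1 := PV_gram (σ := σ) f hf e V (fun i a j k => by
    rw [hV, PV_V]
    rfl)
  have h2 := congrArg Matrix.det h1
  rw [← RingHom.mapMatrix_apply, ← RingHom.map_det, Matrix.det_smul, Matrix.det_mul,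
    Matrix.det_conjTranspose] at h2
  have h3 : V.det = pI (fun χ => evR χ (Matrix.det (Matrix.of f))) * (Matrix.vandermonde x).det ^ r := by
    rw [hV, PV_detV, PV_pI e]
    congr 1
    refine Finset.prod_congr rfl fun a _ => ?_
    rw [AlgHom.map_det]
    rfl
  have h4 : star V.det * V.det = ((‖V.det‖ ^ 2 : ℝ) : ℂ) := by
    have := Complex.conj_mul' V.det
    rw [Complex.star_def, this]
    push_cast
    rfl
  rw [h4, h3, Complex.ofRealHom_eq_coe] at h2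
  apply Complex.ofReal_injective
  rw [h2, norm_mul, norm_pow, Fintype.card_prod, Fintype.card_fin, Fintype.card_fin]
  push_cast
  ring

end Pool.Agent.CR

namespace Pool.Agent.CR
open Pool.Agent.RSK Pool.Agent.RS2 Pool.Agent.SY
open Filter Topology Complex

section
variable {G : Type} [CommGroup G] [Fintype G] [IsCyclic G]

theorem gram_char {σ : G} (hσ : ∀ g : G, g ∈ Subgroup.zpowers σ) :
    ∃ δ : ℝ, 0 < δ ∧ ∀ (r : ℕ) (f : Fin r → Fin r → MonoidAlgebra ℝ G),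
      (∀ i j (χ : G →* ℂˣ), ¬ Function.Injective χ → evR χ (f i j) = 0) →
      Matrix.det (Matrix.of fun p q : Fin r × Fin (Nat.card G).totient =>
        ∑ i, ∑ γ : G, (f i p.1).coeff ((σ ^ (p.2 : ℕ))⁻¹ * γ) *
          (f i q.1).coeff ((σ ^ (q.2 : ℕ))⁻¹ * γ)) =
        δ ^ r * ‖pI (fun χ => evR χ (Matrix.det (Matrix.of f)))‖ ^ 2 :=
  @Pool.Agent.CR.gram_char_pr G _ _ _ σ hσ

end

end Pool.Agent.CR
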