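import Pool.Agent.Lib_helper17.CRF.D_WB
import Pool.Agent.Lib_helper17.CRF.B_KL
import Pool.Agent.Lib_helper17.CRF.B_BS
import Pool.Agent.Lib_helper17.CRF.B_PI
import Pool.Agent.Lib_helper17.CRF.B_PL
import Pool.Agent.Lib_helper17.CRF.A_GR1
/-!
# CR, block YN: the new part of a permutation module
-/

set_option autoImplicit false
set_option linter.unusedSectionVars false

namespace Pool.Agent.CR

open Pool.Agent.RSK Pool.Agent.RS2 Pool.Agent.SY
open Filter Topology Complex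

section YN

variable {G Ω : Type} [CommGroup G] [Fintype G] [Fintype Ω]
  (ρ : G →* Equiv.Perm Ω)

/-- the map `(i, γ) ↦ γ w_i` -/
def ynE {r : ℕ} (w : Fin r → Ω) (x : Fin r × G) : Ω := ρ x.2 (w x.1)

theorem ynE_inj {r : ℕ} {w : Fin r → Ω} (hw : ∀ i g, ρ g (w i) = w i → g = 1)
    (hinj : ∀ i i' g, ρ g (w i) = w i' → i = i') : Function.Injective (ynE ρ w) := by
  rintro ⟨i, γ⟩ ⟨i', γ'⟩ h
  have h' : ρ γ (w i) = ρ γ' (w i') := h
  have h1 : ρ (γ'⁻¹ * γ) (w i) = w i' := by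
    rw [map_mul, Equiv.Perm.mul_apply, h', ← Equiv.Perm.mul_apply, ← map_mul, inv_mul_cancel,
      map_one]
    rfl
  have h2 : i = i' := hinj i i' _ h1
  subst h2
  have h3 := hw i _ h1
  rw [inv_mul_eq_one] at h3
  rw [h3]

/-- the function on `Ω` given by a family of elements of `ℤ[G]` -/
noncomputable def ynF {r : ℕ} (w : Fin r → Ω) (U : Fin r → MonoidAlgebra ℤ G) : Ω → ℤ :=
  Function.extend (ynE ρ w) (fun x => (U x.1).coeff x.2) 0

section

variable {r : ℕ} {w : Fin r → Ω} (hE : Function.Injective (ynE ρ w))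

include hE

theorem ynF_app (U : Fin r → MonoidAlgebra ℤ G) (x : Fin r × G) :
    ynF ρ w U (ynE ρ w x) = (U x.1).coeff x.2 :=
  hE.extend_apply _ _ _

omit hE in
theorem ynF_not (U : Fin r → MonoidAlgebra ℤ G) {ω : Ω} (h : ¬ ∃ x, ynE ρ w x = ω) :
    ynF ρ w U ω = 0 :=
  Function.extend_apply' _ _ _ h

theorem ynF_ext (U : Fin r → MonoidAlgebra ℤ G) (y : Ω → ℤ)
    (h1 : ∀ x, y (ynE ρ w x) = (U x.1).coeff x.2) (h2 : ∀ ω, (¬ ∃ x, ynE ρ w x = ω) → y ω = 0) :
    y = ynF ρ w U := by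
  funext ω
  by_cases h : ∃ x, ynE ρ w x = ω
  · obtain ⟨x, rfl⟩ := h
    rw [ynF_app ρ hE, h1]
  · rw [ynF_not ρ U h, h2 ω h]

theorem ynF_zero : ynF ρ w (0 : Fin r → MonoidAlgebra ℤ G) = 0 := by
  symm
  apply ynF_ext ρ hE
  · intro x
    rfl
  · intro ω _
    rfl

theorem ynF_add (U V : Fin r → MonoidAlgebra ℤ G) :
    ynF ρ w (U + V) = ynF ρ w U + ynF ρ w V := by
  symm
  apply ynF_ext ρ hE
  · intro x
    rw [Pi.add_apply, ynF_app ρ hE, ynF_app ρ hE]
    rfl
  · intro ω h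
    rw [Pi.add_apply, ynF_not ρ U h, ynF_not ρ V h, add_zero]

/-- as an additive homomorphism -/
noncomputable def ynH : (Fin r → MonoidAlgebra ℤ G) →+ (Ω → ℤ) where
  toFun := ynF ρ w
  map_zero' := ynF_zero ρ hE
  map_add' := ynF_add ρ hE

theorem ynF_inj {U : Fin r → MonoidAlgebra ℤ G} (h : ynF ρ w U = 0) (i : Fin r) : U i = 0 := by
  ext γ
  have h1 := congrFun h (ynE ρ w (i, γ))
  rw [ynF_app ρ hE] at h1
  exact h1

theorem ynF_act (g : G) (U : Fin r → MonoidAlgebra ℤ G) :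
    pmA ρ g (ynF ρ w U) = ynF ρ w (fun i => MonoidAlgebra.single g 1 * U i) := by
  apply ynF_ext ρ hE
  · rintro ⟨i, γ⟩
    show ynF ρ w U (ρ g⁻¹ (ynE ρ w (i, γ))) = _
    have h1 : ρ g⁻¹ (ynE ρ w (i, γ)) = ynE ρ w (i, g⁻¹ * γ) := by
      show ρ g⁻¹ (ρ γ (w i)) = ρ (g⁻¹ * γ) (w i)
      rw [map_mul]
      rfl
    rw [h1, ynF_app ρ hE, MonoidAlgebra.coeff_single_mul_apply, one_mul]
  · intro ω h
    show ynF ρ w U (ρ g⁻¹ ω) = 0
    apply ynF_not
    rintro ⟨⟨i, γ⟩, hx⟩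
    apply h
    refine ⟨(i, g * γ), ?_⟩
    show ρ (g * γ) (w i) = ω
    have hx' : ρ γ (w i) = ρ g⁻¹ ω := hx
    rw [map_mul, Equiv.Perm.mul_apply, hx', ← Equiv.Perm.mul_apply, ← map_mul, mul_inv_cancel,
      map_one]
    rfl

theorem ynF_nA (P : Subgroup G) (U : Fin r → MonoidAlgebra ℤ G) :
    nA (pmA ρ) P (ynF ρ w U) = ynF ρ w (fun i => nP P * U i) := by
  classical
  have : Fintype P := Fintype.ofFinite P
  rw [nA_sum]
  have h1 : ∀ g : P, pmA ρ (g : G) (ynF ρ w U) =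
      ynH ρ hE (fun i => MonoidAlgebra.single (g : G) 1 * U i) := fun g => ynF_act ρ hE _ _
  rw [Finset.sum_congr rfl fun g _ => h1 g, ← map_sum]
  show ynF ρ w _ = _
  congr 1
  funext i
  rw [Finset.sum_apply, kl_nP_sum, Finset.sum_mul]

/-- the functions given by families which vanish at the characters which are not injective -/
theorem ynF_mem {U : Fin r → MonoidAlgebra ℤ G}
    (hU : ∀ i (χ : G →* ℂˣ), ¬ Function.Injective χ → evZ χ (U i) = 0) :
    ynF ρ w U ∈ mI (pmA ρ) := by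
  intro P hP
  rw [ynF_nA ρ hE]
  have h1 : (fun i => nP P * U i) = 0 := by
    funext i
    apply kl_inj
    intro χ
    rw [map_mul]
    show _ = evZ χ 0
    rw [map_zero]
    by_cases h : P ≤ χ.ker
    · rw [hU i χ fun hi => (inj_iff χ).1 hi P hP h, mul_zero]
    · rw [kl_ev_not h, zero_mul]
  rw [h1, ynF_zero ρ hE]

end

/-- an element of the new part vanishes at the points with a nontrivial stabilizer -/
theorem yn_van {y : Ω → ℤ} (hy : y ∈ mI (pmA ρ)) {ω : Ω} {g : G} (hg : ρ g ω = ω) (hg1 : g ≠ 1) :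
    y ω = 0 := by
  classical
  have hn : orderOf g ≠ 1 := fun h => hg1 (orderOf_eq_one_iff.1 h)
  obtain ⟨p, hp, hpd⟩ := Nat.exists_prime_and_dvd hn
  obtain ⟨m, hm⟩ := hpd
  have hm0 : 0 < orderOf g := orderOf_pos g
  have hmpos : 0 < m := Nat.pos_of_ne_zero (by rintro rfl; rw [mul_zero] at hm; omega)
  have ho : orderOf (g ^ m) = p := by
    rw [orderOf_pow_of_dvd hmpos.ne' ⟨p, by rw [hm, mul_comm]⟩, hm,
      Nat.mul_div_cancel _ hmpos]
  have hP : Nat.card (Subgroup.zpowers (g ^ m)) = p := by rw [Nat.card_zpowers, ho]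
  have h1 := hy (Subgroup.zpowers (g ^ m)) (by rw [hP]; exact hp)
  have : Fintype (Subgroup.zpowers (g ^ m)) := Fintype.ofFinite _
  rw [nA_sum] at h1
  have h2 := congrFun h1 ω
  rw [Finset.sum_apply] at h2
  have hst : ∀ x ∈ Subgroup.zpowers (g ^ m), ρ x ω = ω := by
    have hS : Subgroup.zpowers (g ^ m) ≤ (MulAction.stabilizer (Equiv.Perm Ω) ω).comap ρ := by
      rw [Subgroup.zpowers_le]
      exact Subgroup.pow_mem _ (show ρ g • ω = ω from hg) m
    intro x hx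
    exact hS hx
  have h3 : ∀ x : Subgroup.zpowers (g ^ m), pmA ρ (x : G) y ω = y ω := by
    intro x
    show y (ρ (x : G)⁻¹ ω) = y ω
    rw [hst _ (inv_mem x.2)]
  rw [Finset.sum_congr rfl fun x _ => h3 x, Finset.sum_const, Finset.card_univ,
    ← Nat.card_eq_fintype_card, hP] at h2
  have h4 : (p : ℤ) * y ω = 0 := by simpa using h2
  rcases mul_eq_zero.1 h4 with h | h
  · exact absurd h (by exact_mod_cast hp.pos.ne')
  · exact h

section

variable {r : ℕ} {w : Fin r → Ω} (hE : Function.Injective (ynE ρ w))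

include hE

/-- a family whose function is in the new part vanishes at the characters which are not injective -/
theorem yn_off {U : Fin r → MonoidAlgebra ℤ G} (h : ynF ρ w U ∈ mI (pmA ρ)) (i : Fin r)
    (χ : G →* ℂˣ) (hχ : ¬ Function.Injective χ) : evZ χ (U i) = 0 := by
  have h1 : ∃ P : Subgroup G, (Nat.card P).Prime ∧ P ≤ χ.ker := by
    by_contra h2
    push Not at h2
    exact hχ ((inj_iff χ).2 h2)
  obtain ⟨P, hP, hle⟩ := h1
  have h2 := h P hP
  rw [ynF_nA ρ hE] at h2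
  have h3 := ynF_inj ρ hE h2 i
  have h4 := congrArg (evZ χ) h3
  rw [map_mul, map_zero, kl_ev_le hle] at h4
  rcases mul_eq_zero.1 h4 with h5 | h5
  · exact absurd h5 (Nat.cast_ne_zero.2 hP.pos.ne')
  · exact h5

/-- the elements of the new part are given by families which vanish at the characters which are not
injective -/
theorem yn_form (hall : ∀ ω, (∀ g, ρ g ω = ω → g = 1) → ∃ i g, ω = ρ g (w i)) {y : Ω → ℤ}
    (hy : y ∈ mI (pmA ρ)) : ∃ U : Fin r → MonoidAlgebra ℤ G, y = ynF ρ w U ∧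
      ∀ i (χ : G →* ℂˣ), ¬ Function.Injective χ → evZ χ (U i) = 0 := by
  classical
  have h0 : y = ynF ρ w fun i => ∑ γ : G, MonoidAlgebra.single γ (y (ρ γ (w i))) := by
    apply ynF_ext ρ hE
    · rintro ⟨i, γ⟩
      show y (ρ γ (w i)) = (∑ γ : G, MonoidAlgebra.single γ (y (ρ γ (w i)))).coeff γ
      rw [MonoidAlgebra.coeff_sum]
      simp only [MonoidAlgebra.coeff_single, Finsupp.coe_finsetSum, Finset.sum_apply]
      rw [Finset.sum_eq_single γ]
      · rw [Finsupp.single_eq_same]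
      · intro b _ hb
        rw [Finsupp.single_eq_of_ne (Ne.symm hb)]
      · intro h
        exact absurd (Finset.mem_univ _) h
    · intro ω h
      by_cases hf : ∀ g, ρ g ω = ω → g = 1
      · obtain ⟨i, g, hg⟩ := hall ω hf
        exact absurd ⟨(i, g), hg.symm⟩ h
      · push Not at hf
        obtain ⟨g, hg, hg1⟩ := hf
        exact yn_van ρ hy hg hg1
  exact ⟨_, h0, yn_off ρ hE (h0 ▸ hy)⟩

/-- the inner product -/
theorem yn_dot (U V : Fin r → MonoidAlgebra ℤ G) :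
    dotF Ω (ynF ρ w U) (ynF ρ w V) =
      ∑ i, ∑ γ : G, (((U i).coeff γ : ℤ) : ℝ) * (((V i).coeff γ : ℤ) : ℝ) := by
  classical
  show ∑ ω, ((ynF ρ w U ω : ℤ) : ℝ) * ((ynF ρ w V ω : ℤ) : ℝ) = _
  rw [← Fintype.sum_prod_type (f := fun x : Fin r × G =>
    (((U x.1).coeff x.2 : ℤ) : ℝ) * (((V x.1).coeff x.2 : ℤ) : ℝ))]
  symm
  rw [← Finset.sum_subset (Finset.subset_univ (Finset.univ.map ⟨ynE ρ w, hE⟩))]
  · rw [Finset.sum_map]
    refine Finset.sum_congr rfl fun x _ => ?_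
    show _ = ((ynF ρ w U (ynE ρ w x) : ℤ) : ℝ) * ((ynF ρ w V (ynE ρ w x) : ℤ) : ℝ)
    rw [ynF_app ρ hE, ynF_app ρ hE]
  · intro ω _ h
    have h1 : ¬ ∃ x, ynE ρ w x = ω := by
      rintro ⟨x, hx⟩
      apply h
      rw [Finset.mem_map]
      exact ⟨x, Finset.mem_univ _, hx⟩
    rw [ynF_not ρ U h1, Int.cast_zero, zero_mul]

end

/-- the family `y_{jk}` -/
noncomputable def ynY {r : ℕ} (w : Fin r → Ω) (η : MonoidAlgebra ℤ G) (σ : G)
    (p : Fin r × Fin (Nat.card G).totient) : Ω → ℤ :=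
  ynF ρ w (Pi.single p.1 (MonoidAlgebra.single (σ ^ (p.2 : ℕ)) 1 * η))

end YN

section YNb

variable {G Ω : Type} [CommGroup G] [Fintype G] [IsCyclic G] [Fintype Ω]
  (ρ : G →* Equiv.Perm Ω)

theorem new_perm_pr {r : ℕ} (w : Fin r → Ω) (hw : ∀ i g, ρ g (w i) = w i → g = 1)
    (hinj : ∀ i i' g, ρ g (w i) = w i' → i = i')
    (hall : ∀ ω, (∀ g, ρ g ω = ω → g = 1) → ∃ i g, ω = ρ g (w i)) {η : MonoidAlgebra ℤ G}
    (hη : Eta η) {σ : G} (hσ : ∀ g : G, g ∈ Subgroup.zpowers σ) {δ : ℝ} (hδ0 : 0 < δ)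
    (hδ : ∀ (r : ℕ) (f : Fin r → Fin r → MonoidAlgebra ℝ G),
      (∀ i j (χ : G →* ℂˣ), ¬ Function.Injective χ → evR χ (f i j) = 0) →
      Matrix.det (Matrix.of fun p q : Fin r × Fin (Nat.card G).totient =>
        ∑ i, ∑ γ : G, (f i p.1).coeff ((σ ^ (p.2 : ℕ))⁻¹ * γ) *
          (f i q.1).coeff ((σ ^ (q.2 : ℕ))⁻¹ * γ)) =
        δ ^ r * ‖pI (fun χ => evR χ (Matrix.det (Matrix.of f)))‖ ^ 2) :
    Module.finrank ℤ (mI (pmA ρ)) = r * (Nat.card G).totient ∧
    ∃ n : ℕ, 0 < n ∧ δ ^ r * (‖pI (fun χ => evZ χ η)‖ ^ 2) ^ r =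
      (n : ℝ) ^ 2 * grm (dotF Ω) (mI (pmA ρ)) := by
  classical
  have hE := ynE_inj ρ hw hinj
  -- the Gram matrix
  set Y := ynY ρ w η σ with hY
  have hgram : Matrix.det (Matrix.of fun p q => dotF Ω (Y p) (Y q)) =
      δ ^ r * (‖pI (fun χ => evZ χ η)‖ ^ 2) ^ r := by
    set f : Fin r → Fin r → MonoidAlgebra ℝ G := fun i j => if i = j then toR G η else 0 with hf
    have h1 := hδ r f (by
      intro i j χ hχ
      rw [hf]
      by_cases hij : i = j
      · simp only [hij, if_true]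
        rw [l2_evR_toR]
        exact hη.off χ hχ
      · simp only [hij, if_false]
        rw [map_zero])
    have h2 : Matrix.det (Matrix.of f) = toR G η ^ r := by
      have h3 : Matrix.of f = Matrix.diagonal fun _ => toR G η := by
        ext i j : 2
        rw [Matrix.of_apply, hf, Matrix.diagonal_apply]
      rw [h3, Matrix.det_diagonal, Finset.prod_const, Finset.card_univ, Fintype.card_fin]
    have h4 : pI (fun χ => evR χ (Matrix.det (Matrix.of f))) = pI (fun χ => evZ χ η) ^ r := by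
      rw [h2, ← pI_pow]
      congr 1
      funext χ
      rw [map_pow, l2_evR_toR]
    rw [h4, norm_pow, ← pow_mul, mul_comm r 2, pow_mul] at h1
    rw [← h1]
    congr 1
    ext p q : 2
    rw [Matrix.of_apply, Matrix.of_apply, hY]
    show dotF Ω (ynF ρ w _) (ynF ρ w _) = _
    rw [yn_dot ρ hE]
    refine Finset.sum_congr rfl fun i _ => Finset.sum_congr rfl fun γ _ => ?_
    have h5 : ∀ p : Fin r × Fin (Nat.card G).totient,
        ((((Pi.single p.1 (MonoidAlgebra.single (σ ^ (p.2 : ℕ)) 1 * η) :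
          Fin r → MonoidAlgebra ℤ G) i).coeff γ : ℤ) : ℝ) =
        (f i p.1).coeff ((σ ^ (p.2 : ℕ))⁻¹ * γ) := by
      intro p
      rw [hf]
      by_cases hi : i = p.1
      · subst hi
        rw [Pi.single_eq_same, MonoidAlgebra.coeff_single_mul_apply, one_mul]
        simp [toR]
      · rw [Pi.single_eq_of_ne hi]
        simp [hi]
    rw [h5, h5]
  have hdet : Matrix.det (Matrix.of fun p q => dotF Ω (Y p) (Y q)) ≠ 0 := by
    rw [hgram]
    refine mul_ne_zero (pow_ne_zero _ hδ0.ne') (pow_ne_zero _ (pow_ne_zero _ ?_))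
    rw [norm_ne_zero_iff, pI_ne_zero]
    exact hη.on
  have hmem : ∀ p, Y p ∈ mI (pmA ρ) := by
    intro p
    apply ynF_mem ρ hE
    intro i χ hχ
    by_cases hi : i = p.1
    · subst hi
      rw [Pi.single_eq_same, map_mul, hη.off χ hχ, mul_zero]
    · rw [Pi.single_eq_of_ne hi, map_zero]
  have hli : LinearIndependent ℤ fun p => (⟨Y p, hmem p⟩ : mI (pmA ρ)) := by
    rw [Fintype.linearIndependent_iff]
    intro c hc
    have h1 : ∑ p, c p • Y p = 0 := by
      have := congrArg (fun z : mI (pmA ρ) => (z : Ω → ℤ)) hc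
      simpa using this
    have h2 : Matrix.vecMul (fun p => (c p : ℝ)) (Matrix.of fun p q => dotF Ω (Y p) (Y q)) = 0 := by
      funext q
      show ∑ p, (c p : ℝ) * dotF Ω (Y p) (Y q) = 0
      have h3 := congrArg (fun z => dotF Ω z (Y q)) h1
      simp only [map_sum, map_zsmul, AddMonoidHom.finsetSum_apply, map_zero,
        AddMonoidHom.zero_apply] at h3
      rw [← h3]
      refine Finset.sum_congr rfl fun p _ => ?_
      rw [← zsmul_eq_mul]
      rfl
    have h4 := Matrix.eq_zero_of_vecMul_eq_zero hdet h2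
    intro p
    have h5 : (c p : ℝ) = 0 := congrFun h4 p
    exact_mod_cast h5
  have hspan : ⊤ ≤ Submodule.span ℤ (Set.range fun p => (⟨Y p, hmem p⟩ : mI (pmA ρ))) := by
    rintro ⟨y, hy⟩ -
    obtain ⟨U, rfl, hU⟩ := yn_form ρ hE hall hy
    have h1 : ∀ i, ∃ c : Fin (Nat.card G).totient → ℤ,
        U i = ∑ k, c k • (MonoidAlgebra.single (σ ^ (k : ℕ)) 1 * η) := by
      intro i
      obtain ⟨b, hb⟩ := hη.gen (U i) (hU i)
      obtain ⟨c, γ, h⟩ := bsc_red hσ b
      refine ⟨c, ?_⟩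
      have h0 : bscA σ (Polynomial.cyclotomic (Nat.card G) ℤ) * η = 0 := by
        apply kl_inj
        intro χ
        rw [map_mul, map_zero]
        by_cases hχ : Function.Injective χ
        · rw [bsc_cyc hσ χ hχ, zero_mul]
        · rw [hη.off χ hχ, mul_zero]
      rw [hb, mul_comm, h, add_mul, mul_assoc, h0, mul_zero, add_zero, Finset.sum_mul]
      refine Finset.sum_congr rfl fun k _ => ?_
      rw [← smul_mul_assoc]
      congr 1
      simp
    choose c hc using h1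
    have h2 : (⟨ynF ρ w U, hy⟩ : mI (pmA ρ)) =
        ∑ p : Fin r × Fin (Nat.card G).totient, c p.1 p.2 • (⟨Y p, hmem p⟩ : mI (pmA ρ)) := by
      apply Subtype.ext
      have h3 : ((∑ p : Fin r × Fin (Nat.card G).totient,
          c p.1 p.2 • (⟨Y p, hmem p⟩ : mI (pmA ρ)) : mI (pmA ρ)) : Ω → ℤ) =
          ∑ p : Fin r × Fin (Nat.card G).totient, c p.1 p.2 • Y p := by
        simp
      rw [h3]
      have h4 : ∀ p, Y p = ynH ρ hE (Pi.single p.1 (MonoidAlgebra.single (σ ^ (p.2 : ℕ)) 1 * η)) :=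
        fun p => rfl
      simp only [h4, ← map_zsmul, ← map_sum]
      show ynF ρ w U = ynF ρ w _
      congr 1
      funext i
      rw [Finset.sum_apply, hc i, Fintype.sum_prod_type, Finset.sum_eq_single i]
      · refine Finset.sum_congr rfl fun k _ => ?_
        rw [Pi.smul_apply, Pi.single_eq_same]
      · intro j _ hj
        refine Finset.sum_eq_zero fun k _ => ?_
        rw [Pi.smul_apply, Pi.single_eq_of_ne (Ne.symm hj), smul_zero]
      · intro h
        exact absurd (Finset.mem_univ _) h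
    rw [h2]
    exact Submodule.sum_mem _ fun p _ => Submodule.smul_mem _ _ (Submodule.subset_span ⟨p, rfl⟩)
  set β : Module.Basis (Fin r × Fin (Nat.card G).totient) ℤ (mI (pmA ρ)) :=
    Module.Basis.mk hli hspan with hβ
  have hβa : ∀ p, (β p : Ω → ℤ) = Y p := by
    intro p
    rw [hβ, Module.Basis.mk_apply]
  refine ⟨?_, 1, one_pos, ?_⟩
  · rw [Module.finrank_eq_card_basis β, Fintype.card_prod, Fintype.card_fin, Fintype.card_fin]
  · have h1 := grm_basis (dotF Ω) (β.reindex finProdFinEquiv)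
    rw [h1, ← hgram, Nat.cast_one, one_pow, one_mul,
      ← Matrix.det_submatrix_equiv_self finProdFinEquiv.symm]
    congr 1
    ext i j : 2
    simp only [Matrix.submatrix_apply, Matrix.of_apply, Module.Basis.reindex_apply, hβa]

end YNb

end Pool.Agent.CR

namespace Pool.Agent.CR
open Pool.Agent.RSK Pool.Agent.RS2 Pool.Agent.SY
open Filter Topology Complex

section
variable {G Ω : Type} [CommGroup G] [Fintype G] [IsCyclic G] [Fintype Ω]
  (ρ : G →* Equiv.Perm Ω)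

theorem new_perm {r : ℕ} (w : Fin r → Ω) (hw : ∀ i g, ρ g (w i) = w i → g = 1)
    (hinj : ∀ i i' g, ρ g (w i) = w i' → i = i')
    (hall : ∀ ω, (∀ g, ρ g ω = ω → g = 1) → ∃ i g, ω = ρ g (w i)) {η : MonoidAlgebra ℤ G}
    (hη : Eta η) {σ : G} (hσ : ∀ g : G, g ∈ Subgroup.zpowers σ) {δ : ℝ} (hδ0 : 0 < δ)
    (hδ : ∀ (r : ℕ) (f : Fin r → Fin r → MonoidAlgebra ℝ G),
      (∀ i j (χ : G →* ℂˣ), ¬ Function.Injective χ → evR χ (f i j) = 0) →
      Matrix.det (Matrix.of fun p q : Fin r × Fin (Nat.card G).totient =>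
        ∑ i, ∑ γ : G, (f i p.1).coeff ((σ ^ (p.2 : ℕ))⁻¹ * γ) *
          (f i q.1).coeff ((σ ^ (q.2 : ℕ))⁻¹ * γ)) =
        δ ^ r * ‖pI (fun χ => evR χ (Matrix.det (Matrix.of f)))‖ ^ 2) :
    Module.finrank ℤ (mI (pmA ρ)) = r * (Nat.card G).totient ∧
    ∃ n : ℕ, 0 < n ∧ δ ^ r * (‖pI (fun χ => evZ χ η)‖ ^ 2) ^ r =
      (n : ℝ) ^ 2 * grm (dotF Ω) (mI (pmA ρ)) :=
  @Pool.Agent.CR.new_perm_pr G Ω _ _ _ _ ρ r w hw hinj hall η hη σ hσ δ hδ0 hδ

end

end Pool.Agent.CR
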