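import Pool.Agent.Lib_helper17.CRF.D_WN
import Pool.Agent.Lib_helper17.CRF.B_PL
import Pool.Agent.Lib_helper17.CRF.N_GU3
import Pool.Agent.Lib_helper17.CRF.B_PV
import Pool.Agent.Lib_helper17.CRF.B_KL
import Pool.Agent.Lib_helper17.CRF.A_GR2
import Pool.Agent.Lib_helper17.CRF.B_PI
import Pool.Agent.Lib_helper17.CRF.B_YN
import Pool.Agent.Lib_helper17.CRF.N_PC5
import Pool.Agent.Lib_helper17.CRF.A_GR1
import Pool.Agent.Lib_helper17.CRF.B_BS
import Pool.Agent.Lib_helper17.CRF.N_GU1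

/-!
# CR, block NO1: the norm formula, base
-/

set_option autoImplicit false
set_option linter.unusedSectionVars false

namespace Pool.Agent.CR

open Pool.Agent.RSK Pool.Agent.RS2 Pool.Agent.RS3 Pool.Agent.SY
open NumberField IsDedekindDomain Filter Topology Complex

section NO1

variable {F K : Type} [Field F] [NumberField F] [Field K] [NumberField K] [Algebra F K]
  [IsGalois F K] {G : Type} [CommGroup G] [Fintype G] {ι : G ≃* (K ≃ₐ[F] K)}
  {S T : Finset (HeightOneSpectrum (𝓞 F))} {r : ℕ} {w : Fin r → Pl K}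
  {fr : HeightOneSpectrum (𝓞 F) → G}

theorem no1_coeff (W : Pl K) (g : G) (u : UM ι S T) (γ : G) :
    (wl ι S T W (MonoidAlgebra.single g (1 : ℤ) • u)).coeff γ =
      (wl ι S T W u).coeff (g⁻¹ * γ) := by
  have h : wl ι S T W (MonoidAlgebra.single g (1 : ℤ) • u) =
      MonoidAlgebra.single g (1 : ℝ) * wl ι S T W u := wlAdd_single ι S T W g u
  rw [h]
  simp

theorem no1_off {u : UM ι S T} (hu : u ∈ mI (smA G (UM ι S T))) (W : Pl K) {χ : G →* ℂˣ}
    (hχ : ¬ Function.Injective χ) : evR χ (wl ι S T W u) = 0 := by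
  classical
  rw [inj_iff] at hχ
  push Not at hχ
  obtain ⟨P, hP, hPχ⟩ := hχ
  have h1 := hu P hP
  rw [nA_sum] at h1
  have h2 : evR χ (wl ι S T W (∑ g : P, smA G (UM ι S T) (g : G) u)) = 0 := by
    rw [h1, map_zero, map_zero]
  rw [map_sum, map_sum] at h2
  have h3 : ∀ g : P, evR χ (wl ι S T W (smA G (UM ι S T) (g : G) u)) =
      evR χ (wl ι S T W u) := by
    intro g
    have h : wl ι S T W (MonoidAlgebra.single (g : G) (1 : ℤ) • u) =
      MonoidAlgebra.single (g : G) (1 : ℝ) * wl ι S T W u := wlAdd_single ι S T W g u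
    show evR χ (wl ι S T W (MonoidAlgebra.single (g : G) (1 : ℤ) • u)) = _
    rw [h, map_mul]
    have h5 : χ (g : G) = 1 := hPχ g.2
    have h4 : evR χ (MonoidAlgebra.single (g : G) (1 : ℝ)) = 1 := by
      unfold evR
      rw [MonoidAlgebra.lift_single]
      simp [h5]
    rw [h4, one_mul]
  rw [Finset.sum_congr rfl fun g _ => h3 g, Finset.sum_const, Finset.card_univ, nsmul_eq_mul,
    mul_eq_zero] at h2
  rcases h2 with h2 | h2
  · exfalso
    have : Fintype.card P ≠ 0 := Fintype.card_ne_zero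
    exact this (by exact_mod_cast h2)
  · exact h2

theorem norm_base_pr [IsCyclic G] (hD : Data ι S T r w fr) {c : (G →* ℂˣ) → ℂ}
    {b : Fin r → UM ι S T} (hb : ∀ i, b i ∈ mI (smA G (UM ι S T)))
    (h0 : (mSpn G b).relIndex (mI (smA G (UM ι S T))) ≠ 0) {x : MonoidAlgebra ℚ G}
    (hco : CoreF ι S T w c b x) {η : MonoidAlgebra ℤ G} (hη : Eta η) :
    ∃ n : ℕ, 0 < n ∧ ‖pI (fun χ => evQ χ (x * toQ G (η ^ r)))‖ ^ 2 *
        (((mSpn G b).relIndex (mI (smA G (UM ι S T))) : ℕ) : ℝ) ^ 2 *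
        grm (BU ι S T) (mI (smA G (UM ι S T))) =
      ‖pI c‖ ^ 2 * (n : ℝ) ^ 2 * grm (dotF (PS (ovr K S))) (mI (pmA (acG ι S))) := by
  classical
  have hfin : Module.Finite ℤ (UM ι S T) := um_finite hD
  have htf : Module.IsTorsionFree ℤ (UM ι S T) := um_tf hD
  have hfree : Module.Free ℤ (UM ι S T) := inferInstance
  obtain ⟨σ, hσ⟩ := IsCyclic.exists_generator (α := G)
  obtain ⟨δ, hδ0, hδ⟩ := gram_char hσ
  obtain ⟨-, -, w', hw', h1, h2, h3⟩ := data_pl hD
  obtain ⟨-, n, hn, hn'⟩ := new_perm (acG ι S) w' h1 h2 h3 hη hσ hδ0 hδ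
  refine ⟨n, hn, ?_⟩
  obtain ⟨β, hβ⟩ := span_basis hσ (rank_U hD).2 hb h0
  have hle : mSpn G b ≤ mI (smA G (UM ι S T)) := by
    intro y hy0
    have hy' : y ∈ Submodule.span (MonoidAlgebra ℤ G) (Set.range b) := hy0
    clear hy0
    induction hy' using Submodule.span_induction with
    | mem y h =>
      obtain ⟨i, rfl⟩ := h
      exact hb i
    | zero => exact AddSubgroup.zero_mem _
    | add y z hy hz ihy ihz => exact AddSubgroup.add_mem _ ihy ihz
    | smul a y hy ihy =>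
      intro P hP
      have h5 := ihy P hP
      rw [nA_smA] at h5 ⊢
      rw [smul_smul, mul_comm, ← smul_smul, h5, smul_zero]
  have h4 := grm_index (BU ι S T) hle h0
  -- the Gram determinant of the span
  have h5 : grm (BU ι S T) (mSpn G b) =
      δ ^ r * ‖pI (fun χ => evR χ (wmat ι S T w b).det)‖ ^ 2 := by
    have e : Fin r × Fin (Nat.card G).totient ≃ Fin (r * (Nat.card G).totient) := finProdFinEquiv
    rw [grm_basis (BU ι S T) (β.reindex e)]
    have h6 := hδ r (fun i j => wl ι S T (w i) (b j)) (fun i j χ hχ => no1_off (hb j) (w i) hχ)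
    have h7 : (Matrix.of fun i j => wl ι S T (w i) (b j)) = wmat ι S T w b := rfl
    rw [h7] at h6
    rw [← h6, ← Matrix.det_submatrix_equiv_self e]
    congr 1
    ext p q
    simp only [Matrix.submatrix_apply, Matrix.of_apply, Module.Basis.reindex_apply,
      Equiv.symm_apply_apply]
    rw [hβ, hβ, BU_w hD]
    · refine Finset.sum_congr rfl fun i _ => Finset.sum_congr rfl fun γ _ => ?_
      rw [no1_coeff, no1_coeff]
    · rw [← hβ]
      exact hle (β p).2
  have h6 : ∀ χ : G →* ℂˣ, evQ χ (toQ G (η ^ r)) = evZ χ η ^ r := by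
    intro χ
    rw [map_pow, map_pow]
    rfl
  have h7 : pI (fun χ => evQ χ (x * toQ G (η ^ r))) =
      pI (fun χ => evQ χ x) * pI (fun χ => evZ χ η) ^ r := by
    rw [← pI_pow, ← pI_mul]
    refine pI_congr fun χ _ => ?_
    rw [map_mul, h6]
  have h8 : pI (fun χ => evQ χ x) * pI (fun χ => evR χ (wmat ι S T w b).det) = pI c := by
    rw [← pI_mul, ← pI_inv c]
    exact pI_congr fun χ hχ => hco.value χ hχ
  rw [mul_assoc, ← h4, h5, h7, ← h8, mul_assoc, ← hn', norm_mul, norm_mul, norm_pow]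
  ring

end NO1

end Pool.Agent.CR

namespace Pool.Agent.CR
open Pool.Agent.RSK Pool.Agent.RS2 Pool.Agent.RS3 Pool.Agent.SY
open NumberField IsDedekindDomain Filter Topology Complex

section
variable {F K : Type} [Field F] [NumberField F] [Field K] [NumberField K] [Algebra F K]
  [IsGalois F K] {G : Type} [CommGroup G] [Fintype G] {ι : G ≃* (K ≃ₐ[F] K)}
  {S T : Finset (HeightOneSpectrum (𝓞 F))} {r : ℕ} {w : Fin r → Pl K}
  {fr : HeightOneSpectrum (𝓞 F) → G}

theorem norm_base [IsCyclic G] (hD : Data ι S T r w fr) {c : (G →* ℂˣ) → ℂ}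
    {b : Fin r → UM ι S T} (hb : ∀ i, b i ∈ mI (smA G (UM ι S T)))
    (h0 : (mSpn G b).relIndex (mI (smA G (UM ι S T))) ≠ 0) {x : MonoidAlgebra ℚ G}
    (hco : CoreF ι S T w c b x) {η : MonoidAlgebra ℤ G} (hη : Eta η) :
    ∃ n : ℕ, 0 < n ∧ ‖pI (fun χ => evQ χ (x * toQ G (η ^ r)))‖ ^ 2 *
        (((mSpn G b).relIndex (mI (smA G (UM ι S T))) : ℕ) : ℝ) ^ 2 *
        grm (BU ι S T) (mI (smA G (UM ι S T))) =
      ‖pI c‖ ^ 2 * (n : ℝ) ^ 2 * grm (dotF (PS (ovr K S))) (mI (pmA (acG ι S))) :=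
  @Pool.Agent.CR.norm_base_pr F K _ _ _ _ _ _ G _ _ ι S T r w fr _ hD c b hb h0 x hco η hη

end

end Pool.Agent.CR
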