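import Pool.Agent.Lib_helper17.CRF.D_WN
import Pool.Agent.Lib_helper17.CRF.B_PI
import Pool.Agent.Lib_helper17.CRF.N_GU1
import Pool.Agent.Lib_helper17.CRF.B_PL
import Pool.Agent.Lib_helper17.CRF.A_YP1
import Pool.Agent.Lib_helper17.CRF.N_GU2
import Pool.Agent.Lib_helper17.CRF.N_GY
import Pool.Agent.Lib_helper17.CRF.N_NO1
import Pool.Agent.Lib_helper17.CRF.N_LD4
import Pool.Agent.Lib_helper17.CRF.N_PC5
import Pool.Agent.Lib_helper17.CRF.B_CN
import Pool.Agent.Lib_helper17.CRF.N_LD3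
import Pool.Agent.Lib_helper17.CRF.A_TG
import Pool.Agent.Lib_helper17.CRF.N_CL4

/-!
# CR, block NO2: the norm formula at the primes not dividing the order of the group
-/

set_option autoImplicit false
set_option linter.unusedSectionVars false

namespace Pool.Agent.CR

open Pool.Agent.RSK Pool.Agent.RS2 Pool.Agent.RS3 Pool.Agent.SY
open NumberField IsDedekindDomain Filter Topology Complex

theorem no2_rat {l : ℕ} (hl : l.Prime) {q : ℚ} {a b m : ℕ} (ha : ¬ l ∣ a)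
    (h : (a : ℝ) * (q : ℝ) ^ 2 = b * (m : ℝ) ^ 2) : ¬ l ∣ q.den := by
  intro hd
  have h1 : (a : ℚ) * q ^ 2 = b * (m : ℚ) ^ 2 := by exact_mod_cast h
  have h2 : (a : ℚ) * (q.num : ℚ) ^ 2 = b * (m : ℚ) ^ 2 * (q.den : ℚ) ^ 2 := by
    have h3 : (q.num : ℚ) = q * q.den := (Rat.mul_den_eq_num q).symm
    rw [h3, ← h1]
    ring
  have h4 : (a : ℤ) * q.num ^ 2 = b * (m : ℤ) ^ 2 * (q.den : ℤ) ^ 2 := by exact_mod_cast h2
  have hp : Prime (l : ℤ) := Nat.prime_iff_prime_int.1 hl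
  have hd' : (l : ℤ) ∣ (q.den : ℤ) := Int.natCast_dvd_natCast.2 hd
  have h5 : (l : ℤ) ∣ (a : ℤ) * q.num ^ 2 := by
    rw [h4]
    exact Dvd.dvd.mul_left (hd'.trans (dvd_pow_self _ two_ne_zero)) _
  rcases hp.dvd_mul.1 h5 with h6 | h6
  · exact ha (Int.natCast_dvd_natCast.1 h6)
  · have h7 : (l : ℤ) ∣ q.num := hp.dvd_of_dvd_pow h6
    have h8 : l ∣ q.num.natAbs := Int.natCast_dvd.1 h7
    have h9 := Nat.dvd_gcd h8 hd
    rw [q.reduced.gcd_eq_one] at h9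
    exact ndvd_one hl h9

theorem no2_nD {G I : Type} [CommGroup G] [Finite G] [Fintype I] (B : I → Subgroup G)
    (D : Subgroup G) : 0 < nD B D := by
  unfold nD
  exact Finset.prod_pos fun i _ => pow_pos Nat.card_pos _

theorem no2_altL {G : Type} [Group G] (f Y U : Subgroup G → ℝ) (L : List (Subgroup G))
    (D : Subgroup G) : alt (fun D => f D ^ 2 * Y D / U D) L D =
      alt f L D ^ 2 * alt Y L D / alt U L D := by
  rw [alt_div (fun D => f D ^ 2 * Y D) U, alt_mul (fun D => f D ^ 2) Y, alt_pow f]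

theorem no2_altR {G : Type} [Group G] (f e : Subgroup G → ℝ) (z : ℝ) (L : List (Subgroup G))
    (D : Subgroup G) : alt (fun D => f D ^ 2 * e D ^ 2 / z) L D =
      alt f L D ^ 2 * alt e L D ^ 2 / alt (fun _ => z) L D := by
  rw [alt_div (fun D => f D ^ 2 * e D ^ 2) (fun _ => z), alt_mul (fun D => f D ^ 2)
    (fun D => e D ^ 2), alt_pow f, alt_pow e]

/-- the standard form is invariant -/
theorem no2_dot {G Ω : Type} [CommGroup G] [Finite G] [Fintype Ω] (ρ : G →* Equiv.Perm Ω)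
    (g : G) (u v : Ω → ℤ) : dotF Ω (pmA ρ g u) (pmA ρ g v) = dotF Ω u v := by
  refine (grm_perm ρ ⊥ (id : Ω → Ω) (fun ω ω' => ⟨fun h => ⟨1, Subgroup.one_mem _, ?_⟩, ?_⟩)
    Function.surjective_id).1 g u v
  · rw [map_one]
    exact h
  · rintro ⟨g, hg, h⟩
    rw [Subgroup.mem_bot] at hg
    rw [hg, map_one] at h
    exact h

section N

variable {F K : Type} [Field F] [NumberField F] [Field K] [NumberField K] [Algebra F K]
  [IsGalois F K] {G : Type} [CommGroup G] [Fintype G] {ι : G ≃* (K ≃ₐ[F] K)}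
  {S T : Finset (HeightOneSpectrum (𝓞 F))} {r : ℕ} {w : Fin r → Pl K}
  {fr : HeightOneSpectrum (𝓞 F) → G}

theorem no2_cD (hD : Data ι S T r w fr) : 0 < cD (dgS ι S) ⊥ := by
  obtain ⟨-, -, -, n, Z, h, -⟩ := cnf_fix hD ⊥
  rw [← h]
  exact Nat.succ_pos n

theorem no2_U (hD : Data ι S T r w fr) (D : Subgroup G) :
    grm (BU ι S T) (nty (smA G (UM ι S T)) [] D) ≠ 0 := by
  intro h
  have h1 := grm_U hD D
  rw [h, zero_mul] at h1
  have h2 : (0 : ℝ) < Nat.card D := Nat.cast_pos.2 Nat.card_pos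
  have h3 : (0 : ℝ) < nD (dgS ι S) D := Nat.cast_pos.2 (no2_nD _ _)
  have h4 : (0 : ℝ) < cD (dgS ι S) ⊥ := Nat.cast_pos.2 (no2_cD hD)
  have h5 : 0 < rK ι S T D := (cnf_fix hD D).2.1
  have : 0 < (Nat.card D : ℝ) ^ (cD (dgS ι S) D) * nD (dgS ι S) D * cD (dgS ι S) ⊥ *
    rK ι S T D ^ 2 := by positivity
  exact this.ne h1

theorem no2_Y (ι : G ≃* (K ≃ₐ[F] K)) (S : Finset (HeightOneSpectrum (𝓞 F))) (D : Subgroup G) :
    grm (dotF (PS (ovr K S))) (nty (pmA (acG ι S)) [] D) ≠ 0 := by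
  intro h
  have h1 := (grm_Y ι S D).1
  rw [h, zero_mul] at h1
  have h2 : (0 : ℝ) < Nat.card D := Nat.cast_pos.2 Nat.card_pos
  have : 0 < (Nat.card D : ℝ) ^ (cD (dgS ι S) D) := by positivity
  exact this.ne h1

theorem no2_pt (hD : Data ι S T r w fr) (D : Subgroup G) :
    ((hK ι S T D : ℝ) * rK ι S T D) ^ 2 * grm (dotF (PS (ovr K S))) (nty (pmA (acG ι S)) [] D) /
        grm (BU ι S T) (nty (smA G (UM ι S T)) [] D) =
      (hK ι S T D : ℝ) ^ 2 * ((Nat.card D : ℝ) / nD (dgS ι S) D) ^ 2 / cD (dgS ι S) ⊥ := by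
  have hU := no2_U hD D
  have h1 := grm_U hD D
  have h2 := (grm_Y ι S D).1
  have h3 : (nD (dgS ι S) D : ℝ) ≠ 0 := (Nat.cast_pos.2 (no2_nD _ _)).ne'
  have h4 : (cD (dgS ι S) ⊥ : ℝ) ≠ 0 := (Nat.cast_pos.2 (no2_cD hD)).ne'
  rw [← h2] at h1
  rw [div_eq_div_iff hU h4, div_pow]
  field_simp
  linear_combination (-(hK ι S T D : ℝ) ^ 2) * h1

theorem norm_a_pr [IsCyclic G] (hD : Data ι S T r w fr) {c : (G →* ℂˣ) → ℂ}
    (hc : LeadI S T r fr c) {b : Fin r → UM ι S T} (hb : ∀ i, b i ∈ mI (smA G (UM ι S T)))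
    {x : MonoidAlgebra ℚ G} (hco : CoreF ι S T w c b x) {η : MonoidAlgebra ℤ G} (hη : Eta η)
    {l : ℕ} (hl : l.Prime) (h0 : ¬ l ∣ (mSpn G b).relIndex (mI (smA G (UM ι S T))))
    (hlG : ¬ l ∣ Nat.card G) :
    ∃ (k : ℕ) (t : ℤ), ¬ l ∣ k ∧
      (k : ℂ) * pI (fun χ => evQ χ (x * toQ G (η ^ r))) = t := by
  obtain ⟨n0, ⟨βU⟩, -⟩ := ur_basis hD
  have : Module.Free ℤ (UM ι S T) := Module.Free.of_basis βU
  have : Module.Finite ℤ (UM ι S T) := Module.Finite.of_basis βU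
  obtain ⟨L, hL⟩ := prl_exists G 0
  have hLl : ∀ P ∈ L, (Nat.card P).Prime ∧ Nat.card P ≠ l := fun P hP =>
    ⟨(hL.prime P hP).1, fun h => hlG (h ▸ Subgroup.card_subgroup_dvd_card P)⟩
  have hL0 : L ≠ [] := by
    intro h
    have := (prl_nil0 hL).1 h
    have := (data_pl hD).2.1
    exact not_subsingleton G inferInstance
  have hDl : ∀ D : Subgroup G, ¬ l ∣ Nat.card D := fun D h =>
    hlG (h.trans (Subgroup.card_subgroup_dvd_card D))
  obtain ⟨n, hn, hnb⟩ := norm_base hD hb (ndvd_ne h0) hco hη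
  obtain ⟨hlead, -⟩ := lead_alt hD hc hL
  obtain ⟨hU0, hU⟩ := tyg (smA G (UM ι S T)) (BU ι S T) BU_inv hl L hLl (no2_U hD) ⊥
  obtain ⟨-, hY⟩ := tyg (pmA (acG ι S)) (dotF (PS (ovr K S))) (no2_dot (acG ι S)) hl L hLl
    (no2_Y ι S) ⊥
  rw [mI_nty (smA G (UM ι S T)) hL] at hnb
  rw [mI_nty (pmA (acG ι S)) hL] at hnb
  rw [mI_nty (smA G (UM ι S T)) hL] at h0
  set k : ℕ := (mSpn G b).relIndex (nty (smA G (UM ι S T)) L ⊥) with hk
  set gU : ℝ := grm (BU ι S T) (nty (smA G (UM ι S T)) L ⊥) with hgU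
  set gY : ℝ := grm (dotF (PS (ovr K S))) (nty (pmA (acG ι S)) L ⊥) with hgY
  set N : ℝ := ‖pI (fun χ => evQ χ (x * toQ G (η ^ r)))‖ ^ 2 with hN
  have hcl := cl_alt hD hl hLl ⊥
  simp only [bot_sup_eq] at hcl
  set m : ℕ := (PrI ι S T ⊥).relIndex (rty (dvA ι) L ⊥ (PrI ι S T ⊥) (DvI ι T ⊥)) with hm
  have e1 : Eql l N (N * (k : ℝ) ^ 2) := by
    have := eql_unit hl (ndvd_pow hl h0 2) N
    push_cast at this
    rw [mul_comm N]
    exact this.symm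
  have e2 : N * (k : ℝ) ^ 2 = ‖pI c‖ ^ 2 * (n : ℝ) ^ 2 * gY / gU := by
    rw [eq_div_iff hU0]
    exact hnb
  have e3 : Eql l (‖pI c‖ ^ 2 * (n : ℝ) ^ 2 * gY / gU)
      (‖pI c‖ ^ 2 * (n : ℝ) ^ 2 *
        alt (fun D => grm (dotF (PS (ovr K S))) (nty (pmA (acG ι S)) [] D)) L ⊥ /
        alt (fun D => grm (BU ι S T) (nty (smA G (UM ι S T)) [] D)) L ⊥) :=
    ((eql_refl hl _).mul hl hY.symm).div hl hU.symm
  have e4 : ‖pI c‖ ^ 2 * (n : ℝ) ^ 2 *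
        alt (fun D => grm (dotF (PS (ovr K S))) (nty (pmA (acG ι S)) [] D)) L ⊥ /
        alt (fun D => grm (BU ι S T) (nty (smA G (UM ι S T)) [] D)) L ⊥ =
      (n : ℝ) ^ 2 * (alt (fun D => (hK ι S T D : ℝ)) L ⊥ ^ 2 *
        alt (fun D => (Nat.card D : ℝ) / nD (dgS ι S) D) L ⊥ ^ 2) := by
    have h1 : alt (fun D : Subgroup G => ((hK ι S T D : ℝ) * rK ι S T D) ^ 2 *
        grm (dotF (PS (ovr K S))) (nty (pmA (acG ι S)) [] D) /
        grm (BU ι S T) (nty (smA G (UM ι S T)) [] D)) L ⊥ =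
        alt (fun D : Subgroup G => (hK ι S T D : ℝ) ^ 2 *
          ((Nat.card D : ℝ) / nD (dgS ι S) D) ^ 2 / cD (dgS ι S) ⊥) L ⊥ := by
      congr 1
      exact funext fun D => no2_pt hD D
    have h2 : alt (fun _ : Subgroup G => (cD (dgS ι S) ⊥ : ℝ)) L ⊥ = 1 :=
      alt_const (Nat.cast_pos.2 (no2_cD hD)).ne' hL0 ⊥
    rw [no2_altL (fun D => (hK ι S T D : ℝ) * rK ι S T D), no2_altR, h2, div_one, ← hlead] at h1
    rw [← h1]
    ring
  have e5 : Eql l (alt (fun D => (Nat.card D : ℝ) / nD (dgS ι S) D) L ⊥) 1 := by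
    have h1 : alt (fun _ : Subgroup G => (1 : ℝ)) L ⊥ = 1 := alt_const one_ne_zero hL0 ⊥
    rw [← h1]
    refine alt_eql hl (fun _ => True) (fun _ _ _ _ => trivial) (fun D _ => ?_) trivial
    have h2 := (eql_one hl (hDl D)).div hl (eql_one hl (nD_ndvd (dgS ι S) hl (hDl D)))
    rwa [div_one] at h2
  have e6 : Eql l N ((n : ℝ) ^ 2 * ((m : ℝ) ^ 2 * 1 ^ 2)) := by
    refine e1.trans hl ?_
    rw [e2]
    refine e3.trans hl ?_
    rw [e4]
    exact (eql_refl hl _).mul hl ((hcl.pow hl 2).mul hl (e5.pow hl 2))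
  obtain ⟨q, hq⟩ := pI_rat (x * toQ G (η ^ r))
  obtain ⟨a, b', ha, -, hab⟩ := e6
  have hNq : N = (q : ℝ) ^ 2 := by
    rw [hN, hq, ← Complex.ofReal_ratCast, Complex.norm_real, Real.norm_eq_abs, sq_abs]
  refine ⟨q.den, q.num, no2_rat hl (b := b') (m := n * m) ha ?_, ?_⟩
  · rw [← hNq, hab]
    push_cast
    ring
  · rw [hq]
    exact_mod_cast Rat.den_mul_eq_num q

end N

end Pool.Agent.CR

namespace Pool.Agent.CR
open Pool.Agent.RSK Pool.Agent.RS2 Pool.Agent.RS3 Pool.Agent.SY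
open NumberField IsDedekindDomain Filter Topology Complex

section
variable {F K : Type} [Field F] [NumberField F] [Field K] [NumberField K] [Algebra F K]
  [IsGalois F K] {G : Type} [CommGroup G] [Fintype G] {ι : G ≃* (K ≃ₐ[F] K)}
  {S T : Finset (HeightOneSpectrum (𝓞 F))} {r : ℕ} {w : Fin r → Pl K}
  {fr : HeightOneSpectrum (𝓞 F) → G}

theorem norm_a [IsCyclic G] (hD : Data ι S T r w fr) {c : (G →* ℂˣ) → ℂ}
    (hc : LeadI S T r fr c) {b : Fin r → UM ι S T} (hb : ∀ i, b i ∈ mI (smA G (UM ι S T)))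
    {x : MonoidAlgebra ℚ G} (hco : CoreF ι S T w c b x) {η : MonoidAlgebra ℤ G} (hη : Eta η)
    {l : ℕ} (hl : l.Prime) (h0 : ¬ l ∣ (mSpn G b).relIndex (mI (smA G (UM ι S T))))
    (hlG : ¬ l ∣ Nat.card G) :
    ∃ (k : ℕ) (t : ℤ), ¬ l ∣ k ∧
      (k : ℂ) * pI (fun χ => evQ χ (x * toQ G (η ^ r))) = t :=
  @Pool.Agent.CR.norm_a_pr F K _ _ _ _ _ _ G _ _ ι S T r w fr _ hD c hc b hb x hco η hη l hl h0 hlG

end

end Pool.Agent.CR
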