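import Pool.Agent.Lib_helper17.CRF.D_WA
import Pool.Agent.Lib_helper17.CRF.A_NA

/-!
# Composite Rubin (CR), block ID1: the index of the sum of the parts for a subgroup of order `l`
-/

set_option autoImplicit false
set_option linter.unusedSectionVars false

namespace Pool.Agent.CR

/-! ## The polynomial identity -/

section Poly

open Polynomial

theorem id1_poly {p : ℕ} (hp : p.Prime) : ∃ W : ℤ[X],
    ∑ i ∈ Finset.range p, (X + 1 : ℤ[X]) ^ i = X ^ (p - 1) + (p : ℤ[X]) * (1 + X * W) := by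
  obtain ⟨r, hr⟩ := exists_add_pow_prime_eq hp (X : ℤ[X]) 1
  have h1 : (∑ i ∈ Finset.range p, (X + 1 : ℤ[X]) ^ i) * X = (X + 1) ^ p - 1 := by
    have h := geom_sum_mul (X + 1 : ℤ[X]) p
    rwa [add_sub_cancel_right] at h
  have hX : (X : ℤ[X]) ^ p = X ^ (p - 1) * X := by
    rw [← pow_succ, Nat.sub_add_cancel hp.one_le]
  have h2 : ∑ i ∈ Finset.range p, (X + 1 : ℤ[X]) ^ i = X ^ (p - 1) + (p : ℤ[X]) * r := by
    apply mul_right_cancel₀ (X_ne_zero (R := ℤ))
    rw [h1, hr, hX]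
    ring
  have h3 : r.eval 0 = 1 := by
    have h := congrArg (Polynomial.eval 0) h2
    rw [Polynomial.eval_finsetSum] at h
    have h0 : (0 : ℤ) ^ (p - 1) = 0 := zero_pow (Nat.sub_ne_zero_of_lt hp.one_lt)
    simp only [eval_pow, eval_add, eval_X, eval_one, zero_add, one_pow, Finset.sum_const,
      Finset.card_range, nsmul_eq_mul, mul_one, eval_mul, eval_natCast, h0] at h
    have hp0 : (p : ℤ) ≠ 0 := by exact_mod_cast hp.ne_zero
    exact (mul_left_cancel₀ hp0 (by rw [mul_one]; exact h)).symm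
  obtain ⟨W, hW⟩ : X ∣ r - 1 := by
    rw [Polynomial.X_dvd_iff, Polynomial.coeff_zero_eq_eval_zero]
    simp [h3]
  refine ⟨W, ?_⟩
  rw [h2, ← hW]
  ring

end Poly

theorem id1_unit {A : Type} [CommRing A] {p : ℕ} {t n W : A}
    (hn : n = t ^ (p - 1) + (p : A) * (1 + t * W)) :
    ∃ u c : A, (1 + t * W) * u = 1 + n * c := by
  obtain ⟨s, hs⟩ := sub_dvd_pow_sub_pow (1 : A) (-(t * W)) (p - 1)
  refine ⟨s - (p : A) * (-W) ^ (p - 1), - (-W) ^ (p - 1), ?_⟩
  have e1 : (1 + t * W) * s = 1 - (-(t * W)) ^ (p - 1) := by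
    rw [one_pow] at hs
    rw [hs]
    ring
  have e2 : (-(t * W)) ^ (p - 1) = (-W) ^ (p - 1) * t ^ (p - 1) := by
    rw [← mul_pow]
    congr 1
    ring
  have e3 : t ^ (p - 1) = n - (p : A) * (1 + t * W) := by
    rw [hn]
    ring
  rw [mul_sub, e1, e2, e3]
  ring

/-- the index of the range is the absolute value of the determinant -/
theorem id1_index_range {E : Type} [AddCommGroup E] [Module.Free ℤ E] [Module.Finite ℤ E]
    (f : E →ₗ[ℤ] E) (h : LinearMap.det f ≠ 0) :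
    (LinearMap.range f).toAddSubgroup.index = (LinearMap.det f).natAbs := by
  classical
  have hk : LinearMap.ker f = ⊥ := by
    by_contra hk
    exact h (LinearMap.det_eq_zero_iff_ker_ne_bot.2 hk)
  have hinj : Function.Injective f := LinearMap.ker_eq_bot.1 hk
  let e : E ≃ₗ[ℤ] LinearMap.range f := LinearEquiv.ofInjective f hinj
  have h1 := Submodule.natAbs_det_equiv (LinearMap.range f) e
  have h2 : (LinearMap.range f).subtype ∘ₗ AddMonoidHom.toIntLinearMap (e : E →+ LinearMap.range f)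
      = f := by
    ext x
    rfl
  rw [h2] at h1
  rw [h1]
  rfl

/-- an endomorphism `σ` of a lattice with `1 + σ + ⋯ + σ^(p-1) = 0` -/
theorem id1_det {E : Type} [AddCommGroup E] [Module.Free ℤ E] [Module.Finite ℤ E] {p : ℕ}
    (hp : p.Prime) (σ : Module.End ℤ E) (hσ : ∑ i ∈ Finset.range p, σ ^ i = 0) :
    ∃ ρ : ℕ, Module.finrank ℤ E = ρ * (p - 1) ∧
      (LinearMap.det (σ - 1 : E →ₗ[ℤ] E)).natAbs = p ^ ρ := by
  obtain ⟨W, hW⟩ := id1_poly hp
  obtain ⟨u, c, huc⟩ := id1_unit hW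
  set t : Module.End ℤ E := σ - 1 with ht
  have hn0 : Polynomial.aeval t (∑ i ∈ Finset.range p, (Polynomial.X + 1 : Polynomial ℤ) ^ i) = 0 := by
    rw [map_sum, ← hσ]
    refine Finset.sum_congr rfl fun i _ => ?_
    rw [map_pow, map_add, map_one, Polynomial.aeval_X, ht, sub_add_cancel]
  set v : Module.End ℤ E := Polynomial.aeval t (1 + Polynomial.X * W) with hv
  have hunit : IsUnit (LinearMap.det v) := by
    have h1 := congrArg (Polynomial.aeval t) huc
    rw [map_mul, ← hv, map_add, map_mul, hn0, zero_mul, add_zero, map_one] at h1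
    have h2 := congrArg LinearMap.det h1
    rw [map_mul, map_one] at h2
    exact IsUnit.of_mul_eq_one _ h2
  have hv' : (LinearMap.det v).natAbs = 1 := Int.isUnit_iff_natAbs_eq.1 hunit
  have h4 : t ^ (p - 1) = (-(p : ℤ)) • v := by
    have h5 := congrArg (Polynomial.aeval t) hW
    rw [hn0, map_add, map_mul, map_natCast, map_pow, Polynomial.aeval_X, ← hv] at h5
    rw [eq_neg_of_add_eq_zero_left h5.symm]
    ext x
    simp
  have h6 := congrArg (fun f : Module.End ℤ E => (LinearMap.det f).natAbs) h4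
  simp only [map_pow, LinearMap.det_smul, Int.natAbs_mul, Int.natAbs_pow, Int.natAbs_neg,
    Int.natAbs_natCast, hv', mul_one] at h6
  have hp1 : p - 1 ≠ 0 := Nat.sub_ne_zero_of_lt hp.one_lt
  obtain ⟨ρ, -, hρ⟩ := (Nat.dvd_prime_pow hp).1
    (h6 ▸ dvd_pow_self ((LinearMap.det t).natAbs) hp1)
  refine ⟨ρ, ?_, hρ⟩
  rw [hρ, ← pow_mul] at h6
  exact (Nat.pow_right_injective hp.two_le h6).symm

/-! ## Subgroups of lattices -/

section Lat

variable {M : Type} [AddCommGroup M] [Module.Finite ℤ M] [Module.Free ℤ M]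

theorem id1_finite (N : AddSubgroup M) : Module.Finite ℤ N := by
  have : Module.Finite ℤ (AddSubgroup.toIntSubmodule N) := inferInstance
  let e : (AddSubgroup.toIntSubmodule N) ≃+ N :=
    { toFun := fun u => ⟨u.1, u.2⟩
      invFun := fun u => ⟨u.1, u.2⟩
      left_inv := fun _ => rfl
      right_inv := fun _ => rfl
      map_add' := fun _ _ => rfl }
  exact Module.Finite.equiv e.toIntLinearEquiv

theorem id1_free (N : AddSubgroup M) : Module.Free ℤ N := by
  have : Module.Free ℤ (AddSubgroup.toIntSubmodule N) := inferInstance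
  let e : (AddSubgroup.toIntSubmodule N) ≃+ N :=
    { toFun := fun u => ⟨u.1, u.2⟩
      invFun := fun u => ⟨u.1, u.2⟩
      left_inv := fun _ => rfl
      right_inv := fun _ => rfl
      map_add' := fun _ _ => rfl }
  exact Module.Free.of_equiv e.toIntLinearEquiv

/-- the index of `(s - 1) N` in `N`, if `1 + s + ⋯ + s^(p-1) = 0` on the `s`-stable `N` -/
theorem id1_sub {p : ℕ} (hp : p.Prime) (s : AddMonoid.End M) (N : AddSubgroup M)
    (hs : ∀ u ∈ N, s u ∈ N) (h0 : ∀ u ∈ N, ∑ i ∈ Finset.range p, (s ^ i) u = 0) :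
    ∃ ρ : ℕ, Module.finrank ℤ N = ρ * (p - 1) ∧
      (N.map (s - 1 : AddMonoid.End M)).relIndex N = p ^ ρ := by
  have := id1_finite N
  have := id1_free N
  let σ : Module.End ℤ N :=
    ({ toFun := fun u => ⟨s u.1, hs u.1 u.2⟩
       map_zero' := Subtype.ext (map_zero s)
       map_add' := fun u v => Subtype.ext (map_add s _ _) } : N →+ N).toIntLinearMap
  have hσ1 : ∀ (i : ℕ) (u : N), ((σ ^ i) u : M) = (s ^ i) (u : M) := by
    intro i
    induction i with
    | zero => intro u; rfl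
    | succ i ih =>
      intro u
      rw [pow_succ, pow_succ]
      show ((σ ^ i) (σ u) : M) = (s ^ i) (s u.1)
      rw [ih]
      rfl
  have hσ : ∑ i ∈ Finset.range p, σ ^ i = 0 := by
    refine LinearMap.ext fun u => Subtype.ext ?_
    rw [LinearMap.sum_apply]
    show N.subtype (∑ i ∈ Finset.range p, (σ ^ i) u) = 0
    rw [map_sum]
    refine Eq.trans (Finset.sum_congr rfl fun i _ => ?_) (h0 u.1 u.2)
    exact hσ1 i u
  obtain ⟨ρ, h1, h2⟩ := id1_det hp σ hσ
  refine ⟨ρ, h1, ?_⟩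
  have hdet : LinearMap.det (σ - 1 : N →ₗ[ℤ] N) ≠ 0 := by
    intro h
    rw [h, Int.natAbs_zero] at h2
    exact pow_ne_zero _ hp.ne_zero h2.symm
  rw [← h2, ← id1_index_range _ hdet]
  have h3 : N.map (s - 1 : AddMonoid.End M) =
      ((LinearMap.range (σ - 1 : N →ₗ[ℤ] N)).toAddSubgroup).map N.subtype := by
    ext u
    constructor
    · rintro ⟨x, hx, rfl⟩
      exact ⟨(σ - 1 : N →ₗ[ℤ] N) ⟨x, hx⟩, ⟨⟨x, hx⟩, rfl⟩, rfl⟩
    · rintro ⟨_, ⟨x, rfl⟩, rfl⟩
      exact ⟨x.1, x.2, rfl⟩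
  rw [h3, AddSubgroup.relIndex, AddSubgroup.addSubgroupOf,
    AddSubgroup.comap_map_eq_self_of_injective N.subtype_injective]

/-- `[N : N⁻ + ker] = [f N : f N⁻]` -/
theorem id1_rel (f : M →+ M) {N K : AddSubgroup M} (h : K ≤ N) :
    (K.map f).relIndex (N.map f) = (K ⊔ (N ⊓ f.ker)).relIndex N := by
  have h1 : (K.map f).relIndex (N.map f) = (K ⊔ f.ker).relIndex (N ⊔ f.ker) :=
    AddSubgroup.relIndex_map_map f K N
  rw [h1]
  have h2 : N ⊔ f.ker = N ⊔ (K ⊔ f.ker) := by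
    rw [← sup_assoc, sup_eq_left.2 h]
  rw [h2, AddSubgroup.relIndex_sup_right, ← AddSubgroup.inf_relIndex_right]
  congr 1
  rw [sup_inf_assoc_of_le _ h, inf_comm]

end Lat

section ID

variable {G M : Type} [CommGroup G] [Finite G] [AddCommGroup M] [Module.Finite ℤ M]
  [Module.Free ℤ M] (A : G →* AddMonoid.End M)

theorem id1_nA {l : ℕ} (hl : l.Prime) {P : Subgroup G}
    (hP : Nat.card P = l) {τ : G} (hτ : τ ∈ P) (hτ1 : τ ≠ 1) (u : M) :
    nA A P u = ∑ i ∈ Finset.range l, ((A τ) ^ i) u := by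
  classical
  have : Fact l.Prime := ⟨hl⟩
  have := Fintype.ofFinite P
  set t : P := ⟨τ, hτ⟩ with ht
  have ht1 : t ≠ 1 := fun h => hτ1 (congrArg Subtype.val h)
  have hz : ∀ x : P, x ∈ Subgroup.zpowers t := fun x => mem_zpowers_of_prime_card hP ht1
  have himg := IsCyclic.image_range_orderOf hz
  have ho : orderOf t = l := by
    rw [orderOf_eq_card_of_forall_mem_zpowers hz, hP]
  rw [nA_sum, ← himg, ho, Finset.sum_image]
  · refine Finset.sum_congr rfl fun i _ => ?_
    rw [← map_pow]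
    rfl
  · intro i hi j hj hij
    have hi' : i < orderOf t := by rw [ho]; simpa using hi
    have hj' : j < orderOf t := by rw [ho]; simpa using hj
    exact pow_injOn_Iio_orderOf hi' hj' hij

theorem id1_comm (g h : G) (u : M) : A g (A h u) = A h (A g u) := by
  have h1 : A g * A h = A h * A g := by rw [← map_mul, ← map_mul, mul_comm]
  exact DFunLike.congr_fun h1 u

theorem id1_stab (L : List (Subgroup G)) (D : Subgroup G) (g : G) {u : M} (hu : u ∈ nty A L D) :
    A g u ∈ nty A L D := by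
  refine ⟨fun h hh => ?_, fun Q hQ => ?_⟩
  · rw [id1_comm, hu.1 h hh]
  · rw [← (nA_basic A Q u).1 g, hu.2 Q hQ, map_zero]

theorem idx_main_pr {l : ℕ} (hl : l.Prime) (L : List (Subgroup G)) {P : Subgroup G}
    (hP : Nat.card P = l) {τ : G} (hτ : τ ∈ P) (hτ1 : τ ≠ 1) :
    nty A (P :: L) ⊥ ⊓ nty A L P = ⊥ ∧
    ∃ ρ : ℕ, Module.finrank ℤ (nty A (P :: L) ⊥) = ρ * (l - 1) ∧
      (nty A (P :: L) ⊥ ⊔ nty A L P).relIndex (nty A L ⊥) *
        (subA A τ (nty A L ⊥)).relIndex (nty A (P :: L) ⊥) = l ^ ρ := by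
  have hfact : Fact l.Prime := ⟨hl⟩
  set N := nty A L ⊥ with hN
  set Nm := nty A (P :: L) ⊥ with hNm
  set Np := nty A L P with hNp
  have hmN : Nm ≤ N := fun u hu => ⟨hu.1, fun Q hQ => hu.2 Q (List.mem_cons_of_mem _ hQ)⟩
  have hker : N ⊓ (A τ - 1 : AddMonoid.End M).ker = Np := by
    ext u
    rw [AddSubgroup.mem_inf]
    constructor
    · rintro ⟨hu, h1⟩
      have h2 : A τ u = u := sub_eq_zero.1 (show A τ u - u = 0 from h1)
      refine ⟨fun g hg => ?_, hu.2⟩
      obtain ⟨i, hi⟩ : (⟨g, hg⟩ : P) ∈ Submonoid.powers (⟨τ, hτ⟩ : P) :=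
        mem_powers_of_prime_card hP (fun h => hτ1 (congrArg Subtype.val h))
      have h3 : τ ^ i = g := congrArg Subtype.val hi
      rw [← h3]
      clear h3 hi
      induction i with
      | zero => rw [pow_zero, map_one]; rfl
      | succ i ih =>
        rw [pow_succ, map_mul]
        show A (τ ^ i) (A τ u) = u
        rw [h2, ih]
    · intro hu
      refine ⟨⟨fun g hg => ?_, hu.2⟩, ?_⟩
      · rw [Subgroup.mem_bot.1 hg, map_one]
        rfl
      · show A τ u - u = 0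
        rw [hu.1 τ hτ, sub_self]
  have hTN : subA A τ N ≤ Nm := by
    rintro _ ⟨u, hu, rfl⟩
    refine ⟨fun g hg => ?_, fun Q hQ => ?_⟩
    · rw [Subgroup.mem_bot.1 hg, map_one]
      rfl
    · show nA A Q (A τ u - u) = 0
      rw [map_sub]
      rcases List.mem_cons.1 hQ with h1 | h1
      · rw [h1, (nA_basic A P u).2.2.2.1 τ hτ, sub_self]
      · rw [← (nA_basic A Q u).1 τ, hu.2 Q h1, map_zero, sub_zero]
  have hcap : Nm ⊓ Np = ⊥ := by
    rw [eq_bot_iff]
    rintro u ⟨h1, h2⟩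
    have h3 := (nA_basic A P u).2.2.2.2.2 h2.1
    rw [h1.2 P List.mem_cons_self, hP] at h3
    have : Module.IsTorsionFree ℤ M := inferInstance
    have h4 : (l : ℤ) • u = 0 := by rw [natCast_zsmul]; exact h3.symm
    rcases smul_eq_zero.1 h4 with h5 | h5
    · exact absurd h5 (by exact_mod_cast hl.ne_zero)
    · exact h5
  refine ⟨hcap, ?_⟩
  obtain ⟨ρ, h1, h2⟩ := id1_sub hl (A τ) Nm (fun u hu => id1_stab A _ _ τ hu) (fun u hu => by
    rw [← id1_nA A hl hP hτ hτ1]
    exact hu.2 P List.mem_cons_self)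
  refine ⟨ρ, h1, ?_⟩
  rw [← h2, ← hker, ← id1_rel (A τ - 1 : AddMonoid.End M) hmN]
  exact AddSubgroup.relIndex_mul_relIndex _ _ _ (AddSubgroup.map_mono hmN) hTN

end ID

end Pool.Agent.CR

namespace Pool.Agent.CR

section
variable {G M : Type} [CommGroup G] [Finite G] [AddCommGroup M] [Module.Finite ℤ M]
  [Module.Free ℤ M] (A : G →* AddMonoid.End M)

theorem idx_main {l : ℕ} (hl : l.Prime) (L : List (Subgroup G)) {P : Subgroup G}
    (hP : Nat.card P = l) {τ : G} (hτ : τ ∈ P) (hτ1 : τ ≠ 1) :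
    nty A (P :: L) ⊥ ⊓ nty A L P = ⊥ ∧
    ∃ ρ : ℕ, Module.finrank ℤ (nty A (P :: L) ⊥) = ρ * (l - 1) ∧
      (nty A (P :: L) ⊥ ⊔ nty A L P).relIndex (nty A L ⊥) *
        (subA A τ (nty A L ⊥)).relIndex (nty A (P :: L) ⊥) = l ^ ρ :=
  @Pool.Agent.CR.idx_main_pr G M _ _ _ _ _ A l hl L P hP τ hτ hτ1

end

end Pool.Agent.CR
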