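import Pool.Agent.Lib_helper17.CRF.D_WA
import Pool.Agent.Lib_helper17.CRF.A_ID1
import Pool.Agent.Lib_helper17.CRF.A_GR2
import Pool.Agent.Lib_helper17.CRF.A_GR3

/-!
# Composite Rubin (CR), block ID2: the Gram determinant version of the index formula
-/

set_option autoImplicit false
set_option linter.unusedSectionVars false

namespace Pool.Agent.CR

section ID

variable {G M : Type} [CommGroup G] [Finite G] [AddCommGroup M] [Module.Finite ℤ M]
  [Module.Free ℤ M] (A : G →* AddMonoid.End M)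

theorem id2_orth (B : M →+ M →+ ℝ) (hB : ∀ g u v, B (A g u) (A g v) = B u v) (P : Subgroup G)
    (u v : M) (hu : nA A P u = 0) (hv : ∀ g ∈ P, A g v = v) : B u v = 0 ∧ B v u = 0 := by
  classical
  have : Fintype P := Fintype.ofFinite P
  have hc : (Fintype.card P : ℝ) ≠ 0 := by
    have : 0 < Fintype.card P := Fintype.card_pos
    positivity
  have h1 : nA A P u = ∑ g : P, A (g : G) u := nA_sum A P u
  constructor
  · have h2 : (Fintype.card P : ℝ) * B u v = 0 := by
      calc (Fintype.card P : ℝ) * B u v = ∑ _g : P, B u v := by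
            rw [Finset.sum_const, nsmul_eq_mul, Finset.card_univ]
        _ = ∑ g : P, B (A (g : G) u) v := by
            refine Finset.sum_congr rfl fun g _ => ?_
            rw [← hB (g : G) u v, hv g g.2]
        _ = B (∑ g : P, A (g : G) u) v := by
            rw [map_sum, AddMonoidHom.finsetSum_apply]
        _ = 0 := by rw [← h1, hu, map_zero, AddMonoidHom.zero_apply]
    exact (mul_eq_zero.1 h2).resolve_left hc
  · have h2 : (Fintype.card P : ℝ) * B v u = 0 := by
      calc (Fintype.card P : ℝ) * B v u = ∑ _g : P, B v u := by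
            rw [Finset.sum_const, nsmul_eq_mul, Finset.card_univ]
        _ = ∑ g : P, B v (A (g : G) u) := by
            refine Finset.sum_congr rfl fun g _ => ?_
            rw [← hB (g : G) v u, hv g g.2]
        _ = B v (∑ g : P, A (g : G) u) := by
            rw [map_sum]
        _ = 0 := by rw [← h1, hu, map_zero]
    exact (mul_eq_zero.1 h2).resolve_left hc

/-- ID2. consequence for Gram determinants: `grm N⁻ * grm N⁺ = [N : N⁻ + N⁺]² grm N` -/
theorem idx_grm_pr (B : M →+ M →+ ℝ) (hB : ∀ g u v, B (A g u) (A g v) = B u v) {l : ℕ}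
    (hl : l.Prime) (L : List (Subgroup G)) {P : Subgroup G} (hP : Nat.card P = l) :
    grm B (nty A (P :: L) ⊥) * grm B (nty A L P) =
      (((nty A (P :: L) ⊥ ⊔ nty A L P).relIndex (nty A L ⊥) : ℕ) : ℝ) ^ 2 *
        grm B (nty A L ⊥) := by
  obtain ⟨τ, hτ, hτ1⟩ : ∃ τ ∈ P, τ ≠ 1 := by
    by_contra hcon
    push Not at hcon
    have : P = ⊥ := (Subgroup.eq_bot_iff_forall P).2 hcon
    rw [this, Subgroup.card_bot] at hP
    exact hl.one_lt.ne hP
  obtain ⟨hinf, ρ, -, hidx⟩ := idx_main A hl L hP hτ hτ1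
  have hle : nty A (P :: L) ⊥ ⊔ nty A L P ≤ nty A L ⊥ := by
    refine sup_le ?_ ?_
    · intro u hu
      exact ⟨hu.1, fun Q hQ => hu.2 Q (List.mem_cons_of_mem P hQ)⟩
    · intro u hu
      refine ⟨fun g hg => ?_, hu.2⟩
      rw [Subgroup.mem_bot] at hg
      exact hu.1 g (hg ▸ P.one_mem)
  have h0 : (nty A (P :: L) ⊥ ⊔ nty A L P).relIndex (nty A L ⊥) ≠ 0 := by
    intro h0
    rw [h0, zero_mul] at hidx
    exact pow_ne_zero ρ hl.ne_zero hidx.symm
  have ho : ∀ u ∈ nty A (P :: L) ⊥, ∀ v ∈ nty A L P, B u v = 0 ∧ B v u = 0 := by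
    intro u hu v hv
    exact id2_orth A B hB P u v (hu.2 P List.mem_cons_self) hv.1
  rw [← grm_sup B hinf (fun u hu v hv => (ho u hu v hv).1) (fun u hu v hv => (ho u hu v hv).2),
    grm_index B hle h0]

end ID

end Pool.Agent.CR

namespace Pool.Agent.CR

section
variable {G M : Type} [CommGroup G] [Finite G] [AddCommGroup M] [Module.Finite ℤ M]
  [Module.Free ℤ M] (A : G →* AddMonoid.End M)

theorem idx_grm (B : M →+ M →+ ℝ) (hB : ∀ g u v, B (A g u) (A g v) = B u v) {l : ℕ}
    (hl : l.Prime) (L : List (Subgroup G)) {P : Subgroup G} (hP : Nat.card P = l) :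
    grm B (nty A (P :: L) ⊥) * grm B (nty A L P) =
      (((nty A (P :: L) ⊥ ⊔ nty A L P).relIndex (nty A L ⊥) : ℕ) : ℝ) ^ 2 *
        grm B (nty A L ⊥) :=
  @Pool.Agent.CR.idx_grm_pr G M _ _ _ _ _ A B hB l hl L P hP

end

end Pool.Agent.CR
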