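import Pool.Agent.Lib_helper17.CRF.D_WA
import Pool.Agent.Lib_helper17.CRF.A_NA

/-!
# Composite Rubin (CR), block YP2: `H^1 = 0` for permutation modules, with types (MP_dd9835_nt)
-/

set_option autoImplicit false
set_option linter.unusedSectionVars false

namespace Pool.Agent.CR

section YP

variable {G Ω : Type} [CommGroup G] [Finite G] [Fintype Ω] (ρ : G →* Equiv.Perm Ω)

/-- a function whose sum over every orbit with `l` elements is one -/
theorem yp2_sel (f : Ω → Ω) {l : ℕ} (hl : l.Prime) (hf : ∀ ω, f^[l] ω = ω) :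
    ∃ e : Ω → ℤ, ∀ ω, f ω ≠ ω → ∑ i ∈ Finset.range l, e (f^[i] ω) = 1 := by
  classical
  let idx : Ω → ℕ := fun ω => (Fintype.equivFin Ω ω : ℕ)
  have hidx : Function.Injective idx := fun a b h =>
    (Fintype.equivFin Ω).injective (Fin.ext h)
  refine ⟨fun ω => if ∀ j, idx ω ≤ idx (f^[j] ω) then 1 else 0, fun ω hω => ?_⟩
  have hper : Function.IsPeriodicPt f l ω := hf ω
  have hmin : Function.minimalPeriod f ω = l := by
    rcases (Nat.dvd_prime hl).1 hper.minimalPeriod_dvd with h | h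
    · exact absurd (Function.minimalPeriod_eq_one_iff_isFixedPt.1 h) hω
    · exact h
  have hinj : ∀ i < l, ∀ j < l, f^[i] ω = f^[j] ω → i = j := by
    intro i hi j hj h
    exact Function.iterate_injOn_Iio_minimalPeriod (by rw [hmin]; exact hi)
      (by rw [hmin]; exact hj) h
  have hmod : ∀ j, f^[j % l] ω = f^[j] ω := fun j => hper.iterate_mod_apply j
  obtain ⟨i₀, hi₀, hle⟩ := Finset.exists_min_image (Finset.range l) (fun i => idx (f^[i] ω))
    ⟨0, Finset.mem_range.2 hl.pos⟩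
  have hall : ∀ j, idx (f^[i₀] ω) ≤ idx (f^[j] ω) := fun j => by
    rw [← hmod j]
    exact hle _ (Finset.mem_range.2 (Nat.mod_lt _ hl.pos))
  rw [Finset.sum_eq_single_of_mem i₀ hi₀]
  · refine if_pos ?_
    intro j
    rw [← Function.iterate_add_apply]
    exact hall _
  · intro i hi hne
    refine if_neg ?_
    intro h
    refine hne (hinj i (Finset.mem_range.1 hi) i₀ (Finset.mem_range.1 hi₀) (hidx ?_))
    refine le_antisymm ?_ (hall i)
    have h1 := h (i₀ + (l - i))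
    rw [← Function.iterate_add_apply] at h1
    have h2 : i₀ + (l - i) + i = i₀ + l := by
      have := Finset.mem_range.1 hi
      omega
    rw [h2, Function.iterate_add_apply, hf ω] at h1
    exact h1

theorem yp2_pow (τ : G) (i : ℕ) (u : Ω → ℤ) (ω : Ω) :
    pmA ρ (τ ^ i) u ω = u ((ρ τ⁻¹)^[i] ω) := by
  show u (ρ (τ ^ i)⁻¹ ω) = _
  rw [← inv_pow, map_pow, Equiv.Perm.iterate_eq_pow]

theorem yp2_nA {l : ℕ} (hl : l.Prime) {P : Subgroup G} (hP : Nat.card P = l) {τ : G}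
    (hτ : τ ∈ P) (hτ1 : τ ≠ 1) (u : Ω → ℤ) (ω : Ω) :
    nA (pmA ρ) P u ω = ∑ i ∈ Finset.range l, u ((ρ τ⁻¹)^[i] ω) := by
  classical
  have := Fintype.ofFinite P
  have hord : orderOf τ = l := by
    have h1 : orderOf (⟨τ, hτ⟩ : P) ∣ Nat.card P := orderOf_dvd_natCard _
    rw [Subgroup.orderOf_mk, hP] at h1
    rcases (Nat.dvd_prime hl).1 h1 with h | h
    · exact absurd (orderOf_eq_one_iff.1 h) hτ1
    · exact h
  let F : Fin l → P := fun i => ⟨τ ^ (i : ℕ), P.pow_mem hτ _⟩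
  have hF : Function.Injective F := by
    intro i j h
    have h1 : τ ^ (i : ℕ) = τ ^ (j : ℕ) := congrArg Subtype.val h
    have h2 := pow_injOn_Iio_orderOf (x := τ) (by rw [hord]; exact i.2)
      (by rw [hord]; exact j.2) h1
    exact Fin.ext h2
  have hFb : Function.Bijective F := by
    rw [Fintype.bijective_iff_injective_and_card]
    refine ⟨hF, ?_⟩
    rw [Fintype.card_fin, ← Nat.card_eq_fintype_card, hP]
  rw [nA_sum, ← hFb.sum_comp, Finset.sum_apply, Finset.sum_range]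
  exact Finset.sum_congr rfl fun i _ => yp2_pow ρ τ i u ω

theorem yp2_cob {l : ℕ} (hl : l.Prime) {P : Subgroup G} (hP : Nat.card P = l) {τ : G}
    (hτ : τ ∈ P) (hτ1 : τ ≠ 1) {u : Ω → ℤ} (hu : nA (pmA ρ) P u = 0) :
    ∃ v : Ω → ℤ, pmA ρ τ v - v = u := by
  classical
  obtain ⟨f, hfd⟩ : ∃ f : Ω → Ω, f = ρ τ⁻¹ := ⟨_, rfl⟩
  have hf : ∀ ω, f^[l] ω = ω := by
    intro ω
    have h1 := yp2_pow ρ τ l (Pi.single ω 1 : Ω → ℤ)
    have h2 : τ ^ l = 1 := by
      have h3 : (⟨τ, hτ⟩ : P) ^ Nat.card P = 1 := pow_card_eq_one'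
      rw [hP] at h3
      exact congrArg Subtype.val h3
    rw [hfd]
    have h4 : (ρ τ⁻¹)^[l] ω = (ρ τ⁻¹ ^ l) ω := by rw [Equiv.Perm.iterate_eq_pow]
    rw [h4, ← map_pow, inv_pow, h2, inv_one, map_one]
    rfl
  obtain ⟨e, he⟩ := yp2_sel f hl hf
  have hsum : ∀ ω, ∑ i ∈ Finset.range l, u (f^[i] ω) = 0 := by
    intro ω
    rw [hfd, ← yp2_nA ρ hl hP hτ hτ1 u ω, hu]
    rfl
  have hfix : ∀ ω, f ω = ω → u ω = 0 := by
    intro ω h
    have h1 : ∀ i, f^[i] ω = ω := fun i => Function.iterate_fixed h i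
    have h2 := hsum ω
    simp only [h1, Finset.sum_const, Finset.card_range, nsmul_eq_mul] at h2
    rcases mul_eq_zero.1 h2 with h3 | h3
    · exact absurd (by exact_mod_cast h3) hl.ne_zero
    · exact h3
  -- partial sums
  obtain ⟨c, hc⟩ : ∃ c : ℕ → Ω → ℤ, c = fun i ω => ∑ j ∈ Finset.range i, u (f^[j] ω) := ⟨_, rfl⟩
  have hc0 : ∀ ω, c 0 ω = 0 := fun ω => by rw [hc]; simp
  have hcl : ∀ ω, c l ω = 0 := fun ω => by rw [hc]; exact hsum ω
  have hcs : ∀ i ω, c (i + 1) ω = u ω + c i (f ω) := by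
    intro i ω
    rw [hc]
    dsimp only
    rw [Finset.sum_range_succ']
    rw [add_comm]
    rfl
  refine ⟨fun ω => -∑ i ∈ Finset.range l, e (f^[i] ω) * c i ω, ?_⟩
  funext ω
  show -∑ i ∈ Finset.range l, e (f^[i] (ρ τ⁻¹ ω)) * c i (ρ τ⁻¹ ω) -
    -∑ i ∈ Finset.range l, e (f^[i] ω) * c i ω = u ω
  rw [← hfd]
  have h1 : ∑ i ∈ Finset.range l, e (f^[i] (f ω)) * c i (f ω) =
      ∑ i ∈ Finset.range l, e (f^[i + 1] ω) * (c (i + 1) ω - u ω) := by
    refine Finset.sum_congr rfl fun i _ => ?_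
    rw [Function.iterate_succ_apply, hcs i ω, add_sub_cancel_left]
  have h2 : ∑ i ∈ Finset.range l, e (f^[i + 1] ω) * c (i + 1) ω =
      ∑ i ∈ Finset.range l, e (f^[i] ω) * c i ω := by
    have h3 := Finset.sum_range_succ' (fun i => e (f^[i] ω) * c i ω) l
    have h4 := Finset.sum_range_succ (fun i => e (f^[i] ω) * c i ω) l
    rw [h4, hcl ω, hc0 ω, mul_zero, mul_zero, add_zero, add_zero] at h3
    exact h3.symm
  have h5 : ∑ i ∈ Finset.range l, e (f^[i + 1] ω) = ∑ i ∈ Finset.range l, e (f^[i] ω) := by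
    have h3 := Finset.sum_range_succ' (fun i => e (f^[i] ω)) l
    have h4 := Finset.sum_range_succ (fun i => e (f^[i] ω)) l
    rw [h4, hf ω] at h3
    exact (add_right_cancel h3).symm
  have h6 : (∑ i ∈ Finset.range l, e (f^[i] ω)) * u ω = u ω := by
    by_cases h : f ω = ω
    · rw [hfix ω h, mul_zero]
    · rw [he ω h, one_mul]
  rw [h1]
  simp only [mul_sub]
  rw [Finset.sum_sub_distrib, h2, ← Finset.sum_mul, h5, h6]
  ring

theorem yp2_prod {l : ℕ} (hl : l.Prime) (L : List (Subgroup G))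
    (hL : ∀ P ∈ L, (Nat.card P).Prime ∧ Nat.card P ≠ l) :
    ¬ l ∣ (L.map fun P : Subgroup G => Nat.card P).prod := by
  induction L with
  | nil => exact ndvd_one hl
  | cons P L ih =>
    rw [List.map_cons, List.prod_cons]
    refine ndvd_mul hl ?_ (ih fun P hP => hL P (List.mem_cons_of_mem _ hP))
    intro h
    exact (hL P List.mem_cons_self).2
      ((Nat.prime_dvd_prime_iff_eq hl (hL P List.mem_cons_self).1).1 h).symm

/-- a subgroup which contains the multiples by `m` has index prime to `l` -/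
theorem yp2_idx {l m : ℕ} (hl : l.Prime) (hm : ¬ l ∣ m) (N K : AddSubgroup (Ω → ℤ))
    (h : ∀ u ∈ K, m • u ∈ N) : ¬ l ∣ N.relIndex K := by
  have : Fact l.Prime := ⟨hl⟩
  have hm0 : m ≠ 0 := ndvd_ne hm
  let Q := K ⧸ N.addSubgroupOf K
  have hQ : ∀ x : Q, m • x = 0 := by
    intro x
    obtain ⟨u, rfl⟩ := QuotientAddGroup.mk_surjective x
    rw [← QuotientAddGroup.mk_nsmul, QuotientAddGroup.eq_zero_iff, AddSubgroup.mem_addSubgroupOf]
    exact h u u.2
  have : Module.Finite ℤ K :=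
    inferInstanceAs (Module.Finite ℤ (AddSubgroup.toIntSubmodule K))
  have : Module.Finite ℤ Q :=
    Module.Finite.of_surjective (QuotientAddGroup.mk' (N.addSubgroupOf K)).toIntLinearMap
      (QuotientAddGroup.mk'_surjective _)
  have : Finite Q := by
    refine Module.finite_of_fg_torsion Q fun x => ?_
    refine ⟨⟨(m : ℤ), mem_nonZeroDivisors_of_ne_zero (by exact_mod_cast hm0)⟩, ?_⟩
    show (m : ℤ) • x = 0
    rw [natCast_zsmul]
    exact hQ x
  intro hdvd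
  obtain ⟨x, hx⟩ := exists_prime_addOrderOf_dvd_card' (G := Q) l hdvd
  exact hm (hx ▸ addOrderOf_dvd_of_nsmul_eq_zero (hQ x))

theorem h_perm_pr {l : ℕ} (hl : l.Prime) (L : List (Subgroup G))
    (hL : ∀ P ∈ L, (Nat.card P).Prime ∧ Nat.card P ≠ l) {P : Subgroup G}
    (hP : Nat.card P = l) {τ : G} (hτ : τ ∈ P) (hτ1 : τ ≠ 1) :
    ¬ l ∣ (subA (pmA ρ) τ (nty (pmA ρ) L ⊥)).relIndex (nty (pmA ρ) (P :: L) ⊥) := by
  refine yp2_idx hl (yp2_prod hl L hL) _ _ fun u hu => ?_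
  obtain ⟨v, hv⟩ := yp2_cob ρ hl hP hτ hτ1 (hu.2 P List.mem_cons_self)
  obtain ⟨-, -, -, h4⟩ := thA_basic (pmA ρ) L u
  obtain ⟨h1, -, h3, -⟩ := thA_basic (pmA ρ) L v
  rw [← h4 fun P' hP' => hu.2 P' (List.mem_cons_of_mem _ hP')]
  refine ⟨thA (pmA ρ) L v, h3, ?_⟩
  show pmA ρ τ (thA (pmA ρ) L v) - thA (pmA ρ) L v = _
  rw [h1 τ, ← map_sub, hv]

end YP

end Pool.Agent.CR

namespace Pool.Agent.CR

section
variable {G Ω : Type} [CommGroup G] [Finite G] [Fintype Ω] (ρ : G →* Equiv.Perm Ω)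

theorem h_perm {l : ℕ} (hl : l.Prime) (L : List (Subgroup G))
    (hL : ∀ P ∈ L, (Nat.card P).Prime ∧ Nat.card P ≠ l) {P : Subgroup G}
    (hP : Nat.card P = l) {τ : G} (hτ : τ ∈ P) (hτ1 : τ ≠ 1) :
    ¬ l ∣ (subA (pmA ρ) τ (nty (pmA ρ) L ⊥)).relIndex (nty (pmA ρ) (P :: L) ⊥) :=
  @Pool.Agent.CR.h_perm_pr G Ω _ _ _ ρ l hl L hL P hP τ hτ hτ1

end

end Pool.Agent.CR
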