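import Pool.Agent.Lib_helper17.CRF.D_WN
import Pool.Agent.Lib_helper17.CRF.A_NA
import Pool.Agent.Lib_helper17.CRF.N_CL1
import Pool.Agent.Lib_helper17.CRF.N_LD3
import Pool.Agent.Lib_helper17.CRF.N_CL0

/-!
# Composite Rubin (CR): block CL3 (capitulation with types)
-/

set_option autoImplicit false
set_option linter.unusedSectionVars false

namespace Pool.Agent.CR

/-! ## Actions -/

section Gen

variable {G M M' : Type} [CommGroup G] [Finite G] [AddCommGroup M] [AddCommGroup M']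
  (A : G →* AddMonoid.End M) (A' : G →* AddMonoid.End M')

theorem cl3_nA_map (f : M →+ M') (hf : ∀ g u, f (A g u) = A' g (f u)) (Q : Subgroup G) (u : M) :
    f (nA A Q u) = nA A' Q (f u) := by
  have := Fintype.ofFinite Q
  rw [nA_sum, nA_sum, map_sum]
  exact Finset.sum_congr rfl fun g _ => hf _ _

theorem cl3_thA_nil (u : M) : thA A [] u = u := rfl

theorem cl3_thA_cons (Q : Subgroup G) (L : List (Subgroup G)) (u : M) :
    thA A (Q :: L) u = Nat.card Q • thA A L u - nA A Q (thA A L u) := by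
  unfold thA
  rw [List.map_cons, List.prod_cons]
  rfl

theorem cl3_thA_map (f : M →+ M') (hf : ∀ g u, f (A g u) = A' g (f u)) (L : List (Subgroup G))
    (u : M) : f (thA A L u) = thA A' L (f u) := by
  induction L with
  | nil => rfl
  | cons Q L ih =>
    rw [cl3_thA_cons, cl3_thA_cons, map_sub, map_nsmul, ih, cl3_nA_map A A' f hf, ih]

theorem cl3_nA_mem (N : AddSubgroup M) (hN : ∀ g, ∀ u ∈ N, A g u ∈ N) (Q : Subgroup G) {u : M}
    (hu : u ∈ N) : nA A Q u ∈ N := by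
  have := Fintype.ofFinite Q
  rw [nA_sum]
  exact N.sum_mem fun g _ => hN _ _ hu

theorem cl3_thA_mem (N : AddSubgroup M) (hN : ∀ g, ∀ u ∈ N, A g u ∈ N) (L : List (Subgroup G))
    {u : M} (hu : u ∈ N) : thA A L u ∈ N := by
  induction L with
  | nil => exact hu
  | cons Q L ih =>
    rw [cl3_thA_cons]
    exact N.sub_mem (N.nsmul_mem ih _) (cl3_nA_mem A N hN Q ih)

theorem cl3_thA_sub (N : AddSubgroup M) (hN : ∀ g, ∀ u ∈ N, A g u ∈ N) (L : List (Subgroup G))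
    {u : M} (hu : ∀ Q ∈ L, nA A Q u ∈ N) :
    thA A L u - (L.map fun P : Subgroup G => Nat.card P).prod • u ∈ N := by
  induction L with
  | nil =>
    rw [cl3_thA_nil, List.map_nil, List.prod_nil, one_smul, sub_self]
    exact N.zero_mem
  | cons Q L ih =>
    have h1 := ih fun Q' hQ' => hu Q' (List.mem_cons_of_mem _ hQ')
    have h2 : nA A Q (thA A L u) ∈ N := by
      rw [(thA_basic A L u).2.1 Q]
      exact cl3_thA_mem A N hN L (hu Q List.mem_cons_self)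
    rw [cl3_thA_cons, List.map_cons, List.prod_cons]
    have e : Nat.card Q • thA A L u - nA A Q (thA A L u) -
        (Nat.card Q * (L.map fun P : Subgroup G => Nat.card P).prod) • u =
        Nat.card Q • (thA A L u - (L.map fun P : Subgroup G => Nat.card P).prod • u) -
          nA A Q (thA A L u) := by
      rw [mul_smul, smul_sub]
      abel
    rw [e]
    exact N.sub_mem (N.nsmul_mem h1 _) h2

end Gen

/-! ## Indices -/

section Ind

theorem cl3_prime {M : Type} [AddCommGroup M] (N N' : AddSubgroup M) {B l : ℕ} (hl : l.Prime)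
    (hB : ¬ l ∣ B) (h : ∀ u ∈ N', B • u ∈ N) (h0 : N.relIndex N' ≠ 0) : ¬ l ∣ N.relIndex N' := by
  intro hdvd
  have hfact : Fact l.Prime := ⟨hl⟩
  have hc : Nat.card (N' ⧸ N.addSubgroupOf N') = N.relIndex N' := rfl
  have hfin : Finite (N' ⧸ N.addSubgroupOf N') := by
    apply Nat.finite_of_card_ne_zero
    rw [hc]
    exact h0
  rw [← hc] at hdvd
  obtain ⟨x, hx⟩ := exists_prime_addOrderOf_dvd_card' l hdvd
  have h1 : B • x = 0 := by
    induction x using QuotientAddGroup.induction_on with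
    | H u =>
      rw [← QuotientAddGroup.mk_nsmul, QuotientAddGroup.eq_zero_iff, AddSubgroup.mem_addSubgroupOf]
      exact h u.1 u.2
  rw [← addOrderOf_dvd_iff_nsmul_eq_zero, hx] at h1
  exact hB h1

theorem cl3_index {X Y M : Type} [AddCommGroup X] [AddCommGroup Y] [AddCommGroup M] (f : X →+ M)
    (θ : X →+ Y) : (θ.ker.map f).relIndex f.range ∣ Nat.card Y := by
  have e1 : f.range = (⊤ : AddSubgroup X).map f := by
    rw [AddMonoidHom.range_eq_map]
  rw [e1, AddSubgroup.relIndex_map_map, top_sup_eq, AddSubgroup.relIndex_top_right]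
  refine (AddSubgroup.index_dvd_of_le le_sup_left).trans ?_
  rw [AddSubgroup.index_ker]
  exact AddSubgroup.card_addSubgroup_dvd_card _

theorem cl3_mono {M : Type} [AddCommGroup M] (N K L : AddSubgroup M) (h : K ≤ L) :
    N.relIndex K ∣ N.relIndex L := by
  rw [← AddSubgroup.relIndex_addSubgroupOf h]
  exact AddSubgroup.relIndex_dvd_index_of_normal _ _

end Ind

/-! ## Number fields -/

section NF3

open Pool.Agent.RSK Pool.Agent.RS2 Pool.Agent.RS3 Pool.Agent.SY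
open NumberField IsDedekindDomain Filter Topology Complex

variable {F K : Type} [Field F] [NumberField F] [Field K] [NumberField K] [Algebra F K]
  [IsGalois F K] {G : Type} [CommGroup G] [Fintype G] {ι : G ≃* (K ≃ₐ[F] K)}
  {S T : Finset (HeightOneSpectrum (𝓞 F))} {r : ℕ} {w : Fin r → Pl K}
  {fr : HeightOneSpectrum (𝓞 F) → G}

/-- the action on the multiplicative group -/
noncomputable def cl3_A (ι : G ≃* (K ≃ₐ[F] K)) : G →* AddMonoid.End (Additive Kˣ) where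
  toFun g := AddMonoidHom.mk' (fun x => Additive.ofMul (ι g • Additive.toMul x)) (fun a b => by
    show Additive.ofMul (ι g • (Additive.toMul a * Additive.toMul b)) = _
    rw [smul_mul']
    rfl)
  map_one' := by
    refine AddMonoidHom.ext fun x => ?_
    show Additive.ofMul (ι 1 • Additive.toMul x) = x
    rw [map_one, one_smul]
    rfl
  map_mul' g h := by
    refine AddMonoidHom.ext fun x => ?_
    show Additive.ofMul (ι (g * h) • Additive.toMul x) =
      Additive.ofMul (ι g • (ι h • Additive.toMul x))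
    rw [map_mul, mul_smul]

/-- the action on pairs -/
noncomputable def cl3_B (ι : G ≃* (K ≃ₐ[F] K)) :
    G →* AddMonoid.End ((HeightOneSpectrum (𝓞 K) →₀ ℤ) × Additive Kˣ) where
  toFun g := AddMonoidHom.prodMap (dvA ι g) (cl3_A ι g)
  map_one' := by
    refine AddMonoidHom.ext fun p => ?_
    show (dvA ι 1 p.1, cl3_A ι 1 p.2) = p
    rw [map_one, map_one]
    rfl
  map_mul' g h := by
    refine AddMonoidHom.ext fun p => ?_
    show (dvA ι (g * h) p.1, cl3_A ι (g * h) p.2) = (dvA ι g (dvA ι h p.1), cl3_A ι g (cl3_A ι h p.2))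
    rw [map_mul, map_mul]
    rfl

/-- the pairs `(E, x)` with `E = div x` outside `S` and `x ≡ 1 mod T` -/
noncomputable def cl3_C (K : Type) [Field K] [NumberField K] [Algebra F K]
    (S T : Finset (HeightOneSpectrum (𝓞 F))) :
    AddSubgroup ((HeightOneSpectrum (𝓞 K) →₀ ℤ) × Additive Kˣ) where
  carrier := {p | Additive.toMul p.2 ∈ KT (ovr K T) ∧
    ∀ W, W ∉ ovr K S → p.1 W = ordv W ((Additive.toMul p.2 : Kˣ) : K)}
  zero_mem' := ⟨(KT _).one_mem, fun W _ => by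
    show (0 : ℤ) = ordv W ((1 : Kˣ) : K)
    rw [Units.val_one, ordv_one]⟩
  add_mem' := by
    rintro ⟨a, x⟩ ⟨b, y⟩ ⟨hx, hax⟩ ⟨hy, hby⟩
    refine ⟨(KT _).mul_mem hx hy, fun W hW => ?_⟩
    show (a + b) W = ordv W ((Additive.toMul x * Additive.toMul y : Kˣ) : K)
    rw [Finsupp.add_apply, hax W hW, hby W hW, ordv_mul]
  neg_mem' := by
    rintro ⟨a, x⟩ ⟨hx, hax⟩
    refine ⟨(KT _).inv_mem hx, fun W hW => ?_⟩
    show (-a) W = ordv W (((Additive.toMul x)⁻¹ : Kˣ) : K)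
    rw [Finsupp.neg_apply, hax W hW, ordv_inv]

theorem cl3_kt (σ : K ≃ₐ[F] K) {x : Kˣ} (hx : x ∈ KT (ovr K T)) : σ • x ∈ KT (ovr K T) := by
  intro W hW
  have hs : ((σ • x : Kˣ) : K) = σ (x : K) := rfl
  have e : ((σ • x : Kˣ) : K) - 1 = σ ((x : K) - 1) := by rw [hs, map_sub, map_one]
  have key : W.valuation K (σ ((x : K) - 1)) =
      (HeightOneSpectrum.equivOfRingEquiv (RingOfIntegers.mapRingEquiv σ.symm.toRingEquiv) W).valuation
        K ((x : K) - 1) := by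
    have h := val_equiv σ.symm.toRingEquiv W (σ ((x : K) - 1))
    have h2 : σ.symm.toRingEquiv (σ ((x : K) - 1)) = (x : K) - 1 := σ.symm_apply_apply _
    rw [h2] at h
    exact h.symm
  rw [e, key]
  refine hx _ ?_
  rw [mem_ovr, under_equiv]
  rwa [mem_ovr] at hW

theorem cl3_stable (g : G) {p : (HeightOneSpectrum (𝓞 K) →₀ ℤ) × Additive Kˣ}
    (hp : p ∈ cl3_C K S T) : cl3_B ι g p ∈ cl3_C K S T := by
  refine ⟨cl3_kt _ hp.1, fun W hW => ?_⟩
  obtain ⟨W', rfl⟩ := (plE ι g).surjective W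
  have h1 : W' ∉ ovr K S := by
    rw [mem_ovr] at hW ⊢
    have := under_equiv (ι g) W'
    show W'.under (𝓞 F) ∉ S
    rw [← this]
    exact hW
  have h2 : (dvA ι g p.1) (plE ι g W') = p.1 W' :=
    Finsupp.mapDomain_apply (plE ι g).injective p.1 W'
  have h3 : ordv (plE ι g W') (ι g ((Additive.toMul p.2 : Kˣ) : K)) =
      ordv W' ((Additive.toMul p.2 : Kˣ) : K) := ordv_act (ι g) W' _
  show (dvA ι g p.1) (plE ι g W') = ordv (plE ι g W') (ι g ((Additive.toMul p.2 : Kˣ) : K))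
  rw [h2, h3]
  exact hp.2 W' h1

theorem cl3_un {x : Kˣ} (h : (0, Additive.ofMul x) ∈ cl3_C K S T) :
    x ∈ Un (ovr K S) (ovr K T) := by
  refine ⟨fun W hW => ?_, h.1⟩
  have h1 : (0 : ℤ) = ordv W (x : K) := h.2 W hW
  unfold ordv at h1
  have h0 : W.valuation K (x : K) ≠ 0 := (map_ne_zero _).2 x.ne_zero
  have h2 : WithZero.log (W.valuation K (x : K)) = 0 := by linarith
  rw [← WithZero.exp_log h0, h2]
  rfl

theorem cl3_ordv {x : Kˣ} (h : x ∈ Un (ovr K S) (ovr K T)) {W : HeightOneSpectrum (𝓞 K)}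
    (hW : W ∉ ovr K S) : ordv W (x : K) = 0 := by
  unfold ordv
  rw [h.1 W hW]
  simp

/-- the inclusion of the units -/
noncomputable def cl3_v (ι : G ≃* (K ≃ₐ[F] K)) (S T : Finset (HeightOneSpectrum (𝓞 F))) :
    UM ι S T →+ Additive Kˣ :=
  AddMonoidHom.mk' (fun u => Additive.ofMul u.val) (fun _ _ => rfl)

theorem cl3_v_inj {u v : UM ι S T} (h : cl3_v ι S T u = cl3_v ι S T v) : u = v :=
  UM.ext (Additive.ofMul.injective h)

theorem cl3_v_act (g : G) (u : UM ι S T) :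
    cl3_v ι S T (smA G (UM ι S T) g u) = cl3_A ι g (cl3_v ι S T u) := by
  show Additive.ofMul (MonoidAlgebra.single g (1 : ℤ) • u).val = Additive.ofMul (ι g • u.val)
  rw [um_single_smul]

theorem cl3_mem {P : Subgroup G} {τ : G} (hτ : τ ∈ P)
    {p : (HeightOneSpectrum (𝓞 K) →₀ ℤ) × Additive Kˣ} (hp : p ∈ cl3_C K S T)
    (hP : p.1 ∈ DvI ι T P) :
    (ι τ • Additive.toMul p.2) * (Additive.toMul p.2)⁻¹ ∈ Un (ovr K S) (ovr K T) := by
  refine cl3_un ?_
  have h1 := (cl3_C K S T).sub_mem (cl3_stable (ι := ι) τ hp) hp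
  have h2 : cl3_B ι τ p - p =
      (0, Additive.ofMul ((ι τ • Additive.toMul p.2) * (Additive.toMul p.2)⁻¹)) := by
    refine Prod.ext ?_ ?_
    · show dvA ι τ p.1 - p.1 = 0
      rw [hP.2 τ hτ, sub_self]
    · show cl3_A ι τ p.2 - p.2 = _
      rw [sub_eq_add_neg]
      rfl
  rwa [h2] at h1

/-- the pairs `(E, x)` with `E` in the type -/
noncomputable def cl3_G (ι : G ≃* (K ≃ₐ[F] K)) (S T : Finset (HeightOneSpectrum (𝓞 F)))
    (L : List (Subgroup G)) (P : Subgroup G) :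
    AddSubgroup ((HeightOneSpectrum (𝓞 K) →₀ ℤ) × Additive Kˣ) :=
  cl3_C K S T ⊓
    (rty (dvA ι) L ⊥ (PrI ι S T P) (DvI ι T P)).comap (AddMonoidHom.fst _ _)

/-- `(E, x) ↦ τ(x) / x` -/
noncomputable def cl3_mu {L : List (Subgroup G)} {P : Subgroup G} {τ : G} (hτ : τ ∈ P) :
    cl3_G ι S T L P →+ UM ι S T :=
  AddMonoidHom.mk' (fun p => UM.mk _ (cl3_mem hτ p.2.1 p.2.2.1)) (by
    intro p q
    refine UM.ext ?_
    show (ι τ • (Additive.toMul p.1.2 * Additive.toMul q.1.2)) *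
        (Additive.toMul p.1.2 * Additive.toMul q.1.2)⁻¹ =
      ((ι τ • Additive.toMul p.1.2) * (Additive.toMul p.1.2)⁻¹) *
        ((ι τ • Additive.toMul q.1.2) * (Additive.toMul q.1.2)⁻¹)
    rw [smul_mul', mul_inv]
    exact mul_mul_mul_comm _ _ _ _)

theorem cl3_v_mu {L : List (Subgroup G)} {P : Subgroup G} {τ : G} (hτ : τ ∈ P)
    (p : cl3_G ι S T L P) :
    cl3_v ι S T (cl3_mu hτ p) = cl3_A ι τ p.1.2 - p.1.2 := by
  rw [sub_eq_add_neg]
  rfl

theorem cl3_nty {L : List (Subgroup G)} {P : Subgroup G} {τ : G} (hτ : τ ∈ P)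
    (p : cl3_G ι S T L P) :
    thA (smA G (UM ι S T)) L (cl3_mu hτ p) ∈ nty (smA G (UM ι S T)) (P :: L) ⊥ := by
  have h := thA_basic (smA G (UM ι S T)) L (cl3_mu hτ p)
  refine ⟨h.2.2.1.1, fun Q hQ => ?_⟩
  rcases List.mem_cons.1 hQ with rfl | hQ
  · rw [h.2.1]
    have h1 : nA (smA G (UM ι S T)) Q (cl3_mu hτ p) = 0 := by
      refine cl3_v_inj ?_
      rw [cl3_nA_map (smA G (UM ι S T)) (cl3_A ι) (cl3_v ι S T) cl3_v_act, cl3_v_mu, map_sub,
        (nA_basic (cl3_A ι) Q p.1.2).2.2.2.1 τ hτ, sub_self, map_zero]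
    rw [h1, map_zero]
  · exact h.2.2.1.2 Q hQ

/-- the map of the kernel of capitulation -/
noncomputable def cl3_th {L : List (Subgroup G)} {P : Subgroup G} {τ : G} (hτ : τ ∈ P) :
    cl3_G ι S T L P →+ nty (smA G (UM ι S T)) (P :: L) ⊥ ⧸
      ((subA (smA G (UM ι S T)) τ (nty (smA G (UM ι S T)) L ⊥)).addSubgroupOf
        (nty (smA G (UM ι S T)) (P :: L) ⊥)) :=
  (QuotientAddGroup.mk' _).comp
    (AddMonoidHom.mk' (fun p => (⟨thA (smA G (UM ι S T)) L (cl3_mu hτ p), cl3_nty hτ p⟩ :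
      nty (smA G (UM ι S T)) (P :: L) ⊥)) (by
        intro p q
        refine Subtype.ext ?_
        show thA (smA G (UM ι S T)) L (cl3_mu hτ (p + q)) =
          thA (smA G (UM ι S T)) L (cl3_mu hτ p) + thA (smA G (UM ι S T)) L (cl3_mu hτ q)
        rw [map_add, map_add]))

theorem cl3_th_zero {L : List (Subgroup G)} {P : Subgroup G} {τ : G} (hτ : τ ∈ P)
    (p : cl3_G ι S T L P) : cl3_th hτ p = 0 ↔ thA (smA G (UM ι S T)) L (cl3_mu hτ p) ∈
      subA (smA G (UM ι S T)) τ (nty (smA G (UM ι S T)) L ⊥) := by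
  show (QuotientAddGroup.mk (⟨thA (smA G (UM ι S T)) L (cl3_mu hτ p), cl3_nty hτ p⟩ :
    nty (smA G (UM ι S T)) (P :: L) ⊥) : _ ⧸ _) = 0 ↔ _
  rw [QuotientAddGroup.eq_zero_iff, AddSubgroup.mem_addSubgroupOf]

theorem cl3_pow {P : Subgroup G} (hP : (Nat.card P).Prime) {τ : G} (hτ : τ ∈ P) (hτ1 : τ ≠ 1)
    {g : G} (hg : g ∈ P) : ∃ n : ℕ, τ ^ n = g := by
  have : Fact (Nat.card P).Prime := ⟨hP⟩
  have h1 : (⟨τ, hτ⟩ : P) ≠ 1 := fun h => hτ1 (congrArg Subtype.val h)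
  have h : (⟨g, hg⟩ : P) ∈ Subgroup.zpowers (⟨τ, hτ⟩ : P) := mem_zpowers_of_prime_card rfl h1
  obtain ⟨n, hn⟩ := (mem_powers_iff_mem_zpowers (x := (⟨τ, hτ⟩ : P)) (y := ⟨g, hg⟩)).2 h
  exact ⟨n, congrArg Subtype.val hn⟩

/-- the kernel is killed by the product of the orders -/
theorem cl3_ker {L : List (Subgroup G)} {P : Subgroup G} (hP : (Nat.card P).Prime) {τ : G}
    (hτ : τ ∈ P) (hτ1 : τ ≠ 1) (p : cl3_G ι S T L P) (h : cl3_th hτ p = 0) :
    (L.map fun P : Subgroup G => Nat.card P).prod • p.1.1 ∈ PrI ι S T P := by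
  rw [cl3_th_zero] at h
  obtain ⟨u, hu, hu2⟩ := h
  have hu3 : smA G (UM ι S T) τ u - u = thA (smA G (UM ι S T)) L (cl3_mu hτ p) := hu2
  obtain ⟨hst1, hst2, hst3, -⟩ := cl_stable ι S T P
  -- the element `α'`
  set a : Additive Kˣ := thA (cl3_A ι) L p.1.2 - cl3_v ι S T u with ha
  have hτa : cl3_A ι τ a = a := by
    have e1 : cl3_A ι τ (cl3_v ι S T u) - cl3_v ι S T u =
        thA (cl3_A ι) L (cl3_A ι τ p.1.2 - p.1.2) := by
      rw [← cl3_v_act, ← map_sub, hu3,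
        cl3_thA_map (smA G (UM ι S T)) (cl3_A ι) (cl3_v ι S T) cl3_v_act, cl3_v_mu]
    have e2 : cl3_A ι τ (thA (cl3_A ι) L p.1.2) = thA (cl3_A ι) L (cl3_A ι τ p.1.2) :=
      (thA_basic (cl3_A ι) L p.1.2).1 τ
    rw [ha, map_sub, e2]
    rw [map_sub] at e1
    have e3 : cl3_A ι τ (cl3_v ι S T u) = thA (cl3_A ι) L (cl3_A ι τ p.1.2) -
        thA (cl3_A ι) L p.1.2 + cl3_v ι S T u := by
      rw [← e1]
      abel
    rw [e3]
    abel
  have hga : ∀ g ∈ P, cl3_A ι g a = a := by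
    intro g hg
    obtain ⟨n, rfl⟩ := cl3_pow hP hτ hτ1 hg
    induction n with
    | zero => rw [pow_zero, map_one]; rfl
    | succ n ih =>
      rw [pow_succ, map_mul]
      show cl3_A ι (τ ^ n) (cl3_A ι τ a) = a
      rw [hτa]
      exact ih (P.pow_mem hτ n)
  have hC := cl3_thA_mem (cl3_B ι) (cl3_C K S T) (fun g p hp => cl3_stable g hp) L p.2.1
  have e1 : (thA (cl3_B ι) L p.1).1 = thA (dvA ι) L p.1.1 :=
    cl3_thA_map (cl3_B ι) (dvA ι) (AddMonoidHom.fst _ _) (fun _ _ => rfl) L p.1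
  have e2 : (thA (cl3_B ι) L p.1).2 = thA (cl3_A ι) L p.1.2 :=
    cl3_thA_map (cl3_B ι) (cl3_A ι) (AddMonoidHom.snd _ _) (fun _ _ => rfl) L p.1
  have hmem : thA (dvA ι) L p.1.1 ∈ PrI ι S T P := by
    refine ⟨cl3_thA_mem (dvA ι) (DvI ι T P) hst3 L p.2.2.1, Additive.toMul a, ?_, ?_, ?_⟩
    · have h1 := hC.1
      rw [e2] at h1
      have h2 := u.val_mem.2
      exact (KT _).mul_mem h1 ((KT _).inv_mem h2)
    · intro g hg
      exact congrArg (fun z : Additive Kˣ => ((Additive.toMul z : Kˣ) : K)) (hga g hg)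
    · intro W hW
      have h1 := hC.2 W hW
      rw [e1, e2] at h1
      rw [h1]
      have h2 : Additive.toMul a = Additive.toMul (thA (cl3_A ι) L p.1.2) * (u.val)⁻¹ := by
        rw [ha, sub_eq_add_neg]
        rfl
      rw [h2, ordv_mul, ordv_inv, cl3_ordv u.val_mem hW]
      ring
  have hsub : thA (dvA ι) L p.1.1 - (L.map fun P : Subgroup G => Nat.card P).prod • p.1.1 ∈
      PrI ι S T P := cl3_thA_sub (dvA ι) (PrI ι S T P) hst2 L p.2.2.2.2
  have := (PrI ι S T P).sub_mem hmem hsub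
  rwa [sub_sub_cancel] at this

theorem cl_pos_pr (hD : Data ι S T r w fr) {l : ℕ} (hl : l.Prime) {L : List (Subgroup G)}
    (hL : ∀ P ∈ L, (Nat.card P).Prime ∧ Nat.card P ≠ l) {P : Subgroup G} (hP : Nat.card P = l)
    {τ : G} (hτ : τ ∈ P) (hτ1 : τ ≠ 1) :
    ∃ k : ℕ, ¬ l ∣ k ∧
      (PrI ι S T P).relIndex (rty (dvA ι) L ⊥ (PrI ι S T P) (DvI ι T P)) ∣
        k * ((subA (smA G (UM ι S T)) τ (nty (smA G (UM ι S T)) L ⊥)).relIndex
          (nty (smA G (UM ι S T)) (P :: L) ⊥) *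
            (PrI ι S T ⊥).relIndex (rty (dvA ι) L ⊥ (PrI ι S T ⊥) (DvI ι T ⊥))) := by
  obtain ⟨hst1, hst2, hst3, -⟩ := cl_stable ι S T P
  obtain ⟨-, -, -, hst4⟩ := cl_stable ι S T (⊥ : Subgroup G)
  obtain ⟨hDle, hPle⟩ := hst4 P bot_le
  set N₁ := rty (dvA ι) L ⊥ (PrI ι S T P) (DvI ι T P) with hN₁
  set N₀ := rty (dvA ι) L ⊥ (PrI ι S T ⊥) (DvI ι T ⊥) with hN₀
  let f : cl3_G ι S T L P →+ (HeightOneSpectrum (𝓞 K) →₀ ℤ) :=
    (AddMonoidHom.fst _ _).comp (cl3_G ι S T L P).subtype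
  have hf : ∀ p, f p = p.1.1 := fun _ => rfl
  have hN10 : N₁ ≤ N₀ := fun E hE => ⟨hDle hE.1, fun g hg => hPle (hE.2.1 g hg),
    fun Q hQ => hPle (hE.2.2 Q hQ)⟩
  have h1 : PrI ι S T P ≤ (cl3_th hτ : cl3_G ι S T L P →+ _).ker.map f := by
    intro E hE
    obtain ⟨hE1, x, hx, hxP, hxE⟩ := hE
    have hp : ((E, Additive.ofMul x) : (HeightOneSpectrum (𝓞 K) →₀ ℤ) × Additive Kˣ) ∈
        cl3_G ι S T L P := by
      refine ⟨⟨hx, hxE⟩, hE1, fun g hg => ?_, fun Q hQ => ?_⟩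
      · rw [Subgroup.mem_bot] at hg
        subst hg
        rw [map_one]
        show E - E ∈ _
        rw [sub_self]
        exact (PrI ι S T P).zero_mem
      · exact cl3_nA_mem (dvA ι) (PrI ι S T P) hst2 Q ⟨hE1, x, hx, hxP, hxE⟩
    refine ⟨⟨_, hp⟩, ?_, rfl⟩
    show cl3_th hτ _ = 0
    rw [cl3_th_zero]
    have h0 : cl3_mu hτ (⟨_, hp⟩ : cl3_G ι S T L P) = 0 := by
      refine UM.ext ?_
      show (ι τ • x) * x⁻¹ = 1
      have e : ι τ • x = x := Units.ext (hxP τ hτ)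
      rw [e, mul_inv_cancel]
    rw [h0, map_zero]
    exact AddSubgroup.zero_mem _
  have h2 : (cl3_th hτ : cl3_G ι S T L P →+ _).ker.map f ≤ f.range := by
    rintro _ ⟨p, -, rfl⟩
    exact ⟨p, rfl⟩
  have h3 : f.range = N₁ ⊓ PrI ι S T ⊥ := by
    ext E
    constructor
    · rintro ⟨p, rfl⟩
      refine ⟨p.2.2, hDle p.2.2.1, Additive.toMul p.1.2, p.2.1.1, fun g hg => ?_, p.2.1.2⟩
      rw [Subgroup.mem_bot] at hg
      rw [hg, map_one]
      rfl
    · rintro ⟨hE, -, x, hx, -, hxE⟩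
      exact ⟨⟨(E, Additive.ofMul x), ⟨hx, hxE⟩, hE⟩, rfl⟩
  have hle : (cl3_th hτ : cl3_G ι S T L P →+ _).ker.map f ≤ DvI ι T P := by
    rintro _ ⟨p, -, rfl⟩
    exact p.2.2.1
  have h0 : (PrI ι S T P).relIndex ((cl3_th hτ : cl3_G ι S T L P →+ _).ker.map f) ≠ 0 := by
    have e1 := AddSubgroup.relIndex_mul_relIndex _ _ _ h1 hle
    rw [← cl_fix hD P] at e1
    intro h
    rw [h, zero_mul] at e1
    exact (cnf_fix hD P).1.ne e1
  refine ⟨(PrI ι S T P).relIndex ((cl3_th hτ : cl3_G ι S T L P →+ _).ker.map f), ?_, ?_⟩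
  · refine cl3_prime _ _ hl (B := (L.map fun P : Subgroup G => Nat.card P).prod) ?_ ?_ h0
    · intro h
      obtain ⟨a, ha, hla⟩ := (hl.prime.dvd_prod_iff).1 h
      obtain ⟨Q, hQ, rfl⟩ := List.mem_map.1 ha
      have := (Nat.prime_dvd_prime_iff_eq hl (hL Q hQ).1).1 hla
      exact (hL Q hQ).2 this.symm
    · rintro _ ⟨p, hp, rfl⟩
      exact cl3_ker (by rw [hP]; exact hl) hτ hτ1 p hp
  · have e1 := AddSubgroup.relIndex_mul_relIndex _ _ _ h1 h2
    have e2 : (PrI ι S T P).relIndex f.range * (f.range).relIndex N₁ =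
        (PrI ι S T P).relIndex N₁ := by
      refine AddSubgroup.relIndex_mul_relIndex _ _ _ (h1.trans h2) ?_
      rw [h3]
      exact inf_le_left
    rw [← e2, ← e1, mul_assoc]
    refine mul_dvd_mul_left _ (mul_dvd_mul ?_ ?_)
    · exact cl3_index f (cl3_th hτ)
    · rw [h3, AddSubgroup.inf_relIndex_left]
      exact cl3_mono _ _ _ hN10

end NF3

end Pool.Agent.CR

namespace Pool.Agent.CR
open Pool.Agent.RSK Pool.Agent.RS2 Pool.Agent.RS3 Pool.Agent.SY
open NumberField IsDedekindDomain Filter Topology Complex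

section
variable {F K : Type} [Field F] [NumberField F] [Field K] [NumberField K] [Algebra F K]
  [IsGalois F K] {G : Type} [CommGroup G] [Fintype G] {ι : G ≃* (K ≃ₐ[F] K)}
  {S T : Finset (HeightOneSpectrum (𝓞 F))} {r : ℕ} {w : Fin r → Pl K}
  {fr : HeightOneSpectrum (𝓞 F) → G}

theorem cl_pos (hD : Data ι S T r w fr) {l : ℕ} (hl : l.Prime) {L : List (Subgroup G)}
    (hL : ∀ P ∈ L, (Nat.card P).Prime ∧ Nat.card P ≠ l) {P : Subgroup G} (hP : Nat.card P = l)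
    {τ : G} (hτ : τ ∈ P) (hτ1 : τ ≠ 1) :
    ∃ k : ℕ, ¬ l ∣ k ∧
      (PrI ι S T P).relIndex (rty (dvA ι) L ⊥ (PrI ι S T P) (DvI ι T P)) ∣
        k * ((subA (smA G (UM ι S T)) τ (nty (smA G (UM ι S T)) L ⊥)).relIndex
          (nty (smA G (UM ι S T)) (P :: L) ⊥) *
            (PrI ι S T ⊥).relIndex (rty (dvA ι) L ⊥ (PrI ι S T ⊥) (DvI ι T ⊥))) :=
  @Pool.Agent.CR.cl_pos_pr F K _ _ _ _ _ _ G _ _ ι S T r w fr hD l hl L hL P hP τ hτ hτ1

end

end Pool.Agent.CR
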