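import Pool.Agent.Lib_helper17.CRF.D_WN
import Pool.Agent.Lib_helper17.CRF.B_CN
import Pool.Agent.Lib_helper17.CRF.N_GU1
import Pool.Agent.Lib_helper17.CRF.B_PI
import Pool.Agent.Lib_helper17.CRF.N_GU3
import Pool.Agent.Lib_helper17.CRF.A_ID1
import Pool.Agent.Lib_helper17.CRF.B_PL
import Pool.Agent.Lib_helper17.CRF.B_PV
import Pool.Agent.Lib_helper17.CRF.N_CL3
import Pool.Agent.Lib_helper17.CRF.A_ID2
import Pool.Agent.Lib_helper17.CRF.N_GU2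
import Pool.Agent.Lib_helper17.CRF.B_YN
import Pool.Agent.Lib_helper17.CRF.N_GY
import Pool.Agent.Lib_helper17.CRF.B_CE
import Pool.Agent.Lib_helper17.CRF.A_YP2
import Pool.Agent.Lib_helper17.CRF.N_NO1
import Pool.Agent.Lib_helper17.CRF.N_LD4
import Pool.Agent.Lib_helper17.CRF.N_PC5
import Pool.Agent.Lib_helper17.CRF.N_NO4
import Pool.Agent.Lib_helper17.CRF.A_TG
import Pool.Agent.Lib_helper17.CRF.N_CL4
import Pool.Agent.Lib_helper17.CRF.N_LD3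

/-!
# Composite Rubin (CR), block NO3: the norm formula if the prime divides the degree
-/

set_option autoImplicit false
set_option linter.unusedSectionVars false

namespace Pool.Agent.CR

open Pool.Agent.RSK Pool.Agent.RS2 Pool.Agent.RS3 Pool.Agent.SY
open NumberField IsDedekindDomain Filter Topology Complex

/-- the quotient of the functions for `D` and `D ⊔ P` -/
theorem no3_step {G : Type} [CommGroup G] [Finite G] {l : ℕ} (hl : l.Prime) {P : Subgroup G}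
    {h nd : Subgroup G → ℕ} {ω : ℝ} {e : Subgroup G → ℕ} (hω : 0 < ω)
    (hnd : ∀ D : Subgroup G, 0 < nd D)
    (W1 : ∀ D : Subgroup G, ¬ l ∣ Nat.card D → ¬ l ∣ nd D)
    (W2 : ∀ D : Subgroup G, ¬ l ∣ Nat.card D → Eql l (nd (D ⊔ P) : ℝ) ((l : ℝ) ^ e D) ∧
      Nat.card (D ⊔ P : Subgroup G) = l * Nat.card D) {D : Subgroup G} (hD : ¬ l ∣ Nat.card D) :
    Eql l (((h D : ℝ) ^ 2 * (Nat.card D : ℝ) ^ 2 / ((nd D : ℝ) ^ 2 * ω)) /
        ((h (D ⊔ P) : ℝ) ^ 2 * (Nat.card (D ⊔ P : Subgroup G) : ℝ) ^ 2 /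
          ((nd (D ⊔ P) : ℝ) ^ 2 * ω)))
      (((h D : ℝ) / (h (D ⊔ P) : ℝ)) ^ 2 * ((l : ℝ) ^ ((e D : ℤ) - 1)) ^ 2) := by
  obtain ⟨w2, w3⟩ := W2 D hD
  have hl0 : (l : ℝ) ≠ 0 := Nat.cast_ne_zero.2 hl.ne_zero
  have hc0 : (Nat.card D : ℝ) ≠ 0 := Nat.cast_ne_zero.2 Nat.card_pos.ne'
  have hn0 : (nd D : ℝ) ≠ 0 := Nat.cast_ne_zero.2 (hnd D).ne'
  have hn1 : (nd (D ⊔ P) : ℝ) ≠ 0 := Nat.cast_ne_zero.2 (hnd _).ne'
  have e1 : ((h D : ℝ) ^ 2 * (Nat.card D : ℝ) ^ 2 / ((nd D : ℝ) ^ 2 * ω)) /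
        ((h (D ⊔ P) : ℝ) ^ 2 * (Nat.card (D ⊔ P : Subgroup G) : ℝ) ^ 2 /
          ((nd (D ⊔ P) : ℝ) ^ 2 * ω)) =
      ((h D : ℝ) / (h (D ⊔ P) : ℝ)) ^ 2 * ((nd (D ⊔ P) : ℝ) / (nd D : ℝ) / l) ^ 2 := by
    rw [w3]
    push_cast
    by_cases hh : (h (D ⊔ P) : ℝ) = 0
    · rw [hh]
      simp
    · field_simp
  rw [e1]
  refine (eql_refl hl _).mul hl (Eql.pow hl ?_ 2)
  rw [zpow_sub₀ hl0, zpow_one, zpow_natCast]
  refine Eql.div hl ?_ (eql_refl hl _)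
  have h2 := w2.div hl (eql_one hl (W1 D hD))
  rwa [div_one] at h2

/-- the arithmetic of the norm formula -/
theorem no3_core {G : Type} [CommGroup G] [Finite G] {l : ℕ} (hl : l.Prime)
    {L : List (Subgroup G)} (hL : ∀ P ∈ L, (Nat.card P).Prime ∧ Nat.card P ≠ l) {P : Subgroup G}
    {h nd cd : Subgroup G → ℕ} {R g1 g2 : Subgroup G → ℝ} {ω : ℝ} {e : Subgroup G → ℕ}
    (hω : 0 < ω) (hh : ∀ D : Subgroup G, 0 < h D) (hR : ∀ D : Subgroup G, 0 < R D) (hnd : ∀ D : Subgroup G, 0 < nd D)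
    (F1 : ∀ D : Subgroup G, g1 D * (Nat.card D : ℝ) ^ 2 = (Nat.card D : ℝ) ^ (cd D) * nd D * ω * R D ^ 2)
    (F2 : ∀ D : Subgroup G, g2 D * nd D = (Nat.card D : ℝ) ^ (cd D))
    {N GU GY gU1 gUP gY1 gYP : ℝ} {k n iU iY hU X1 XP k2 t' : ℕ} (hk : ¬ l ∣ k)
    (F3 : N * (k : ℝ) ^ 2 * GU =
      (alt (fun D => (h D : ℝ) * R D) (P :: L) ⊥) ^ 2 * (n : ℝ) ^ 2 * GY)
    (F4U : GU * gUP = (iU : ℝ) ^ 2 * gU1) (F4Y : GY * gYP = (iY : ℝ) ^ 2 * gY1)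
    (T1 : Eql l (alt g1 L ⊥) gU1) (T2 : Eql l (alt g1 L P) gUP)
    (T3 : Eql l (alt g2 L ⊥) gY1) (T4 : Eql l (alt g2 L P) gYP)
    (hi : iY = iU * hU) (hiU : iU ≠ 0)
    (C1 : Eql l (alt (fun D => (h D : ℝ)) L ⊥) X1)
    (C2 : Eql l (alt (fun D => (h (D ⊔ P) : ℝ)) L ⊥) XP)
    (hk2 : ¬ l ∣ k2) (ht : k2 * (hU * X1) = XP * t')
    (W1 : ∀ D : Subgroup G, ¬ l ∣ Nat.card D → ¬ l ∣ nd D)
    (W2 : ∀ D : Subgroup G, ¬ l ∣ Nat.card D → Eql l (nd (D ⊔ P) : ℝ) ((l : ℝ) ^ e D) ∧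
      Nat.card (D ⊔ P : Subgroup G) = l * Nat.card D) :
    Eql l N (((n * t' : ℕ) : ℝ) ^ 2 * ((l : ℝ) ^ (als (fun D => (e D : ℤ) - 1) L ⊥)) ^ 2) := by
  have hl0 : (l : ℝ) ≠ 0 := Nat.cast_ne_zero.2 hl.ne_zero
  have hc : ∀ D : Subgroup G, (0 : ℝ) < (Nat.card D : ℝ) := fun D => Nat.cast_pos.2 Nat.card_pos
  have hnd' : ∀ D : Subgroup G, (0 : ℝ) < (nd D : ℝ) := fun D => Nat.cast_pos.2 (hnd D)
  have hh' : ∀ D : Subgroup G, (0 : ℝ) < (h D : ℝ) := fun D => Nat.cast_pos.2 (hh D)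
  have hg1 : ∀ D, g1 D ≠ 0 := by
    intro D h0
    have h1 := F1 D
    rw [h0, zero_mul] at h1
    have h2 : 0 < (Nat.card D : ℝ) ^ (cd D) * nd D * ω * R D ^ 2 :=
      mul_pos (mul_pos (mul_pos (pow_pos (hc D) _) (hnd' D)) hω) (pow_pos (hR D) 2)
    exact h2.ne h1
  have hg2 : ∀ D, g2 D ≠ 0 := by
    intro D h0
    have h1 := F2 D
    rw [h0, zero_mul] at h1
    exact (pow_pos (hc D) _).ne h1
  -- the quotients of Gram determinants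
  have a1 := alt_ne hg1 L ⊥
  have aP := alt_ne hg1 L P
  have b1 := alt_ne hg2 L ⊥
  have bP := alt_ne hg2 L P
  have n1 := T1.ne a1
  have nP := T2.ne aP
  have m1 := T3.ne b1
  have mP := T4.ne bP
  have hiU' : (iU : ℝ) ≠ 0 := Nat.cast_ne_zero.2 hiU
  have hk0 : (k : ℝ) ≠ 0 := Nat.cast_ne_zero.2 (ndvd_ne hk)
  have eGU : GU = (iU : ℝ) ^ 2 * (gU1 / gUP) := by
    rw [← mul_div_assoc, ← F4U]
    field_simp
  have eGY : GY = (iY : ℝ) ^ 2 * (gY1 / gYP) := by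
    rw [← mul_div_assoc, ← F4Y]
    field_simp
  have hGU : GU ≠ 0 := by
    rw [eGU]
    exact mul_ne_zero (pow_ne_zero _ hiU') (div_ne_zero n1 nP)
  set C : ℝ := alt (fun D => (h D : ℝ) * R D) (P :: L) ⊥ with hC
  have eN : ((k ^ 2 : ℕ) : ℝ) * N = C ^ 2 * (n : ℝ) ^ 2 * (hU : ℝ) ^ 2 *
      ((gY1 / gYP) / (gU1 / gUP)) := by
    have h1 : N * (k : ℝ) ^ 2 = C ^ 2 * (n : ℝ) ^ 2 * GY / GU := by
      rw [← F3]
      field_simp
    push_cast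
    rw [mul_comm, h1, eGU, eGY, hi]
    push_cast
    field_simp
  have s1 : Eql l N (C ^ 2 * (n : ℝ) ^ 2 * (hU : ℝ) ^ 2 *
      ((alt g2 L ⊥ / alt g2 L P) / (alt g1 L ⊥ / alt g1 L P))) := by
    refine ((eql_unit hl (ndvd_pow hl hk 2) N).symm.trans hl (eql_of_eq hl eN)).trans hl ?_
    exact (eql_refl hl _).mul hl ((T3.symm.div hl T4.symm).div hl (T1.symm.div hl T2.symm))
  -- the alternating product
  have s2 : C ^ 2 * ((alt g2 L ⊥ / alt g2 L P) / (alt g1 L ⊥ / alt g1 L P)) =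
      alt (fun D => (h D : ℝ) ^ 2 * (Nat.card D : ℝ) ^ 2 / ((nd D : ℝ) ^ 2 * ω)) (P :: L) ⊥ := by
    have h1 : (fun D => (h D : ℝ) ^ 2 * (Nat.card D : ℝ) ^ 2 / ((nd D : ℝ) ^ 2 * ω)) =
        fun D => ((h D : ℝ) * R D) ^ 2 * (g2 D / g1 D) := by
      funext D
      have f1 : g1 D = (Nat.card D : ℝ) ^ (cd D) * nd D * ω * R D ^ 2 / (Nat.card D : ℝ) ^ 2 := by
        rw [← F1 D]
        have := (hc D).ne'
        field_simp
      have f2 : g2 D = (Nat.card D : ℝ) ^ (cd D) / nd D := by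
        rw [← F2 D]
        have := (hnd' D).ne'
        field_simp
      rw [f1, f2]
      have q1 := (hc D).ne'
      have q2 := (hnd' D).ne'
      have q3 := (hR D).ne'
      have q4 := hω.ne'
      field_simp
    rw [h1, alt_mul, alt_pow, alt_div, alt_cons g2, alt_cons g1, bot_sup_eq, ← hC]
  have s3 : Eql l (alt (fun D => (h D : ℝ) ^ 2 * (Nat.card D : ℝ) ^ 2 / ((nd D : ℝ) ^ 2 * ω))
      (P :: L) ⊥) (((X1 : ℝ) / (XP : ℝ)) ^ 2 *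
        ((l : ℝ) ^ (als (fun D => (e D : ℤ) - 1) L ⊥)) ^ 2) := by
    rw [alt_cons_shift]
    refine (alt_eql hl (fun D => ¬ l ∣ Nat.card D) (sup_ndvd hl hL)
      (fun D hD => no3_step (h := h) hl hω hnd W1 W2 hD) ?_).trans hl ?_
    · rw [Subgroup.card_bot]
      exact ndvd_one hl
    · rw [alt_mul, alt_pow, alt_pow, alt_div, alt_zpow hl0]
      exact ((C1.div hl C2).pow hl 2).mul hl (eql_refl hl _)
  have hXP : (XP : ℝ) ≠ 0 := C2.ne (alt_ne (fun D => (hh' _).ne') L ⊥)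
  have e2 : ((k2 : ℝ) * ((hU : ℝ) * (X1 / XP))) = t' := by
    have := congrArg (Nat.cast : ℕ → ℝ) ht
    push_cast at this
    field_simp
    linarith
  have s4 : Eql l ((hU : ℝ) * (X1 / XP)) t' :=
    (eql_unit hl hk2 _).symm.trans hl (eql_of_eq hl e2)
  have s5 : Eql l (C ^ 2 * (n : ℝ) ^ 2 * (hU : ℝ) ^ 2 *
      ((alt g2 L ⊥ / alt g2 L P) / (alt g1 L ⊥ / alt g1 L P)))
      ((n : ℝ) ^ 2 * ((hU : ℝ) * (X1 / XP)) ^ 2 *
        ((l : ℝ) ^ (als (fun D => (e D : ℤ) - 1) L ⊥)) ^ 2) := by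
    have h1 : C ^ 2 * (n : ℝ) ^ 2 * (hU : ℝ) ^ 2 *
        ((alt g2 L ⊥ / alt g2 L P) / (alt g1 L ⊥ / alt g1 L P)) =
        (n : ℝ) ^ 2 * (hU : ℝ) ^ 2 *
          alt (fun D => (h D : ℝ) ^ 2 * (Nat.card D : ℝ) ^ 2 / ((nd D : ℝ) ^ 2 * ω)) (P :: L) ⊥ := by
      rw [← s2]
      ring
    have h2 : (n : ℝ) ^ 2 * ((hU : ℝ) * (X1 / XP)) ^ 2 *
        ((l : ℝ) ^ (als (fun D => (e D : ℤ) - 1) L ⊥)) ^ 2 = (n : ℝ) ^ 2 * (hU : ℝ) ^ 2 *
          (((X1 : ℝ) / (XP : ℝ)) ^ 2 *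
            ((l : ℝ) ^ (als (fun D => (e D : ℤ) - 1) L ⊥)) ^ 2) := by
      ring
    rw [h1, h2]
    exact (eql_refl hl _).mul hl s3
  refine (s1.trans hl s5).trans hl ?_
  have h3 : ((n * t' : ℕ) : ℝ) ^ 2 = (n : ℝ) ^ 2 * (t' : ℝ) ^ 2 := by
    push_cast
    ring
  rw [h3]
  exact ((eql_refl hl _).mul hl (s4.pow hl 2)).mul hl (eql_refl hl _)

/-- from a square up to units to the number -/
theorem no3_rat {l : ℕ} (hl : l.Prime) {q : ℚ} {m E : ℕ}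
    (h : Eql l ((q : ℝ) ^ 2) ((m : ℝ) ^ 2 * ((l : ℝ) ^ E) ^ 2)) :
    ∃ (k : ℕ) (t : ℤ), ¬ l ∣ k ∧ (k : ℚ) * q = (l : ℚ) ^ E * t := by
  obtain ⟨a, b, ha, hb, e⟩ := h
  have hl0 : ((l : ℚ) ^ E) ≠ 0 := pow_ne_zero _ (Nat.cast_ne_zero.2 hl.ne_zero)
  have e1 : (a : ℚ) * q ^ 2 = b * ((m : ℚ) ^ 2 * ((l : ℚ) ^ E) ^ 2) := by
    have h1 : (((a : ℚ) * q ^ 2 : ℚ) : ℝ) = ((b * ((m : ℚ) ^ 2 * ((l : ℚ) ^ E) ^ 2) : ℚ) : ℝ) := by
      push_cast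
      exact e
    exact Rat.cast_injective h1
  set z : ℚ := a * q / (l : ℚ) ^ E with hz
  have h2 : z * z = ((a * b * m ^ 2 : ℕ) : ℚ) := by
    have h3 : z * z = (a : ℚ) * (a * q ^ 2) / ((l : ℚ) ^ E) ^ 2 := by
      rw [hz]
      field_simp
    rw [h3, e1]
    push_cast
    field_simp
  have h4 : z.den = 1 := by
    have h5 := Rat.mul_self_den z
    rw [h2, Rat.den_natCast] at h5
    exact Nat.eq_one_of_mul_eq_one_left h5.symm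
  refine ⟨a, z.num, ha, ?_⟩
  rw [(Rat.den_eq_one_iff z).1 h4, hz]
  field_simp


theorem no3_dot {G Ω : Type} [CommGroup G] [Fintype Ω] (ρ : G →* Equiv.Perm Ω) (g : G)
    (u v : Ω → ℤ) : dotF Ω (pmA ρ g u) (pmA ρ g v) = dotF Ω u v := by
  show ∑ ω, ((u (ρ g⁻¹ ω) : ℤ) : ℝ) * ((v (ρ g⁻¹ ω) : ℤ) : ℝ) = ∑ ω, (u ω : ℝ) * (v ω : ℝ)
  exact Equiv.sum_comp (ρ g⁻¹) (fun ω => (u ω : ℝ) * (v ω : ℝ))

theorem no3_nD {G I : Type} [CommGroup G] [Finite G] [Fintype I] (B : I → Subgroup G)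
    (D : Subgroup G) : 0 < nD B D := by
  unfold nD
  exact Finset.prod_pos fun i _ => pow_pos Nat.card_pos _

/-- comparison of the two indices -/
theorem no3_idx {l rU rY n iU hU iY hY : ℕ} (hl : l.Prime) (h1 : n = rU * (l - 1))
    (h2 : n = rY * (l - 1)) (h3 : iU * hU = l ^ rU) (h4 : iY * hY = l ^ rY) (h5 : ¬ l ∣ hY) :
    iY = iU * hU ∧ iU ≠ 0 := by
  have h6 : rU = rY := Nat.eq_of_mul_eq_mul_right (Nat.sub_pos_of_lt hl.one_lt) (h1.symm.trans h2)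
  subst h6
  have h7 : hY ∣ l ^ rU := ⟨iY, by rw [← h4, mul_comm]⟩
  obtain ⟨m, -, hm⟩ := (Nat.dvd_prime_pow hl).1 h7
  have h8 : m = 0 := by
    by_contra h
    exact h5 (hm ▸ dvd_pow_self l h)
  have h9 : hY = 1 := by rw [hm, h8, pow_zero]
  refine ⟨?_, ?_⟩
  · rw [h3, ← h4, h9, mul_one]
  · rintro rfl
    rw [zero_mul] at h3
    exact (pow_ne_zero _ hl.ne_zero) h3.symm

section N

variable {F K : Type} [Field F] [NumberField F] [Field K] [NumberField K] [Algebra F K]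
  [IsGalois F K] {G : Type} [CommGroup G] [Fintype G] {ι : G ≃* (K ≃ₐ[F] K)}
  {S T : Finset (HeightOneSpectrum (𝓞 F))} {r : ℕ} {w : Fin r → Pl K}
  {fr : HeightOneSpectrum (𝓞 F) → G}

theorem norm_b_pr [IsCyclic G] (hD : Data ι S T r w fr) {c : (G →* ℂˣ) → ℂ}
    (hc : LeadI S T r fr c) {b : Fin r → UM ι S T} (hb : ∀ i, b i ∈ mI (smA G (UM ι S T)))
    {x : MonoidAlgebra ℚ G} (hco : CoreF ι S T w c b x) {η : MonoidAlgebra ℤ G} (hη : Eta η)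
    {l : ℕ} (hl : l.Prime) (h0 : ¬ l ∣ (mSpn G b).relIndex (mI (smA G (UM ι S T))))
    (hlG : l ∣ Nat.card G) :
    ∃ (k : ℕ) (t : ℤ), ¬ l ∣ k ∧
      (k : ℂ) * pI (fun χ => evQ χ (x * toQ G (η ^ r))) =
        (l : ℂ) ^ ((Nat.card G / l ^ (Nat.card G).factorization l).totient *
          (wts ι S l - del l G)) * t := by
  have hfin : Module.Finite ℤ (UM ι S T) := um_finite hD
  have htf : Module.IsTorsionFree ℤ (UM ι S T) := um_tf hD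
  have hfree : Module.Free ℤ (UM ι S T) := Module.free_of_finite_type_torsion_free'
  have : Fact l.Prime := ⟨hl⟩
  obtain ⟨τ, hτ⟩ := exists_prime_orderOf_dvd_card' l hlG
  obtain ⟨P, hP⟩ : ∃ P : Subgroup G, P = Subgroup.zpowers τ := ⟨_, rfl⟩
  have hPc : Nat.card P = l := by rw [hP, Nat.card_zpowers, hτ]
  have hτP : τ ∈ P := hP ▸ Subgroup.mem_zpowers τ
  have hτ1 : τ ≠ 1 := by
    rintro rfl
    rw [orderOf_one] at hτ
    exact hl.one_lt.ne hτ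
  obtain ⟨L, hL⟩ := prl_exists G l
  have hL0 := prl_cons hl hL hPc
  obtain ⟨hcn, -⟩ := lead_alt hD hc hL0
  obtain ⟨n, hn, F3⟩ := norm_base hD hb (ndvd_ne h0) hco hη
  obtain ⟨q, hq⟩ := pI_rat (x * toQ G (η ^ r))
  obtain ⟨rkU, rkU'⟩ := rank_U hD
  obtain ⟨σ, hσ⟩ := IsCyclic.exists_generator (α := G)
  obtain ⟨δ, hδ0, hδ⟩ := gram_char hσ
  obtain ⟨-, -, w', -, hw2, hw3, hw4⟩ := data_pl hD
  obtain ⟨rkY', -⟩ := new_perm (acG ι S) w' hw2 hw3 hw4 hη hσ hδ0 hδ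
  rw [mI_nty _ hL0] at rkU' rkY' h0
  rw [mI_nty _ hL0, mI_nty _ hL0, hcn, hq] at F3
  obtain ⟨-, ρU, hρU, hiU⟩ := idx_main (smA G (UM ι S T)) hl L hPc hτP hτ1
  obtain ⟨-, ρY, hρY, hiY⟩ := idx_main (pmA (acG ι S)) hl L hPc hτP hτ1
  have hpY := h_perm (acG ι S) hl L hL.prime hPc hτP hτ1
  obtain ⟨hi, hi0⟩ := no3_idx hl (rkU'.symm.trans hρU) (rkY'.symm.trans hρY) hiU hiY hpY
  have hω : (0 : ℝ) < (cD (dgS ι S) ⊥ : ℕ) := by
    rw [← rkU ⊥]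
    exact Nat.cast_pos.2 (Nat.succ_pos _)
  have hgU : ∀ D, grm (BU ι S T) (nty (smA G (UM ι S T)) [] D) ≠ 0 := by
    intro D h
    have h1 := grm_U hD D
    rw [h, zero_mul] at h1
    have h2 : (0 : ℝ) < (Nat.card D : ℝ) ^ (cD (dgS ι S) D) * nD (dgS ι S) D *
        cD (dgS ι S) ⊥ * rK ι S T D ^ 2 :=
      mul_pos (mul_pos (mul_pos (pow_pos (Nat.cast_pos.2 Nat.card_pos) _)
        (Nat.cast_pos.2 (no3_nD _ D))) hω) (pow_pos (cnf_fix hD D).2.1 2)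
    exact h2.ne h1
  have hgY : ∀ D, grm (dotF (PS (ovr K S))) (nty (pmA (acG ι S)) [] D) ≠ 0 := by
    intro D h
    have h1 := (grm_Y ι S D).1
    rw [h, zero_mul] at h1
    exact (pow_pos (Nat.cast_pos.2 Nat.card_pos : (0 : ℝ) < (Nat.card D : ℝ)) _).ne h1
  have hBU : ∀ (g : G) (u v : UM ι S T), BU ι S T (smA G (UM ι S T) g u)
      (smA G (UM ι S T) g v) = BU ι S T u v := fun g u v => BU_inv g u v
  have hBY := no3_dot (acG ι S)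
  have C1 := cl_alt hD hl hL.prime ⊥
  have C2 := cl_alt hD hl hL.prime P
  have e1 : (fun D : Subgroup G => (hK ι S T (⊥ ⊔ D) : ℝ)) = fun D => (hK ι S T D : ℝ) :=
    funext fun D => by rw [bot_sup_eq]
  have e2 : (fun D : Subgroup G => (hK ι S T (P ⊔ D) : ℝ)) = fun D => (hK ι S T (D ⊔ P) : ℝ) :=
    funext fun D => by rw [sup_comm]
  rw [e1] at C1
  rw [e2] at C2
  obtain ⟨k2, hk2, t', ht⟩ := cl_pos hD hl hL.prime hPc hτP hτ1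
  have main := no3_core (h := fun D => hK ι S T D) (nd := fun D => nD (dgS ι S) D)
    (cd := fun D => cD (dgS ι S) D) (R := fun D => rK ι S T D)
    (g1 := fun D => grm (BU ι S T) (nty (smA G (UM ι S T)) [] D))
    (g2 := fun D => grm (dotF (PS (ovr K S))) (nty (pmA (acG ι S)) [] D))
    (e := fun D => eD (dgS ι S) P D) hl hL.prime hω (fun D => (cnf_fix hD D).1)
    (fun D => (cnf_fix hD D).2.1) (fun D => no3_nD _ D) (fun D => grm_U hD D)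
    (fun D => (grm_Y ι S D).1) h0 F3
    (idx_grm (smA G (UM ι S T)) (BU ι S T) hBU hl L hPc)
    (idx_grm (pmA (acG ι S)) (dotF (PS (ovr K S))) hBY hl L hPc)
    (tyg _ _ hBU hl L hL.prime hgU ⊥).2 (tyg _ _ hBU hl L hL.prime hgU P).2
    (tyg _ _ hBY hl L hL.prime hgY ⊥).2 (tyg _ _ hBY hl L hL.prime hgY P).2
    hi hi0 C1 C2 hk2 ht (fun D hD' => nD_ndvd (dgS ι S) hl hD')
    (fun D hD' => nD_P (dgS ι S) hl hD' hPc)
  have hE : als (fun D => (eD (dgS ι S) P D : ℤ) - 1) L ⊥ =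
      (((Nat.card G / l ^ (Nat.card G).factorization l).totient *
          (wts ι S l - del l G) : ℕ) : ℤ) := by
    rw [als_eD (dgS ι S) hl hL hPc, Nat.cast_mul, Nat.cast_sub (wts_ge hD hl).1]
    rfl
  rw [hE, zpow_natCast] at main
  have hn2 : ‖(q : ℂ)‖ ^ 2 = (q : ℝ) ^ 2 := by
    rw [Complex.norm_ratCast, sq_abs]
  rw [hn2] at main
  obtain ⟨k, t, hk, e⟩ := no3_rat hl main
  refine ⟨k, t, hk, ?_⟩
  rw [hq]
  have e3 := congrArg (Rat.cast : ℚ → ℂ) e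
  push_cast at e3
  exact e3

end N

end Pool.Agent.CR

namespace Pool.Agent.CR
open Pool.Agent.RSK Pool.Agent.RS2 Pool.Agent.RS3 Pool.Agent.SY
open NumberField IsDedekindDomain Filter Topology Complex

section
variable {F K : Type} [Field F] [NumberField F] [Field K] [NumberField K] [Algebra F K]
  [IsGalois F K] {G : Type} [CommGroup G] [Fintype G] {ι : G ≃* (K ≃ₐ[F] K)}
  {S T : Finset (HeightOneSpectrum (𝓞 F))} {r : ℕ} {w : Fin r → Pl K}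
  {fr : HeightOneSpectrum (𝓞 F) → G}

theorem norm_b [IsCyclic G] (hD : Data ι S T r w fr) {c : (G →* ℂˣ) → ℂ}
    (hc : LeadI S T r fr c) {b : Fin r → UM ι S T} (hb : ∀ i, b i ∈ mI (smA G (UM ι S T)))
    {x : MonoidAlgebra ℚ G} (hco : CoreF ι S T w c b x) {η : MonoidAlgebra ℤ G} (hη : Eta η)
    {l : ℕ} (hl : l.Prime) (h0 : ¬ l ∣ (mSpn G b).relIndex (mI (smA G (UM ι S T))))
    (hlG : l ∣ Nat.card G) :
    ∃ (k : ℕ) (t : ℤ), ¬ l ∣ k ∧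
      (k : ℂ) * pI (fun χ => evQ χ (x * toQ G (η ^ r))) =
        (l : ℂ) ^ ((Nat.card G / l ^ (Nat.card G).factorization l).totient *
          (wts ι S l - del l G)) * t :=
  @Pool.Agent.CR.norm_b_pr F K _ _ _ _ _ _ G _ _ ι S T r w fr _ hD c hc b hb x hco η hη l hl h0 hlG

end

end Pool.Agent.CR
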