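import Pool.Agent.Lib_helper17.CRF.D_WL
import Pool.Agent.Lib_helper17.CRF.N_GU3
import Pool.Agent.Lib_helper17.CRF.N_NO2
import Pool.Agent.Lib_helper17.CRF.B_KL
import Pool.Agent.Lib_helper17.CRF.L_UQ
import Pool.Agent.Lib_helper17.CRF.B_OP
import Pool.Agent.Lib_helper17.CRF.B_ET
import Pool.Agent.Lib_helper17.CRF.N_NO4
import Pool.Agent.Lib_helper17.CRF.L_CC0
import Pool.Agent.Lib_helper17.CRF.B_AM
import Pool.Agent.Lib_helper17.CRF.N_NO3

/-!
# Composite Rubin (CR), block LY0: from relations to divisibility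
-/

set_option autoImplicit false
set_option linter.unusedSectionVars false

namespace Pool.Agent.CR

open Pool.Agent.RSK Pool.Agent.RS2 Pool.Agent.RS3 Pool.Agent.SY
open NumberField IsDedekindDomain Filter Topology Complex

theorem ly0_evQ_toQ {G : Type} [CommGroup G] (χ : G →* ℂˣ) (a : MonoidAlgebra ℤ G) :
    evQ χ (toQ G a) = evZ χ a := rfl

/-- if only the identity has `l`-power order, `l` does not divide the order -/
theorem ly0_syl {G : Type} [CommGroup G] [Fintype G] {l : ℕ} (hl : l.Prime) {s : G}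
    (hs : SylG l s) (h1 : s = 1) : ¬ l ∣ Nat.card G := by
  intro h
  haveI := Fact.mk hl
  obtain ⟨g, hg⟩ := exists_prime_orderOf_dvd_card' l h
  have h2 : g ∈ Subgroup.zpowers s := (hs g).1 ⟨1, by rw [pow_one, ← hg, pow_orderOf_eq_one]⟩
  rw [h1, Subgroup.zpowers_one_eq_bot, Subgroup.mem_bot] at h2
  rw [h2, orderOf_one] at hg
  exact hl.one_lt.ne hg

section UP

variable {F K : Type} [Field F] [NumberField F] [Field K] [NumberField K] [Algebra F K]
  [IsGalois F K] {G : Type} [CommGroup G] [Fintype G] {ι : G ≃* (K ≃ₐ[F] K)}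
  {S T : Finset (HeightOneSpectrum (𝓞 F))} {r : ℕ} {w : Fin r → Pl K}
  {fr : HeightOneSpectrum (𝓞 F) → G}

/-- LY0. From relations under `E` to divisibility. `opt_all`, `core_chg`: `b` optimal at `l`, `x`; with
`η` from `eta_exists`, `y = x η^r` satisfies `hN` of `alg_main` by `norm_a`, `norm_b` (`wts_ge`), and
`hrel` by hypothesis and `eta_sym`; so `LDiv l M s y`; `ψ_i(b_j) = η a_{ij}` (`new_map`, `Eta.gen`), so
`x det(ψ_i(b_j)) = y det(a_{ij})`. -/
theorem cc_of_rel_pr [IsCyclic G] (hD : Data ι S T r w fr) (hR : RCore ι S T w fr) {l : ℕ}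
    (hl : l.Prime) {s : G} (hs : SylG l s) (E : Set (MulAut G))
    (hE : ∀ n : ℕ, n.Coprime (Nat.card G) → ∃ (i b : ℕ), ∃ e ∈ E,
      (∀ g, e g = g ^ b) ∧ ∀ g : G, ¬ l ∣ orderOf g → g ^ (b * l ^ i) = g ^ n)
    (hrel : ∀ (c : (G →* ℂˣ) → ℂ) (b : Fin r → UM ι S T) (x : MonoidAlgebra ℚ G),
      LeadI S T r fr c → (∀ χ : G →* ℂˣ, Function.Injective χ → c χ ≠ 0) →
      CoreF ι S T w c b x → (∀ i, b i ∈ mI (smA G (UM ι S T))) →
      ¬ l ∣ (mSpn G b).relIndex (mI (smA G (UM ι S T))) →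
      ∀ e ∈ E, ∃ (k : ℕ) (v : MonoidAlgebra ℤ G), ¬ l ∣ k ∧ ∀ χ : G →* ℂˣ,
        Function.Injective χ → (k : ℂ) * evQ χ x = evZ χ v * evQ (χ.comp e.toMonoidHom) x) :
    CCore ι S T w fr l (wts ι S l - del l G) s := by
  have hfin : Module.Finite ℤ (UM ι S T) := um_finite hD
  have htf : Module.IsTorsionFree ℤ (UM ι S T) := um_tf hD
  obtain ⟨c, hc, hc0, b₀, x₀, hco₀⟩ := hR
  obtain ⟨b, hb, hbl⟩ := opt_all (G := G) (rank_U hD).2 hl
  have hb0 : (mSpn G b).relIndex (mI (smA G (UM ι S T))) ≠ 0 := fun h => hbl (h ▸ dvd_zero l)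
  obtain ⟨-, x, hco, -⟩ := core_chg hD hc0 hco₀ hb hb0
  obtain ⟨η, hη⟩ := eta_exists (G := G)
  have hlG : (¬ l ∣ Nat.card G) → wts ι S l - del l G = 0 := fun h => by
    rw [(wts_ge hD hl).2 h, Nat.zero_sub]
  have hy : LDiv l (wts ι S l - del l G) s (x * toQ G (η ^ r)) := by
    refine alg_main hl hs _ E hE (fun e he => ?_) (fun h => hlG (ly0_syl hl hs h)) ?_
    · obtain ⟨k, v, hk, hv⟩ := hrel c b x hc hc0 hco hb hbl e he
      obtain ⟨v₂, hv₂⟩ := eta_sym hη e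
      refine ⟨k, v * v₂ ^ r, hk, fun χ hχ => ?_⟩
      rw [map_mul (evQ χ), map_mul (evQ (χ.comp _)), map_mul (evZ χ), ly0_evQ_toQ, ly0_evQ_toQ,
        map_pow, map_pow, map_pow, ← mul_assoc, hv χ hχ, hv₂ χ hχ]
      ring
    · by_cases h : l ∣ Nat.card G
      · exact norm_b hD hc hb hco hη hl hbl h
      · obtain ⟨k, t, hk, ht⟩ := norm_a hD hc hb hco hη hl hbl h
        refine ⟨k, t, hk, ?_⟩
        rw [hlG h, mul_zero, pow_zero, one_mul]
        exact ht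
  refine ⟨c, hc, hc0, b, x, hco, fun ψ => ?_⟩
  have h1 : ∀ i j, ∃ a : MonoidAlgebra ℤ G, ψ i (b j) = η * a := fun i j =>
    hη.gen _ fun χ hχ => new_map (ψ i) (hb j) χ hχ
  choose a ha using h1
  have h2 : (pmat ψ b).det = η ^ r * (Matrix.of a).det := by
    have h3 : pmat ψ b = η • Matrix.of a := by
      ext1 i j
      rw [Matrix.smul_apply, Matrix.of_apply, smul_eq_mul, ← ha]
      rfl
    rw [h3, Matrix.det_smul, Fintype.card_fin]
  rw [h2, map_mul, ← mul_assoc, mul_comm _ (toQ G (Matrix.of a).det)]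
  exact ldiv_mul hl hy _

end UP

end Pool.Agent.CR

namespace Pool.Agent.CR
open Pool.Agent.RSK Pool.Agent.RS2 Pool.Agent.RS3 Pool.Agent.SY
open NumberField IsDedekindDomain Filter Topology Complex

section
variable {F K : Type} [Field F] [NumberField F] [Field K] [NumberField K] [Algebra F K]
  [IsGalois F K] {G : Type} [CommGroup G] [Fintype G] {ι : G ≃* (K ≃ₐ[F] K)}
  {S T : Finset (HeightOneSpectrum (𝓞 F))} {r : ℕ} {w : Fin r → Pl K}
  {fr : HeightOneSpectrum (𝓞 F) → G}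

theorem cc_of_rel [IsCyclic G] (hD : Data ι S T r w fr) (hR : RCore ι S T w fr) {l : ℕ}
    (hl : l.Prime) {s : G} (hs : SylG l s) (E : Set (MulAut G))
    (hE : ∀ n : ℕ, n.Coprime (Nat.card G) → ∃ (i b : ℕ), ∃ e ∈ E,
      (∀ g, e g = g ^ b) ∧ ∀ g : G, ¬ l ∣ orderOf g → g ^ (b * l ^ i) = g ^ n)
    (hrel : ∀ (c : (G →* ℂˣ) → ℂ) (b : Fin r → UM ι S T) (x : MonoidAlgebra ℚ G),
      LeadI S T r fr c → (∀ χ : G →* ℂˣ, Function.Injective χ → c χ ≠ 0) →
      CoreF ι S T w c b x → (∀ i, b i ∈ mI (smA G (UM ι S T))) →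
      ¬ l ∣ (mSpn G b).relIndex (mI (smA G (UM ι S T))) →
      ∀ e ∈ E, ∃ (k : ℕ) (v : MonoidAlgebra ℤ G), ¬ l ∣ k ∧ ∀ χ : G →* ℂˣ,
        Function.Injective χ → (k : ℂ) * evQ χ x = evZ χ v * evQ (χ.comp e.toMonoidHom) x) :
    CCore ι S T w fr l (wts ι S l - del l G) s :=
  @Pool.Agent.CR.cc_of_rel_pr F K _ _ _ _ _ _ G _ _ ι S T r w fr _ hD hR l hl s hs E hE hrel

end

end Pool.Agent.CR
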