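import Pool.Agent.Lib_helper17.CRF.D_WL
import Pool.Agent.Lib_helper17.RS.P_L2
import Pool.Agent.Lib_helper17.RS.P_CN

/-!
# Composite Rubin (CR), block UP2: adding a split place
-/

set_option autoImplicit false
set_option linter.unusedSectionVars false

namespace Pool.Agent.CR

open Pool.Agent.RSK Pool.Agent.RS2 Pool.Agent.RS3 Pool.Agent.SY
open NumberField IsDedekindDomain Filter Topology Complex

/-- determinant with last row zero except for the last entry -/
theorem UP2_det {R : Type} [CommRing R] {r : ℕ} (N : Matrix (Fin (r + 1)) (Fin (r + 1)) R)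
    (h : ∀ j : Fin r, N (Fin.last r) j.castSucc = 0) :
    N.det = N (Fin.last r) (Fin.last r) *
      (Matrix.of fun i j : Fin r => N i.castSucc j.castSucc).det := by
  rw [Matrix.det_succ_row N (Fin.last r), Finset.sum_eq_single (Fin.last r)]
  · rw [Fin.val_last, ← two_mul, pow_mul, neg_one_sq, one_pow, one_mul]
    congr 2
    ext i j
    rw [Matrix.submatrix_apply, Fin.succAbove_last]
    rfl
  · intro j _ hj
    obtain ⟨j', rfl⟩ := Fin.exists_castSucc_eq.2 hj
    rw [h j', mul_zero, zero_mul]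
  · intro h'
    exact absurd (Finset.mem_univ _) h'

section UP

variable {F K : Type} [Field F] [NumberField F] [Field K] [NumberField K] [Algebra F K]
  [IsGalois F K] {G : Type} [CommGroup G] [Fintype G] {ι : G ≃* (K ≃ₐ[F] K)}
  {S T : Finset (HeightOneSpectrum (𝓞 F))} {r : ℕ} {w : Fin r → Pl K}
  {fr : HeightOneSpectrum (𝓞 F) → G}

theorem UP2_lead {v : HeightOneSpectrum (𝓞 F)} (hv : v ∉ S) (hfr : fr v = 1)
    {c : (G →* ℂˣ) → ℂ} (hc : LeadI S T r fr c) :
    LeadI (Finset.cons v S hv) T (r + 1) fr (fun χ => c χ * (Real.log (nv v) : ℂ)) := by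
  intro χ hχ
  obtain ⟨Λ, h1, h2, h3⟩ := hc χ hχ
  have hχ1 : (χ (fr v) : ℂ) = 1 := by rw [hfr, map_one, Units.val_one]
  have hm : MeromorphicOn (fun s : ℂ => 1 - (χ (fr v) : ℂ) * (nv v : ℂ) ^ (0 - s)) Set.univ :=
    le_mero_pow v _ 0
  refine ⟨fun s => (1 - (χ (fr v) : ℂ) * (nv v : ℂ) ^ (0 - s)) * Λ s, hm.mul h1, ?_, ?_⟩
  · intro s hs
    beta_reduce
    rw [h2 s hs, lst_consS hv χ hs, zero_sub]
  · -- the derivative of `1 - nv^{-s}` at `0`
    have hd : HasDerivAt (fun s : ℂ => 1 - (nv v : ℂ) ^ (0 - s)) (Real.log (nv v) : ℂ) 0 := by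
      have h4 : HasDerivAt (fun s : ℂ => (nv v : ℂ) ^ (0 - s))
          ((nv v : ℂ) ^ ((0 : ℂ) - 0) * Complex.log (nv v : ℂ) * (-1)) 0 := by
        have h5 : HasDerivAt (fun s : ℂ => (0 : ℂ) - s) (-1) 0 := by
          simpa using (hasDerivAt_id (0 : ℂ)).const_sub 0
        exact h5.const_cpow (Or.inl (le_nv_ne v))
      have h6 := h4.const_sub 1
      have h7 : -((nv v : ℂ) ^ ((0 : ℂ) - 0) * Complex.log (nv v : ℂ) * (-1)) =
          (Real.log (nv v) : ℂ) := by
        rw [sub_zero, Complex.cpow_zero, Complex.natCast_log]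
        ring
      rwa [h7] at h6
    have hs := hd.tendsto_slope
    have hs' : Tendsto (fun s : ℂ => (1 - (χ (fr v) : ℂ) * (nv v : ℂ) ^ (0 - s)) / s) (𝓝[≠] 0)
        (𝓝 (Real.log (nv v) : ℂ)) := by
      refine hs.congr fun s => ?_
      rw [slope_def_field, hχ1]
      simp
    have h5 := h3.mul hs'
    refine h5.congr' ?_
    filter_upwards [self_mem_nhdsWithin] with s hs0
    have hs0' : s ≠ 0 := hs0
    show Λ s / s ^ r * (_ / s) = _ * Λ s / s ^ (r + 1)
    rw [pow_succ, div_mul_div_comm, mul_comm (Λ s)]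

/-- the places `γ W` lie above `v` -/
theorem UP2_under (W : HeightOneSpectrum (𝓞 K)) (γ : G) :
    (l2_pl ι W γ).under (𝓞 F) = W.under (𝓞 F) := by
  have h2 := dn_act (ι γ) (Sum.inr W : Pl K)
  rw [l2_act] at h2
  exact Sum.inr_injective h2

/-- an element with divisor `h W` outside `S` -/
theorem UP2_elt (hD : Data ι S T r w fr) {v : HeightOneSpectrum (𝓞 F)} (hv : v ∉ S)
    (hvT : v ∉ T) {W : HeightOneSpectrum (𝓞 K)} (hW : W.under (𝓞 F) = v)
    (hspl : ∀ σ : K ≃ₐ[F] K, act σ (Sum.inr W : Pl K) = Sum.inr W → σ = 1) :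
    ∃ (α : UM ι (Finset.cons v S hv) T) (h : ℕ), 0 < h ∧
      l2_f ι (Finset.cons v S hv) T W α = MonoidAlgebra.single 1 (h : ℤ) := by
  classical
  obtain ⟨htf, hdis⟩ := tf_H hD
  obtain ⟨n, ⟨bb⟩⟩ := un_exists hdis htf
  have hpos : 0 < hA (ovr K S) (ovr K T) := (cnf hdis htf bb).2.2.1
  have hDv : (Finsupp.single W (1 : ℤ) : HeightOneSpectrum (𝓞 K) →₀ ℤ) ∈ Dv (ovr K T) := by
    intro u hu
    rw [Finsupp.single_apply, if_neg]
    rintro rfl
    rw [mem_ovr, hW] at hu
    exact hvT hu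
  have hmem : hA (ovr K S) (ovr K T) • (Finsupp.single W (1 : ℤ) : HeightOneSpectrum (𝓞 K) →₀ ℤ) ∈
      Pr (ovr K S) (ovr K T) := by
    have h1 := AddSubgroup.nsmul_index_mem
      ((Pr (ovr K S) (ovr K T)).addSubgroupOf (Dv (ovr K T)))
      (⟨Finsupp.single W (1 : ℤ), hDv⟩ : Dv (ovr K T))
    exact h1
  obtain ⟨-, x, hxT, hx⟩ := hmem
  have hval : ∀ u, u ∉ ovr K S → u ≠ W → u.valuation K (x : K) = 1 := by
    intro u hu hne
    have h1 := hx u hu
    rw [Finsupp.smul_apply, Finsupp.single_apply, if_neg (Ne.symm hne), smul_zero] at h1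
    exact l2_ordv_zero x.ne_zero h1.symm
  have hxU : x ∈ Un (ovr K (Finset.cons v S hv)) (ovr K T) := by
    refine ⟨fun u hu => ?_, hxT⟩
    rw [mem_ovr, Finset.mem_cons, not_or] at hu
    refine hval u ?_ ?_
    · rw [mem_ovr]
      exact hu.2
    · rintro rfl
      exact hu.1 hW
  refine ⟨UM.mk x hxU, hA (ovr K S) (ovr K T), hpos, ?_⟩
  rw [l2_f_apply, Finset.sum_eq_single (1 : G)]
  · have h1 : l2_pl ι W 1 = W := by
      have h2 := act_one (F := F) (Sum.inr W : Pl K)
      rw [← map_one ι, l2_act] at h2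
      exact Sum.inr_injective h2
    have h2 : W ∉ ovr K S := by
      rw [mem_ovr, hW]
      exact hv
    have h3 := hx W h2
    rw [Finsupp.smul_apply, Finsupp.single_apply, if_pos rfl, nsmul_eq_mul, mul_one] at h3
    rw [h1, UM.val_mk, ← h3]
  · intro γ _ hγ
    have h1 : l2_pl ι W γ ≠ W := by
      intro h2
      apply hγ
      have h3 := hspl (ι γ) (by rw [l2_act, h2])
      rw [← map_one ι] at h3
      exact ι.injective h3
    have h2 : l2_pl ι W γ ∉ ovr K S := by
      rw [mem_ovr, UP2_under, hW]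
      exact hv
    have h3 := hx _ h2
    rw [Finsupp.smul_apply, Finsupp.single_apply, if_neg (Ne.symm h1), smul_zero] at h3
    rw [UM.val_mk, ← h3, MonoidAlgebra.single_zero]
  · intro h
    exact absurd (Finset.mem_univ _) h

theorem up_split_pr (hD : Data ι S T r w fr) {v : HeightOneSpectrum (𝓞 F)} (hv : v ∉ S)
    (hvT : v ∉ T) (hfr : fr v = 1) {W : HeightOneSpectrum (𝓞 K)} (hW : W.under (𝓞 F) = v)
    {c : (G →* ℂˣ) → ℂ} (hc : LeadI S T r fr c) {b : Fin r → UM ι S T} {x : MonoidAlgebra ℚ G}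
    (hco : CoreF ι S T w c b x) :
    LeadI (Finset.cons v S hv) T (r + 1) fr (fun χ => c χ * (Real.log (nv v) : ℂ)) ∧
    ∃ (α : UM ι (Finset.cons v S hv) T) (h : ℕ), 0 < h ∧
      CoreF ι (Finset.cons v S hv) T (Fin.snoc (α := fun _ => Pl K) w (Sum.inr W))
        (fun χ => c χ * (Real.log (nv v) : ℂ))
        (Fin.snoc (α := fun _ => UM ι (Finset.cons v S hv) T)
          (fun i => incU ι (Finset.subset_cons hv) (Finset.Subset.refl T) (b i)) α)
        (x * MonoidAlgebra.single 1 (-(h : ℚ)⁻¹)) ∧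
      ∀ ψ : Fin r → (UM ι S T →ₗ[MonoidAlgebra ℤ G] MonoidAlgebra ℤ G),
        ∃ ψ₁ : Fin (r + 1) → (UM ι (Finset.cons v S hv) T →ₗ[MonoidAlgebra ℤ G]
            MonoidAlgebra ℤ G),
          (pmat ψ₁ (Fin.snoc (α := fun _ => UM ι (Finset.cons v S hv) T)
            (fun i => incU ι (Finset.subset_cons hv) (Finset.Subset.refl T) (b i)) α)).det =
              MonoidAlgebra.single 1 (h : ℤ) * (pmat ψ b).det := by
  classical
  have hD₁ := data_split hD hv hvT hfr hW
  have hfin : Module.Finite ℤ (UM ι (Finset.cons v S hv) T) := um_finite hD₁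
  have hspl : ∀ σ : K ≃ₐ[F] K, act σ (Sum.inr W : Pl K) = Sum.inr W → σ = 1 := by
    have h1 := hD₁.split (Fin.last r)
    rw [Fin.snoc_last] at h1
    exact h1
  have hlog := l2_nv hD hv hW hspl
  obtain ⟨α, h, hh, hα⟩ := UP2_elt hD hv hvT hW hspl
  have hinc : ∀ u : UM ι S T, incU ι (Finset.subset_cons hv) (Finset.Subset.refl T) u =
      l2_inc ι T hv u := fun u => UM.ext rfl
  set f := l2_f ι (Finset.cons v S hv) T W with hf
  have hfb : ∀ u : UM ι S T, f (incU ι (Finset.subset_cons hv) (Finset.Subset.refl T) u) = 0 := by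
    intro u
    rw [hinc, hf]
    exact l2_f_inc hv hW u
  refine ⟨UP2_lead hv hfr hc, α, h, hh, ⟨?_, ?_⟩, ?_⟩
  · intro χ hχ
    rw [map_mul, hco.off χ hχ, zero_mul]
  · intro χ hχ
    set b₁ := (Fin.snoc (α := fun _ => UM ι (Finset.cons v S hv) T)
          (fun i => incU ι (Finset.subset_cons hv) (Finset.Subset.refl T) (b i)) α) with hb₁
    set w₁ := (Fin.snoc (α := fun _ => Pl K) w (Sum.inr W)) with hw₁
    have hdet : evR χ (wmat ι (Finset.cons v S hv) T w₁ b₁).det =
        (-(Real.log (nv v) : ℝ) : ℂ) * (h : ℂ) * evR χ (wmat ι S T w b).det := by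
      have h1 : evR χ (wmat ι (Finset.cons v S hv) T w₁ b₁).det =
          ((wmat ι (Finset.cons v S hv) T w₁ b₁).map (evR χ)).det :=
        RingHom.map_det (evR χ : MonoidAlgebra ℝ G →+* ℂ) _
      have h2 : evR χ (wmat ι S T w b).det = ((wmat ι S T w b).map (evR χ)).det :=
        RingHom.map_det (evR χ : MonoidAlgebra ℝ G →+* ℂ) _
      have hlast : ∀ j, (wmat ι (Finset.cons v S hv) T w₁ b₁).map (evR χ) (Fin.last r) j =
          (-(Real.log (nv v) : ℝ) : ℂ) * evZ χ (f (b₁ j)) := by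
        intro j
        have h3 := l2_evR_wl (ι := ι) (S := Finset.cons v S hv) (T := T) χ W (b₁ j)
        rw [hlog] at h3
        show evR χ (wl ι (Finset.cons v S hv) T (w₁ (Fin.last r)) (b₁ j)) = _
        rw [hw₁, Fin.snoc_last]
        exact h3
      rw [h1, h2, UP2_det]
      · rw [hlast]
        have h3 : b₁ (Fin.last r) = α := by rw [hb₁, Fin.snoc_last]
        rw [h3, hα, l2_evZ_single, map_one, Units.val_one, mul_one]
        rw [Int.cast_natCast]
        congr 2
        ext i j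
        show evR χ (wl ι (Finset.cons v S hv) T (w₁ i.castSucc) (b₁ j.castSucc)) =
          evR χ (wl ι S T (w i) (b j))
        rw [hw₁, hb₁, Fin.snoc_castSucc, Fin.snoc_castSucc]
        rfl
      · intro j
        rw [hlast]
        have h3 : b₁ j.castSucc =
            incU ι (Finset.subset_cons hv) (Finset.Subset.refl T) (b j) := by
          rw [hb₁, Fin.snoc_castSucc]
        rw [h3, hfb, map_zero, mul_zero]
    rw [hdet, map_mul, l2_evQ_single, map_one, Units.val_one, mul_one, ← hco.value χ hχ]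
    have hh0 : (h : ℂ) ≠ 0 := by exact_mod_cast hh.ne'
    push_cast
    field_simp
  · intro ψ
    have hext : ∀ i, ∃ ψ₁ : UM ι (Finset.cons v S hv) T →ₗ[MonoidAlgebra ℤ G] MonoidAlgebra ℤ G,
        ∀ u, ψ₁ (l2_inc ι T hv u) = ψ i u := fun i =>
      ext_lat (l2_inc ι T hv) (l2_inc_inj hv) (fun n u hn hu => l2_sat hv hW n u hn hu) (ψ i)
    choose ψ₁ hψ₁ using hext
    refine ⟨Fin.snoc (α := fun _ => UM ι (Finset.cons v S hv) T →ₗ[MonoidAlgebra ℤ G]
      MonoidAlgebra ℤ G) ψ₁ f, ?_⟩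
    rw [UP2_det]
    · congr 1
      · show (Fin.snoc (α := fun _ => UM ι (Finset.cons v S hv) T →ₗ[MonoidAlgebra ℤ G]
          MonoidAlgebra ℤ G) ψ₁ f (Fin.last r)) (Fin.snoc (α := fun _ => UM ι
            (Finset.cons v S hv) T) (fun i => incU ι (Finset.subset_cons hv)
              (Finset.Subset.refl T) (b i)) α (Fin.last r)) = _
        rw [Fin.snoc_last, Fin.snoc_last, hα]
      · congr 1
        ext1 i j
        show (Fin.snoc (α := fun _ => UM ι (Finset.cons v S hv) T →ₗ[MonoidAlgebra ℤ G]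
          MonoidAlgebra ℤ G) ψ₁ f i.castSucc) (Fin.snoc (α := fun _ => UM ι
            (Finset.cons v S hv) T) (fun i => incU ι (Finset.subset_cons hv)
              (Finset.Subset.refl T) (b i)) α j.castSucc) = ψ i (b j)
        rw [Fin.snoc_castSucc, Fin.snoc_castSucc, hinc, hψ₁]
    · intro j
      show (Fin.snoc (α := fun _ => UM ι (Finset.cons v S hv) T →ₗ[MonoidAlgebra ℤ G]
        MonoidAlgebra ℤ G) ψ₁ f (Fin.last r)) (Fin.snoc (α := fun _ => UM ι
          (Finset.cons v S hv) T) (fun i => incU ι (Finset.subset_cons hv)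
            (Finset.Subset.refl T) (b i)) α j.castSucc) = _
      rw [Fin.snoc_castSucc, Fin.snoc_last, hfb]

end UP

end Pool.Agent.CR

namespace Pool.Agent.CR
open Pool.Agent.RSK Pool.Agent.RS2 Pool.Agent.RS3 Pool.Agent.SY
open NumberField IsDedekindDomain Filter Topology Complex

section
variable {F K : Type} [Field F] [NumberField F] [Field K] [NumberField K] [Algebra F K]
  [IsGalois F K] {G : Type} [CommGroup G] [Fintype G] {ι : G ≃* (K ≃ₐ[F] K)}
  {S T : Finset (HeightOneSpectrum (𝓞 F))} {r : ℕ} {w : Fin r → Pl K}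
  {fr : HeightOneSpectrum (𝓞 F) → G}

theorem up_split (hD : Data ι S T r w fr) {v : HeightOneSpectrum (𝓞 F)} (hv : v ∉ S)
    (hvT : v ∉ T) (hfr : fr v = 1) {W : HeightOneSpectrum (𝓞 K)} (hW : W.under (𝓞 F) = v)
    {c : (G →* ℂˣ) → ℂ} (hc : LeadI S T r fr c) {b : Fin r → UM ι S T} {x : MonoidAlgebra ℚ G}
    (hco : CoreF ι S T w c b x) :
    LeadI (Finset.cons v S hv) T (r + 1) fr (fun χ => c χ * (Real.log (nv v) : ℂ)) ∧
    ∃ (α : UM ι (Finset.cons v S hv) T) (h : ℕ), 0 < h ∧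
      CoreF ι (Finset.cons v S hv) T (Fin.snoc (α := fun _ => Pl K) w (Sum.inr W))
        (fun χ => c χ * (Real.log (nv v) : ℂ))
        (Fin.snoc (α := fun _ => UM ι (Finset.cons v S hv) T)
          (fun i => incU ι (Finset.subset_cons hv) (Finset.Subset.refl T) (b i)) α)
        (x * MonoidAlgebra.single 1 (-(h : ℚ)⁻¹)) ∧
      ∀ ψ : Fin r → (UM ι S T →ₗ[MonoidAlgebra ℤ G] MonoidAlgebra ℤ G),
        ∃ ψ₁ : Fin (r + 1) → (UM ι (Finset.cons v S hv) T →ₗ[MonoidAlgebra ℤ G]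
            MonoidAlgebra ℤ G),
          (pmat ψ₁ (Fin.snoc (α := fun _ => UM ι (Finset.cons v S hv) T)
            (fun i => incU ι (Finset.subset_cons hv) (Finset.Subset.refl T) (b i)) α)).det =
              MonoidAlgebra.single 1 (h : ℤ) * (pmat ψ b).det :=
  @Pool.Agent.CR.up_split_pr F K _ _ _ _ _ _ G _ _ ι S T r w fr hD v hv hvT hfr W hW c hc b x hco

end

end Pool.Agent.CR
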