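import Pool.Agent.Lib_helper17.CRF.D_WL
import Pool.Agent.Lib_helper17.RS.P_DI
import Pool.Agent.Lib_helper17.CRF.B_AV
import Pool.Agent.Lib_helper17.CRF.L_UP1
import Pool.Agent.Lib_helper17.CRF.L_UP2
import Pool.Agent.Lib_helper17.CRF.L_UQ
import Pool.Agent.Lib_helper17.CRF.L_CC0

set_option autoImplicit false
set_option linter.unusedSectionVars false

namespace Pool.Agent.CR

open Pool.Agent.RSK Pool.Agent.RS2 Pool.Agent.RS3 Pool.Agent.SY
open NumberField IsDedekindDomain Filter Topology Complex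

section CCpr

variable {F K : Type} [Field F] [NumberField F] [Field K] [NumberField K] [Algebra F K]
  [IsGalois F K] {G : Type} [CommGroup G] [Fintype G] {ι : G ≃* (K ≃ₐ[F] K)}
  {S T : Finset (HeightOneSpectrum (𝓞 F))} {r : ℕ} {w : Fin r → Pl K}
  {fr : HeightOneSpectrum (𝓞 F) → G}

theorem cc1_evQ_single (χ : G →* ℂˣ) (g : G) (q : ℚ) :
    evQ χ (MonoidAlgebra.single g q) = (q : ℂ) * (χ g : ℂ) := by
  rw [evQ, MonoidAlgebra.lift_single, Rat.smul_def]
  rfl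

theorem cc1_evZ_single (χ : G →* ℂˣ) (g : G) (q : ℤ) :
    evZ χ (MonoidAlgebra.single g q) = (q : ℂ) * (χ g : ℂ) := by
  have h : toQ G (MonoidAlgebra.single g q) = MonoidAlgebra.single g (q : ℚ) := by
    rw [toQ]
    simp
  show evQ χ (toQ G (MonoidAlgebra.single g q)) = _
  rw [h, cc1_evQ_single]
  push_cast
  rfl

theorem cc1_evZ_toQ (χ : G →* ℂˣ) (a : MonoidAlgebra ℤ G) : evQ χ (toQ G a) = evZ χ a := rfl

/-- the order of a generator of the elements of `l`-power order -/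
theorem cc1_syl {l : ℕ} (hl : l.Prime) {s : G} (hs : SylG l s) :
    orderOf s = l ^ (Nat.card G).factorization l := by
  have := Fact.mk hl
  obtain ⟨i, hi⟩ := (hs s).2 (Subgroup.mem_zpowers s)
  obtain ⟨m, _, hm⟩ := (Nat.dvd_prime_pow hl).1 (orderOf_dvd_of_pow_eq_one hi)
  have h1 : l ^ m ∣ Nat.card G := hm ▸ orderOf_dvd_natCard s
  have h2 : m ≤ (Nat.card G).factorization l :=
    (hl.pow_dvd_iff_le_factorization Nat.card_pos.ne').1 h1
  obtain ⟨P⟩ := (inferInstance : Nonempty (Sylow l G))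
  have h3 : Nat.card P = l ^ (Nat.card G).factorization l := P.card_eq_multiplicity
  have h4 : (P : Subgroup G) ≤ Subgroup.zpowers s := by
    intro g hg
    obtain ⟨k, hk⟩ := P.isPGroup' ⟨g, hg⟩
    exact (hs g).1 ⟨k, congrArg Subtype.val hk⟩
  have h5 := Subgroup.card_dvd_of_le h4
  rw [Nat.card_zpowers, hm] at h5
  have h6 : l ^ (Nat.card G).factorization l ∣ l ^ m := h3 ▸ h5
  rw [hm, le_antisymm h2 ((Nat.pow_dvd_pow_iff_le_right hl.one_lt).1 h6)]

theorem cc1_zp {l : ℕ} {g : G} :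
    (∀ x ∈ Subgroup.zpowers g, ∃ i : ℕ, x ^ l ^ i = 1) ↔ ∃ i : ℕ, g ^ l ^ i = 1 := by
  constructor
  · exact fun h => h g (Subgroup.mem_zpowers g)
  · rintro ⟨i, hi⟩ x hx
    obtain ⟨k, rfl⟩ := Subgroup.mem_zpowers_iff.1 hx
    refine ⟨i, ?_⟩
    rw [← zpow_natCast, ← zpow_mul, mul_comm, zpow_mul, zpow_natCast, hi, one_zpow]

/-- the algebra: removing the factor `1 - g⁻¹` -/
theorem cc1_main {l M : ℕ} (hl : l.Prime) [IsCyclic G] {s : G} (hs : SylG l s) {g : G}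
    (hg1 : g ≠ 1) {y : MonoidAlgebra ℚ G}
    (h : LDiv l (M + wtB l (Subgroup.zpowers g)) s
      ((1 - MonoidAlgebra.single g⁻¹ 1) * y)) : LDiv l M s y := by
  have hev : ∀ χ : G →* ℂˣ, evQ χ (1 - MonoidAlgebra.single g⁻¹ 1 : MonoidAlgebra ℚ G) =
      1 - (χ g⁻¹ : ℂ) := by
    intro χ
    rw [map_sub, map_one, cc1_evQ_single, Rat.cast_one, one_mul]
  obtain ⟨k, a, hk, ha⟩ := h
  by_cases hgl : ∃ i : ℕ, g ^ l ^ i = 1
  · -- `g` has `l`-power order
    have hinv : ∃ i : ℕ, g⁻¹ ^ l ^ i = 1 := by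
      obtain ⟨i, hi⟩ := hgl
      exact ⟨i, by rw [inv_pow, hi, inv_one]⟩
    obtain ⟨v, v', hv⟩ := unit_l hl hs (inv_ne_one.2 hg1) hinv
    have hwt : wtB l (Subgroup.zpowers g) = orderOf s / orderOf g⁻¹ := by
      rw [wtB, if_pos ⟨fun h => hg1 (Subgroup.zpowers_eq_bot.1 h), cc1_zp.2 hgl⟩,
        Nat.card_zpowers, cc1_syl hl hs, orderOf_inv]
    refine ⟨k, a * v, hk, fun χ hχ => ?_⟩
    have h1 := ha χ hχ
    rw [map_mul, hev, hwt, pow_add, (hv χ hχ).1] at h1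
    have h0 : (1 - (χ g⁻¹ : ℂ)) ≠ 0 := by
      intro h0
      have : (χ g⁻¹ : ℂ) = ((1 : ℂˣ) : ℂ) := by
        rw [Units.val_one]
        linear_combination -h0
      have h2 : χ g⁻¹ = χ 1 := by rw [map_one]; exact Units.ext this
      exact hg1 (inv_eq_one.1 (hχ h2))
    rw [map_mul]
    refine mul_left_cancel₀ h0 ?_
    linear_combination h1
  · have hinv : ¬ ∃ i : ℕ, g⁻¹ ^ l ^ i = 1 := by
      rintro ⟨i, hi⟩
      rw [inv_pow, inv_eq_one] at hi
      exact hgl ⟨i, hi⟩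
    obtain ⟨k', v, hk', hv⟩ := unit_g (G := G) hl hinv
    have hwt : wtB l (Subgroup.zpowers g) = 0 := by
      rw [wtB, if_neg fun h => hgl (cc1_zp.1 h.2)]
    refine ldiv_unit hl hk' (a := 1 - MonoidAlgebra.single g⁻¹ 1) (v := v) (fun χ hχ => ?_) ?_
    · rw [hv χ hχ, map_sub, map_one, cc1_evZ_single, Int.cast_one, one_mul]
    · refine ⟨k, a, hk, fun χ hχ => ?_⟩
      have h1 := ha χ hχ
      rw [hwt, add_zero] at h1
      rw [← h1]
      congr 2
      rw [map_sub, map_one]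
      congr 2
      rw [toQ]
      simp

/-- CC1. Removing a nonsplit place: `up_non`, `ext_S`, `core_uniqI`; `1 - χ(fr v)⁻¹` is a unit at `l`
(`unit_g`) or `(χ(s) - 1) ^ wt` times a unit (`unit_l`), `wt = orderOf s / orderOf (fr v)`. -/
theorem cc_non_pr [IsCyclic G] (hD : Data ι S T r w fr) {l M : ℕ} (hl : l.Prime) {s : G}
    (hs : SylG l s) {v : HeightOneSpectrum (𝓞 F)} (hv : v ∉ S) (hvT : v ∉ T) (hfr : fr v ≠ 1)
    (hR : RCore ι S T w fr)
    (h : CCore ι (Finset.cons v S hv) T w fr l (M + wtB l (Subgroup.zpowers (fr v))) s) :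
    CCore ι S T w fr l M s := by
  obtain ⟨c, hc, hc0, b, x, hco⟩ := hR
  obtain ⟨c', hc', hc0', b', x', hco', hL⟩ := h
  obtain ⟨h1, h2⟩ := up_non hD hv hc hco
  have hD' := data_non hD hv hvT hfr
  have hcc := leadI_uniq h1 hc'
  refine ⟨c, hc, hc0, b, x, hco, fun ψ => ?_⟩
  choose ψ₁ hψ₁ using fun i => ext_S hD (Finset.subset_cons hv) hD'.disj (ψ i)
  have h3 := core_uniqI hD' hcc (fun χ hχ => by rw [hcc χ hχ]; exact hc0' χ hχ) h2 hco' ψ₁
  have h4 : pmat ψ₁ (fun i => incU ι (Finset.subset_cons hv) (Finset.Subset.refl T) (b i)) =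
      pmat ψ b := by
    refine Matrix.ext fun i j => ?_
    exact hψ₁ i (b j)
  rw [h4] at h3
  refine cc1_main hl hs hfr ?_
  have h5 := hL ψ₁
  rw [← h3] at h5
  convert h5 using 1
  ring

/-- CC2. Removing a split place: `up_split`, `core_uniqI`. -/
theorem cc_split_pr [IsCyclic G] (hD : Data ι S T r w fr) {l M : ℕ} (hl : l.Prime) {s : G}
    {v : HeightOneSpectrum (𝓞 F)} (hv : v ∉ S) (hvT : v ∉ T) (hfr : fr v = 1)
    {W : HeightOneSpectrum (𝓞 K)} (hW : W.under (𝓞 F) = v) (hR : RCore ι S T w fr)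
    (h : CCore ι (Finset.cons v S hv) T (Fin.snoc (α := fun _ => Pl K) w (Sum.inr W)) fr l M s) :
    CCore ι S T w fr l M s := by
  obtain ⟨c, hc, hc0, b, x, hco⟩ := hR
  obtain ⟨c', hc', hc0', b', x', hco', hL⟩ := h
  obtain ⟨h1, α, n, hn, h2, hψ⟩ := up_split hD hv hvT hfr hW hc hco
  have hD' := data_split hD hv hvT hfr hW
  have hcc := leadI_uniq h1 hc'
  refine ⟨c, hc, hc0, b, x, hco, fun ψ => ?_⟩
  obtain ⟨ψ₁, hψ₁⟩ := hψ ψ
  have h3 := core_uniqI hD' hcc (fun χ hχ => by rw [hcc χ hχ]; exact hc0' χ hχ) h2 hco' ψ₁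
  have h5 := ldiv_mul hl (hL ψ₁) (-1)
  rw [← h3, hψ₁] at h5
  have hn' : (n : ℚ) ≠ 0 := by exact_mod_cast hn.ne'
  have h6 : toQ G (MonoidAlgebra.single 1 (n : ℤ)) = MonoidAlgebra.single (1 : G) (n : ℚ) := by
    rw [toQ]
    simp
  have h7 : (MonoidAlgebra.single 1 (-(n : ℚ)⁻¹) : MonoidAlgebra ℚ G) *
      MonoidAlgebra.single (1 : G) (n : ℚ) = -1 := by
    rw [MonoidAlgebra.single_mul_single, one_mul, neg_mul, inv_mul_cancel₀ hn',
      MonoidAlgebra.single_neg, MonoidAlgebra.one_def]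
  convert h5 using 1
  rw [map_mul, h6, map_neg, map_one]
  linear_combination (x * toQ G (pmat ψ b).det) * h7

end CCpr

end Pool.Agent.CR

namespace Pool.Agent.CR
open Pool.Agent.RSK Pool.Agent.RS2 Pool.Agent.RS3 Pool.Agent.SY
open NumberField IsDedekindDomain Filter Topology Complex

section
variable {F K : Type} [Field F] [NumberField F] [Field K] [NumberField K] [Algebra F K]
  [IsGalois F K] {G : Type} [CommGroup G] [Fintype G] {ι : G ≃* (K ≃ₐ[F] K)}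
  {S T : Finset (HeightOneSpectrum (𝓞 F))} {r : ℕ} {w : Fin r → Pl K}
  {fr : HeightOneSpectrum (𝓞 F) → G}

theorem cc_non [IsCyclic G] (hD : Data ι S T r w fr) {l M : ℕ} (hl : l.Prime) {s : G}
    (hs : SylG l s) {v : HeightOneSpectrum (𝓞 F)} (hv : v ∉ S) (hvT : v ∉ T) (hfr : fr v ≠ 1)
    (hR : RCore ι S T w fr)
    (h : CCore ι (Finset.cons v S hv) T w fr l (M + wtB l (Subgroup.zpowers (fr v))) s) :
    CCore ι S T w fr l M s :=
  @Pool.Agent.CR.cc_non_pr F K _ _ _ _ _ _ G _ _ ι S T r w fr _ hD l M hl s hs v hv hvT hfr hR h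

end

end Pool.Agent.CR

namespace Pool.Agent.CR
open Pool.Agent.RSK Pool.Agent.RS2 Pool.Agent.RS3 Pool.Agent.SY
open NumberField IsDedekindDomain Filter Topology Complex

section
variable {F K : Type} [Field F] [NumberField F] [Field K] [NumberField K] [Algebra F K]
  [IsGalois F K] {G : Type} [CommGroup G] [Fintype G] {ι : G ≃* (K ≃ₐ[F] K)}
  {S T : Finset (HeightOneSpectrum (𝓞 F))} {r : ℕ} {w : Fin r → Pl K}
  {fr : HeightOneSpectrum (𝓞 F) → G}

theorem cc_split [IsCyclic G] (hD : Data ι S T r w fr) {l M : ℕ} (hl : l.Prime) {s : G}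
    {v : HeightOneSpectrum (𝓞 F)} (hv : v ∉ S) (hvT : v ∉ T) (hfr : fr v = 1)
    {W : HeightOneSpectrum (𝓞 K)} (hW : W.under (𝓞 F) = v) (hR : RCore ι S T w fr)
    (h : CCore ι (Finset.cons v S hv) T (Fin.snoc (α := fun _ => Pl K) w (Sum.inr W)) fr l M s) :
    CCore ι S T w fr l M s :=
  @Pool.Agent.CR.cc_split_pr F K _ _ _ _ _ _ G _ _ ι S T r w fr _ hD l M hl s v hv hvT hfr W hW hR h

end

end Pool.Agent.CR
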