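import Pool.Agent.Lib_helper17.CRF.D_WL
import Pool.Agent.Lib_helper17.RS.P_LE
import Pool.Agent.Lib_helper17.CRF.L_UP2
import Pool.Agent.Lib_helper17.CRF.L_CC1
import Pool.Agent.Lib_helper17.CRF.N_NO4
import Pool.Agent.Lib_helper17.CRF.N_PC1
import Pool.Agent.Lib_helper17.CRF.L_UP1

/-!
# Composite Rubin (CR), block CC5: chain in `S`
-/

set_option autoImplicit false
set_option linter.unusedSectionVars false

namespace Pool.Agent.CR

open Pool.Agent.RSK Pool.Agent.RS2 Pool.Agent.RS3 Pool.Agent.SY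
open NumberField IsDedekindDomain Filter Topology Complex

section UP

variable {F K : Type} [Field F] [NumberField F] [Field K] [NumberField K] [Algebra F K]
  [IsGalois F K] {G : Type} [CommGroup G] [Fintype G] {ι : G ≃* (K ≃ₐ[F] K)}
  {S T : Finset (HeightOneSpectrum (𝓞 F))} {r : ℕ} {w : Fin r → Pl K}
  {fr : HeightOneSpectrum (𝓞 F) → G}

theorem cc5_wts_eq (ι : G ≃* (K ≃ₐ[F] K)) (S : Finset (HeightOneSpectrum (𝓞 F))) (l : ℕ) :
    wts ι S l = ∑ w : InfinitePlace F, wtB l (dgF ι (Sum.inl w : Pl F)) +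
      ∑ v ∈ S, wtB l (dgF ι (Sum.inr v : Pl F)) := by
  unfold wts
  rw [Fintype.sum_sum_type]
  congr 1
  exact Finset.sum_coe_sort S (fun v => wtB l (dgF ι (Sum.inr v : Pl F)))

theorem cc5_wts_cons (hD : Data ι S T r w fr) {v : HeightOneSpectrum (𝓞 F)} (hv : v ∉ S)
    (l : ℕ) :
    wts ι (Finset.cons v S hv) l = wts ι S l + wtB l (Subgroup.zpowers (fr v)) := by
  have h1 : dgF ι (Sum.inr v : Pl F) = Subgroup.zpowers (fr v) :=
    dgF_fr (fun W hW => hD.unram W (by rw [hW]; exact hv)) (hD.frob v hv)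
  rw [cc5_wts_eq, cc5_wts_eq, Finset.sum_cons, h1]
  ring

theorem cc5_wtB_bot (l : ℕ) : wtB l (⊥ : Subgroup G) = 0 := by
  unfold wtB
  rw [if_neg]
  rintro ⟨h, -⟩
  exact h rfl

theorem cc_chainS_pr [IsCyclic G] {l : ℕ} (hl : l.Prime) {s : G} (hs : SylG l s)
    {S₁ T : Finset (HeightOneSpectrum (𝓞 F))} (hd : Disjoint S₁ T) (n : ℕ)
    {S : Finset (HeightOneSpectrum (𝓞 F))} {r : ℕ} {w : Fin r → Pl K}
    (hD : Data ι S T r w fr) (hSS : S ⊆ S₁) (hn : S.card + n = S₁.card)
    (hR : RCore ι S T w fr)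
    (h : ∀ {r₁ : ℕ} (w₁ : Fin r₁ → Pl K), Data ι S₁ T r₁ w₁ fr → RCore ι S₁ T w₁ fr →
      CCore ι S₁ T w₁ fr l (wts ι S₁ l - del l G) s) :
    CCore ι S T w fr l (wts ι S l - del l G) s := by
  induction n generalizing S r with
  | zero =>
    have e : S = S₁ := Finset.eq_of_subset_of_card_le hSS (by omega)
    subst e
    exact h w hD hR
  | succ n ih =>
    obtain ⟨v, hv₁, hv⟩ : ∃ v ∈ S₁, v ∉ S := by
      by_contra hcon
      push Not at hcon
      have := Finset.card_le_card (show S₁ ⊆ S from hcon)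
      omega
    have hvT : v ∉ T := Finset.disjoint_left.1 hd hv₁
    have hsub : Finset.cons v S hv ⊆ S₁ := by
      intro v' hv'
      rcases Finset.mem_cons.1 hv' with rfl | h'
      · exact hv₁
      · exact hSS h'
    have hcard : (Finset.cons v S hv).card + n = S₁.card := by
      rw [Finset.card_cons]
      omega
    have hw := cc5_wts_cons hD hv l
    obtain ⟨c, hc, hc0, b, x, hco⟩ := id hR
    by_cases hfr : fr v = 1
    · obtain ⟨W, hW⟩ : ∃ W : HeightOneSpectrum (𝓞 K), W.under (𝓞 F) = v := by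
        obtain ⟨W, hW⟩ := dn_surj (F := F) (H := K) (Sum.inr v)
        rcases W with W | W
        · exact absurd hW (by simp [dn])
        · exact ⟨W, by simpa [dn] using hW⟩
      refine cc_split hD hl hv hvT hfr hW hR ?_
      obtain ⟨hc', α, k, hk, hco', -⟩ := up_split hD hv hvT hfr hW hc hco
      have hR' : RCore ι (Finset.cons v S hv) T (Fin.snoc (α := fun _ => Pl K) w (Sum.inr W))
          fr := by
        refine ⟨_, hc', fun χ hχ => mul_ne_zero (hc0 χ hχ) ?_, _, _, hco'⟩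
        have h2 : (0 : ℝ) < Real.log (nv v) := Real.log_pos (by linarith [le_nv_pos v])
        exact Complex.ofReal_ne_zero.2 h2.ne'
      have hi := ih (data_split hD hv hvT hfr hW) hsub hcard hR'
      rw [hw, hfr, Subgroup.zpowers_one_eq_bot, cc5_wtB_bot, add_zero] at hi
      exact hi
    · refine cc_non hD hl hs hv hvT hfr hR ?_
      obtain ⟨hc', hco'⟩ := up_non hD hv hc hco
      have hR' : RCore ι (Finset.cons v S hv) T w fr := by
        refine ⟨_, hc', fun χ hχ => mul_ne_zero (hc0 χ hχ) ?_, _, _, hco'⟩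
        intro h1
        apply hfr
        apply hχ
        rw [map_one]
        apply Units.ext
        rw [Units.val_one]
        exact (sub_eq_zero.1 h1).symm
      have hi := ih (data_non hD hv hvT hfr) hsub hcard hR'
      rw [hw, Nat.sub_add_comm (wts_ge hD hl).1] at hi
      exact hi

end UP

end Pool.Agent.CR

namespace Pool.Agent.CR
open Pool.Agent.RSK Pool.Agent.RS2 Pool.Agent.RS3 Pool.Agent.SY
open NumberField IsDedekindDomain Filter Topology Complex

section
variable {F K : Type} [Field F] [NumberField F] [Field K] [NumberField K] [Algebra F K]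
  [IsGalois F K] {G : Type} [CommGroup G] [Fintype G] {ι : G ≃* (K ≃ₐ[F] K)}
  {S T : Finset (HeightOneSpectrum (𝓞 F))} {r : ℕ} {w : Fin r → Pl K}
  {fr : HeightOneSpectrum (𝓞 F) → G}

theorem cc_chainS [IsCyclic G] {l : ℕ} (hl : l.Prime) {s : G} (hs : SylG l s)
    {S₁ T : Finset (HeightOneSpectrum (𝓞 F))} (hd : Disjoint S₁ T) (n : ℕ)
    {S : Finset (HeightOneSpectrum (𝓞 F))} {r : ℕ} {w : Fin r → Pl K}
    (hD : Data ι S T r w fr) (hSS : S ⊆ S₁) (hn : S.card + n = S₁.card)
    (hR : RCore ι S T w fr)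
    (h : ∀ {r₁ : ℕ} (w₁ : Fin r₁ → Pl K), Data ι S₁ T r₁ w₁ fr → RCore ι S₁ T w₁ fr →
      CCore ι S₁ T w₁ fr l (wts ι S₁ l - del l G) s) :
    CCore ι S T w fr l (wts ι S l - del l G) s :=
  @Pool.Agent.CR.cc_chainS_pr F K _ _ _ _ _ _ G _ _ ι fr _ l hl s hs S₁ T hd n S r w hD hSS hn hR h

end

end Pool.Agent.CR
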