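import Pool.Agent.Lib_helper17.CRF.D_WL

/-!
-/

set_option autoImplicit false
set_option linter.unusedSectionVars false

namespace Pool.Agent.CR

open Pool.Agent.RSK Pool.Agent.RS2 Pool.Agent.RS3 Pool.Agent.SY
open NumberField IsDedekindDomain Filter Topology Complex

variable {F K : Type} [Field F] [NumberField F] [Field K] [NumberField K] [Algebra F K]
  [IsGalois F K] {G : Type} [CommGroup G] [Fintype G] {ι : G ≃* (K ≃ₐ[F] K)}
  {S T : Finset (HeightOneSpectrum (𝓞 F))} {r : ℕ} {w : Fin r → Pl K}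
  {fr : HeightOneSpectrum (𝓞 F) → G}

theorem up4_lead {v : HeightOneSpectrum (𝓞 F)} (hv : v ∉ T) {c : (G →* ℂˣ) → ℂ}
    (hc : LeadI S T r fr c) : LeadI S (Finset.cons v T hv) r fr
      (fun χ => c χ * (1 - (χ (fr v) : ℂ) * (nv v : ℂ))) := by
  intro χ hχ
  obtain ⟨Λ, h1, h2, h3⟩ := hc χ hχ
  refine ⟨fun s => (1 - (χ (fr v) : ℂ) * (nv v : ℂ) ^ (1 - s)) * Λ s, ?_, ?_, ?_⟩
  · exact (le_mero_pow v _ 1).mul h1
  · intro s hs
    beta_reduce
    rw [h2 s hs, lst_consT hv χ s]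
  · have h5 := (le_cont v (χ (fr v) : ℂ) 1).mul h3
    simp only [Complex.cpow_one] at h5
    rw [mul_comm _ (c χ)] at h5
    refine h5.congr fun s => ?_
    show _ * (Λ s / s ^ r) = _ * Λ s / s ^ r
    rw [mul_div_assoc]

theorem up_T_pr (hD : Data ι S T r w fr) {v : HeightOneSpectrum (𝓞 F)} (hv : v ∉ T)
    (hvS : v ∉ S) {c : (G →* ℂˣ) → ℂ} (hc : LeadI S T r fr c) {b : Fin r → UM ι S T}
    {x : MonoidAlgebra ℚ G} (hco : CoreF ι S T w c b x) :
    LeadI S (Finset.cons v T hv) r fr (fun χ => c χ * (1 - (χ (fr v) : ℂ) * (nv v : ℂ))) ∧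
    ∃ (N : ℕ) (b' : Fin r → UM ι S (Finset.cons v T hv)), 0 < N ∧
      (∀ i, incU ι (Finset.Subset.refl S) (Finset.subset_cons hv) (b' i) = N • b i) ∧
      CoreF ι S (Finset.cons v T hv) w (fun χ => c χ * (1 - (χ (fr v) : ℂ) * (nv v : ℂ))) b'
        (x * (1 - MonoidAlgebra.single (fr v)⁻¹ (nv v : ℚ)) *
          MonoidAlgebra.single 1 (((N : ℚ) ^ r)⁻¹)) := by
  refine ⟨up4_lead hv hc, ?_⟩
  have hq := nv_two_le v
  set δ : MonoidAlgebra ℤ G := 1 - MonoidAlgebra.single (fr v)⁻¹ (nv v : ℤ) with hδ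
  have hres : ∃ f : UM ι S T →ₗ[MonoidAlgebra ℤ G] (MonoidAlgebra ℤ G ⧸ Ideal.span {δ}),
      ∀ u, f u = 0 ↔ u.val ∈ Un (ovr K S) (ovr K (Finset.cons v T hv)) :=
    res_T2 (hD.frob v hvS) hv hvS
  obtain ⟨f, hf⟩ := hres
  set N : ℕ := nv v ^ Nat.card G - 1 with hN
  have hcard : 0 < Nat.card G := Nat.card_pos
  have h1lt : 1 < nv v ^ Nat.card G := Nat.one_lt_pow hcard.ne' hq
  have hN0 : 0 < N := by omega
  have hNZ : (N : ℤ) = -(1 - (nv v : ℤ) ^ Nat.card G) := by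
    rw [hN, Nat.cast_sub h1lt.le]
    push_cast
    ring
  have hmem : ∀ u : UM ι S T, (N • u).val ∈ Un (ovr K S) (ovr K (Finset.cons v T hv)) := by
    intro u
    rw [← hf]
    have h1 : N • u = -((MonoidAlgebra.single (1 : G) (1 - (nv v : ℤ) ^ Nat.card G)) • u) := by
      have h2 : MonoidAlgebra.single (1 : G) (1 - (nv v : ℤ) ^ Nat.card G) =
          (1 - (nv v : ℤ) ^ Nat.card G) • (1 : MonoidAlgebra ℤ G) := by
        rw [MonoidAlgebra.one_def, MonoidAlgebra.smul_single]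
        simp
      rw [h2, smul_assoc, one_smul, ← neg_smul, ← hNZ, natCast_zsmul]
    rw [h1, map_neg, map_smul, ← lc3_geom (fr v)⁻¹ (nv v : ℤ)]
    obtain ⟨a, ha⟩ := Ideal.Quotient.mk_surjective (f u)
    rw [← ha, neg_eq_zero]
    show Ideal.Quotient.mk (Ideal.span {δ}) (δ * _ * a) = 0
    rw [Ideal.Quotient.eq_zero_iff_mem, mul_assoc]
    exact Ideal.mul_mem_right _ _ (Ideal.mem_span_singleton_self δ)
  let b' : Fin r → UM ι S (Finset.cons v T hv) := fun j => UM.mk (N • b j).val (hmem (b j))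
  have hb' : ∀ j, l3_inc ι S T hv (b' j) = N • b j := fun j => UM.ext rfl
  have hw : wmat ι S (Finset.cons v T hv) w b' =
      (algebraMap ℝ (MonoidAlgebra ℝ G) (N : ℝ)) • wmat ι S T w b := by
    ext1 i j
    show wl ι S (Finset.cons v T hv) (w i) (b' j) =
      algebraMap ℝ (MonoidAlgebra ℝ G) (N : ℝ) * wl ι S T (w i) (b j)
    rw [l3_wl, hb', map_nsmul, ← Algebra.smul_def, Nat.cast_smul_eq_nsmul]
  have hNC : (N : ℂ) ≠ 0 := Nat.cast_ne_zero.2 hN0.ne'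
  refine ⟨N, b', hN0, fun i => UM.ext rfl, ⟨fun χ hχ => ?_, fun χ hχ => ?_⟩⟩
  · rw [map_mul, map_mul, hco.off χ hχ, zero_mul, zero_mul]
  · have h1 : evQ χ (1 - MonoidAlgebra.single (fr v)⁻¹ (nv v : ℚ)) =
        1 - ((χ⁻¹ (fr v) : ℂˣ) : ℂ) * (nv v : ℂ) := by
      rw [map_sub, map_one, l3_evQ_single, map_inv]
      have : (((χ (fr v))⁻¹ : ℂˣ) : ℂ) = ((χ⁻¹ (fr v) : ℂˣ) : ℂ) := rfl
      rw [← this]
      push_cast
      ring
    rw [hw, Matrix.det_smul, Fintype.card_fin, map_mul, map_mul, map_mul, map_pow, l3_evQ_single,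
      h1, ← hco.value χ hχ, AlgHom.commutes, map_one, Units.val_one]
    have h2 : algebraMap ℝ ℂ (N : ℝ) = (N : ℂ) := by simp
    rw [h2]
    push_cast
    have h5 : ((N : ℂ) ^ r)⁻¹ * (N : ℂ) ^ r = 1 := inv_mul_cancel₀ (pow_ne_zero _ hNC)
    linear_combination (evQ χ x * evR χ (wmat ι S T w b).det *
      (1 - ((χ⁻¹ (fr v) : ℂˣ) : ℂ) * (nv v : ℂ))) * h5


end Pool.Agent.CR

namespace Pool.Agent.CR
open Pool.Agent.RSK Pool.Agent.RS2 Pool.Agent.RS3 Pool.Agent.SY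
open NumberField IsDedekindDomain Filter Topology Complex

section
variable {F K : Type} [Field F] [NumberField F] [Field K] [NumberField K] [Algebra F K]
  [IsGalois F K] {G : Type} [CommGroup G] [Fintype G] {ι : G ≃* (K ≃ₐ[F] K)}
  {S T : Finset (HeightOneSpectrum (𝓞 F))} {r : ℕ} {w : Fin r → Pl K}
  {fr : HeightOneSpectrum (𝓞 F) → G}

theorem up_T (hD : Data ι S T r w fr) {v : HeightOneSpectrum (𝓞 F)} (hv : v ∉ T)
    (hvS : v ∉ S) {c : (G →* ℂˣ) → ℂ} (hc : LeadI S T r fr c) {b : Fin r → UM ι S T}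
    {x : MonoidAlgebra ℚ G} (hco : CoreF ι S T w c b x) :
    LeadI S (Finset.cons v T hv) r fr (fun χ => c χ * (1 - (χ (fr v) : ℂ) * (nv v : ℂ))) ∧
    ∃ (N : ℕ) (b' : Fin r → UM ι S (Finset.cons v T hv)), 0 < N ∧
      (∀ i, incU ι (Finset.Subset.refl S) (Finset.subset_cons hv) (b' i) = N • b i) ∧
      CoreF ι S (Finset.cons v T hv) w (fun χ => c χ * (1 - (χ (fr v) : ℂ) * (nv v : ℂ))) b'
        (x * (1 - MonoidAlgebra.single (fr v)⁻¹ (nv v : ℚ)) *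
          MonoidAlgebra.single 1 (((N : ℚ) ^ r)⁻¹)) :=
  @Pool.Agent.CR.up_T_pr F K _ _ _ _ _ _ G _ _ ι S T r w fr hD v hv hvS c hc b x hco

end

end Pool.Agent.CR
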