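import Pool.Agent.Lib_helper17.CRF.D_WL
import Pool.Agent.Lib_helper35.RS2.P_LC3
import Pool.Agent.Lib_helper17.CRF.L_CC0
import Pool.Agent.Lib_helper17.CRF.L_UP4

/-!
# Composite Rubin (CR), block CC3: adding a place to `T`
-/

set_option autoImplicit false
set_option linter.unusedSectionVars false

namespace Pool.Agent.CR

open Pool.Agent.RSK Pool.Agent.RS2 Pool.Agent.RS3 Pool.Agent.SY
open NumberField IsDedekindDomain Filter Topology Complex

section CC3

variable {F K : Type} [Field F] [NumberField F] [Field K] [NumberField K] [Algebra F K]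
  [IsGalois F K] {G : Type} [CommGroup G] [Fintype G] {ι : G ≃* (K ≃ₐ[F] K)}
  {S T : Finset (HeightOneSpectrum (𝓞 F))} {r : ℕ} {w : Fin r → Pl K}
  {fr : HeightOneSpectrum (𝓞 F) → G}

theorem cc3_ldiv_zero {l M : ℕ} (hl : l.Prime) {s : G} : LDiv l M s (0 : MonoidAlgebra ℚ G) :=
  ⟨1, 0, hl.one_lt.ne' ∘ Nat.dvd_one.1, fun χ _ => by rw [map_zero, map_zero, mul_zero, mul_zero]⟩

theorem cc3_ldiv_sum {l M : ℕ} (hl : l.Prime) {s : G} {I : Type} (t : Finset I)
    (y : I → MonoidAlgebra ℚ G) (h : ∀ i ∈ t, LDiv l M s (y i)) :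
    LDiv l M s (∑ i ∈ t, y i) := by
  classical
  induction t using Finset.induction_on with
  | empty => rw [Finset.sum_empty]; exact cc3_ldiv_zero hl
  | insert a t ha ih =>
    rw [Finset.sum_insert ha]
    exact ldiv_add hl (h a (Finset.mem_insert_self a t))
      (ih fun i hi => h i (Finset.mem_insert_of_mem hi))

theorem cc3_inc_inj {v : HeightOneSpectrum (𝓞 F)} (hv : v ∉ T) :
    Function.Injective (incU ι (Finset.Subset.refl S) (Finset.subset_cons hv) :
      UM ι S (Finset.cons v T hv) →ₗ[MonoidAlgebra ℤ G] UM ι S T) := by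
  intro u u' h
  have h1 := congrArg (fun z : UM ι S T => z.val) h
  exact UM.ext h1

theorem cc3_inc_range {v : HeightOneSpectrum (𝓞 F)} (hv : v ∉ T) (u : UM ι S T) :
    u ∈ LinearMap.range (incU ι (Finset.Subset.refl S) (Finset.subset_cons hv) :
      UM ι S (Finset.cons v T hv) →ₗ[MonoidAlgebra ℤ G] UM ι S T) ↔
      u.val ∈ Un (ovr K S) (ovr K (Finset.cons v T hv)) := by
  constructor
  · rintro ⟨u', rfl⟩
    exact u'.val_mem
  · intro h
    exact ⟨UM.mk u.val h, UM.ext rfl⟩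

theorem cc_addT_pr [IsCyclic G] (hD : Data ι S T r w fr) {l M : ℕ} (hl : l.Prime) {s : G}
    {v : HeightOneSpectrum (𝓞 F)} (hv : v ∉ T) (hvS : v ∉ S)
    (h : CCore ι S T w fr l M s) : CCore ι S (Finset.cons v T hv) w fr l M s := by
  obtain ⟨c, hc, hne, b, x, hco, hint⟩ := h
  have hfin := um_finite hD
  have htf := um_tf hD
  have hq := nv_two_le v
  set δ : MonoidAlgebra ℤ G := 1 - MonoidAlgebra.single (fr v)⁻¹ (nv v : ℤ) with hδ
  have hres : ∃ f : UM ι S T →ₗ[MonoidAlgebra ℤ G] (MonoidAlgebra ℤ G ⧸ Ideal.span {δ}),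
      ∀ u, f u = 0 ↔ u.val ∈ Un (ovr K S) (ovr K (Finset.cons v T hv)) :=
    res_T2 (hD.frob v hvS) hv hvS
  obtain ⟨f, hf⟩ := hres
  obtain ⟨hc', N, b', hN, hb', hco'⟩ := up_T hD hv hvS hc hco
  have hN0 : (N : ℤ) ≠ 0 := by exact_mod_cast hN.ne'
  have hNQ : (N : ℚ) ≠ 0 := by exact_mod_cast hN.ne'
  refine ⟨_, hc', fun χ hχ => mul_ne_zero (hne χ hχ) (l3_ne χ (fr v) hq), b', _, hco',
    fun ψ => ?_⟩
  obtain ⟨a, ψ₁, hψ⟩ := ext_T (fun a ha => lc3_nzd (fr v)⁻¹ hq a ha) f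
      (incU ι (Finset.Subset.refl S) (Finset.subset_cons hv)) (cc3_inc_inj hv)
      (fun u => (hf u).trans (cc3_inc_range hv u).symm) ψ b (N : ℤ) hN0
      b' (fun i => by rw [hb' i, natCast_zsmul])
  have hδQ : toQ G δ = 1 - MonoidAlgebra.single (fr v)⁻¹ (nv v : ℚ) := by
    rw [hδ, map_sub, map_one, l3_toQ_single]
    push_cast
    rfl
  have e1 : x * (1 - MonoidAlgebra.single (fr v)⁻¹ (nv v : ℚ)) *
      MonoidAlgebra.single 1 (((N : ℚ) ^ r)⁻¹) * toQ G (pmat ψ b').det =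
      ∑ t, toQ G (a t) * (x * toQ G (pmat (ψ₁ t) b).det) := by
    have h3 : toQ G (δ * (pmat ψ b').det) =
        toQ G ((N : ℤ) ^ r • ∑ t, a t * (pmat (ψ₁ t) b).det) := congrArg (toQ G) hψ
    rw [map_mul, map_zsmul, map_sum] at h3
    have h4 : MonoidAlgebra.single (1 : G) (((N : ℚ) ^ r)⁻¹) *
        MonoidAlgebra.single (1 : G) ((N : ℚ) ^ r) = 1 := by
      rw [MonoidAlgebra.single_mul_single, one_mul,
        inv_mul_cancel₀ (pow_ne_zero _ hNQ)]
      rfl
    have h5 : ((N : ℤ) ^ r) • ∑ t, toQ G (a t * (pmat (ψ₁ t) b).det) =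
        MonoidAlgebra.single (1 : G) ((N : ℚ) ^ r) *
          ∑ t, toQ G (a t * (pmat (ψ₁ t) b).det) := by
      have h6 : MonoidAlgebra.single (1 : G) ((N : ℚ) ^ r) =
          ((N : ℤ) ^ r) • (1 : MonoidAlgebra ℚ G) := by
        rw [MonoidAlgebra.one_def, MonoidAlgebra.smul_single]
        simp
      rw [h6, smul_mul_assoc, one_mul]
    rw [h5] at h3
    rw [← hδQ]
    calc _ = MonoidAlgebra.single 1 (((N : ℚ) ^ r)⁻¹) * x *
          (toQ G δ * toQ G (pmat ψ b').det) := by ring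
      _ = (MonoidAlgebra.single (1 : G) (((N : ℚ) ^ r)⁻¹) *
          MonoidAlgebra.single (1 : G) ((N : ℚ) ^ r)) * x *
            ∑ t, toQ G (a t * (pmat (ψ₁ t) b).det) := by rw [h3]; ring
      _ = ∑ t, toQ G (a t) * (x * toQ G (pmat (ψ₁ t) b).det) := by
        rw [h4, one_mul, Finset.mul_sum]
        refine Finset.sum_congr rfl fun t _ => ?_
        rw [map_mul]
        ring
  rw [e1]
  exact cc3_ldiv_sum hl _ _ fun t _ => ldiv_mul hl (hint (ψ₁ t)) (a t)

end CC3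

end Pool.Agent.CR

namespace Pool.Agent.CR
open Pool.Agent.RSK Pool.Agent.RS2 Pool.Agent.RS3 Pool.Agent.SY
open NumberField IsDedekindDomain Filter Topology Complex

section
variable {F K : Type} [Field F] [NumberField F] [Field K] [NumberField K] [Algebra F K]
  [IsGalois F K] {G : Type} [CommGroup G] [Fintype G] {ι : G ≃* (K ≃ₐ[F] K)}
  {S T : Finset (HeightOneSpectrum (𝓞 F))} {r : ℕ} {w : Fin r → Pl K}
  {fr : HeightOneSpectrum (𝓞 F) → G}

theorem cc_addT [IsCyclic G] (hD : Data ι S T r w fr) {l M : ℕ} (hl : l.Prime) {s : G}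
    {v : HeightOneSpectrum (𝓞 F)} (hv : v ∉ T) (hvS : v ∉ S)
    (h : CCore ι S T w fr l M s) : CCore ι S (Finset.cons v T hv) w fr l M s :=
  @Pool.Agent.CR.cc_addT_pr F K _ _ _ _ _ _ G _ _ ι S T r w fr _ hD l M hl s v hv hvS h

end

end Pool.Agent.CR
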