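import Pool.Agent.Lib_helper17.CRF.D_WL
import Pool.Agent.Lib_helper17.CRF.L_UP4
import Pool.Agent.Lib_helper17.CRF.L_UQ
import Pool.Agent.Lib_helper17.CRF.B_AV

/-!
# Composite Rubin (CR), block CC4: removing a place from `T`
-/

set_option autoImplicit false
set_option linter.unusedSectionVars false

namespace Pool.Agent.CR

open Pool.Agent.RSK Pool.Agent.RS2 Pool.Agent.RS3 Pool.Agent.SY
open NumberField IsDedekindDomain Filter Topology Complex

section CC4a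

variable {G : Type} [CommGroup G] [Fintype G]

/-- `k - l w` divides an integer prime to `l` -/
theorem cc4_inv {l : ℕ} (hl : l.Prime) {k : ℕ} (hk : ¬ l ∣ k) (w : MonoidAlgebra ℤ G) :
    ∃ (m : ℕ) (y : MonoidAlgebra ℤ G), ¬ l ∣ m ∧
      ((k : MonoidAlgebra ℤ G) - (l : MonoidAlgebra ℤ G) * w) * y = (m : MonoidAlgebra ℤ G) := by
  set E : MonoidAlgebra ℤ G := (k : MonoidAlgebra ℤ G) - (l : MonoidAlgebra ℤ G) * w with hE
  have hfin : Module.Finite ℤ (MonoidAlgebra ℤ G) := inferInstance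
  have hcop : IsCoprime (k : ℤ) (l : ℤ) := by
    rw [Nat.isCoprime_iff_coprime]
    exact ((Nat.Prime.coprime_iff_not_dvd hl).2 hk).symm
  obtain ⟨a, b, hab⟩ := hcop
  have hin : (⊤ : Submodule ℤ (MonoidAlgebra ℤ G ⧸ Ideal.span {E})) ≤
      (Ideal.span {(l : ℤ)}) • (⊤ : Submodule ℤ (MonoidAlgebra ℤ G ⧸ Ideal.span {E})) := by
    intro z _
    obtain ⟨u, rfl⟩ := Ideal.Quotient.mk_surjective z
    have h1 : Ideal.Quotient.mk (Ideal.span {E}) u =
        (l : ℤ) • Ideal.Quotient.mk (Ideal.span {E}) ((a : MonoidAlgebra ℤ G) * w * u + b * u) := by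
      rw [← map_zsmul, Ideal.Quotient.mk_eq_mk_iff_sub_mem, Ideal.mem_span_singleton]
      refine ⟨a * u, ?_⟩
      have h2 : (a : MonoidAlgebra ℤ G) * k + b * l = 1 := by
        exact_mod_cast congrArg (fun t : ℤ => (t : MonoidAlgebra ℤ G)) hab
      rw [hE, zsmul_eq_mul]
      push_cast
      linear_combination -u * h2
    rw [h1]
    exact Submodule.smul_mem_smul (Ideal.mem_span_singleton_self _) Submodule.mem_top
  obtain ⟨n, hn1, hn2⟩ := Submodule.exists_sub_one_mem_and_smul_eq_zero_of_fg_of_le_smul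
    (Ideal.span {(l : ℤ)}) (⊤ : Submodule ℤ (MonoidAlgebra ℤ G ⧸ Ideal.span {E}))
    (Module.Finite.fg_top) hin
  rw [Ideal.mem_span_singleton] at hn1
  have h3 := hn2 (Ideal.Quotient.mk (Ideal.span {E}) 1) Submodule.mem_top
  rw [← map_zsmul, Ideal.Quotient.eq_zero_iff_mem, Ideal.mem_span_singleton] at h3
  obtain ⟨y, hy⟩ := h3
  have hln : ¬ (l : ℤ) ∣ n := by
    intro h
    have h4 : (l : ℤ) ∣ 1 := by
      have := dvd_sub h hn1
      rwa [sub_sub_cancel] at this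
    have h5 : l ∣ 1 := by exact_mod_cast h4
    exact hl.one_lt.ne' (Nat.dvd_one.1 h5)
  refine ⟨n.natAbs, y * (Int.sign n : MonoidAlgebra ℤ G), ?_, ?_⟩
  · intro h
    exact hln (Int.natCast_dvd.2 h)
  · rw [← mul_assoc, ← hy, zsmul_eq_mul, mul_one, ← Int.cast_mul, Int.mul_sign_self, Int.cast_natCast]

theorem cc4_evZ_nat (χ : G →* ℂˣ) (n : ℕ) : evZ χ (n : MonoidAlgebra ℤ G) = n := map_natCast _ n

theorem cc4_evZ_single (χ : G →* ℂˣ) (g : G) (n : ℤ) :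
    evZ χ (MonoidAlgebra.single g n) = (n : ℂ) * (χ g : ℂ) := by
  show evQ χ (toQ G (MonoidAlgebra.single g n)) = _
  rw [l3_toQ_single, l3_evQ_single]
  push_cast
  rfl

/-- `1 - n χ(g)` is a unit at `l` if `l ∣ n - 1` and `g` is not of `l`-power order -/
theorem cc4_unit [IsCyclic G] {l : ℕ} (hl : l.Prime) {g : G} (hg : ¬ ∃ i : ℕ, g ^ l ^ i = 1) {n : ℕ}
    (hn1 : 1 ≤ n) (hn : l ∣ n - 1) :
    ∃ (m : ℕ) (h : MonoidAlgebra ℤ G), ¬ l ∣ m ∧ ∀ χ : G →* ℂˣ, Function.Injective χ →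
      evZ χ h * (1 - (χ g : ℂ) * (n : ℂ)) = m := by
  obtain ⟨k, v, hk, hv⟩ := unit_g hl hg
  obtain ⟨d, hd⟩ := hn
  obtain ⟨m, y, hm, hy⟩ := cc4_inv hl hk ((d : MonoidAlgebra ℤ G) * MonoidAlgebra.single g 1 * v)
  refine ⟨m, v * y, hm, fun χ hχ => ?_⟩
  have h1 := congrArg (evZ χ) hy
  rw [map_mul, map_sub, map_mul, map_mul, map_mul, cc4_evZ_nat, cc4_evZ_nat, cc4_evZ_nat,
    cc4_evZ_nat, cc4_evZ_single, hv χ hχ] at h1
  have h2 : (n : ℂ) = l * d + 1 := by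
    have : n = l * d + 1 := by omega
    rw [this]
    push_cast
    ring
  rw [map_mul, ← h1, h2]
  push_cast
  ring

end CC4a

section CC4

variable {F K : Type} [Field F] [NumberField F] [Field K] [NumberField K] [Algebra F K]
  [IsGalois F K] {G : Type} [CommGroup G] [Fintype G] {ι : G ≃* (K ≃ₐ[F] K)}
  {S T : Finset (HeightOneSpectrum (𝓞 F))} {r : ℕ} {w : Fin r → Pl K}
  {fr : HeightOneSpectrum (𝓞 F) → G}

theorem cc_rmT_pr [IsCyclic G] (hD : Data ι S T r w fr) {l M : ℕ} (hl : l.Prime) {s : G}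
    {v : HeightOneSpectrum (𝓞 F)} (hv : v ∉ T) (hvS : v ∉ S) (hlv : l ∣ nv v - 1)
    (hfr : ¬ ∃ i : ℕ, fr v ^ l ^ i = 1) (hR : RCore ι S T w fr)
    (h : CCore ι S (Finset.cons v T hv) w fr l M s) : CCore ι S T w fr l M s := by
  obtain ⟨c₀, hc₀, hne₀, b₀, x₀, hco₀⟩ := hR
  obtain ⟨c, hc, hne, b, x, hco, hint⟩ := h
  obtain ⟨hc₁, -⟩ := up_T hD hv hvS hc₀ hco₀
  have hcc := leadI_uniq hc hc₁
  have hq := nv_two_le v
  have hfr' : ¬ ∃ i : ℕ, (fr v)⁻¹ ^ l ^ i = 1 := by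
    rintro ⟨i, hi⟩
    exact hfr ⟨i, by rwa [inv_pow, inv_eq_one] at hi⟩
  obtain ⟨m, h, hm, hh⟩ := cc4_unit hl hfr' (n := nv v) (by omega) hlv
  have hm0 : (m : ℂ) ≠ 0 := by
    have : m ≠ 0 := fun h0 => hm (by rw [h0]; exact dvd_zero _)
    exact_mod_cast this
  have hm0' : (m : ℚ) ≠ 0 := by exact_mod_cast hm0
  set inc : UM ι S (Finset.cons v T hv) →ₗ[MonoidAlgebra ℤ G] UM ι S T :=
    incU ι (Finset.Subset.refl S) (Finset.subset_cons hv) with hinc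
  have hs : ∀ χ : G →* ℂˣ, evQ χ (MonoidAlgebra.single (1 : G) ((m : ℚ)⁻¹)) = (m : ℂ)⁻¹ := by
    intro χ
    rw [l3_evQ_single, map_one]
    push_cast
    rw [mul_one]
  refine ⟨c₀, hc₀, hne₀, fun j => inc (b j), x * (toQ G h * MonoidAlgebra.single 1 ((m : ℚ)⁻¹)),
    ⟨fun χ hχ => ?_, fun χ hχ => ?_⟩, fun ψ => ?_⟩
  · rw [map_mul, hco.off χ hχ, zero_mul]
  · have hw : wmat ι S T w (fun j => inc (b j)) = wmat ι S (Finset.cons v T hv) w b := by
      unfold wmat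
      ext i j
      rfl
    have hχ' : Function.Injective (χ⁻¹ : G →* ℂˣ) := by
      intro a b hab
      apply hχ
      have h1 : (χ a)⁻¹ = (χ b)⁻¹ := hab
      exact inv_injective h1
    rw [hw, map_mul, map_mul, hs, mul_right_comm, hco.value χ hχ, hcc χ⁻¹ hχ']
    have h1 := hh χ hχ
    have h2 : ((χ⁻¹ (fr v) : ℂˣ) : ℂ) = (χ (fr v)⁻¹ : ℂ) := by
      rw [MonoidHom.inv_apply, map_inv]
    rw [h2]
    have h3 : evQ χ (toQ G h) * (1 - (χ (fr v)⁻¹ : ℂ) * (nv v : ℂ)) = m := h1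
    calc c₀ χ⁻¹ * (1 - (χ (fr v)⁻¹ : ℂ) * (nv v : ℂ)) * (evQ χ (toQ G h) * (m : ℂ)⁻¹)
        = c₀ χ⁻¹ * (evQ χ (toQ G h) * (1 - (χ (fr v)⁻¹ : ℂ) * (nv v : ℂ))) * (m : ℂ)⁻¹ := by ring
      _ = c₀ χ⁻¹ := by rw [h3, mul_assoc, mul_inv_cancel₀ hm0, mul_one]
  · obtain ⟨k, a, hk, ha⟩ := hint (fun i => (ψ i).comp inc)
    refine ⟨k * m, a * h, fun hd => ?_, fun χ hχ => ?_⟩
    · rcases (Nat.Prime.dvd_mul hl).mp hd with h1 | h1
      · exact hk h1
      · exact hm h1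
    · have hpm : pmat ψ (fun j => inc (b j)) = pmat (fun i => (ψ i).comp inc) b := by
        unfold pmat
        ext i j
        rfl
      have h1 := ha χ hχ
      have h2 : evQ χ (toQ G h) = evZ χ h := rfl
      rw [map_mul] at h1
      rw [hpm, map_mul, map_mul, map_mul, hs, map_mul, h2]
      push_cast
      calc (k : ℂ) * m * (evQ χ x * (evZ χ h * (m : ℂ)⁻¹) *
            evQ χ (toQ G (pmat (fun i => (ψ i).comp inc) b).det))
          = (k : ℂ) * (evQ χ x * evQ χ (toQ G (pmat (fun i => (ψ i).comp inc) b).det)) *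
              evZ χ h * (m * (m : ℂ)⁻¹) := by ring
        _ = _ := by rw [mul_inv_cancel₀ hm0, h1]; ring

end CC4

end Pool.Agent.CR

namespace Pool.Agent.CR
open Pool.Agent.RSK Pool.Agent.RS2 Pool.Agent.RS3 Pool.Agent.SY
open NumberField IsDedekindDomain Filter Topology Complex

section
variable {F K : Type} [Field F] [NumberField F] [Field K] [NumberField K] [Algebra F K]
  [IsGalois F K] {G : Type} [CommGroup G] [Fintype G] {ι : G ≃* (K ≃ₐ[F] K)}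
  {S T : Finset (HeightOneSpectrum (𝓞 F))} {r : ℕ} {w : Fin r → Pl K}
  {fr : HeightOneSpectrum (𝓞 F) → G}

theorem cc_rmT [IsCyclic G] (hD : Data ι S T r w fr) {l M : ℕ} (hl : l.Prime) {s : G}
    {v : HeightOneSpectrum (𝓞 F)} (hv : v ∉ T) (hvS : v ∉ S) (hlv : l ∣ nv v - 1)
    (hfr : ¬ ∃ i : ℕ, fr v ^ l ^ i = 1) (hR : RCore ι S T w fr)
    (h : CCore ι S (Finset.cons v T hv) w fr l M s) : CCore ι S T w fr l M s :=
  @Pool.Agent.CR.cc_rmT_pr F K _ _ _ _ _ _ G _ _ ι S T r w fr _ hD l M hl s v hv hvS hlv hfr hR h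

end

end Pool.Agent.CR
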