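import Pool.Agent.Lib_helper17.CRF.D_WL
import Pool.Agent.Lib_helper17.CRF.L_CC4
import Pool.Agent.Lib_helper17.CRF.L_CC3
import Pool.Agent.Lib_helper29.SY.P_RC
import Pool.Agent.Lib_helper29.SY.P_RA

/-!
# Composite Rubin (CR), block CC6 (helper62): the chain in `T`
-/

set_option autoImplicit false
set_option linter.unusedSectionVars false

namespace Pool.Agent.CR

open Pool.Agent.RSK Pool.Agent.RS2 Pool.Agent.RS3 Pool.Agent.SY
open NumberField IsDedekindDomain Filter Topology Complex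

section UP

variable {F K : Type} [Field F] [NumberField F] [Field K] [NumberField K] [Algebra F K]
  [IsGalois F K] {G : Type} [CommGroup G] [Fintype G] {ι : G ≃* (K ≃ₐ[F] K)}
  {S T : Finset (HeightOneSpectrum (𝓞 F))} {r : ℕ} {w : Fin r → Pl K}
  {fr : HeightOneSpectrum (𝓞 F) → G}

/-- a place of the larger set which is not in the smaller one -/
theorem cc6_pick {T₁ T₂ : Finset (HeightOneSpectrum (𝓞 F))} {n : ℕ} (hT : T₁ ⊆ T₂)
    (hn : T₁.card + (n + 1) = T₂.card) :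
    ∃ v ∈ T₂, ∃ hv : v ∉ T₁, Finset.cons v T₁ hv ⊆ T₂ ∧
      (Finset.cons v T₁ hv).card + n = T₂.card := by
  obtain ⟨v, hv₁, hv⟩ : ∃ v ∈ T₂, v ∉ T₁ := by
    by_contra hcon
    push Not at hcon
    have := Finset.card_le_card (show T₂ ⊆ T₁ from hcon)
    omega
  refine ⟨v, hv₁, hv, ?_, ?_⟩
  · intro v' hv'
    rcases Finset.mem_cons.1 hv' with rfl | h'
    · exact hv₁
    · exact hT h'
  · rw [Finset.card_cons]
    omega

/-- Adding places to `T` (`cc_addT`, induction on the number of places). -/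
theorem cc6_add [IsCyclic G] {l M : ℕ} (hl : l.Prime) {s : G} (n : ℕ)
    {T₁ T₂ : Finset (HeightOneSpectrum (𝓞 F))} (hT : T₁ ⊆ T₂) (hS : Disjoint S T₂)
    (hn : T₁.card + n = T₂.card) (hD : Data ι S T₁ r w fr) (h : CCore ι S T₁ w fr l M s) :
    CCore ι S T₂ w fr l M s := by
  induction n generalizing T₁ with
  | zero =>
    have e : T₁ = T₂ := Finset.eq_of_subset_of_card_le hT (by omega)
    subst e
    exact h
  | succ n ih =>
    obtain ⟨v, hv₁, hv, hsub, hcard⟩ := cc6_pick hT hn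
    have hvS : v ∉ S := fun h' => Finset.disjoint_left.1 hS h' hv₁
    exact ih hsub hcard (data_T hD hv hvS) (cc_addT hD hl hv hvS h)

/-- Removing places from `T`, starting with `RCore` for the smaller set (`cc_rmT`; `RCore` for the sets
in between by `rc_addT`). -/
theorem cc6_rm [IsCyclic G] {l M : ℕ} (hl : l.Prime) {s : G} (n : ℕ)
    {T₁ T₂ : Finset (HeightOneSpectrum (𝓞 F))} (hT : T₁ ⊆ T₂) (hS : Disjoint S T₂)
    (hn : T₁.card + n = T₂.card) (hD : Data ι S T₁ r w fr)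
    (hT₁ : ∀ v ∈ T₂, v ∉ T₁ → l ∣ nv v - 1 ∧ ¬ ∃ i : ℕ, fr v ^ l ^ i = 1)
    (hR : RCore ι S T₁ w fr) (h : CCore ι S T₂ w fr l M s) : CCore ι S T₁ w fr l M s := by
  induction n generalizing T₁ with
  | zero =>
    have e : T₁ = T₂ := Finset.eq_of_subset_of_card_le hT (by omega)
    subst e
    exact h
  | succ n ih =>
    obtain ⟨v, hv₁, hv, hsub, hcard⟩ := cc6_pick hT hn
    have hvS : v ∉ S := fun h' => Finset.disjoint_left.1 hS h' hv₁
    obtain ⟨h1, h2⟩ := hT₁ v hv₁ hv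
    refine cc_rmT hD hl hv hvS h1 h2 hR ?_
    refine ih hsub hcard (data_T hD hv hvS) ?_ (rc_addT hD hv hvS hR)
    intro v' hv' hv''
    exact hT₁ v' hv' (fun h' => hv'' (Finset.mem_cons_of_mem h'))

/-- CC6. Chain in `T`.

Proof. `RCore` for `T₁` follows from `RCore` for `T` (`chain_TI`), so there is `CCore` for `T₁`, hence
for `T ∪ T₁` (add the places of `T`, `cc6_add`), hence for `T` (remove the places of `T₁`, which satisfy
the conditions of `cc_rmT`, `cc6_rm`). -/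
theorem cc_chainT_pr [IsCyclic G] {l M : ℕ} (hl : l.Prime) {s : G}
    {T₁ : Finset (HeightOneSpectrum (𝓞 F))} (hT : Disjoint T T₁)
    (hD : Data ι S T r w fr) (hD₁ : Data ι S T₁ r w fr)
    (hT₁ : ∀ v ∈ T₁, l ∣ nv v - 1 ∧ ¬ ∃ i : ℕ, fr v ^ l ^ i = 1)
    (hR : RCore ι S T w fr) (h : RCore ι S T₁ w fr → CCore ι S T₁ w fr l M s) :
    CCore ι S T w fr l M s := by
  classical
  have hS : Disjoint S (T ∪ T₁) := by
    rw [Finset.disjoint_union_right]
    exact ⟨hD.disj, hD₁.disj⟩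
  have hc : (T ∪ T₁).card = T.card + T₁.card := Finset.card_union_of_disjoint hT
  have hR₁ : RCore ι S T₁ w fr := chain_TI hT.symm hD₁ hD hR
  have h2 : CCore ι S (T ∪ T₁) w fr l M s :=
    cc6_add hl T.card (Finset.subset_union_right (s₁ := T) (s₂ := T₁)) hS (by omega) hD₁ (h hR₁)
  refine cc6_rm hl T₁.card (Finset.subset_union_left (s₁ := T) (s₂ := T₁)) hS (by omega) hD ?_ hR h2
  intro v hv hv'
  rcases Finset.mem_union.1 hv with h' | h'
  · exact absurd h' hv'
  · exact hT₁ v h'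

end UP

end Pool.Agent.CR

namespace Pool.Agent.CR
open Pool.Agent.RSK Pool.Agent.RS2 Pool.Agent.RS3 Pool.Agent.SY
open NumberField IsDedekindDomain Filter Topology Complex

section
variable {F K : Type} [Field F] [NumberField F] [Field K] [NumberField K] [Algebra F K]
  [IsGalois F K] {G : Type} [CommGroup G] [Fintype G] {ι : G ≃* (K ≃ₐ[F] K)}
  {S T : Finset (HeightOneSpectrum (𝓞 F))} {r : ℕ} {w : Fin r → Pl K}
  {fr : HeightOneSpectrum (𝓞 F) → G}

theorem cc_chainT [IsCyclic G] {l M : ℕ} (hl : l.Prime) {s : G}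
    {T₁ : Finset (HeightOneSpectrum (𝓞 F))} (hT : Disjoint T T₁)
    (hD : Data ι S T r w fr) (hD₁ : Data ι S T₁ r w fr)
    (hT₁ : ∀ v ∈ T₁, l ∣ nv v - 1 ∧ ¬ ∃ i : ℕ, fr v ^ l ^ i = 1)
    (hR : RCore ι S T w fr) (h : RCore ι S T₁ w fr → CCore ι S T₁ w fr l M s) :
    CCore ι S T w fr l M s :=
  @Pool.Agent.CR.cc_chainT_pr F K _ _ _ _ _ _ G _ _ ι S T r w fr _ l M hl s T₁ hT hD hD₁ hT₁ hR h

end

end Pool.Agent.CR
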