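import Pool.Agent.Lib_helper17.CRF.D_WL
import Pool.Agent.Lib_helper17.RS.P_CB

/-!
# Composite Rubin (CR), block CP: auxiliary places
-/

set_option autoImplicit false
set_option linter.unusedSectionVars false

namespace Pool.Agent.CR

open Pool.Agent.RSK Pool.Agent.RS2 Pool.Agent.RS3 Pool.Agent.SY
open NumberField IsDedekindDomain Filter Topology Complex

theorem CP_iter {R : Type} [CommRing R] (I : Ideal R) (σ : R → R) (q : ℕ)
    (h : ∀ z, σ z - z ^ q ∈ I) (m : ℕ) (z : R) : σ^[m] z - z ^ q ^ m ∈ I := by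
  induction m with
  | zero => simp
  | succ m ih =>
    rw [Function.iterate_succ_apply']
    have h1 := h (σ^[m] z)
    have h2 : (σ^[m] z) ^ q - (z ^ q ^ m) ^ q ∈ I := by
      obtain ⟨c, hc⟩ := sub_dvd_pow_sub_pow (σ^[m] z) (z ^ q ^ m) q
      rw [hc]
      exact I.mul_mem_right _ ih
    have h3 : σ (σ^[m] z) - z ^ q ^ (m + 1) =
        (σ (σ^[m] z) - (σ^[m] z) ^ q) + ((σ^[m] z) ^ q - (z ^ q ^ m) ^ q) := by
      rw [← pow_mul, ← pow_succ]
      ring
    rw [h3]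
    exact I.add_mem h1 h2

theorem CP_pow {G : Type} [CommGroup G] [Fintype G] {l : ℕ} (hl : l.Prime) {g : G} {i : ℕ}
    (h : g ^ l ^ i = 1) : g ^ l ^ Nat.card G = 1 := by
  rw [← orderOf_dvd_iff_pow_eq_one] at h ⊢
  obtain ⟨t, _, ht⟩ := (Nat.dvd_prime_pow hl).1 h
  rw [ht]
  apply pow_dvd_pow
  have h1 : t < l ^ t := Nat.lt_pow_self hl.one_lt
  have h2 : orderOf g ≤ Nat.card G := Nat.le_of_dvd Nat.card_pos (orderOf_dvd_natCard g)
  omega

section CP

variable {F₀ F K : Type} [Field F₀] [NumberField F₀] [Field F] [NumberField F] [Field K]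
  [NumberField K] [Algebra F₀ F] [Algebra F₀ K] [Algebra F K] [IsScalarTower F₀ F K]
  [IsGalois F₀ K] [IsGalois F₀ F] [IsGalois F K]
  {G : Type} [CommGroup G] [Fintype G] {ι : G ≃* (K ≃ₐ[F] K)}

theorem ch_places_pr (γ : K ≃ₐ[F₀] K) {b : ℕ}
    (hγ : ∀ (g : G) (y : K), γ (ι g y) = ι (g ^ b) (γ y)) {l : ℕ} (hl : l.Prime) {g₀ : G}
    (hg₀ : ¬ ∃ i : ℕ, (g₀ ^ b * g₀⁻¹) ^ l ^ i = 1)
    (B : Finset (HeightOneSpectrum (𝓞 F₀))) :
    ∃ v₀ : HeightOneSpectrum (𝓞 F₀), v₀ ∉ B ∧ ∀ v ∈ ovr F {v₀},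
      Module.finrank ℚ K + 1 < ringChar (𝓞 F ⧸ v.asIdeal) ∧
      l ∣ nv v - 1 ∧ ∀ g : G, IsFr v (ι g) → ¬ ∃ i : ℕ, g ^ l ^ i = 1 := by
  classical
  set h₀ : G := g₀ ^ b * g₀⁻¹ with hh₀
  set k : ℕ := l ^ Nat.card G with hk
  have hne1 : h₀ ^ k ≠ 1 := fun h => hg₀ ⟨_, h⟩
  set α : K ≃+* K := γ.toRingEquiv with hα
  set β : K ≃+* K := (ι g₀).toRingEquiv with hβ
  have hcomm : ∀ z : K, α (β (α.symm (β.symm z))) = ι h₀ z := by
    intro z
    have e1 : β.symm z = ι g₀⁻¹ z := by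
      rw [RingEquiv.symm_apply_eq]
      show z = ι g₀ (ι g₀⁻¹ z)
      rw [← AlgEquiv.mul_apply, ← map_mul, mul_inv_cancel, map_one]
      rfl
    have e2 : α (β (α.symm (β.symm z))) = ι (g₀ ^ b) (γ (α.symm (β.symm z))) :=
      hγ g₀ (α.symm (β.symm z))
    have e3 : γ (α.symm (β.symm z)) = β.symm z := α.apply_symm_apply _
    rw [e2, e3, e1, ← AlgEquiv.mul_apply, ← map_mul]
  -- `ι (h₀ ^ k)` moves an integer
  obtain ⟨z₀, hz₀⟩ : ∃ z : 𝓞 K, RingOfIntegers.mapRingEquiv (ι (h₀ ^ k)).toRingEquiv z ≠ z := by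
    by_contra hcon
    push Not at hcon
    have h1 : ∀ z : 𝓞 K, ι (h₀ ^ k) (z : K) = z := fun z =>
      congrArg (fun u : 𝓞 K => (u : K)) (hcon z)
    apply hne1
    apply ι.injective
    rw [map_one]
    refine AlgEquiv.ext fun z => ?_
    obtain ⟨a, c, hc, rfl⟩ := IsFractionRing.div_surjective (A := 𝓞 K) z
    rw [map_div₀]
    have h4 := h1 a
    have h5 := h1 c
    rw [show (algebraMap (𝓞 K) K a) = (a : K) from rfl, show (algebraMap (𝓞 K) K c) = (c : K) from rfl,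
      h4, h5]
    rfl
  set u₀ := RingOfIntegers.mapRingEquiv (ι (h₀ ^ k)).toRingEquiv z₀ with hu₀
  have hd0 : u₀ - z₀ ≠ 0 := sub_ne_zero.2 hz₀
  set n₀ := Ideal.absNorm (Ideal.span {u₀ - z₀}) with hn₀
  have hn₀pos : 0 < n₀ := by
    rw [hn₀]
    apply Nat.pos_of_ne_zero
    rw [Ne, Ideal.absNorm_eq_zero_iff, Ideal.span_singleton_eq_bot]
    exact hd0
  set M : ℕ := Module.finrank ℚ K + 1 + l + n₀ + ∑ v ∈ B, nv v with hM
  obtain ⟨q, hq, hMq, hql, w', hqw', hw'⟩ := cb_frob α β hl M (by omega)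
  have hq' : ∀ {k : Type} [Field k] [NumberField k] (v : HeightOneSpectrum (𝓞 k)), v.asIdeal ≠ ⊤ :=
    fun v => v.isPrime.ne_top
  -- the Frobenius automorphism of `w'`
  have hfr : ∀ z : 𝓞 K, RingOfIntegers.mapRingEquiv (ι h₀).toRingEquiv z - z ^ q ∈ w'.asIdeal := by
    intro z
    apply hw'
    exact (hcomm z).symm
  have hfrk : ∀ z : 𝓞 K, RingOfIntegers.mapRingEquiv (ι (h₀ ^ k)).toRingEquiv z - z ^ q ^ k ∈
      w'.asIdeal := by
    intro z
    have h1 := CP_iter w'.asIdeal (fun z => RingOfIntegers.mapRingEquiv (ι h₀).toRingEquiv z) q hfr k z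
    have h2 : ∀ m : ℕ, (fun z => RingOfIntegers.mapRingEquiv (ι h₀).toRingEquiv z)^[m] z =
        RingOfIntegers.mapRingEquiv (ι (h₀ ^ m)).toRingEquiv z := by
      intro m
      induction m with
      | zero =>
        ext
        show (z : K) = ι (h₀ ^ 0) (z : K)
        rw [pow_zero, map_one]
        rfl
      | succ m ih =>
        rw [Function.iterate_succ_apply', ih]
        ext
        show ι h₀ (ι (h₀ ^ m) (z : K)) = ι (h₀ ^ (m + 1)) (z : K)
        rw [pow_succ' h₀ m, map_mul ι h₀ (h₀ ^ m)]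
        rfl
    rw [h2] at h1
    exact h1
  -- membership in the conjugates of `w'`
  have hF : ∀ (τ : K ≃ₐ[F₀] K) (f : F), ∃ f' : F, τ (algebraMap F K f) = algebraMap F K f' := fun τ f =>
    ⟨τ.restrictNormal F f, (AlgEquiv.restrictNormal_commutes τ F f).symm⟩
  refine ⟨w'.under (𝓞 F₀), ?_, ?_⟩
  · intro hB
    have h1 : (q : 𝓞 F₀) ∈ (w'.under (𝓞 F₀)).asIdeal := by
      show algebraMap (𝓞 F₀) (𝓞 K) (q : 𝓞 F₀) ∈ w'.asIdeal
      rw [map_natCast]
      exact hqw'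
    have h2 : ((nv (w'.under (𝓞 F₀)) : ℕ) : 𝓞 F₀) ∈ (w'.under (𝓞 F₀)).asIdeal := Ideal.absNorm_mem _
    have h3 : nv (w'.under (𝓞 F₀)) ≤ ∑ v ∈ B, nv v :=
      Finset.single_le_sum (f := fun v => nv v) (fun _ _ => Nat.zero_le _) hB
    have h4 : 0 < nv (w'.under (𝓞 F₀)) := by
      have := nv_two_le (w'.under (𝓞 F₀))
      omega
    exact cb_coprime (hq' _) hq h1 h2 h4 (by omega)
  · intro v hv
    rw [mem_ovr, Finset.mem_singleton] at hv
    obtain ⟨W, hW⟩ := dn_surj (F := F) (H := K) (Sum.inr v)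
    obtain ⟨w, rfl⟩ : ∃ w : HeightOneSpectrum (𝓞 K), W = Sum.inr w := by
      rcases W with W | W
      · exact absurd hW (by simp [dn])
      · exact ⟨W, rfl⟩
    have hwv : w.under (𝓞 F) = v := Sum.inr_injective hW
    have hdn : dn F₀ (Sum.inr w' : Pl K) = dn F₀ (Sum.inr w : Pl K) := by
      rw [← dn_dn (F₀ := F₀) (F := F) (Sum.inr w : Pl K)]
      show Sum.inr (w'.under (𝓞 F₀)) = Sum.inr ((w.under (𝓞 F)).under (𝓞 F₀))
      rw [hwv, hv]
    obtain ⟨τ, hτ⟩ := act_trans hdn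
    have hτ' : HeightOneSpectrum.equivOfRingEquiv (RingOfIntegers.mapRingEquiv τ.toRingEquiv) w' = w :=
      Sum.inr_injective hτ
    have hmem : ∀ z : 𝓞 K, z ∈ w.asIdeal ↔ (RingOfIntegers.mapRingEquiv τ.toRingEquiv).symm z ∈ w'.asIdeal := by
      intro z
      rw [← hτ']
      rfl
    have hvmem : ∀ f : 𝓞 F, f ∈ v.asIdeal ↔ algebraMap (𝓞 F) (𝓞 K) f ∈ w.asIdeal := by
      intro f
      rw [← hwv]
      rfl
    have hqv : (q : 𝓞 F) ∈ v.asIdeal := by
      rw [hvmem, hmem, map_natCast, map_natCast]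
      exact hqw'
    have hres : ∀ f : 𝓞 F, f ^ q - f ∈ v.asIdeal := by
      intro f
      rw [hvmem, hmem, map_sub, map_sub, map_pow, map_pow]
      set g := (RingOfIntegers.mapRingEquiv τ.toRingEquiv).symm (algebraMap (𝓞 F) (𝓞 K) f) with hg
      have h1 : (g : K) = τ.symm (algebraMap F K f) := rfl
      obtain ⟨f', hf'⟩ := hF τ.symm (f : F)
      have h0 := hfr g
      have h2 : RingOfIntegers.mapRingEquiv (ι h₀).toRingEquiv g = g := by
        ext
        show ι h₀ (g : K) = (g : K)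
        rw [h1, hf']
        exact (ι h₀).commutes f'
      rw [h2] at h0
      have h3 : g ^ q - g = -(g - g ^ q) := by ring
      rw [h3]
      exact w'.asIdeal.neg_mem h0
    have hnv : nv v = q := cb_card v hq hqv hres
    refine ⟨?_, ?_, ?_⟩
    · rw [cb_char v hq hqv]
      omega
    · rw [hnv]
      exact (Nat.modEq_iff_dvd' hq.one_lt.le).1 hql.symm
    · rintro g hg ⟨i, hi⟩
      have hgk : g ^ k = 1 := CP_pow hl hi
      have h1 : ∀ z : 𝓞 K, (RingOfIntegers.mapRingEquiv τ.toRingEquiv).symm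
          (RingOfIntegers.mapRingEquiv (ι g).toRingEquiv
            (RingOfIntegers.mapRingEquiv τ.toRingEquiv z)) - z ^ q ∈ w'.asIdeal := by
        intro z
        have h2 := hg w hwv (RingOfIntegers.mapRingEquiv τ.toRingEquiv z)
        rw [hmem, hnv, map_sub, map_pow, RingEquiv.symm_apply_apply] at h2
        exact h2
      have h2 : ∀ z : 𝓞 K, z - z ^ q ^ k ∈ w'.asIdeal := by
        intro z
        have h3 := CP_iter w'.asIdeal (fun z => (RingOfIntegers.mapRingEquiv τ.toRingEquiv).symm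
          (RingOfIntegers.mapRingEquiv (ι g).toRingEquiv
            (RingOfIntegers.mapRingEquiv τ.toRingEquiv z))) q h1 k z
        have h4 : ∀ m : ℕ, (fun z => (RingOfIntegers.mapRingEquiv τ.toRingEquiv).symm
            (RingOfIntegers.mapRingEquiv (ι g).toRingEquiv
              (RingOfIntegers.mapRingEquiv τ.toRingEquiv z)))^[m] z =
            (RingOfIntegers.mapRingEquiv τ.toRingEquiv).symm
            (RingOfIntegers.mapRingEquiv (ι (g ^ m)).toRingEquiv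
              (RingOfIntegers.mapRingEquiv τ.toRingEquiv z)) := by
          intro m
          induction m with
          | zero =>
            rw [Function.iterate_zero_apply, eq_comm, RingEquiv.symm_apply_eq]
            ext
            show ι (g ^ 0) (τ (z : K)) = τ (z : K)
            rw [pow_zero, map_one]
            rfl
          | succ m ih =>
            rw [Function.iterate_succ_apply', ih]
            rw [RingEquiv.apply_symm_apply]
            congr 1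
            ext
            show ι g (ι (g ^ m) (τ (z : K))) = ι (g ^ (m + 1)) (τ (z : K))
            rw [pow_succ', map_mul]
            rfl
        rw [h4, hgk] at h3
        have h5 : (RingOfIntegers.mapRingEquiv τ.toRingEquiv).symm (RingOfIntegers.mapRingEquiv
            (ι 1).toRingEquiv (RingOfIntegers.mapRingEquiv τ.toRingEquiv z)) = z := by
          rw [RingEquiv.symm_apply_eq]
          ext
          show (ι 1) (τ (z : K)) = τ (z : K)
          rw [map_one]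
          rfl
        rw [h5] at h3
        exact h3
      have h4 : u₀ - z₀ ∈ w'.asIdeal := by
        have h6 : u₀ - z₀ = (u₀ - z₀ ^ q ^ k) - (z₀ - z₀ ^ q ^ k) := by ring
        rw [h6]
        exact w'.asIdeal.sub_mem (hfrk z₀) (h2 z₀)
      have h7 : (n₀ : 𝓞 K) ∈ w'.asIdeal := by
        have h8 : (n₀ : 𝓞 K) ∈ Ideal.span {u₀ - z₀} := Ideal.absNorm_mem _
        exact (Ideal.span_singleton_le_iff_mem _).2 h4 h8
      exact cb_coprime (hq' w') hq hqw' h7 hn₀pos (by omega)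

end CP

end Pool.Agent.CR

namespace Pool.Agent.CR
open Pool.Agent.RSK Pool.Agent.RS2 Pool.Agent.RS3 Pool.Agent.SY
open NumberField IsDedekindDomain Filter Topology Complex

section
variable {F₀ F K : Type} [Field F₀] [NumberField F₀] [Field F] [NumberField F] [Field K]
  [NumberField K] [Algebra F₀ F] [Algebra F₀ K] [Algebra F K] [IsScalarTower F₀ F K]
  [IsGalois F₀ K] [IsGalois F₀ F] [IsGalois F K]
  {G : Type} [CommGroup G] [Fintype G] {ι : G ≃* (K ≃ₐ[F] K)}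
  {S₀ T₀ : Finset (HeightOneSpectrum (𝓞 F₀))} {r : ℕ} {w : Fin r → Pl K}
  {fr : HeightOneSpectrum (𝓞 F) → G}

theorem ch_places (γ : K ≃ₐ[F₀] K) {b : ℕ}
    (hγ : ∀ (g : G) (y : K), γ (ι g y) = ι (g ^ b) (γ y)) {l : ℕ} (hl : l.Prime) {g₀ : G}
    (hg₀ : ¬ ∃ i : ℕ, (g₀ ^ b * g₀⁻¹) ^ l ^ i = 1)
    (B : Finset (HeightOneSpectrum (𝓞 F₀))) :
    ∃ v₀ : HeightOneSpectrum (𝓞 F₀), v₀ ∉ B ∧ ∀ v ∈ ovr F {v₀},
      Module.finrank ℚ K + 1 < ringChar (𝓞 F ⧸ v.asIdeal) ∧
      l ∣ nv v - 1 ∧ ∀ g : G, IsFr v (ι g) → ¬ ∃ i : ℕ, g ^ l ^ i = 1 :=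
  @Pool.Agent.CR.ch_places_pr F₀ F K _ _ _ _ _ _ _ _ _ _ _ _ _ G _ _ ι γ b hγ l hl g₀ hg₀ B

end

end Pool.Agent.CR
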