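import Pool.Agent.Lib_helper17.CRF.D_WL
import Pool.Agent.Lib_helper35.RS2.P_A3a
import Pool.Agent.Lib_helper17.CRF.L_UQ

/-!
# CR, block SM1: symmetry of the leading terms
-/

set_option autoImplicit false
set_option linter.unusedSectionVars false

namespace Pool.Agent.CR

open Pool.Agent.RSK Pool.Agent.RS2 Pool.Agent.RS3 Pool.Agent.SY
open NumberField IsDedekindDomain Filter Topology Complex

section SM1

variable {F₀ F K : Type} [Field F₀] [NumberField F₀] [Field F] [NumberField F] [Field K]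
  [NumberField K] [Algebra F₀ F] [Algebra F₀ K] [Algebra F K] [IsScalarTower F₀ F K]
  [IsGalois F₀ K] [IsGalois F₀ F] [IsGalois F K]
  {G : Type} [CommGroup G] [Fintype G] {ι : G ≃* (K ≃ₐ[F] K)}
  {S₀ T₀ : Finset (HeightOneSpectrum (𝓞 F₀))} {r : ℕ} {w : Fin r → Pl K}
  {fr : HeightOneSpectrum (𝓞 F) → G}

/-- the restriction of `γ` to `F` -/
noncomputable def sm1R (γ : K ≃ₐ[F₀] K) : F ≃ₐ[F₀] F := γ.restrictNormal F

theorem sm1R_comm (γ : K ≃ₐ[F₀] K) (x : F) :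
    algebraMap F K (sm1R γ x) = γ (algebraMap F K x) :=
  AlgEquiv.restrictNormal_commutes γ F x

/-- SM0 -/
theorem conj_ex_pr (ι : G ≃* (K ≃ₐ[F] K)) (γ : K ≃ₐ[F₀] K) :
    ∃ e : MulAut G, ∀ (g : G) (y : K), γ (ι g y) = ι (e g) (γ y) := by
  have hfix : ∀ (σ : K ≃ₐ[F] K) (δ : K ≃ₐ[F₀] K) (x : F),
      (δ * σ.restrictScalars F₀ * δ⁻¹) (algebraMap F K x) = algebraMap F K x := by
    intro σ δ x
    have h1 : δ⁻¹ (algebraMap F K x) = algebraMap F K (sm1R δ⁻¹ x) := (sm1R_comm δ⁻¹ x).symm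
    show δ (σ (δ⁻¹ (algebraMap F K x))) = _
    rw [h1, σ.commutes, ← h1]
    show (δ * δ⁻¹) (algebraMap F K x) = _
    rw [mul_inv_cancel]
    rfl
  let c : (K ≃ₐ[F₀] K) → (K ≃ₐ[F] K) → (K ≃ₐ[F] K) := fun δ σ =>
    AlgEquiv.ofRingEquiv (f := (δ * σ.restrictScalars F₀ * δ⁻¹).toRingEquiv)
      (fun x => hfix σ δ x)
  have hc : ∀ δ σ x, c δ σ x = δ (σ (δ⁻¹ x)) := fun δ σ x => rfl
  have hinv : ∀ (δ : K ≃ₐ[F₀] K) (x : K), δ (δ⁻¹ x) = x := fun δ x => by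
    show (δ * δ⁻¹) x = x
    rw [mul_inv_cancel]; rfl
  have hinv' : ∀ (δ : K ≃ₐ[F₀] K) (x : K), δ⁻¹ (δ x) = x := fun δ x => by
    show (δ⁻¹ * δ) x = x
    rw [inv_mul_cancel]; rfl
  let e : MulAut G :=
    { toFun := fun g => ι.symm (c γ (ι g))
      invFun := fun g => ι.symm (c γ⁻¹ (ι g))
      left_inv := fun g => by
        apply ι.injective
        rw [ι.apply_symm_apply, ι.apply_symm_apply]
        ext x
        rw [hc, hc, inv_inv, hinv', hinv']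
      right_inv := fun g => by
        apply ι.injective
        rw [ι.apply_symm_apply, ι.apply_symm_apply]
        ext x
        rw [hc, hc, inv_inv, hinv, hinv]
      map_mul' := fun g h => by
        rw [← map_mul]
        congr 1
        rw [map_mul]
        ext x
        rw [hc]
        show γ (ι g (ι h (γ⁻¹ x))) = c γ (ι g) (c γ (ι h) x)
        rw [hc, hc, hinv'] }
  refine ⟨e, fun g y => ?_⟩
  show γ (ι g y) = ι (ι.symm (c γ (ι g))) (γ y)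
  rw [ι.apply_symm_apply, hc, hinv']

/-- the permutation of the places of `F` -/
noncomputable def sm1P (γ : K ≃ₐ[F₀] K) : HeightOneSpectrum (𝓞 F) ≃ HeightOneSpectrum (𝓞 F) :=
  HeightOneSpectrum.equivOfRingEquiv (RingOfIntegers.mapRingEquiv (sm1R (F := F) γ).toRingEquiv)

/-- the permutation of the places of `K` -/
noncomputable def sm1Q (γ : K ≃ₐ[F₀] K) : HeightOneSpectrum (𝓞 K) ≃ HeightOneSpectrum (𝓞 K) :=
  HeightOneSpectrum.equivOfRingEquiv (RingOfIntegers.mapRingEquiv γ.toRingEquiv)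

theorem sm1_under (γ : K ≃ₐ[F₀] K) (W : HeightOneSpectrum (𝓞 K)) :
    (sm1Q γ W).under (𝓞 F) = sm1P γ (W.under (𝓞 F)) := by
  ext x
  show (RingOfIntegers.mapRingEquiv γ.toRingEquiv).symm (algebraMap (𝓞 F) (𝓞 K) x) ∈
      W.asIdeal ↔ algebraMap (𝓞 F) (𝓞 K)
        ((RingOfIntegers.mapRingEquiv (sm1R (F := F) γ).toRingEquiv).symm x) ∈ W.asIdeal
  have h : (RingOfIntegers.mapRingEquiv γ.toRingEquiv).symm (algebraMap (𝓞 F) (𝓞 K) x) =
      algebraMap (𝓞 F) (𝓞 K)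
        ((RingOfIntegers.mapRingEquiv (sm1R (F := F) γ).toRingEquiv).symm x) := by
    rw [RingEquiv.symm_apply_eq]
    set y := (RingOfIntegers.mapRingEquiv (sm1R (F := F) γ).toRingEquiv).symm x with hy
    have hx : x = RingOfIntegers.mapRingEquiv (sm1R (F := F) γ).toRingEquiv y := by
      rw [hy, RingEquiv.apply_symm_apply]
    rw [hx]
    ext
    exact sm1R_comm γ (y : F)
  rw [h]

theorem sm1_mem (γ : K ≃ₐ[F₀] K) (S₀ : Finset (HeightOneSpectrum (𝓞 F₀)))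
    (v : HeightOneSpectrum (𝓞 F)) : sm1P γ v ∈ ovr F S₀ ↔ v ∈ ovr F S₀ := by
  rw [mem_ovr, mem_ovr]
  have h := under_equiv (sm1R (F := F) γ) v
  unfold sm1P
  rw [h]

theorem sm1_nv (γ : K ≃ₐ[F₀] K) (v : HeightOneSpectrum (𝓞 F)) : nv (sm1P γ v) = nv v :=
  nv_equiv _ v

/-- the Frobenius automorphism at `γ v` -/
theorem sm1_fr (γ : K ≃ₐ[F₀] K) {e : MulAut G}
    (he : ∀ (g : G) (y : K), γ (ι g y) = ι (e g) (γ y)) {v : HeightOneSpectrum (𝓞 F)} {g : G}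
    (hg : IsFr v (ι g)) : IsFr (sm1P γ v) (ι (e g)) := by
  intro W hW x
  obtain ⟨W', rfl⟩ := (sm1Q γ).surjective W
  rw [sm1_under] at hW
  have hW' : W'.under (𝓞 F) = v := (sm1P γ).injective hW
  rw [sm1_nv]
  set f := RingOfIntegers.mapRingEquiv γ.toRingEquiv with hf
  show f.symm (RingOfIntegers.mapRingEquiv (ι (e g)).toRingEquiv x - x ^ nv v) ∈ W'.asIdeal
  have h1 : f.symm (RingOfIntegers.mapRingEquiv (ι (e g)).toRingEquiv x) =
      RingOfIntegers.mapRingEquiv (ι g).toRingEquiv (f.symm x) := by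
    rw [RingEquiv.symm_apply_eq]
    set y := f.symm x with hy
    have hx : x = f y := by rw [hy, RingEquiv.apply_symm_apply]
    rw [hx]
    ext
    exact (he g (y : K)).symm
  rw [map_sub, h1, map_pow]
  exact hg W' hW' (f.symm x)

theorem sm1_fr_eq (hfr : ∀ v, v ∉ ovr F S₀ → IsFr v (ι (fr v)))
    (hun : ∀ W : HeightOneSpectrum (𝓞 K), W.under (𝓞 F) ∉ ovr F S₀ →
      Algebra.IsUnramifiedAt (𝓞 F) W.asIdeal) (γ : K ≃ₐ[F₀] K) {e : MulAut G}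
    (he : ∀ (g : G) (y : K), γ (ι g y) = ι (e g) (γ y)) {v : HeightOneSpectrum (𝓞 F)}
    (hv : v ∉ ovr F S₀) : fr (sm1P γ v) = e (fr v) := by
  have hv' : sm1P γ v ∉ ovr F S₀ := fun h => hv ((sm1_mem γ S₀ v).mp h)
  obtain ⟨W, hW⟩ := dn_surj (F := F) (H := K) (Sum.inr (sm1P γ v))
  rcases W with W | W
  · exact absurd hW (by simp [dn])
  have hW' : W.under (𝓞 F) = sm1P γ v := Sum.inr.inj hW
  apply ι.injective
  refine frAt_uniq (hun W (hW' ▸ hv')) (fun x => ?_) (fun x => ?_)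
  · rw [hW']
    exact hfr _ hv' W hW' x
  · rw [hW']
    exact sm1_fr γ he (hfr v hv) W hW' x

theorem sm1_lst (hfr : ∀ v, v ∉ ovr F S₀ → IsFr v (ι (fr v))) (hST : Disjoint S₀ T₀)
    (hun : ∀ W : HeightOneSpectrum (𝓞 K), W.under (𝓞 F) ∉ ovr F S₀ →
      Algebra.IsUnramifiedAt (𝓞 F) W.asIdeal) (γ : K ≃ₐ[F₀] K) {e : MulAut G}
    (he : ∀ (g : G) (y : K), γ (ι g y) = ι (e g) (γ y)) (χ : G →* ℂˣ) (s : ℂ) :
    LST (ovr F S₀) (ovr F T₀) fr (χ.comp e.toMonoidHom) s =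
      LST (ovr F S₀) (ovr F T₀) fr χ s := by
  have hT : ∀ v ∈ ovr F T₀, v ∉ ovr F S₀ := by
    intro v hv hv'
    rw [mem_ovr] at hv hv'
    exact Finset.disjoint_left.mp hST hv' hv
  have hval : ∀ v, v ∉ ovr F S₀ →
      (((χ.comp e.toMonoidHom) (fr v) : ℂˣ) : ℂ) = ((χ (fr (sm1P γ v)) : ℂˣ) : ℂ) := by
    intro v hv
    rw [sm1_fr_eq hfr hun γ he hv]
    rfl
  unfold LST
  congr 1
  · refine Finset.prod_bij (fun v _ => sm1P γ v) (fun v hv => (sm1_mem γ T₀ v).mpr hv)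
      (fun v _ v' _ h => (sm1P γ).injective h) (fun v hv => ?_) (fun v hv => ?_)
    · obtain ⟨v', rfl⟩ := (sm1P γ).surjective v
      exact ⟨v', (sm1_mem γ T₀ v').mp hv, rfl⟩
    · rw [hval v (hT v hv), sm1_nv]
  · let E : {v : HeightOneSpectrum (𝓞 F) // v ∉ ovr F S₀} ≃
        {v : HeightOneSpectrum (𝓞 F) // v ∉ ovr F S₀} :=
      (sm1P γ).subtypeEquiv fun v => not_congr (sm1_mem γ S₀ v).symm
    symm
    rw [← Equiv.tprod_eq E]
    refine tprod_congr fun v => ?_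
    have h1 : ((E v : {v : HeightOneSpectrum (𝓞 F) // v ∉ ovr F S₀}) : HeightOneSpectrum (𝓞 F)) =
        sm1P γ v.1 := rfl
    rw [hval v.1 v.2, h1, sm1_nv]

/-- SM1 -/
theorem sym_lead_pr (hfr : ∀ v, v ∉ ovr F S₀ → IsFr v (ι (fr v))) (hST : Disjoint S₀ T₀)
    (hun : ∀ W : HeightOneSpectrum (𝓞 K), W.under (𝓞 F) ∉ ovr F S₀ →
      Algebra.IsUnramifiedAt (𝓞 F) W.asIdeal) (γ : K ≃ₐ[F₀] K) {e : MulAut G}
    (he : ∀ (g : G) (y : K), γ (ι g y) = ι (e g) (γ y)) {c : (G →* ℂˣ) → ℂ}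
    (hc : LeadI (ovr F S₀) (ovr F T₀) r fr c) (χ : G →* ℂˣ) (hχ : Function.Injective χ) :
    c (χ.comp e.toMonoidHom) = c χ := by
  have h : LeadI (ovr F S₀) (ovr F T₀) r fr (fun χ => c (χ.comp e.toMonoidHom)) := by
    intro ψ hψ
    obtain ⟨Λ, h1, h2, h3⟩ := hc (ψ.comp e.toMonoidHom) (hψ.comp e.injective)
    exact ⟨Λ, h1, fun s hs => (h2 s hs).trans (sm1_lst hfr hST hun γ he ψ s), h3⟩
  exact leadI_uniq h hc χ hχ

end SM1

end Pool.Agent.CR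

namespace Pool.Agent.CR
open Pool.Agent.RSK Pool.Agent.RS2 Pool.Agent.RS3 Pool.Agent.SY
open NumberField IsDedekindDomain Filter Topology Complex

section
variable {F₀ F K : Type} [Field F₀] [NumberField F₀] [Field F] [NumberField F] [Field K]
  [NumberField K] [Algebra F₀ F] [Algebra F₀ K] [Algebra F K] [IsScalarTower F₀ F K]
  [IsGalois F₀ K] [IsGalois F₀ F] [IsGalois F K]
  {G : Type} [CommGroup G] [Fintype G] {ι : G ≃* (K ≃ₐ[F] K)}
  {S₀ T₀ : Finset (HeightOneSpectrum (𝓞 F₀))} {r : ℕ} {w : Fin r → Pl K}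
  {fr : HeightOneSpectrum (𝓞 F) → G}

theorem conj_ex (ι : G ≃* (K ≃ₐ[F] K)) (γ : K ≃ₐ[F₀] K) :
    ∃ e : MulAut G, ∀ (g : G) (y : K), γ (ι g y) = ι (e g) (γ y) :=
  @Pool.Agent.CR.conj_ex_pr F₀ F K _ _ _ _ _ _ _ _ _ _ _ _ _ G _ _ ι γ

end

end Pool.Agent.CR

namespace Pool.Agent.CR
open Pool.Agent.RSK Pool.Agent.RS2 Pool.Agent.RS3 Pool.Agent.SY
open NumberField IsDedekindDomain Filter Topology Complex

section
variable {F₀ F K : Type} [Field F₀] [NumberField F₀] [Field F] [NumberField F] [Field K]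
  [NumberField K] [Algebra F₀ F] [Algebra F₀ K] [Algebra F K] [IsScalarTower F₀ F K]
  [IsGalois F₀ K] [IsGalois F₀ F] [IsGalois F K]
  {G : Type} [CommGroup G] [Fintype G] {ι : G ≃* (K ≃ₐ[F] K)}
  {S₀ T₀ : Finset (HeightOneSpectrum (𝓞 F₀))} {r : ℕ} {w : Fin r → Pl K}
  {fr : HeightOneSpectrum (𝓞 F) → G}

theorem sym_lead (hfr : ∀ v, v ∉ ovr F S₀ → IsFr v (ι (fr v))) (hST : Disjoint S₀ T₀)
    (hun : ∀ W : HeightOneSpectrum (𝓞 K), W.under (𝓞 F) ∉ ovr F S₀ →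
      Algebra.IsUnramifiedAt (𝓞 F) W.asIdeal) (γ : K ≃ₐ[F₀] K) {e : MulAut G}
    (he : ∀ (g : G) (y : K), γ (ι g y) = ι (e g) (γ y)) {c : (G →* ℂˣ) → ℂ}
    (hc : LeadI (ovr F S₀) (ovr F T₀) r fr c) (χ : G →* ℂˣ) (hχ : Function.Injective χ) :
    c (χ.comp e.toMonoidHom) = c χ :=
  @Pool.Agent.CR.sym_lead_pr F₀ F K _ _ _ _ _ _ _ _ _ _ _ _ _ G _ _ ι S₀ T₀ r fr hfr hST hun γ e he c hc χ hχ

end

end Pool.Agent.CR
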