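import Pool.Agent.Lib_helper17.CRF.D_WL
/-!
# Composite Rubin, block SM2: symmetry of the determinants (helper13)
-/

set_option autoImplicit false
set_option linter.unusedSectionVars false

namespace Pool.Agent.CR

open Pool.Agent.RSK Pool.Agent.RS2 Pool.Agent.RS3 Pool.Agent.SY
open NumberField IsDedekindDomain Filter Topology Complex

section SY

variable {F₀ F K : Type} [Field F₀] [NumberField F₀] [Field F] [NumberField F] [Field K]
  [NumberField K] [Algebra F₀ F] [Algebra F₀ K] [Algebra F K] [IsScalarTower F₀ F K]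
  [IsGalois F₀ K] [IsGalois F₀ F] [IsGalois F K]
  {G : Type} [CommGroup G] [Fintype G] {ι : G ≃* (K ≃ₐ[F] K)}
  {S₀ T₀ : Finset (HeightOneSpectrum (𝓞 F₀))} {r : ℕ} {w : Fin r → Pl K}
  {fr : HeightOneSpectrum (𝓞 F) → G}

/-- conjugation by `γ`, on places -/
theorem sm2_act (γ : K ≃ₐ[F₀] K) {e : MulAut G}
    (he : ∀ (g : G) (y : K), γ (ι g y) = ι (e g) (γ y)) (g : G) (W : Pl K) :
    act γ (act (ι g) W) = act (ι (e g)) (act γ W) := by
  have h : γ * (ι g).restrictScalars F₀ = (ι (e g)).restrictScalars F₀ * γ := by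
    ext y
    exact he g y
  rw [← act_restrict (F₀ := F₀) (ι g), ← act_restrict (F₀ := F₀) (ι (e g)), ← act_mul, h, act_mul]

/-- the automorphism `γ` permutes the split places -/
theorem sm2_perm (hD : Data ι (ovr F S₀) (ovr F T₀) r w fr) (γ : K ≃ₐ[F₀] K) {e : MulAut G}
    (he : ∀ (g : G) (y : K), γ (ι g y) = ι (e g) (γ y)) :
    ∃ (π : Equiv.Perm (Fin r)) (g : Fin r → G), ∀ i, act γ (w i) = act (ι (g i)) (w (π i)) := by
  have hcanc : ∀ {W W' : Pl K}, act γ W = act γ W' → W = W' := by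
    intro W W' h
    have h2 := congrArg (act γ⁻¹) h
    rw [← act_mul, ← act_mul, inv_mul_cancel, act_one, act_one] at h2
    exact h2
  have h1 : ∀ i, ∃ i' : Fin r, dn F (act γ (w i)) = dn F (w i') := by
    intro i
    apply hD.all
    · rw [rd1_inS, dn_dn, dn_act, ← dn_dn (F := F), ← rd1_inS]
      exact hD.mem i
    · intro σ hσ
      obtain ⟨g, rfl⟩ := ι.surjective σ
      obtain ⟨g', rfl⟩ := e.surjective g
      rw [← sm2_act γ he] at hσ
      have h3 := hD.split i _ (hcanc hσ)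
      have h4 : g' = 1 := ι.injective (by rw [h3, map_one])
      rw [h4, map_one, map_one]
  choose π hπ using h1
  have hg : ∀ i, ∃ g : G, act γ (w i) = act (ι g) (w (π i)) := by
    intro i
    obtain ⟨σ, hσ⟩ := act_trans (F := F) (hπ i).symm
    refine ⟨ι.symm σ, ?_⟩
    rw [MulEquiv.apply_symm_apply, hσ]
  choose g hg using hg
  have hinj : Function.Injective π := by
    intro i j hij
    apply hD.inj
    have h2 : dn F (act γ (w i)) = dn F (act γ (w j)) := by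
      rw [hπ i, hπ j, hij]
    obtain ⟨σ, hσ⟩ := act_trans (F := F) h2
    obtain ⟨g₁, rfl⟩ := ι.surjective σ
    obtain ⟨g', rfl⟩ := e.surjective g₁
    rw [← sm2_act γ he] at hσ
    rw [← hcanc hσ, dn_act]
  exact ⟨Equiv.ofBijective π (Finite.injective_iff_bijective.1 hinj), g, hg⟩

/-- the value of a character at `W^*(λ(u))` -/
theorem sm2_ev (S T : Finset (HeightOneSpectrum (𝓞 F))) (χ : G →* ℂˣ) (W : Pl K)
    (u : UM ι S T) :
    evR χ (wl ι S T W u) = ∑ δ : G, (lg (act (ι δ) W) (u.val : K) : ℂ) * (χ δ : ℂ) := by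
  have h1 : wl ι S T W u = ∑ δ : G, MonoidAlgebra.single δ (lg (act (ι δ) W) (u.val : K)) := rfl
  rw [h1, map_sum]
  refine Finset.sum_congr rfl fun δ _ => ?_
  rw [evR, MonoidAlgebra.lift_single]
  simp [Algebra.smul_def]

/-- symmetry of the entries -/
theorem sm2_entry (γ : K ≃ₐ[F₀] K) {e : MulAut G}
    (he : ∀ (g : G) (y : K), γ (ι g y) = ι (e g) (γ y)) {W W' : Pl K} {g : G}
    (hW : act γ W = act (ι g) W') {S T : Finset (HeightOneSpectrum (𝓞 F))} {u u' : UM ι S T}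
    (hu : u'.val = γ • u.val) (χ : G →* ℂˣ) :
    evR (χ.comp e.toMonoidHom) (wl ι S T W u) = (χ g⁻¹ : ℂ) * evR χ (wl ι S T W' u') := by
  rw [sm2_ev, sm2_ev, Finset.mul_sum]
  refine Fintype.sum_equiv (e.toEquiv.trans (Equiv.mulRight g)) _ _ fun δ => ?_
  show (lg (act (ι δ) W) (u.val : K) : ℂ) * (χ (e δ) : ℂ) =
    (χ g⁻¹ : ℂ) * ((lg (act (ι (e δ * g)) W') (u'.val : K) : ℂ) * (χ (e δ * g) : ℂ))
  have h1 : lg (act (ι δ) W) (u.val : K) = lg (act (ι (e δ * g)) W') (u'.val : K) := by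
    rw [map_mul, act_mul, ← hW, ← sm2_act γ he, hu]
    exact (lg_act γ _ _).symm
  have h2 : (χ (e δ) : ℂ) = (χ g⁻¹ : ℂ) * (χ (e δ * g) : ℂ) := by
    rw [← Units.val_mul, ← map_mul]
    congr 2
    rw [mul_comm (e δ), inv_mul_cancel_left]
  rw [h1, h2]
  ring

/-- SM2. Symmetry of the determinants: `wl (γ W) (γ u) = mapDomain e (wl W u)`, `γ` permutes the
`w_i` up to the action of `G` (as `perm_w`, RS/P_RD1), `wl (g W) u = g⁻¹ wl W u`. -/
theorem sym_wdet_pr (hD : Data ι (ovr F S₀) (ovr F T₀) r w fr) (γ : K ≃ₐ[F₀] K) {e : MulAut G}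
    (he : ∀ (g : G) (y : K), γ (ι g y) = ι (e g) (γ y)) :
    ∃ (h : G) (ε : ℤ), (ε = 1 ∨ ε = -1) ∧
      ∀ b b' : Fin r → UM ι (ovr F S₀) (ovr F T₀), (∀ i, (b' i).val = γ • (b i).val) →
        ∀ χ : G →* ℂˣ, evR (χ.comp e.toMonoidHom) (wmat ι (ovr F S₀) (ovr F T₀) w b).det =
          (ε : ℂ) * (χ h : ℂ) * evR χ (wmat ι (ovr F S₀) (ovr F T₀) w b').det := by
  obtain ⟨π, g, hg⟩ := sm2_perm hD γ he
  refine ⟨∏ i, (g i)⁻¹, (Equiv.Perm.sign π : ℤ), ?_, ?_⟩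
  · rcases Int.units_eq_one_or (Equiv.Perm.sign π) with h | h <;> simp [h]
  · intro b b' hb χ
    have h1 : evR (χ.comp e.toMonoidHom) (wmat ι (ovr F S₀) (ovr F T₀) w b).det =
        Matrix.det (Matrix.of fun i j : Fin r => (χ (g i)⁻¹ : ℂ) *
          ((((evR χ : MonoidAlgebra ℝ G →ₐ[ℝ] ℂ) : MonoidAlgebra ℝ G →+* ℂ).mapMatrix
            (wmat ι (ovr F S₀) (ovr F T₀) w b')).submatrix π id) i j) := by
      have h2 := RingHom.map_det (evR (χ.comp e.toMonoidHom) : MonoidAlgebra ℝ G →+* ℂ)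
        (wmat ι (ovr F S₀) (ovr F T₀) w b)
      refine h2.trans ?_
      congr 1
      ext i j
      exact sm2_entry γ he (hg i) (hb j) χ
    have h3 : evR χ (wmat ι (ovr F S₀) (ovr F T₀) w b').det =
        Matrix.det (((evR χ : MonoidAlgebra ℝ G →ₐ[ℝ] ℂ) : MonoidAlgebra ℝ G →+* ℂ).mapMatrix
            (wmat ι (ovr F S₀) (ovr F T₀) w b')) :=
      RingHom.map_det (evR χ : MonoidAlgebra ℝ G →+* ℂ) (wmat ι (ovr F S₀) (ovr F T₀) w b')
    have h4 : (∏ i, (χ (g i)⁻¹ : ℂ)) = (χ (∏ i, (g i)⁻¹) : ℂ) := by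
      rw [map_prod]
      exact (Units.coe_prod _ _).symm
    rw [h1, h3, Matrix.det_mul_column, Matrix.det_permute, h4]
    ring

end SY

section SY

variable {F₀ F K : Type} [Field F₀] [NumberField F₀] [Field F] [NumberField F] [Field K]
  [NumberField K] [Algebra F₀ F] [Algebra F₀ K] [Algebra F K] [IsScalarTower F₀ F K]
  [IsGalois F₀ K] [IsGalois F₀ F] [IsGalois F K]
  {G : Type} [CommGroup G] [Fintype G] {ι : G ≃* (K ≃ₐ[F] K)}
  {S₀ T₀ : Finset (HeightOneSpectrum (𝓞 F₀))} {r : ℕ} {w : Fin r → Pl K}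
  {fr : HeightOneSpectrum (𝓞 F) → G}

end SY

end Pool.Agent.CR

namespace Pool.Agent.CR
open Pool.Agent.RSK Pool.Agent.RS2 Pool.Agent.RS3 Pool.Agent.SY
open NumberField IsDedekindDomain Filter Topology Complex

section
variable {F₀ F K : Type} [Field F₀] [NumberField F₀] [Field F] [NumberField F] [Field K]
  [NumberField K] [Algebra F₀ F] [Algebra F₀ K] [Algebra F K] [IsScalarTower F₀ F K]
  [IsGalois F₀ K] [IsGalois F₀ F] [IsGalois F K]
  {G : Type} [CommGroup G] [Fintype G] {ι : G ≃* (K ≃ₐ[F] K)}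
  {S₀ T₀ : Finset (HeightOneSpectrum (𝓞 F₀))} {r : ℕ} {w : Fin r → Pl K}
  {fr : HeightOneSpectrum (𝓞 F) → G}

theorem sym_wdet (hD : Data ι (ovr F S₀) (ovr F T₀) r w fr) (γ : K ≃ₐ[F₀] K) {e : MulAut G}
    (he : ∀ (g : G) (y : K), γ (ι g y) = ι (e g) (γ y)) :
    ∃ (h : G) (ε : ℤ), (ε = 1 ∨ ε = -1) ∧
      ∀ b b' : Fin r → UM ι (ovr F S₀) (ovr F T₀), (∀ i, (b' i).val = γ • (b i).val) →
        ∀ χ : G →* ℂˣ, evR (χ.comp e.toMonoidHom) (wmat ι (ovr F S₀) (ovr F T₀) w b).det =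
          (ε : ℂ) * (χ h : ℂ) * evR χ (wmat ι (ovr F S₀) (ovr F T₀) w b').det :=
  @Pool.Agent.CR.sym_wdet_pr F₀ F K _ _ _ _ _ _ _ _ _ _ _ _ _ G _ _ ι S₀ T₀ r w fr hD γ e he

end

end Pool.Agent.CR
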