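import Pool.Agent.Lib_helper17.CRF.D_WL
import Pool.Agent.Lib_helper17.CRF.L_SM2
import Pool.Agent.Lib_helper17.CRF.L_SM1

/-!
# Composite Rubin (CR), block SM3: the relation for `x`
-/

set_option autoImplicit false
set_option linter.unusedSectionVars false

namespace Pool.Agent.CR

open Pool.Agent.RSK Pool.Agent.RS2 Pool.Agent.RS3 Pool.Agent.SY
open NumberField IsDedekindDomain Filter Topology Complex

section Ev

variable {G : Type} [CommGroup G]

theorem sm3_evR_single (χ : G →* ℂˣ) (g : G) (q : ℝ) :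
    evR χ (MonoidAlgebra.single g q) = (q : ℂ) * (χ g : ℂ) := by
  unfold evR
  rw [MonoidAlgebra.lift_single]
  simp [Algebra.smul_def]

theorem sm3_evQ_single (χ : G →* ℂˣ) (g : G) (q : ℚ) :
    evQ χ (MonoidAlgebra.single g q) = (q : ℂ) * (χ g : ℂ) := by
  unfold evQ
  rw [MonoidAlgebra.lift_single]
  simp [Algebra.smul_def]

theorem sm3_evZ_single (χ : G →* ℂˣ) (g : G) (q : ℤ) :
    evZ χ (MonoidAlgebra.single g q) = (q : ℂ) * (χ g : ℂ) := by
  have h : toQ G (MonoidAlgebra.single g q) = MonoidAlgebra.single g (q : ℚ) := by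
    simp [toQ]
  show evQ χ (toQ G (MonoidAlgebra.single g q)) = _
  rw [h, sm3_evQ_single]
  push_cast
  rfl

theorem sm3_evR_toR (χ : G →* ℂˣ) (a : MonoidAlgebra ℤ G) : evR χ (toR G a) = evZ χ a := by
  induction a using MonoidAlgebra.induction_on with
  | of g =>
    have h : MonoidAlgebra.of ℤ G g = MonoidAlgebra.single g 1 := rfl
    rw [h, sm3_evZ_single]
    have h2 : toR G (MonoidAlgebra.single g 1) = MonoidAlgebra.single g (1 : ℝ) := by
      simp [toR]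
    rw [h2, sm3_evR_single]
    push_cast
    rfl
  | add a b ha hb => rw [map_add, map_add, map_add, ha, hb]
  | smul c a ha => rw [map_zsmul, map_zsmul, map_zsmul, ha]

theorem sm3_comp_inj {χ : G →* ℂˣ} (hχ : Function.Injective χ) (e : MulAut G) :
    Function.Injective (χ.comp e.toMonoidHom) := by
  intro a b h
  exact e.injective (hχ h)

theorem sm3_inv_inj {χ : G →* ℂˣ} (hχ : Function.Injective χ) :
    Function.Injective (χ⁻¹ : G →* ℂˣ) := by
  intro a b h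
  have h1 : (χ a)⁻¹ = (χ b)⁻¹ := h
  exact hχ (inv_injective h1)

end Ev

section New

variable {G M : Type} [CommGroup G] [Finite G] [AddCommGroup M] (A : G →* AddMonoid.End M)

/-- an additive map which is compatible with the action up to an automorphism preserves the
new part -/
theorem sm3_new (φ : M →+ M) (e : MulAut G) (hφ : ∀ (g : G) (u : M), φ (A g u) = A (e g) (φ u))
    {u : M} (hu : u ∈ mI A) : φ u ∈ mI A := by
  classical
  intro P hP
  set P' : Subgroup G := P.comap e.toMonoidHom with hP'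
  let E : P' ≃ P := e.toEquiv.subtypeEquiv fun a => Iff.rfl
  have hcard : (Nat.card P').Prime := by
    rw [Nat.card_congr E]
    exact hP
  have h1 : nA A P' u = 0 := hu P' hcard
  have : Fintype P := Fintype.ofFinite P
  have : Fintype P' := Fintype.ofFinite P'
  rw [nA_sum] at h1 ⊢
  rw [← Equiv.sum_comp E]
  have h2 : ∀ g : P', A ((E g : P) : G) (φ u) = φ (A (g : G) u) := fun g => (hφ _ _).symm
  simp_rw [h2]
  rw [← map_sum, h1, map_zero]

end New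

section SY

variable {F₀ F K : Type} [Field F₀] [NumberField F₀] [Field F] [NumberField F] [Field K]
  [NumberField K] [Algebra F₀ F] [Algebra F₀ K] [Algebra F K] [IsScalarTower F₀ F K]
  [IsGalois F₀ K] [IsGalois F₀ F] [IsGalois F K]
  {G : Type} [CommGroup G] [Fintype G] {ι : G ≃* (K ≃ₐ[F] K)}
  {S₀ T₀ : Finset (HeightOneSpectrum (𝓞 F₀))} {r : ℕ} {w : Fin r → Pl K}
  {fr : HeightOneSpectrum (𝓞 F) → G}

theorem sm3_mem (γ : K ≃ₐ[F₀] K) {x : Kˣ}
    (hx : x ∈ Un (ovr K (ovr F S₀)) (ovr K (ovr F T₀))) :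
    γ • x ∈ Un (ovr K (ovr F S₀)) (ovr K (ovr F T₀)) := by
  rw [ovr_ovr, ovr_ovr] at hx ⊢
  exact un_smul γ hx

/-- the action of `γ` on the units -/
noncomputable def sm3_act (ι : G ≃* (K ≃ₐ[F] K)) (S₀ T₀ : Finset (HeightOneSpectrum (𝓞 F₀)))
    (γ : K ≃ₐ[F₀] K) : UM ι (ovr F S₀) (ovr F T₀) →+ UM ι (ovr F S₀) (ovr F T₀) where
  toFun u := UM.mk (γ • u.val) (sm3_mem γ u.val_mem)
  map_zero' := UM.ext (by rw [UM.val_mk, UM.val_zero, smul_one])
  map_add' u v := UM.ext (by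
    rw [UM.val_mk, UM.val_add, UM.val_add, UM.val_mk, UM.val_mk, smul_mul'])

theorem sm3_act_val (ι : G ≃* (K ≃ₐ[F] K)) (S₀ T₀ : Finset (HeightOneSpectrum (𝓞 F₀)))
    (γ : K ≃ₐ[F₀] K) (u : UM ι (ovr F S₀) (ovr F T₀)) :
    (sm3_act ι S₀ T₀ γ u).val = γ • u.val := rfl

theorem sm3_act_smul (ι : G ≃* (K ≃ₐ[F] K)) (S₀ T₀ : Finset (HeightOneSpectrum (𝓞 F₀)))
    (γ : K ≃ₐ[F₀] K) {e : MulAut G} (he : ∀ (g : G) (y : K), γ (ι g y) = ι (e g) (γ y)) (g : G)
    (u : UM ι (ovr F S₀) (ovr F T₀)) :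
    sm3_act ι S₀ T₀ γ (smA G (UM ι (ovr F S₀) (ovr F T₀)) g u) =
      smA G (UM ι (ovr F S₀) (ovr F T₀)) (e g) (sm3_act ι S₀ T₀ γ u) := by
  refine UM.ext ?_
  show γ • (MonoidAlgebra.single g (1 : ℤ) • u).val =
    (MonoidAlgebra.single (e g) (1 : ℤ) • sm3_act ι S₀ T₀ γ u).val
  rw [um_single_smul, um_single_smul, sm3_act_val]
  refine Units.ext ?_
  exact he g (u.val : K)

/-- SM3 -/
theorem sym_relX_pr (hD : Data ι (ovr F S₀) (ovr F T₀) r w fr) (hST : Disjoint S₀ T₀)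
    {c : (G →* ℂˣ) → ℂ} (hc : LeadI (ovr F S₀) (ovr F T₀) r fr c)
    (hc0 : ∀ χ : G →* ℂˣ, Function.Injective χ → c χ ≠ 0)
    {b : Fin r → UM ι (ovr F S₀) (ovr F T₀)} {x : MonoidAlgebra ℚ G}
    (hco : CoreF ι (ovr F S₀) (ovr F T₀) w c b x)
    (hb : ∀ i, b i ∈ mI (smA G (UM ι (ovr F S₀) (ovr F T₀)))) {l : ℕ} (hl : l.Prime)
    (h0 : ¬ l ∣ (mSpn G b).relIndex (mI (smA G (UM ι (ovr F S₀) (ovr F T₀)))))
    (γ : K ≃ₐ[F₀] K) {e : MulAut G} (he : ∀ (g : G) (y : K), γ (ι g y) = ι (e g) (γ y)) :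
    ∃ (k : ℕ) (v : MonoidAlgebra ℤ G), ¬ l ∣ k ∧ ∀ χ : G →* ℂˣ,
      Function.Injective χ → (k : ℂ) * evQ χ x = evZ χ v * evQ (χ.comp e.toMonoidHom) x := by
  set k := (mSpn G b).relIndex (mI (smA G (UM ι (ovr F S₀) (ovr F T₀)))) with hk
  obtain ⟨h, ε, hε, hdet⟩ := sym_wdet hD γ he
  set b' : Fin r → UM ι (ovr F S₀) (ovr F T₀) := fun i => sm3_act ι S₀ T₀ γ (b i) with hb'
  have hmem : ∀ i, b' i ∈ mI (smA G (UM ι (ovr F S₀) (ovr F T₀))) := fun i =>
    sm3_new _ (sm3_act ι S₀ T₀ γ) e (sm3_act_smul ι S₀ T₀ γ he) (hb i)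
  have hspan : ∀ i, k • b' i ∈ mSpn G b := by
    intro i
    have h1 := AddSubgroup.nsmul_index_mem ((mSpn G b).addSubgroupOf
      (mI (smA G (UM ι (ovr F S₀) (ovr F T₀))))) ⟨b' i, hmem i⟩
    exact h1
  have hex : ∀ j, ∃ a : Fin r → MonoidAlgebra ℤ G, ∑ i, a i • b i = k • b' j := by
    intro j
    exact (Submodule.mem_span_range_iff_exists_fun _).1 (hspan j)
  choose a ha using hex
  set A : Matrix (Fin r) (Fin r) (MonoidAlgebra ℤ G) := Matrix.of fun i j => a j i with hA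
  have hev : ∀ (χ : G →* ℂˣ) (a : MonoidAlgebra ℤ G) (q : MonoidAlgebra ℝ G),
      evR χ (a • q) = evZ χ a * evR χ q := by
    intro χ a q
    have h4 : a • q = toR G a * q := rfl
    rw [h4, map_mul, sm3_evR_toR]
  have hW : ∀ χ : G →* ℂˣ,
      (k : ℂ) ^ r * evR χ (wmat ι (ovr F S₀) (ovr F T₀) w b').det =
        evR χ (wmat ι (ovr F S₀) (ovr F T₀) w b).det * evZ χ A.det := by
    intro χ
    have e1 : ∀ b : Fin r → UM ι (ovr F S₀) (ovr F T₀),
        evR χ (wmat ι (ovr F S₀) (ovr F T₀) w b).det =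
        (Matrix.of fun i j => evR χ (wl ι (ovr F S₀) (ovr F T₀) (w i) (b j))).det := fun b =>
      RingHom.map_det (evR χ : MonoidAlgebra ℝ G →+* ℂ) (wmat ι (ovr F S₀) (ovr F T₀) w b)
    have e2 : evZ χ A.det = (Matrix.of fun i j => evZ χ (a j i)).det :=
      RingHom.map_det (evZ χ) A
    rw [e1, e1, e2, ← Matrix.det_mul]
    have e3 : (k : ℂ) ^ r * (Matrix.of fun i j =>
        evR χ (wl ι (ovr F S₀) (ovr F T₀) (w i) (b' j))).det =
        ((k : ℂ) • (Matrix.of fun i j : Fin r =>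
          evR χ (wl ι (ovr F S₀) (ovr F T₀) (w i) (b' j)))).det := by
      rw [Matrix.det_smul, Fintype.card_fin]
    rw [e3]
    congr 1
    ext i j
    rw [Matrix.smul_apply, Matrix.mul_apply, Matrix.of_apply, smul_eq_mul]
    have e4 : (k : ℂ) * evR χ (wl ι (ovr F S₀) (ovr F T₀) (w i) (b' j)) =
        evR χ (wl ι (ovr F S₀) (ovr F T₀) (w i) (k • b' j)) := by
      rw [map_nsmul, map_nsmul, nsmul_eq_mul]
    rw [e4, ← ha j, map_sum, map_sum]
    refine Finset.sum_congr rfl fun m _ => ?_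
    rw [map_smul, hev, Matrix.of_apply, Matrix.of_apply, mul_comm]
  refine ⟨k ^ r, MonoidAlgebra.single h ε * A.det, fun hd => h0 (hl.dvd_of_dvd_pow hd),
    fun χ hχ => ?_⟩
  have v1 := hco.value χ hχ
  have v2 := hco.value (χ.comp e.toMonoidHom) (sm3_comp_inj hχ e)
  have v3 : c (χ.comp e.toMonoidHom)⁻¹ = c χ⁻¹ := by
    have := sym_lead hD.frob hST hD.unram γ he hc χ⁻¹ (sm3_inv_inj hχ)
    rw [← this]
    congr 1
  have v4 := hdet b b' (fun i => sm3_act_val ι S₀ T₀ γ (b i)) χ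
  have hne : evR χ (wmat ι (ovr F S₀) (ovr F T₀) w b).det ≠ 0 := by
    intro h1
    rw [h1, mul_zero] at v1
    exact hc0 _ (sm3_inv_inj hχ) v1.symm
  rw [v3, ← v1, v4] at v2
  have v5 := hW χ
  rw [map_mul, sm3_evZ_single]
  push_cast
  apply mul_right_cancel₀ hne
  generalize evR χ (wmat ι (ovr F S₀) (ovr F T₀) w b).det = D at *
  generalize evR χ (wmat ι (ovr F S₀) (ovr F T₀) w b').det = D' at *
  generalize evZ χ A.det = E at *
  linear_combination (-(k : ℂ) ^ r) * v2 + (evQ (χ.comp e.toMonoidHom) x * ε * χ h) * v5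

end SY

end Pool.Agent.CR

namespace Pool.Agent.CR
open Pool.Agent.RSK Pool.Agent.RS2 Pool.Agent.RS3 Pool.Agent.SY
open NumberField IsDedekindDomain Filter Topology Complex

section
variable {F₀ F K : Type} [Field F₀] [NumberField F₀] [Field F] [NumberField F] [Field K]
  [NumberField K] [Algebra F₀ F] [Algebra F₀ K] [Algebra F K] [IsScalarTower F₀ F K]
  [IsGalois F₀ K] [IsGalois F₀ F] [IsGalois F K]
  {G : Type} [CommGroup G] [Fintype G] {ι : G ≃* (K ≃ₐ[F] K)}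
  {S₀ T₀ : Finset (HeightOneSpectrum (𝓞 F₀))} {r : ℕ} {w : Fin r → Pl K}
  {fr : HeightOneSpectrum (𝓞 F) → G}

theorem sym_relX (hD : Data ι (ovr F S₀) (ovr F T₀) r w fr) (hST : Disjoint S₀ T₀)
    {c : (G →* ℂˣ) → ℂ} (hc : LeadI (ovr F S₀) (ovr F T₀) r fr c)
    (hc0 : ∀ χ : G →* ℂˣ, Function.Injective χ → c χ ≠ 0)
    {b : Fin r → UM ι (ovr F S₀) (ovr F T₀)} {x : MonoidAlgebra ℚ G}
    (hco : CoreF ι (ovr F S₀) (ovr F T₀) w c b x)
    (hb : ∀ i, b i ∈ mI (smA G (UM ι (ovr F S₀) (ovr F T₀)))) {l : ℕ} (hl : l.Prime)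
    (h0 : ¬ l ∣ (mSpn G b).relIndex (mI (smA G (UM ι (ovr F S₀) (ovr F T₀)))))
    (γ : K ≃ₐ[F₀] K) {e : MulAut G} (he : ∀ (g : G) (y : K), γ (ι g y) = ι (e g) (γ y)) :
    ∃ (k : ℕ) (v : MonoidAlgebra ℤ G), ¬ l ∣ k ∧ ∀ χ : G →* ℂˣ,
      Function.Injective χ → (k : ℂ) * evQ χ x = evZ χ v * evQ (χ.comp e.toMonoidHom) x :=
  @Pool.Agent.CR.sym_relX_pr F₀ F K _ _ _ _ _ _ _ _ _ _ _ _ _ G _ _ ι S₀ T₀ r w fr hD hST c hc hc0 b x hco hb l hl h0 γ e he

end

end Pool.Agent.CR
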