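import Pool.Agent.Lib_helper17.CRF.D_WL
import Pool.Agent.Lib_helper17.CRF.L_SM1
import Pool.Agent.Lib_helper17.CRF.L_SM3
import Pool.Agent.Lib_helper17.CRF.L_LY0

set_option autoImplicit false
set_option linter.unusedSectionVars false

namespace Pool.Agent.CR

open Pool.Agent.RSK Pool.Agent.RS2 Pool.Agent.RS3 Pool.Agent.SY
open NumberField IsDedekindDomain Filter Topology Complex

section SY

variable {F₀ F K : Type} [Field F₀] [NumberField F₀] [Field F] [NumberField F] [Field K]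
  [NumberField K] [Algebra F₀ F] [Algebra F₀ K] [Algebra F K] [IsScalarTower F₀ F K]
  [IsGalois F₀ K] [IsGalois F₀ F] [IsGalois F K]
  {G : Type} [CommGroup G] [Fintype G] {ι : G ≃* (K ≃ₐ[F] K)}
  {S₀ T₀ : Finset (HeightOneSpectrum (𝓞 F₀))} {r : ℕ} {w : Fin r → Pl K}
  {fr : HeightOneSpectrum (𝓞 F) → G}

/-- LY1. Stable `S` and `T`: `cc_of_rel` with `E` = the `e` with `γ ι(g) = ι(e g) γ` for some `γ`,
`sym_relX`. -/
theorem cc_stable_pr [IsCyclic G] (hST : Disjoint S₀ T₀)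
    (hD : Data ι (ovr F S₀) (ovr F T₀) r w fr) (hR : RCore ι (ovr F S₀) (ovr F T₀) w fr)
    {l : ℕ} (hl : l.Prime) {s : G} (hs : SylG l s)
    (hA : ∀ n : ℕ, n.Coprime (Nat.card G) → ∃ (i b : ℕ) (γ : K ≃ₐ[F₀] K),
      (∀ (g : G) (y : K), γ (ι g y) = ι (g ^ b) (γ y)) ∧
      ∀ g : G, ¬ l ∣ orderOf g → g ^ (b * l ^ i) = g ^ n) :
    CCore ι (ovr F S₀) (ovr F T₀) w fr l (wts ι (ovr F S₀) l - del l G) s := by
  refine cc_of_rel hD hR hl hs
    {e : MulAut G | ∃ γ : K ≃ₐ[F₀] K, ∀ (g : G) (y : K), γ (ι g y) = ι (e g) (γ y)} ?_ ?_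
  · intro n hn
    obtain ⟨i, b, γ, hγ, hg⟩ := hA n hn
    obtain ⟨e, he⟩ := conj_ex ι γ
    refine ⟨i, b, e, ⟨γ, he⟩, ?_, hg⟩
    intro g
    apply ι.injective
    apply AlgEquiv.ext
    intro z
    obtain ⟨y, rfl⟩ := γ.surjective z
    rw [← he g y, hγ g y]
  · intro c b x hc hc0 hco hb h0 e he
    obtain ⟨γ, he⟩ := he
    exact sym_relX hD hST hc hc0 hco hb hl h0 γ he

end SY

end Pool.Agent.CR

namespace Pool.Agent.CR
open Pool.Agent.RSK Pool.Agent.RS2 Pool.Agent.RS3 Pool.Agent.SY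
open NumberField IsDedekindDomain Filter Topology Complex

section
variable {F₀ F K : Type} [Field F₀] [NumberField F₀] [Field F] [NumberField F] [Field K]
  [NumberField K] [Algebra F₀ F] [Algebra F₀ K] [Algebra F K] [IsScalarTower F₀ F K]
  [IsGalois F₀ K] [IsGalois F₀ F] [IsGalois F K]
  {G : Type} [CommGroup G] [Fintype G] {ι : G ≃* (K ≃ₐ[F] K)}
  {S₀ T₀ : Finset (HeightOneSpectrum (𝓞 F₀))} {r : ℕ} {w : Fin r → Pl K}
  {fr : HeightOneSpectrum (𝓞 F) → G}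

theorem cc_stable [IsCyclic G] (hST : Disjoint S₀ T₀)
    (hD : Data ι (ovr F S₀) (ovr F T₀) r w fr) (hR : RCore ι (ovr F S₀) (ovr F T₀) w fr)
    {l : ℕ} (hl : l.Prime) {s : G} (hs : SylG l s)
    (hA : ∀ n : ℕ, n.Coprime (Nat.card G) → ∃ (i b : ℕ) (γ : K ≃ₐ[F₀] K),
      (∀ (g : G) (y : K), γ (ι g y) = ι (g ^ b) (γ y)) ∧
      ∀ g : G, ¬ l ∣ orderOf g → g ^ (b * l ^ i) = g ^ n) :
    CCore ι (ovr F S₀) (ovr F T₀) w fr l (wts ι (ovr F S₀) l - del l G) s :=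
  @Pool.Agent.CR.cc_stable_pr F₀ F K _ _ _ _ _ _ _ _ _ _ _ _ _ G _ _ ι S₀ T₀ r w fr _ hST hD hR l hl s hs hA

end

end Pool.Agent.CR
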