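import Pool.Agent.Lib_helper17.CRF.D_WL
import Pool.Agent.Lib_helper35.RS3.P_LA3
import Pool.Agent.Lib_helper17.CRF.L_LY1
import Pool.Agent.Lib_helper17.CRF.L_CC5
import Pool.Agent.Lib_helper17.CRF.L_CP
import Pool.Agent.Lib_helper17.CRF.L_CC6

/-!
# Composite Rubin (CR), block LY2: larger stable sets
-/

set_option autoImplicit false
set_option linter.unusedSectionVars false

namespace Pool.Agent.CR

open Pool.Agent.RSK Pool.Agent.RS2 Pool.Agent.RS3 Pool.Agent.SY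
open NumberField IsDedekindDomain Filter Topology Complex

section LY2

variable {F₀ F K : Type} [Field F₀] [NumberField F₀] [Field F] [NumberField F] [Field K]
  [NumberField K] [Algebra F₀ F] [Algebra F₀ K] [Algebra F K] [IsScalarTower F₀ F K]
  [IsGalois F₀ K] [IsGalois F₀ F] [IsGalois F K]
  {G : Type} [CommGroup G] [Fintype G] {ι : G ≃* (K ≃ₐ[F] K)}
  {r : ℕ} {w : Fin r → Pl K}
  {fr : HeightOneSpectrum (𝓞 F) → G}

theorem cc_big_pr [IsCyclic G] {S T : Finset (HeightOneSpectrum (𝓞 F))}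
    (hD : Data ι S T r w fr) (hR : RCore ι S T w fr)
    {l : ℕ} (hl : l.Prime) {s : G} (hs : SylG l s)
    (hA : ∀ n : ℕ, n.Coprime (Nat.card G) → ∃ (i b : ℕ) (γ : K ≃ₐ[F₀] K),
      (∀ (g : G) (y : K), γ (ι g y) = ι (g ^ b) (γ y)) ∧
      ∀ g : G, ¬ l ∣ orderOf g → g ^ (b * l ^ i) = g ^ n) (γ : K ≃ₐ[F₀] K) {b : ℕ}
    (hγ : ∀ (g : G) (y : K), γ (ι g y) = ι (g ^ b) (γ y)) {g₀ : G}
    (hg₀ : ¬ ∃ i : ℕ, (g₀ ^ b * g₀⁻¹) ^ l ^ i = 1) :
    CCore ι S T w fr l (wts ι S l - del l G) s := by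
  classical
  obtain ⟨S₀, hS₀⟩ : ∃ S₀ : Finset (HeightOneSpectrum (𝓞 F₀)),
      S₀ = S.image (fun v => v.under (𝓞 F₀)) := ⟨_, rfl⟩
  obtain ⟨v₀, hv₀, hv⟩ := ch_places (F := F) γ hγ hl hg₀
    (S₀ ∪ T.image (fun v => v.under (𝓞 F₀)))
  rw [Finset.mem_union, not_or] at hv₀
  have hm1 : ∀ v : HeightOneSpectrum (𝓞 F), v ∈ ovr F {v₀} ↔ v.under (𝓞 F₀) = v₀ := fun v => by
    rw [mem_ovr, Finset.mem_singleton]
  have hSS : S ⊆ ovr F S₀ := fun v hvS => by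
    rw [mem_ovr, hS₀]
    exact Finset.mem_image_of_mem _ hvS
  have hd0 : Disjoint S₀ {v₀} := Finset.disjoint_singleton_right.2 hv₀.1
  have hd1 : Disjoint (ovr F S₀) (ovr F {v₀}) := by
    rw [Finset.disjoint_left]
    intro v h1 h2
    rw [hm1] at h2
    rw [mem_ovr, h2] at h1
    exact hv₀.1 h1
  have hdS : Disjoint S (ovr F {v₀}) := Finset.disjoint_of_subset_left hSS hd1
  have hdT : Disjoint T (ovr F {v₀}) := by
    rw [Finset.disjoint_left]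
    intro v h1 h2
    rw [hm1] at h2
    apply hv₀.2
    rw [← h2]
    exact Finset.mem_image_of_mem _ h1
  obtain ⟨v₁, hv₁⟩ : ∃ v₁ : HeightOneSpectrum (𝓞 F), v₁ ∈ ovr F {v₀} := by
    obtain ⟨W, hW⟩ := dn_surj (F := F₀) (H := F) (Sum.inr v₀)
    rcases W with W | W
    · exact absurd hW (by simp [dn])
    · refine ⟨W, ?_⟩
      rw [hm1]
      simpa [dn] using hW
  have hfin : Module.finrank ℚ F ≤ Module.finrank ℚ K := by
    rw [← Module.finrank_mul_finrank ℚ F K]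
    exact Nat.le_mul_of_pos_right _ Module.finrank_pos
  have hD1 : Data ι S (ovr F {v₀}) r w fr :=
    { disj := hdS
      unram := hD.unram
      tors := Or.inr ⟨v₁, hv₁, lt_of_le_of_lt (Nat.add_le_add_right hfin 1) (hv v₁ hv₁).1⟩
      mem := hD.mem
      split := hD.split
      inj := hD.inj
      all := hD.all
      card := hD.card
      frob := hD.frob }
  have hT1 : ∀ v ∈ ovr F {v₀}, l ∣ nv v - 1 ∧ ¬ ∃ i : ℕ, fr v ^ l ^ i = 1 := fun v h =>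
    ⟨(hv v h).2.1, (hv v h).2.2 _ (hD.frob v (fun h' => Finset.disjoint_left.1 hdS h' h))⟩
  refine cc_chainT hl hdT hD hD1 hT1 hR fun hR1 => ?_
  have hcs := Finset.card_le_card hSS
  refine cc_chainS hl hs hd1 ((ovr F S₀).card - S.card) hD1 hSS (by omega) hR1 ?_
  intro r₁ w₁ hD₂ hR₂
  exact cc_stable hd0 hD₂ hR₂ hl hs hA

end LY2


end Pool.Agent.CR

namespace Pool.Agent.CR
open Pool.Agent.RSK Pool.Agent.RS2 Pool.Agent.RS3 Pool.Agent.SY
open NumberField IsDedekindDomain Filter Topology Complex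

section
variable {F₀ F K : Type} [Field F₀] [NumberField F₀] [Field F] [NumberField F] [Field K]
  [NumberField K] [Algebra F₀ F] [Algebra F₀ K] [Algebra F K] [IsScalarTower F₀ F K]
  [IsGalois F₀ K] [IsGalois F₀ F] [IsGalois F K]
  {G : Type} [CommGroup G] [Fintype G] {ι : G ≃* (K ≃ₐ[F] K)}
  {S₀ T₀ : Finset (HeightOneSpectrum (𝓞 F₀))} {r : ℕ} {w : Fin r → Pl K}
  {fr : HeightOneSpectrum (𝓞 F) → G}

theorem cc_big [IsCyclic G] {S T : Finset (HeightOneSpectrum (𝓞 F))}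
    (hD : Data ι S T r w fr) (hR : RCore ι S T w fr)
    {l : ℕ} (hl : l.Prime) {s : G} (hs : SylG l s)
    (hA : ∀ n : ℕ, n.Coprime (Nat.card G) → ∃ (i b : ℕ) (γ : K ≃ₐ[F₀] K),
      (∀ (g : G) (y : K), γ (ι g y) = ι (g ^ b) (γ y)) ∧
      ∀ g : G, ¬ l ∣ orderOf g → g ^ (b * l ^ i) = g ^ n) (γ : K ≃ₐ[F₀] K) {b : ℕ}
    (hγ : ∀ (g : G) (y : K), γ (ι g y) = ι (g ^ b) (γ y)) {g₀ : G}
    (hg₀ : ¬ ∃ i : ℕ, (g₀ ^ b * g₀⁻¹) ^ l ^ i = 1) :
    CCore ι S T w fr l (wts ι S l - del l G) s :=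
  @Pool.Agent.CR.cc_big_pr F₀ F K _ _ _ _ _ _ _ _ _ _ _ _ _ G _ _ ι r w fr _ S T hD hR l hl s hs hA γ b hγ g₀ hg₀

end

end Pool.Agent.CR
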