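import Pool.Agent.Lib_helper17.CRF.D_WL
import Pool.Agent.Lib_helper17.CRF.L_BA
import Pool.Agent.Lib_helper17.CRF.L_LY0
import Pool.Agent.Lib_helper17.CRF.L_LY2

/-!
# Block LY3: the layer theorem
-/

set_option autoImplicit false
set_option linter.unusedSectionVars false

namespace Pool.Agent.CR

open Pool.Agent.RSK Pool.Agent.RS2 Pool.Agent.RS3 Pool.Agent.SY Pool.Agent.AU
open NumberField IsDedekindDomain Filter Topology Complex

section LAY

variable {F K : Type} [Field F] [NumberField F] [Field K] [NumberField K] [Algebra F K]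
  [IsGalois F K] {G : Type} [CommGroup G] [Fintype G] {ι : G ≃* (K ≃ₐ[F] K)}
  {S T : Finset (HeightOneSpectrum (𝓞 F))} {r : ℕ} {w : Fin r → Pl K}
  {fr : HeightOneSpectrum (𝓞 F) → G}

/-- an `l`-element which is a power of an element of order prime to `l` is trivial -/
theorem ly3_pow {l : ℕ} (hl : l.Prime) {b : ℕ} {g : G} (hg : ¬ l ∣ orderOf g)
    (h : ∃ i : ℕ, (g ^ b * g⁻¹) ^ l ^ i = 1) : g ^ b = g := by
  obtain ⟨i, hi⟩ := h
  set x := g ^ b * g⁻¹ with hx
  have h1 : x ^ orderOf g = 1 := by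
    rw [hx, mul_pow, inv_pow, pow_orderOf_eq_one, inv_one, mul_one, ← pow_mul, mul_comm, pow_mul,
      pow_orderOf_eq_one, one_pow]
  have h2 : orderOf x ∣ orderOf g := orderOf_dvd_of_pow_eq_one h1
  have h3 : orderOf x ∣ l ^ i := orderOf_dvd_of_pow_eq_one hi
  have h4 : orderOf x = 1 := by
    have h5 : Nat.Coprime (orderOf g) (l ^ i) :=
      Nat.Coprime.pow_right i ((hl.coprime_iff_not_dvd.2 hg).symm)
    exact Nat.eq_one_of_dvd_coprimes h5 h2 h3
  have h6 : x = 1 := orderOf_eq_one_iff.1 h4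
  exact mul_inv_eq_one.1 h6

/-- LY3. The layer theorem. If all `γ` act trivially on the elements of order prime to `l` (modulo
`l`-elements), the powers of `l` suffice: `cc_of_rel` with `E = {1}`; otherwise `cc_big`. -/
theorem layer_main_pr [IsCyclic G] (hD : Data ι S T r w fr) (hR : RCore ι S T w fr) {l : ℕ}
    (hl : l.Prime) {s : G} (hs : SylG l s) (hA : AutAt l F K) :
    CCore ι S T w fr l (wts ι S l - del l G) s := by
  obtain ⟨F₀, _, _, _, _, _, _, _, hA0⟩ := base_exists hA ι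
  by_cases h : ∃ (γ : K ≃ₐ[F₀] K) (b : ℕ) (g₀ : G),
      (∀ (g : G) (y : K), γ (ι g y) = ι (g ^ b) (γ y)) ∧
        ¬ ∃ i : ℕ, (g₀ ^ b * g₀⁻¹) ^ l ^ i = 1
  · obtain ⟨γ, b, g₀, hγ, hg₀⟩ := h
    exact cc_big (F₀ := F₀) hD hR hl hs hA0 γ hγ hg₀
  · refine cc_of_rel hD hR hl hs {1} ?_ ?_
    · intro n hn
      obtain ⟨i, b, γ, hγ, hb⟩ := hA0 n hn
      refine ⟨i, 1, 1, rfl, fun g => by rw [pow_one]; rfl, fun g hg => ?_⟩
      have h1 : g ^ b = g := by
        apply ly3_pow hl hg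
        by_contra h2
        exact h ⟨γ, b, g, hγ, h2⟩
      rw [one_mul, ← hb g hg, pow_mul, h1]
    · intro c b x _ _ _ _ _ e he
      rw [Set.mem_singleton_iff] at he
      subst he
      refine ⟨1, 1, fun h1 => hl.one_lt.ne' (Nat.dvd_one.1 h1), fun χ _ => ?_⟩
      have h2 : χ.comp (1 : MulAut G).toMonoidHom = χ := MonoidHom.ext fun g => rfl
      rw [h2, map_one, Nat.cast_one]

end LAY

end Pool.Agent.CR

namespace Pool.Agent.CR
open Pool.Agent.RSK Pool.Agent.RS2 Pool.Agent.RS3 Pool.Agent.SY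
open NumberField IsDedekindDomain Filter Topology Complex

section
variable {F K : Type} [Field F] [NumberField F] [Field K] [NumberField K] [Algebra F K]
  [IsGalois F K] {G : Type} [CommGroup G] [Fintype G] {ι : G ≃* (K ≃ₐ[F] K)}
  {S T : Finset (HeightOneSpectrum (𝓞 F))} {r : ℕ} {w : Fin r → Pl K}
  {fr : HeightOneSpectrum (𝓞 F) → G}

theorem layer_main [IsCyclic G] (hD : Data ι S T r w fr) (hR : RCore ι S T w fr) {l : ℕ}
    (hl : l.Prime) {s : G} (hs : SylG l s) (hA : AutAt l F K) :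
    CCore ι S T w fr l (wts ι S l - del l G) s :=
  @Pool.Agent.CR.layer_main_pr F K _ _ _ _ _ _ G _ _ ι S T r w fr _ hD hR l hl s hs hA

end

end Pool.Agent.CR
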