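import Pool.Agent.Lib_helper17.CRF.D_WT
import Pool.Agent.Lib_helper17.CRF.B_KL
import Pool.Agent.Lib_helper17.CRF.B_ET

/-!
# Composite Rubin (CR), block UL1
-/

set_option autoImplicit false
set_option linter.unusedSectionVars false

namespace Pool.Agent.CR

open Pool.Agent.RSK Pool.Agent.RS2 Pool.Agent.RS3 Pool.Agent.RS4 Pool.Agent.SY Pool.Agent.AU
  Pool.Agent.RT
open NumberField IsDedekindDomain Filter Topology Complex
open scoped TensorProduct

section UL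

/-- the norm element of a subgroup of prime order at an injective character -/
theorem ul1_nP {G : Type} [CommGroup G] [Fintype G] {P : Subgroup G} (hP : (Nat.card P).Prime)
    {χ : G →* ℂˣ} (hχ : Function.Injective χ) : evZ χ (nP P) = 0 := by
  classical
  have h0 : evZ χ (nP P) = ∑ h : P, ((χ (h : G) : ℂˣ) : ℂ) := by
    rw [nP, finsum_eq_sum_of_fintype, map_sum]
    refine Finset.sum_congr rfl fun h _ => ?_
    show evQ χ (toQ G (MonoidAlgebra.single (h : G) 1)) = _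
    have : toQ G (MonoidAlgebra.single (h : G) (1 : ℤ)) = MonoidAlgebra.single (h : G) (1 : ℚ) := by
      simp [toQ]
    rw [this, px2_evQ_single]
    simp
  have hnt : Nontrivial P := Finite.one_lt_card_iff_nontrivial.1 hP.one_lt
  obtain ⟨⟨g, hg⟩, hne⟩ := exists_ne (1 : P)
  have hne' : χ g ≠ 1 := fun h => hne (Subtype.ext (hχ (by rw [h, OneMemClass.coe_one, map_one])))
  rw [h0]
  have h1 : (((χ g : ℂˣ) : ℂ)) * ∑ h : P, ((χ (h : G) : ℂˣ) : ℂ) =
      ∑ h : P, ((χ (h : G) : ℂˣ) : ℂ) := by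
    rw [Finset.mul_sum]
    refine Fintype.sum_equiv (Equiv.mulLeft (⟨g, hg⟩ : P)) _ _ fun h => ?_
    simp
  have h2 : (((χ g : ℂˣ) : ℂ) - 1) * ∑ h : P, ((χ (h : G) : ℂˣ) : ℂ) = 0 := by
    rw [sub_mul, h1, one_mul, sub_self]
  rcases mul_eq_zero.1 h2 with h | h
  · exact absurd (Units.ext (by simpa using sub_eq_zero.1 h)) hne'
  · exact h

variable {F K H : Type} [Field F] [NumberField F] [Field K] [NumberField K] [Field H]
  [NumberField H] [Algebra F K] [Algebra F H] [Algebra K H]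
  [IsScalarTower F K H] [IsGalois F H] [IsGalois F K] [IsGalois K H]
  {G G' : Type} [CommGroup G] [Fintype G] [CommGroup G'] [Fintype G'] {ι : G ≃* (H ≃ₐ[F] H)}
  {ι' : G' ≃* (K ≃ₐ[F] K)} {π : G →* G'}
  {S T : Finset (HeightOneSpectrum (𝓞 F))} {r : ℕ} {w : Fin r → Pl H}
  {fr' : HeightOneSpectrum (𝓞 F) → G'}

theorem tf_relI_pr [IsCyclic G'] (hq : Quo ι ι' π) (b : Fin r → UM ι' S T)
    (hb : ∀ i, b i ∈ mI (smA G' (UM ι' S T)))
    (hfin : (mSpn G' b).relIndex (mI (smA G' (UM ι' S T))) ≠ 0) (m : UM ι S T) :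
    ∃ (β : MonoidAlgebra ℤ G) (α : Fin r → MonoidAlgebra ℤ G),
      (∀ χ' : G' →* ℂˣ, Function.Injective χ' → evZ (χ'.comp π) β ≠ 0) ∧
        β • m = ∑ k, α k • tr2U ι ι' S T (b k) := by
  obtain ⟨u, hu⟩ := tf_inv hq (tr2N π ℤ • m) (fun n hn => tf_N_inv m n hn)
  obtain ⟨η, hη⟩ := eta_exists (G := G')
  set D := (mSpn G' b).relIndex (mI (smA G' (UM ι' S T))) with hD
  have h1 : η • u ∈ mI (smA G' (UM ι' S T)) := by
    intro P hP
    rw [nA_smA, ← mul_smul]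
    have h0 : nP P * η = 0 := by
      apply al_toQ_inj
      apply evQ_inj
      intro χ
      rw [al_evZ, al_evZ, map_mul, map_zero]
      by_cases hχ : Function.Injective χ
      · rw [ul1_nP hP hχ, zero_mul]
      · rw [hη.off χ hχ, mul_zero]
    rw [h0, zero_smul]
  have h2 : (D : ℤ) • (η • u) ∈ mSpn G' b := by
    have h3 := AddSubgroup.nsmul_relIndex_mem (H := mSpn G' b)
      (K := mI (smA G' (UM ι' S T))) h1
    rw [natCast_zsmul]
    exact h3
  have h3 : (D : ℤ) • (η • u) ∈ Submodule.span (MonoidAlgebra ℤ G') (Set.range b) := h2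
  rw [Submodule.mem_span_range_iff_exists_fun] at h3
  obtain ⟨α', hα'⟩ := h3
  choose α hα using fun k => tf_lift hq.surj (α' k)
  obtain ⟨β₀, hβ₀⟩ := tf_lift hq.surj ((D : ℤ) • η)
  refine ⟨β₀ * tr2N π ℤ, α, ?_, ?_⟩
  · intro χ' hχ'
    rw [map_mul, tf_ev_N, tf_evZ, hβ₀, map_zsmul]
    have h4 : (D : ℂ) ≠ 0 := Nat.cast_ne_zero.2 hfin
    have h6 : (Nat.card π.ker : ℂ) ≠ 0 := Nat.cast_ne_zero.2 Nat.card_pos.ne'
    simp only [zsmul_eq_mul, Int.cast_natCast]
    exact mul_ne_zero (mul_ne_zero h4 (hη.on χ' hχ')) h6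
  · rw [mul_smul, ← hu, tf_smul hq, hβ₀, smul_assoc, ← hα', map_sum]
    refine Finset.sum_congr rfl fun k _ => ?_
    rw [tf_smul hq, hα]

end UL

end Pool.Agent.CR

namespace Pool.Agent.CR
open Pool.Agent.RSK Pool.Agent.RS2 Pool.Agent.RS3 Pool.Agent.RS4 Pool.Agent.SY Pool.Agent.AU
  Pool.Agent.RT
open NumberField IsDedekindDomain Filter Topology Complex
open scoped TensorProduct

section
variable {F K H : Type} [Field F] [NumberField F] [Field K] [NumberField K] [Field H]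
  [NumberField H] [Algebra F K] [Algebra F H] [Algebra K H]
  [IsScalarTower F K H] [IsGalois F H] [IsGalois F K] [IsGalois K H]
  {G G' : Type} [CommGroup G] [Fintype G] [CommGroup G'] [Fintype G'] {ι : G ≃* (H ≃ₐ[F] H)}
  {ι' : G' ≃* (K ≃ₐ[F] K)} {π : G →* G'}
  {S T : Finset (HeightOneSpectrum (𝓞 F))} {r : ℕ} {w : Fin r → Pl H}
  {fr' : HeightOneSpectrum (𝓞 F) → G'}

theorem tf_relI [IsCyclic G'] (hq : Quo ι ι' π) (b : Fin r → UM ι' S T)
    (hb : ∀ i, b i ∈ mI (smA G' (UM ι' S T)))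
    (hfin : (mSpn G' b).relIndex (mI (smA G' (UM ι' S T))) ≠ 0) (m : UM ι S T) :
    ∃ (β : MonoidAlgebra ℤ G) (α : Fin r → MonoidAlgebra ℤ G),
      (∀ χ' : G' →* ℂˣ, Function.Injective χ' → evZ (χ'.comp π) β ≠ 0) ∧
        β • m = ∑ k, α k • tr2U ι ι' S T (b k) :=
  @Pool.Agent.CR.tf_relI_pr F K H _ _ _ _ _ _ _ _ _ _ _ _ _ G G' _ _ _ _ ι ι' π S T r _ hq b hb hfin m

end

end Pool.Agent.CR
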