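import Pool.Agent.Lib_helper17.CRF.D_WT
import Pool.Agent.Lib_helper17.CRF.B_PI
import Pool.Agent.Lib_helper17.CRF.N_GU3
import Pool.Agent.Lib_helper17.CRF.N_LD4
import Pool.Agent.Lib_helper17.CRF.B_PL
import Pool.Agent.Lib_helper17.CRF.L_UQ
import Pool.Agent.Lib_helper17.CRF.L_LY3
import Pool.Agent.Lib_helper17.CRF.B_OP
import Pool.Agent.Lib_helper17.CRF.T_UL1
import Pool.Agent.Lib_helper29.SY.P_GC
import Pool.Agent.Lib_helper29.SY.P_GA

/-!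
# Composite Rubin (CR), block UL2: the components of a Stark element
-/

set_option autoImplicit false
set_option linter.unusedSectionVars false

namespace Pool.Agent.CR

open Pool.Agent.RSK Pool.Agent.RS2 Pool.Agent.RS3 Pool.Agent.RS4 Pool.Agent.SY Pool.Agent.AU
  Pool.Agent.RT
open NumberField IsDedekindDomain Filter Topology Complex
open scoped TensorProduct

section UL

variable {F K H : Type} [Field F] [NumberField F] [Field K] [NumberField K] [Field H]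
  [NumberField H] [Algebra F K] [Algebra F H] [Algebra K H]
  [IsScalarTower F K H] [IsGalois F H] [IsGalois F K] [IsGalois K H]
  {G G' : Type} [CommGroup G] [Fintype G] [CommGroup G'] [Fintype G'] {ι : G ≃* (H ≃ₐ[F] H)}
  {ι' : G' ≃* (K ≃ₐ[F] K)} {π : G →* G'}
  {S T : Finset (HeightOneSpectrum (𝓞 F))} {r : ℕ} {w : Fin r → Pl H}
  {fr' : HeightOneSpectrum (𝓞 F) → G'}

theorem ul2_ldiv_zero {G : Type} [CommGroup G] {l : ℕ} (hl : l.Prime) (M : ℕ) (s : G) :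
    LDiv l M s (0 : MonoidAlgebra ℚ G) := by
  refine ⟨1, 0, ?_, fun χ _ => ?_⟩
  · intro h
    exact hl.one_lt.ne' (Nat.dvd_one.1 h)
  · rw [map_zero, map_zero, mul_zero, mul_zero]

/-- the leading coefficients do not vanish -/
theorem ul2_ne [IsCyclic G'] {w' : Fin r → Pl K} (hD : Data ι' S T r w' fr')
    {c : (G' →* ℂˣ) → ℂ} (hc : LeadI S T r fr' c) :
    ∀ χ : G' →* ℂˣ, Function.Injective χ → c χ ≠ 0 := by
  obtain ⟨L, hL⟩ := prl_exists G' 0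
  exact pI_ne_zero.1 (lead_alt hD hc hL).2

theorem u_layer_pr [IsCyclic G'] (hq : Quo ι ι' π)
    (hw : ∀ i, ∀ σ : H ≃ₐ[F] H, act σ (w i) = w i → σ = 1)
    (hD : Data ι' S T r (fun i => dn K (w i)) fr') {c : (G →* ℂˣ) → ℂ}
    (hc : LeadI S T r fr' (fun χ' => c (χ'.comp π)))
    (u : (⋀[MonoidAlgebra ℤ G]^r (UM ι S T)) ⊗[ℤ] ℚ)
    (hu : ∀ χ : G →* ℂˣ, evR χ (extQ (detMap (fun i => wl ι S T (w i))).toAddMonoidHom u) = c χ⁻¹)
    {l : ℕ} (hl : l.Prime) (hA : AutAt l F K) {s : G'} (hs : SylG l s)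
    (ψ : Fin r → (UM ι S T →ₗ[MonoidAlgebra ℤ G] MonoidAlgebra ℤ G)) :
    ∃ z : MonoidAlgebra ℚ G', LDiv l (wts ι' S l - del l G') s z ∧
      ∀ χ' : G' →* ℂˣ, Function.Injective χ' →
        evQ (χ'.comp π) (psiQ ψ u) = evQ χ' z := by
  have hfinM : Module.Finite ℤ (UM ι' S T) := Pool.Agent.RSK.um_finite hD
  have htfM : Module.IsTorsionFree ℤ (UM ι' S T) := Pool.Agent.RSK.um_tf hD
  obtain ⟨b, hb, hlb⟩ := opt_all (rank_U hD).2 hl
  have hfin : (mSpn G' b).relIndex (mI (smA G' (UM ι' S T))) ≠ 0 := by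
    intro h
    exact hlb (h ▸ dvd_zero l)
  obtain ⟨ψ', hψ'⟩ := tf_pmat hq ψ b
  have hz : ∀ χ' : G' →* ℂˣ, Function.Injective χ' → ∃ z : ℂ,
      evQ (χ'.comp π) (psiQ ψ u) = z * evZ χ' (pmat ψ' b).det ∧
      c (χ'.comp π)⁻¹ = z * evR χ' (wmat ι' S T (fun i => dn K (w i)) b).det := by
    intro χ' hχ'
    obtain ⟨z, h1, h2⟩ := ln_main w (χ'.comp π) (fun k => tr2U ι ι' S T (b k))
      (fun m => by
        obtain ⟨β, α, h3, h4⟩ := tf_relI hq b hb hfin m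
        exact ⟨β, α, h3 χ' hχ', h4⟩) u
    refine ⟨z * (Nat.card π.ker : ℂ) ^ r, ?_, ?_⟩
    · rw [h1 ψ, hψ' χ', mul_assoc]
    · rw [← hu, h2, tf_wmat hq hw b χ', mul_assoc]
  by_cases h0 : ∃ χ₀ : G' →* ℂˣ, Function.Injective χ₀ ∧ evZ χ₀ (pmat ψ' b).det = 0
  · obtain ⟨χ₀, hχ₀, h0⟩ := h0
    refine ⟨0, ul2_ldiv_zero hl _ _, fun χ' hχ' => ?_⟩
    obtain ⟨z, h1, -⟩ := hz χ' hχ'
    have h2 : evZ χ' (pmat ψ' b).det = 0 := by
      by_contra h3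
      exact inj_conj (toQ G' (pmat ψ' b).det) hχ' hχ₀ h3 h0
    rw [h1, h2, mul_zero, map_zero]
  · push Not at h0
    obtain ⟨x, hx0, hx⟩ := inj_div
      (MonoidAlgebra.mapDomainRingHom ℚ π (psiQ ψ u)) (toQ G' (pmat ψ' b).det) h0
    have hxe : ∀ χ' : G' →* ℂˣ, Function.Injective χ' → evQ χ' x * evZ χ' (pmat ψ' b).det =
        evQ (χ'.comp π) (psiQ ψ u) := by
      intro χ' hχ'
      rw [tf_evQ, ← hx χ' hχ', al_evZ]
    have hco : CoreF ι' S T (fun i => dn K (w i)) (fun χ' => c (χ'.comp π)) b x := by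
      refine ⟨hx0, ?_⟩
      intro χ' hχ'
      obtain ⟨z, h1, h2⟩ := hz χ' hχ'
      have h3 : evQ χ' x = z := by
        have h4 := hxe χ' hχ'
        rw [h1] at h4
        exact mul_right_cancel₀ (h0 χ' hχ') h4
      rw [h3, ← h2]
      rfl
    have hc0 := ul2_ne hD hc
    have hR : RCore ι' S T (fun i => dn K (w i)) fr' := ⟨_, hc, hc0, b, x, hco⟩
    obtain ⟨c₁, hc₁, hc₁0, b₁, x₁, hco₁, hdiv⟩ := layer_main hD hR hl hs hA
    refine ⟨x * toQ G' (pmat ψ' b).det, ?_, fun χ' hχ' => ?_⟩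
    · rw [core_uniqI hD (leadI_uniq hc hc₁) hc0 hco hco₁ ψ']
      exact hdiv ψ'
    · rw [map_mul, al_evZ, hxe χ' hχ']

end UL

end Pool.Agent.CR

namespace Pool.Agent.CR
open Pool.Agent.RSK Pool.Agent.RS2 Pool.Agent.RS3 Pool.Agent.RS4 Pool.Agent.SY Pool.Agent.AU
  Pool.Agent.RT
open NumberField IsDedekindDomain Filter Topology Complex
open scoped TensorProduct

section
variable {F K H : Type} [Field F] [NumberField F] [Field K] [NumberField K] [Field H]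
  [NumberField H] [Algebra F K] [Algebra F H] [Algebra K H]
  [IsScalarTower F K H] [IsGalois F H] [IsGalois F K] [IsGalois K H]
  {G G' : Type} [CommGroup G] [Fintype G] [CommGroup G'] [Fintype G'] {ι : G ≃* (H ≃ₐ[F] H)}
  {ι' : G' ≃* (K ≃ₐ[F] K)} {π : G →* G'}
  {S T : Finset (HeightOneSpectrum (𝓞 F))} {r : ℕ} {w : Fin r → Pl H}
  {fr' : HeightOneSpectrum (𝓞 F) → G'}

theorem u_layer [IsCyclic G'] (hq : Quo ι ι' π)
    (hw : ∀ i, ∀ σ : H ≃ₐ[F] H, act σ (w i) = w i → σ = 1)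
    (hD : Data ι' S T r (fun i => dn K (w i)) fr') {c : (G →* ℂˣ) → ℂ}
    (hc : LeadI S T r fr' (fun χ' => c (χ'.comp π)))
    (u : (⋀[MonoidAlgebra ℤ G]^r (UM ι S T)) ⊗[ℤ] ℚ)
    (hu : ∀ χ : G →* ℂˣ, evR χ (extQ (detMap (fun i => wl ι S T (w i))).toAddMonoidHom u) = c χ⁻¹)
    {l : ℕ} (hl : l.Prime) (hA : AutAt l F K) {s : G'} (hs : SylG l s)
    (ψ : Fin r → (UM ι S T →ₗ[MonoidAlgebra ℤ G] MonoidAlgebra ℤ G)) :
    ∃ z : MonoidAlgebra ℚ G', LDiv l (wts ι' S l - del l G') s z ∧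
      ∀ χ' : G' →* ℂˣ, Function.Injective χ' →
        evQ (χ'.comp π) (psiQ ψ u) = evQ χ' z :=
  @Pool.Agent.CR.u_layer_pr F K H _ _ _ _ _ _ _ _ _ _ _ _ _ G G' _ _ _ _ ι ι' π S T r w fr' _ hq hw hD c hc u hu l hl hA s hs ψ

end

end Pool.Agent.CR
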