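import Pool.Agent.Lib_helper17.CRF.D_WT
import Pool.Agent.Lib_helper3.AU.FN
import Pool.Agent.Lib_helper17.CRF.B_LI
import Pool.Agent.Lib_helper17.CRF.B_AV
import Pool.Agent.Lib_helper17.CRF.T_UL2
import Pool.Agent.Lib_helper17.CRF.N_NO4
import Pool.Agent.Lib_helper17.CRF.T_UL3

set_option autoImplicit false
set_option linter.unusedSectionVars false

namespace Pool.Agent.CR

open Pool.Agent.RSK Pool.Agent.RS2 Pool.Agent.RS3 Pool.Agent.RS4 Pool.Agent.SY Pool.Agent.AU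
  Pool.Agent.RT
open NumberField IsDedekindDomain Filter Topology Complex
open scoped TensorProduct

section TP

variable {F H : Type} [Field F] [NumberField F] [Field H] [NumberField H] [Algebra F H]
  [IsGalois F H] {G : Type} [CommGroup G] [Fintype G] {ι : G ≃* (H ≃ₐ[F] H)}
  {S T : Finset (HeightOneSpectrum (𝓞 F))} {r : ℕ} {w : Fin r → Pl H}
  {fr : HeightOneSpectrum (𝓞 F) → G}

/-- LO. Local integrality. -/
theorem loc_main_pr (hD : Data ι S T r w fr) {c : (G →* ℂˣ) → ℂ} (hc : Lead S T r fr c)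
    {u : (⋀[MonoidAlgebra ℤ G]^r (UM ι S T)) ⊗[ℤ] ℚ} (hu : IsStark ι S T w c u) {q κ : ℕ}
    (hq : q.Prime) (hA : ∀ N : Subgroup G, IsCyclic (G ⧸ N) → AutAt q F (Kf ι N))
    (hS : (∀ k : ℕ, q ^ k ∣ Nat.card G → k ≤ κ) ∨ CondQ q κ ι S w)
    (ψ : Fin r → (UM ι S T →ₗ[MonoidAlgebra ℤ G] MonoidAlgebra ℤ G)) :
    ∃ (m : ℕ) (a : MonoidAlgebra ℤ G), ¬ q ∣ m ∧ MonoidAlgebra.single 1 (m : ℚ) *
      (MonoidAlgebra.single 1 ((q : ℚ) ^ κ) * psiQ ψ u) = toQ G a := by
  classical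
  have hev : ∀ χ : G →* ℂˣ, evQ χ (MonoidAlgebra.single 1 ((q : ℚ) ^ κ) * psiQ ψ u) =
      (q : ℂ) ^ κ * evQ χ (psiQ ψ u) := by
    intro χ
    rw [map_mul, px2_evQ_single, map_one]
    push_cast
    ring
  refine gl_main hq _ ?_ ?_
  · obtain ⟨⟨t, ht⟩, h0⟩ := fn_one hD hc hu ψ
    rcases hS with hS | ⟨hS, -⟩
    · have hG0 : Nat.card G ≠ 0 := Nat.card_pos.ne'
      obtain ⟨l, hl⟩ : ∃ l, κ = (Nat.card G).factorization q + l :=
        ⟨κ - (Nat.card G).factorization q, by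
          have := hS _ (Nat.ordProj_dvd (Nat.card G) q)
          omega⟩
      refine ⟨ordCompl[q] (Nat.card G), (q : ℤ) ^ l * (Pool.Agent.RSK.hA S T : ℤ) * t,
        Nat.not_dvd_ordCompl hq hG0, ?_⟩
      have h1 : ((q : ℂ) ^ (Nat.card G).factorization q) *
          ((ordCompl[q] (Nat.card G) : ℕ) : ℂ) = (Nat.card G : ℂ) := by
        have := Nat.ordProj_mul_ordCompl_eq_self (Nat.card G) q
        exact_mod_cast this
      rw [hev, ht, hl, pow_add, ← h1]
      push_cast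
      ring
    · refine ⟨1, 0, hq.one_lt.ne' ∘ Nat.dvd_one.1, ?_⟩
      rw [hev, h0 hS, Int.cast_zero, mul_zero, mul_zero, mul_zero]
  · intro N hcyc hN
    let _ : Fintype (G ⧸ N) := Fintype.ofFinite _
    by_cases hX : NoX ι S w N
    · have := kf_galois ι N
      obtain ⟨ι', hQ⟩ := kf_quo ι N
      have hK : Data ι' S T r (fun i => dn (Kf ι N) (w i))
          (fun v => QuotientGroup.mk' N (fr v)) := by
        refine cn_data hQ hD ?_
        intro W hW hWg
        refine hX W hW fun g hg => ?_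
        have h1 := hWg g hg
        rw [← MonoidHom.mem_ker, QuotientGroup.ker_mk'] at h1
        exact h1
      have hcI : LeadI S T r (fun v => QuotientGroup.mk' N (fr v))
          (fun χ' => c (χ'.comp (QuotientGroup.mk' N))) := by
        intro χ' _
        exact hc (χ'.comp (QuotientGroup.mk' N))
      obtain ⟨s, hs⟩ := syl_exists (G ⧸ N) q
      obtain ⟨z, hz, hzu⟩ := u_layer hQ hD.split hK hcI u hu.value hq (hA N hcyc) hs ψ
      have hres : ∃ (n : ℕ) (a : MonoidAlgebra ℤ G), ¬ q ∣ n ∧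
          (∀ χ : G →* ℂˣ, χ.ker = (QuotientGroup.mk' N).ker →
            (n : ℂ) * ((q : ℂ) ^ κ * evQ χ (psiQ ψ u)) = evZ χ a) ∧
          ∀ χ : G →* ℂˣ, χ.ker ≠ (QuotientGroup.mk' N).ker → evZ χ a = 0 := by
        rcases hS with hS | ⟨-, hS⟩
        · exact lift_full hq (QuotientGroup.mk'_surjective N) (psiQ ψ u) z hzu hs hz hS
        · obtain ⟨h0, h1⟩ := hS N _ _ hcyc hN hX rfl rfl
          refine lift_main hq (QuotientGroup.mk'_surjective N) (psiQ ψ u) z hzu hs hz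
            (i := (Nat.card N).factorization q) (j := N.index.factorization q) ?_ ?_ h0 ?_
          · rw [QuotientGroup.ker_mk']
          · rw [Subgroup.index_eq_card]
          · intro hj
            have h2 := h1 hj
            obtain ⟨h3, h4⟩ := wts_N (ι := ι) (S := S) hq N hQ
            have h5 := (wts_ge hK hq).1
            rw [← h4, ← h3] at h2
            omega
      obtain ⟨n, a, hn, ha, ha0⟩ := hres
      rw [QuotientGroup.ker_mk'] at ha ha0
      exact ⟨n, a, hn, fun χ hχ => by rw [hev]; exact ha χ hχ, ha0⟩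
    · refine ⟨1, 0, hq.one_lt.ne' ∘ Nat.dvd_one.1, fun χ hχ => ?_, fun χ _ => map_zero _⟩
      rw [hev, cn_zero hu hN hX hχ ψ, mul_zero, mul_zero, map_zero]

end TP

end Pool.Agent.CR

namespace Pool.Agent.CR
open Pool.Agent.RSK Pool.Agent.RS2 Pool.Agent.RS3 Pool.Agent.RS4 Pool.Agent.SY Pool.Agent.AU
  Pool.Agent.RT
open NumberField IsDedekindDomain Filter Topology Complex
open scoped TensorProduct

section
variable {F H : Type} [Field F] [NumberField F] [Field H] [NumberField H] [Algebra F H]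
  [IsGalois F H] {G : Type} [CommGroup G] [Fintype G] {ι : G ≃* (H ≃ₐ[F] H)}
  {S T : Finset (HeightOneSpectrum (𝓞 F))} {r : ℕ} {w : Fin r → Pl H}
  {fr : HeightOneSpectrum (𝓞 F) → G}

theorem loc_main (hD : Data ι S T r w fr) {c : (G →* ℂˣ) → ℂ} (hc : Lead S T r fr c)
    {u : (⋀[MonoidAlgebra ℤ G]^r (UM ι S T)) ⊗[ℤ] ℚ} (hu : IsStark ι S T w c u) {q κ : ℕ}
    (hq : q.Prime) (hA : ∀ N : Subgroup G, IsCyclic (G ⧸ N) → AutAt q F (Kf ι N))
    (hS : (∀ k : ℕ, q ^ k ∣ Nat.card G → k ≤ κ) ∨ CondQ q κ ι S w)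
    (ψ : Fin r → (UM ι S T →ₗ[MonoidAlgebra ℤ G] MonoidAlgebra ℤ G)) :
    ∃ (m : ℕ) (a : MonoidAlgebra ℤ G), ¬ q ∣ m ∧ MonoidAlgebra.single 1 (m : ℚ) *
      (MonoidAlgebra.single 1 ((q : ℚ) ^ κ) * psiQ ψ u) = toQ G a :=
  @Pool.Agent.CR.loc_main_pr F H _ _ _ _ _ _ G _ _ ι S T r w fr hD c hc u hu q κ hq hA hS ψ

end

end Pool.Agent.CR
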