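import Pool.Agent.Lib_helper17.CRF.D_WE
import Pool.Agent.Lib_helper17.CRF.E_EA
import Pool.Agent.Lib_helper17.CRF.E_EC
import Pool.Agent.Lib_helper17.CRF.E_EF
import Pool.Agent.Lib_helper17.CRF.E_EB
import Pool.Agent.Lib_helper17.CRF.T_LO

/-!
# Composite Rubin (CR), block EG: products of `t` elements `g - 1`
-/

set_option autoImplicit false
set_option linter.unusedSectionVars false

namespace Pool.Agent.CR

open Pool.Agent.RSK Pool.Agent.RS2 Pool.Agent.RS3 Pool.Agent.RS4 Pool.Agent.SY Pool.Agent.AU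
  Pool.Agent.RT
open NumberField IsDedekindDomain Filter Topology Complex
open scoped TensorProduct

section E

variable {F H : Type} [Field F] [NumberField F] [Field H] [NumberField H] [Algebra F H]
  [IsGalois F H] {G : Type} [CommGroup G] [Fintype G] {ι : G ≃* (H ≃ₐ[F] H)}
  {S T : Finset (HeightOneSpectrum (𝓞 F))} {r : ℕ} {w : Fin r → Pl H}
  {fr : HeightOneSpectrum (𝓞 F) → G}

theorem eg_cond {q κ : ℕ} (h : CondT q κ 0 ι S w) : CondQ q κ ι S w := by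
  refine ⟨h.1, fun N i j hc hN hX hi hj => ?_⟩
  obtain ⟨h1, h2⟩ := h.2 N i j hc hN hX hi hj
  exact ⟨fun h0 => h1 h0 rfl, fun h0 => h2 h0⟩

theorem stark_prod_pr (hD : Data ι S T r w fr) {c : (G →* ℂˣ) → ℂ} (hc : Lead S T r fr c)
    {u : (⋀[MonoidAlgebra ℤ G]^r (UM ι S T)) ⊗[ℤ] ℚ} (hu : IsStark ι S T w c u) {q κ t : ℕ}
    (hq : q.Prime) (hA : ∀ N : Subgroup G, IsCyclic (G ⧸ N) → AutAt q F (Kf ι N))
    (hS : CondT q κ t ι S w) (g : Fin t → G) (hg : ∀ i, ∃ k : ℕ, g i ^ q ^ k = 1)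
    (ψ : Fin r → (UM ι S T →ₗ[MonoidAlgebra ℤ G] MonoidAlgebra ℤ G)) :
    ∃ (m : ℕ) (a : MonoidAlgebra ℤ G), ¬ q ∣ m ∧ MonoidAlgebra.single 1 (m : ℚ) *
      (MonoidAlgebra.single 1 ((q : ℚ) ^ κ) *
        (toQ G (∏ i, (MonoidAlgebra.single (g i) 1 - 1)) * psiQ ψ u)) = toQ G a := by
  induction t generalizing S c with
  | zero =>
    obtain ⟨m, a, hm, ha⟩ := loc_main hD hc hu hq hA (.inr (eg_cond hS)) ψ
    refine ⟨m, a, hm, ?_⟩
    rw [Fin.prod_univ_zero, map_one, one_mul]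
    exact ha
  | succ t ih =>
    by_cases h0 : g 0 = 1
    · refine ⟨1, 0, fun h => hq.one_lt.ne' (Nat.dvd_one.1 h), ?_⟩
      have e : ∏ i, (MonoidAlgebra.single (g i) (1 : ℤ) - 1 : MonoidAlgebra ℤ G) = 0 := by
        refine Finset.prod_eq_zero (Finset.mem_univ 0) ?_
        rw [h0, ← MonoidAlgebra.one_def, sub_self]
      rw [e, map_zero, zero_mul, mul_zero, mul_zero]
    · obtain ⟨v, -, hv, hvT, hfr⟩ := ab_cheb hD (g 0)⁻¹ ∅
      have hfr1 : fr v ≠ 1 := by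
        rw [hfr]
        exact inv_ne_one.2 h0
      have hfrq : ∃ k : ℕ, fr v ^ q ^ k = 1 := by
        obtain ⟨k, hk⟩ := hg 0
        exact ⟨k, by rw [hfr, inv_pow, hk, inv_one]⟩
      obtain ⟨hc', hu'⟩ := stark_add hD hv hc hu
      obtain ⟨ψ', hψ'⟩ := psi_add hD hv hvT
        (1 - MonoidAlgebra.single (fr v)⁻¹ (1 : ℤ) : MonoidAlgebra ℤ G) u ψ
      obtain ⟨m, a, hm, ha⟩ := ih (data_non hD hv hvT hfr1) hc' hu' (condT_step hD hq hS hv hfrq)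
        (fun i => g i.succ) (fun i => hg i.succ) ψ'
      refine ⟨m, -a, hm, ?_⟩
      rw [hψ', hfr, inv_inv] at ha
      rw [map_neg, ← ha, Fin.prod_univ_succ, map_mul, map_sub, map_sub]
      ring

end E

end Pool.Agent.CR

namespace Pool.Agent.CR
open Pool.Agent.RSK Pool.Agent.RS2 Pool.Agent.RS3 Pool.Agent.RS4 Pool.Agent.SY Pool.Agent.AU
  Pool.Agent.RT
open NumberField IsDedekindDomain Filter Topology Complex
open scoped TensorProduct

section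
variable {F H : Type} [Field F] [NumberField F] [Field H] [NumberField H] [Algebra F H]
  [IsGalois F H] {G : Type} [CommGroup G] [Fintype G] {ι : G ≃* (H ≃ₐ[F] H)}
  {S T : Finset (HeightOneSpectrum (𝓞 F))} {r : ℕ} {w : Fin r → Pl H}
  {fr : HeightOneSpectrum (𝓞 F) → G}

theorem stark_prod (hD : Data ι S T r w fr) {c : (G →* ℂˣ) → ℂ} (hc : Lead S T r fr c)
    {u : (⋀[MonoidAlgebra ℤ G]^r (UM ι S T)) ⊗[ℤ] ℚ} (hu : IsStark ι S T w c u) {q κ t : ℕ}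
    (hq : q.Prime) (hA : ∀ N : Subgroup G, IsCyclic (G ⧸ N) → AutAt q F (Kf ι N))
    (hS : CondT q κ t ι S w) (g : Fin t → G) (hg : ∀ i, ∃ k : ℕ, g i ^ q ^ k = 1)
    (ψ : Fin r → (UM ι S T →ₗ[MonoidAlgebra ℤ G] MonoidAlgebra ℤ G)) :
    ∃ (m : ℕ) (a : MonoidAlgebra ℤ G), ¬ q ∣ m ∧ MonoidAlgebra.single 1 (m : ℚ) *
      (MonoidAlgebra.single 1 ((q : ℚ) ^ κ) *
        (toQ G (∏ i, (MonoidAlgebra.single (g i) 1 - 1)) * psiQ ψ u)) = toQ G a :=
  @Pool.Agent.CR.stark_prod_pr F H _ _ _ _ _ _ G _ _ ι S T r w fr hD c hc u hu q κ t hq hA hS g hg ψ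

end

end Pool.Agent.CR
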