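import Pool.Agent.Lib_helper17.CRF.D_WE
import Pool.Agent.Lib_helper17.CRF.E_EG
import Pool.Agent.Lib_helper17.CRF.E_ED
import Pool.Agent.Lib_helper17.CRF.T_LO

/-!
# Composite Rubin (CR): block EH, powers of the augmentation ideal
-/

set_option autoImplicit false
set_option linter.unusedSectionVars false

namespace Pool.Agent.CR

open Pool.Agent.RSK Pool.Agent.RS2 Pool.Agent.RS3 Pool.Agent.RS4 Pool.Agent.SY Pool.Agent.AU
  Pool.Agent.RT
open NumberField IsDedekindDomain Filter Topology Complex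
open scoped TensorProduct

theorem eh_toQ_single {G : Type} [CommGroup G] (g : G) (n : ℤ) :
    toQ G (MonoidAlgebra.single g n) = MonoidAlgebra.single g (n : ℚ) := by
  simp [toQ]

/-- The elements `b` for which `m x b` is integral for some `m` prime to `q` form an ideal. -/
theorem eh_span {G : Type} [CommGroup G] {q : ℕ} (hq : q.Prime) (x : MonoidAlgebra ℚ G)
    {s : Set (MonoidAlgebra ℤ G)}
    (hs : ∀ b ∈ s, ∃ (m : ℕ) (a : MonoidAlgebra ℤ G), ¬ q ∣ m ∧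
      MonoidAlgebra.single 1 (m : ℚ) * (toQ G b * x) = toQ G a)
    {b : MonoidAlgebra ℤ G} (hb : b ∈ Ideal.span s) :
    ∃ (m : ℕ) (a : MonoidAlgebra ℤ G), ¬ q ∣ m ∧
      MonoidAlgebra.single 1 (m : ℚ) * (toQ G b * x) = toQ G a := by
  induction hb using Submodule.span_induction with
  | mem b hb => exact hs b hb
  | zero => exact ⟨1, 0, hq.one_lt.ne' ∘ Nat.dvd_one.mp, by rw [map_zero, zero_mul, mul_zero]⟩
  | add b₁ b₂ _ _ h₁ h₂ =>
    obtain ⟨m₁, a₁, hm₁, e₁⟩ := h₁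
    obtain ⟨m₂, a₂, hm₂, e₂⟩ := h₂
    refine ⟨m₁ * m₂, MonoidAlgebra.single 1 (m₂ : ℤ) * a₁ + MonoidAlgebra.single 1 (m₁ : ℤ) * a₂,
      fun h => (hq.dvd_mul.mp h).elim hm₁ hm₂, ?_⟩
    have e : MonoidAlgebra.single (1 : G) ((m₁ * m₂ : ℕ) : ℚ) =
        MonoidAlgebra.single 1 (m₁ : ℚ) * MonoidAlgebra.single 1 (m₂ : ℚ) := by
      rw [MonoidAlgebra.single_mul_single, one_mul, Nat.cast_mul]
    rw [map_add, map_add, map_mul, map_mul, eh_toQ_single, eh_toQ_single, ← e₁, ← e₂, e,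
      Int.cast_natCast, Int.cast_natCast]
    ring
  | smul c b _ h =>
    obtain ⟨m, a, hm, e⟩ := h
    refine ⟨m, c * a, hm, ?_⟩
    rw [smul_eq_mul, map_mul, map_mul, ← e]
    ring

section E

variable {F H : Type} [Field F] [NumberField F] [Field H] [NumberField H] [Algebra F H]
  [IsGalois F H] {G : Type} [CommGroup G] [Fintype G] {ι : G ≃* (H ≃ₐ[F] H)}
  {S T : Finset (HeightOneSpectrum (𝓞 F))} {r : ℕ} {w : Fin r → Pl H}
  {fr : HeightOneSpectrum (𝓞 F) → G}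

theorem stark_aug_pr (hD : Data ι S T r w fr) {c : (G →* ℂˣ) → ℂ} (hc : Lead S T r fr c)
    {u : (⋀[MonoidAlgebra ℤ G]^r (UM ι S T)) ⊗[ℤ] ℚ} (hu : IsStark ι S T w c u) {q κ t : ℕ}
    (hq : q.Prime) (hA : ∀ N : Subgroup G, IsCyclic (G ⧸ N) → AutAt q F (Kf ι N))
    (hS : CondE q κ t ι S w) {b : MonoidAlgebra ℤ G} (hb : b ∈ augQ q G ^ t)
    (ψ : Fin r → (UM ι S T →ₗ[MonoidAlgebra ℤ G] MonoidAlgebra ℤ G)) :
    ∃ (m : ℕ) (a : MonoidAlgebra ℤ G), ¬ q ∣ m ∧ MonoidAlgebra.single 1 (m : ℚ) *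
      (MonoidAlgebra.single 1 ((q : ℚ) ^ κ) * (toQ G b * psiQ ψ u)) = toQ G a := by
  by_cases hκ : q ^ (κ + 1) ∣ Nat.card G
  · have hT : CondT q κ t ι S w := by
      rcases hS with h | h | h | h
      · exact absurd hκ h
      · exact condE_T hD hq (Or.inl h)
      · exact condE_T hD hq (Or.inr h)
      · exact h
    rw [augQ, Ideal.span, Submodule.span_pow] at hb
    simp only [mul_left_comm (MonoidAlgebra.single (1 : G) ((q : ℚ) ^ κ))]
    refine eh_span hq _ (fun b hb => ?_) hb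
    obtain ⟨f, hf, rfl⟩ := Set.mem_pow_iff_prod.mp hb
    choose g hg hfg using hf
    obtain ⟨m, a, hm, e⟩ := stark_prod hD hc hu hq hA hT g hg ψ
    refine ⟨m, a, hm, ?_⟩
    rw [← e, mul_left_comm (toQ G _)]
    simp only [hfg]
  · have h : ∀ k : ℕ, q ^ k ∣ Nat.card G → k ≤ κ := fun k hk => by
      by_contra hlt
      exact hκ ((pow_dvd_pow q (Nat.lt_of_not_ge hlt)).trans hk)
    obtain ⟨m, a, hm, e⟩ := loc_main hD hc hu hq hA (Or.inl h) ψ
    refine ⟨m, b * a, hm, ?_⟩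
    rw [map_mul, ← e]
    ring

end E

end Pool.Agent.CR

namespace Pool.Agent.CR
open Pool.Agent.RSK Pool.Agent.RS2 Pool.Agent.RS3 Pool.Agent.RS4 Pool.Agent.SY Pool.Agent.AU
  Pool.Agent.RT
open NumberField IsDedekindDomain Filter Topology Complex
open scoped TensorProduct

section
variable {F H : Type} [Field F] [NumberField F] [Field H] [NumberField H] [Algebra F H]
  [IsGalois F H] {G : Type} [CommGroup G] [Fintype G] {ι : G ≃* (H ≃ₐ[F] H)}
  {S T : Finset (HeightOneSpectrum (𝓞 F))} {r : ℕ} {w : Fin r → Pl H}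
  {fr : HeightOneSpectrum (𝓞 F) → G}

theorem stark_aug (hD : Data ι S T r w fr) {c : (G →* ℂˣ) → ℂ} (hc : Lead S T r fr c)
    {u : (⋀[MonoidAlgebra ℤ G]^r (UM ι S T)) ⊗[ℤ] ℚ} (hu : IsStark ι S T w c u) {q κ t : ℕ}
    (hq : q.Prime) (hA : ∀ N : Subgroup G, IsCyclic (G ⧸ N) → AutAt q F (Kf ι N))
    (hS : CondE q κ t ι S w) {b : MonoidAlgebra ℤ G} (hb : b ∈ augQ q G ^ t)
    (ψ : Fin r → (UM ι S T →ₗ[MonoidAlgebra ℤ G] MonoidAlgebra ℤ G)) :
    ∃ (m : ℕ) (a : MonoidAlgebra ℤ G), ¬ q ∣ m ∧ MonoidAlgebra.single 1 (m : ℚ) *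
      (MonoidAlgebra.single 1 ((q : ℚ) ^ κ) * (toQ G b * psiQ ψ u)) = toQ G a :=
  @Pool.Agent.CR.stark_aug_pr F H _ _ _ _ _ _ G _ _ ι S T r w fr hD c hc u hu q κ t hq hA hS b hb ψ

end

end Pool.Agent.CR
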