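import Pool.Agent.Lib_helper17.CRF.D_WE
import Pool.Agent.Lib_helper17.CRF.E_EH

/-!
# Composite Rubin (CR), block EI: the first theorem for all `S`
-/

set_option autoImplicit false
set_option linter.unusedSectionVars false

namespace Pool.Agent.CR

open Pool.Agent.RSK Pool.Agent.RS2 Pool.Agent.RS3 Pool.Agent.RS4 Pool.Agent.SY Pool.Agent.AU
  Pool.Agent.RT
open NumberField IsDedekindDomain Filter Topology Complex
open scoped TensorProduct

section E

variable {F H : Type} [Field F] [NumberField F] [Field H] [NumberField H] [Algebra F H]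
  [IsGalois F H] {G : Type} [CommGroup G] [Fintype G] {ι : G ≃* (H ≃ₐ[F] H)}
  {S T : Finset (HeightOneSpectrum (𝓞 F))} {r : ℕ} {w : Fin r → Pl H}
  {fr : HeightOneSpectrum (𝓞 F) → G}

theorem ei_toQ (n k : ℕ) (b : MonoidAlgebra ℤ G) :
    toQ G ((n : MonoidAlgebra ℤ G) ^ k * b) = MonoidAlgebra.single 1 ((n : ℚ) ^ k) * toQ G b := by
  rw [map_mul, map_pow, map_natCast, MonoidAlgebra.natCast_def, MonoidAlgebra.single_pow, one_pow]

theorem alphaE_pr (ι : G ≃* (H ≃ₐ[F] H)) (S T : Finset (HeightOneSpectrum (𝓞 F))) {r : ℕ}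
    (w : Fin r → Pl H) (fr : HeightOneSpectrum (𝓞 F) → G) (hD : Data ι S T r w fr) {q κ t : ℕ}
    (hq : q.Prime) (hA : ∀ N : Subgroup G, IsCyclic (G ⧸ N) → AutAt q F (Kf ι N))
    (hS : CondE q κ t ι S w) {b : MonoidAlgebra ℤ G} (hb : b ∈ augQ q G ^ t) :
    StarkMul q ((q : MonoidAlgebra ℤ G) ^ κ * b) ι S T w fr := by
  classical
  intro c Θ hc hΘ M _ _ e l hM u hu
  obtain ⟨φ, hφ⟩ := st_equiv hM
  have hl : ∀ i, (wl ι S T (w i)).comp (φ : M →ₗ[MonoidAlgebra ℤ G] UM ι S T) = l i := by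
    intro i
    ext m : 1
    rw [hM.log i m]
    show ∑ γ : G, MonoidAlgebra.single γ (lg (act (ι γ) (w i)) ((φ m).val : H)) = _
    rw [hφ]
  have hu' : IsStark ι S T w c (stMap (φ : M →ₗ[MonoidAlgebra ℤ G] UM ι S T) u) := by
    refine ⟨fun a ha => ?_, fun χ => ?_⟩
    · rw [← st_smul, hu.er a ha, map_zero]
    · have h1 := st_ext (AddMonoidHom.id (MonoidAlgebra ℝ G))
        (φ : M →ₗ[MonoidAlgebra ℤ G] UM ι S T) (fun i => wl ι S T (w i)) u
      rw [AddMonoidHom.id_comp, AddMonoidHom.id_comp] at h1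
      rw [h1]
      have h2 : (fun i => (wl ι S T (w i)).comp (φ : M →ₗ[MonoidAlgebra ℤ G] UM ι S T)) = l :=
        funext hl
      rw [h2, hu.value]
      exact hΘ χ
  intro ψ
  have hψ : psiQ (fun i => (ψ i).comp (φ.symm : UM ι S T →ₗ[MonoidAlgebra ℤ G] M))
      (stMap (φ : M →ₗ[MonoidAlgebra ℤ G] UM ι S T) (((q : MonoidAlgebra ℤ G) ^ κ * b) • u)) =
      extQ ((toQ G).toAddMonoidHom.comp (detMap ψ).toAddMonoidHom)
        (((q : MonoidAlgebra ℤ G) ^ κ * b) • u) := by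
    unfold psiQ
    rw [st_ext]
    have h : (fun i => ((ψ i).comp (φ.symm : UM ι S T →ₗ[MonoidAlgebra ℤ G] M)).comp
        (φ : M →ₗ[MonoidAlgebra ℤ G] UM ι S T)) = ψ := by
      funext i
      ext m : 1
      show ψ i (φ.symm (φ m)) = ψ i m
      rw [φ.symm_apply_apply]
    rw [h]
  have hsm : ∀ (n : ℕ) (x : MonoidAlgebra ℚ G), n • x = MonoidAlgebra.single 1 (n : ℚ) * x := by
    intro n x
    induction n with
    | zero => rw [zero_smul, Nat.cast_zero, MonoidAlgebra.single_zero, zero_mul]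
    | succ n ih =>
      rw [succ_nsmul, ih, Nat.cast_succ, MonoidAlgebra.single_add, add_mul,
        ← MonoidAlgebra.one_def, one_mul]
  obtain ⟨m, a, hm, ha⟩ := stark_aug hD hc hu' hq hA hS hb
    (fun i => (ψ i).comp (φ.symm : UM ι S T →ₗ[MonoidAlgebra ℤ G] M))
  refine ⟨m, a, hm, ?_⟩
  rw [← hψ, pow_zero, mul_one, hsm, st_smul, er_psiQ, ei_toQ, ← ha, mul_assoc]

end E

end Pool.Agent.CR

namespace Pool.Agent.CR
open Pool.Agent.RSK Pool.Agent.RS2 Pool.Agent.RS3 Pool.Agent.RS4 Pool.Agent.SY Pool.Agent.AU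
  Pool.Agent.RT
open NumberField IsDedekindDomain Filter Topology Complex
open scoped TensorProduct

section
variable {F H : Type} [Field F] [NumberField F] [Field H] [NumberField H] [Algebra F H]
  [IsGalois F H] {G : Type} [CommGroup G] [Fintype G] {ι : G ≃* (H ≃ₐ[F] H)}
  {S T : Finset (HeightOneSpectrum (𝓞 F))} {r : ℕ} {w : Fin r → Pl H}
  {fr : HeightOneSpectrum (𝓞 F) → G}

theorem alphaE (ι : G ≃* (H ≃ₐ[F] H)) (S T : Finset (HeightOneSpectrum (𝓞 F))) {r : ℕ}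
    (w : Fin r → Pl H) (fr : HeightOneSpectrum (𝓞 F) → G) (hD : Data ι S T r w fr) {q κ t : ℕ}
    (hq : q.Prime) (hA : ∀ N : Subgroup G, IsCyclic (G ⧸ N) → AutAt q F (Kf ι N))
    (hS : CondE q κ t ι S w) {b : MonoidAlgebra ℤ G} (hb : b ∈ augQ q G ^ t) :
    StarkMul q ((q : MonoidAlgebra ℤ G) ^ κ * b) ι S T w fr :=
  @Pool.Agent.CR.alphaE_pr F H _ _ _ _ _ _ G _ _ ι S T r w fr hD q κ t hq hA hS b hb

end

end Pool.Agent.CR
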