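import Pool.Agent.Lib_helper17.CRF.D_WT
import Pool.Agent.Lib_helper17.RS.P_LF
import Pool.Agent.Lib_helper17.RS.P_UQ
import Pool.Agent.Lib_helper35.RS2.P_QK
import Pool.Agent.Lib_helper35.RS3.P_FT3
import Pool.Agent.Lib_helper29.SY.P_LY
import Pool.Agent.Lib_helper29.SY.P_CK

/-!
# Composite Rubin (CR), block CT: the characters which do not contribute
-/

set_option autoImplicit false
set_option linter.unusedSectionVars false

namespace Pool.Agent.CR

open Pool.Agent.RSK Pool.Agent.RS2 Pool.Agent.RS3 Pool.Agent.RS4 Pool.Agent.SY Pool.Agent.AU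
  Pool.Agent.RT
open NumberField IsDedekindDomain Filter Topology Complex
open scoped TensorProduct

section TP

variable {F H : Type} [Field F] [NumberField F] [Field H] [NumberField H] [Algebra F H]
  [IsGalois F H] {G : Type} [CommGroup G] [Fintype G] {ι : G ≃* (H ≃ₐ[F] H)}
  {S T : Finset (HeightOneSpectrum (𝓞 F))} {r : ℕ} {w : Fin r → Pl H}
  {fr : HeightOneSpectrum (𝓞 F) → G}

/-- the leading terms are unique, for each character -/
theorem ct_uniq {f : ℂ → ℂ} {a b : ℂ}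
    (h : ∃ Λ : ℂ → ℂ, MeromorphicOn Λ Set.univ ∧ (∀ s : ℂ, 1 < s.re → Λ s = f s) ∧
      Tendsto (fun s : ℂ => Λ s / s ^ r) (𝓝[≠] 0) (𝓝 a))
    (h' : ∃ Λ : ℂ → ℂ, MeromorphicOn Λ Set.univ ∧ (∀ s : ℂ, 1 < s.re → Λ s = f s) ∧
      Tendsto (fun s : ℂ => Λ s / s ^ r) (𝓝[≠] 0) (𝓝 b)) : a = b := by
  obtain ⟨Λ, h1, h2, h3⟩ := h
  obtain ⟨Λ', h1', h2', h3'⟩ := h'
  have h4 := mero_ext h1 h1' (fun s hs => (h2 s hs).trans (h2' s hs).symm) 0
  refine tendsto_nhds_unique h3 (h3'.congr' ?_)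
  filter_upwards [h4] with s hs
  rw [hs]

/-- the character of the quotient by its kernel is injective -/
theorem ct_inj (χ : G →* ℂˣ) : Function.Injective (ft3L χ.ker χ le_rfl) := by
  rw [injective_iff_map_eq_one]
  intro g hg
  obtain ⟨g, rfl⟩ := QuotientGroup.mk_surjective g
  have h2 : χ g = 1 := hg
  exact (QuotientGroup.eq_one_iff g).2 (MonoidHom.mem_ker.2 h2)

theorem ct_cyclic (χ : G →* ℂˣ) : IsCyclic (G ⧸ χ.ker) :=
  isCyclic_of_injective_ringHom ((Units.coeHom ℂ).comp (ft3L χ.ker χ le_rfl))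
    (fun _ _ h => ct_inj χ (Units.ext h))

theorem cont_zero_pr (hD : Data ι S T r w fr) {c : (G →* ℂˣ) → ℂ} (hc : Lead S T r fr c)
    (hP : ∀ N : Subgroup G, IsCyclic (G ⧸ N) → N ≠ ⊤ → PermLay F (Kf ι N)) (χ : G →* ℂˣ)
    (hχ : ¬ Cont ι S w χ) : c χ = 0 := by
  classical
  by_cases h1 : χ = 1
  · -- the trivial character
    subst h1
    have hS : r + 2 ≤ Fintype.card (InfinitePlace F) + S.card := by
      have h2 := hD.card
      by_contra h3
      refine hχ ⟨fun _ => by omega, fun h => absurd rfl h⟩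
    obtain ⟨c', hc', -, h0⟩ := lead_full hD (c := c) (fun χ _ => hc χ)
    rw [← h0 hS]
    exact ct_uniq (hc 1) (hc' 1)
  · have hN : χ.ker ≠ ⊤ := by
      intro h
      apply h1
      ext g
      have h2 : g ∈ χ.ker := by rw [h]; trivial
      rw [MonoidHom.mem_ker.1 h2]
      rfl
    have hcyc := ct_cyclic χ
    have := kf_galois ι χ.ker
    obtain ⟨ι', hq⟩ := kf_quo ι χ.ker
    let _ : Fintype (G ⧸ χ.ker) := Fintype.ofFinite _
    have hnt : Nontrivial (G ⧸ χ.ker) := by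
      by_contra h
      rw [not_nontrivial_iff_subsingleton] at h
      apply hN
      rw [eq_top_iff]
      intro g _
      rw [← QuotientGroup.eq_one_iff]
      exact Subsingleton.elim _ _
    rcases case_KI hnt hq (fun S' T' r' w' fr' hD' => lay_core hnt (hP _ hcyc hN) hD') hD
      with hK | hK
    · -- then `χ` contributes
      exfalso
      refine hχ ⟨fun h => absurd h h1, fun _ W hW hg => ?_⟩
      have hg' : ∀ g : G, act (ι g) W = W → QuotientGroup.mk' χ.ker g = 1 := by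
        intro g h
        rw [← MonoidHom.mem_ker, QuotientGroup.ker_mk', MonoidHom.mem_ker]
        exact hg g h
      obtain ⟨i, hi⟩ := hK.all (dn (Kf ι χ.ker) W) (by rw [dn_dn]; exact hW)
        (fun σ' hσ' => qk_split hq hg' σ' hσ')
      refine ⟨i, ?_⟩
      rw [dn_dn, dn_dn] at hi
      exact hi
    · exact ct_uniq (hc χ) (hK (ft3L χ.ker χ le_rfl) (ct_inj χ))

end TP

end Pool.Agent.CR

namespace Pool.Agent.CR
open Pool.Agent.RSK Pool.Agent.RS2 Pool.Agent.RS3 Pool.Agent.RS4 Pool.Agent.SY Pool.Agent.AU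
  Pool.Agent.RT
open NumberField IsDedekindDomain Filter Topology Complex
open scoped TensorProduct

section
variable {F H : Type} [Field F] [NumberField F] [Field H] [NumberField H] [Algebra F H]
  [IsGalois F H] {G : Type} [CommGroup G] [Fintype G] {ι : G ≃* (H ≃ₐ[F] H)}
  {S T : Finset (HeightOneSpectrum (𝓞 F))} {r : ℕ} {w : Fin r → Pl H}
  {fr : HeightOneSpectrum (𝓞 F) → G}

theorem cont_zero (hD : Data ι S T r w fr) {c : (G →* ℂˣ) → ℂ} (hc : Lead S T r fr c)
    (hP : ∀ N : Subgroup G, IsCyclic (G ⧸ N) → N ≠ ⊤ → PermLay F (Kf ι N)) (χ : G →* ℂˣ)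
    (hχ : ¬ Cont ι S w χ) : c χ = 0 :=
  @Pool.Agent.CR.cont_zero_pr F H _ _ _ _ _ _ G _ _ ι S T r w fr hD c hc hP χ hχ

end

end Pool.Agent.CR
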