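import Pool.Agent.Lib_helper17.CRF.D_WE
import Pool.Agent.Lib_helper17.CRF.T_CT
import Pool.Agent.Lib_helper17.CRF.E_EI
import Pool.Agent.Lib_helper29.SY.Main

/-!
CR (composite Rubin), block EJ: the second theorem for all sets `S`.
-/

set_option autoImplicit false
set_option linter.unusedSectionVars false

namespace Pool.Agent.CR

open Pool.Agent.RSK Pool.Agent.RS2 Pool.Agent.RS3 Pool.Agent.RS4 Pool.Agent.SY Pool.Agent.AU
  Pool.Agent.RT
open NumberField IsDedekindDomain Filter Topology Complex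
open scoped TensorProduct

theorem ej_unit {R B : Type} [CommRing R] [CommRing B] (j : R →+* B) (Y : B)
    (h : ∀ q : ℕ, q.Prime → ∃ (m : ℕ) (a : R), ¬ q ∣ m ∧ m • Y = j a) : ∃ a : R, Y = j a := by
  let I : AddSubgroup ℤ :=
    { carrier := {m : ℤ | ∃ a : R, m • Y = j a}
      zero_mem' := ⟨0, by simp⟩
      add_mem' := by
        rintro a b ⟨x, hx⟩ ⟨y, hy⟩
        exact ⟨x + y, by rw [add_smul, hx, hy, map_add]⟩
      neg_mem' := by
        rintro a ⟨x, hx⟩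
        exact ⟨-x, by rw [neg_smul, hx, map_neg]⟩ }
  obtain ⟨d, hd⟩ := Int.subgroup_cyclic I
  have key : d.natAbs = 1 := by
    by_contra hne
    obtain ⟨q, hq, hqd⟩ := Nat.exists_prime_and_dvd hne
    obtain ⟨m, a, hm, ha⟩ := h q hq
    have hmI : (m : ℤ) ∈ I := ⟨a, by rw [natCast_zsmul]; exact ha⟩
    rw [hd, AddSubgroup.mem_closure_singleton] at hmI
    obtain ⟨k, hk⟩ := hmI
    apply hm
    have h1 : (q : ℤ) ∣ (m : ℤ) := by
      rw [← hk, smul_eq_mul]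
      exact Dvd.dvd.mul_left (Int.natCast_dvd.2 hqd) k
    exact_mod_cast h1
  have h1 : (1 : ℤ) ∈ I := by
    rw [hd, AddSubgroup.mem_closure_singleton]
    rcases Int.natAbs_eq d with e | e
    · exact ⟨1, by rw [e, key]; simp⟩
    · exact ⟨-1, by rw [e, key]; simp⟩
  obtain ⟨a, ha⟩ := h1
  exact ⟨a, by rwa [one_smul] at ha⟩

section TP

variable {F H : Type} [Field F] [NumberField F] [Field H] [NumberField H] [Algebra F H]
  [IsGalois F H] {G : Type} [CommGroup G] [Fintype G] {ι : G ≃* (H ≃ₐ[F] H)}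
  {S T : Finset (HeightOneSpectrum (𝓞 F))} {r : ℕ} {w : Fin r → Pl H}
  {fr : HeightOneSpectrum (𝓞 F) → G}

/-- EJ. The second theorem: `stark_perm` (the element `u` from `StarkQ`), `cont_zero` as in `beta`,
and `alphaE` for all primes `q`: the integers `n` with `n ψ(a u) ∈ ℤ[G]` generate the unit ideal. -/
theorem betaE_pr (ι : G ≃* (H ≃ₐ[F] H)) (S T : Finset (HeightOneSpectrum (𝓞 F))) {r : ℕ}
    (w : Fin r → Pl H) (fr : HeightOneSpectrum (𝓞 F) → G) (hD : Data ι S T r w fr)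
    (hP : ∀ N : Subgroup G, IsCyclic (G ⧸ N) → N ≠ ⊤ → PermLay F (Kf ι N))
    (hA : ∀ N : Subgroup G, IsCyclic (G ⧸ N) → ∀ q : ℕ, q.Prime → AutAt q F (Kf ι N)) :
    RubinOn (admE ι S w) ι S T w fr := by
  obtain ⟨c, Θ, h1, h2, M, i1, i2, e, l, h3, u, h4⟩ := stark_perm hD hP
  refine ⟨c, Θ, h1, h2, M, i1, i2, e, l, h3, u, h4.er, h4.value, ?_⟩
  intro a ha ψ
  apply ej_unit (toQ G)
  intro q hq
  obtain ⟨κ, t, m, hE, hm, b, hb, hab⟩ := ha q hq
  have hst := alphaE ι S T w fr hD hq (fun N hN => hA N hN q hq) hE hb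
  obtain ⟨n, d, hn, hd⟩ := hst c Θ h1 h2 M i1 i2 e l h3 u
    ⟨fun a ha => h4.er a (fun χ hχ => ha χ (by
      by_contra hc
      exact hχ (cont_zero hD h1 hP χ hc))), h4.value⟩ ψ
  refine ⟨m * n, d, fun h => (hq.dvd_mul.1 h).elim hm hn, ?_⟩
  rw [← hd, pow_zero, mul_one, ← hab, mul_smul (m : MonoidAlgebra ℤ G) a u,
    Nat.cast_smul_eq_nsmul, map_nsmul, smul_smul, mul_comm m n]

end TP

end Pool.Agent.CR

namespace Pool.Agent.CR
open Pool.Agent.RSK Pool.Agent.RS2 Pool.Agent.RS3 Pool.Agent.RS4 Pool.Agent.SY Pool.Agent.AU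
  Pool.Agent.RT
open NumberField IsDedekindDomain Filter Topology Complex
open scoped TensorProduct

section
variable {F H : Type} [Field F] [NumberField F] [Field H] [NumberField H] [Algebra F H]
  [IsGalois F H] {G : Type} [CommGroup G] [Fintype G] {ι : G ≃* (H ≃ₐ[F] H)}
  {S T : Finset (HeightOneSpectrum (𝓞 F))} {r : ℕ} {w : Fin r → Pl H}
  {fr : HeightOneSpectrum (𝓞 F) → G}

theorem betaE (ι : G ≃* (H ≃ₐ[F] H)) (S T : Finset (HeightOneSpectrum (𝓞 F))) {r : ℕ}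
    (w : Fin r → Pl H) (fr : HeightOneSpectrum (𝓞 F) → G) (hD : Data ι S T r w fr)
    (hP : ∀ N : Subgroup G, IsCyclic (G ⧸ N) → N ≠ ⊤ → PermLay F (Kf ι N))
    (hA : ∀ N : Subgroup G, IsCyclic (G ⧸ N) → ∀ q : ℕ, q.Prime → AutAt q F (Kf ι N)) :
    RubinOn (admE ι S w) ι S T w fr :=
  @Pool.Agent.CR.betaE_pr F H _ _ _ _ _ _ G _ _ ι S T r w fr hD hP hA

end

end Pool.Agent.CR
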