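import Pool.Agent.Lib_helper17.CRF.D_WT

/-!
# Composite Rubin (CR): block FA1 (`AutAt` for the holomorph)
-/

set_option autoImplicit false
set_option linter.unusedSectionVars false

namespace Pool.Agent.CR

open Pool.Agent.RSK Pool.Agent.RS2 Pool.Agent.RS3 Pool.Agent.RS4 Pool.Agent.SY Pool.Agent.AU
  Pool.Agent.RT
open NumberField IsDedekindDomain

/-- a number `b ≡ a` modulo `n` which is prime to `M` -/
theorem fa1_num {a n M : ℕ} (hn : 0 < n) (hM : 0 < M) (h : a.Coprime n) :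
    ∃ b : ℕ, b ≡ a [MOD n] ∧ b.Coprime M := by
  have h1 : n ∣ n * M := Dvd.intro M rfl
  have : NeZero (n * M) := ⟨(Nat.mul_pos hn hM).ne'⟩
  have : NeZero n := ⟨hn.ne'⟩
  obtain ⟨u, hu⟩ := ZMod.unitsMap_surjective h1 (ZMod.unitOfCoprime a h)
  refine ⟨(u : ZMod (n * M)).val, ?_, ?_⟩
  · rw [← ZMod.natCast_eq_natCast_iff]
    have h2 := congrArg (Units.val) hu
    rw [ZMod.unitsMap_val, ZMod.coe_unitOfCoprime] at h2
    rw [← h2, ZMod.natCast_val]
  · exact (ZMod.val_coe_unit_coprime u).coprime_dvd_right (Dvd.intro_left n rfl)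

section

variable {F H : Type} [Field F] [NumberField F] [Field H] [NumberField H] [Algebra F H]
  [IsGalois F H] {G : Type} [CommGroup G] [Fintype G] {ι : G ≃* (H ≃ₐ[F] H)}

theorem fa1_ord {K : Type} [Field K] [Algebra F K] [FiniteDimensional F K] (σ : K ≃ₐ[F] K) :
    orderOf σ ∣ Module.finrank F K := by
  have h1 := IntermediateField.finrank_fixedField_eq_card (Subgroup.zpowers σ)
  rw [Nat.card_zpowers] at h1
  rw [← h1]
  have h2 := Module.finrank_mul_finrank F (IntermediateField.fixedField (Subgroup.zpowers σ)) K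
  exact Dvd.intro_left _ h2

/-- `AutAt` from automorphisms `τ` of `H` with `τ t τ⁻¹ = t ^ b` for all `t` in `Gal(H/F)`, for all
`b` prime to some `M` -/
theorem fa1_core {M : ℕ} (hM : 0 < M)
    (h : ∀ b : ℕ, b.Coprime M → ∃ τ : H ≃+* H, ∀ (t : H ≃ₐ[F] H) (x : H), τ (t x) = (t ^ b) (τ x))
    (N : Subgroup G) (q : ℕ) : AutAt q F (Kf ι N) := by
  intro a ha
  have hc : 0 < Nat.card (H ≃ₐ[F] H) := Nat.card_pos
  have hn : 0 < Module.finrank F (Kf ι N) := Module.finrank_pos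
  obtain ⟨b, hb1, hb2⟩ := fa1_num hn (Nat.mul_pos hM hc) ha
  have hbM : b.Coprime M := hb2.coprime_dvd_right (Dvd.intro _ rfl)
  have hbc : b.Coprime (Nat.card (H ≃ₐ[F] H)) := hb2.coprime_dvd_right (Dvd.intro_left _ rfl)
  obtain ⟨τ, hτ⟩ := h b hbM
  have hm : ∀ x : H, x ∈ Kf ι N ↔ ∀ g ∈ N.map ι.toMonoidHom, g x = x := by
    intro x
    exact IntermediateField.mem_fixedField_iff _ _
  have hpow : ∀ (t : H ≃ₐ[F] H) (x : H) (k : ℕ), t x = x → (t ^ k) x = x := by
    intro t x k ht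
    induction k with
    | zero => rfl
    | succ k ih => rw [pow_succ, AlgEquiv.mul_apply, ht, ih]
  have h1 : ∀ x : H, x ∈ Kf ι N → τ x ∈ Kf ι N := by
    intro x hx
    rw [hm] at hx ⊢
    intro g hg
    obtain ⟨c, hc'⟩ : ∃ c : ℕ, g ^ (c * b) = g := by
      have h2 : b.Coprime (orderOf g) := hbc.coprime_dvd_right (orderOf_dvd_natCard g)
      obtain ⟨c, hc⟩ := exists_pow_eq_self_of_coprime h2
      exact ⟨c, by rw [mul_comm, pow_mul, hc]⟩
    have h3 := hτ (g ^ c) x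
    rw [hx (g ^ c) ((N.map ι.toMonoidHom).pow_mem hg c), ← pow_mul, hc'] at h3
    exact h3.symm
  have h2 : ∀ y : H, y ∈ Kf ι N → τ.symm y ∈ Kf ι N := by
    intro y hy
    rw [hm] at hy ⊢
    intro g hg
    apply τ.injective
    rw [hτ, RingEquiv.apply_symm_apply]
    exact hpow g y b (hy g hg)
  let τK : (Kf ι N) ≃+* (Kf ι N) :=
    { toFun := fun x => ⟨τ x, h1 x x.2⟩
      invFun := fun y => ⟨τ.symm y, h2 y y.2⟩
      left_inv := fun x => Subtype.ext (τ.symm_apply_apply x)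
      right_inv := fun x => Subtype.ext (τ.apply_symm_apply x)
      map_mul' := fun x y => Subtype.ext (map_mul τ (x : H) y)
      map_add' := fun x y => Subtype.ext (map_add τ (x : H) y) }
  refine ⟨0, b, τK, ?_, ?_⟩
  · intro σ x
    have hs : ∀ y : Kf ι N, (σ.liftNormal H) (y : H) = ((σ y : Kf ι N) : H) := fun y =>
      AlgEquiv.liftNormal_commutes σ H y
    have hk : ∀ (k : ℕ) (y : Kf ι N), ((σ.liftNormal H) ^ k) (y : H) = (((σ ^ k) y : Kf ι N) : H) := by
      intro k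
      induction k with
      | zero => intro y; rfl
      | succ k ih =>
        intro y
        rw [pow_succ, AlgEquiv.mul_apply, hs, ih, pow_succ, AlgEquiv.mul_apply]
    apply Subtype.ext
    show τ ((σ x : Kf ι N) : H) = (((σ ^ b) (τK x) : Kf ι N) : H)
    rw [← hs, hτ, ← hk]
    rfl
  · intro σ _
    rw [pow_zero, mul_one]
    exact pow_eq_pow_iff_modEq.2 (hb1.of_dvd (fa1_ord σ))

end

section

variable {F H : Type} [Field F] [NumberField F] [Field H] [NumberField H] [Algebra F H]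
  [IsGalois F H] {G : Type} [CommGroup G] [Fintype G] {ι : G ≃* (H ≃ₐ[F] H)}

theorem aut_hol_pr (h : HolT F H) (N : Subgroup G) (q : ℕ) : AutAt q F (Kf ι N) := by
  obtain ⟨F₀, _, _, _, _, _, _, m, θ, hm, hs, hθ, -, -⟩ := h
  refine fa1_core hm (fun b hb => ?_) N q
  refine ⟨(θ (ZMod.unitOfCoprime b hb)).toRingEquiv, fun t x => ?_⟩
  have h1 := hθ (ZMod.unitOfCoprime b hb) t x
  rw [ZMod.coe_unitOfCoprime, ZMod.val_natCast, ← pow_eq_pow_mod b (hs t)] at h1
  exact h1

end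

end Pool.Agent.CR

namespace Pool.Agent.CR
open Pool.Agent.RSK Pool.Agent.RS2 Pool.Agent.RS3 Pool.Agent.RS4 Pool.Agent.SY Pool.Agent.AU
  Pool.Agent.RT
open NumberField IsDedekindDomain Filter Topology Complex
open scoped TensorProduct

section
variable {F H : Type} [Field F] [NumberField F] [Field H] [NumberField H] [Algebra F H]
  [IsGalois F H] {G : Type} [CommGroup G] [Fintype G] {ι : G ≃* (H ≃ₐ[F] H)}
  {S T : Finset (HeightOneSpectrum (𝓞 F))} {r : ℕ} {w : Fin r → Pl H}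
  {fr : HeightOneSpectrum (𝓞 F) → G}

theorem aut_hol (h : HolT F H) (N : Subgroup G) (q : ℕ) : AutAt q F (Kf ι N) :=
  @Pool.Agent.CR.aut_hol_pr F H _ _ _ _ _ _ G _ _ ι h N q

end

end Pool.Agent.CR
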