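import Pool.Agent.Lib_helper17.CRF.T_FA1
/-!
# Composite Rubin (CR): block FA2 (`AutAt` for products of symmetric groups, `SymC` implies `SymT`)
-/

set_option autoImplicit false
set_option linter.unusedSectionVars false

namespace Pool.Agent.CR

open Pool.Agent.RSK Pool.Agent.RS2 Pool.Agent.RS3 Pool.Agent.RS4 Pool.Agent.SY Pool.Agent.AU
  Pool.Agent.RT
open NumberField IsDedekindDomain

/-- the cycle type of a power prime to the order -/
theorem fa2_ct {α : Type} [Fintype α] [DecidableEq α] (σ : Equiv.Perm α) :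
    ∀ b : ℕ, b.Coprime (orderOf σ) → (σ ^ b).cycleType = σ.cycleType := by
  induction σ using Equiv.Perm.cycle_induction_on with
  | base_one => intro b _; rw [one_pow]
  | base_cycles σ hσ =>
    intro b hb
    rw [((hσ.pow_iff).2 hb).cycleType, hσ.cycleType, Equiv.Perm.support_pow_coprime hb]
  | induction_disjoint σ τ hd _ ih1 ih2 =>
    intro b hb
    rw [hd.orderOf] at hb
    rw [hd.commute.mul_pow, (hd.pow_disjoint_pow b b).cycleType_mul, hd.cycleType_mul,
      ih1 b (hb.coprime_dvd_right (Nat.dvd_lcm_left _ _)),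
      ih2 b (hb.coprime_dvd_right (Nat.dvd_lcm_right _ _))]

theorem fa2_conj {k : ℕ} {n : Fin k → ℕ} (g : (i : Fin k) → Equiv.Perm (Fin (n i))) (b : ℕ)
    (hb : b.Coprime (orderOf g)) : ∃ c : (i : Fin k) → Equiv.Perm (Fin (n i)), c * g = g ^ b * c := by
  have h : ∀ i, ∃ c : Equiv.Perm (Fin (n i)), c * g i = g i ^ b * c := by
    intro i
    have h1 : orderOf (g i) ∣ orderOf g := by
      have := orderOf_map_dvd (Pi.evalMonoidHom (fun i => Equiv.Perm (Fin (n i))) i) g
      exact this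
    have h2 := fa2_ct (g i) b (hb.coprime_dvd_right h1)
    obtain ⟨c, hc⟩ := isConj_iff.1 (Equiv.Perm.isConj_iff_cycleType_eq.2 h2.symm)
    exact ⟨c, by rw [← hc, inv_mul_cancel_right]⟩
  choose c hc using h
  exact ⟨c, funext hc⟩

section

variable {F H : Type} [Field F] [NumberField F] [Field H] [NumberField H] [Algebra F H]
  [IsGalois F H] {G : Type} [CommGroup G] [Fintype G] {ι : G ≃* (H ≃ₐ[F] H)}

theorem aut_symC_pr (h : SymC F H) (N : Subgroup G) (q : ℕ) : AutAt q F (Kf ι N) := by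
  obtain ⟨hcyc, F₀, _, _, _, _, _, _, k, n, ⟨e⟩⟩ := h
  refine fa1_core (M := Nat.card (H ≃ₐ[F] H)) Nat.card_pos (fun b hb => ?_) N q
  obtain ⟨s, hs⟩ := hcyc.exists_generator
  have hpw : ∀ (k : ℕ) (x : H), ((AlgEquiv.restrictScalars F₀ s) ^ k) x = (s ^ k) x := by
    intro k
    induction k with
    | zero => intro x; rfl
    | succ k ih =>
      intro x
      rw [pow_succ, AlgEquiv.mul_apply, ih, pow_succ, AlgEquiv.mul_apply]
      rfl
  have h1 : (e (AlgEquiv.restrictScalars F₀ s)) ^ (orderOf s) = 1 := by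
    rw [← map_pow]
    have : (AlgEquiv.restrictScalars F₀ s) ^ (orderOf s) = 1 := by
      ext x
      rw [hpw, pow_orderOf_eq_one]
      rfl
    rw [this, map_one]
  have h2 : orderOf (e (AlgEquiv.restrictScalars F₀ s)) ∣ Nat.card (H ≃ₐ[F] H) :=
    (orderOf_dvd_of_pow_eq_one h1).trans (orderOf_dvd_natCard s)
  obtain ⟨c, hc⟩ := fa2_conj (e (AlgEquiv.restrictScalars F₀ s)) b (hb.coprime_dvd_right h2)
  have h3 : e.symm c * (AlgEquiv.restrictScalars F₀ s) =
      (AlgEquiv.restrictScalars F₀ s) ^ b * e.symm c := by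
    apply e.injective
    rw [map_mul, map_mul, map_pow, e.apply_symm_apply]
    exact hc
  have h4 : ∀ x : H, e.symm c (s x) = (s ^ b) (e.symm c x) := by
    intro x
    have := DFunLike.congr_fun h3 x
    rw [AlgEquiv.mul_apply, AlgEquiv.mul_apply, hpw] at this
    exact this
  have h5 : ∀ (j : ℕ) (x : H), e.symm c ((s ^ j) x) = (s ^ (j * b)) (e.symm c x) := by
    intro j
    induction j with
    | zero => intro x; rw [pow_zero, zero_mul, pow_zero]; rfl
    | succ j ih =>
      intro x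
      rw [pow_succ, AlgEquiv.mul_apply, ih, h4, ← AlgEquiv.mul_apply, ← pow_add, Nat.succ_mul]
  refine ⟨(e.symm c).toRingEquiv, fun t x => ?_⟩
  obtain ⟨j, rfl⟩ := (mem_powers_iff_mem_zpowers.2 (hs t))
  have h6 := h5 j x
  rw [pow_mul] at h6
  exact h6

theorem symC_T_pr (h : SymC F H) : SymT F H := by
  obtain ⟨-, F₀, _, _, _, _, _, _, k, n, e⟩ := h
  exact ⟨F₀, H, inferInstance, inferInstance, inferInstance, inferInstance, inferInstance,
    inferInstance, inferInstance, Algebra.id H, inferInstance, inferInstance, inferInstance, k, n, e⟩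

end

end Pool.Agent.CR

namespace Pool.Agent.CR
open Pool.Agent.RSK Pool.Agent.RS2 Pool.Agent.RS3 Pool.Agent.RS4 Pool.Agent.SY Pool.Agent.AU
  Pool.Agent.RT
open NumberField IsDedekindDomain Filter Topology Complex
open scoped TensorProduct

section
variable {F H : Type} [Field F] [NumberField F] [Field H] [NumberField H] [Algebra F H]
  [IsGalois F H] {G : Type} [CommGroup G] [Fintype G] {ι : G ≃* (H ≃ₐ[F] H)}
  {S T : Finset (HeightOneSpectrum (𝓞 F))} {r : ℕ} {w : Fin r → Pl H}
  {fr : HeightOneSpectrum (𝓞 F) → G}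

theorem aut_symC (h : SymC F H) (N : Subgroup G) (q : ℕ) : AutAt q F (Kf ι N) :=
  @Pool.Agent.CR.aut_symC_pr F H _ _ _ _ _ _ G _ _ ι h N q

end

end Pool.Agent.CR

namespace Pool.Agent.CR
open Pool.Agent.RSK Pool.Agent.RS2 Pool.Agent.RS3 Pool.Agent.RS4 Pool.Agent.SY Pool.Agent.AU
  Pool.Agent.RT
open NumberField IsDedekindDomain Filter Topology Complex
open scoped TensorProduct

section
variable {F H : Type} [Field F] [NumberField F] [Field H] [NumberField H] [Algebra F H]
  [IsGalois F H] {G : Type} [CommGroup G] [Fintype G] {ι : G ≃* (H ≃ₐ[F] H)}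
  {S T : Finset (HeightOneSpectrum (𝓞 F))} {r : ℕ} {w : Fin r → Pl H}
  {fr : HeightOneSpectrum (𝓞 F) → G}

theorem symC_T (h : SymC F H) : SymT F H :=
  @Pool.Agent.CR.symC_T_pr F H _ _ _ _ _ _ h

end

end Pool.Agent.CR
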