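import Pool.Agent.Lib_helper17.CRF.D_WT

/-!
# Composite Rubin (CR), block FA3: `AutAt` from `Hol3`
-/

set_option autoImplicit false
set_option linter.unusedSectionVars false

namespace Pool.Agent.CR

open Pool.Agent.RSK Pool.Agent.RS2 Pool.Agent.RS3 Pool.Agent.RS4 Pool.Agent.SY Pool.Agent.AU
  Pool.Agent.RT
open NumberField IsDedekindDomain

theorem fa3_ord {F K : Type} [Field F] [Field K] [Algebra F K] [FiniteDimensional F K]
    (σ : K ≃ₐ[F] K) : orderOf σ ∣ Module.finrank F K := by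
  have h1 := IntermediateField.finrank_fixedField_eq_card (Subgroup.zpowers σ)
  rw [Nat.card_zpowers] at h1
  rw [← h1]
  have h2 := Module.finrank_mul_finrank F (IntermediateField.fixedField (Subgroup.zpowers σ)) K
  exact Dvd.intro_left _ h2

section TP

variable {F H : Type} [Field F] [NumberField F] [Field H] [NumberField H] [Algebra F H]
  [IsGalois F H] {G : Type} [CommGroup G] [Fintype G] {ι : G ≃* (H ≃ₐ[F] H)}
  {S T : Finset (HeightOneSpectrum (𝓞 F))} {r : ℕ} {w : Fin r → Pl H}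
  {fr : HeightOneSpectrum (𝓞 F) → G}

theorem aut_hol3_pr (N : Subgroup G) {p : ℕ} (hp : p.Prime) {j : ℕ} (hj : N.index = p ^ j)
    (h : Hol3 p N.index F (Kf ι N)) (q : ℕ) : AutAt q F (Kf ι N) := by
  intro a ha
  have hf : Module.finrank F (Kf ι N) = N.index := kf_finrank (ι := ι) N
  rcases Nat.eq_zero_or_pos j with hj0 | hj0
  · subst hj0
    rw [pow_zero] at hj
    have h1 : ∀ σ : Kf ι N ≃ₐ[F] Kf ι N, σ = 1 := by
      intro σ
      have h2 := fa3_ord σ
      rw [hf, hj, Nat.dvd_one] at h2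
      exact orderOf_eq_one_iff.1 h2
    refine ⟨0, 1, RingEquiv.refl _, fun σ x => ?_, fun σ _ => ?_⟩
    · rw [h1 σ, one_pow]
      rfl
    · rw [h1 σ, one_pow, one_pow]
  · obtain ⟨m, θ, hd, hθ, -⟩ := h
    have hap : a.Coprime p := by
      rw [hf, hj] at ha
      exact (Nat.coprime_pow_right_iff hj0 a p).1 ha
    have hapm : a.Coprime (p ^ m) := Nat.Coprime.pow_right m hap
    have hs : ∀ σ : Kf ι N ≃ₐ[F] Kf ι N, σ ^ (p ^ m) = 1 := fun σ =>
      orderOf_dvd_iff_pow_eq_one.1 (((fa3_ord σ).trans (hf ▸ dvd_refl _)).trans hd)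
    refine ⟨0, (ZMod.unitOfCoprime a hapm : ZMod (p ^ m)).val, θ (ZMod.unitOfCoprime a hapm),
      fun σ x => hθ _ σ x, fun σ _ => ?_⟩
    rw [pow_zero, mul_one, ZMod.coe_unitOfCoprime, ZMod.val_natCast, ← pow_eq_pow_mod a (hs σ)]

end TP

end Pool.Agent.CR

namespace Pool.Agent.CR
open Pool.Agent.RSK Pool.Agent.RS2 Pool.Agent.RS3 Pool.Agent.RS4 Pool.Agent.SY Pool.Agent.AU
  Pool.Agent.RT
open NumberField IsDedekindDomain Filter Topology Complex
open scoped TensorProduct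

section
variable {F H : Type} [Field F] [NumberField F] [Field H] [NumberField H] [Algebra F H]
  [IsGalois F H] {G : Type} [CommGroup G] [Fintype G] {ι : G ≃* (H ≃ₐ[F] H)}
  {S T : Finset (HeightOneSpectrum (𝓞 F))} {r : ℕ} {w : Fin r → Pl H}
  {fr : HeightOneSpectrum (𝓞 F) → G}

theorem aut_hol3 (N : Subgroup G) {p : ℕ} (hp : p.Prime) {j : ℕ} (hj : N.index = p ^ j)
    (h : Hol3 p N.index F (Kf ι N)) (q : ℕ) : AutAt q F (Kf ι N) :=
  @Pool.Agent.CR.aut_hol3_pr F H _ _ _ _ _ _ G _ _ ι N p hp j hj h q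

end

end Pool.Agent.CR
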