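import Pool.Agent.Lib_helper17.CRF.D_WE
import Pool.Agent.Lib_helper17.CRF.T_FA2
import Pool.Agent.Lib_helper17.CRF.T_FA3
import Pool.Agent.Lib_helper17.CRF.E_EJ
import Pool.Agent.Lib_helper17.CRF.T_FA1
import Pool.Agent.Lib_helper29.SY.P_FH
import Pool.Agent.Lib_helper29.SY.P_FS
import Pool.Agent.Lib_helper29.SY.P_FP
import Pool.Agent.Lib_helper29.SY.P_FK

/-!
# Composite Rubin (CR), block EK: the second theorem for the families, all sets `S`
-/

set_option autoImplicit false
set_option linter.unusedSectionVars false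

namespace Pool.Agent.CR

open Pool.Agent.RSK Pool.Agent.RS2 Pool.Agent.RS3 Pool.Agent.RS4 Pool.Agent.SY Pool.Agent.AU
  Pool.Agent.RT
open NumberField IsDedekindDomain Filter Topology Complex
open scoped TensorProduct

section E

variable {F H : Type} [Field F] [NumberField F] [Field H] [NumberField H] [Algebra F H]
  [IsGalois F H] {G : Type} [CommGroup G] [Fintype G] {ι : G ≃* (H ≃ₐ[F] H)}
  {S T : Finset (HeightOneSpectrum (𝓞 F))} {r : ℕ} {w : Fin r → Pl H}
  {fr : HeightOneSpectrum (𝓞 F) → G}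

theorem ek_index {p : ℕ} (hp : p.Prime) (hG : IsPGroup p G) (N : Subgroup G) :
    ∃ j : ℕ, N.index = p ^ j := by
  haveI : Fact p.Prime := ⟨hp⟩
  exact hG.index N

theorem betaE_fam_pr (ι : G ≃* (H ≃ₐ[F] H)) (S T : Finset (HeightOneSpectrum (𝓞 F))) {r : ℕ}
    (w : Fin r → Pl H) (fr : HeightOneSpectrum (𝓞 F) → G) (hD : Data ι S T r w fr)
    (hF : FamQ ι) : RubinOn (admE ι S w) ι S T w fr := by
  refine betaE ι S T w fr hD (fun N hN hne => ?_) (fun N hN q hq => ?_)
  · rcases hF with h | h | h | h | ⟨p, hp, hG, h⟩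
    · exact hol_lay ι h N hN
    · exact hol_lay ι (kum_holT h) N hN
    · exact sym_lay ι (symC_T h) N hN
    · exact (h N hN).1 hne
    · obtain ⟨j, hj⟩ := ek_index hp hG N
      exact hol3_lay ι N hN hne hp hj (h N hN)
  · rcases hF with h | h | h | h | ⟨p, hp, hG, h⟩
    · exact aut_hol h N q
    · exact aut_hol (kum_holT h) N q
    · exact aut_symC h N q
    · exact (h N hN).2 q hq
    · obtain ⟨j, hj⟩ := ek_index hp hG N
      exact aut_hol3 N hp hj (h N hN) q

end E

end Pool.Agent.CR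

namespace Pool.Agent.CR
open Pool.Agent.RSK Pool.Agent.RS2 Pool.Agent.RS3 Pool.Agent.RS4 Pool.Agent.SY Pool.Agent.AU
  Pool.Agent.RT
open NumberField IsDedekindDomain Filter Topology Complex
open scoped TensorProduct

section
variable {F H : Type} [Field F] [NumberField F] [Field H] [NumberField H] [Algebra F H]
  [IsGalois F H] {G : Type} [CommGroup G] [Fintype G] {ι : G ≃* (H ≃ₐ[F] H)}
  {S T : Finset (HeightOneSpectrum (𝓞 F))} {r : ℕ} {w : Fin r → Pl H}
  {fr : HeightOneSpectrum (𝓞 F) → G}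

theorem betaE_fam (ι : G ≃* (H ≃ₐ[F] H)) (S T : Finset (HeightOneSpectrum (𝓞 F))) {r : ℕ}
    (w : Fin r → Pl H) (fr : HeightOneSpectrum (𝓞 F) → G) (hD : Data ι S T r w fr)
    (hF : FamQ ι) : RubinOn (admE ι S w) ι S T w fr :=
  @Pool.Agent.CR.betaE_fam_pr F H _ _ _ _ _ _ G _ _ ι S T r w fr hD hF

end

end Pool.Agent.CR
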