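import Pool.Agent.Lib_helper17.CR.Base

/-!
# Composite Rubin (CR): wanted statements, lattices with a group action

`G` is a finite commutative group acting on an abelian group `M` by `A : G →* AddMonoid.End M`.
`nA A P u` is the sum of the `g u`, `g ∈ P`.
`nty A L D` = elements fixed by `D` and killed by `nA A P` for all `P ∈ L`.
`rty A L D N N'` = the same for the classes in `N'/N`.
-/

set_option autoImplicit false
set_option linter.unusedSectionVars false

namespace Pool.Agent.CR

/-! ## GR: Gram determinants -/

section GR

variable {M M' : Type} [AddCommGroup M] [AddCommGroup M'] (B : M →+ M →+ ℝ)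

end GR

/-! ## TY: types -/

section TY

variable {G M : Type} [CommGroup G] [Finite G] [AddCommGroup M] (A : G →* AddMonoid.End M)

end TY

/-! ## ID: the index of the sum of the parts for a subgroup of order `l` -/

section ID

variable {G M : Type} [CommGroup G] [Finite G] [AddCommGroup M] [Module.Finite ℤ M]
  [Module.Free ℤ M] (A : G →* AddMonoid.End M)

end ID

/-! ## YP: permutation modules -/

section YP

variable {G Ω : Type} [CommGroup G] [Finite G] [Fintype Ω] (ρ : G →* Equiv.Perm Ω)

end YP

end Pool.Agent.CR
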