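import Pool.Agent.Lib_helper17.CR.DefsN
import Pool.Agent.Lib_helper17.CRF.D_WA
import Pool.Agent.Lib_helper29.SY.DefsS

/-!
# Composite Rubin (CR): wanted statements, characters and group rings

`G` is a finite commutative group, mostly cyclic of order `d = l^j d'`; `inj` = injective character.
-/

set_option autoImplicit false
set_option linter.unusedSectionVars false

namespace Pool.Agent.CR

open Pool.Agent.RSK Pool.Agent.RS2 Pool.Agent.SY
open Filter Topology Complex

/-! ## PL: lists of subgroups of prime order -/

section PL

variable {G : Type} [CommGroup G] [Finite G]

end PL

/-! ## AC: alternating products over characters -/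

section AC

variable {G : Type} [CommGroup G] [Finite G]

end AC

section CW

variable {G : Type} [CommGroup G] [Finite G] [IsCyclic G]

variable {I : Type} [Fintype I] (B : I → Subgroup G)

omit [IsCyclic G]

end CW

/-! ## PI: products over the injective characters -/

section PI

variable {G : Type} [CommGroup G] [Finite G]

end PI

/-! ## KL: the new part of a module -/

section KL

variable {G M : Type} [CommGroup G] [Finite G] [AddCommGroup M] [Module (MonoidAlgebra ℤ G) M]

end KL

/-! ## ET: the element `η` -/

section ET

variable {G : Type} [CommGroup G] [Fintype G]

end ET

/-! ## PV: Parseval -/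

section PV

variable {G : Type} [CommGroup G] [Fintype G] [IsCyclic G]

variable {M : Type} [AddCommGroup M] [Module (MonoidAlgebra ℤ G) M] [Module.Finite ℤ M]
  [Module.IsTorsionFree ℤ M]

end PV

/-! ## YN: the new part of a permutation module -/

section YN

variable {G Ω : Type} [CommGroup G] [Fintype G] [IsCyclic G] [Fintype Ω]
  (ρ : G →* Equiv.Perm Ω)

end YN

/-! ## AL: divisibility at `l` -/

section AL

variable {G : Type} [CommGroup G] [Fintype G] [IsCyclic G]

end AL

/-! ## LI: lifting to a larger group -/

section LI

variable {G G' : Type} [CommGroup G] [Fintype G] [CommGroup G'] [Fintype G'] [IsCyclic G']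

end LI

end Pool.Agent.CR
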