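import Pool.Agent.Lib_helper17.CRF.D_WN
import Pool.Agent.Lib_helper35.RS2.P_CH

/-!
# Composite Rubin (CR): wanted statements, cyclic layers, arbitrary `S` and `T`
-/

set_option autoImplicit false
set_option linter.unusedSectionVars false

namespace Pool.Agent.CR

open Pool.Agent.RSK Pool.Agent.RS2 Pool.Agent.RS3 Pool.Agent.SY
open NumberField IsDedekindDomain Filter Topology Complex

/-! ## UP: larger `S` and `T` -/

section UP

variable {F K : Type} [Field F] [NumberField F] [Field K] [NumberField K] [Algebra F K]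
  [IsGalois F K] {G : Type} [CommGroup G] [Fintype G] {ι : G ≃* (K ≃ₐ[F] K)}
  {S T : Finset (HeightOneSpectrum (𝓞 F))} {r : ℕ} {w : Fin r → Pl K}
  {fr : HeightOneSpectrum (𝓞 F) → G}

/-! ## UQ: uniqueness -/

/-! ## CC: the steps -/

/-! ## LY: the layers -/

end UP

section SY

variable {F₀ F K : Type} [Field F₀] [NumberField F₀] [Field F] [NumberField F] [Field K]
  [NumberField K] [Algebra F₀ F] [Algebra F₀ K] [Algebra F K] [IsScalarTower F₀ F K]
  [IsGalois F₀ K] [IsGalois F₀ F] [IsGalois F K]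
  {G : Type} [CommGroup G] [Fintype G] {ι : G ≃* (K ≃ₐ[F] K)}
  {S₀ T₀ : Finset (HeightOneSpectrum (𝓞 F₀))} {r : ℕ} {w : Fin r → Pl K}
  {fr : HeightOneSpectrum (𝓞 F) → G}

end SY

section LAY

variable {F K : Type} [Field F] [NumberField F] [Field K] [NumberField K] [Algebra F K]
  [IsGalois F K] {G : Type} [CommGroup G] [Fintype G] {ι : G ≃* (K ≃ₐ[F] K)}
  {S T : Finset (HeightOneSpectrum (𝓞 F))} {r : ℕ} {w : Fin r → Pl K}
  {fr : HeightOneSpectrum (𝓞 F) → G}

end LAY

end Pool.Agent.CR
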