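import Pool.Agent.Lib_helper17.CRF.D_WB
import Pool.Agent.Lib_helper29.SY.DefsS
import Pool.Agent.Lib_helper29.SY.Defs
import Pool.Agent.Lib_helper29.SY.DT
import Pool.Agent.Lib_helper49.RT.Amp

/-!
# Composite Rubin (CR): wanted statements, the norm formula for a cyclic extension `K/F`

`K/F` is cyclic with group `G` of order `d = l^j d'`, `Kf ι D` is the fixed field of `D ≤ G`,
`hK ι S T D`, `rK ι S T D` its `(S,T)`-class number and regulator, `dgS ι S v` the decomposition
group of `v ∈ S`; over `v` there are `(dgS v ⊔ D).index` places of the fixed field of `D`.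
-/

set_option autoImplicit false
set_option linter.unusedSectionVars false

namespace Pool.Agent.CR

open Pool.Agent.RSK Pool.Agent.RS2 Pool.Agent.RS3 Pool.Agent.SY
open NumberField IsDedekindDomain Filter Topology Complex

section N

variable {F K : Type} [Field F] [NumberField F] [Field K] [NumberField K] [Algebra F K]
  [IsGalois F K] {G : Type} [CommGroup G] [Fintype G] {ι : G ≃* (K ≃ₐ[F] K)}
  {S T : Finset (HeightOneSpectrum (𝓞 F))} {r : ℕ} {w : Fin r → Pl K}
  {fr : HeightOneSpectrum (𝓞 F) → G}

/-! ## PC: places -/

/-! ## LD: the leading terms -/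

/-! ## GU: Gram determinants of units -/

/-! ## CL: class groups -/

/-! ## NO: the norm formula -/

end N

end Pool.Agent.CR
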