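import Pool.Agent.Lib_helper17.CRF.D_WL
import Pool.Agent.Lib_helper3.AU.ST

/-!
# Composite Rubin (CR): wanted statements, the theorems
-/

set_option autoImplicit false
set_option linter.unusedSectionVars false

namespace Pool.Agent.CR

open Pool.Agent.RSK Pool.Agent.RS2 Pool.Agent.RS3 Pool.Agent.RS4 Pool.Agent.SY Pool.Agent.AU
  Pool.Agent.RT
open NumberField IsDedekindDomain Filter Topology Complex
open scoped TensorProduct

/-! ## UL: the components of a Stark element -/

section UL

variable {F K H : Type} [Field F] [NumberField F] [Field K] [NumberField K] [Field H]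
  [NumberField H] [Algebra F K] [Algebra F H] [Algebra K H]
  [IsScalarTower F K H] [IsGalois F H] [IsGalois F K] [IsGalois K H]
  {G G' : Type} [CommGroup G] [Fintype G] [CommGroup G'] [Fintype G'] {ι : G ≃* (H ≃ₐ[F] H)}
  {ι' : G' ≃* (K ≃ₐ[F] K)} {π : G →* G'}
  {S T : Finset (HeightOneSpectrum (𝓞 F))} {r : ℕ} {w : Fin r → Pl H}
  {fr' : HeightOneSpectrum (𝓞 F) → G'}

end UL

section TP

variable {F H : Type} [Field F] [NumberField F] [Field H] [NumberField H] [Algebra F H]
  [IsGalois F H] {G : Type} [CommGroup G] [Fintype G] {ι : G ≃* (H ≃ₐ[F] H)}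
  {S T : Finset (HeightOneSpectrum (𝓞 F))} {r : ℕ} {w : Fin r → Pl H}
  {fr : HeightOneSpectrum (𝓞 F) → G}

/-! ## FA: families -/

end TP

end Pool.Agent.CR
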